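import Pool.Agent.Work.MP_3bdf32_al.TS1

-- merged part: Pool.Agent.Work.MP_3bdf32_al.Chain2
section
-- merged part: Pool.Agent.Work.MP_3bdf32_al.Vert2
section
/-! Finiteness properties of vertices and vertex groups. -/

namespace Pool.Agent.Work.MP_3bdf32_al

set_option linter.unusedSectionVars false
set_option linter.unusedVariables false

open Subgroup MulAction Filter
open scoped Pointwise

variable {X : Type} [Fintype X] [DecidableEq X] {W : List (FreeGroup X)}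
  {Z Z' Y : Subgroup (FreeGroup X)} {A A' B C C' U : Set (FreeGroup X)} {g x y : FreeGroup X}
  {N N' : Set (Subgroup (FreeGroup X))} {V V' : Ori (FreeGroup X)}

theorem Vert2_reps {α β : Type} (P : α → Prop) {T : Set β} (hT : T.Finite) (R : α → β → Prop)
    (h : ∀ a, P a → ∃ b ∈ T, R a b) :
    ∃ S : Finset α, (∀ a ∈ S, P a) ∧ ∀ a, P a → ∃ a₀ ∈ S, ∃ b, R a b ∧ R a₀ b := by
  have h1 : ∀ b : {b // b ∈ T ∧ ∃ a, P a ∧ R a b}, ∃ a, P a ∧ R a b.1 := fun b => b.2.2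
  choose c hc using h1
  have : Finite {b // b ∈ T ∧ ∃ a, P a ∧ R a b} := (hT.subset fun b hb => hb.1).to_subtype
  refine ⟨(Set.finite_range c).toFinset, fun a ha => ?_, fun a ha => ?_⟩
  · rw [Set.Finite.mem_toFinset] at ha
    obtain ⟨b, rfl⟩ := ha
    exact (hc b).1
  · obtain ⟨b, e, f⟩ := h a ha
    exact ⟨c ⟨b, e, a, ha, f⟩, by rw [Set.Finite.mem_toFinset]; exact ⟨_, rfl⟩, b, f, (hc _).2⟩

theorem Vert2_fg (Γ : Subgroup (FreeGroup X)) (r : FreeGroup X → FreeGroup X → Prop)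
    (h1 : ∀ x, r x x) (h2 : ∀ x y, r x y → r y x) (h3 : ∀ x y w, r x y → r y w → r x w)
    (h4 : ∀ g ∈ Γ, ∀ x y, r x y → r (g * x) (g * y))
    (h5 : ∀ x, ∃ z ∈ Γ, ∀ g ∈ Γ, r (g * x) x → g ∈ zpowers z)
    (h6 : ∀ s, ∃ E : Finset (FreeGroup X), ∀ x, ¬ r x (x * s) → ∃ k ∈ Γ, ∃ e ∈ E, x = k * e) :
    Γ.FG := by
  choose E hE using h6
  have hpair : ∀ a b : FreeGroup X, ∃ D : Set (FreeGroup X), D.Finite ∧ D ⊆ Γ ∧
      ∀ g ∈ Γ, r (g * a) b → g ∈ closure D := by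
    intro a b
    by_cases e : ∃ t ∈ Γ, r (t * a) b
    · obtain ⟨t, ht, e⟩ := e
      obtain ⟨z, hz, f⟩ := h5 a
      refine ⟨{t, z}, by simp, by rintro _ (rfl | rfl) <;> assumption, fun g hg i => ?_⟩
      have j := h4 t⁻¹ (Γ.inv_mem ht) _ _ (h3 _ _ _ i (h2 _ _ e))
      rw [inv_mul_cancel_left, ← mul_assoc] at j
      have l := f _ (Γ.mul_mem (Γ.inv_mem ht) hg) j
      have l' : t⁻¹ * g ∈ closure ({t, z} : Set (FreeGroup X)) :=
        (zpowers_le.2 (subset_closure (by simp))) l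
      have := mul_mem (subset_closure (by simp) : t ∈ closure ({t, z} : Set (FreeGroup X))) l'
      rwa [mul_inv_cancel_left] at this
    · exact ⟨∅, Set.finite_empty, Set.empty_subset _, fun g hg i => (e ⟨g, hg, i⟩).elim⟩
  choose D hD hD' hD'' using hpair
  let F : Set (FreeGroup X) := insert 1 (⋃ s : X, ((E (FreeGroup.of s) : Set (FreeGroup X)) ∪
    (· * FreeGroup.of s) '' (E (FreeGroup.of s) : Set (FreeGroup X))))
  have hF : F.Finite := (Set.finite_iUnion fun s =>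
    (Finset.finite_toSet _).union ((Finset.finite_toSet _).image _)).insert _
  let K : Set (FreeGroup X) := ⋃ a ∈ F, ⋃ b ∈ F, D a b
  have hK : K.Finite := hF.biUnion fun a _ => hF.biUnion fun b _ => hD a b
  have hle : closure K ≤ Γ := by
    rw [closure_le]
    exact Set.iUnion₂_subset fun a _ => Set.iUnion₂_subset fun b _ => hD' a b
  have hA : ∀ a ∈ F, ∀ b ∈ F, ∀ k₀ ∈ closure K, ∀ k ∈ Γ, r (k₀ * a) (k * b) → k ∈ closure K := by
    intro a ha b hb k₀ hk₀ k hk i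
    have j := h4 k⁻¹ (Γ.inv_mem hk) _ _ i
    rw [inv_mul_cancel_left, ← mul_assoc] at j
    have hs : D a b ⊆ K := fun y hy => Set.mem_iUnion₂.2 ⟨a, ha, Set.mem_iUnion₂.2 ⟨b, hb, hy⟩⟩
    have l₀ := hD'' a b _ (Γ.mul_mem (Γ.inv_mem hk) (hle hk₀)) j
    have l : k⁻¹ * k₀ ∈ closure K := Subgroup.closure_mono hs l₀
    have := mul_mem hk₀ (inv_mem l)
    simpa using this
  let P : FreeGroup X → Prop := fun x => ∃ k ∈ closure K, ∃ a ∈ F, r (k * a) x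
  have hstep : ∀ (s : X) x, P x ↔ P (x * FreeGroup.of s) := by
    intro s x
    by_cases e : r x (x * FreeGroup.of s)
    · exact ⟨fun ⟨k, hk, a, ha, i⟩ => ⟨k, hk, a, ha, h3 _ _ _ i e⟩,
        fun ⟨k, hk, a, ha, i⟩ => ⟨k, hk, a, ha, h3 _ _ _ i (h2 _ _ e)⟩⟩
    obtain ⟨k, hk, b, hb, rfl⟩ := hE _ x e
    have f : b ∈ F := .inr (Set.mem_iUnion.2 ⟨s, .inl hb⟩)
    have f' : b * FreeGroup.of s ∈ F := .inr (Set.mem_iUnion.2 ⟨s, .inr ⟨b, hb, rfl⟩⟩)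
    rw [mul_assoc]
    exact ⟨fun ⟨k₀, hk₀, a, ha, i⟩ => ⟨k, hA a ha b f k₀ hk₀ k hk i, _, f', h1 _⟩,
      fun ⟨k₀, hk₀, a, ha, i⟩ => ⟨k, hA a ha _ f' k₀ hk₀ k hk i, _, f, h1 _⟩⟩
  have hall : ∀ g x, P x ↔ P (x * g) := by
    intro g
    induction g using FreeGroup.induction_on with
    | C1 => intro x; rw [mul_one]
    | of s => exact hstep s
    | inv_of s ih => intro x; rw [ih (x * _), inv_mul_cancel_right]
    | mul a b ha hb => intro x; rw [ha x, hb, mul_assoc]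
  refine (Subgroup.fg_iff Γ).2 ⟨K, le_antisymm hle fun g hg => ?_, hK⟩
  obtain ⟨k, hk, a, ha, i⟩ := (hall g 1).1 ⟨1, one_mem _, 1, .inl rfl, by rw [one_mul]; exact h1 1⟩
  rw [one_mul, ← mul_one g] at i
  exact hA a ha 1 (.inl rfl) k hk g hg i

theorem vert_fin (hb : Bx W) (hN : Fam (cl W) N) : ∃ S : Finset (Ori (FreeGroup X)),
    (∀ V ∈ S, IsV (cl W) N V) ∧ ∀ V, IsV (cl W) N V → ∃ k, ∃ V₀ ∈ S, V = tl (cl W) k • V₀ := by
  obtain ⟨n₀, h⟩ := acc hb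
  obtain ⟨S, hS, -, hS'⟩ := h N hN
  have hf : (insert (vx (cl W) N 1)
      (⋃ Z ∈ (S : Set (Subgroup (FreeGroup X))),
        vz (cl W) N Z '' {C | IsAt (cl W) Z C})).Finite :=
    (S.finite_toSet.biUnion fun Z hZ => (atoms_fin hb (hN.sp Z (hS hZ)).1).image _).insert _
  refine ⟨hf.toFinset, fun V hV => ?_, fun V hV => ?_⟩
  · rw [Set.Finite.mem_toFinset] at hV
    rcases hV with rfl | hV
    · exact vx_isV hb hN 1
    · obtain ⟨Z, hZ, C, hC, rfl⟩ := Set.mem_iUnion₂.1 hV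
      exact vz_isV hb hN (hS hZ) hC
  · by_cases e : vx (cl W) N 1 = V
    · exact ⟨1, V, by rw [Set.Finite.mem_toFinset]; exact .inl e.symm, by rw [map_one, one_smul]⟩
    obtain ⟨Z, a, -⟩ := far_cover hb hN hV e
    have hZ := hV.mem a.1
    obtain ⟨Z₀, b, k, rfl⟩ := hS' Z hZ
    have c := (hV.isAt _ hZ).smul (tl (cl W) k)⁻¹
    rw [inv_smul_smul] at c
    refine ⟨k, vz (cl W) N Z₀ ((tl (cl W) k)⁻¹ • V.s (tl (cl W) k • Z₀)), ?_, ?_⟩
    · rw [Set.Finite.mem_toFinset]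
      exact .inr (Set.mem_iUnion₂.2 ⟨Z₀, b, _, c, rfl⟩)
    · rw [vz_smul (hN.pres k), smul_inv_smul]
      exact adj_eq hb hN hV a

theorem adj_fin (hb : Bx W) (hN : Fam (cl W) N) (hV : IsV (cl W) N V) :
    ∃ S : Finset (Subgroup (FreeGroup X)), (∀ Z ∈ S, Adj V Z) ∧
      ∀ Z, Adj V Z → ∃ k ∈ GV (cl W) V, ∃ Z₀ ∈ S, Z = tl (cl W) k • Z₀ := by
  obtain ⟨n₀, h⟩ := acc hb
  obtain ⟨S, hS, -, hS'⟩ := h N hN
  have hf : (⋃ Z ∈ (S : Set (Subgroup (FreeGroup X))),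
      Prod.mk Z '' {C | IsAt (cl W) Z C}).Finite :=
    S.finite_toSet.biUnion fun Z hZ => (atoms_fin hb (hN.sp Z (hS hZ)).1).image _
  obtain ⟨T, a, b⟩ := Vert2_reps (Adj V) hf
    (fun Z p => ∃ k, Z = tl (cl W) k • p.1 ∧ V.s Z = tl (cl W) k • p.2) (fun Z c => by
      have hZ := hV.mem c.1
      obtain ⟨Z₀, d, k, rfl⟩ := hS' Z hZ
      have c := (hV.isAt _ hZ).smul (tl (cl W) k)⁻¹
      rw [inv_smul_smul] at c
      exact ⟨(Z₀, _), Set.mem_iUnion₂.2 ⟨Z₀, d, _, c, rfl⟩, k, rfl, (smul_inv_smul _ _).symm⟩)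
  refine ⟨T, a, fun Z c => ?_⟩
  obtain ⟨Z₁, d, p, ⟨k, e, e'⟩, k₁, f, f'⟩ := b Z c
  have i : Z = tl (cl W) (k * k₁⁻¹) • Z₁ := by
    rw [e, f, ← mul_smul, ← map_mul, inv_mul_cancel_right]
  have j : V.s Z = tl (cl W) (k * k₁⁻¹) • V.s Z₁ := by
    rw [e', f', ← mul_smul, ← map_mul, inv_mul_cancel_right]
  refine ⟨k * k₁⁻¹, ?_, Z₁, d, i⟩
  have l := vz_smul (hN.pres (k * k₁⁻¹)) Z₁ (V.s Z₁)
  rw [← i, ← j, ← adj_eq hb hN hV c, ← adj_eq hb hN hV (a _ d)] at l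
  exact l

theorem vx_mul (hN : Fam (cl W) N) (k x : FreeGroup X) :
    tl (cl W) k • vx (cl W) N x = vx (cl W) N (k * x) := by
  rw [vx_smul (hN.pres k), tl_smul]

theorem vx_mul_mem (x : FreeGroup X) (h : g ∈ cl W) : vx (cl W) N (x * g) = vx (cl W) N x := by
  ext Z : 2
  by_cases e : Z ∈ N
  · rw [vx_of_mem e, vx_of_mem e]
    exact atom_eq_iff.2 (eqv_of_mem Z x h).symm
  · rw [vx_of_not e, vx_of_not e]

theorem conj_mem_GV (hN : Fam (cl W) N) (k : FreeGroup X) (h : g ∈ cl W) :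
    k * g * k⁻¹ ∈ GV (cl W) (vx (cl W) N k) := by
  rw [mem_GV, vx_mul hN, inv_mul_cancel_right, vx_mul_mem k h]

theorem vx_eq_vx (hN : Fam (cl W) N) :
    vx (cl W) N x = vx (cl W) N y ↔ y * x⁻¹ ∈ GV (cl W) (vx (cl W) N x) := by
  rw [mem_GV, vx_mul hN, inv_mul_cancel_right, eq_comm]

/-- modulo the vertex group, only finitely many edges pass through a vertex -/
theorem pass_fin (hb : Bx W) (hN : Fam (cl W) N) (hV : IsV (cl W) N V) (s : FreeGroup X) :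
    ∃ E : Finset (FreeGroup X), ∀ x, Btw V x (x * s) → ∃ k ∈ GV (cl W) V, ∃ e ∈ E, x = k * e := by
  have hf : {V₁ | IsV (cl W) N V₁ ∧ Btw V₁ 1 s}.Finite := by
    refine Set.Finite.of_injOn
      (f := fun V₁ : Ori (FreeGroup X) =>
        {Z | (Z ∈ N ∧ ¬ Eqv (cl W) Z 1 s) ∧ (1 : FreeGroup X) ∈ V₁.s Z})
      ?_ ?_ (hN.lf hb 1 s).finite_subsets
    · exact fun V₁ _ Z hZ => hZ.1
    have key : ∀ V₁ V₂ : Ori (FreeGroup X), IsV (cl W) N V₁ → IsV (cl W) N V₂ → Btw V₂ 1 s →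
        {Z | (Z ∈ N ∧ ¬ Eqv (cl W) Z 1 s) ∧ (1 : FreeGroup X) ∈ V₁.s Z} ⊆
          {Z | (Z ∈ N ∧ ¬ Eqv (cl W) Z 1 s) ∧ (1 : FreeGroup X) ∈ V₂.s Z} →
        ∀ Z ∈ N, (1 : FreeGroup X) ∈ V₁.s Z → (1 : FreeGroup X) ∈ V₂.s Z := by
      intro V₁ V₂ a b c d Z hZ e
      by_cases f : Eqv (cl W) Z 1 s
      · rcases c Z with i | i
        · exact i
        · rw [(b.isAt Z hZ).eq i]
          exact f.symm
      · exact (d ⟨⟨hZ, f⟩, e⟩).2
    rintro V₁ ⟨a, a'⟩ V₂ ⟨b, b'⟩ e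
    ext Z : 2
    by_cases hZ : Z ∈ N
    · by_cases f : (1 : FreeGroup X) ∈ V₁.s Z
      · exact (a.isAt Z hZ).eq_of_mem (b.isAt Z hZ) f (key V₁ V₂ a b b' e.subset Z hZ f)
      · exact (a.isAt Z hZ).eq_of_mem (b.isAt Z hZ) ((a' Z).resolve_left f)
          ((b' Z).resolve_left fun i => f (key V₂ V₁ b a a' e.symm.subset Z hZ i))
    · rw [a.out Z hZ, b.out Z hZ]
  obtain ⟨E, -, b⟩ := Vert2_reps (fun x => Btw V x (x * s)) hf
    (fun x V₁ => tl (cl W) x⁻¹ • V = V₁) (fun x c => ⟨_, ⟨hV.smul (hN.pres x⁻¹), by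
      have := c.smul (tl (cl W) x⁻¹)
      rwa [tl_smul, tl_smul, inv_mul_cancel, inv_mul_cancel_left] at this⟩, rfl⟩)
  refine ⟨E, fun x c => ?_⟩
  obtain ⟨e, d, V₁, f, f'⟩ := b x c
  refine ⟨x * e⁻¹, ?_, e, d, (inv_mul_cancel_right _ _).symm⟩
  rw [mem_GV, map_mul, mul_smul, f', ← f, ← mul_smul, ← map_mul, mul_inv_cancel, map_one, one_smul]

theorem btw_iff (hb : Bx W) (hN : Fam (cl W) N) (hV : IsV (cl W) N V) : Btw V x y ↔ ¬ Beh V x y := by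
  constructor
  · rintro h ⟨Z, -, a, b⟩
    exact (h Z).elim a b
  · intro h Z
    by_contra c
    rw [not_or] at c
    obtain ⟨Y, a, b⟩ := adj_above hb hN hV (hV.mem (Z := Z) fun e => c.1 (by rw [e]; trivial))
    exact h ⟨Y, a, fun d => c.1 (b d), fun d => c.2 (b d)⟩

theorem GV_fg (hb : Bx W) (hN : Fam (cl W) N) (hV : IsV (cl W) N V) : (GV (cl W) V).FG := by
  have hadj : ∀ g ∈ GV (cl W) V, ∀ Z, Adj V Z → Adj V (tl (cl W) g • Z) := fun g hg Z a => by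
    have := a.smul (tl (cl W) g)
    rwa [mem_GV.1 hg] at this
  have huniq : ∀ x Z Z', Adj V Z → Adj V Z' → x ∉ V.s Z → x ∉ V.s Z' → Z = Z' :=
    fun x Z Z' a a' b b' => by
      by_contra e
      exact b' (adj_disj hb hN hV a a' e b)
  refine Vert2_fg (GV (cl W) V) (fun x y => x = y ∨ Beh V x y) (fun x => .inl rfl) ?_ ?_ ?_ ?_ ?_
  · rintro x y (rfl | ⟨Z, a, b, c⟩)
    exacts [.inl rfl, .inr ⟨Z, a, c, b⟩]
  · rintro x y w (rfl | ⟨Z, a, b, c⟩) h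
    · exact h
    rcases h with rfl | ⟨Z', a', b', c'⟩
    · exact .inr ⟨Z, a, b, c⟩
    · obtain rfl := huniq y Z Z' a a' c b'
      exact .inr ⟨Z, a, b, c'⟩
  · rintro g hg x y (rfl | h)
    · exact .inl rfl
    · have := h.smul (tl (cl W) g)
      rw [mem_GV.1 hg] at this
      exact .inr this
  · intro x
    by_cases e : ∃ Z, Adj V Z ∧ x ∉ V.s Z
    · obtain ⟨Z, a, b⟩ := e
      have hZ : Ax Z := (hN.sp Z (hV.mem a.1)).1
      obtain ⟨z, -, c, -⟩ := hZ.gen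
      obtain ⟨n, d⟩ := (Subgroup.le_zpowers_iff z (Z ⊓ GV (cl W) V)).1 (c ▸ inf_le_left)
      have f : z ^ n ∈ Z ⊓ GV (cl W) V := d ▸ mem_zpowers _
      refine ⟨z ^ n, f.2, fun g hg i => ?_⟩
      rw [← d]
      refine ⟨hZ.norm.1 (huniq (g * x) _ _ (hadj g hg Z a) a ?_ ?_), hg⟩
      · rw [GV_smul_s hg, mul_mem_smul]
        exact b
      · rcases i with i | ⟨Z', a', b', c'⟩
        · rwa [i]
        · rwa [huniq x Z Z' a a' b c']
    · refine ⟨1, one_mem _, fun g hg i => ?_⟩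
      rcases i with i | ⟨Z', a', b', c'⟩
      · rw [mul_eq_right.1 i]
        exact one_mem _
      · exact (e ⟨Z', a', c'⟩).elim
  · intro s
    obtain ⟨E, h⟩ := pass_fin hb hN hV s
    exact ⟨E, fun x c => h x ((btw_iff hb hN hV).2 fun d => c (.inr d))⟩

theorem GV_na (hb : Bx W) (hN : Fam (cl W) N) (hH : NA (cl W)) (hV : IsV (cl W) N V) :
    NA (GV (cl W) V) := by
  by_cases e : ∃ k, vx (cl W) N k = V
  · obtain ⟨k, rfl⟩ := e
    obtain ⟨a, ha, b, hb', c⟩ := hH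
    refine ⟨_, conj_mem_GV hN k ha, _, conj_mem_GV hN k hb', fun d => c ?_⟩
    have := d.map (MulAut.conj k⁻¹)
    simpa [mul_assoc] using this
  · obtain ⟨Z, a, -⟩ := far_cover hb hN hV (x := 1) fun f => e ⟨_, f⟩
    obtain ⟨x, hx, -⟩ := hV.meet Z Z
    obtain ⟨Z', a', b⟩ := far_cover hb hN hV (x := x) fun f => e ⟨_, f⟩
    have hZ : Ax Z := (hN.sp Z (hV.mem a.1)).1
    have hZ' : Ax Z' := (hN.sp Z' (hV.mem a'.1)).1
    obtain ⟨z, c, d, -⟩ := hZ.gen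
    obtain ⟨z', c', d', -⟩ := hZ'.gen
    have f : z ∈ Z := d ▸ mem_zpowers z
    have f' : z' ∈ Z' := d' ▸ mem_zpowers z'
    obtain ⟨m, hm, i⟩ := adj_pow hb hN hV a f
    obtain ⟨m', hm', i'⟩ := adj_pow hb hN hV a' f'
    refine ⟨_, i', _, i, fun j => b ?_⟩
    have l : z' ∈ Z := by
      rw [← hZ.eq_cen f c, mem_cen]
      exact (comm_of_pow hm (comm_of_pow hm' j).symm).symm
    rw [← hZ.inter hZ' l f' c']
    exact hx

theorem GV_inj (hb : Bx W) (hN : Fam (cl W) N) (hH : NA (cl W)) (hV : IsV (cl W) N V)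
    (hV' : IsV (cl W) N V') (e : GV (cl W) V ≤ GV (cl W) V') : V = V' := by
  obtain ⟨a, ha, b, hb', c⟩ := GV_na hb hN hH hV
  ext Z : 2
  by_cases hZ : Z ∈ N
  · have key : ∀ g ∈ GV (cl W) V, g ∉ Z → V.s Z = V'.s Z := fun g hg d => by
      obtain ⟨x, f, f'⟩ := ((fix_end hb hN hV hg hZ d).inter
        (fix_end hb hN hV' (e hg) hZ d)).nonempty
      exact (hV.isAt Z hZ).eq_of_mem (hV'.isAt Z hZ) f f'
    by_cases d : a ∈ Z
    · exact key b hb' fun f => c ((hN.sp Z hZ).1.comm d f)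
    · exact key a ha d
  · rw [hV.out Z hZ, hV'.out Z hZ]

end Pool.Agent.Work.MP_3bdf32_al
end

-- merged part: Pool.Agent.Work.MP_3bdf32_al.Vert3
section
/-! Restriction to subfamilies and the simplicity criterion. -/

namespace Pool.Agent.Work.MP_3bdf32_al

set_option linter.unusedSectionVars false
set_option linter.unusedVariables false

open Subgroup MulAction Filter
open scoped Pointwise

variable {X : Type} [Fintype X] [DecidableEq X] {W : List (FreeGroup X)}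
  {Z Z' Y : Subgroup (FreeGroup X)} {A A' B C C' U : Set (FreeGroup X)} {g x y : FreeGroup X}
  {N N' : Set (Subgroup (FreeGroup X))} {V V' : Ori (FreeGroup X)}

theorem Vert3_sub_res : V.s Z ⊆ (res N' V).s Z := by
  by_cases h : Z ∈ N'
  · rw [res_of_mem h]
  · rw [res_of_not h]
    exact Set.subset_univ _

theorem Vert3_pow_ne (f : g ≠ 1) {m : ℕ} (hm : 0 < m) : g ^ m ≠ 1 := fun e =>
  f (root_uniq hm (by rw [e, one_pow]))

/-- crossing a one sided adjacent axis is a translation -/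
theorem Vert3_swap (hb : Bx W) (hN : Fam (cl W) N) (hV : IsV (cl W) N V) (h : Adj V Z)
    (o : OneS (cl W) Z) (hC : IsAt (cl W) Z C) (e : V.s Z ≠ C) :
    ∃ c ∈ Z, tl (cl W) c • V = vz (cl W) N Z C := by
  obtain ⟨A, hA, c, hc, s⟩ := o
  have hZ : Z ∈ N := hV.mem h.1
  have s' : tl (cl W) c • Aᶜ = A := by rw [smul_compl, s, compl_compl]
  have key : tl (cl W) c • V.s Z = C := by
    rcases hA.isAt.1 (hV.isAt Z hZ) with a | a <;> rcases hA.isAt.1 hC with b | b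
    · exact (e (a.trans b.symm)).elim
    · rw [a, b, s]
    · rw [a, b, s']
    · exact (e (a.trans b.symm)).elim
  refine ⟨c, hc, ?_⟩
  have nz : tl (cl W) c • Z = Z := (hN.sp Z hZ).1.norm.2 hc
  have a1 := h.smul (tl (cl W) c)
  have e1 := ori_smul' (tl (cl W) c) V Z
  rw [nz] at a1 e1
  rw [← key, ← e1]
  exact adj_eq hb hN (hV.smul (hN.pres c)) a1

theorem Vert3_crs_same (hb : Bx W) (hN : Fam (cl W) N) (hV : IsV (cl W) N V)
    (hV' : IsV (cl W) N V') (hZ : Ax Z) (hZ' : Sp (cl W) Z') (c : Crs (cl W) Z Z')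
    {g' : FreeGroup X} (e : g ∈ Z) (f : g ≠ 1) (i : g ∈ GV (cl W) V) (e' : g' ∈ Z') (f' : g' ≠ 1)
    (i' : g' ∈ GV (cl W) V') : V = V' := by
  have n : ∀ Y ∈ N, ¬ Crs (cl W) Y Z := fun Y hY => by
    rw [← hZ.eq_cen e f]; exact fix_nc hb hN hV i f hY
  have n' : ∀ Y ∈ N, ¬ Crs (cl W) Y Z' := fun Y hY => by
    rw [← hZ'.1.eq_cen e' f']; exact fix_nc hb hN hV' i' f' hY
  ext Y : 2
  by_cases hY : Y ∈ N
  swap
  · rw [hV.out Y hY, hV'.out Y hY]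
  have sY := hN.sp Y hY
  have a : Y ≠ Z := by
    rintro rfl
    exact n' Y hY c
  have a' : Y ≠ Z' := by
    rintro rfl
    exact n Y hY (c.symm hb hZ hZ')
  have b := eq_en hb sY.1 hZ a (n Y hY) (hV.isAt Y hY) e f
    (fix_end hb hN hV i hY fun d => a (sY.1.inter hZ d e f))
  have b' := eq_en hb sY.1 hZ'.1 a' (n' Y hY) (hV'.isAt Y hY) e' f'
    (fix_end hb hN hV' i' hY fun d => a' (sY.1.inter hZ'.1 d e' f'))
  by_contra d
  exact nc_of_sep hb sY hZ hZ'.1 a a' (n Y hY) (n' Y hY) (by rwa [← b, ← b']) c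

theorem Vert3_key (hb : Bx W) (hN : Fam (cl W) N) (hV : IsV (cl W) N V) (e : g ∈ GV (cl W) V)
    (f : g ≠ 1) (hA : Cut (cl W) (cen g) A) (n : A.Nonempty) (n' : Aᶜ.Nonempty) {k : FreeGroup X}
    (c : Crs (cl W) (cen g) (tl (cl W) k • cen g)) :
    k ∈ GV (cl W) V ∧ Sep A (tl (cl W) k • cen g) := by
  have sp := (sp_of_cut (ax_cen f) hA n n').smul (tl (cl W) k)
  exact ⟨(Vert3_crs_same hb hN hV (hV.smul (hN.pres k)) (ax_cen f) sp c (self_mem_cen g) f e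
    (lin_mem.2 (self_mem_cen g)) (lin_ne f) ((lin_mem_GV _).2 e)).symm,
    crs_sep hb sp.1 (ax_cen f) (c.symm hb (ax_cen f) sp) hA n n'⟩

theorem res_isV (s : N' ⊆ N) (hV : IsV (cl W) N V) : IsV (cl W) N' (res N' V) := by
  refine ⟨fun Z hZ => ?_, fun Z hZ => res_of_not hZ V, fun Z Z' => ?_, fun x => ?_⟩
  · rw [res_of_mem hZ]
    exact hV.isAt Z (s hZ)
  · exact (hV.meet Z Z').mono (Set.inter_subset_inter Vert3_sub_res Vert3_sub_res)
  · exact (hV.fin x).subset fun Z hZ a => hZ (Vert3_sub_res a)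

theorem res_vx (s : N' ⊆ N) (x : FreeGroup X) : res N' (vx (cl W) N x) = vx (cl W) N' x := by
  ext Z : 2
  by_cases h : Z ∈ N'
  · rw [res_of_mem h, vx_of_mem h, vx_of_mem (s h)]
  · rw [res_of_not h, vx_of_not h]

theorem res_vz (s : N' ⊆ N) (hZ : Z ∈ N') (C : Set (FreeGroup X)) :
    res N' (vz (cl W) N Z C) = vz (cl W) N' Z C := by
  ext Y : 2
  by_cases e : Y = Z
  · rw [e, res_of_mem hZ, vz_self, vz_self]
  by_cases h : Y ∈ N'
  · rw [res_of_mem h, vz_of_mem e h, vz_of_mem e (s h)]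
  · rw [res_of_not h, vz_of_not e h]

theorem res_GV (hN' : Fam (cl W) N') (V : Ori (FreeGroup X)) : GV (cl W) V ≤ GV (cl W) (res N' V) := by
  intro k hk
  rw [mem_GV] at hk ⊢
  rw [res_smul (hN'.pres k), hk]

theorem res_adj (hZ : Z ∈ N') (h : Adj V Z) : Adj (res N' V) Z := by
  refine ⟨by rw [res_of_mem hZ]; exact h.1, fun Y e => h.2 Y ?_⟩
  rw [res_of_mem hZ] at e
  exact Vert3_sub_res.trans e

theorem ex_over (hb : Bx W) (hN : Fam (cl W) N) (hN' : Fam (cl W) N') (s : N' ⊆ N)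
    (hV : IsV (cl W) N' V') : ∃ V, IsV (cl W) N V ∧ res N' V = V' := by
  by_cases e : vx (cl W) N' 1 = V'
  · exact ⟨_, vx_isV hb hN 1, by rw [res_vx s, e]⟩
  obtain ⟨Z, a, -⟩ := far_cover hb hN' hV e
  have hZ : Z ∈ N' := hV.mem a.1
  exact ⟨_, vz_isV hb hN (s hZ) (hV.isAt Z hZ), by
    rw [res_vz s hZ]; exact (adj_eq hb hN' hV a).symm⟩

theorem over_adj (hb : Bx W) (hN : Fam (cl W) N) (hN' : Fam (cl W) N') (s : N' ⊆ N)
    (hV : IsV (cl W) N V) (hY : Y ∈ N) (hY' : Y ∉ N') (e : g ∈ Y) (f : g ≠ 1)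
    (i : g ∈ GV (cl W) (res N' V)) : ∃ Y' ∈ N, Y' ∉ N' ∧ Adj V Y' := by
  have ax : Ax Y := (hN.sp Y hY).1
  have h1 := vz_isV hb hN hY (hV.isAt Y hY)
  have a1 := vz_adj hb hN hY (hV.isAt Y hY)
  obtain ⟨m, hm, b⟩ := adj_pow hb hN h1 a1 e
  have f' := Vert3_pow_ne f hm
  have c : cen (g ^ m) = Y := ax.eq_cen (Y.pow_mem e m) f'
  have d := fix_uniq hb hN' (res_isV s hV) (res_isV s h1) (pow_mem i m) (res_GV hN' _ b) f'
    (by rwa [c])
  by_cases j : V = vz (cl W) N Y (V.s Y)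
  · exact ⟨Y, hY, hY', by rw [j]; exact a1⟩
  obtain ⟨Z, a, n⟩ := ex_first hb hN hV h1 j
  refine ⟨Z, hV.mem a.1, fun hZ => n ?_, a⟩
  rw [← res_of_mem hZ V, d, res_of_mem hZ]

/-- an adjacent axis outside the subfamily lies in the restricted vertex group -/
theorem adj_le_res (hb : Bx W) (hN : Fam (cl W) N) (hN' : Fam (cl W) N') (s : N' ⊆ N)
    (hV : IsV (cl W) N V) (h : Adj V Y) (hY' : Y ∉ N') : Y ≤ GV (cl W) (res N' V) := by
  intro g e
  have ax : Ax Y := (hN.sp Y (hV.mem h.1)).1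
  by_cases f : g = 1
  · rw [f]; exact one_mem _
  obtain ⟨m, hm, b⟩ := adj_pow hb hN hV h e
  have f' := Vert3_pow_ne f hm
  have c : cen (g ^ m) = Y := ax.eq_cen (Y.pow_mem e m) f'
  have := fix_root_GV hb hN' (res_isV s hV) (res_GV hN' _ b) f' (by rwa [c])
  rw [c] at this
  exact this e

theorem GV_root (hb : Bx W) (hN : Fam (cl W) N) (hN' : Fam (cl W) N') (s : N' ⊆ N)
    (o : ∀ Z ∈ N, Z ∉ N' → OneS (cl W) Z) (hV : IsV (cl W) N V) :
    GV (cl W) (res N' V) ≤ Subgroup.closure {g | ∃ n : ℕ, 0 < n ∧ g ^ n ∈ GV (cl W) V} := by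
  intro g hg
  set K := Subgroup.closure {g | ∃ n : ℕ, 0 < n ∧ g ^ n ∈ GV (cl W) V} with hK
  have h1 : IsV (cl W) N (tl (cl W) g • V) := hV.smul (hN.pres g)
  have hr : res N' (tl (cl W) g • V) = res N' V := by
    rw [← res_smul (hN'.pres g)]; exact hg
  obtain ⟨k, hk, e⟩ := path_ind hb hN hV h1 (fun U => ∃ k ∈ K, U = tl (cl W) k • V)
    ⟨1, one_mem _, by rw [map_one, one_smul]⟩ (by
      rintro _ Z hU ⟨k, hk, rfl⟩ a b c -
      have hZ : Z ∈ N := hU.mem a.1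
      have hZ' : Z ∉ N' := fun hZ' => c (by
        rw [b, ← res_of_mem hZ' V, ← hr, res_of_mem hZ'])
      obtain ⟨u, hu, d⟩ := Vert3_swap hb hN hU a (o Z hZ hZ') (h1.isAt Z hZ) c
      obtain ⟨m, hm, i⟩ := adj_pow hb hN hU a hu
      refine ⟨k * (k⁻¹ * u * k), mul_mem hk (subset_closure ⟨m, hm, ?_⟩), ?_⟩
      · rw [← lin_mem_GV (tl (cl W) k), lin_tl, map_pow, MulAut.conj_apply]
        have : k * (k⁻¹ * u * k) * k⁻¹ = u := by group
        rwa [this]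
      · rw [← d, ← mul_smul, ← map_mul]
        congr 2
        group)
  have j : k⁻¹ * g ∈ GV (cl W) V := by
    rw [mem_GV, map_mul, mul_smul, e, map_inv, inv_smul_smul]
  have := mul_mem hk (subset_closure (k := {g | ∃ n : ℕ, 0 < n ∧ g ^ n ∈ GV (cl W) V})
    ⟨1, one_pos, by rwa [pow_one]⟩ : k⁻¹ * g ∈ K)
  rwa [mul_inv_cancel_left] at this

/-- adjacent translates of a one sided axis differ by an element of the vertex group -/
theorem adj_orb (hb : Bx W) (hN : Fam (cl W) N) (hV : IsV (cl W) N V) (h : Adj V Z) (h' : Adj V Z')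
    (o : OneS (cl W) Z) (e : Z' ∈ orb (cl W) Z) : ∃ k ∈ GV (cl W) V, Z' = tl (cl W) k • Z := by
  obtain ⟨k, rfl⟩ := e
  have hZ' : tl (cl W) k • Z ∈ N := hV.mem h'.1
  have h1 : IsV (cl W) N (tl (cl W) k • V) := hV.smul (hN.pres k)
  have a1 := h.smul (tl (cl W) k)
  by_cases b : (tl (cl W) k • V).s (tl (cl W) k • Z) = V.s (tl (cl W) k • Z)
  · refine ⟨k, ?_, rfl⟩
    rw [mem_GV, adj_eq hb hN h1 a1, b]
    exact (adj_eq hb hN hV h').symm
  obtain ⟨u, hu, d⟩ := Vert3_swap hb hN h1 a1 (o.smul _) (hV.isAt _ hZ') b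
  refine ⟨u * k, ?_, ?_⟩
  · rw [mem_GV, map_mul, mul_smul, d]
    exact (adj_eq hb hN hV h').symm
  · rw [map_mul, mul_smul, (hN.sp _ hZ').1.norm.2 hu]

theorem simp_GV (hb : Bx W) (hN : Fam (cl W) N) (hV : IsV (cl W) N V) (e : g ∈ GV (cl W) V)
    (f : g ≠ 1) (hA : Cut (cl W) (cen g) A) (n : A.Nonempty) (n' : Aᶜ.Nonempty)
    (h : ∀ k ∈ GV (cl W) V, ¬ Commute k g → ∀ c, (c = k * g * k⁻¹ ∨ c = k * g⁻¹ * k⁻¹) →
      ¬ (Ev A c ∧ Ev Aᶜ c⁻¹)) : Simp (cl W) (cen g) := by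
  refine ⟨sp_of_cut (ax_cen f) hA n n', fun k c => ?_⟩
  obtain ⟨hk, s⟩ := Vert3_key hb hN hV e f hA n n' c
  have nc : ¬ Commute k g := fun a => c.1 ((ax_cen f).norm.2 (mem_cen.2 a)).symm
  have f' : k * g * k⁻¹ ≠ 1 := by simpa using f
  rw [tl_cen] at s
  rcases s.ev (ax_cen f') (self_mem_cen _) f' with a | a
  · exact h k hk nc _ (.inl rfl) a
  · exact h k hk nc (k * g * k⁻¹)⁻¹ (.inr (by group)) ⟨a.2, by rw [inv_inv]; exact a.1⟩

theorem simp_GV_nest (hb : Bx W) (hN : Fam (cl W) N) (hV : IsV (cl W) N V) (e : g ∈ GV (cl W) V)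
    (f : g ≠ 1) (hA : Cut (cl W) (cen g) A) (n : A.Nonempty) (n' : Aᶜ.Nonempty)
    (h : ∀ k ∈ GV (cl W) V, Nest A (k • A)) : Simp (cl W) (cen g) := by
  refine ⟨sp_of_cut (ax_cen f) hA n n', fun k c => ?_⟩
  obtain ⟨hk, s⟩ := Vert3_key hb hN hV e f hA n n' c
  exact s.not_nest hb ((ax_cen f).smul _) (hA.smul' k) n.smul_set
    (by rw [← smul_compl']; exact n'.smul_set) (h k hk)

theorem maxS (hb : Bx W) (hN : Fam (cl W) N) (hV : IsV (cl W) N V)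
    (h : ∀ z ∈ GV (cl W) V, z ≠ 1 → Simp (cl W) (cen z) → cen z ∈ N) : MaxS (cl W) (GV (cl W) V) := by
  intro z e f A hA n n' a
  have hZ : cen z ∈ N := h z e f (simp_GV hb hN hV e f hA n n' a)
  refine ⟨V.s (cen z), (hV.isAt _ hZ).nonempty, (hV.isAt _ hZ).mono hA, ?_, fun g b c =>
    fix_end hb hN hV b hZ fun d => c (mem_cen.1 d)⟩
  rw [← GV_smul_s e, (ax_cen f).norm.2 (self_mem_cen z)]

theorem oo_oneS (hb : Bx W) (h : Z ∈ OO (cl W)) : OneS (cl W) Z := by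
  obtain ⟨a, b, V, -, c, g, d, e, f⟩ := h
  rcases simp_tri hb a with i | i | i
  · exact (b i).elim
  · exact (c ⟨Z, i, g, d, e, f⟩).elim
  · exact i

theorem oo_nc (hb : Bx W) (h : Z ∈ OO (cl W)) (hY : Y ∈ UU (cl W)) :
    ¬ Crs (cl W) Y Z ∧ ¬ Crs (cl W) Z Y := by
  obtain ⟨a, -, V, hV, -, g, d, e, f⟩ := h
  have i := fix_nc hb (fam_uu hb) hV f e hY
  rw [a.1.1.eq_cen d e] at i
  exact ⟨i, fun j => i (j.symm hb a.1.1 hY.1.1)⟩

/-- crossing axes outside the family lie in the same vertex group -/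
theorem crs_same (hb : Bx W) (hN : Fam (cl W) N) (hV : IsV (cl W) N V) (hV' : IsV (cl W) N V')
    (hZ : Ax Z) (hZ' : Sp (cl W) Z') (c : Crs (cl W) Z Z') {g' : FreeGroup X} (e : g ∈ Z)
    (f : g ≠ 1) (i : g ∈ GV (cl W) V) (e' : g' ∈ Z') (f' : g' ≠ 1) (i' : g' ∈ GV (cl W) V') :
    V = V' := by
  exact Vert3_crs_same hb hN hV hV' hZ hZ' c e f i e' f' i'

/-- a simple axis in a vertex that is not flexible is canonical or one sided -/
theorem nonflex_tri (hb : Bx W) (hV : IsV (cl W) (UU (cl W)) V) (h : ¬ Flex (cl W) V)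
    (e : g ∈ GV (cl W) V) (f : g ≠ 1) (s : Simp (cl W) (cen g)) :
    cen g ∈ UU (cl W) ∨ cen g ∈ OO (cl W) := by
  by_cases a : cen g ∈ UU (cl W)
  · exact .inl a
  · exact .inr ⟨s, a, V, hV, h, g, self_mem_cen g, f, e⟩

end Pool.Agent.Work.MP_3bdf32_al
end

-- merged part: Pool.Agent.Work.MP_3bdf32_al.Chain1
section
/-! Arcs crossing a vertex, and chains of arcs. -/

namespace Pool.Agent.Work.MP_3bdf32_al

set_option linter.unusedSectionVars false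
set_option linter.unusedVariables false

open Subgroup MulAction Filter
open scoped Pointwise

variable {X : Type} [Fintype X] [DecidableEq X] {W : List (FreeGroup X)}
  {Z Z' Y : Subgroup (FreeGroup X)} {A A' B C C' U : Set (FreeGroup X)} {g x y : FreeGroup X}
  {N N' : Set (Subgroup (FreeGroup X))} {V V' : Ori (FreeGroup X)}
  {d : Subgroup (FreeGroup X)} {D : Set (FreeGroup X)} {O O' : Set (Set (FreeGroup X))}
  {F F' : ℤ → Set (FreeGroup X)} {Ys Ys' : ℤ → Subgroup (FreeGroup X)}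

theorem Chain1_adj (hb : Bx W) (hN : Fam (cl W) N) (hV : IsV (cl W) N V) (a : Adj V Y) :
    Y ∈ N ∧ Sp (cl W) Y ∧ Cut (cl W) Y (V.s Y) ∧ (V.s Y).Nonempty ∧ (V.s Y)ᶜ.Nonempty :=
  have h := hV.mem a.1
  ⟨h, hN.sp _ h, hV.cut hb hN h, (hV.isAt _ h).nonempty, Set.nonempty_compl.2 a.1⟩

theorem Chain1_sep (hb : Bx W) (hN : Fam (cl W) N) (hV : IsV (cl W) N V) (hd : Ax d)
    (hD : Two (cl W) d D) (a : Adj V Y) (s : Sep D Y) : Sep (V.s Y) d :=
  let ⟨_, b, c, e, f⟩ := Chain1_adj hb hN hV a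
  crs_sep hb hd b.1 (crs_of_sep hb hd b.1 hD.1 s) c e f

theorem Chain1_far (hb : Bx W) (hN : Fam (cl W) N) (hV : IsV (cl W) N V) (a : Adj V Y)
    (b : Adj V Z) (e : Ev (V.s Y)ᶜ g) (f : Ev (V.s Z)ᶜ g) : Y = Z :=
  by_contra fun n => (e.mono (adj_disj hb hN hV a b n)).not_compl f

theorem Chain1_tl (e : g ∈ GV (cl W) V) (a : Adj V Y) : Adj V (tl (cl W) g • Y) := by
  have := a.smul (tl (cl W) g)
  rwa [mem_GV.1 e] at this

/-- an axis crossing one adjacent axis crosses exactly two -/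
theorem arc_two (hb : Bx W) (hN : Fam (cl W) N) (hV : IsV (cl W) N V) (hd : Ax d)
    (hD : Two (cl W) d D) (a : Adj V Y) (s : Sep D Y) :
    ∃ Y', Adj V Y' ∧ Y' ≠ Y ∧ Sep D Y' ∧ ∀ Z, Adj V Z → Sep D Z → Z = Y ∨ Z = Y' := by
  obtain ⟨hY, sY, cY, nY, nY'⟩ := Chain1_adj hb hN hV a
  have c := crs_of_sep hb hd sY.1 hD.1 s
  obtain ⟨v, hv, v1, e1, e2⟩ := Chain1_sep hb hN hV hd hD a s
  have hvY : v ∉ Y := (c.symm hb hd sY).not_mem sY.1 hd hv v1
  have t : Two (cl W) Y (V.s Y) := by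
    obtain ⟨B, t, -⟩ := crs_two hb hd sY c
    rcases t.eq cY nY nY' with e | e <;> rw [e]
    exacts [t, t.compl]
  obtain ⟨n, hn⟩ : ∃ n : ℕ, V.s (tl (cl W) (v ^ n) • Y) = (v ^ n • V.s Y)ᶜ := by
    by_contra! hc
    have inj : Function.Injective fun n : ℕ => tl (cl W) (v ^ n) • Y := by
      refine Function.Injective.of_lt_imp_ne fun m n l e => hvY ?_
      obtain ⟨r, rfl⟩ := Nat.exists_eq_add_of_lt l
      rw [add_assoc, pow_add, map_mul, mul_smul] at e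
      exact sY.1.root r.succ_pos (sY.1.norm.1 (smul_left_cancel _ e).symm)
    obtain ⟨n₀, h₀⟩ := eventually_atTop.1 (e2 1)
    refine ((Set.Ici_infinite n₀).image inj.injOn).mono ?_ (hV.fin 1)
    rintro _ ⟨n, hn, rfl⟩ m
    rw [((t.smul' (v ^ n)).isAt.1 (hV.isAt _ (hN.inv _ _ hY))).resolve_right (hc n), mem_smul',
      ← inv_pow] at m
    exact h₀ n hn m
  obtain ⟨Y', a', l⟩ := adj_above hb hN hV (hN.inv (v ^ n) _ hY)
  have e3 : Ev (V.s Y')ᶜ v :=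
    (e1.smul_comm (Commute.pow_self v n)).mono (Set.subset_compl_comm.1 (hn ▸ l))
  have ne : Y' ≠ Y := fun e => e1.not_compl (e ▸ e3)
  obtain ⟨-, sY', cY', -⟩ := Chain1_adj hb hN hV a'
  refine ⟨Y', a', ne, crs_sep hb sY'.1 hd (crs_of_sep hb sY'.1 hd cY'.compl ⟨v, hv, v1, e3, ?_⟩)
    hD.1 hD.2.1 hD.2.2.1, fun Z b s' => ?_⟩
  · rw [compl_compl]
    exact e2.mono (adj_disj hb hN hV a a' ne.symm)
  · exact ((Chain1_sep hb hN hV hd hD b s').ev hd hv v1).imp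
      (fun f => Chain1_far hb hN hV b a f.2 e2) fun f => Chain1_far hb hN hV b a' f.1 e3

/-- the two ends of the axis lie behind the two adjacent axes -/
theorem arc_ends (hb : Bx W) (hN : Fam (cl W) N) (hV : IsV (cl W) N V) (hd : Ax d)
    (hD : Two (cl W) d D) (a : Adj V Y) (s : Sep D Y) (a' : Adj V Z) (s' : Sep D Z) (e : Y ≠ Z) :
    ∃ v ∈ d, v ≠ 1 ∧ Ev (V.s Z)ᶜ v ∧ Ev (V.s Y)ᶜ v⁻¹ := by
  obtain ⟨v, hv, v1, -, e2⟩ := Chain1_sep hb hN hV hd hD a s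
  rcases (Chain1_sep hb hN hV hd hD a' s').ev hd hv v1 with f | f
  exacts [(e (Chain1_far hb hN hV a a' e2 f.2)).elim, ⟨v, hv, v1, f.1, e2⟩]

theorem arc_free (hb : Bx W) (hN : Fam (cl W) N) (hV : IsV (cl W) N V) (hd : Ax d)
    (hD : Two (cl W) d D) (a : Adj V Y) (s : Sep D Y) (e : g ∈ d) (i : g ∈ GV (cl W) V) : g = 1 := by
  obtain ⟨hY, sY, -⟩ := Chain1_adj hb hN hV a
  by_contra f
  refine fix_nc hb hN hV i f hY ?_
  rw [hd.eq_cen e f]
  exact (crs_of_sep hb hd sY.1 hD.1 s).symm hb hd sY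

theorem arcs_compl (h : A ∈ arcs (cl W) V D) : Aᶜ ∈ arcs (cl W) V D := by
  obtain ⟨k, a, rfl | rfl⟩ := h
  · exact ⟨k, a, .inr (smul_compl' k D).symm⟩
  · exact ⟨k, a, .inl (by rw [smul_compl', compl_compl])⟩

theorem arcs_smul (h : A ∈ arcs (cl W) V D) (e : g ∈ GV (cl W) V) : g • A ∈ arcs (cl W) V D := by
  obtain ⟨k, a, rfl | rfl⟩ := h
  exacts [⟨g * k, mul_mem e a, .inl (smul_smul _ _ _)⟩, ⟨g * k, mul_mem e a, .inr (smul_smul _ _ _)⟩]

theorem Arc.of_mem (h : Arc (cl W) N V d D) (a : A ∈ arcs (cl W) V D) :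
    ∃ k ∈ GV (cl W) V, Arc (cl W) N V (tl (cl W) k • d) A := by
  obtain ⟨Y, b, s⟩ := h.sep
  obtain ⟨k, e, rfl | rfl⟩ := a
  · exact ⟨k, e, h.fam, h.isV, h.simp.smul _, h.two.smul' k, _, Chain1_tl e b, s.smul _⟩
  · exact ⟨k, e, h.fam, h.isV, h.simp.smul _, h.two.compl.smul' k, _, Chain1_tl e b,
      s.compl.smul _⟩

theorem Arc.nest (hb : Bx W) (h : Arc (cl W) N V d D) (a : A ∈ arcs (cl W) V D)
    (a' : A' ∈ arcs (cl W) V D) : Nest A A' := by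
  obtain ⟨k, -, e⟩ := a
  obtain ⟨k', -, e'⟩ := a'
  have n := (h.simp.nest hb h.two (k⁻¹ * k')).smul' k
  rw [smul_smul, mul_inv_cancel_left] at n
  rw [smul_compl'] at e e'
  rcases e with rfl | rfl <;> rcases e' with rfl | rfl
  exacts [n, n.compl_right, n.compl_left, n.compl_left.compl_right]

theorem Arc.free (hb : Bx W) (h : Arc (cl W) N V d D) (a : A ∈ arcs (cl W) V D)
    (e : g ∈ GV (cl W) V) (f : g • A = A ∨ g • A = Aᶜ) : g = 1 := by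
  obtain ⟨k, -, h⟩ := h.of_mem a
  obtain ⟨Y, b, s⟩ := h.sep
  exact arc_free hb h.fam h.isV h.simp.1.1 h.two b s
    (cut_stab hb h.simp.1.1 h.two.1 h.two.2.1 h.two.2.2.1 f) e

/-- the part behind an adjacent axis not crossed by an arc is on one side of the arc -/
theorem Arc.behind (hb : Bx W) (h : Arc (cl W) N V d D) (a : A ∈ arcs (cl W) V D) (b : Adj V Y)
    (n : ¬ Sep A Y) : Mono (V.s Y)ᶜ A ∧ ∀ y ∈ Y, y ≠ 1 → (Ev A y ↔ (V.s Y)ᶜ ⊆ A) := by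
  obtain ⟨k, -, h⟩ := h.of_mem a
  obtain ⟨Y₀, b₀, s₀⟩ := h.sep
  have hd := h.simp.1.1
  obtain ⟨Y₁, b₁, e₁, s₁, -⟩ := arc_two hb h.fam h.isV hd h.two b₀ s₀
  obtain ⟨v, hv, v1, f₁, f₀⟩ := arc_ends hb h.fam h.isV hd h.two b₀ s₀ b₁ s₁ e₁.symm
  obtain ⟨hY, sY, cY, -, x, hx⟩ := Chain1_adj hb h.fam h.isV b
  obtain ⟨hY₀, sY₀, -⟩ := Chain1_adj hb h.fam h.isV b₀
  replace f₁ := f₁.mono (adj_disj hb h.fam h.isV b₁ b fun e => n (e ▸ s₁))
  replace f₀ := f₀.mono (adj_disj hb h.fam h.isV b₀ b fun e => n (e ▸ s₀))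
  have key : ∀ y ∈ Y, y ≠ 1 → (Ev A y ∧ (V.s Y)ᶜ ⊆ A) ∨ (Ev Aᶜ y ∧ (V.s Y)ᶜ ⊆ Aᶜ) := by
    intro y hy y1
    have m : y ∉ tl (cl W) k • d := fun m =>
      h.fam.nc _ (sY.1.inter hd hy m y1 ▸ hY) _ hY₀ (crs_of_sep hb hd sY₀.1 h.two.1 s₀)
    rcases cut_ev hb hd h.two.1 m with p | p <;>
      rcases cut_ev hb hd h.two.1 (mt inv_mem_iff.1 m) with q | q
    · exact .inl ⟨p, cut_cover hb sY.1 hd cY h.two.1 hy y1 hv v1 p q f₁ f₀⟩
    · exact (n ⟨y, hy, y1, p, q⟩).elim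
    · exact (n ⟨y⁻¹, inv_mem hy, inv_ne_one.2 y1, q, by rwa [inv_inv]⟩).elim
    · exact .inr ⟨p, cut_cover hb sY.1 hd cY h.two.1.compl hy y1 hv v1 p q f₁ f₀⟩
  obtain ⟨z, z1, ez⟩ := sY.1
  refine ⟨(key z (ez ▸ self_mem_cen z) z1).imp And.right And.right, fun y hy y1 => ?_⟩
  rcases key y hy y1 with p | p
  exacts [iff_of_true p.1 p.2, iff_of_false (·.not_compl p.1) fun q => p.2 hx (q hx)]

theorem Chain1_im : A ∈ (fun F => g • F) '' O ↔ g⁻¹ • A ∈ O :=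
  ⟨by rintro ⟨F, a, rfl⟩; rwa [inv_smul_smul], fun a => ⟨_, a, smul_inv_smul _ _⟩⟩

theorem Chain1_max (m : Maximal (· ∈ O) A) (g : FreeGroup X) :
    Maximal (· ∈ (fun F => g • F) '' O) (g • A) := by
  refine ⟨⟨A, m.1, rfl⟩, ?_⟩
  rintro _ ⟨F, a, rfl⟩ l
  exact Set.smul_set_mono (m.2 a (Set.smul_set_subset_smul_set_iff.1 l))

theorem Orn.smul (h : Orn (arcs (cl W) V D) O) (e : g ∈ GV (cl W) V) :
    Orn (arcs (cl W) V D) ((fun F => g • F) '' O) := by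
  refine ⟨?_, fun F a => ?_, fun F a F' b l => ?_, ?_⟩
  · rintro _ ⟨F, a, rfl⟩
    exact arcs_smul (h.sub a) e
  · rw [Chain1_im, Chain1_im, smul_compl']
    exact h.compl _ (arcs_smul a (inv_mem e))
  · rw [Chain1_im] at b ⊢
    exact h.down _ (arcs_smul a (inv_mem e)) _ b (Set.smul_set_mono l)
  · rintro _ ⟨F, a, rfl⟩
    obtain ⟨F', l, m⟩ := h.acc F a
    exact ⟨g • F', Set.smul_set_mono l, Chain1_max m g⟩

theorem Orn.max_disj (hb : Bx W) (h : Arc (cl W) N V d D) (o : Orn (arcs (cl W) V D) O)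
    (a : Maximal (· ∈ O) A) (a' : Maximal (· ∈ O) A') (e : A ≠ A') : Disjoint A A' := by
  rcases h.nest hb (o.sub a.1) (o.sub a'.1) with (l | l) | l | l
  · exact (e (a.eq_of_subset a'.1 l)).elim
  · exact Set.subset_compl_iff_disjoint_right.1 l
  · exact ((o.compl _ (o.sub a.1)).1 a.1 (o.down _ (arcs_compl (o.sub a.1)) _ a'.1 l)).elim
  · exact (e (a'.eq_of_subset a.1 (Set.compl_subset_compl.1 l)).symm).elim

theorem orn_point (hb : Bx W) (h : Arc (cl W) N V d D) (x : FreeGroup X) :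
    Orn (arcs (cl W) V D) {F | F ∈ arcs (cl W) V D ∧ x ∉ F} := by
  refine ⟨fun F a => a.1, fun F a => ⟨fun b c => c.2 b.2, fun b => ⟨a, fun c =>
    b ⟨arcs_compl a, fun i => i c⟩⟩⟩, fun F a F' b l => ⟨a, fun c => b.2 (l c)⟩, fun F a => ?_⟩
  obtain ⟨k, -, h'⟩ := h.of_mem a.1
  obtain ⟨y, hy⟩ := h'.two.2.1
  have fin : {F' | (F' ∈ arcs (cl W) V D ∧ x ∉ F') ∧ F ⊆ F'}.Finite := by
    refine ((orb_lf hb h.simp.1.1 y x).biUnion (t := fun Z => {A | Cut (cl W) Z A}) ?_).subset ?_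
    · rintro _ ⟨⟨k, rfl⟩, -⟩
      exact cut_fin hb (h.simp.1.1.smul _)
    · rintro F' ⟨⟨b, c⟩, l⟩
      obtain ⟨k', -, h''⟩ := h.of_mem b
      exact Set.mem_biUnion (x := tl (cl W) k' • d)
        ⟨⟨k', rfl⟩, fun e => c ((e _ h''.two.1).1 (l hy))⟩ h''.two.1
  obtain ⟨F', l, m⟩ := fin.exists_le_maximal (a := F) ⟨a, subset_rfl⟩
  exact ⟨F', l, m.1.1, fun F'' b l' => m.2 ⟨b, subset_trans l l'⟩ l'⟩

theorem Chn.smul (c : Chn V O F Ys) (e : g ∈ GV (cl W) V) :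
    Chn V ((fun F => g • F) '' O) (fun n => g • F n) fun n => tl (cl W) g • Ys n := by
  refine ⟨fun n => Chain1_max (c.max n) g, fun n => Chain1_tl e (c.adj n),
    fun n a => c.ne n (smul_left_cancel _ a), fun n => Set.disjoint_smul_set.2 (c.disj n),
    fun n => ?_⟩
  obtain ⟨y, a, b, p, q⟩ := c.ends n
  refine ⟨g * y * g⁻¹, mem_tl_sub.2 (by simpa [mul_assoc] using a), by simpa using b, p.smul' g, ?_⟩
  simpa [mul_assoc] using q.smul' g

theorem Chn.sep (c : Chn V O F Ys) (n : ℤ) : Sep (F n) (Ys n) ∧ Sep (F n) (Ys (n + 1)) := by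
  constructor
  · obtain ⟨y, a, b, p, q⟩ := c.ends (n - 1)
    have l := c.disj (n - 1)
    rw [sub_add_cancel] at a p l
    exact ⟨y, a, b, p, q.mono l.subset_compl_right⟩
  · obtain ⟨y, a, b, p, q⟩ := c.ends n
    exact ⟨y⁻¹, inv_mem a, inv_ne_one.2 b, q,
      by rw [inv_inv]; exact p.mono (c.disj n).subset_compl_left⟩

theorem Chain1_seq {α : Type} {R : α → α → Prop} (s : ∀ a, ∃ b, R a b) (t : ∀ b, ∃ a, R a b)
    (a : α) : ∃ f : ℤ → α, f 0 = a ∧ ∀ n, R (f n) (f (n + 1)) := by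
  choose s hs using s
  choose t ht using t
  refine ⟨fun n => Int.casesOn n (fun n => s^[n] a) fun n => t^[n + 1] a, rfl, ?_⟩
  rintro (n | _ | n)
  · change R (s^[n] a) (s^[n + 1] a)
    rw [Function.iterate_succ_apply']
    exact hs _
  · exact ht a
  · change R (t^[n + 1 + 1] a) (t^[n + 1] a)
    rw [Function.iterate_succ_apply' t (n + 1)]
    exact ht _

theorem Chain1_two (hb : Bx W) (h : Arc (cl W) N V d D) (m : A ∈ arcs (cl W) V D) (a : Adj V Y)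
    (s : Sep A Y) : ∃ Y', Adj V Y' ∧ Y' ≠ Y ∧ Sep A Y' ∧ ∀ Z, Adj V Z → Sep A Z → Z = Y ∨ Z = Y' :=
  let ⟨_, _, h⟩ := h.of_mem m
  arc_two hb h.fam h.isV h.simp.1.1 h.two a s

theorem Chain1_nxt (hb : Bx W) (h : Arc (cl W) N V d D) (o : Orn (arcs (cl W) V D) O)
    (a : Maximal (· ∈ O) A) (b : Adj V Y) (s : Sep A Y) :
    ∃ A', Maximal (· ∈ O) A' ∧ Disjoint A A' ∧ ∃ y ∈ Y, y ≠ 1 ∧ Ev A' y ∧ Ev A y⁻¹ := by
  obtain ⟨y, hy, y1, p, q⟩ := s.compl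
  obtain ⟨m, hm, e⟩ := adj_pow hb h.fam h.isV b hy
  rw [compl_compl] at q
  replace p := p.pow hm
  replace q := q.pow hm
  rw [inv_pow] at q
  have n : ¬ y ^ m • A ⊆ A := fun l => q.nonempty.ne_empty (p.empty_of_sub l)
  have mA := o.sub a.1
  have mB := arcs_smul mA e
  have p' : Ev (y ^ m • A)ᶜ (y ^ m) := smul_compl' (y ^ m) A ▸ p.smul_comm (Commute.refl _)
  have l : A ⊆ y ^ m • A := ((h.nest hb mA mB).sub
    (q.inter (q.smul_comm (Commute.refl _).inv_right)).nonempty (p.inter p').nonempty).resolve_right n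
  obtain ⟨A', l', a'⟩ := o.acc (y ^ m • A)ᶜ ((o.compl _ (arcs_compl mB)).2 fun i =>
    n (a.2 (by rwa [compl_compl] at i) l))
  refine ⟨A', a', o.max_disj hb h a a' ?_, y ^ m, pow_mem hy m,
    fun i => y1 (root_uniq hm (i.trans (one_pow m).symm)), p'.mono l', q⟩
  rintro rfl
  exact (p'.mono l').not_compl p

theorem chn_ex (hb : Bx W) (h : Arc (cl W) N V d D) (o : Orn (arcs (cl W) V D) O)
    (a : Maximal (· ∈ O) A) (b : Adj V Y) (s : Sep A Y) :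
    ∃ F Ys, Chn V O F Ys ∧ F 0 = A ∧ Ys 0 = Y := by
  obtain ⟨f, f0, hf⟩ := Chain1_seq
    (α := {p : Set (FreeGroup X) × Subgroup (FreeGroup X) //
      Maximal (· ∈ O) p.1 ∧ Adj V p.2 ∧ Sep p.1 p.2})
    (R := fun p q => p.1.2 ≠ q.1.2 ∧ Disjoint p.1.1 q.1.1 ∧
      ∃ y ∈ q.1.2, y ≠ 1 ∧ Ev q.1.1 y ∧ Ev p.1.1 y⁻¹) (by
      rintro ⟨⟨A, Y⟩, a, b, s⟩
      obtain ⟨Y', b', e, s', -⟩ := Chain1_two hb h (o.sub a.1) b s
      obtain ⟨A', a', l, y, hy, y1, p, q⟩ := Chain1_nxt hb h o a b' s'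
      exact ⟨⟨(A', Y'), a', b', y, hy, y1, p, q.mono l.subset_compl_right⟩, e.symm, l, y, hy, y1,
        p, q⟩) (by
      rintro ⟨⟨A, Y⟩, a, b, s⟩
      obtain ⟨A', a', l, y, hy, y1, p, q⟩ := Chain1_nxt hb h o a b s
      obtain ⟨Y', b', e, s', -⟩ := Chain1_two hb h (o.sub a'.1) b
        ⟨y, hy, y1, p, q.mono l.subset_compl_right⟩
      exact ⟨⟨(A', Y'), a', b', s'⟩, e, l.symm, y⁻¹, inv_mem hy, inv_ne_one.2 y1, q,
        by rwa [inv_inv]⟩) ⟨(A, Y), a, b, s⟩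
  exact ⟨fun n => (f n).1.1, fun n => (f n).1.2, ⟨fun n => (f n).2.1, fun n => (f n).2.2.1,
    fun n => (hf n).1, fun n => (hf n).2.1, fun n => (hf n).2.2⟩, congrArg (·.1.1) f0,
    congrArg (·.1.2) f0⟩

theorem Chain1_oth (hb : Bx W) (h : Arc (cl W) N V d D) (m : A ∈ arcs (cl W) V D) (a : Adj V Y)
    (s : Sep A Y) (b : Adj V Z) (t : Sep A Z) (b' : Adj V Z') (t' : Sep A Z') (e : Y ≠ Z)
    (e' : Y ≠ Z') : Z = Z' :=
  let ⟨_, _, _, _, u⟩ := Chain1_two hb h m a s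
  ((u Z b t).resolve_left e.symm).trans ((u Z' b' t').resolve_left e'.symm).symm

theorem Chain1_swap (h : ∃ y ∈ Y, y ≠ 1 ∧ Ev A y ∧ Ev B y⁻¹) :
    ∃ y ∈ Y, y ≠ 1 ∧ Ev B y ∧ Ev A y⁻¹ :=
  let ⟨y, a, b, p, q⟩ := h
  ⟨y⁻¹, inv_mem a, inv_ne_one.2 b, q, by rwa [inv_inv]⟩

theorem Chain1_le (o : Orn (arcs (cl W) V D) O) (o' : Orn (arcs (cl W) V D) O')
    (a : Maximal (· ∈ O) A) (a' : A ∈ O') (c : Maximal (· ∈ O) C) (c' : C' ∈ O')
    (l : Disjoint A C') (e : C ⊆ C') : C = C' := by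
  refine c.eq_of_subset ?_ e
  by_contra n
  have := a.eq_of_subset ((o.compl _ (arcs_compl (o'.sub c'))).2 (by rwa [compl_compl]))
    l.subset_compl_right
  exact (o'.compl _ (o'.sub c')).1 c' (this ▸ a')

theorem Chain1_uq (hb : Bx W) (h : Arc (cl W) N V d D) (o : Orn (arcs (cl W) V D) O)
    (o' : Orn (arcs (cl W) V D) O') (a : Maximal (· ∈ O) A) (a' : Maximal (· ∈ O') A)
    (c : Maximal (· ∈ O) C) (c' : Maximal (· ∈ O') C') (b : Adj V Y) (l : Disjoint A C)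
    (l' : Disjoint A C') (e : ∃ y ∈ Y, y ≠ 1 ∧ Ev C y ∧ Ev A y⁻¹)
    (e' : ∃ y ∈ Y, y ≠ 1 ∧ Ev C' y ∧ Ev A y⁻¹) : C = C' := by
  obtain ⟨y, hy, y1, p, q⟩ := e
  obtain ⟨y', hy', y1', p', q'⟩ := e'
  rcases (Chain1_adj hb h.fam h.isV b).2.1.1.ends hy hy' y1 y1' with u | u
  · rcases (h.nest hb (o.sub c.1) (o'.sub c'.1)).sub (((u.1 _).1 p).inter p').nonempty
      ((q.mono l.subset_compl_right).inter (q.mono l'.subset_compl_right)).nonempty with i | i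
    exacts [Chain1_le o o' a a'.1 c c'.1 l' i, (Chain1_le o' o a' a.1 c' c.1 l i).symm]
  · exact (p'.not_compl (((u.2 _).1 q).mono l'.subset_compl_right)).elim

/-- a chain is determined by one of its states -/
theorem chn_uniq (hb : Bx W) (h : Arc (cl W) N V d D) (o : Orn (arcs (cl W) V D) O)
    (o' : Orn (arcs (cl W) V D) O') (c : Chn V O F Ys) (c' : Chn V O' F' Ys') {i j : ℤ}
    (e : F i = F' j) (f : Ys i = Ys' j) (n : ℤ) :
    F (i + n) = F' (j + n) ∧ Ys (i + n) = Ys' (j + n) := by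
  have fw : ∀ i j, F i = F' j ∧ Ys i = Ys' j → F (i + 1) = F' (j + 1) ∧ Ys (i + 1) = Ys' (j + 1) := by
    rintro i j ⟨e, f⟩
    have f' := Chain1_oth hb h (o.sub (c.max i).1) (c.adj i) (c.sep i).1 (c.adj (i + 1)) (c.sep i).2
      (c'.adj (j + 1)) (e ▸ (c'.sep j).2) (c.ne i) (f ▸ c'.ne j)
    exact ⟨Chain1_uq hb h o o' (c.max i) (e ▸ c'.max j) (c.max _) (c'.max _) (c.adj (i + 1))
      (c.disj i) (e ▸ c'.disj j) (c.ends i) (e ▸ f' ▸ c'.ends j), f'⟩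
  have bw : ∀ i j, F (i + 1) = F' (j + 1) ∧ Ys (i + 1) = Ys' (j + 1) → F i = F' j ∧ Ys i = Ys' j := by
    rintro i j ⟨e, f⟩
    have e' := Chain1_uq hb h o o' (c.max (i + 1)) (e ▸ c'.max (j + 1)) (c.max i) (c'.max j)
      (c.adj (i + 1)) (c.disj i).symm (e ▸ (c'.disj j).symm) (Chain1_swap (c.ends i))
      (e ▸ f ▸ Chain1_swap (c'.ends j))
    exact ⟨e', Chain1_oth hb h (o.sub (c.max i).1) (c.adj (i + 1)) (c.sep i).2 (c.adj i) (c.sep i).1
      (c'.adj j) (e' ▸ (c'.sep j).1) (c.ne i).symm (f ▸ (c'.ne j).symm)⟩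
  induction n using Int.induction_on with
  | zero => rw [add_zero, add_zero]; exact ⟨e, f⟩
  | succ n ih => rw [← add_assoc, ← add_assoc]; exact fw _ _ ih
  | pred n ih => exact bw _ _ (by rwa [add_assoc, add_assoc, sub_add_cancel])

theorem Chn.rev (c : Chn V O F Ys) : Chn V O (fun n => F (-n)) fun n => Ys (1 - n) := by
  have e : ∀ n : ℤ, -(n + 1) + 1 = -n := fun n => by ring
  have f : ∀ n : ℤ, 1 - (n + 1) = -n := fun n => by ring
  refine ⟨fun n => c.max _, fun n => c.adj _, fun n => ?_, fun n => ?_, fun n => ?_⟩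
  · rw [f, sub_eq_neg_add]
    exact (c.ne _).symm
  · exact e n ▸ (c.disj _).symm
  · rw [f]
    exact e n ▸ Chain1_swap (c.ends _)

theorem chn_per (hb : Bx W) (h : Arc (cl W) N V d D) (o : Orn (arcs (cl W) V D) O)
    (c : Chn V O F Ys) : ∃ g ∈ GV (cl W) V, ∃ m : ℤ, 0 < m ∧
      ∀ n, g • F n = F (n + m) ∧ tl (cl W) g • Ys n = Ys (n + m) := by
  obtain ⟨Y₀, b₀, s₀⟩ := h.sep
  obtain ⟨Y₁, -, -, -, u⟩ := arc_two hb h.fam h.isV h.simp.1.1 h.two b₀ s₀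
  choose k hk e using fun n => o.sub (c.max n).1
  have t : ∀ n, tl (cl W) (k n)⁻¹ • Ys n = Y₀ ∨ tl (cl W) (k n)⁻¹ • Ys n = Y₁ := fun n => by
    refine u _ (Chain1_tl (inv_mem (hk n)) (c.adj n)) ?_
    have s := (c.sep n).1.smul (tl (cl W) (k n)⁻¹)
    rcases e n with e | e <;> rw [e, tl_set, inv_smul_smul] at s
    exacts [s, compl_compl D ▸ s.compl]
  obtain ⟨i, j, l, p⟩ : ∃ i j, i < j ∧ ((F i = k i • D) = (F j = k j • D) ∧
      (tl (cl W) (k i)⁻¹ • Ys i = Y₀) = (tl (cl W) (k j)⁻¹ • Ys j = Y₀)) := by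
    obtain ⟨i, j, l, p⟩ := Finite.exists_ne_map_eq_of_infinite
      fun n => (F n = k n • D, tl (cl W) (k n)⁻¹ • Ys n = Y₀)
    rcases lt_or_gt_of_ne l with l | l
    exacts [⟨i, j, l, Prod.ext_iff.1 p⟩, ⟨j, i, l, Prod.ext_iff.1 p.symm⟩]
  have m := mul_mem (hk j) (inv_mem (hk i))
  refine ⟨_, m, j - i, sub_pos.2 l, fun n => ?_⟩
  have := chn_uniq hb h (o.smul m) o (c.smul m) c (i := i) (j := j) ?_ ?_ (n - i)
  · rwa [add_sub_cancel, show j + (n - i) = n + (j - i) by ring] at this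
  · by_cases a : F i = k i • D
    · rw [p.1.mp a, a, smul_smul, inv_mul_cancel_right]
    · rw [(e j).resolve_left (mt p.1.mpr a), (e i).resolve_left a, smul_smul, inv_mul_cancel_right]
  · rw [map_mul, mul_smul, smul_eq_iff_eq_inv_smul, ← map_inv]
    by_cases a : tl (cl W) (k i)⁻¹ • Ys i = Y₀
    · rw [p.2.mp a, a]
    · rw [(t j).resolve_left (mt p.2.mpr a), (t i).resolve_left a]

end Pool.Agent.Work.MP_3bdf32_al
end

-- merged part: Pool.Agent.Work.MP_3bdf32_al.Chain2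
section
/-! The region bounded by a chain. -/

namespace Pool.Agent.Work.MP_3bdf32_al

set_option linter.unusedSectionVars false
set_option linter.unusedVariables false

open Subgroup MulAction Filter
open scoped Pointwise

variable {X : Type} [Fintype X] [DecidableEq X] {W : List (FreeGroup X)}
  {Z Z' Y : Subgroup (FreeGroup X)} {A A' B C C' U : Set (FreeGroup X)} {g x y : FreeGroup X}
  {N N' : Set (Subgroup (FreeGroup X))} {V V' : Ori (FreeGroup X)}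
  {d : Subgroup (FreeGroup X)} {D : Set (FreeGroup X)} {O O' : Set (Set (FreeGroup X))}
  {F F' : ℤ → Set (FreeGroup X)} {Ys Ys' : ℤ → Subgroup (FreeGroup X)}

theorem Chain2_arc (h : Arc (cl W) N V d D) (a : A ∈ arcs (cl W) V D) :
    ∃ d', Arc (cl W) N V d' A :=
  let ⟨_, _, b⟩ := h.of_mem a; ⟨_, b⟩

theorem Chain2_mem (o : Orn (arcs (cl W) V D) O) (c : Chn V O F Ys) (n : ℤ) :
    F n ∈ arcs (cl W) V D := o.sub (c.max n).prop

theorem Chain2_ax (h : Arc (cl W) N V d D) (a : Adj V Y) : Ax Y :=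
  (h.fam.sp Y (h.isV.mem a.1)).1

theorem Chain2_cut (hb : Bx W) (h : Arc (cl W) N V d D) (a : Adj V Y) :
    Cut (cl W) Y (V.s Y) := h.isV.cut hb h.fam (h.isV.mem a.1)

theorem Chain2_ne (h : Arc (cl W) N V d D) (a : Adj V Y) :
    (V.s Y).Nonempty ∧ (V.s Y)ᶜ.Nonempty :=
  ⟨(h.isV.isAt Y (h.isV.mem a.1)).nonempty, Set.nonempty_compl.2 a.1⟩

/-- a set containing an end of an adjacent axis meets both sides -/
theorem Chain2_meets (hb : Bx W) (h : Arc (cl W) N V d D) (a : Adj V Y) (e : y ∈ Y)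
    (f : Ev A y) : (V.s Y ∩ A).Nonempty ∧ ((V.s Y)ᶜ ∩ A).Nonempty :=
  ⟨cut_meets hb (Chain2_ax h a) (Chain2_cut hb h a) (Chain2_ne h a).1 e f,
    cut_meets hb (Chain2_ax h a) (Chain2_cut hb h a).compl (Chain2_ne h a).2 e f⟩

theorem Chain2_meets' (hb : Bx W) (h : Arc (cl W) N V d D) (a : Adj V Y) (s : Sep A Y) :
    (V.s Y ∩ A).Nonempty ∧ ((V.s Y)ᶜ ∩ A).Nonempty :=
  let ⟨_, e, _, f, _⟩ := s; Chain2_meets hb h a e f

/-- the member `F n` crosses only two adjacent axes -/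
theorem Chain2_only (hb : Bx W) (h : Arc (cl W) N V d D) (o : Orn (arcs (cl W) V D) O)
    (c : Chn V O F Ys) {n : ℤ} (a : Adj V Y) (s : Sep (F n) Y) : Y = Ys n ∨ Y = Ys (n + 1) := by
  obtain ⟨d', h'⟩ := Chain2_arc h (Chain2_mem o c n)
  obtain ⟨Y', -, -, -, u⟩ := arc_two hb h.fam h.isV h'.simp.1.1 h'.two (c.adj n) (c.sep n).1
  rcases u _ (c.adj (n + 1)) (c.sep n).2 with e | e
  · exact (c.ne n e.symm).elim
  · rw [e]; exact u _ a s

theorem Chain2_ends (c : Chn V O F Ys) (n : ℤ) :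
    ∃ y ∈ Ys n, y ≠ 1 ∧ Ev (F n) y ∧ Ev (F (n - 1)) y⁻¹ := by
  simpa only [sub_add_cancel] using c.ends (n - 1)

/-- a set disjoint from the chain separates the ends of no axis of the chain -/
theorem Chain2_nsep (h : Arc (cl W) N V d D) (c : Chn V O F Ys) (e : ∀ n, Disjoint A (F n))
    (n : ℤ) : ¬ Sep A (Ys n) := by
  intro s
  obtain ⟨y, a, b, p, q⟩ := Chain2_ends c n
  rcases s.ev (Chain2_ax h (c.adj n)) a b with ⟨u, -⟩ | ⟨-, u⟩
  · exact Set.not_disjoint_iff_nonempty_inter.2 (u.inter p).nonempty (e n)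
  · exact Set.not_disjoint_iff_nonempty_inter.2 (u.inter q).nonempty (e _)

theorem Chain2_per {G α : Type} [Group G] [MulAction G α] {g : G} {m : ℤ} {f : ℤ → α}
    (p : ∀ n, g • f n = f (n + m)) (k n : ℤ) : g ^ k • f n = f (n + k * m) := by
  induction k using Int.induction_on with
  | zero => simp
  | succ k ih =>
    rw [add_comm (k : ℤ) 1, zpow_add, zpow_one, mul_smul, ih, p]; congr 1; ring
  | pred k ih =>
    rw [show -(k : ℤ) - 1 = -1 + -k by ring, zpow_add, zpow_neg_one, mul_smul, ih, inv_smul_eq_iff,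
      p]
    congr 1; ring

theorem Chain2_fin {G : Type} [Group G] {g : G} {m : ℤ} (hm : 0 < m) {S : ℤ → Set G}
    (p : ∀ n, g • S n = S (n + m)) (f : ∀ n, (S n).Finite) :
    ∃ E : Finset G, ∀ n, ∀ x ∈ S n, ∃ z ∈ zpowers g, ∃ e ∈ E, x = z * e := by
  have fin : (⋃ r ∈ Set.Ico 0 m, S r).Finite := (Set.finite_Ico 0 m).biUnion fun r _ => f r
  refine ⟨fin.toFinset, fun n x hx => ⟨g ^ (n / m), zpow_mem_zpowers _ _, (g ^ (n / m))⁻¹ * x, ?_,
    (mul_inv_cancel_left _ _).symm⟩⟩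
  rw [Set.Finite.mem_toFinset]
  refine Set.mem_biUnion (x := n % m) ⟨Int.emod_nonneg _ hm.ne', Int.emod_lt_of_pos _ hm⟩ ?_
  rw [← mem_smul', Chain2_per p, Int.emod_add_ediv_mul]
  exact hx

/-- the exceptional edges in the coboundary of `A` -/
def Chain2_T {G : Type} [Group G] (s : G) (A E E' : Set G) : Set G :=
  {x | x ∈ db A s ∧ (x ∉ E ∪ E' ∨ x * s ∉ E ∪ E')}

theorem Chain2_T_smul {G : Type} [Group G] (s g : G) (A E E' : Set G) :
    g • Chain2_T s A E E' = Chain2_T s (g • A) (g • E) (g • E') := by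
  ext x
  simp only [Chain2_T, db, mem_smul', Set.mem_ofPred_eq, Set.mem_union, mul_assoc]

theorem Chain2_shift (m : ℤ) : cK V (fun n => F (n + m)) (fun n => Ys (n + m)) = cK V F Ys := by
  ext x
  exact ⟨fun a n => by simpa only [sub_add_cancel] using a (n - m), fun a n => a (n + m)⟩

theorem cK_smul (e : g ∈ GV (cl W) V) :
    g • cK V F Ys = cK V (fun n => g • F n) fun n => tl (cl W) g • Ys n := by
  ext x
  simp only [cK, mem_smul', Set.mem_ofPred_eq, GV_smul_s e]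

theorem chn_cut (hb : Bx W) (h : Arc (cl W) N V d D) (o : Orn (arcs (cl W) V D) O)
    (c : Chn V O F Ys) (e : g ∈ GV (cl W) V) {m : ℤ} (hm : 0 < m)
    (p : ∀ n, g • F n = F (n + m) ∧ tl (cl W) g • Ys n = Ys (n + m)) :
    Cut (cl W) (zpowers g) (cK V F Ys) ∧ g • cK V F Ys = cK V F Ys := by
  refine ⟨⟨fun x a ha => forall_congr' fun n => ?_, fun s => ?_⟩, ?_⟩
  · obtain ⟨d', h'⟩ := Chain2_arc h (Chain2_mem o c n)
    exact and_congr (not_congr (h'.two.1.1 x a ha)) ((Chain2_cut hb h (c.adj n)).1 x a ha)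
  · have pU : ∀ n, g • V.s (Ys n) = V.s (Ys (n + m)) := fun n => by
      rw [← GV_smul_s e, (p n).2]
    obtain ⟨E, hE⟩ := Chain2_fin (g := g) hm
      (S := fun n => Chain2_T s (F n) (V.s (Ys (n + 1)))ᶜ (V.s (Ys n))ᶜ ∪
        Chain2_T s (V.s (Ys n)) (F n) (F (n - 1)))
      (fun n => by
        simp only [Set.smul_set_union, Chain2_T_smul, smul_compl', pU, (p _).1]
        rw [show n + 1 + m = n + m + 1 by ring, show n - 1 + m = n + m - 1 by ring])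
      (fun n => by
        obtain ⟨d', h'⟩ := Chain2_arc h (Chain2_mem o c n)
        obtain ⟨v, a, b, u, w⟩ := arc_ends hb h.fam h.isV h'.simp.1.1 h'.two (c.adj n) (c.sep n).1
          (c.adj (n + 1)) (c.sep n).2 (c.ne n)
        obtain ⟨y, a', b', u', w'⟩ := Chain2_ends c n
        exact (ev_fin h'.simp.1.1 h'.two.1 a b u w s).union
          (ev_fin (Chain2_ax h (c.adj n)) (Chain2_cut hb h (c.adj n)) a' b' u' w' s))
    refine ⟨E, fun x hx => ?_⟩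
    by_cases a : x ∈ cK V F Ys
    · have b : x * s ∉ cK V F Ys := fun b => hx (iff_of_true a b)
      obtain ⟨n, b⟩ := not_forall.1 b
      refine hE n x ?_
      have a1 := a n
      have a2 := a (n + 1)
      have a3 := a (n - 1)
      simp only [Chain2_T, db, Set.mem_ofPred_eq, Set.mem_union, Set.mem_compl_iff]
      (clear * - a1 a2 a3 b; grind)
    · have b : x * s ∈ cK V F Ys := by
        by_contra b
        exact hx (iff_of_false a b)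
      obtain ⟨n, a⟩ := not_forall.1 a
      refine hE n x ?_
      have a1 := b n
      have a2 := b (n + 1)
      have a3 := b (n - 1)
      simp only [Chain2_T, db, Set.mem_ofPred_eq, Set.mem_union, Set.mem_compl_iff]
      (clear * - a a1 a2 a3; grind)
  · rw [cK_smul e]
    simp only [(p _).1, (p _).2]
    exact Chain2_shift m

theorem chn_far (hb : Bx W) (h : Arc (cl W) N V d D) (o : Orn (arcs (cl W) V D) O)
    (c : Chn V O F Ys) (a : Adj V Y) (e : ∀ n, Y ≠ Ys n) (f : ∀ n, ¬ (V.s Y)ᶜ ⊆ F n) :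
    (V.s Y)ᶜ ⊆ cK V F Ys := by
  refine fun x hx n => ⟨?_, adj_disj hb h.fam h.isV a (c.adj n) (e n) hx⟩
  have s : ¬ Sep (F n) Y := fun s => (Chain2_only hb h o c a s).elim (e _) (e _)
  exact ((h.behind hb (Chain2_mem o c n) a s).1.resolve_left (f n)) hx

/-- the part behind an adjacent axis crossed by a set disjoint from the chain -/
theorem Chain2_far (hb : Bx W) (h : Arc (cl W) N V d D) (o : Orn (arcs (cl W) V D) O)
    (c : Chn V O F Ys) (e : ∀ n, Disjoint A (F n)) (a : Adj V Y) (s : Sep A Y) :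
    (V.s Y)ᶜ ⊆ cK V F Ys := by
  refine chn_far hb h o c a (fun n f => Chain2_nsep h c e n (f ▸ s)) fun n f => ?_
  obtain ⟨x, u, w⟩ := (Chain2_meets' hb h a s).2
  exact Set.disjoint_left.1 (e n) w (f u)

theorem chn_max (hb : Bx W) (h : Arc (cl W) N V d D) (o : Orn (arcs (cl W) V D) O)
    (c : Chn V O F Ys) (a : Maximal (· ∈ O) A) (e : ∀ n, A ≠ F n) : A ⊆ cK V F Ys := by
  have dj : ∀ n, Disjoint A (F n) := fun n => o.max_disj hb h a (c.max n) (e n)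
  refine fun x hx n => ⟨Set.disjoint_left.1 (dj n) hx, ?_⟩
  obtain ⟨u, w⟩ := h.behind hb (o.sub a.prop) (c.adj n) (Chain2_nsep h c dj n)
  obtain ⟨y, i, j, p, -⟩ := Chain2_ends c n
  rcases u with u | u
  · exact (Set.not_disjoint_iff_nonempty_inter.2 (((w y i j).2 u).inter p).nonempty (dj n)).elim
  · by_contra b
    exact u b hx

theorem Chain2_sub (F : ℤ → Set (FreeGroup X)) (n : ℤ) : cK V F Ys ⊆ (F n)ᶜ :=
  fun _ a => (a n).1

/-- two different orientations -/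
theorem Chain2_four (hb : Bx W) (h : Arc (cl W) N V d D) (o : Orn (arcs (cl W) V D) O)
    (o' : Orn (arcs (cl W) V D) O') (c : Chn V O F Ys) (c' : Chn V O' F' Ys') (e : O ≠ O') :
    ∃ A ∈ arcs (cl W) V D, ((∃ n, A = F n) ∨ A ⊆ cK V F Ys) ∧
      (cK V F' Ys' ⊆ A ∨ Aᶜ ⊆ cK V F' Ys') := by
  have : ∃ B ∈ O, B ∉ O' := by
    by_contra u
    push Not at u
    refine e (Set.Subset.antisymm u fun B hB => ?_)
    have a := o'.sub hB
    exact (o.compl B a).2 fun b => (o'.compl B a).1 hB (u _ b)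
  obtain ⟨B, a, b⟩ := this
  obtain ⟨A, i, j⟩ := o.acc B a
  have k := o.sub j.prop
  have l : Aᶜ ∈ O' := by
    by_contra l
    exact b (o'.down B (o.sub a) A ((o'.compl A k).2 l) i)
  obtain ⟨A', i', j'⟩ := o'.acc _ l
  refine ⟨A, k, ?_, ?_⟩
  · by_cases u : ∃ n, A = F n
    · exact .inl u
    · exact .inr (chn_max hb h o c j fun n f => u ⟨n, f⟩)
  · by_cases u : ∃ n, A' = F' n
    · obtain ⟨n, rfl⟩ := u
      exact .inl ((Chain2_sub F' n).trans (Set.compl_subset_comm.1 i'))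
    · exact .inr (i'.trans (chn_max hb h o' c' j' fun n f => u ⟨n, f⟩))

theorem Chain2_eq (hb : Bx W) (h : Arc (cl W) N V d D) (o : Orn (arcs (cl W) V D) O)
    (c : Chn V O F Ys) (c' : Chn V O F' Ys') {i j : ℤ} (e : F i = F' j) (f : Ys i = Ys' j) :
    cK V F Ys = cK V F' Ys' := by
  rw [← Chain2_shift (F := F) i, ← Chain2_shift (F := F') j]
  congr 1 <;> funext n <;> rw [add_comm n i, add_comm n j]
  exacts [(chn_uniq hb h o o c c' e f n).1, (chn_uniq hb h o o c c' e f n).2]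

theorem Chain2_rev : cK V (fun n => F (-n)) (fun n => Ys (1 - n)) = cK V F Ys := by
  ext x
  refine ⟨fun a n => ⟨?_, ?_⟩, fun a n => ⟨(a _).1, (a _).2⟩⟩
  · simpa only [neg_neg] using (a (-n)).1
  · simpa only [sub_sub_cancel] using (a (1 - n)).2

theorem chn_nest (hb : Bx W) (h : Arc (cl W) N V d D) (o : Orn (arcs (cl W) V D) O)
    (o' : Orn (arcs (cl W) V D) O') (c : Chn V O F Ys) (c' : Chn V O' F' Ys') :
    Nest (cK V F Ys) (cK V F' Ys') := by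
  by_cases e : O = O'
  · subst e
    by_cases u : ∃ i j, F i = F' j
    · obtain ⟨i, j, u⟩ := u
      refine .inl (.inl (le_of_eq ?_))
      rcases Chain2_only hb h o c' (c.adj i) (u ▸ (c.sep i).1) with f | f
      · exact Chain2_eq hb h o c c' u f
      · rw [← Chain2_rev (F := F')]
        refine Chain2_eq hb h o c c'.rev (i := i) (j := -j) (by simpa only [neg_neg] using u) ?_
        rw [f, sub_neg_eq_add, add_comm]
    · push Not at u
      refine Nest.symm (.inr (.inl fun x hx => ?_))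
      obtain ⟨n, a⟩ := not_forall.1 hx
      by_cases b : x ∈ F' n
      · exact chn_max hb h o c (c'.max n) (fun i => (u i n).symm) b
      · exact Chain2_far hb h o c (fun i => o.max_disj hb h (c'.max n) (c.max i) (u i n).symm)
          (c'.adj n) (c'.sep n).1 fun b' => a ⟨b, b'⟩
  · obtain ⟨A, -, ⟨n, rfl⟩ | a, b | b⟩ := Chain2_four hb h o o' c c' e
    · exact .inl (.inr ((Chain2_sub F n).trans (Set.compl_subset_compl.2 b)))
    · exact .inl (.inl ((Chain2_sub F n).trans b))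
    · exact .inr (.inr (Set.compl_subset_compl.2 (b.trans a)))
    · exact .inr (.inl ((Set.compl_subset_compl.2 a).trans b))

theorem Chain2_nonempty (c : Chn V O F Ys) (n : ℤ) : (F n).Nonempty :=
  let ⟨_, _, _, a, _⟩ := Chain2_ends c n; a.nonempty

theorem chn_opp (hb : Bx W) (h : Arc (cl W) N V d D) (o : Orn (arcs (cl W) V D) O)
    (c : Chn V O F Ys) (e : g ∈ GV (cl W) V) (f : g • cK V F Ys = (cK V F Ys)ᶜ) :
    ∀ A ∈ O, g • A ∈ O := by
  by_cases u : O = (fun F => g • F) '' O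
  · intro A hA
    rw [u]
    exact ⟨A, hA, rfl⟩
  exfalso
  obtain ⟨A, i, a, b⟩ := Chain2_four hb h o (o.smul e) c (c.smul e) u
  rw [← cK_smul e, f] at b
  obtain ⟨n, rfl⟩ | a := a <;> rcases b with b | b
  · obtain ⟨x, hx⟩ := Chain2_nonempty c (n + 1)
    exact Set.disjoint_left.1 (c.disj n) (b fun k => (k _).1 hx) hx
  · have k : cK V F Ys = ∅ := Set.eq_empty_of_forall_notMem fun x hx => b (hx n).1 hx
    rw [k, Set.smul_set_empty, Set.compl_empty] at f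
    exact Set.empty_ne_univ f
  · obtain ⟨x, hx⟩ := Chain2_nonempty c 0
    have k : x ∉ cK V F Ys := fun k => (k 0).1 hx
    exact k (a (b k))
  · obtain ⟨d', h'⟩ := Chain2_arc h i
    obtain ⟨Y, j, s⟩ := h'.sep
    obtain ⟨x, k, l⟩ := (Chain2_meets' hb h j s.compl).2
    exact b l (Chain2_far hb h o c (fun n => Set.disjoint_left.2 fun y hy => (a hy n).1) j s k)

/-- the region bounded by a chain lies behind an adjacent axis, or is one half of a one sided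
curve -/
theorem chn_fin (hb : Bx W) (h : Arc (cl W) N V d D) (o : Orn (arcs (cl W) V D) O)
    (c : Chn V O F Ys) (e : g ∈ GV (cl W) V) {m : ℤ} (hm : 0 < m)
    (p : ∀ n, g • F n = F (n + m) ∧ tl (cl W) g • Ys n = Ys (n + m)) (n : (cK V F Ys).Nonempty)
    (t : ∀ z ∈ GV (cl W) V, z ≠ 1 → Simp (cl W) (cen z) → cen z ∈ N ∨ OneS (cl W) (cen z)) :
    (∃ Y, Adj V Y ∧ cK V F Ys ⊆ (V.s Y)ᶜ ∧ cen g = Y ∧ ∀ A ∈ arcs (cl W) V D, ¬ Sep A Y) ∨
      ∃ w ∈ GV (cl W) V, Commute w g ∧ w • cK V F Ys = (cK V F Ys)ᶜ := by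
  have n' : (cK V F Ys)ᶜ.Nonempty :=
    let ⟨x, hx⟩ := Chain2_nonempty c 0; ⟨x, fun k => (k 0).1 hx⟩
  have cu := (chn_cut hb h o c e hm p).1
  have g1 : g ≠ 1 := by
    rintro rfl
    rw [zpowers_one_eq_bot, cut_bot] at cu
    rcases hb.oe _ cu.1 cu.2 with k | k
    · exact n.ne_empty k
    · exact Set.nonempty_compl.1 n' k
  rw [cut_zpowers g1] at cu
  have si : Simp (cl W) (cen g) := simp_GV_nest hb h.fam h.isV e g1 cu n n' fun k hk => by
    rw [cK_smul hk]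
    exact chn_nest hb h o (o.smul hk) c (c.smul hk)
  by_cases u : cen g ∈ N
  · have a := fix_adj hb h.fam h.isV e g1 u
    have ne : ∀ i z, Commute g z → ¬ Ev (F i) z := fun i z cz k => by
      have k' := k.smul_comm cz
      refine g1 (h.free hb (Chain2_mem o c i) e (.inl ?_))
      by_contra l
      rw [(p i).1] at l k'
      exact Set.not_disjoint_iff_nonempty_inter.2 (k'.inter k).nonempty
        (o.max_disj hb h (c.max _) (c.max _) l)
    have ev : ∀ B, Sep B (cen g) → ∃ z ∈ cen g, Commute g z ∧ Ev B z := fun B ⟨z, i, _, j, _⟩ =>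
      ⟨z, i, (mem_cen.1 i).symm, j⟩
    have sb : cK V F Ys ⊆ (V.s (cen g))ᶜ := by
      rcases (h.isV.isAt _ u).mono cu with k | k
      · have l : Ys 0 ≠ cen g := fun l =>
          let ⟨z, _, i, j⟩ := ev _ (l ▸ (c.sep 0).1); ne 0 z i j
        obtain ⟨x, hx⟩ := (Chain2_ne h (c.adj 0)).2
        exact (hx (k (adj_disj hb h.fam h.isV (c.adj 0) a l hx) 0).2).elim
      · exact Set.subset_compl_comm.1 k
    have key : ∀ A ∈ O, ¬ Sep A (cen g) := fun A hA s => by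
      obtain ⟨A', i, j⟩ := o.acc A hA
      obtain ⟨z, -, k, l⟩ := ev A s
      obtain ⟨x, q, r⟩ := (Chain2_meets' hb h a s).1
      exact sb (chn_max hb h o c j (fun n f => ne n z k (f ▸ l.mono i)) (i r)) q
    refine .inl ⟨_, a, sb, rfl, fun A hA s => ?_⟩
    by_cases k : Aᶜ ∈ O
    · exact key _ k s.compl
    · exact key _ ((o.compl A hA).2 k) s
  · obtain ⟨A, two, w, hw, f⟩ := (t g e g1 si).resolve_left u
    refine .inr ⟨w, fix_root_GV hb h.fam h.isV e g1 u hw, mem_cen.1 hw, ?_⟩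
    rw [tl_set] at f
    rcases two.eq cu n n' with k | k <;> rw [k]
    · exact f
    · rw [smul_compl', f]

theorem chn_beh (hb : Bx W) (h : Arc (cl W) N V d D)
    (t : ∀ z ∈ GV (cl W) V, z ≠ 1 → Simp (cl W) (cen z) → cen z ∈ N ∨ OneS (cl W) (cen z))
    (e : ∀ A ∈ arcs (cl W) V D, (x ∈ A ↔ y ∈ A))
    (f : ∀ A ∈ arcs (cl W) V D, ∀ Y, Adj V Y → Sep A Y → x ∈ V.s Y ∧ y ∈ V.s Y) : Beh V x y := by
  have o := orn_point hb h x
  have hD : D ∈ arcs (cl W) V D := ⟨1, one_mem _, .inl (one_smul _ _).symm⟩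
  have : ∃ B, B ∈ arcs (cl W) V D ∧ x ∉ B := by
    by_cases a : x ∈ D
    exacts [⟨Dᶜ, arcs_compl hD, fun b => b a⟩, ⟨D, hD, a⟩]
  obtain ⟨B, hB⟩ := this
  obtain ⟨A, -, mx⟩ := o.acc B hB
  obtain ⟨d', h'⟩ := Chain2_arc h mx.prop.1
  obtain ⟨Y, a, s⟩ := h'.sep
  obtain ⟨F, Ys, c, -, -⟩ := chn_ex hb h o mx a s
  obtain ⟨g, hg, m, hm, p⟩ := chn_per hb h o c
  have hf := fun n => f _ (c.max n).prop.1 _ (c.adj n) (c.sep n).1
  have hx : x ∈ cK V F Ys := fun n => ⟨(c.max n).prop.2, (hf n).1⟩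
  have hy : y ∈ cK V F Ys := fun n =>
    ⟨fun k => (c.max n).prop.2 ((e _ (c.max n).prop.1).2 k), (hf n).2⟩
  rcases chn_fin hb h o c hg hm p ⟨x, hx⟩ t with ⟨Y, a, b, -, -⟩ | ⟨w, hw, -, b⟩
  · exact ⟨Y, a, b hx, b hy⟩
  · have k := fun n => chn_opp hb h o c hw b _ (c.max n).prop
    have l : x ∈ w • cK V F Ys := by
      rw [cK_smul hw]
      exact fun n => ⟨(k n).2, (f _ (k n).1 _ ((c.smul hw).adj n) ((c.smul hw).sep n).1).1⟩
    rw [b] at l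
    exact (l hx).elim

end Pool.Agent.Work.MP_3bdf32_al
end
end

-- merged part: Pool.Agent.Work.MP_3bdf32_al.Tw2
section
-- merged part: Pool.Agent.Work.MP_3bdf32_al.Tw1
section
/-! Potentials and twists. -/

namespace Pool.Agent.Work.MP_3bdf32_al

set_option linter.unusedSectionVars false
set_option linter.unusedVariables false

open Subgroup MulAction Filter
open scoped Pointwise

variable {X : Type} [Fintype X] [DecidableEq X] {W : List (FreeGroup X)}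
  {Z Z' Y : Subgroup (FreeGroup X)} {A A' B C C' U : Set (FreeGroup X)} {g x y : FreeGroup X}
  {N N' : Set (Subgroup (FreeGroup X))} {V V' : Ori (FreeGroup X)}
  {τ σ : Subgroup (FreeGroup X) → Set (FreeGroup X) → FreeGroup X} {T S : MulAut (FreeGroup X)}

/-- the distance to the base vertex -/
noncomputable def Tw1_d {G : Type} [Group G] (H : Subgroup G) (N : Set (Subgroup G)) (V : Ori G) :
    ℕ := {Z | V.s Z ≠ (vx H N 1).s Z}.ncard

open Classical in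
/-- the recursion defining potentials -/
noncomputable def Tw1_f {G : Type} [Group G] (H : Subgroup G) (N : Set (Subgroup G)) {Γ : Type}
    [Group Γ] (l : Subgroup G → Set G → Γ) : ℕ → Ori G → Γ
  | 0, _ => 1
  | n + 1, V => if h : ∃ Z, Adj V Z ∧ V.s Z ≠ (vx H N 1).s Z then
      Tw1_f H N l n (vz H N h.choose ((vx H N 1).s h.choose)) *
        (l h.choose ((vx H N 1).s h.choose))⁻¹ * l h.choose (V.s h.choose) else 1

theorem Tw1_d_step (hb : Bx W) (hN : Fam (cl W) N) (hV : IsV (cl W) N V) (a : Adj V Z)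
    (n : V.s Z ≠ (vx (cl W) N 1).s Z) :
    Tw1_d (cl W) N V = Tw1_d (cl W) N (vz (cl W) N Z ((vx (cl W) N 1).s Z)) + 1 := by
  have e : {Y | (vz (cl W) N Z ((vx (cl W) N 1).s Z)).s Y ≠ (vx (cl W) N 1).s Y} =
      {Y | V.s Y ≠ (vx (cl W) N 1).s Y} \ {Z} := by
    ext Y
    by_cases c : Y = Z
    · subst c
      simp [vz_self]
    · simp [vz_step hb hN hV a _ c, c]
  unfold Tw1_d
  rw [e]
  exact (Set.ncard_sdiff_singleton_add_one n (sepV_fin hb hN hV (vx_isV hb hN 1))).symm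

theorem ex_pot (hb : Bx W) (hN : Fam (cl W) N) {Γ : Type} [Group Γ]
    (l : Subgroup (FreeGroup X) → Set (FreeGroup X) → Γ) : ∃ ψ, Pot (cl W) N l ψ := by
  have h₀ := vx_isV hb hN 1
  have key : ∀ V Z, IsV (cl W) N V → Adj V Z → V.s Z ≠ (vx (cl W) N 1).s Z →
      Tw1_f (cl W) N l (Tw1_d (cl W) N V) V =
        Tw1_f (cl W) N l (Tw1_d (cl W) N (vz (cl W) N Z ((vx (cl W) N 1).s Z)))
          (vz (cl W) N Z ((vx (cl W) N 1).s Z)) *
          (l Z ((vx (cl W) N 1).s Z))⁻¹ * l Z (V.s Z) := by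
    intro V Z hV a n
    have ex : ∃ Z, Adj V Z ∧ V.s Z ≠ (vx (cl W) N 1).s Z := ⟨Z, a, n⟩
    have e : ex.choose = Z := first_uniq hb hN hV h₀ ex.choose_spec.1 a ex.choose_spec.2 n
    rw [Tw1_d_step hb hN hV a n, Tw1_f, dif_pos ex, e]
  have key2 : ∀ Z ∈ N, ∀ C, IsAt (cl W) Z C →
      Tw1_f (cl W) N l (Tw1_d (cl W) N (vz (cl W) N Z C)) (vz (cl W) N Z C) =
        Tw1_f (cl W) N l (Tw1_d (cl W) N (vz (cl W) N Z ((vx (cl W) N 1).s Z)))
          (vz (cl W) N Z ((vx (cl W) N 1).s Z)) *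
          (l Z ((vx (cl W) N 1).s Z))⁻¹ * l Z C := by
    intro Z hZ C hC
    by_cases e : C = (vx (cl W) N 1).s Z
    · rw [← e, inv_mul_cancel_right]
    · have := key _ Z (vz_isV hb hN hZ hC) (vz_adj hb hN hZ hC) (by rwa [vz_self])
      rwa [vz_self] at this
  refine ⟨fun V => Tw1_f (cl W) N l (Tw1_d (cl W) N V) V, ?_, fun V Z C hV a hC => ?_⟩
  · have : Tw1_d (cl W) N (vx (cl W) N 1) = 0 := by simp [Tw1_d]
    simp only [this, Tw1_f]
  · have hZ := hV.mem a.1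
    have k := key2 Z hZ _ (hV.isAt Z hZ)
    rw [← adj_eq hb hN hV a] at k
    beta_reduce
    rw [key2 Z hZ C hC, k, mul_inv_cancel_right]

theorem pot_uniq (hb : Bx W) (hN : Fam (cl W) N) {Γ : Type} [Group Γ]
    {l l' : Subgroup (FreeGroup X) → Set (FreeGroup X) → Γ} {ψ ψ' : Ori (FreeGroup X) → Γ}
    (h : Pot (cl W) N l ψ) (h' : Pot (cl W) N l' ψ')
    (e : ∀ Z ∈ N, ∀ C, IsAt (cl W) Z C → l Z C = l' Z C) (hV : IsV (cl W) N V) : ψ V = ψ' V := by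
  refine path_ind hb hN (vx_isV hb hN 1) hV (fun U => ψ U = ψ' U) (h.1.trans h'.1.symm) ?_
  intro U Z hU p a _ _ _
  have hZ := hU.mem a.1
  rw [h.2 U Z _ hU a (hV.isAt Z hZ), h'.2 U Z _ hU a (hV.isAt Z hZ), p, e Z hZ _ (hU.isAt Z hZ),
    e Z hZ _ (hV.isAt Z hZ)]

theorem pot_equi (hb : Bx W) (hN : Fam (cl W) N) {Γ : Type} [Group Γ]
    {l : Subgroup (FreeGroup X) → Set (FreeGroup X) → Γ} {ψ : Ori (FreeGroup X) → Γ}
    (h : Pot (cl W) N l ψ) (α : FreeGroup X →* MulAut Γ)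
    (e : ∀ k, ∀ Z ∈ N, ∀ C, IsAt (cl W) Z C → l (tl (cl W) k • Z) (k • C) = α k (l Z C))
    (hV : IsV (cl W) N V) (k : FreeGroup X) :
    ψ (tl (cl W) k • V) = ψ (vx (cl W) N k) * α k (ψ V) := by
  refine path_ind hb hN (vx_isV hb hN 1) hV
    (fun U => ψ (tl (cl W) k • U) = ψ (vx (cl W) N k) * α k (ψ U)) ?_ ?_
  · rw [vx_mul hN, mul_one, h.1, map_one, mul_one]
  intro U Z hU p a _ _ _
  have hZ := hU.mem a.1
  rw [vz_smul (hN.pres k), h.2 _ _ _ (hU.smul (hN.pres k)) (a.smul _) ((hV.isAt Z hZ).smul _),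
    h.2 U Z _ hU a (hV.isAt Z hZ), p, ori_smul', tl_set, tl_set, e k Z hZ _ (hU.isAt Z hZ),
    e k Z hZ _ (hV.isAt Z hZ), map_mul, map_mul, map_inv, mul_assoc, mul_assoc, mul_assoc]

theorem Pot.map {Γ Γ' : Type} [Group Γ] [Group Γ']
    {l : Subgroup (FreeGroup X) → Set (FreeGroup X) → Γ} {ψ : Ori (FreeGroup X) → Γ}
    (h : Pot (cl W) N l ψ) (π : Γ →* Γ') : Pot (cl W) N (fun Z C => π (l Z C)) fun V => π (ψ V) := by
  refine ⟨by beta_reduce; rw [h.1, map_one], fun V Z C hV a hC => ?_⟩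
  beta_reduce
  rw [h.2 V Z C hV a hC, map_mul, map_mul, map_inv]

theorem Par.mul (h : Par (cl W) τ) (h' : Par (cl W) σ) : Par (cl W) fun Z C => τ Z C * σ Z C := by
  refine ⟨fun Z C => Z.mul_mem (h.mem Z C) (h'.mem Z C), fun k Z C => ?_⟩
  rw [h.equi, h'.equi]
  group

theorem Par.zpow (h : Par (cl W) τ) (n : ℤ) : Par (cl W) fun Z C => τ Z C ^ n := by
  refine ⟨fun Z C => Z.zpow_mem (h.mem Z C) n, fun k Z C => ?_⟩
  rw [h.equi, conj_zpow]

theorem Par.pull (h : Par (cl W) τ) (θ : StabH (cl W)) : Par (cl W) (pull θ τ) := by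
  refine ⟨fun Z C => ?_, fun k Z C => ?_⟩
  · have := (lin_mem (γ := au (cl W) θ)).2 (h.mem ((au (cl W) θ)⁻¹ • Z) ((au (cl W) θ)⁻¹ • C))
    rwa [smul_inv_smul, lin_au] at this
  · have e := lin_lin_inv (au (cl W) θ) k
    rw [lin_au] at e
    unfold MP_3bdf32_al.pull
    rw [smul_tl, smul_tl, h.equi, map_mul, map_mul, map_inv θ.1, e]

theorem par_one : Par (cl W) fun _ _ => 1 := by
  exact ⟨fun Z _ => Z.one_mem, fun k _ _ => by simp⟩

theorem bp_smul (hZ : Ax Z) (e : g ∈ Z) (C : Set (FreeGroup X)) (k : FreeGroup X) :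
    bp (cl W) Z g C (tl (cl W) k • Z) (k • C) = k * g * k⁻¹ := by
  have ex : ∃ k', tl (cl W) k' • Z = tl (cl W) k • Z ∧ tl (cl W) k' • C = k • C := ⟨k, rfl, rfl⟩
  have m : k⁻¹ * ex.choose ∈ Z := by
    rw [← hZ.norm (H := cl W), map_mul, mul_smul, ex.choose_spec.1, map_inv, inv_smul_smul]
  have c := (hZ.comm m e).eq
  unfold bp
  rw [dif_pos ex]
  generalize ex.choose = a at c
  calc a * g * a⁻¹ = k * (k⁻¹ * a * g) * a⁻¹ := by group
    _ = k * g * k⁻¹ := by rw [c]; group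

theorem bp_of_not (h : ∀ k, tl (cl W) k • Z = Z' → k • C ≠ C') : bp (cl W) Z g C Z' C' = 1 := by
  unfold bp
  exact dif_neg fun ⟨k, a, b⟩ => h k a b

theorem par_bp (hZ : Ax Z) (e : g ∈ Z) (C : Set (FreeGroup X)) : Par (cl W) (bp (cl W) Z g C) := by
  refine ⟨fun Z' C' => ?_, fun k Z' C' => ?_⟩
  · by_cases ex : ∃ a, tl (cl W) a • Z = Z' ∧ a • C = C'
    · obtain ⟨a, rfl, rfl⟩ := ex
      rw [bp_smul hZ e, mem_tl_sub]
      simpa [mul_assoc] using e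
    · rw [bp_of_not fun a b c => ex ⟨a, b, c⟩]
      exact Z'.one_mem
  · by_cases ex : ∃ a, tl (cl W) a • Z = Z' ∧ a • C = C'
    · obtain ⟨a, rfl, rfl⟩ := ex
      rw [← mul_smul, ← map_mul, tl_set, ← mul_smul, bp_smul hZ e, bp_smul hZ e]
      group
    · rw [bp_of_not fun a b c => ex ⟨a, b, c⟩, bp_of_not]
      · simp
      · intro a b c
        refine ex ⟨k⁻¹ * a, ?_, ?_⟩
        · rw [map_mul, mul_smul, b, map_inv, inv_smul_smul]
        · rw [mul_smul, c, tl_set, inv_smul_smul]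

theorem tw_uniq (hb : Bx W) (hN : Fam (cl W) N) (h : Tw (cl W) N τ T) (h' : Tw (cl W) N σ S)
    (e : ∀ Z ∈ N, ∀ C, IsAt (cl W) Z C → τ Z C = σ Z C) : T = S := by
  obtain ⟨ψ, a, b⟩ := h
  obtain ⟨ψ', a', b'⟩ := h'
  ext1 g
  rw [b, b', pot_uniq hb hN a a' e (vx_isV hb hN g)]

theorem Tw.stab (h : Tw (cl W) N τ T) : T ∈ StabH (cl W) := by
  obtain ⟨ψ, a, b⟩ := h
  intro g hg
  have := vx_mul_mem (N := N) 1 hg
  rw [one_mul] at this
  rw [b, this, a.1, one_mul]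

theorem Tw1_equi (hb : Bx W) (hN : Fam (cl W) N) (p : Par (cl W) τ)
    {ψ : Ori (FreeGroup X) → FreeGroup X} (h : Pot (cl W) N τ ψ) (hV : IsV (cl W) N V)
    (k : FreeGroup X) : ψ (tl (cl W) k • V) = ψ (vx (cl W) N k) * (k * ψ V * k⁻¹) :=
  pot_equi hb hN h MulAut.conj (fun k Z _ C _ => p.equi k Z C) hV k

theorem Tw1_hom (hb : Bx W) (hN : Fam (cl W) N) (p : Par (cl W) τ)
    {ψ : Ori (FreeGroup X) → FreeGroup X} (h : Pot (cl W) N τ ψ) :
    ∃ T : FreeGroup X →* FreeGroup X, ∀ g, T g = ψ (vx (cl W) N g) * g := by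
  refine ⟨MonoidHom.mk' (fun g => ψ (vx (cl W) N g) * g) fun a b => ?_, fun g => rfl⟩
  rw [← vx_mul hN, Tw1_equi hb hN p h (vx_isV hb hN b)]
  group

theorem Tw1_GV (hb : Bx W) (hN : Fam (cl W) N) (p : Par (cl W) τ)
    {ψ : Ori (FreeGroup X) → FreeGroup X} (h : Pot (cl W) N τ ψ)
    {T : FreeGroup X →* FreeGroup X} (e : ∀ g, T g = ψ (vx (cl W) N g) * g) (hV : IsV (cl W) N V)
    (i : g ∈ GV (cl W) V ∨ ∃ Z, Adj V Z ∧ g ∈ Z) : T g = ψ V * g * (ψ V)⁻¹ := by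
  have key : ∀ g ∈ GV (cl W) V, T g = ψ V * g * (ψ V)⁻¹ := fun g i => by
    have := Tw1_equi hb hN p h hV g
    rw [mem_GV.1 i] at this
    rw [e]
    calc ψ (vx (cl W) N g) * g = ψ (vx (cl W) N g) * (g * ψ V * g⁻¹) * g * (ψ V)⁻¹ := by group
      _ = _ := by rw [← this]
  rcases i with i | ⟨Z, a, i⟩
  · exact key g i
  · obtain ⟨m, hm, j⟩ := adj_pow hb hN hV a i
    refine root_uniq hm ?_
    rw [← map_pow, key _ j, conj_pow]

theorem Tw1_mul (hb : Bx W) (hN : Fam (cl W) N) (p : Par (cl W) τ) (p' : Par (cl W) σ)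
    {ψ φ : Ori (FreeGroup X) → FreeGroup X} (h : Pot (cl W) N τ ψ) (h' : Pot (cl W) N σ φ)
    {T : FreeGroup X →* FreeGroup X} (e : ∀ g, T g = ψ (vx (cl W) N g) * g) :
    Pot (cl W) N (fun Z C => τ Z C * σ Z C) fun V => T (φ V) * ψ V := by
  refine ⟨by beta_reduce; rw [h.1, h'.1, map_one, mul_one], fun V Z C hV a hC => ?_⟩
  have ax := (hN.sp Z (hV.mem a.1)).1
  have m : (σ Z (V.s Z))⁻¹ * σ Z C ∈ Z := Z.mul_mem (Z.inv_mem (p'.mem _ _)) (p'.mem _ _)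
  have c := (ax.comm (p'.mem Z C) (Z.mul_mem (Z.inv_mem (p.mem Z (V.s Z))) (p.mem Z C))).eq
  beta_reduce
  rw [h.2 V Z C hV a hC, h'.2 V Z C hV a hC, mul_assoc (φ V), map_mul,
    Tw1_GV hb hN p h e hV (.inr ⟨Z, a, m⟩)]
  calc _ = T (φ V) * ψ V * (σ Z (V.s Z))⁻¹ * (σ Z C * ((τ Z (V.s Z))⁻¹ * τ Z C)) := by group
    _ = _ := by rw [c]; group

theorem Tw1_pot_one {Γ : Type} [Group Γ] :
    Pot (cl W) N (fun _ _ => (1 : Γ)) fun _ => 1 :=
  ⟨rfl, fun _ _ _ _ _ _ => by simp⟩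

theorem tw_ex (hb : Bx W) (hN : Fam (cl W) N) (h : Par (cl W) τ) : ∃ T, Tw (cl W) N τ T := by
  obtain ⟨ψ, a⟩ := ex_pot hb hN τ
  obtain ⟨φ, b⟩ := ex_pot hb hN fun Z C => τ Z C ^ (-1 : ℤ)
  obtain ⟨T, c⟩ := Tw1_hom hb hN h a
  obtain ⟨S, d⟩ := Tw1_hom hb hN (h.zpow (-1)) b
  have e1 : ∀ g, T (S g) = g := fun g => by
    have := pot_uniq hb hN (Tw1_mul hb hN h (h.zpow (-1)) a b c) Tw1_pot_one
      (fun Z _ C _ => by simp) (vx_isV hb hN g)
    rw [d, map_mul, c g, ← mul_assoc, this, one_mul]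
  have e2 : ∀ g, S (T g) = g := fun g => by
    have := pot_uniq hb hN (Tw1_mul hb hN (h.zpow (-1)) h b a d) Tw1_pot_one
      (fun Z _ C _ => by simp) (vx_isV hb hN g)
    rw [c, map_mul, d g, ← mul_assoc, this, one_mul]
  exact ⟨T.toMulEquiv S (MonoidHom.ext e2) (MonoidHom.ext e1), ψ, a, c⟩

theorem tw_one (hb : Bx W) (hN : Fam (cl W) N) : Tw (cl W) N (fun _ _ => 1) 1 := by
  exact ⟨fun _ => 1, Tw1_pot_one, fun g => by simp⟩

theorem tw_mul (hb : Bx W) (hN : Fam (cl W) N) (p : Par (cl W) τ) (p' : Par (cl W) σ)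
    (h : Tw (cl W) N τ T) (h' : Tw (cl W) N σ S) :
    Tw (cl W) N (fun Z C => τ Z C * σ Z C) (T * S) := by
  obtain ⟨ψ, a, b⟩ := h
  obtain ⟨φ, a', b'⟩ := h'
  refine ⟨_, Tw1_mul hb hN p p' a a' (T := T.toMonoidHom) b, fun g => ?_⟩
  rw [MulAut.mul_apply, b', map_mul, b g, mul_assoc]
  rfl

theorem tw_comm (hb : Bx W) (hN : Fam (cl W) N) (p : Par (cl W) τ) (p' : Par (cl W) σ)
    (h : Tw (cl W) N τ T) (h' : Tw (cl W) N σ S) : T * S = S * T := by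
  exact tw_uniq hb hN (tw_mul hb hN p p' h h') (tw_mul hb hN p' p h' h) fun Z hZ C _ =>
    ((hN.sp Z hZ).1.comm (p.mem Z C) (p'.mem Z C)).eq

theorem tw_zpow (hb : Bx W) (hN : Fam (cl W) N) (p : Par (cl W) τ) (h : Tw (cl W) N τ T) (n : ℤ) :
    Tw (cl W) N (fun Z C => τ Z C ^ n) (T ^ n) := by
  have inv : Tw (cl W) N (fun Z C => τ Z C ^ (-1 : ℤ)) T⁻¹ := by
    obtain ⟨S, a⟩ := tw_ex hb hN (p.zpow (-1))
    have := tw_uniq hb hN (tw_mul hb hN p (p.zpow (-1)) h a) (tw_one hb hN) fun Z _ C _ => by simp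
    rwa [← eq_inv_of_mul_eq_one_right this]
  induction n using Int.induction_on with
  | zero => simpa using tw_one hb hN
  | succ n ih => simpa only [zpow_add_one] using tw_mul hb hN (p.zpow n) p ih h
  | pred n ih =>
    simpa only [zpow_sub_one, zpow_neg_one] using tw_mul hb hN (p.zpow (-n)) (p.zpow (-1)) ih inv

theorem tw_conj (hb : Bx W) (hN : Fam (cl W) N) (h : Tw (cl W) N τ T) (θ : StabH (cl W))
    (p : Pres N (au (cl W) θ)) : Tw (cl W) N (pull θ τ) (θ.1 * T * θ.1⁻¹) := by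
  obtain ⟨ψ, a, b⟩ := h
  have e : ∀ g, (au (cl W) θ)⁻¹ • vx (cl W) N g = vx (cl W) N (θ.1⁻¹ g) := fun g => by
    rw [vx_smul p.inv, ← map_inv, au_smul]
    rfl
  refine ⟨fun V => θ.1 (ψ ((au (cl W) θ)⁻¹ • V)), ⟨?_, fun V Z C hV c hC => ?_⟩, fun g => ?_⟩
  · beta_reduce
    rw [e, map_one, a.1, map_one]
  · beta_reduce
    rw [vz_smul p.inv, a.2 _ _ _ (hV.smul p.inv) (c.smul _) (hC.smul _), ori_smul', map_mul,
      map_mul, map_inv]
    rfl
  · beta_reduce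
    rw [MulAut.mul_apply, MulAut.mul_apply, b, e, map_mul, MulAut.apply_inv_self]

/-- on the vertex group and on adjacent axes the twist is conjugation by the potential -/
theorem tw_GV (hb : Bx W) (hN : Fam (cl W) N) (p : Par (cl W) τ)
    {ψ : Ori (FreeGroup X) → FreeGroup X} (h : Pot (cl W) N τ ψ)
    (e : ∀ g, T g = ψ (vx (cl W) N g) * g) (hV : IsV (cl W) N V)
    (i : g ∈ GV (cl W) V ∨ ∃ Z, Adj V Z ∧ g ∈ Z) : T g = ψ V * g * (ψ V)⁻¹ := by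
  exact Tw1_GV hb hN p h (T := T.toMonoidHom) e hV i

end Pool.Agent.Work.MP_3bdf32_al
end

-- merged part: Pool.Agent.Work.MP_3bdf32_al.Tw2
section
/-! The action of twists on the dual tree, fixed points and growth. -/

namespace Pool.Agent.Work.MP_3bdf32_al

set_option linter.unusedSectionVars false
set_option linter.unusedVariables false

open Subgroup MulAction Filter
open scoped Pointwise

variable {X : Type} [Fintype X] [DecidableEq X] {W : List (FreeGroup X)}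
  {Z Z' Y : Subgroup (FreeGroup X)} {A A' B C C' U : Set (FreeGroup X)} {g x y : FreeGroup X}
  {N N' : Set (Subgroup (FreeGroup X))} {V V' : Ori (FreeGroup X)}
  {τ σ : Subgroup (FreeGroup X) → Set (FreeGroup X) → FreeGroup X} {T S : MulAut (FreeGroup X)}
  {ψ : Ori (FreeGroup X) → FreeGroup X}

theorem tw_side (hb : Bx W) (hN : Fam (cl W) N) (p : Par (cl W) τ) (h : Pot (cl W) N τ ψ)
    (e : ∀ g, T g = ψ (vx (cl W) N g) * g) (hV : IsV (cl W) N V) (a : Adj V Z) (x : FreeGroup X) :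
    (ψ V)⁻¹ * T x ∈ V.s Z ↔ x ∈ V.s Z := by
  have h₀ := vx_isV hb hN x
  refine path_ind hb hN h₀ hV
    (fun U => ∀ Z, Adj U Z → ((ψ U)⁻¹ * T x ∈ U.s Z ↔ x ∈ U.s Z)) ?_ ?_ Z a
  · intro Z _
    rw [e, inv_mul_cancel_left]
  · intro U Y hU ih aY e₀ n _ Y' aY'
    have hY : Y ∈ N := hU.mem aY.1
    have ax : Ax Y := (hN.sp Y hY).1
    have hC := hU.isAt Y hY
    have hC' := hV.isAt Y hY
    have hx : x ∈ U.s Y := e₀ ▸ (vx_eq_iff h₀).1 rfl Y
    have hy := (ih Y aY).2 hx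
    have ht : (τ Y (U.s Y))⁻¹ * τ Y (V.s Y) ∈ Y := Y.mul_mem (Y.inv_mem (p.mem _ _)) (p.mem _ _)
    have h1 : x ∉ V.s Y := fun c => n (hC.eq_of_mem hC' hx c)
    have h2 : (ψ (vz (cl W) N Y (V.s Y)))⁻¹ * T x ∉ V.s Y := by
      intro c
      rw [h.2 U Y _ hU aY hC', mul_assoc (ψ U), mul_inv_rev, mul_assoc] at c
      set t := (τ Y (U.s Y))⁻¹ * τ Y (V.s Y) with hte
      have f : tl (cl W) t⁻¹ • Y = Y := ax.norm.2 (Y.inv_mem ht)
      have hD := hC.smul (tl (cl W) t⁻¹)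
      rw [f] at hD
      have e1 : tl (cl W) t⁻¹ • U.s Y = V.s Y := hD.eq_of_mem hC' (mul_mem_smul.2 hy) c
      have e2 := p.equi t⁻¹ Y (U.s Y)
      rw [f, e1, (ax.comm (Y.inv_mem ht) (p.mem Y (U.s Y))).eq, mul_inv_cancel_right] at e2
      have e3 : t = 1 := by rw [hte, e2, inv_mul_cancel]
      rw [e3, inv_one, map_one, one_smul] at e1
      exact n e1
    by_cases c : Y = Y'
    · subst c
      rw [vz_self]
      exact iff_of_false h2 h1
    · have d := adj_disj hb hN (vz_isV hb hN hY hC') (vz_adj hb hN hY hC') aY' c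
      rw [vz_self] at d
      exact iff_of_true (d h2) (d h1)

theorem Tw2_congr {γ γ' : Hol (cl W)} (h : ∀ z ∈ Z, lin (cl W) γ z = lin (cl W) γ' z) :
    γ • Z = γ' • Z := by
  ext g
  constructor
  · intro a
    have b := mem_smul_sub.1 a
    rw [← lin_lin_inv γ g, h _ b]
    exact lin_mem.2 b
  · intro a
    have b := mem_smul_sub.1 a
    rw [← lin_lin_inv γ' g, ← h _ b]
    exact lin_mem.2 b

theorem Tw2_axis (hb : Bx W) (hN : Fam (cl W) N) (p : Par (cl W) τ) (h : Pot (cl W) N τ ψ)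
    (e : ∀ g, T g = ψ (vx (cl W) N g) * g) (hT : T ∈ StabH (cl W)) (hV : IsV (cl W) N V)
    (a : Adj V Z) : au (cl W) ⟨T, hT⟩ • Z = tl (cl W) (ψ V) • Z :=
  Tw2_congr fun z hz => by
    rw [lin_au, lin_tl, MulAut.conj_apply]
    exact tw_GV hb hN p h e hV (.inr ⟨Z, a, hz⟩)

theorem Tw2_mem (hb : Bx W) (hN : Fam (cl W) N) (p : Par (cl W) τ) (h : Tw (cl W) N τ T)
    (hT : T ∈ StabH (cl W)) (hZ : Z ∈ N) : au (cl W) ⟨T, hT⟩ • Z ∈ N := by
  obtain ⟨ψ, h, e⟩ := h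
  have hC : IsAt (cl W) Z (atom (cl W) Z 1) := ⟨1, rfl⟩
  rw [Tw2_axis hb hN p h e hT (vz_isV hb hN hZ hC) (vz_adj hb hN hZ hC)]
  exact hN.inv _ _ hZ

theorem tw_pres (hb : Bx W) (hN : Fam (cl W) N) (p : Par (cl W) τ) (h : Tw (cl W) N τ T) :
    Pres N (au (cl W) ⟨T, h.stab⟩) := by
  intro Z
  refine ⟨fun a => ?_, Tw2_mem hb hN p h h.stab⟩
  have h' := tw_zpow hb hN p h (-1)
  have b := Tw2_mem hb hN (p.zpow (-1)) h' h'.stab a
  have c : (⟨T ^ (-1 : ℤ), h'.stab⟩ : StabH (cl W)) = (⟨T, h.stab⟩ : StabH (cl W))⁻¹ :=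
    Subtype.ext (zpow_neg_one T)
  rwa [c, map_inv, inv_smul_smul] at b

theorem tw_axis (hb : Bx W) (hN : Fam (cl W) N) (p : Par (cl W) τ) (h : Pot (cl W) N τ ψ)
    (e : ∀ g, T g = ψ (vx (cl W) N g) * g) (hT : T ∈ StabH (cl W)) (hV : IsV (cl W) N V)
    (a : Adj V Z) : au (cl W) ⟨T, hT⟩ • Z = tl (cl W) (ψ V) • Z := by
  exact Tw2_axis hb hN p h e hT hV a

theorem Tw2_atom (hb : Bx W) (hN : Fam (cl W) N) (p : Par (cl W) τ) (h : Pot (cl W) N τ ψ)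
    (e : ∀ g, T g = ψ (vx (cl W) N g) * g) (hT : T ∈ StabH (cl W)) (hV : IsV (cl W) N V)
    (a : Adj V Z) : au (cl W) ⟨T, hT⟩ • V.s Z = tl (cl W) (ψ V) • V.s Z := by
  have hC := hV.isAt Z (hV.mem a.1)
  obtain ⟨x, hx⟩ := hC.nonempty
  have h1 := hC.smul (au (cl W) ⟨T, hT⟩)
  rw [Tw2_axis hb hN p h e hT hV a] at h1
  refine h1.eq_of_mem (hC.smul _) (x := T x) ?_ ?_
  · have := Set.smul_mem_smul_set (a := au (cl W) ⟨T, hT⟩) hx
    rwa [au_smul] at this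
  · exact mem_tl_set.2 ((tw_side hb hN p h e hV a x).2 hx)

theorem tw_vert (hb : Bx W) (hN : Fam (cl W) N) (p : Par (cl W) τ) (h : Pot (cl W) N τ ψ)
    (e : ∀ g, T g = ψ (vx (cl W) N g) * g) (hT : T ∈ StabH (cl W)) (hV : IsV (cl W) N V) :
    au (cl W) ⟨T, hT⟩ • V = tl (cl W) (ψ V) • V := by
  by_cases c : ∃ Z, Adj V Z
  · obtain ⟨Z, a⟩ := c
    have pr : Pres N (au (cl W) ⟨T, hT⟩) := tw_pres hb hN p ⟨ψ, h, e⟩
    have e1 := congrArg (fun U => au (cl W) ⟨T, hT⟩ • U) (adj_eq hb hN hV a)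
    have e2 := congrArg (fun U => tl (cl W) (ψ V) • U) (adj_eq hb hN hV a)
    rw [e1, e2, vz_smul pr, vz_smul (hN.pres _), Tw2_axis hb hN p h e hT hV a,
      Tw2_atom hb hN p h e hT hV a]
  · have u : ∀ Z, V.s Z = Set.univ := fun Z => hV.out Z fun hZ =>
      let ⟨Y, a, _⟩ := adj_above hb hN hV hZ
      c ⟨Y, a⟩
    ext Z : 2
    rw [ori_smul, ori_smul, u, u, Set.smul_set_univ, Set.smul_set_univ]

theorem tw_pull (hb : Bx W) (hN : Fam (cl W) N) (p : Par (cl W) τ) (h : Tw (cl W) N τ T)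
    (p' : Par (cl W) σ) (hZ : Z ∈ N) (hC : IsAt (cl W) Z C) : pull ⟨T, h.stab⟩ σ Z C = σ Z C := by
  have pr := tw_pres hb hN p h
  have hT := h.stab
  obtain ⟨ψ, h, e⟩ := h
  have hZ0 := (pr.inv Z).2 hZ
  have hC0 := hC.smul (au (cl W) ⟨T, hT⟩)⁻¹
  have hV := vz_isV hb hN hZ0 hC0
  have a := vz_adj hb hN hZ0 hC0
  have e1 := Tw2_axis hb hN p h e hT hV a
  have e2 := Tw2_atom hb hN p h e hT hV a
  rw [vz_self] at e2
  rw [smul_inv_smul] at e1 e2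
  have e3 := p'.equi (ψ (vz (cl W) N ((au (cl W) ⟨T, hT⟩)⁻¹ • Z) ((au (cl W) ⟨T, hT⟩)⁻¹ • C)))
    ((au (cl W) ⟨T, hT⟩)⁻¹ • Z) ((au (cl W) ⟨T, hT⟩)⁻¹ • C)
  rw [← e1, ← e2] at e3
  rw [e3]
  exact tw_GV hb hN p h e hV (.inr ⟨_, a, p'.mem _ _⟩)

theorem Tw2_per {γ : Hol (cl W)} {d : ℕ} (h : A ⊆ γ • A ∨ γ • A ⊆ A) (e : γ ^ (d + 1) • A = A) :
    γ • A = A := by
  rcases h with h | h
  · have k : ∀ n : ℕ, γ • A ⊆ γ ^ (n + 1) • A := by
      intro n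
      induction n with
      | zero => rw [zero_add, pow_one]
      | succ n ih =>
        rw [pow_succ, mul_smul]
        exact ih.trans (Set.smul_set_mono h)
    have := k d
    rw [e] at this
    exact Set.Subset.antisymm this h
  · have k : ∀ n : ℕ, γ ^ (n + 1) • A ⊆ γ • A := by
      intro n
      induction n with
      | zero => rw [zero_add, pow_one]
      | succ n ih =>
        rw [pow_succ, mul_smul]
        exact (Set.smul_set_mono h).trans ih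
    have := k d
    rw [e] at this
    exact Set.Subset.antisymm h this

/-- an automorphism fixing `g` fixes the axes separating `1` from `g`, and their two atoms -/
theorem fix_path (hb : Bx W) (hN : Fam (cl W) N) (θ : StabH (cl W)) (p : Pres N (au (cl W) θ))
    (e : θ.1 g = g) (hZ : Z ∈ N) (s : ¬ Eqv (cl W) Z 1 g) : au (cl W) θ • Z = Z := by
  have one : ∀ n : ℕ, au (cl W) θ ^ n • (1 : FreeGroup X) = 1 := fun n => by
    rw [← map_pow, au_smul, map_one]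
  have step : ∀ Y, Y ∈ N ∧ ¬ Eqv (cl W) Y 1 g →
      au (cl W) θ • Y ∈ N ∧ ¬ Eqv (cl W) (au (cl W) θ • Y) 1 g := by
    rintro Y ⟨a, b⟩
    refine ⟨(p Y).2 a, fun c => b ((eqv_smul_iff (au (cl W) θ)).1 ?_)⟩
    rwa [au_smul, au_smul, map_one, e]
  have hS : ∀ n : ℕ, au (cl W) θ ^ n • Z ∈ {Y | Y ∈ N ∧ ¬ Eqv (cl W) Y 1 g} := by
    intro n
    induction n with
    | zero => rw [pow_zero, one_smul]; exact ⟨hZ, s⟩
    | succ n ih => rw [pow_succ', mul_smul]; exact step _ ih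
  obtain ⟨m, n, hmn, e1⟩ := Set.Finite.exists_lt_map_eq_of_forall_mem hS (hN.lf hb 1 g)
  obtain ⟨d, rfl⟩ := Nat.exists_eq_add_of_lt hmn
  rw [add_assoc, pow_add, mul_smul, smul_left_cancel_iff] at e1
  have e2 : au (cl W) θ ^ (d + 1) • atom (cl W) Z 1 = atom (cl W) Z 1 := by
    rw [atom_smul, ← e1, one]
  by_contra c
  obtain ⟨hZ', s'⟩ := step Z ⟨hZ, s⟩
  have ax := (hN.sp _ hZ).1
  have ax' := (hN.sp _ hZ').1
  have e3 : au (cl W) θ • atom (cl W) Z 1 = atom (cl W) (au (cl W) θ • Z) 1 := by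
    rw [atom_smul, au_smul, map_one]
  have hA : Cut (cl W) Z (atom (cl W) Z 1) := IsAt.cut hb ax ⟨1, rfl⟩
  have hA' : Cut (cl W) (au (cl W) θ • Z) (atom (cl W) (au (cl W) θ • Z) 1) :=
    IsAt.cut hb ax' ⟨1, rfl⟩
  have hn := (nest_of_nc hb ax ax' (Ne.symm c) (hN.nc _ hZ _ hZ') (hN.nc _ hZ' _ hZ) hA hA').sub
    ⟨1, mem_atom 1, mem_atom 1⟩ ⟨g, s, s'⟩
  rw [← e3] at hn hA'
  rw [Tw2_per hn e2] at hA'
  rcases cut_two_axes hb ax ax' (Ne.symm c) hA hA' with u | u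
  · have := mem_atom (H := cl W) (Z := Z) 1
    rw [u] at this
    exact this
  · exact s (show g ∈ atom (cl W) Z 1 from u ▸ Set.mem_univ g)

theorem tw_fix_iff (hb : Bx W) (hN : Fam (cl W) N) (p : Par (cl W) τ) (h : Tw (cl W) N τ T) :
    T g = g ↔ ∀ Z ∈ N, τ Z (atom (cl W) Z 1) = τ Z (atom (cl W) Z g) := by
  have pr := tw_pres hb hN p h
  have hT := h.stab
  obtain ⟨ψ, h, e⟩ := h
  have h₀ := vx_isV hb hN 1
  have h₁ := vx_isV hb hN g
  constructor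
  · intro f
    have f1 : ψ (vx (cl W) N g) = 1 := mul_eq_right.1 ((e g).symm.trans f)
    have key := path_ind hb hN h₀ h₁ (fun U => ψ U = 1 ∧ ∀ Y ∈ N, U.s Y ≠ (vx (cl W) N 1).s Y →
      τ Y (atom (cl W) Y 1) = τ Y (atom (cl W) Y g)) ⟨h.1, fun Y _ a => absurd rfl a⟩ ?_
    · intro Z hZ
      by_cases c : atom (cl W) Z g = atom (cl W) Z 1
      · rw [c]
      · exact key.2 Z hZ (by rwa [vx_of_mem hZ, vx_of_mem hZ])
    · intro U Z hU ih a e₀ n o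
      have hZ : Z ∈ N := hU.mem a.1
      have hC := h₁.isAt Z hZ
      have e1 := h.2 U Z _ hU a hC
      have hU' := vz_isV hb hN hZ hC
      have t1 : ψ (vz (cl W) N Z ((vx (cl W) N g).s Z)) = 1 := by
        by_cases c : vz (cl W) N Z ((vx (cl W) N g).s Z) = vx (cl W) N g
        · rw [c, f1]
        obtain ⟨Z', a', n'⟩ := ex_first hb hN hU' h₁ c
        have hZ' : Z' ∈ N := hU'.mem a'.1
        have c' : Z' ≠ Z := by
          rintro rfl
          exact n' (vz_self _ _)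
        rw [vz_step hb hN hU a _ c'] at n'
        rw [(o Z').resolve_right n', vx_of_mem hZ', vx_of_mem hZ'] at n'
        have e2 := fix_path hb hN ⟨T, hT⟩ pr f hZ' fun q => n' (atom_eq_iff.2 q)
        rw [Tw2_axis hb hN p h e hT hU' a', (hN.sp _ hZ').1.norm] at e2
        by_contra q
        refine c' ((hN.sp _ hZ').1.inter (hN.sp _ hZ).1 e2 ?_ q)
        rw [e1, ih.1, one_mul]
        exact Z.mul_mem (Z.inv_mem (p.mem _ _)) (p.mem _ _)
      refine ⟨t1, fun Y hY b => ?_⟩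
      by_cases c : Y = Z
      · subst c
        rw [t1, ih.1, one_mul, e₀, vx_of_mem hY, vx_of_mem hY, eq_inv_mul_iff_mul_eq,
          mul_one] at e1
        exact e1
      · rw [vz_step hb hN hU a _ c] at b
        exact ih.2 Y hY b
  · intro f
    have key := path_ind hb hN h₀ h₁ (fun U => ψ U = 1) h.1 fun U Z hU ih a e₀ n _ => by
      have hZ : Z ∈ N := hU.mem a.1
      rw [h.2 U Z _ hU a (h₁.isAt Z hZ), ih, e₀, vx_of_mem hZ, vx_of_mem hZ, f Z hZ, one_mul,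
        inv_mul_cancel]
    rw [e, key, one_mul]

theorem Tw2_norm (a : FreeGroup X) (k : ℤ) : (a ^ k).norm ≤ a.norm * (k.natAbs + 1) := by
  have h : ∀ n : ℕ, (a ^ n).norm ≤ a.norm * (n + 1) := by
    intro n
    induction n with
    | zero => simp
    | succ n ih =>
      have := FreeGroup.norm_mul_le (a ^ n) a
      rw [pow_succ, mul_add a.norm (n + 1), mul_one]
      omega
  obtain ⟨n, rfl | rfl⟩ := k.eq_nat_or_neg
  · simpa using h n
  · simpa using h n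

theorem tw_lin (hb : Bx W) (hN : Fam (cl W) N) (p : Par (cl W) τ) (h : Tw (cl W) N τ T)
    (g : FreeGroup X) : ∃ c : ℕ, ∀ k : ℤ, ((T ^ k) g).norm ≤ c * (k.natAbs + 1) := by
  choose φ hφ eφ using fun k : ℤ => tw_zpow hb hN p h k
  have h₁ := vx_isV hb hN g
  obtain ⟨c, hc⟩ := path_ind hb hN (vx_isV hb hN 1) h₁
    (fun U => ∃ c : ℕ, ∀ k : ℤ, (φ k U).norm ≤ c * (k.natAbs + 1))
    ⟨0, fun k => by rw [(hφ k).1]; simp⟩ fun U Z hU ih a _ _ _ => by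
      obtain ⟨c, hc⟩ := ih
      refine ⟨c + (τ Z (U.s Z)).norm + (τ Z ((vx (cl W) N g).s Z)).norm, fun k => ?_⟩
      rw [(hφ k).2 U Z _ hU a (h₁.isAt Z (hU.mem a.1))]
      have h1 := FreeGroup.norm_mul_le (φ k U * (τ Z (U.s Z) ^ k)⁻¹)
        (τ Z ((vx (cl W) N g).s Z) ^ k)
      have h2 := FreeGroup.norm_mul_le (φ k U) (τ Z (U.s Z) ^ k)⁻¹
      rw [FreeGroup.norm_inv_eq] at h2
      have h3 := Tw2_norm (τ Z (U.s Z)) k
      have h4 := Tw2_norm (τ Z ((vx (cl W) N g).s Z)) k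
      have h5 := hc k
      rw [add_mul, add_mul]
      beta_reduce
      omega
  refine ⟨c + g.norm, fun k => ?_⟩
  have h1 := FreeGroup.norm_mul_le (φ k (vx (cl W) N g)) g
  have h2 := hc k
  have h3 : g.norm ≤ g.norm * (k.natAbs + 1) := Nat.le_mul_of_pos_right _ (Nat.succ_pos _)
  rw [eφ, add_mul]
  omega

end Pool.Agent.Work.MP_3bdf32_al
end
end

-- merged part: Pool.Agent.Work.MP_3bdf32_al.One3
section
-- merged part: Pool.Agent.Work.MP_3bdf32_al.One1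
section
/-! Surgery along a one sided curve. -/

namespace Pool.Agent.Work.MP_3bdf32_al

set_option linter.unusedSectionVars false
set_option linter.unusedVariables false

open Subgroup MulAction Filter
open scoped Pointwise

variable {X : Type} [Fintype X] [DecidableEq X] {W : List (FreeGroup X)}
  {Z Z' Y : Subgroup (FreeGroup X)} {A A' B C C' U : Set (FreeGroup X)} {g x y : FreeGroup X}
  {N N' : Set (Subgroup (FreeGroup X))} {V V' : Ori (FreeGroup X)}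
  {Q d : Subgroup (FreeGroup X)} {D D' : Set (FreeGroup X)}

theorem one1_anti (h : g • U ⊆ U) {n n' : ℤ} (e : n ≤ n') : g ^ n' • U ⊆ g ^ n • U := by
  obtain ⟨t, rfl⟩ := Int.le.dest e
  rw [zpow_add, mul_smul, zpow_natCast]
  rintro _ ⟨_, ⟨x, hx, rfl⟩, rfl⟩
  exact mul_mem_smul.2 (pow_mem_of_sub h hx t)

theorem one1_ex (h : g • U ⊆ U) (a : Ev U g) (b : Ev Uᶜ g⁻¹) (x : FreeGroup X) :
    ∃ n : ℤ, ∀ t : ℤ, x ∈ g ^ t • U ↔ t ≤ n := by
  obtain ⟨n₁, h₁⟩ := a.ex x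
  obtain ⟨n₂, h₂⟩ := b.ex x
  obtain ⟨n, c, d⟩ := Int.exists_greatest_of_bdd (P := fun t => x ∈ g ^ t • U)
    ⟨n₂, fun t ht => by_contra fun e => h₂ (by
      have := one1_anti h (n := n₂) (by omega) ht
      rwa [mem_smul', zpow_natCast, ← inv_pow] at this)⟩
    ⟨-n₁, by rwa [mem_smul', zpow_neg, inv_inv, zpow_natCast]⟩
  exact ⟨n, fun t => ⟨d t, fun e => one1_anti h e c⟩⟩

theorem one1_slab (i : g • U = Cᶜ) (n : ℤ) :
    x ∈ g ^ n • (U ∩ C) ↔ x ∈ g ^ n • U ∧ x ∉ g ^ (n + 1) • U := by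
  rw [zpow_add_one, mul_smul, i, smul_compl', Set.smul_set_inter, Set.mem_inter_iff,
    Set.notMem_compl_iff]

theorem one1_cut (hA : Cut (cl W) Y A) (k : FreeGroup X) :
    Cut (cl W) (tl (cl W) k • Y) (k • A) := hA.smul' k

theorem one1_lin (k g : FreeGroup X) : lin (cl W) (tl (cl W) k) g = k * g * k⁻¹ := by simp

theorem one1_mem (k : FreeGroup X) (h : y ∈ Y) : k * y * k⁻¹ ∈ tl (cl W) k • Y := by
  rw [mem_tl_sub]
  simpa [mul_assoc] using h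

theorem one1_ne (k : FreeGroup X) (h : y ≠ 1) : k * y * k⁻¹ ≠ 1 := by simpa using h

theorem one1_tl (k k' : FreeGroup X) (Y : Subgroup (FreeGroup X)) :
    tl (cl W) k • tl (cl W) k' • Y = tl (cl W) (k * k') • Y := by rw [map_mul, mul_smul]

theorem one1_base (hb : Bx W) (hN : Fam (cl W) N) (hV : IsV (cl W) N V) (a : Adj V Y) :
    Y ∈ N ∧ Ax Y ∧ Cut (cl W) Y (V.s Y) ∧ (V.s Y).Nonempty ∧ (V.s Y)ᶜ.Nonempty :=
  have h := hV.mem a.1
  ⟨h, (hN.sp _ h).1, hV.cut hb hN h, (hV.isAt _ h).nonempty, Set.nonempty_compl.2 a.1⟩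

/-- the ends of one adjacent axis lie on the near side of the others -/
theorem one1_near (hb : Bx W) (hN : Fam (cl W) N) (hV : IsV (cl W) N V) (a : Adj V Y)
    (a' : Adj V Z) (e : Y ≠ Z) (hy : y ∈ Y) (ny : y ≠ 1) : Ev (V.s Z) y := by
  obtain ⟨h₁, h₂, -⟩ := one1_base hb hN hV a
  obtain ⟨h₃, h₄, -⟩ := one1_base hb hN hV a'
  rw [adj_en hb hN hV a h₃ e.symm]
  exact en_ev hb h₄ h₂ e.symm (hN.nc _ h₃ _ h₁) hy ny

theorem one1_sub (hb : Bx W) (hN : Fam (cl W) N) (hV : IsV (cl W) N V) (a : Adj V Y)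
    (a' : Adj V Z) (e : Y ≠ Z) (f : tl (cl W) g • Y = Z) (i : g • V.s Y = (V.s Z)ᶜ) :
    g • V.s Y ⊆ V.s Y ∧ g ∉ Y ∧ Ev (V.s Y) g ∧ Ev (V.s Y)ᶜ g⁻¹ ∧ Crs (cl W) Y (cen g) := by
  obtain ⟨h₁, h₂, h₃, h₄, h₅⟩ := one1_base hb hN hV a
  have s : g • V.s Y ⊆ V.s Y := i ▸ adj_disj hb hN hV a' a e.symm
  have n : g ∉ Y := fun c => e ((h₂.norm.2 c).symm.trans f)
  obtain ⟨b₁, b₂⟩ := crs_of_sub hb h₂ h₃ h₄ h₅ n s
  exact ⟨s, n, b₁, b₂, fun c => n (c ▸ self_mem_cen g), g, self_mem_cen g, _, h₃, b₁, b₂⟩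

theorem one1_uniq (hb : Bx W) (hN : Fam (cl W) N) (hV : IsV (cl W) N V) (a : Adj V Y)
    (a' : Adj V Z) (e : Y ≠ Z) (f : tl (cl W) g • Y = Z) (i : g • V.s Y = (V.s Z)ᶜ)
    (x : FreeGroup X) : ∃! n : ℤ, x ∈ g ^ n • (V.s Y ∩ V.s Z) := by
  obtain ⟨s, -, b₁, b₂, -⟩ := one1_sub hb hN hV a a' e f i
  obtain ⟨n, hn⟩ := one1_ex s b₁ b₂ x
  refine ⟨n, ?_, fun t ht => ?_⟩
  · simp only [one1_slab i, hn]
    omega
  · simp only [one1_slab i, hn] at ht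
    omega

theorem one1_sep (hZ : Ax Z) (h : Crs (cl W) Y Z) (e : g ∈ Z) (f : g ≠ 1) :
    ∃ A, Cut (cl W) Y A ∧ Ev A g ∧ Ev Aᶜ g⁻¹ := by
  obtain ⟨-, g', b₁, A, b₂, b₃, b₄⟩ := h
  have : g' ≠ 1 := by
    rintro rfl
    exact b₃.not_compl (by simpa using b₄)
  rcases Sep.ev hZ ⟨g', b₁, this, b₃, b₄⟩ e f with c | c
  · exact ⟨A, b₂, c⟩
  · exact ⟨Aᶜ, b₂.compl, c.1, by simpa using c.2⟩

theorem one1_chain (hb : Bx W) (hN : Fam (cl W) N) (hV : IsV (cl W) N V) (a : Adj V Y)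
    (a' : Adj V Z) (e : Y ≠ Z) (f : tl (cl W) g • Y = Z) (i : g • V.s Y = (V.s Z)ᶜ)
    {Y' : Subgroup (FreeGroup X)} (hY' : Y' ∈ N) (c : Crs (cl W) Y' (cen g)) :
    ∃ n : ℤ, Y' = tl (cl W) (g ^ n) • Y := by
  obtain ⟨h₁, h₂, h₃, h₄, h₅⟩ := one1_base hb hN hV a
  obtain ⟨s, n, b₁, b₂, -⟩ := one1_sub hb hN hV a a' e f i
  have g1 : g ≠ 1 := fun c => n (c ▸ Y.one_mem)
  have ax := (hN.sp _ hY').1
  obtain ⟨A, hA, c₁, c₂⟩ := one1_sep (ax_cen g1) c (self_mem_cen g) g1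
  by_contra ne
  push Not at ne
  obtain ⟨x, hx⟩ := c₁.nonempty
  obtain ⟨n₀, hn⟩ := one1_ex s b₁ b₂ x
  obtain ⟨n₁, d⟩ := arch hb h₂ ax h₃ hA n (c.not_mem ax (ax_cen g1) (self_mem_cen g) g1) b₁ c₂
  obtain ⟨t, t₁, t₂⟩ := Int.exists_greatest_of_bdd (P := fun t => A ⊆ g ^ t • V.s Y)
    ⟨n₀, fun t ht => (hn t).1 (ht hx)⟩
    ⟨-n₁, by rwa [zpow_neg, zpow_natCast, ← Set.smul_set_subset_iff_subset_inv_smul_set]⟩
  have m := hN.inv (g ^ (t + 1)) _ h₁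
  have cm : Commute (g ^ (t + 1)) g := (Commute.refl g).zpow_left _
  have t₃ : g ^ (t + 1) • V.s Y ⊆ A := by
    refine ((nest_of_nc hb ax (hN.sp _ m).1 (ne _) (hN.nc _ hY' _ m) (hN.nc _ m _ hY') hA
      (h₃.smul' _)).sub (c₁.inter (b₁.smul_comm cm)).nonempty ?_).resolve_left fun e => ?_
    · rw [← smul_compl']
      exact (c₂.inter (b₂.smul_comm cm.inv_right)).nonempty
    · have := t₂ _ e
      omega
  rw [zpow_add_one, mul_smul, i] at t₃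
  rcases no_between hb hN hV a a' (hN.inv (g ^ t)⁻¹ _ hY') (hA.smul' _)
    (Set.smul_set_subset_iff_subset_inv_smul_set.1 t₃)
    (Set.subset_smul_set_iff.1 t₁) with j | j
  · exact ne t (by rw [← j, one1_tl, mul_inv_cancel, map_one, one_smul])
  · refine ne (t + 1) ?_
    rw [zpow_add_one, ← one1_tl, f, ← j, one1_tl, mul_inv_cancel, map_one, one_smul]

theorem one1_inv (j : g • A = A) (n : ℤ) : g ^ n • A = A :=
  MulAction.mem_stabilizer_iff.1 (zpow_mem (MulAction.mem_stabilizer_iff.2 j) n)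

/-- the periodic cut obtained by jumping along one sided axes -/
theorem wall_cut (hb : Bx W) (hN : Fam (cl W) N) (hV : IsV (cl W) N V) (hd : Ax d)
    (hD : Two (cl W) d D) (a : Adj V Y) (a' : Adj V Z) (e : Y ≠ Z) (s : Sep D Y) (s' : Sep D Z)
    (f : tl (cl W) g • Y = Z) (i : g • V.s Y = (V.s Z)ᶜ) (hy : y ∈ Y) (ny : y ≠ 1) (b : Ev D y)
    (b' : Ev D (g * y * g⁻¹)) : ∃ A, Cut (cl W) (cen g) A ∧ g • A = A ∧
      (∀ x ∈ V.s Y ∩ V.s Z, (x ∈ A ↔ x ∈ D)) ∧ Ev A y ∧ Ev Aᶜ y⁻¹ := by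
  classical
  obtain ⟨h₁, h₂, h₃, h₄, h₅⟩ := one1_base hb hN hV a
  obtain ⟨k₁, k₂, k₃, k₄, k₅⟩ := one1_base hb hN hV a'
  have un := one1_uniq hb hN hV a a' e f i
  set A : Set (FreeGroup X) := {x | ∃ n : ℤ, x ∈ g ^ n • (D ∩ (V.s Y ∩ V.s Z))} with hA
  have inv : g • A = A := by
    ext x
    simp only [hA, mem_smul', Set.mem_ofPred_eq]
    constructor
    · rintro ⟨n, hn⟩
      exact ⟨n + 1, by rwa [add_comm, zpow_one_add, mul_inv_rev, mul_assoc]⟩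
    · rintro ⟨n, hn⟩
      refine ⟨n - 1, ?_⟩
      rwa [← mul_assoc, ← mul_inv_rev, ← zpow_one_add, add_sub_cancel]
  have l : ∀ x ∈ V.s Y ∩ V.s Z, (x ∈ A ↔ x ∈ D) := fun x hx => by
    refine ⟨fun ⟨n, hn⟩ => ?_, fun c => ⟨0, by simpa using ⟨c, hx⟩⟩⟩
    have : n = 0 := (un x).unique (Set.smul_set_mono Set.inter_subset_right hn) (by simpa using hx)
    rw [this, zpow_zero, one_smul] at hn
    exact hn.1
  have hz : g * y * g⁻¹ ∈ Z := f ▸ one1_mem g hy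
  have nz := one1_ne g ny
  have c : Ev Dᶜ y⁻¹ := ((s.ev h₂ hy ny).resolve_right fun c => b.not_compl c.1).2
  have c' : Ev Dᶜ (g * y * g⁻¹)⁻¹ := ((s'.ev k₂ hz nz).resolve_right fun c => b'.not_compl c.1).2
  have key : ∀ u w, w ∈ Y → w ≠ 1 → Ev (sg u D) w → Ev (sg u D) (g * w * g⁻¹) →
      Ev (sg u A) w := by
    intro u w w₁ w₂ w₃ w₄ x
    have w₅ := one1_near hb hN hV a a' e w₁ w₂ x
    have w₆ := one1_near hb hN hV a' a e.symm (f ▸ one1_mem g w₁) (one1_ne g w₂) (g * x)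
    filter_upwards [w₃ x, w₄ (g * x), w₅, w₆] with n n₁ n₂ n₃ n₄
    rw [conj_pow, mul_assoc, inv_mul_cancel_left, mul_assoc] at n₂ n₄
    by_cases j : w ^ n * x ∈ V.s Y
    · have := l _ ⟨j, n₃⟩
      cases u
      exacts [fun c => n₁ (this.1 c), this.2 n₁]
    · have := l _ ⟨n₄, by_contra fun c => j (mul_mem_smul.1 (i ▸ c : _ ∈ g • V.s Y))⟩
      rw [← inv, mul_mem_smul] at this
      cases u
      exacts [fun c => n₂ (this.1 c), this.2 n₂]
  have e₁ : Ev A y := key true y hy ny b b'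
  have e₂ : Ev Aᶜ y⁻¹ := key false y⁻¹ (Y.inv_mem hy) (inv_ne_one.2 ny) c (by
    simpa [mul_assoc] using c')
  refine ⟨A, Cut.le (Z := zpowers g) ⟨fun x h hh => ?_, fun t => ?_⟩
    (zpowers_le.2 (self_mem_cen g)), inv, l, e₁, e₂⟩
  · exact exists_congr fun n => ((hD.1.1.inter (h₃.1.inter k₃.1)).smul' _) x h hh
  obtain ⟨v, v₁, v₂, v₃, v₄⟩ := arc_ends hb hN hV hd hD a s a' s' e
  have e₃ : Ev A (g * y * g⁻¹) := inv ▸ e₁.smul' g
  have e₄ : Ev Aᶜ (g * y * g⁻¹)⁻¹ := by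
    have := e₂.smul' g
    rw [smul_compl', inv] at this
    simpa [mul_assoc] using this
  have F₀ := ev_fin hd hD.1 v₁ v₂ v₃ v₄ t
  have F₁ := ev_fin h₂ h₃ hy ny (e₁.inter b) (e₂.inter c) t
  have F₂ := ev_fin k₂ k₃ hz nz (e₃.inter b') (e₄.inter c') t
  refine ⟨(F₀.union (F₁.union F₂)).toFinset, fun x hx => ?_⟩
  obtain ⟨n, ⟨w, hw, rfl⟩, -⟩ := un x
  refine ⟨_, zpow_mem_zpowers g n, w, ?_, rfl⟩
  rw [← one1_inv inv n, db_smul, Set.smul_mem_smul_set_iff] at hx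
  rw [Set.Finite.mem_toFinset]
  by_contra nf
  rw [Set.mem_union, Set.mem_union, not_or, not_or] at nf
  obtain ⟨n₀, n₁, n₂⟩ := nf
  have d₀ : w ∈ D ↔ w * t ∈ D :=
    by_contra fun c => n₀ ⟨c, .inl fun j => Or.elim j (fun j => j hw.2) fun j => j hw.1⟩
  have d₁ : w * t ∈ A ↔ w * t ∈ D := by
    have T : w * t ∈ A ∩ D ∪ Aᶜ ∩ Dᶜ → (w * t ∈ A ↔ w * t ∈ D) := fun j =>
      j.elim (fun j => iff_of_true j.1 j.2) fun j => iff_of_false j.1 j.2
    by_cases j₁ : w * t ∈ V.s Y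
    · by_cases j₂ : w * t ∈ V.s Z
      · exact l _ ⟨j₁, j₂⟩
      · exact T (by_contra fun c => n₂ ⟨fun j => j₂ (j.1 hw.2), .inr c⟩)
    · exact T (by_contra fun c => n₁ ⟨fun j => j₁ (j.1 hw.1), .inr c⟩)
  exact hx (((l w hw).trans d₀).trans d₁.symm)

/-- the translates of the first axis form an exhaustive chain -/
theorem wall_chain (hb : Bx W) (hN : Fam (cl W) N) (hV : IsV (cl W) N V) (a : Adj V Y)
    (a' : Adj V Z) (e : Y ≠ Z) (hY : Two (cl W) Y (V.s Y)) (f : tl (cl W) g • Y = Z)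
    (i : g • V.s Y = (V.s Z)ᶜ) : g ∉ Y ∧ Ev (V.s Y) g ∧ Ev (V.s Y)ᶜ g⁻¹ ∧
      (∀ x, ∃! n : ℤ, x ∈ g ^ n • (V.s Y ∩ V.s Z)) ∧
      ∀ Y' ∈ N, Crs (cl W) Y' (cen g) → ∃ n : ℤ, Y' = tl (cl W) (g ^ n) • Y := by
  obtain ⟨-, n, b₁, b₂, -⟩ := one1_sub hb hN hV a a' e f i
  exact ⟨n, b₁, b₂, one1_uniq hb hN hV a a' e f i, fun Y' h c => one1_chain hb hN hV a a' e f i h c⟩

theorem one1_mono (hb : Bx W) (hZ : Ax Z) (hC : Cut (cl W) Z C) (hd : Sp (cl W) d)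
    (hB : Cut (cl W) d B) (e : g ∈ d) (f : g ≠ 1) (a : Ev Cᶜ g) (b : Ev Cᶜ g⁻¹) : Mono C B := by
  rcases C.eq_empty_or_nonempty with rfl | n
  · exact .inl (Set.empty_subset _)
  rcases B.eq_empty_or_nonempty with rfl | n₁
  · exact .inr (by simp)
  rcases Bᶜ.eq_empty_or_nonempty with c | n₂
  · exact .inl (by rw [Set.compl_empty_iff.1 c]; simp)
  have ne : Z ≠ d := by
    rintro rfl
    exact n.ne_empty (Set.compl_univ_iff.1 (one_sided hb hZ hC.compl e f a))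
  have nc : ¬ Crs (cl W) d Z := fun c => by
    rcases (crs_sep hb hd.1 hZ c hC n a.nonempty).ev hd.1 e f with j | j
    exacts [j.1.not_compl a, j.2.not_compl b]
  refine (nest_of_nc hb hZ hd.1 ne (fun c => nc (c.symm hb hZ hd)) nc hC hB).resolve_right
    fun m => ?_
  obtain ⟨x, x₁, x₂⟩ := cut_meets hb hd.1 hB n₁ e a
  obtain ⟨y, y₁, y₂⟩ := cut_meets hb hd.1 hB.compl n₂ e a
  exact y₁ ((m.iff x₂ y₂).1 x₁)

theorem one1_back (hb : Bx W) (hZ : Ax Z) (hA : Cut (cl W) Z A) (e : g ∉ Z) (f : Ev A g)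
    (c : ¬ Commute g x) : ∃ n : ℤ, Ev (g ^ n • A) x := by
  obtain ⟨a, l, ha⟩ := ex_axis (fun j => e (j ▸ Z.one_mem) : g ≠ 1)
  obtain ⟨i, hi⟩ := cut_hl_sub hb hZ hA e ha f
  obtain ⟨p, hp⟩ := ha.pos c
  refine ⟨-(|i - p| + 1), ((hp.ev ha.1 (i + -(|i - p| + 1) * l)).1.2 ?_).mono ?_⟩
  · have := le_abs_self (i - p)
    have := abs_nonneg (i - p)
    nlinarith [ha.2.1]
  · rw [← ha.hl_zpow]
    exact Set.smul_set_mono hi

theorem one1_fix (hY : Ax Y) (hZ : Ax Z) (e : Y ≠ Z) (hy : y ∈ Y) (ny : y ≠ 1) :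
    tl (cl W) y • Z ≠ Z := fun c => e (hY.inter hZ hy (hZ.norm.1 c) ny)

theorem one1_swap (hY : Ax Y) (hZ : Ax Z) (e : Y ≠ Z) (f : tl (cl W) g • Y = Z) :
    tl (cl W) g • Z ≠ Y := fun c => by
  have : g * g = 1 := by_contra fun n => e (hY.inter hZ
    (hY.norm.1 (by rw [← one1_tl, f, c])) (hZ.norm.1 (by rw [← one1_tl, c, f])) n)
  rw [zpow_eq_one (a := g) two_ne_zero (by rwa [zpow_two]), map_one, one_smul] at f
  exact e f

theorem one1_far (hb : Bx W) (hN : Fam (cl W) N) (hV : IsV (cl W) N V) (hV' : IsV (cl W) N V')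
    (a : Adj V Y) (a' : Adj V' Y) (hy : y ∈ Y) (e : y • V.s Y = V'.s Y) (b : Adj V Z) (n : Z ≠ Y)
    (b' : Adj V' Z') (n' : tl (cl W) y • Z ≠ Z') : y • (V.s Z)ᶜ ⊆ V'.s Y ∩ V'.s Z' := by
  have ax := (one1_base hb hN hV a).2.1
  have f : tl (cl W) y • Y = Y := ax.norm.2 hy
  have j : tl (cl W) y • V = V' := by
    have c := a.smul (tl (cl W) y)
    have c' := ori_smul' (tl (cl W) y) V Y
    rw [f] at c c'
    rw [adj_eq hb hN (hV.smul (hN.pres y)) c, adj_eq hb hN hV' a', c', tl_set, e]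
  have c := b.smul (tl (cl W) y)
  have c' := ori_smul' (tl (cl W) y) V Z
  rw [j] at c c'
  rw [smul_compl', ← tl_set (H := cl W), ← c']
  refine Set.subset_inter (adj_disj hb hN hV' c a' fun x => n ?_) (adj_disj hb hN hV' c b' n')
  exact MulAction.injective (tl (cl W) y) (x.trans f.symm)

theorem one1_pow {B : Bool → Set (FreeGroup X)} (h : ∀ a b, y • B a ⊆ B b) {i : ℤ} (hi : i ≠ 0) :
    ∃ c, ∀ a b, y ^ i • sg c (B a) ⊆ sg c (B b) := by
  have k : ∀ n : ℤ, 0 < n → ∀ a b, y ^ n • B a ⊆ B b := fun n hn a b =>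
    (one1_anti (h a a) (show 1 ≤ n from hn)).trans (by rw [zpow_one]; exact h a b)
  rcases hi.lt_or_gt with c | c
  · refine ⟨false, fun a b => ?_⟩
    rw [sg_false, sg_false, smul_compl', Set.compl_subset_compl,
      Set.subset_smul_set_iff, ← zpow_neg]
    exact k _ (by omega) b a
  · exact ⟨true, k i c⟩

section wall

variable (hb : Bx W) (hN : Fam (cl W) N) (hV : IsV (cl W) N V) (a : Adj V Y) (a' : Adj V Z)
  (e : Y ≠ Z) (f : tl (cl W) g • Y = Z) (i : g • V.s Y = (V.s Z)ᶜ)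
include hb hN hV a a' e f i

theorem one1_both (c : ¬ Commute g x) (n : cen x ∉ N)
    (nc : ∀ n : ℤ, ¬ Crs (cl W) (tl (cl W) (g ^ n) • Y) (cen x)) :
    ∃ p : ℤ, Ev (g ^ p • (V.s Y ∩ V.s Z)) x ∧ Ev (g ^ p • (V.s Y ∩ V.s Z)) x⁻¹ := by
  obtain ⟨h₁, h₂, h₃, h₄, h₅⟩ := one1_base hb hN hV a
  obtain ⟨s, ng, b₁, b₂, -⟩ := one1_sub hb hN hV a a' e f i
  have x1 : x ≠ 1 := fun j => c (j ▸ Commute.one_right g)
  have m := fun n : ℤ => hN.inv (g ^ n) _ h₁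
  have nx : ∀ t : ℤ, x ∉ tl (cl W) (g ^ t) • Y := fun t j => n ((hN.sp _ (m t)).1.eq_cen j x1 ▸ m t)
  have sp : ∀ t : ℤ, (Ev (g ^ t • V.s Y) x ∧ Ev (g ^ t • V.s Y) x⁻¹) ∨
      Ev (g ^ t • V.s Y)ᶜ x ∧ Ev (g ^ t • V.s Y)ᶜ x⁻¹ := fun t => by
    have ax := (hN.sp _ (m t)).1
    have ne : tl (cl W) (g ^ t) • Y ≠ cen x := fun j => n (j ▸ m t)
    rcases cut_ev hb ax (h₃.smul' _) (nx t) with c₁ | c₁ <;>
      rcases cut_ev hb ax (h₃.smul' _) (mt (Subgroup.inv_mem_iff _).1 (nx t)) with c₂ | c₂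
    · exact .inl ⟨c₁, c₂⟩
    · exact (nc t ⟨ne, x, self_mem_cen x, _, h₃.smul' _, c₁, c₂⟩).elim
    · exact (nc t ⟨ne, x⁻¹, inv_mem (self_mem_cen x), _, h₃.smul' _, c₂, by simpa using c₁⟩).elim
    · exact .inr ⟨c₁, c₂⟩
  obtain ⟨n₁, c₁⟩ := one1_back hb h₂ h₃ ng b₁ c
  obtain ⟨n₂, c₂⟩ := one1_back hb h₂ h₃.compl (mt (Subgroup.inv_mem_iff _).1 ng) b₂
    (fun j => c (by simpa using j.inv_left))
  rw [inv_zpow', smul_compl'] at c₂
  obtain ⟨p, p₁, p₂⟩ := Int.exists_greatest_of_bdd (P := fun t => Ev (g ^ t • V.s Y) x)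
    ⟨-n₂, fun t ht => by_contra fun j => (ht.mono (one1_anti s (by omega))).not_compl c₂⟩ ⟨n₁, c₁⟩
  have q₁ := (sp p).resolve_right fun j => p₁.not_compl j.1
  have q₂ := (sp (p + 1)).resolve_left fun j => by have := p₂ _ j.1; omega
  exact ⟨p, (q₁.1.inter q₂.1).mono fun y hy => (one1_slab i p).2 hy,
    (q₁.2.inter q₂.2).mono fun y hy => (one1_slab i p).2 hy⟩

theorem one1_in (hZ' : Z' ∈ N) (hC : Cut (cl W) Z' C) (ne : ∀ n : ℤ, Z' ≠ tl (cl W) (g ^ n) • Y)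
    (c : Ev Cᶜ g) (c' : Ev Cᶜ g⁻¹) {p : ℤ} (hx : x ∈ C) (hp : x ∈ g ^ p • (V.s Y ∩ V.s Z)) :
    C ⊆ g ^ p • (V.s Y ∩ V.s Z) := by
  obtain ⟨h₁, h₂, h₃, h₄, h₅⟩ := one1_base hb hN hV a
  obtain ⟨s, ng, b₁, b₂, -⟩ := one1_sub hb hN hV a a' e f i
  have m : ∀ t : ℤ, Mono C (g ^ t • V.s Y) := fun t => by
    have m := hN.inv (g ^ t) _ h₁
    have cm : Commute (g ^ t) g := (Commute.refl g).zpow_left _
    refine (nest_of_nc hb (hN.sp _ hZ').1 (hN.sp _ m).1 (ne t) (hN.nc _ hZ' _ m) (hN.nc _ m _ hZ')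
      hC (h₃.smul' _)).resolve_right fun j => ?_
    obtain ⟨u, u₁, u₂⟩ := (c.inter (b₁.smul_comm cm)).nonempty
    obtain ⟨v, v₁, v₂⟩ := (c'.inter (b₂.smul_comm cm.inv_right)).nonempty
    rw [smul_compl'] at v₂
    exact v₂ ((j.iff u₁ v₁).1 u₂)
  intro y hy
  rw [one1_slab i] at hp ⊢
  exact ⟨((m p).iff hx hy).1 hp.1, fun j => hp.2 (((m _).iff hx hy).2 j)⟩

variable (hd : Simp (cl W) d) (hD : Two (cl W) d D) (s : Sep D Y) (s' : Sep D Z)
  (j : g • A = A) (l : ∀ x ∈ V.s Y ∩ V.s Z, (x ∈ A ↔ x ∈ D))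
include hd hD s s' j l

theorem one1_side (hZ' : Ax Z') (hC : Cut (cl W) Z' C) {p : ℤ}
    (hp : C ⊆ g ^ p • (V.s Y ∩ V.s Z)) (hx : x ∈ C) {c : Bool} (hc : x ∈ sg c (g ^ p • D)) :
    C ⊆ sg c A := by
  obtain ⟨v, v₁, v₂, v₃, v₄⟩ := arc_ends hb hN hV hd.1.1 hD a s a' s' e
  have m : Mono C (g ^ p • D) := by
    refine one1_mono hb hZ' hC (hd.1.smul _) (hD.1.smul' _) (one1_mem _ v₁) (one1_ne _ v₂)
      ((v₃.smul' _).mono fun y hy j => ?_) ?_
    · exact mem_smul'.1 hy (mem_smul'.1 (hp j)).2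
    · rw [show (g ^ p * v * (g ^ p)⁻¹)⁻¹ = g ^ p * v⁻¹ * (g ^ p)⁻¹ by group]
      exact (v₄.smul' _).mono fun y hy j => mem_smul'.1 hy (mem_smul'.1 (hp j)).1
  intro y hy
  have c₁ := m.iff hx hy
  have c₂ := l _ (mem_smul'.1 (hp hy))
  rw [← mem_smul', ← mem_smul', one1_inv j] at c₂
  cases c
  exacts [fun k => hc (c₁.2 (c₂.1 k)), c₂.2 (c₁.1 hc)]

theorem one1_caseI {k : FreeGroup X} (c : ¬ Commute k g)
    (nc : ∀ n : ℤ, ¬ Crs (cl W) (tl (cl W) (g ^ n) • Y) (cen (k * g * k⁻¹))) :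
    ∃ u, Ev (sg u A) (k * g * k⁻¹) ∧ Ev (sg u A) (k * g * k⁻¹)⁻¹ := by
  obtain ⟨h₁, h₂, h₃, h₄, h₅⟩ := one1_base hb hN hV a
  obtain ⟨sb, ng, b₁, b₂, cr⟩ := one1_sub hb hN hV a a' e f i
  have g1 : g ≠ 1 := fun c => ng (c ▸ Y.one_mem)
  have nN : ∀ t, cen (t * g * t⁻¹) ∉ N := fun t j => by
    rw [← tl_cen (H := cl W)] at j
    exact hN.nc _ h₁ _ ((hN.pres t _).1 j) cr
  have cm : ∀ t, Commute g (t * g * t⁻¹) → Commute t g := fun t j => by
    have := (ax_cen g1).eq_cen (mem_cen.2 j.symm) (one1_ne t g1)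
    rw [← tl_cen (H := cl W)] at this
    exact mem_cen.1 ((ax_cen g1).norm.1 this)
  have cr' : ∀ n : ℤ, Crs (cl W) (tl (cl W) (k * g ^ n) • Y) (cen (k * g * k⁻¹)) := fun n => by
    have := cr.smul (tl (cl W) (k * g ^ n))
    rwa [tl_cen, show k * g ^ n * g * (k * g ^ n)⁻¹ = k * g * k⁻¹ by group] at this
  have ne : ∀ n t : ℤ, tl (cl W) (k * g ^ n) • Y ≠ tl (cl W) (g ^ t) • Y := fun n t j =>
    nc t (j ▸ cr' n)
  obtain ⟨p, p₁, p₂⟩ := one1_both hb hN hV a a' e f i (mt (cm k) c) (nN k) nc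
  obtain ⟨m, m₁, m₂⟩ := one1_both hb hN hV a a' e f i (x := k⁻¹ * g * k⁻¹⁻¹)
    (fun j => c (by simpa using (cm _ j).inv_left)) (nN _) fun n j => by
      have := j.smul (tl (cl W) k)
      rw [tl_cen, one1_tl, show k * (k⁻¹ * g * k⁻¹⁻¹) * k⁻¹ = g by group] at this
      obtain ⟨t, ht⟩ := one1_chain hb hN hV a a' e f i (hN.inv _ _ h₁) this
      exact ne n t ht
  replace m₁ := m₁.smul' k
  replace m₂ := m₂.smul' k
  rw [show k * (k⁻¹ * g * k⁻¹⁻¹) * k⁻¹ = g by group] at m₁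
  rw [show k * (k⁻¹ * g * k⁻¹⁻¹)⁻¹ * k⁻¹ = g⁻¹ by group] at m₂
  have sl : ∀ y ∈ k • g ^ m • (V.s Y ∩ V.s Z),
      y ∈ (k * g ^ m) • V.s Y ∧ y ∉ (k * g ^ (m + 1)) • V.s Y := fun y hy => by
    rw [mem_smul', one1_slab i] at hy
    simpa only [mul_smul, mem_smul' (k := k)] using hy
  have e₁ : Ev ((k * g ^ (m + 1)) • V.s Y) (k * g * k⁻¹) := by
    have := b₁.smul' (k * g ^ (m + 1))
    rwa [show k * g ^ (m + 1) * g * (k * g ^ (m + 1))⁻¹ = k * g * k⁻¹ by group] at this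
  have e₂ : Ev ((k * g ^ m) • V.s Y)ᶜ (k * g * k⁻¹)⁻¹ := by
    have := b₂.smul' (k * g ^ m)
    rwa [show k * g ^ m * g⁻¹ * (k * g ^ m)⁻¹ = (k * g * k⁻¹)⁻¹ by group, smul_compl'] at this
  obtain ⟨x₁, x₂, x₃⟩ := (e₁.inter p₁).nonempty
  obtain ⟨y₁, y₂, y₃⟩ := (e₂.inter p₂).nonempty
  have s₁ := one1_in hb hN hV a a' e f i (hN.inv _ _ h₁) (h₃.smul' _) (ne _)
    (m₁.mono fun y hy => (sl y hy).2) (m₂.mono fun y hy => (sl y hy).2) x₂ x₃
  have s₂ := one1_in hb hN hV a a' e f i (hN.inv _ _ h₁) (h₃.smul' _).compl (ne _)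
    (m₁.mono fun y hy j => j (sl y hy).1) (m₂.mono fun y hy j => j (sl y hy).1) y₂ y₃
  have := (hd.nest hb hD ((g ^ p)⁻¹ * (k * g ^ m))).smul' (g ^ p)
  rw [smul_smul, mul_inv_cancel_left, nest_iff] at this
  obtain ⟨u, u', hu⟩ := this
  obtain ⟨v, v₁, v₂, v₃, v₄⟩ := arc_ends hb hN hV hd.1.1 hD a s a' s' e
  have nD : (sg (!u') D).Nonempty := by cases u'; exacts [hD.2.1, hD.2.2.1]
  obtain ⟨w, w₁, w₂⟩ := cut_meets hb hd.1.1 (hD.1.sg _) nD v₁ v₃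
  obtain ⟨w', w₃, w₄⟩ := cut_meets hb hd.1.1 (hD.1.sg _) nD (d.inv_mem v₁) v₄
  have o : ∀ w ∈ sg (!u') D, k * g ^ m * w ∈ sg (!u) (g ^ p • D) := fun w hw => by
    rw [← sg_compl] at hw ⊢
    exact fun c => hw (by have := hu c; rwa [← sg_smul, mul_mem_smul] at this)
  refine ⟨!u, e₁.mono (one1_side hb hN hV a a' e f i hd hD s s' j l (h₂.smul _) (h₃.smul' _) s₁
    ?_ (o w w₁)), e₂.mono (one1_side hb hN hV a a' e f i hd hD s s' j l (h₂.smul _)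
      (h₃.smul' _).compl s₂ ?_ (o w' w₃))⟩
  · rw [zpow_add_one, ← mul_assoc, mul_smul, i]
    exact mul_mem_smul.2 w₂
  · exact mul_mem_smul.not.2 w₄

theorem one1_caseII (hY : Two (cl W) Y (V.s Y)) {w : FreeGroup X} (hw : w ∈ Y) (nw : w ≠ 1)
    {u : Bool} (c : ∀ p q : ℤ, (p = 0 ∨ p = -1) → (q = 0 ∨ q = -1) →
      w • sg u (g ^ p • D) ⊆ sg u (g ^ q • D)) :
    Ev (sg u A) (w * g * w⁻¹) ∧ Ev (sg u A) (w * g * w⁻¹)⁻¹ := by
  obtain ⟨h₁, h₂, h₃, h₄, h₅⟩ := one1_base hb hN hV a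
  obtain ⟨k₁, k₂, k₃, k₄, k₅⟩ := one1_base hb hN hV a'
  obtain ⟨sb, ng, b₁, b₂, cr⟩ := one1_sub hb hN hV a a' e f i
  have hV' := hV.smul (hN.pres g⁻¹)
  have f' : tl (cl W) g⁻¹ • Z = Y := by rw [← f, one1_tl, inv_mul_cancel, map_one, one_smul]
  have d₁ := a.smul (tl (cl W) g⁻¹)
  have d₂ := a'.smul (tl (cl W) g⁻¹)
  have d₃ := ori_smul' (tl (cl W) g⁻¹) V Y
  have d₄ := ori_smul' (tl (cl W) g⁻¹) V Z
  rw [f'] at d₂ d₄
  rw [tl_set] at d₃ d₄
  have d₅ : (tl (cl W) g⁻¹ • V).s Y = (V.s Y)ᶜ := by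
    rw [d₄, inv_smul_eq_iff, smul_compl', i, compl_compl]
  have ne : tl (cl W) g⁻¹ • Y ≠ Y := fun j => ng (by simpa using h₂.norm.1 j)
  have fw : tl (cl W) w • Y = Y := h₂.norm.2 hw
  have sl : (tl (cl W) g⁻¹ • V).s Y ∩ (tl (cl W) g⁻¹ • V).s (tl (cl W) g⁻¹ • Y) =
      g ^ (-1 : ℤ) • (V.s Y ∩ V.s Z) := by
    rw [d₃, d₄, zpow_neg_one, Set.smul_set_inter, Set.inter_comm]
  have sl' : V.s Y ∩ V.s Z = g ^ (0 : ℤ) • (V.s Y ∩ V.s Z) := by simp
  obtain ⟨p, q, hp, hq, s₁, s₂⟩ : ∃ p q : ℤ, (p = 0 ∨ p = -1) ∧ (q = 0 ∨ q = -1) ∧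
      w • (V.s Z)ᶜ ⊆ g ^ p • (V.s Y ∩ V.s Z) ∧
      w • ((tl (cl W) g⁻¹ • V).s (tl (cl W) g⁻¹ • Y))ᶜ ⊆ g ^ q • (V.s Y ∩ V.s Z) := by
    rcases hY.smul_mem h₂ hw with t | t
    · exact ⟨0, -1, .inl rfl, .inr rfl,
        sl' ▸ one1_far hb hN hV hV a a hw t a' e.symm a' (one1_fix h₂ k₂ e hw nw),
        sl ▸ one1_far hb hN hV' hV' d₂ d₂ hw (by rw [d₅, smul_compl', t]) d₁ ne d₁
          (one1_fix h₂ (h₂.smul _) ne.symm hw nw)⟩
    · refine ⟨-1, 0, .inr rfl, .inl rfl,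
        sl ▸ one1_far hb hN hV hV' a d₂ hw (by rw [d₅, t]) a' e.symm d₁ fun x => ?_,
        sl' ▸ one1_far hb hN hV' hV d₂ a hw (by rw [d₅, smul_compl', t, compl_compl]) d₁ ne a'
          fun x => ?_⟩
      · refine one1_swap (W := W) (g := g * w) h₂ k₂ e (by rw [← one1_tl, fw, f]) ?_
        rw [← one1_tl, x, one1_tl, mul_inv_cancel, map_one, one_smul]
      · exact one1_swap (W := W) (g := w * g⁻¹) h₂ k₂ e (by rw [← one1_tl, x])
          (by rw [← one1_tl, f', fw])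
  rw [d₃] at s₂
  obtain ⟨v, v₁, v₂, v₃, v₄⟩ := arc_ends hb hN hV hd.1.1 hD a s a' s' e
  have nD : (sg u D).Nonempty := by cases u; exacts [hD.2.2.1, hD.2.1]
  obtain ⟨x₁, x₂, x₃⟩ := cut_meets hb hd.1.1 (hD.1.sg _) nD v₁ v₃
  obtain ⟨y₁, y₂, y₃⟩ := cut_meets hb hd.1.1 (hD.1.sg _) nD (d.inv_mem v₁) v₄
  constructor
  · refine ((i ▸ b₁.smul_comm (Commute.refl g)).smul' w).mono
      (one1_side hb hN hV a a' e f i hd hD s s' j l (k₂.smul _) (k₃.compl.smul' _) s₁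
        (mul_mem_smul.2 x₃) (c 0 p (.inl rfl) hp (mul_mem_smul.2 ?_)))
    simpa using x₂
  · have := (b₂.smul_comm (Commute.refl g⁻¹)).smul' w
    rw [show w * g⁻¹ * w⁻¹ = (w * g * w⁻¹)⁻¹ by group, smul_compl' g⁻¹] at this
    refine this.mono
      (one1_side hb hN hV a a' e f i hd hD s s' j l ((h₂.smul _).smul _)
        ((h₃.smul' _).compl.smul' _) s₂ (mul_mem_smul.2 (mul_mem_smul.not.2 y₃))
        (c (-1) q (.inr rfl) hq (mul_mem_smul.2 ?_)))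
    rw [zpow_neg_one, ← sg_smul]
    exact mul_mem_smul.2 y₂

theorem one1_simp (hy : zpowers y = Y) (hY : Two (cl W) Y (V.s Y)) (b : Ev D y)
    (c : y • D ⊆ g⁻¹ • D) (c' : g⁻¹ • D ⊆ y⁻¹ • D) (hA : Cut (cl W) (cen g) A) (n : Ev A y)
    (n' : Ev Aᶜ y⁻¹) : Simp (cl W) (cen g) := by
  obtain ⟨h₁, h₂, h₃, h₄, h₅⟩ := one1_base hb hN hV a
  obtain ⟨sb, ng, b₁, b₂, cr⟩ := one1_sub hb hN hV a a' e f i
  have g1 : g ≠ 1 := fun c => ng (c ▸ Y.one_mem)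
  have sp := sp_of_cut (ax_cen g1) hA n.nonempty n'.nonempty
  refine ⟨sp, fun k hk => ?_⟩
  have nc : ¬ Commute k g := fun j => hk.1 ((ax_cen g1).norm.2 (mem_cen.2 j)).symm
  have se := crs_sep hb (sp.smul _).1 sp.1 (hk.symm hb sp.1 (sp.smul _)) hA n.nonempty n'.nonempty
  rw [tl_cen] at se
  suffices ∃ u, Ev (sg u A) (k * g * k⁻¹) ∧ Ev (sg u A) (k * g * k⁻¹)⁻¹ by
    obtain ⟨u, u₁, u₂⟩ := this
    rcases se.ev (ax_cen (one1_ne k g1)) (self_mem_cen _) (one1_ne k g1) with t | t <;> cases u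
    exacts [t.1.not_compl u₁, u₂.not_compl t.2, t.2.not_compl u₂, u₁.not_compl t.1]
  by_cases I : ∀ n : ℤ, ¬ Crs (cl W) (tl (cl W) (g ^ n) • Y) (cen (k * g * k⁻¹))
  · exact one1_caseI hb hN hV a a' e f i hd hD s s' j l nc I
  push Not at I
  obtain ⟨t, ht⟩ := I
  replace ht := ht.smul (tl (cl W) k⁻¹)
  rw [tl_cen, one1_tl, show k⁻¹ * (k * g * k⁻¹) * k⁻¹⁻¹ = g by group] at ht
  obtain ⟨m, hm⟩ := one1_chain hb hN hV a a' e f i (hN.inv _ _ h₁) ht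
  have hw : (g ^ t)⁻¹ * k * g ^ m ∈ Y := h₂.norm.1 (by
    rw [← one1_tl (W := W), ← hm, one1_tl,
      show (g ^ t)⁻¹ * k * (k⁻¹ * g ^ t) = 1 by group, map_one, one_smul])
  obtain ⟨r, hr⟩ := mem_zpowers_iff.1 (hy ▸ hw : _ ∈ zpowers y)
  have ek : k = g ^ t * y ^ r * (g ^ m)⁻¹ := by rw [hr]; group
  have nw : y ^ r ≠ 1 := fun j => nc (by
    rw [ek, j, mul_one]
    exact ((Commute.refl g).zpow_left t).mul_left ((Commute.refl g).zpow_left m).inv_left)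
  have yY : y ∈ Y := hy ▸ mem_zpowers y
  have y1 : y ≠ 1 := fun j => nw (by simp [j])
  have b' : Ev Dᶜ y⁻¹ := ((s.ev h₂ yY y1).resolve_right fun c => b.not_compl c.1).2
  have o : ∀ k k' : FreeGroup X, Ev (k • D) y → Ev (k' • D) y → Ev (k • D)ᶜ y⁻¹ →
      Ev (k' • D)ᶜ y⁻¹ → k • D ⊆ k' • D ∨ k' • D ⊆ k • D := fun k k' a₁ a₂ a₃ a₄ => by
    have := (hd.nest hb hD (k⁻¹ * k')).smul' k
    rw [smul_smul, mul_inv_cancel_left] at this
    exact this.sub (a₁.inter a₂).nonempty (a₃.inter a₄).nonempty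
  have q₁ : y • D ⊆ D := by
    have := o y 1 (b.smul_comm (Commute.refl y)) (by simpa) (by
      rw [← smul_compl']; exact b'.smul_comm (Commute.refl y).inv_right) (by simpa)
    rw [one_smul] at this
    exact this.resolve_right fun j => hD.2.1.ne_empty
      (b'.empty_of_sub (Set.subset_smul_set_iff.1 j))
  have q₂ : y • g⁻¹ • D ⊆ D := Set.smul_set_subset_iff_subset_inv_smul_set.2 c'
  have q₃ : y • g⁻¹ • D ⊆ g⁻¹ • D := by
    have := o 1 g⁻¹ (by simpa) ((b.smul_comm (Commute.refl y)).mono c) (by simpa) (by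
      refine Ev.mono ?_ (Set.compl_subset_compl.2 c')
      rw [← smul_compl']
      exact b'.smul_comm (Commute.refl _))
    rw [one_smul] at this
    exact this.elim q₂.trans fun j => (Set.smul_set_mono j).trans c
  obtain ⟨u, hu⟩ := one1_pow (y := y) (B := fun x => if x then D else g⁻¹ • D)
    (fun x x' => by cases x <;> cases x' <;> simpa) (i := r) fun j => nw (by simp [j])
  obtain ⟨u₁, u₂⟩ := one1_caseII hb hN hV a a' e f i hd hD s s' j l hY (zpow_mem yY r) nw (u := u)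
    (by
      rintro p q (rfl | rfl) (rfl | rfl)
      exacts [by simpa using hu true true, by simpa using hu true false,
        by simpa using hu false true, by simpa using hu false false])
  replace u₁ := u₁.smul' (g ^ t)
  replace u₂ := u₂.smul' (g ^ t)
  rw [sg_smul, one1_inv j] at u₁ u₂
  refine ⟨u, ?_, ?_⟩
  · rwa [show k * g * k⁻¹ = g ^ t * (y ^ r * g * (y ^ r)⁻¹) * (g ^ t)⁻¹ by rw [ek]; group]
  · rwa [show (k * g * k⁻¹)⁻¹ = g ^ t * (y ^ r * g * (y ^ r)⁻¹)⁻¹ * (g ^ t)⁻¹ by rw [ek]; group]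

end wall

theorem one1_two (o : OneS (cl W) Y) (hA : Cut (cl W) Y A) (n : A.Nonempty) (n' : Aᶜ.Nonempty) :
    Two (cl W) Y A := by
  obtain ⟨B, hB, -⟩ := o
  rcases hB.eq hA n n' with rfl | rfl
  exacts [hB, hB.compl]

/-- the periodic cut of a clean jump is simple -/
theorem wall_simp (hb : Bx W) (hN : Fam (cl W) N) (hV : IsV (cl W) N V) (hd : Simp (cl W) d)
    (hD : Two (cl W) d D) (a : Adj V Y) (a' : Adj V Z) (e : Y ≠ Z) (s : Sep D Y) (s' : Sep D Z)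
    (f : tl (cl W) g • Y = Z) (i : g • V.s Y = (V.s Z)ᶜ) (hy : zpowers y = Y) (o : OneS (cl W) Y)
    (b : Ev D y) (c : y • D ⊂ g⁻¹ • D) (c' : g⁻¹ • D ⊂ y⁻¹ • D) (c'' : g⁻¹ • D ≠ D)
    (hA : Cut (cl W) (cen g) A) (j : g • A = A) (l : ∀ x ∈ V.s Y ∩ V.s Z, (x ∈ A ↔ x ∈ D))
    (n : Ev A y) (n' : Ev Aᶜ y⁻¹) : Simp (cl W) (cen g) := by
  obtain ⟨-, -, h₃, h₄, h₅⟩ := one1_base hb hN hV a
  exact one1_simp hb hN hV a a' e f i hd hD s s' j l hy (one1_two o h₃ h₄ h₅) b c.1 c'.1 hA n n'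

theorem fam_uq (hb : Bx W) (hQ : Q ∈ OO (cl W)) : Fam (cl W) (UU (cl W) ∪ orb (cl W) Q) := by
  refine (fam_uu hb).union hb hQ.1.fam ?_
  rintro Z hZ _ ⟨k, rfl⟩
  exact (oo_nc hb (oo_smul hQ _) hZ).1

theorem one1_oo (hb : Bx W) (hQ : Q ∈ OO (cl W)) (hd : d ∈ OO (cl W)) (hD : Two (cl W) d D)
    (hV : IsV (cl W) (UU (cl W) ∪ orb (cl W) Q) V) (a : Adj V Y) (s : Sep D Y) :
    Y ∈ OO (cl W) := by
  obtain ⟨h₁, h₂, -⟩ := one1_base hb (fam_uq hb hQ) hV a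
  rcases h₁ with h | ⟨k, rfl⟩
  · exact ((oo_nc hb hd h).2 (crs_of_sep hb hd.1.1.1 h₂ hD.1 s)).elim
  · exact oo_smul hQ _

theorem one1_flip (hb : Bx W) (hQ : Q ∈ OO (cl W)) (hd : d ∈ OO (cl W)) (hD : Two (cl W) d D)
    (hV : IsV (cl W) (UU (cl W) ∪ orb (cl W) Q) V) (a : Adj V Y) (a' : Adj V Z) (e : Y ≠ Z)
    (s : Sep D Y) (s' : Sep D Z) (f : tl (cl W) g • Y = Z) (hy : zpowers y = Y) (ny : y ≠ 1)
    (b : Ev D y) (b' : Ev D (g * y * g⁻¹)) (i : g • V.s Y = (V.s Z)ᶜ) (c : y • D ⊆ g⁻¹ • D)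
    (c' : g⁻¹ • D ⊆ y⁻¹ • D) : False := by
  have hN := fam_uq hb hQ
  obtain ⟨h₁, h₂, h₃, h₄, h₅⟩ := one1_base hb hN hV a
  obtain ⟨k₁, k₂, k₃, k₄, k₅⟩ := one1_base hb hN hV a'
  obtain ⟨sb, ng, b₁, b₂, cr⟩ := one1_sub hb hN hV a a' e f i
  have g1 : g ≠ 1 := fun c => ng (c ▸ Y.one_mem)
  have oY := one1_oo hb hQ hd hD hV a s
  have oZ := one1_oo hb hQ hd hD hV a' s'
  have yY : y ∈ Y := hy ▸ mem_zpowers y
  obtain ⟨A, hA, j, l, n, n'⟩ := wall_cut hb hN hV hd.1.1.1 hD a a' e s s' f i yY ny b b'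
  have sp := one1_simp hb hN hV a a' e f i hd.1 hD s s' j l hy
    (one1_two (oo_oneS hb oY) h₃ h₄ h₅) b c c' hA n n'
  rcases simp_tri hb sp with t | t | t
  · exact (oo_nc hb oY t).1 (crs_of_sep hb (ax_cen g1) h₂ hA ⟨y, yY, ny, n, n'⟩)
  · have hU := fam_uu hb
    have r₁ := res_isV Set.subset_union_left hV
    have r₂ := adj_le_res hb hN hU Set.subset_union_left hV a oY.2.1
    have r₃ := adj_le_res hb hN hU Set.subset_union_left hV a' oZ.2.1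
    obtain ⟨-, nY, V₁, v₁, v₂, y', v₃, v₄, v₅⟩ := oY
    rw [← fix_uniq hb hU r₁ v₁ (r₂ v₃) v₅ v₄ (by rwa [h₂.eq_cen v₃ v₄])] at v₂
    have hz : g * y * g⁻¹ ∈ Z := f ▸ one1_mem g yY
    refine v₂ ⟨_, t, g, self_mem_cen g, g1, fix_uniq hb hU (r₁.smul (hU.pres g)) r₁ ?_ (r₃ hz)
      (one1_ne g ny) (by rw [k₂.eq_cen hz (one1_ne g ny)]; exact oZ.2.1)⟩
    rw [← one1_lin (W := W)]
    exact (lin_mem_GV _).2 (r₂ yY)
  · refine t.not_twoS ⟨A, hA, n.nonempty, n'.nonempty, fun z hz => ?_⟩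
    have := cr.smul (tl (cl W) z)
    rw [(ax_cen g1).norm.2 hz] at this
    obtain ⟨m, hm⟩ := one1_chain hb hN hV a a' e f i (hN.inv _ _ h₁) this
    have m₁ : (g ^ m)⁻¹ * z ∈ Y := h₂.norm.1 (by
      rw [← one1_tl (W := W), hm, one1_tl, inv_mul_cancel, map_one, one_smul])
    have m₂ : (g ^ m)⁻¹ * z = 1 := by_contra fun x => cr.1 (h₂.inter (ax_cen g1) m₁
      (mul_mem (inv_mem (zpow_mem (self_mem_cen g) m)) hz) x)
    rw [← inv_mul_eq_one.1 m₂, tl_set, one1_inv j]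

/-- an arc between two translates of a one sided curve reverses the orientation -/
theorem one_flip (hb : Bx W) (hQ : Q ∈ OO (cl W)) (hd : d ∈ OO (cl W)) (hD : Two (cl W) d D)
    (hV : IsV (cl W) (UU (cl W) ∪ orb (cl W) Q) V) (a : Adj V Y) (a' : Adj V Z) (e : Y ≠ Z)
    (s : Sep D Y) (s' : Sep D Z) (f : tl (cl W) g • Y = Z) (hy : y ∈ Y) (ny : y ≠ 1)
    (b : Ev D y) : Ev Dᶜ (g * y * g⁻¹) := by
  have hN := fam_uq hb hQ
  obtain ⟨h₁, h₂, h₃, h₄, h₅⟩ := one1_base hb hN hV a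
  obtain ⟨k₁, k₂, k₃, k₄, k₅⟩ := one1_base hb hN hV a'
  have oY := oo_oneS hb (one1_oo hb hQ hd hD hV a s)
  have oZ := oo_oneS hb (one1_oo hb hQ hd hD hV a' s')
  have tY := one1_two oY h₃ h₄ h₅
  obtain ⟨w, w₁, w₂, w₃, w₄⟩ : ∃ w, zpowers w = Y ∧ w ≠ 1 ∧ Ev D w ∧ ∀ A, Ev A y ↔ Ev A w := by
    obtain ⟨w, w₁, w₂, -⟩ := h₂.gen
    rcases h₂.ends hy (w₂ ▸ mem_zpowers w) ny w₁ with t | t
    · exact ⟨w, w₂, w₁, (t.1 _).1 b, t.1⟩
    · exact ⟨w⁻¹, by rwa [zpowers_inv], inv_ne_one.2 w₁, (t.1 _).1 b, t.1⟩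
  have wY : w ∈ Y := w₁ ▸ mem_zpowers w
  suffices Ev Dᶜ (g * w * g⁻¹) by
    rw [← smul_inv_smul g Dᶜ, ev_smul_iff'] at this ⊢
    exact (w₄ _).2 this
  refine ((s'.ev k₂ (f ▸ one1_mem g wY) (one1_ne g w₂)).resolve_left fun t => ?_).1
  have sw := oY.gen tY w₁
  obtain ⟨g', g₁, g₂, g₃⟩ : ∃ g', tl (cl W) g' • Y = Z ∧ g' * w * g'⁻¹ = g * w * g⁻¹ ∧
      g' • V.s Y = (V.s Z)ᶜ := by
    rcases (one1_two oZ k₃ k₄ k₅).eq (f ▸ h₃.smul' g) h₄.smul_set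
      (by rw [← smul_compl']; exact h₅.smul_set) with j | j
    · exact ⟨g * w, by rw [← one1_tl, h₂.norm.2 wY, f], by group,
        by rw [mul_smul, sw, smul_compl', j]⟩
    · exact ⟨g, f, rfl, j⟩
  rw [← g₂] at t
  have ax := hd.1.1.1
  have w₅ : Ev Dᶜ w⁻¹ := ((s.ev h₂ wY w₂).resolve_right fun c => w₃.not_compl c.1).2
  have t₁ : Ev (g'⁻¹ • D) w := by simpa [mul_assoc] using t.1.smul' g'⁻¹
  have t₂ : Ev (g'⁻¹ • D)ᶜ w⁻¹ := by simpa [mul_assoc, smul_compl'] using t.2.smul' g'⁻¹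
  have o : ∀ k k' : FreeGroup X, Ev (k • D) w → Ev (k' • D) w → Ev (k • D)ᶜ w⁻¹ →
      Ev (k' • D)ᶜ w⁻¹ → k • D ⊆ k' • D ∨ k' • D ⊆ k • D := fun k k' a₁ a₂ a₃ a₄ => by
    have := (hd.1.nest hb hD (k⁻¹ * k')).smul' k
    rw [smul_smul, mul_inv_cancel_left] at this
    exact this.sub (a₁.inter a₂).nonempty (a₃.inter a₄).nonempty
  have p₁ : ∀ n : ℤ, Ev (w ^ n • D) w := fun n => w₃.smul_comm ((Commute.refl w).zpow_left n)
  have p₂ : ∀ n : ℤ, Ev (w ^ n • D)ᶜ w⁻¹ := fun n => by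
    rw [← smul_compl']
    exact w₅.smul_comm ((Commute.refl w).zpow_left n).inv_right
  have q₁ : w • D ⊆ D := by
    have := o (w ^ (1 : ℤ)) (w ^ (0 : ℤ)) (p₁ _) (p₁ _) (p₂ _) (p₂ _)
    rw [zpow_zero, one_smul, zpow_one] at this
    exact this.resolve_right fun j => hD.2.1.ne_empty
      (w₅.empty_of_sub (Set.subset_smul_set_iff.1 j))
  have nd : w ∉ d := fun j => hD.2.2.1.ne_empty (by rw [one_sided hb ax hD.1 j w₂ w₃]; simp)
  have nd' : w ∉ tl (cl W) g'⁻¹ • d := fun j => t₂.nonempty.ne_empty (by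
    rw [one_sided hb (ax.smul _) (hD.1.smul' _) j w₂ t₁]; simp)
  obtain ⟨n₁, c₁⟩ := arch hb ax (ax.smul _) hD.1 (hD.1.smul' g'⁻¹) nd nd' w₃ t₂
  obtain ⟨x, hx⟩ := t₁.nonempty
  obtain ⟨n₀, hn⟩ := one1_ex q₁ w₃ w₅ x
  obtain ⟨r, r₁, r₂⟩ := Int.exists_greatest_of_bdd
    (P := fun r => g'⁻¹ • D ⊆ w ^ (2 * r - 1) • D)
    ⟨|n₀|, fun r hr => by
      have := (hn _).1 (hr hx)
      have := le_abs_self n₀
      have := abs_nonneg n₀
      omega⟩
    ⟨-n₁, Set.Subset.trans (by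
      rwa [zpow_neg, zpow_natCast, ← Set.smul_set_subset_iff_subset_inv_smul_set])
      (one1_anti q₁ (n' := -n₁) (by omega))⟩
  have r₃ : w ^ (2 * (r + 1) - 1) • D ⊆ g'⁻¹ • D :=
    (o _ _ (p₁ _) t₁ (p₂ _) t₂).resolve_right fun j => by have := r₂ _ j; omega
  have ev : w ^ (2 * r) • V.s Y = V.s Y := by
    rw [zpow_mul]
    refine one1_inv ?_ r
    rw [zpow_two, mul_smul, sw, smul_compl', sw, compl_compl]
  refine one1_flip (g := g' * w ^ (2 * r)) hb hQ hd hD hV a a' e s s' ?_ w₁ w₂ w₃ ?_ ?_ ?_ ?_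
  · rw [← one1_tl, h₂.norm.2 (zpow_mem wY _), g₁]
  · rw [show g' * w ^ (2 * r) * w * (g' * w ^ (2 * r))⁻¹ = g' * w * g'⁻¹ by group]
    exact t.1
  · rw [mul_smul, ev, g₃]
  · rw [mul_inv_rev, mul_smul, ← Set.smul_set_subset_iff_subset_inv_smul_set, smul_smul,
      ← zpow_add_one, show 2 * r + 1 = 2 * (r + 1) - 1 by ring]
    exact r₃
  · rw [mul_inv_rev, mul_smul, ← Set.subset_smul_set_iff, smul_smul, ← zpow_sub_one]
    exact r₁

end Pool.Agent.Work.MP_3bdf32_al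
end

-- merged part: Pool.Agent.Work.MP_3bdf32_al.One2
section
/-! All arcs of a one sided curve are parallel. -/

namespace Pool.Agent.Work.MP_3bdf32_al

set_option linter.unusedSectionVars false
set_option linter.unusedVariables false

open Subgroup MulAction Filter
open scoped Pointwise

variable {X : Type} [Fintype X] [DecidableEq X] {W : List (FreeGroup X)}
  {Z Z' Y : Subgroup (FreeGroup X)} {A A' B C C' U : Set (FreeGroup X)} {g x y : FreeGroup X}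
  {N N' : Set (Subgroup (FreeGroup X))} {V V' : Ori (FreeGroup X)}
  {Q d : Subgroup (FreeGroup X)} {D D' : Set (FreeGroup X)}

theorem One2_orb (hb : Bx W) (hQ : Q ∈ OO (cl W))
    (hV : IsV (cl W) (UU (cl W) ∪ orb (cl W) Q) V) (hd : d ∈ OO (cl W)) (hD : Cut (cl W) d D)
    (a : Adj V Y) (s : Sep D Y) : Y ∈ orb (cl W) Q ∧ Y ∈ OO (cl W) := by
  rcases hV.mem a.1 with hY | hY
  · exact ((oo_nc hb hd hY).2 (crs_of_sep hb hd.1.1.1 hY.1.1.1 hD s)).elim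
  · refine ⟨hY, ?_⟩
    obtain ⟨k, rfl⟩ := hY
    exact oo_smul hQ _

theorem One2_move (hb : Bx W) (hQ : Q ∈ OO (cl W))
    (hV : IsV (cl W) (UU (cl W) ∪ orb (cl W) Q) V) (a : Adj V Y) (a' : Adj V Z)
    (hY : Y ∈ orb (cl W) Q ∧ Y ∈ OO (cl W)) (hZ : Z ∈ orb (cl W) Q ∧ Z ∈ OO (cl W)) :
    ∃ k ∈ GV (cl W) V, Z = tl (cl W) k • Y :=
  adj_orb hb (fam_uq hb hQ) hV a a' (oo_oneS hb hY.2) (by rw [orb_eq hY.1]; exact hZ.1)

theorem One2_adj (a : Adj V Y) (e : g ∈ GV (cl W) V) : Adj V (tl (cl W) g • Y) := by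
  have := a.smul (tl (cl W) g)
  rwa [mem_GV.1 e] at this

theorem One2_flip (hb : Bx W) (hQ : Q ∈ OO (cl W)) (hd : d ∈ OO (cl W)) (hD : Two (cl W) d D)
    (hV : IsV (cl W) (UU (cl W) ∪ orb (cl W) Q) V) (a : Adj V Y) (a' : Adj V Z) (e : Y ≠ Z)
    (s : Sep D Y) (s' : Sep D Z) (f : tl (cl W) g • Y = Z) (hy : y ∈ Z) (ny : y ≠ 1)
    (b : Ev D y⁻¹) : Ev (g • D) y ∧ Ev (g • D)ᶜ y⁻¹ := by
  have hY := (One2_orb hb hQ hV hd hD.1 a s).2.1.1.1
  have m : g⁻¹ * y * g ∈ Y := by rwa [← f, mem_tl_sub] at hy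
  have n : g⁻¹ * y * g ≠ 1 := fun t => ny (by
    have : y = g * (g⁻¹ * y * g) * g⁻¹ := by group
    rw [this, t]; group)
  have e1 : g * (g⁻¹ * y * g) * g⁻¹ = y := by group
  have e2 : g * (g⁻¹ * y * g)⁻¹ * g⁻¹ = y⁻¹ := by group
  rcases s.ev hY m n with ⟨p, q⟩ | ⟨-, q⟩
  · have p' := p.smul' g
    have q' := q.smul' g
    rw [e1] at p'
    rw [e2, smul_compl'] at q'
    exact ⟨p', q'⟩
  · have := one_flip hb hQ hd hD hV a a' e s s' f (Y.inv_mem m) (inv_ne_one.2 n) q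
    rw [e2] at this
    exact (b.not_compl this).elim

theorem One2_not_mem (hb : Bx W) (hZ : Ax Z) (hA : Cut (cl W) Z A) (a : Ev A g) (b : Ev Aᶜ g⁻¹) :
    g ∉ Z := by
  intro e
  have n : g ≠ 1 := by
    rintro rfl
    exact a.not_compl (by simpa using b)
  obtain ⟨x, hx⟩ := b.nonempty
  exact hx (one_sided hb hZ hA e n a ▸ Set.mem_univ x)

theorem One2_arch (hb : Bx W) (hZ : Ax Z) (hZ' : Ax Z') (hA : Cut (cl W) Z A)
    (hA' : Cut (cl W) Z' A') (a : Ev A g) (b : Ev Aᶜ g⁻¹) (a' : Ev A' g) (b' : Ev A'ᶜ g⁻¹) :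
    ∃ n : ℕ, g ^ n • A' ⊆ A :=
  arch hb hZ hZ' hA hA' (One2_not_mem hb hZ hA a b) (One2_not_mem hb hZ' hA' a' b') a b'

/-- a translate of the second arc lies between the first arc and its translate -/
theorem One2_between (hb : Bx W) (h : Arc (cl W) N V d D) (hA : A ∈ arcs (cl W) V D)
    (hB : B ∈ arcs (cl W) V D) (e : g ∈ GV (cl W) V) (a : Ev A g) (b : Ev Aᶜ g⁻¹) (a' : Ev B g)
    (b' : Ev Bᶜ g⁻¹) : ∃ i : ℤ, g ^ i • B ⊆ A ∧ g • A ⊂ g ^ i • B := by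
  obtain ⟨k, -, hk⟩ := h.of_mem hA
  obtain ⟨k', -, hk'⟩ := h.of_mem hB
  obtain ⟨n, hn⟩ := One2_arch hb hk.simp.1.1 hk'.simp.1.1 hk.two.1 hk'.two.1 a b a' b'
  obtain ⟨x, hx⟩ := a'.nonempty
  obtain ⟨M, hM⟩ := eventually_atTop.1 (b x)
  obtain ⟨i, hi, hmin⟩ := Int.exists_least_of_bdd (P := fun i : ℤ => g ^ i • B ⊆ A)
    ⟨-M, fun z hz => by
      by_contra t
      obtain ⟨m, rfl⟩ : ∃ m : ℕ, z = -(m : ℤ) := ⟨(-z).toNat, by omega⟩
      refine hM m (by omega) (hz ?_)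
      rw [zpow_neg, zpow_natCast, inv_pow]
      exact mul_mem_smul.2 hx⟩ ⟨n, by simpa using hn⟩
  refine ⟨i, hi, ?_⟩
  have t : ¬ g ^ (i - 1) • B ⊆ A := fun t => by have := hmin _ t; omega
  have c1 : Commute (g ^ (i - 1)) g := (Commute.refl g).zpow_left _
  have p := a'.smul_comm c1
  have q := b'.smul_comm c1.inv_right
  rw [smul_compl'] at q
  have r := ((h.nest hb (arcs_smul hB (zpow_mem e (i - 1))) hA).sub (p.inter a).nonempty
    (q.inter b).nonempty).resolve_left t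
  have u : g ^ i • B = g • g ^ (i - 1) • B := by
    rw [← mul_smul, ← zpow_one_add]; simp
  rw [u]
  exact ⟨Set.smul_set_mono r, fun v => t (Set.smul_set_subset_smul_set_iff.1 v)⟩

/-- the chain has period one -/
theorem one_per (hb : Bx W) (hQ : Q ∈ OO (cl W)) (hd : d ∈ OO (cl W))
    (h : Arc (cl W) (UU (cl W) ∪ orb (cl W) Q) V d D) {O : Set (Set (FreeGroup X))}
    (o : Orn (arcs (cl W) V D) O) {F : ℤ → Set (FreeGroup X)} {Ys : ℤ → Subgroup (FreeGroup X)}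
    (c : Chn V O F Ys) : ∃ g ∈ GV (cl W) V,
      ∀ n, g • F n = F (n + 1) ∧ tl (cl W) g • Ys n = Ys (n + 1) := by
  have m0 : F 0 ∈ arcs (cl W) V D := o.sub (c.max 0).prop
  have m1 : F 1 ∈ arcs (cl W) V D := o.sub (c.max 1).prop
  obtain ⟨k0, -, h0⟩ := h.of_mem m0
  obtain ⟨k1, -, h1⟩ := h.of_mem m1
  have d0 := oo_smul hd (tl (cl W) k0)
  have s00 : Sep (F 0) (Ys 0) := (c.sep 0).1
  have s01 : Sep (F 0) (Ys 1) := (c.sep 0).2
  have s11 : Sep (F 1) (Ys 1) := (c.sep 1).1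
  have ne : Ys 0 ≠ Ys 1 := c.ne 0
  have dj : Disjoint (F 0) (F 1) := c.disj 0
  obtain ⟨y, hy, ny, e1, e0⟩ : ∃ y ∈ Ys 1, y ≠ 1 ∧ Ev (F 1) y ∧ Ev (F 0) y⁻¹ := c.ends 0
  have fl := fun (u : FreeGroup X) (f : tl (cl W) u • Ys 0 = Ys 1) =>
    One2_flip hb hQ d0 h0.two h.isV (c.adj 0) (c.adj 1) ne s00 s01 f hy ny e0
  have o0 := One2_orb hb hQ h.isV d0 h0.two.1 (c.adj 0) s00
  have o1 := One2_orb hb hQ h.isV d0 h0.two.1 (c.adj 1) s01
  have ax1 : Ax (Ys 1) := o1.2.1.1.1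
  obtain ⟨k, hk, ek⟩ : ∃ k ∈ GV (cl W) V, F 1 = k • F 0 ∨ F 1 = (k • F 0)ᶜ := by
    obtain ⟨a, ha, ea⟩ := m0
    obtain ⟨b, hb', eb⟩ := m1
    refine ⟨b * a⁻¹, mul_mem hb' (inv_mem ha), ?_⟩
    rcases ea with ea | ea <;> rcases eb with eb | eb <;>
      simp [ea, eb, mul_smul, smul_compl']
  have sk : ∀ Z, Sep (F 0) Z → Sep (F 1) (tl (cl W) k • Z) := fun Z s => by
    have := s.smul (tl (cl W) k)
    rcases ek with ek | ek <;> rw [ek]
    exacts [this, this.compl]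
  obtain ⟨Y', -, -, -, u⟩ := arc_two hb h.fam h.isV h1.simp.1.1 h1.two (c.adj 1) s11
  have cs : tl (cl W) k • Ys 0 = Ys 1 ∨ tl (cl W) k • Ys 1 = Ys 1 := by
    rcases u _ (One2_adj (c.adj 0) hk) (sk _ s00) with p | p
    · exact .inl p
    rcases u _ (One2_adj (c.adj 1) hk) (sk _ s01) with q | q
    · exact .inr q
    · exact (ne (smul_left_cancel _ (p.trans q.symm))).elim
  rcases cs with p | p
  · have q : F 1 = k • F 0 := ek.resolve_right fun t => (fl k p).1.not_compl (t ▸ e1)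
    refine ⟨k, hk, fun n => ?_⟩
    have := chn_uniq hb h o (o.smul hk) c (c.smul hk) (i := 1) (j := 0) q p.symm n
    rw [zero_add, add_comm] at this
    exact ⟨this.1.symm, this.2.symm⟩
  · exfalso
    have km : k ∈ Ys 1 := ax1.norm.1 p
    have sub : F 1 ⊆ (F 0)ᶜ := dj.symm.subset_compl_right
    have q : F 1 = k • (F 0)ᶜ := by
      rw [smul_compl']
      refine ek.resolve_left fun t => ?_
      have := (e1.mono sub).smul_comm (ax1.comm km hy)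
      rw [smul_compl', ← t] at this
      exact e1.not_compl this
    have nk : k ≠ 1 := by
      rintro rfl
      rw [one_smul] at q
      exact (o.compl _ m0).1 (c.max 0).prop (q ▸ (c.max 1).prop)
    obtain ⟨u, hu, eu⟩ := One2_move hb hQ h.isV (c.adj 0) (c.adj 1) o0 o1
    obtain ⟨r1, r2⟩ := fl u eu.symm
    have same : (∀ A, Ev A y ↔ Ev A k) ∧ ∀ A, Ev A y⁻¹ ↔ Ev A k⁻¹ := by
      refine (ax1.ends hy km ny nk).resolve_right fun t => ?_
      have v := Ev.empty_of_sub (A := (F 0)ᶜ) (g := k) (by rw [compl_compl]; exact (t.2 _).1 e0)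
        (q ▸ sub)
      exact h0.two.2.2.1.ne_empty v
    obtain ⟨i, i1, i2⟩ := One2_between hb h (arcs_compl m0) (arcs_smul m0 hu) hk
      ((same.1 _).1 (e1.mono sub)) (by rw [compl_compl]; exact (same.2 _).1 e0)
      ((same.1 _).1 r1) ((same.2 _).1 r2)
    rw [← q] at i2
    have mS := arcs_smul (arcs_smul m0 hu) (zpow_mem hk i)
    have nS : k ^ i • u • F 0 ∉ O := fun t => i2.2 ((c.max 1).le_of_ge t i2.1)
    have cS : (k ^ i • u • F 0)ᶜ ∈ O := by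
      by_contra t
      exact nS ((o.compl _ mS).2 t)
    have v := (c.max 0).le_of_ge cS (Set.subset_compl_comm.1 i1)
    have v' : (k ^ i * u) • F 0 = (F 0)ᶜ := by
      rw [mul_smul]
      exact i1.antisymm (Set.compl_subset_comm.1 v)
    have v1 := h.free hb m0 (mul_mem (zpow_mem hk i) hu) (.inr v')
    rw [v1, one_smul] at v'
    obtain ⟨x, hx⟩ := e0.nonempty
    exact (v' ▸ hx : x ∈ (F 0)ᶜ) hx

theorem One2_zpow {F : ℤ → Set (FreeGroup X)} {Ys : ℤ → Subgroup (FreeGroup X)}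
    (p : ∀ n, g • F n = F (n + 1) ∧ tl (cl W) g • Ys n = Ys (n + 1)) (j : ℤ) :
    ∀ n, g ^ j • F n = F (n + j) ∧ tl (cl W) (g ^ j) • Ys n = Ys (n + j) := by
  induction j using Int.induction_on with
  | zero => intro n; simp
  | succ j ih =>
    intro n
    rw [add_comm (j : ℤ) 1, zpow_one_add, map_mul, mul_smul, mul_smul, (ih n).1, (ih n).2,
      (p _).1, (p _).2, show n + j + 1 = n + (1 + j) by ring]
    exact ⟨rfl, rfl⟩
  | pred j ih =>
    intro n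
    have q := p (n + (-(j : ℤ) - 1))
    rw [show n + (-(j : ℤ) - 1) + 1 = n + -j by ring, ← (ih n).1, ← (ih n).2] at q
    have e : g ^ (-(j : ℤ) - 1) = g⁻¹ * g ^ (-(j : ℤ)) := by group
    rw [e, map_mul, mul_smul, mul_smul, ← q.1, ← q.2, map_inv, inv_smul_smul, inv_smul_smul]
    exact ⟨rfl, rfl⟩

theorem One2_orn (hb : Bx W) (h : Arc (cl W) N V d D) (k : FreeGroup X)
    (nE : k • D ∉ arcs (cl W) V D) :
    Orn (arcs (cl W) V D) {F | F ∈ arcs (cl W) V D ∧ Mono F (k • D)} := by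
  have hE := h.two.smul' k
  have ne : ∀ F ∈ arcs (cl W) V D, F.Nonempty := fun F hF =>
    let ⟨_, _, t⟩ := h.of_mem hF; t.two.2.1
  refine ⟨fun F hF => hF.1, fun F hF => ⟨fun p q => ?_, fun q => ⟨hF, ?_⟩⟩,
    fun F hF F' p q => ⟨hF, p.2.sub q⟩, fun F hF => ?_⟩
  · rcases p.2 with p | p <;> rcases q.2 with q | q
    · obtain ⟨x, hx⟩ := hE.2.2.1
      by_cases t : x ∈ F
      exacts [hx (p t), hx (q t)]
    · exact nE (p.antisymm (Set.compl_subset_compl.1 q) ▸ hF)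
    · exact nE (q.antisymm (Set.subset_compl_comm.1 p) ▸ arcs_compl hF)
    · obtain ⟨x, hx⟩ := hE.2.1
      by_cases t : x ∈ F
      exacts [p t hx, q t hx]
  · have : Nest F (k • D) := by
      obtain ⟨a, -, ea⟩ := hF
      have t := (h.simp.nest hb h.two (a⁻¹ * k)).smul' a
      rw [← mul_smul, mul_inv_cancel_left] at t
      rcases ea with rfl | rfl
      · exact t
      · rw [smul_compl']; exact t.compl_left
    exact this.resolve_right fun t => q ⟨arcs_compl hF, t⟩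
  · obtain ⟨x, hx⟩ := ne F hF.1
    obtain ⟨y, hy⟩ : ∃ y, ¬ (x ∈ k • D ↔ y ∈ k • D) := by
      by_cases t : x ∈ k • D
      · obtain ⟨y, hy⟩ := hE.2.2.1
        exact ⟨y, fun u => hy (u.1 t)⟩
      · obtain ⟨y, hy⟩ := hE.2.1
        exact ⟨y, fun u => t (u.2 hy)⟩
    have fin : {F' | (F' ∈ arcs (cl W) V D ∧ Mono F' (k • D)) ∧ F ⊆ F'}.Finite := by
      refine ((orb_lf hb h.simp.1.1 x y).biUnion (t := fun Z => {A | Cut (cl W) Z A})
        fun Z hZ => cut_fin hb ?_).subset ?_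
      · obtain ⟨⟨a, rfl⟩, -⟩ := hZ
        exact h.simp.1.1.smul _
      · rintro F' ⟨⟨p, q⟩, r⟩
        obtain ⟨a, -, t⟩ := h.of_mem p
        refine Set.mem_biUnion (x := tl (cl W) a • d) ⟨⟨a, rfl⟩, fun u => hy ?_⟩ t.two.1
        exact q.iff (r hx) ((u F' t.two.1).1 (r hx))
    obtain ⟨F', p, q⟩ := fin.exists_le_maximal (a := F) ⟨hF, subset_rfl⟩
    exact ⟨F', p, q.prop.1, fun B hB t => q.le_of_ge ⟨hB, p.trans t⟩ t⟩

theorem One2_side {O : Set (Set (FreeGroup X))} {F : ℤ → Set (FreeGroup X)}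
    {Ys : ℤ → Subgroup (FreeGroup X)} (c : Chn V O F Ys) (m : ∀ n, Mono (F n) A)
    (u : ∀ Z', Adj V Z' → Sep A Z' → Z' = Y ∨ Z' = Z) {i j : ℤ} (hij : i ≤ j)
    (f : ∀ n, i < n → n ≤ j → Ys n ≠ Y ∧ Ys n ≠ Z) : F i ⊆ A ↔ F j ⊆ A := by
  induction j, hij using Int.leInduction with
  | base => rfl
  | succ n hn ih =>
    refine (ih fun r p q => f r p (by omega)).trans ?_
    obtain ⟨y, hy, ny, e1, e0⟩ := c.ends n
    have t : ¬ Sep A (Ys (n + 1)) := fun t =>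
      (u _ (c.adj _) t).elim (f _ (by omega) le_rfl).1 (f _ (by omega) le_rfl).2
    rcases m n with p | p <;> rcases m (n + 1) with q | q
    · exact iff_of_true p q
    · exact (t ⟨y⁻¹, inv_mem hy, inv_ne_one.2 ny, e0.mono p, by simpa using e1.mono q⟩).elim
    · exact (t ⟨y, hy, ny, e1.mono q, e0.mono p⟩).elim
    · exact iff_of_false (fun r => (e0.mono r).not_compl (e0.mono p))
        fun r => (e1.mono r).not_compl (e1.mono q)

theorem One2_switch {O : Set (Set (FreeGroup X))} {F : ℤ → Set (FreeGroup X)}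
    {Ys : ℤ → Subgroup (FreeGroup X)} (c : Chn V O F Ys) (m : ∀ n, Mono (F n) A) (n : ℤ)
    (hZ : Ax (Ys (n + 1))) (s : Sep A (Ys (n + 1))) : F n ⊆ A ↔ ¬ F (n + 1) ⊆ A := by
  obtain ⟨y, hy, ny, e1, e0⟩ := c.ends n
  rcases s.ev hZ hy ny with ⟨p, q⟩ | ⟨p, q⟩
  · exact iff_of_false (fun r => (e0.mono r).not_compl q) (not_not.2
      ((m _).resolve_right fun r => p.not_compl (e1.mono r)))
  · exact iff_of_true ((m _).resolve_right fun r => q.not_compl (e0.mono r))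
      fun r => (e1.mono r).not_compl p

theorem One2_tri (hb : Bx W) (hQ : Q ∈ OO (cl W))
    (hV : IsV (cl W) (UU (cl W) ∪ orb (cl W) Q) V) (a : Adj V Y) (hY : Y ∈ OO (cl W)) :
    ∀ z ∈ GV (cl W) V, z ≠ 1 → Simp (cl W) (cen z) →
      cen z ∈ UU (cl W) ∪ orb (cl W) Q ∨ OneS (cl W) (cen z) := by
  intro z hz nz sz
  obtain ⟨sY, nY, V', hV', nf, u, hu, nu, gu⟩ := hY
  have r := res_isV (N' := UU (cl W)) Set.subset_union_left hV
  have e : res (UU (cl W)) V = V' := fix_uniq hb (fam_uu hb) r hV'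
    (adj_le_res hb (fam_uq hb hQ) (fam_uu hb) Set.subset_union_left hV a nY hu) gu nu
    (by rwa [sY.1.1.eq_cen hu nu])
  rcases nonflex_tri hb r (by rwa [e]) (res_GV (fam_uu hb) V hz) nz sz with t | t
  · exact .inl (.inl t)
  · exact .inr (oo_oneS hb t)

theorem one_band (hb : Bx W) (hQ : Q ∈ OO (cl W)) (hd : d ∈ OO (cl W))
    (h : Arc (cl W) (UU (cl W) ∪ orb (cl W) Q) V d D) (k : FreeGroup X) (a : Adj V Y)
    (a' : Adj V Z) (e : Y ≠ Z) (s : Sep (k • D) Y) (s' : Sep (k • D) Z) :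
    ∃ A ∈ arcs (cl W) V D, Sep A Y ∧ Sep A Z := by
  by_cases nE : k • D ∈ arcs (cl W) V D
  · exact ⟨_, nE, s, s'⟩
  have o := One2_orn hb h k nE
  have hE := h.two.smul' k
  have dE := oo_smul hd (tl (cl W) k)
  have nest : ∀ u : FreeGroup X, Nest (k • D) (u • k • D) := fun u =>
    (h.simp.smul (tl (cl W) k)).nest hb hE u
  generalize k • D = E at *
  generalize tl (cl W) k • d = d' at *
  have oY := One2_orb hb hQ h.isV dE hE.1 a s
  have oZ := One2_orb hb hQ h.isV dE hE.1 a' s'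
  have aY : Ax Y := oY.2.1.1.1
  have aZ : Ax Z := oZ.2.1.1.1
  have aE : Ax d' := dE.1.1.1
  have two : ∀ Z', Adj V Z' → Sep E Z' → Z' = Y ∨ Z' = Z := by
    obtain ⟨Y', -, -, -, u⟩ := arc_two hb h.fam h.isV aE hE a s
    intro Z' p q
    rw [(u Z a' s').resolve_left e.symm]
    exact u Z' p q
  have crs : ∀ Z', Adj V Z' → Z' ∈ orb (cl W) Q ∧ Z' ∈ OO (cl W) →
      ∃ R ∈ arcs (cl W) V D, Sep R Z' := by
    intro Z' p q
    obtain ⟨Y₀, p₀, s₀⟩ := h.sep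
    obtain ⟨u, hu, rfl⟩ := One2_move hb hQ h.isV p₀ p
      (One2_orb hb hQ h.isV hd h.two.1 p₀ s₀) q
    exact ⟨u • D, ⟨u, hu, .inl rfl⟩, s₀.smul (tl (cl W) u)⟩
  obtain ⟨A, mA, sA, AE⟩ : ∃ A, Maximal (· ∈ {F | F ∈ arcs (cl W) V D ∧ Mono F E}) A ∧
      Sep A Y ∧ A ⊆ E := by
    obtain ⟨y, hy, ny, p, q⟩ := s
    obtain ⟨m, hm, gm⟩ := adj_pow hb h.fam h.isV a hy
    have p' := p.pow hm
    have q' := q.pow hm
    rw [inv_pow] at q'
    have hu := pow_mem hy m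
    have nu : y ^ m ≠ 1 := fun t => by
      rw [t] at p' q'
      exact p'.not_compl (by simpa using q')
    generalize y ^ m = u at *
    obtain ⟨R, hR, r, r'⟩ : ∃ R ∈ arcs (cl W) V D, Ev R u ∧ Ev Rᶜ u⁻¹ := by
      obtain ⟨R, hR, sR⟩ := crs Y a oY
      rcases sR.ev aY hu nu with t | t
      · exact ⟨R, hR, t⟩
      · exact ⟨Rᶜ, arcs_compl hR, t.1, by simpa using t.2⟩
    obtain ⟨kR, -, tR⟩ := h.of_mem hR
    obtain ⟨n, hn⟩ := One2_arch hb aE tR.simp.1.1 hE.1 tR.two.1 p' q' r r'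
    obtain ⟨A, sub, mA⟩ := o.acc _ ⟨arcs_smul hR (pow_mem gm n), .inl hn⟩
    have t := r.smul_comm ((Commute.refl u).pow_left n)
    have AE : A ⊆ E := mA.prop.2.resolve_right fun v => p'.not_compl (t.mono (sub.trans v))
    exact ⟨A, mA, ⟨u, hu, nu, t.mono sub, q'.mono (Set.compl_subset_compl.2 AE)⟩, AE⟩
  obtain ⟨F, Ys, c, rfl, rfl⟩ := chn_ex hb h o mA a sA
  obtain ⟨g, hg, per⟩ := one_per hb hQ hd h o c
  have zp := One2_zpow per
  have mem : ∀ n, F n ∈ arcs (cl W) V D ∧ Mono (F n) E := fun n => (c.max n).prop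
  have mon : ∀ n, Mono (F n) E := fun n => (mem n).2
  have ne : ∀ n, (F n).Nonempty := fun n =>
    let ⟨_, _, t⟩ := h.of_mem (mem n).1; t.two.2.1
  have ax : ∀ n, Ax (Ys n) := fun n => (h.fam.sp _ (h.isV.mem (c.adj n).1)).1
  have inj : ∀ i j, Ys i = Ys j → i = j := by
    have key : ∀ i j, i < j → Ys i ≠ Ys j := by
      intro i j hij t
      obtain ⟨m, rfl⟩ : ∃ m : ℕ, j = i + m := ⟨(j - i).toNat, by omega⟩
      have u := (zp m i).2
      rw [← t, (ax i).norm, zpow_natCast] at u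
      exact c.ne i ((((ax i).norm).2 ((ax i).root (by omega) u)).symm.trans (per i).2)
    intro i j t
    rcases lt_trichotomy i j with u | u | u
    exacts [(key i j u t).elim, u, (key j i u t.symm).elim]
  by_cases hZ : ∃ j, Z = Ys j
  · obtain ⟨j, rfl⟩ := hZ
    by_cases j1 : j = 1
    · subst j1
      exact ⟨F 0, (mem 0).1, c.sep 0⟩
    by_cases j2 : j = -1
    · subst j2
      exact ⟨F (-1), (mem _).1, by simpa using (c.sep (-1)).symm⟩
    exfalso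
    have j0 : j ≠ 0 := by
      rintro rfl
      exact e rfl
    have sd : ∀ p q : ℤ, p ≤ q → (∀ n, p < n → n ≤ q → n ≠ 0 ∧ n ≠ j) → (F p ⊆ E ↔ F q ⊆ E) :=
      fun p q hpq t => One2_side c mon two hpq fun n u v =>
        ⟨fun w => (t n u v).1 (inj _ _ w), fun w => (t n u v).2 (inj _ _ w)⟩
    have t1 : F 1 ⊆ E := (sd 0 1 (by omega) fun n u v => by omega).1 AE
    have z1 : (-1 : ℤ) + 1 = 0 := by norm_num
    have z2 : (-2 : ℤ) + 1 = -1 := by norm_num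
    have t2 : ¬ F (-1) ⊆ E := fun t =>
      (One2_switch c mon (-1) (ax _) (by rwa [z1])).1 t (by rwa [z1])
    have t3 : ¬ F (-2) ⊆ E := fun t => t2 ((sd (-2) (-1) (by omega) fun n u v => by omega).1 t)
    have t4 := One2_switch c mon (j - 1) (ax _) (by rwa [sub_add_cancel])
    rw [sub_add_cancel] at t4
    have t5 : F (j - 1) ⊆ E := by
      rcases lt_or_gt_of_ne j0 with u | u
      · exact t4.2 fun t => t2 ((sd j (-1) (by omega) fun n u v => by omega).1 t)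
      · exact (sd 0 (j - 1) (by omega) fun n u v => by omega).1 AE
    have up : ∀ n, ∀ S : Set (FreeGroup X), F n ⊆ S → F (n + 1) ⊆ g • S := fun n S t => by
      rw [← (per n).1]
      exact Set.smul_set_mono t
    have cor : ∀ n, ∀ S T : Set (FreeGroup X), F (n + 1) ⊆ S → F n ⊆ T → (S ∩ g • T).Nonempty :=
      fun n S T p q => (ne (n + 1)).mono (Set.subset_inter p (up n T q))
    refine not_nest (cor 0 _ _ t1 AE) ?_ (cor (j - 1) _ _ ?_ t5) ?_ (nest g)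
    · rw [← smul_compl']
      exact cor (-1) _ _ (by rwa [z1]) ((mon _).resolve_left t2)
    · rw [sub_add_cancel]
      exact (mon _).resolve_left (t4.1 t5)
    · rw [← smul_compl']
      exact cor (-2) _ _ ((mon _).resolve_left (by rwa [z2])) ((mon _).resolve_left t3)
  exfalso
  have nZ : ∀ n, Z ≠ Ys n := fun n t => hZ ⟨n, t⟩
  have neZ : (V.s Z)ᶜ.Nonempty := Set.nonempty_compl.2 a'.1
  have far : ∀ S : Set (FreeGroup X), Mono S E → ¬ (V.s Z)ᶜ ⊆ S := by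
    intro S p q
    obtain ⟨z, hz, -, r, r'⟩ := s'
    have cZ := (h.isV.cut hb h.fam (h.isV.mem a'.1)).compl
    obtain ⟨x, x1, x2⟩ := cut_meets hb aZ cZ neZ hz r
    obtain ⟨x', x3, x4⟩ := cut_meets hb aZ cZ neZ (inv_mem hz) r'
    exact x4 ((p.iff (q x1) (q x3)).1 x2)
  have zK := chn_far hb h o c a' nZ fun n => far _ (mon n)
  rcases chn_fin hb h o c hg one_pos per (neZ.mono zK) (One2_tri hb hQ h.isV a oY.2) with
    ⟨Y', p, q, -, r⟩ | ⟨w, hw, cw, ew⟩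
  · by_cases t : Z = Y'
    · obtain ⟨R, hR, sR⟩ := crs Z a' oZ
      exact r R hR (t ▸ sR)
    · obtain ⟨x, hx⟩ := neZ
      exact q (zK hx) (adj_disj hb h.fam h.isV a' p t hx)
  have c' := c.smul hw
  have mon' : ∀ n, Mono (w • F n) E := fun n => (chn_opp hb h o c hw ew _ (mem n)).2
  have eK := (cK_smul (F := F) (Ys := Ys) hw).symm.trans ew
  obtain ⟨j, rfl⟩ : ∃ j, Z = tl (cl W) w • Ys j := by
    by_contra t
    have u := chn_far hb h (o.smul hw) c' a' (fun n v => t ⟨n, v⟩) fun n => far _ (mon' n)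
    rw [eK] at u
    obtain ⟨x, hx⟩ := neZ
    exact u hx (zK hx)
  have nY : ∀ n, tl (cl W) w • Ys n ≠ Ys 0 := by
    intro n t
    refine a.1 (Set.eq_univ_of_forall fun x => ?_)
    by_cases u : x ∈ cK V F Ys
    · exact (u 0).2
    · have v : x ∈ (cK V F Ys)ᶜ := u
      rw [← eK] at v
      exact t ▸ (v n).2
  have pos : ∀ n : ℕ, F n ⊆ E := fun n => (One2_side c mon two (Int.natCast_nonneg n)
    fun r u v => ⟨fun t => by have := inj _ _ t; omega, (nZ r).symm⟩).1 AE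
  have ng : g ≠ 1 := by
    rintro rfl
    have t := (per 0).2
    rw [map_one, one_smul] at t
    exact c.ne 0 t
  have evg : Ev E g := by
    refine (cut_ev hb aE hE.1 fun t => ng (arc_free hb h.fam h.isV aE hE a s t hg)).resolve_right
      fun t => ?_
    obtain ⟨x, hx⟩ := ne 0
    obtain ⟨n, hn⟩ := t.ex x
    have u := (zp n 0).1
    rw [zero_add, zpow_natCast] at u
    exact hn (pos n (u ▸ mul_mem_smul.2 hx))
  have wE : w • F j ⊆ E := by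
    obtain ⟨x, hx⟩ := ne j
    obtain ⟨n, hn⟩ := evg.ex (w * x)
    have u := (zp n j).1
    rw [zpow_natCast] at u
    have v : g ^ n * (w * x) ∈ w • F (j + n) := by
      rw [← mul_assoc, ← (cw.pow_right n).eq, mul_assoc, ← u]
      exact mul_mem_smul.2 (mul_mem_smul.2 hx)
    refine (One2_side c' mon' two (show j ≤ j + n by omega) fun r p q => ⟨nY r, fun t => ?_⟩).2
      ((mon' _).resolve_right fun t => t v hn)
    have := inj _ _ (smul_left_cancel _ t)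
    omega
  obtain ⟨y, hy, ny, e1, -⟩ : ∃ y ∈ Ys 0, y ≠ 1 ∧ Ev (F 0) y ∧ Ev (F (-1)) y⁻¹ := by
    simpa using c.ends (-1)
  have z0 := zp j 0
  rw [zero_add] at z0
  have fl := one_flip hb hQ dE hE h.isV a a' e s s' (g := w * g ^ j)
    (by rw [map_mul, mul_smul, z0.2]) hy ny (e1.mono AE)
  have e2 := e1.smul' (w * g ^ j)
  rw [mul_smul, z0.1] at e2
  exact (e2.mono wE).not_compl fl

end Pool.Agent.Work.MP_3bdf32_al
end

-- merged part: Pool.Agent.Work.MP_3bdf32_al.One3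
section
/-! Two one sided curves cross at most once. -/

namespace Pool.Agent.Work.MP_3bdf32_al

set_option linter.unusedSectionVars false
set_option linter.unusedVariables false

open Subgroup MulAction Filter
open scoped Pointwise

variable {X : Type} [Fintype X] [DecidableEq X] {W : List (FreeGroup X)}
  {Z Z' Y : Subgroup (FreeGroup X)} {A A' B C C' U : Set (FreeGroup X)} {g x y : FreeGroup X}
  {N N' : Set (Subgroup (FreeGroup X))} {V V' : Ori (FreeGroup X)}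
  {Q d : Subgroup (FreeGroup X)} {D D' : Set (FreeGroup X)}

/-- the sides of the translates of `D` -/
def One3T (D P : Set (FreeGroup X)) : Prop := ∃ k : FreeGroup X, P = k • D ∨ P = k • Dᶜ

theorem One3T.self (D : Set (FreeGroup X)) : One3T D D := ⟨1, .inl (one_smul _ _).symm⟩

theorem One3T.smul (h : One3T D A) (k : FreeGroup X) : One3T D (k • A) := by
  obtain ⟨a, e | e⟩ := h
  · exact ⟨k * a, .inl (by rw [e, mul_smul])⟩
  · exact ⟨k * a, .inr (by rw [e, mul_smul])⟩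

theorem One3T.compl (h : One3T D A) : One3T D Aᶜ := by
  obtain ⟨a, e | e⟩ := h
  · exact ⟨a, .inr (by rw [e, smul_compl'])⟩
  · exact ⟨a, .inl (by rw [e, smul_compl', compl_compl])⟩

theorem One3T.two (hd : Ax d) (hD : Two (cl W) d D) (h : One3T D A) :
    ∃ d', Ax d' ∧ Two (cl W) d' A := by
  obtain ⟨a, rfl | rfl⟩ := h
  · exact ⟨_, hd.smul (tl (cl W) a), hD.smul' a⟩
  · exact ⟨_, hd.smul (tl (cl W) a), hD.compl.smul' a⟩

theorem One3T.nest (hb : Bx W) (hd : Simp (cl W) d) (hD : Two (cl W) d D) (h : One3T D A)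
    (h' : One3T D B) : Nest A B := by
  have key : ∀ a b : FreeGroup X, Nest (a • D) (b • D) := fun a b => by
    have := (Simp.nest hb hd hD (a⁻¹ * b)).smul' a
    rwa [← mul_smul, mul_inv_cancel_left] at this
  obtain ⟨a, rfl | rfl⟩ := h <;> obtain ⟨b, rfl | rfl⟩ := h' <;> try simp only [smul_compl']
  exacts [key a b, (key a b).compl_right, (key a b).compl_left,
    (key a b).compl_left.compl_right]

theorem One3T.cmp (hb : Bx W) (hd : Simp (cl W) d) (hD : Two (cl W) d D) (h : One3T D A)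
    (h' : One3T D B) (a : Ev A x) (b : Ev B x) (a' : Ev Aᶜ y) (b' : Ev Bᶜ y) : A ⊆ B ∨ B ⊆ A :=
  (h.nest hb hd hD h').sub (a.inter b).nonempty (a'.inter b').nonempty

theorem one3_ev_zpow (a : Ev A x) (j : ℤ) : Ev (x ^ j • A) x :=
  a.smul_comm ((Commute.refl x).zpow_left j)

theorem one3_ev_zpow' (a : Ev Aᶜ x⁻¹) (j : ℤ) : Ev (x ^ j • A)ᶜ x⁻¹ := by
  rw [← smul_compl']
  exact a.smul_comm ((Commute.refl x).zpow_left j).inv_right

theorem One3T.dec (hb : Bx W) (hd : Simp (cl W) d) (hD : Two (cl W) d D) (h : One3T D A)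
    (a : Ev A x) (a' : Ev Aᶜ x⁻¹) : x • A ⊆ A := by
  have b := one3_ev_zpow a 1
  have b' := one3_ev_zpow' a' 1
  rw [zpow_one] at b b'
  rcases h.cmp hb hd hD (h.smul x) a b a' b' with e | e
  · have : x⁻¹ • A ⊆ A := by
      have := Set.smul_set_mono (a := x⁻¹) e
      rwa [inv_smul_smul] at this
    have e0 := a'.empty_of_sub this
    rw [e0]; simp
  · exact e

theorem one3_anti (h : x • A ⊆ A) {i j : ℤ} (e : i ≤ j) : x ^ j • A ⊆ x ^ i • A := by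
  obtain ⟨n, rfl⟩ := Int.le.dest e
  rw [zpow_add, mul_smul, zpow_natCast]
  refine Set.smul_set_mono ?_
  rintro _ ⟨u, hu, rfl⟩
  exact pow_mem_of_sub h hu n

theorem one3_not_mem (hb : Bx W) (hd : Ax d) (hD : Two (cl W) d D) (a : Ev D x) (n : x ≠ 1) :
    x ∉ d := fun e => by
  have := one_sided hb hd hD.1 e n a
  have h2 := hD.2.2.1
  rw [this] at h2
  simp at h2

/-- locating a translate in the chain of another one -/
theorem One3T.loc (hb : Bx W) (hd : Simp (cl W) d) (hD : Two (cl W) d D) (h : One3T D A)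
    (h' : One3T D B) (n : x ≠ 1) (a : Ev A x) (a' : Ev Aᶜ x⁻¹) (b : Ev B x) (b' : Ev Bᶜ x⁻¹) :
    ∃ j : ℤ, x ^ (j + 1) • A ⊆ B ∧ B ⊆ x ^ j • A := by
  obtain ⟨d₁, a₁, t₁⟩ := h.two hd.1.1 hD
  obtain ⟨d₂, a₂, t₂⟩ := h'.two hd.1.1 hD
  have n₁ := one3_not_mem hb a₁ t₁ a n
  have n₂ := one3_not_mem hb a₂ t₂ b n
  obtain ⟨p, hp⟩ := arch hb a₂ a₁ t₂.1 t₁.1 n₂ n₁ b a'
  obtain ⟨q, hq⟩ := arch hb a₁ a₂ t₁.1 t₂.1 n₁ n₂ a b'
  have dec := h.dec hb hd hD a a'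
  by_contra hc
  have step : ∀ j : ℤ, B ⊆ x ^ j • A → B ⊆ x ^ (j + 1) • A := fun j hj => by
    rcases h'.cmp hb hd hD (h.smul (x ^ (j + 1))) b (one3_ev_zpow a _) b' (one3_ev_zpow' a' _)
      with e | e
    · exact e
    · exact absurd ⟨j, e, hj⟩ hc
  have all : ∀ i : ℕ, B ⊆ x ^ (-(q : ℤ) + i) • A := fun i => by
    induction i with
    | zero =>
      have := Set.smul_set_mono (a := (x ^ q)⁻¹) hq
      rw [inv_smul_smul] at this
      simpa using this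
    | succ i ih =>
      have := step _ ih
      rwa [add_assoc, ← Nat.cast_succ] at this
  have := all (q + p)
  rw [show -(q : ℤ) + ((q + p : ℕ) : ℤ) = p by push_cast; ring] at this
  refine hc ⟨p, (one3_anti dec (show (p : ℤ) ≤ p + 1 by omega)).trans ?_, this⟩
  rwa [zpow_natCast]

theorem one3_oo (hQ : Q ∈ OO (cl W)) (hY : Y ∈ orb (cl W) Q) : Y ∈ OO (cl W) := by
  obtain ⟨k, rfl⟩ := hY
  exact oo_smul hQ _

theorem one3_two (hb : Bx W) (hQ : Q ∈ OO (cl W))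
    (hV : IsV (cl W) (UU (cl W) ∪ orb (cl W) Q) V) (hY : Y ∈ orb (cl W) Q) :
    Two (cl W) Y (V.s Y) := by
  obtain ⟨A, hA, -⟩ := oo_oneS hb (one3_oo hQ hY)
  rcases hA.isAt.1 (hV.isAt Y (.inr hY)) with e | e <;> rw [e]
  exacts [hA, hA.compl]

/-- an oriented generator -/
theorem one3_gen (hY : Ax Y) (s : Sep D Y) :
    ∃ x, x ≠ 1 ∧ zpowers x = Y ∧ Ev D x ∧ Ev Dᶜ x⁻¹ := by
  obtain ⟨z, n, e, -⟩ := hY.gen
  rcases s.ev hY (e ▸ mem_zpowers z) n with ⟨a, b⟩ | ⟨a, b⟩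
  · exact ⟨z, n, e, a, b⟩
  · exact ⟨z⁻¹, inv_ne_one.2 n, by rw [zpowers_inv, e], b, by rwa [inv_inv]⟩

theorem one3_conj_gen (H : Subgroup (FreeGroup X)) (k x : FreeGroup X) :
    zpowers (k * x * k⁻¹) = tl H k • zpowers x := by
  ext u
  rw [mem_tl_sub]
  constructor
  · rintro ⟨n, rfl⟩
    exact ⟨n, by simp only [conj_zpow]; group⟩
  · rintro ⟨n, e⟩
    refine ⟨n, ?_⟩
    simp only at e
    simp only [conj_zpow, e]; group

theorem one3_sep_smul (s : Sep D Y) (k : FreeGroup X) : Sep (k • D) (tl (cl W) k • Y) :=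
  s.smul (tl (cl W) k)

/-- one step along the axis `d` -/
structure One3St (W : List (FreeGroup X)) (Q : Subgroup (FreeGroup X)) (D : Set (FreeGroup X))
    (V : Ori (FreeGroup X)) (Y Z : Subgroup (FreeGroup X)) : Prop where
  isV : IsV (cl W) (UU (cl W) ∪ orb (cl W) Q) V
  a : Adj V Y
  a' : Adj V Z
  ne : Y ≠ Z
  s : Sep D Y
  s' : Sep D Z
  m : Y ∈ orb (cl W) Q
  m' : Z ∈ orb (cl W) Q

theorem one3_next (hb : Bx W) (hQ : Q ∈ OO (cl W)) (hd : d ∈ OO (cl W)) (hD : Two (cl W) d D)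
    (hY : Y ∈ orb (cl W) Q) (s : Sep D Y) (hU : Two (cl W) Y U) :
    ∃ V Z, One3St W Q D V Y Z ∧ V.s Y = U := by
  have hN := fam_uq hb hQ
  have hC : IsAt (cl W) Y U := hU.isAt.2 (.inl rfl)
  have hV := vz_isV hb hN (.inr hY) hC
  have a := vz_adj hb hN (.inr hY) hC
  obtain ⟨Z, a', n, s', -⟩ := arc_two hb hN hV hd.1.1.1 hD a s
  have hZ := hV.mem a'.1
  refine ⟨_, Z, ⟨hV, a, a', n.symm, s, s', hY, ?_⟩, vz_self _ _⟩
  rcases hZ with hZ | hZ
  · exact absurd (crs_of_sep hb hd.1.1.1 hZ.1.1.1 hD.1 s') (oo_nc hb hd hZ).2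
  · exact hZ

variable {V₀ V₁ V₂ : Ori (FreeGroup X)} {Y₀ Y₁ Y₂ Y₃ : Subgroup (FreeGroup X)}

/-- consecutive steps differ by a translation -/
theorem one3_g (hb : Bx W) (hQ : Q ∈ OO (cl W)) (hd : d ∈ OO (cl W)) (hD : Two (cl W) d D)
    (h₀ : One3St W Q D V₀ Y₀ Y₁) (h₁ : One3St W Q D V₁ Y₁ Y₂) (e : V₁.s Y₁ = (V₀.s Y₁)ᶜ) :
    ∃ g, tl (cl W) g • V₀ = V₁ ∧ (tl (cl W) g • Y₀ = Y₁ ∧ tl (cl W) g • Y₁ = Y₂ ∨
      tl (cl W) g • Y₀ = Y₂ ∧ tl (cl W) g • Y₁ = Y₁) := by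
  have hN := fam_uq hb hQ
  have o₁ := one3_oo hQ h₁.m
  have ax₁ : Ax Y₁ := o₁.1.1.1
  obtain ⟨x, nx, gx, -⟩ := ax₁.gen
  have hx : tl (cl W) x • Y₁ = Y₁ := ax₁.norm.2 (gx ▸ mem_zpowers x)
  have sw := (oo_oneS hb o₁).gen (one3_two hb hQ h₀.isV h₀.m') gx
  have k : tl (cl W) x • V₀ = V₁ := by
    rw [adj_eq hb hN h₀.isV h₀.a', adj_eq hb hN h₁.isV h₁.a, vz_smul (hN.pres x), hx, tl_set,
      sw, e]
  have arc : Arc (cl W) (UU (cl W) ∪ orb (cl W) Q) V₁ (tl (cl W) x • d) (x • D) :=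
    ⟨hN, h₁.isV, hd.1.smul _, hD.smul' x, Y₁, h₁.a, by
      have := one3_sep_smul (W := W) h₁.s x
      rwa [hx] at this⟩
  obtain ⟨A, ⟨k', hk', hA⟩, s₁, s₂⟩ := one_band hb hQ (oo_smul hd _) arc x⁻¹ h₁.a h₁.a' h₁.ne
    (by rw [inv_smul_smul]; exact h₁.s) (by rw [inv_smul_smul]; exact h₁.s')
  have kg : tl (cl W) (k' * x) • V₀ = V₁ := by rw [map_mul, mul_smul, k, mem_GV.1 hk']
  have sep : ∀ Z, Sep A Z → Sep D ((tl (cl W) (k' * x))⁻¹ • Z) := fun Z s => by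
    have s' : Sep ((k' * x) • D) Z := by
      rcases hA with rfl | rfl
      · rwa [mul_smul]
      · have := s.compl
        rwa [smul_compl', compl_compl, ← mul_smul] at this
    have := s'.smul (tl (cl W) (k' * x))⁻¹
    rwa [← tl_set (H := cl W), inv_smul_smul] at this
  have adj : ∀ Z, Adj V₁ Z → Adj V₀ ((tl (cl W) (k' * x))⁻¹ • Z) := fun Z a => by
    have := a.smul (tl (cl W) (k' * x))⁻¹
    rwa [← kg, inv_smul_smul] at this
  obtain ⟨Y', -, -, -, two⟩ := arc_two hb hN h₀.isV hd.1.1.1 hD h₀.a h₀.s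
  have y' : Y₁ = Y' := (two Y₁ h₀.a' h₀.s').resolve_left h₀.ne.symm
  subst y'
  refine ⟨k' * x, kg, ?_⟩
  have p := two _ (adj _ h₁.a) (sep _ s₁)
  have q := two _ (adj _ h₁.a') (sep _ s₂)
  simp only [inv_smul_eq_iff] at p q
  rcases p with p | p <;> rcases q with q | q
  · exact absurd (p.trans q.symm) h₁.ne
  · exact .inl ⟨p.symm, q.symm⟩
  · exact .inr ⟨q.symm, p.symm⟩
  · exact absurd (p.trans q.symm) h₁.ne

theorem one3_flip (hb : Bx W) (hQ : Q ∈ OO (cl W)) (hd : d ∈ OO (cl W)) (hD : Two (cl W) d D)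
    (h : One3St W Q D V Y Z) (f : tl (cl W) g • Y = Z) (nx : x ≠ 1) (gx : zpowers x = Y)
    (ex : Ev D x) (ny : y ≠ 1) (gy : zpowers y = Z) (ey : Ev D y) : g * x * g⁻¹ = y⁻¹ := by
  have fl := one_flip hb hQ hd hD h.isV h.a h.a' h.ne h.s h.s' f (gx ▸ mem_zpowers x) nx ex
  have : zpowers y = zpowers (g * x * g⁻¹) := by rw [one3_conj_gen (cl W), gx, f, gy]
  rcases gen_eq ny this with e | e
  · rw [e] at fl
    exact (ey.not_compl fl).elim
  · exact e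

/-- translation type -/
theorem one3_trans (hb : Bx W) (hQ : Q ∈ OO (cl W)) (hd : d ∈ OO (cl W)) (hD : Two (cl W) d D)
    (h₀ : One3St W Q D V₀ Y₀ Y₁) (h₁ : One3St W Q D V₁ Y₁ Y₂) (e : V₁.s Y₁ = (V₀.s Y₁)ᶜ)
    (k : tl (cl W) g • V₀ = V₁) (f₀ : tl (cl W) g • Y₀ = Y₁) (f₁ : tl (cl W) g • Y₁ = Y₂) :
    ∀ Y' ∈ orb (cl W) Q, Crs (cl W) Y' d → ∃ u ∈ d, Y' = tl (cl W) u • Y₀ := by
  have hN := fam_uq hb hQ
  have axd : Ax d := hd.1.1.1
  by_cases hg : g ∈ d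
  · have i : g • V₀.s Y₀ = (V₀.s Y₁)ᶜ := by
      rw [← e, ← k, ← f₀, ori_smul', tl_set]
    obtain ⟨n, -, -, -, ch⟩ := wall_chain hb hN h₀.isV h₀.a h₀.a' h₀.ne
      (one3_two hb hQ h₀.isV h₀.m) f₀ i
    have g1 : g ≠ 1 := fun e => n (e ▸ one_mem _)
    intro Y' hY' c
    rw [← axd.eq_cen hg g1] at c
    obtain ⟨n, e⟩ := ch Y' (.inr hY') c
    exact ⟨g ^ n, zpow_mem hg n, e⟩
  exfalso
  obtain ⟨x₀, n₀, g₀, a₀, b₀⟩ := one3_gen (one3_oo hQ h₀.m).1.1.1 h₀.s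
  obtain ⟨x₁, n₁, g₁, a₁, b₁⟩ := one3_gen (one3_oo hQ h₁.m).1.1.1 h₁.s
  obtain ⟨x₂, n₂, g₂, a₂, b₂⟩ := one3_gen (one3_oo hQ h₁.m').1.1.1 h₁.s'
  have c₀ := one3_flip hb hQ hd hD h₀ f₀ n₀ g₀ a₀ n₁ g₁ a₁
  have c₁ := one3_flip hb hQ hd hD h₁ f₁ n₁ g₁ a₁ n₂ g₂ a₂
  have c₀' : g * x₀⁻¹ * g⁻¹ = x₁ := by rw [← inv_inv x₁, ← c₀]; group
  have c₂ : g * g * x₀ * (g * g)⁻¹ = x₂ := by
    rw [← inv_inv x₂, ← c₁, ← c₀']; simp only [mul_inv_rev, inv_inv, mul_assoc]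
  have c₂' : g * g * x₀⁻¹ * (g * g)⁻¹ = x₂⁻¹ := by
    rw [← c₂]; simp only [mul_inv_rev, inv_inv, mul_assoc]
  have p : Ev (g • D) x₁⁻¹ := c₀ ▸ a₀.smul' g
  have p' : Ev (g • D)ᶜ x₁ := by rw [← smul_compl', ← c₀']; exact b₀.smul' g
  have q : Ev ((g * g) • D) x₂ := c₂ ▸ a₀.smul' (g * g)
  have q' : Ev ((g * g) • D)ᶜ x₂⁻¹ := by rw [← smul_compl', ← c₂']; exact b₀.smul' (g * g)
  have T := One3T.self D
  have cmp := (T.smul (g * g)).cmp hb hd.1 hD T q a₂ q' b₂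
  rcases T.cmp hb hd.1 hD (T.smul g).compl a₁ p' b₁ (by rwa [compl_compl]) with s | s
  · exact not_alt hb axd hD.1 hD.2.1 hg (Set.subset_compl_iff_disjoint_right.1 s) cmp
  · refine not_alt hb axd hD.compl.1 hD.2.2.1 hg ?_ ?_
    · rw [smul_compl']
      exact Set.disjoint_left.2 fun u hu hu' => hu (s hu')
    · rw [smul_compl', Set.compl_subset_compl, Set.compl_subset_compl]
      exact cmp.symm

/-- reflection type -/
theorem one3_refl (hb : Bx W) (hQ : Q ∈ OO (cl W)) (hd : d ∈ OO (cl W)) (hD : Two (cl W) d D)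
    (h₀ : One3St W Q D V₀ Y₀ Y₁) (h₁ : One3St W Q D V₁ Y₁ Y₂) (e : V₁.s Y₁ = (V₀.s Y₁)ᶜ)
    (k : tl (cl W) g • V₀ = V₁) (f₀ : tl (cl W) g • Y₀ = Y₂) (f₁ : tl (cl W) g • Y₁ = Y₁)
    (gx : zpowers x = Y₁) (a : Ev D x) (b : Ev Dᶜ x⁻¹) :
    ∃ j : ℤ, ∀ R, x • x ^ j • D ⊆ R → R ⊆ x ^ j • D → Sep R Y₀ := by
  have ax₀ : Ax Y₀ := (one3_oo hQ h₀.m).1.1.1
  have ax₁ : Ax Y₁ := (one3_oo hQ h₁.m).1.1.1
  have hg : g ∈ zpowers x := gx ▸ ax₁.norm.1 f₁
  obtain ⟨m, rfl⟩ := hg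
  simp only at k f₀ f₁
  have m0 : m ≠ 0 := by
    rintro rfl
    rw [zpow_zero, map_one, one_smul] at k
    rw [k] at e
    by_cases u : (1 : FreeGroup X) ∈ V₁.s Y₁
    · have u' := u
      rw [e] at u'
      exact u' u
    · have u' := u
      rw [e] at u'
      exact u' u
  obtain ⟨x₀, n₀, g₀, a₀, b₀⟩ := one3_gen ax₀ h₀.s
  have m₀ : x₀ ∈ Y₀ := g₀ ▸ mem_zpowers x₀
  have T := One3T.self D
  have dec := T.dec hb hd.1 hD a b
  have s : Sep (x ^ (-m) • D) Y₀ := by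
    have := one3_sep_smul (W := W) h₁.s' (x ^ (-m))
    rwa [← f₀, ← mul_smul, ← map_mul, ← zpow_add, neg_add_cancel, zpow_zero, map_one,
      one_smul] at this
  have D0 : x ^ (0 : ℤ) • D = D := by rw [zpow_zero, one_smul]
  have xx : ∀ j : ℤ, x • x ^ j • D = x ^ (j + 1) • D := fun j => by
    rw [← mul_smul, add_comm, zpow_add, zpow_one]
  rcases lt_or_gt_of_ne m0 with hm | hm
  · have sub : x ^ (-m) • D ⊆ D := by
      have := one3_anti dec (show (0 : ℤ) ≤ -m by omega)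
      rwa [D0] at this
    rcases s.ev ax₀ m₀ n₀ with ⟨p, -⟩ | ⟨-, p⟩
    · refine ⟨0, fun R r₁ r₂ => ⟨x₀, m₀, n₀, p.mono ?_, b₀.mono ?_⟩⟩
      · rw [xx] at r₁
        exact (one3_anti dec (by omega)).trans r₁
      · rw [D0] at r₂
        exact Set.compl_subset_compl.2 r₂
    · exact ((p.mono sub).not_compl b₀).elim
  · have sub : D ⊆ x ^ (-m) • D := by
      have := one3_anti dec (show -m ≤ (0 : ℤ) by omega)
      rwa [D0] at this
    rcases s.ev ax₀ m₀ n₀ with ⟨-, p⟩ | ⟨p, -⟩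
    · refine ⟨-1, fun R r₁ r₂ => ⟨x₀, m₀, n₀, a₀.mono ?_, p.mono ?_⟩⟩
      · rwa [xx, neg_add_cancel, D0] at r₁
      · exact Set.compl_subset_compl.2 (r₂.trans (one3_anti dec (by omega)))
    · exact ((a₀.mono sub).not_compl p).elim

/-- the final contradiction -/
theorem one3_final (hb : Bx W) (hQ : Q ∈ OO (cl W)) (hd : d ∈ OO (cl W)) (hD : Two (cl W) d D)
    (h₀ : One3St W Q D V₀ Y₀ Y₁) (nx : x ≠ 1) (gx : zpowers x = Y₁) (tA : One3T D A) (a : Ev A x)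
    (a' : Ev Aᶜ x⁻¹) (I : ∀ R, x • A ⊆ R → R ⊆ A → Sep R Y₀) {h : FreeGroup X}
    (hh : h ∈ GV (cl W) V₀) (f : tl (cl W) h • Y₀ = Y₁) (tB : One3T D B) (b : Ev B x)
    (b' : Ev Bᶜ x⁻¹) (s : Sep B (tl (cl W) h • Y₁)) (s' : Sep (x • B) (tl (cl W) h • Y₁)) :
    False := by
  have hN := fam_uq hb hQ
  have ax₀ : Ax Y₀ := (one3_oo hQ h₀.m).1.1.1
  have o₁ := one3_oo hQ h₀.m'
  have ax₁ : Ax Y₁ := o₁.1.1.1
  have mx : x ∈ Y₁ := gx ▸ mem_zpowers x
  have sw := (oo_oneS hb o₁).gen (one3_two hb hQ h₀.isV h₀.m') gx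
  have x2 : x ^ (2 : ℤ) ∈ GV (cl W) V₀ := by
    rw [mem_GV_adj hb hN h₀.isV h₀.a' (zpow_mem mx 2), zpow_two, mul_smul, sw, smul_compl', sw,
      compl_compl]
  have key : ∀ (i : ℤ) (B : Set (FreeGroup X)), One3T D B → Ev B x → Ev Bᶜ x⁻¹ →
      Sep B (tl (cl W) h • Y₁) → x ^ (2 * i + 1) • A ⊆ B → B ⊆ x ^ (2 * i) • A → False := by
    intro i B tB b b' s r₁ r₂
    have hu : x ^ (-(2 * i)) ∈ GV (cl W) V₀ := by
      rw [show -(2 * i) = 2 * (-i) by ring, zpow_mul]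
      exact zpow_mem x2 _
    have s₀ : Sep (x ^ (-(2 * i)) • B) Y₀ := by
      refine I _ ?_ ?_
      · have := Set.smul_set_mono (a := x ^ (-(2 * i))) r₁
        rwa [← mul_smul, ← zpow_add, neg_add_cancel_left, zpow_one] at this
      · have := Set.smul_set_mono (a := x ^ (-(2 * i))) r₂
        rwa [← mul_smul, ← zpow_add, neg_add_cancel, zpow_zero, one_smul] at this
    have s₁ : Sep (x ^ (-(2 * i)) • B) Y₁ :=
      ⟨x, mx, nx, one3_ev_zpow b _, one3_ev_zpow' b' _⟩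
    have s₂ := one3_sep_smul (W := W) s (x ^ (-(2 * i)))
    rw [← mul_smul, ← map_mul] at s₂
    set h' := x ^ (-(2 * i)) * h with hh'
    have m' : h' ∈ GV (cl W) V₀ := mul_mem hu hh
    have f' : tl (cl W) h' • Y₀ = Y₁ := by
      rw [hh', map_mul, mul_smul, f, ax₁.norm.2 (zpow_mem mx _)]
    have a₂ : Adj V₀ (tl (cl W) h' • Y₁) := by
      have := h₀.a'.smul (tl (cl W) h')
      rwa [mem_GV.1 m'] at this
    obtain ⟨d', axd', two'⟩ := (tB.smul (x ^ (-(2 * i)))).two hd.1.1.1 hD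
    obtain ⟨Y', -, -, -, two⟩ := arc_two hb hN h₀.isV axd' two' h₀.a s₀
    have y' : Y₁ = Y' := (two Y₁ h₀.a' s₁).resolve_left h₀.ne.symm
    subst y'
    have f'' : tl (cl W) h' • Y₁ = Y₀ := by
      refine (two _ a₂ s₂).resolve_right fun e => h₀.ne ?_
      exact smul_left_cancel (tl (cl W) h') (f'.trans e.symm)
    have q₀ : h' * h' ∈ Y₀ := (ax₀.norm (H := cl W)).1 (by rw [map_mul, mul_smul, f', f''])
    have q₁ : h' * h' ∈ Y₁ := (ax₁.norm (H := cl W)).1 (by rw [map_mul, mul_smul, f'', f'])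
    have q : h' * h' = 1 := by
      by_contra q
      exact h₀.ne (ax₀.inter ax₁ q₀ q₁ q)
    have : h' = 1 := zpow_eq_one (n := 2) (by norm_num) (by rw [zpow_two, q])
    rw [this, map_one, one_smul] at f'
    exact h₀.ne f'
  obtain ⟨j, r₁, r₂⟩ := tA.loc hb hd.1 hD tB nx a a' b b'
  rcases Int.even_or_odd' j with ⟨i, rfl | rfl⟩
  · exact key i B tB b b' s r₁ r₂
  · have c := one3_ev_zpow b 1
    have c' := one3_ev_zpow' b' 1
    rw [zpow_one] at c c'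
    refine key (i + 1) (x • B) (tB.smul x) c c' s' ?_ ?_
    · have := Set.smul_set_mono (a := x) r₁
      rwa [← mul_smul, ← zpow_one_add, show 1 + (2 * i + 1 + 1) = 2 * (i + 1) + 1 by ring] at this
    · have := Set.smul_set_mono (a := x) r₂
      rwa [← mul_smul, ← zpow_one_add, show 1 + (2 * i + 1) = 2 * (i + 1) by ring] at this

theorem one_cross (hb : Bx W) (hQ : Q ∈ OO (cl W)) (hd : d ∈ OO (cl W)) (hY : Y ∈ orb (cl W) Q)
    (hZ : Z ∈ orb (cl W) Q) (c : Crs (cl W) Y d) (c' : Crs (cl W) Z d) :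
    ∃ v ∈ d, Z = tl (cl W) v • Y := by
  have hN := fam_uq hb hQ
  have oY := one3_oo hQ hY
  obtain ⟨D, hD, s⟩ := crs_two hb oY.1.1.1 hd.1.1 c
  obtain ⟨U, hU, -⟩ := oo_oneS hb oY
  obtain ⟨V₀, Y₁, h₀, -⟩ := one3_next hb hQ hd hD hY s hU
  obtain ⟨V₁, Y₂, h₁, e₁⟩ := one3_next hb hQ hd hD h₀.m' h₀.s'
    (one3_two hb hQ h₀.isV h₀.m').compl
  obtain ⟨V₂, Y₃, h₂, e₂⟩ := one3_next hb hQ hd hD h₁.m' h₁.s'
    (one3_two hb hQ h₁.isV h₁.m').compl
  obtain ⟨g₁, k₁, ⟨p₁, q₁⟩ | ⟨p₁, q₁⟩⟩ := one3_g hb hQ hd hD h₀ h₁ e₁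
  · exact one3_trans hb hQ hd hD h₀ h₁ e₁ k₁ p₁ q₁ Z hZ c'
  obtain ⟨g₂, k₂, ⟨p₂, q₂⟩ | ⟨p₂, q₂⟩⟩ := one3_g hb hQ hd hD h₁ h₂ e₂
  · obtain ⟨u, hu, e⟩ := one3_trans hb hQ hd hD h₁ h₂ e₂ k₂ p₂ q₂ Y hY c
    obtain ⟨u', hu', e'⟩ := one3_trans hb hQ hd hD h₁ h₂ e₂ k₂ p₂ q₂ Z hZ c'
    refine ⟨u' * u⁻¹, mul_mem hu' (inv_mem hu), ?_⟩
    rw [e, e', ← mul_smul, ← map_mul, inv_mul_cancel_right]
  exfalso
  have ax₁ : Ax Y₁ := (one3_oo hQ h₁.m).1.1.1
  obtain ⟨x₁, n₁, G₁, a₁, b₁⟩ := one3_gen ax₁ h₁.s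
  obtain ⟨x₂, n₂, G₂, a₂, b₂⟩ := one3_gen (one3_oo hQ h₂.m).1.1.1 h₂.s
  obtain ⟨j₁, I₁⟩ := one3_refl hb hQ hd hD h₀ h₁ e₁ k₁ p₁ q₁ G₁ a₁ b₁
  obtain ⟨j₂, I₂⟩ := one3_refl hb hQ hd hD h₁ h₂ e₂ k₂ p₂ q₂ G₂ a₂ b₂
  obtain ⟨h, hh, f⟩ := adj_orb hb hN h₀.isV h₀.a h₀.a' (oo_oneS hb oY)
    (by rw [orb_eq hY]; exact h₀.m')
  have T := One3T.self D
  have dec := (T.smul (x₂ ^ j₂)).dec hb hd.1 hD (one3_ev_zpow a₂ _) (one3_ev_zpow' b₂ _)
  have t₂ : tl (cl W) (h * g₁⁻¹) • Y₂ = Y₁ := by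
    rw [← p₁, ← mul_smul, ← map_mul, inv_mul_cancel_right, ← f]
  have t₁ : tl (cl W) (h * g₁⁻¹) • Y₁ = tl (cl W) h • Y₁ := by
    conv_lhs => rw [← q₁, ← mul_smul, ← map_mul, inv_mul_cancel_right]
  set t := h * g₁⁻¹ with ht
  set P := x₂ ^ j₂ • D with hP
  have sP := one3_sep_smul (W := W) (I₂ P dec subset_rfl) t
  have sP' := one3_sep_smul (W := W) (I₂ (x₂ • P) subset_rfl dec) t
  rw [t₁] at sP sP'
  have tP : One3T D (t • P) := (T.smul _).smul t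
  have eP : Ev (t • P) (t * x₂ * t⁻¹) := (one3_ev_zpow a₂ j₂).smul' t
  have eP' : Ev (t • P)ᶜ (t * x₂ * t⁻¹)⁻¹ := by
    rw [← smul_compl', show (t * x₂ * t⁻¹)⁻¹ = t * x₂⁻¹ * t⁻¹ by group]
    exact (one3_ev_zpow' b₂ j₂).smul' t
  have conj : t • x₂ • P = (t * x₂ * t⁻¹) • t • P := by
    simp only [mul_smul, inv_smul_smul]
  rw [conj] at sP'
  have fin := one3_final hb hQ hd hD h₀ n₁ G₁ (T.smul (x₁ ^ j₁)) (one3_ev_zpow a₁ _)
    (one3_ev_zpow' b₁ _) I₁ hh f.symm (B := if t * x₂ * t⁻¹ = x₁ then t • P else (x₁⁻¹ • t • P)ᶜ)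
  have gz : zpowers x₁ = zpowers (t * x₂ * t⁻¹) := by rw [one3_conj_gen (cl W), G₂, t₂, G₁]
  rcases gen_eq n₁ gz with e | e
  · rw [if_pos e] at fin
    rw [e] at eP eP' sP'
    exact fin tP eP eP' sP sP'
  · have ne : t * x₂ * t⁻¹ ≠ x₁ := fun e' => by
      rw [e'] at eP eP' e
      rw [← e] at b₁
      exact a₁.not_compl b₁
    rw [if_neg ne] at fin
    rw [e] at eP eP' sP'
    rw [inv_inv] at eP'
    refine fin (tP.smul _).compl ?_ ?_ sP'.compl ?_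
    · rw [← smul_compl']
      exact eP'.smul_comm (Commute.refl x₁).inv_left
    · rw [compl_compl]
      exact eP.smul_comm (Commute.refl x₁⁻¹)
    · rw [smul_compl', smul_inv_smul]
      exact sP.compl

end Pool.Agent.Work.MP_3bdf32_al
end
end

-- merged part: Pool.Agent.Work.MP_3bdf32_al.Rig2
section
-- merged part: Pool.Agent.Work.MP_3bdf32_al.Surg1
section
/-! Surgery along an edge: the periodic cut. -/

namespace Pool.Agent.Work.MP_3bdf32_al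

set_option linter.unusedSectionVars false
set_option linter.unusedVariables false

open Subgroup MulAction Filter
open scoped Pointwise

variable {X : Type} [Fintype X] [DecidableEq X] {W : List (FreeGroup X)}
  {Γ : Subgroup (FreeGroup X)} {P A : Set (FreeGroup X)} {a : ℤ → FreeGroup X} {z : FreeGroup X}
  {i j m p q : ℤ} {b : Bool}

/-- the colour of the `n`-th slab -/
def Surg1bb (b : Bool) (n : ℤ) : Bool := if Even n then true else b

theorem Surg1bb_succ (b : Bool) (n : ℤ) : Surg1bb b (n + 1) = (Surg1bb b n == b) := by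
  unfold Surg1bb
  by_cases h : Even n
  · rw [if_pos h, if_neg (by rw [Int.even_add_one]; exact not_not.2 h)]
    cases b <;> rfl
  · rw [if_neg h, if_pos (by rw [Int.even_add_one]; exact h)]
    cases b <;> rfl

theorem Surg1bb_succ' (b : Bool) (n : ℤ) : Surg1bb b n = (b == Surg1bb b (n + 1)) := by
  rw [Surg1bb_succ]
  cases b <;> cases Surg1bb _ n <;> rfl

theorem Surg1_sg_iff {G : Type} {x y : G} {S T : Set G} (c : Bool) (h : x ∈ S ↔ y ∈ T) :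
    x ∈ sg c S ↔ y ∈ sg c T := by
  cases c
  · exact not_congr h
  · exact h

theorem Surg1_slab {m : ℤ} (hm : 0 < m) (i t : ℤ) : ∃ n : ℤ, i < t - n * m ∧ t - n * m ≤ i + m := by
  refine ⟨(t - i - 1) / m, ?_, ?_⟩
  · have := Int.emod_nonneg (t - i - 1) hm.ne'
    have := Int.emod_add_mul_ediv (t - i - 1) m
    nlinarith
  · have := Int.emod_lt_of_pos (t - i - 1) hm
    have := Int.emod_add_mul_ediv (t - i - 1) m
    nlinarith

theorem Surg1_slab_le {m i t t' n n' : ℤ} (hm : 0 < m) (h : i < t - n * m) (h' : t' - n' * m ≤ i + m)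
    (e : t ≤ t') : n ≤ n' := by
  by_contra c
  have : n' + 1 ≤ n := by omega
  nlinarith

/-- a segment meeting both sides of the window does not leave `P` -/
theorem Surg1_stay
    (wf : ∀ t ∈ lv W P, (t.1 ∉ hl a p ∧ t.2 ∉ hl a p) ∨ (t.1 ∈ hl a q ∧ t.2 ∈ hl a q))
    {x y : FreeGroup X} (s : Sg W x y) (hx : x ∉ hl a q) (hy : y ∈ hl a p) : x ∈ P ↔ y ∈ P := by
  constructor
  · intro u
    by_contra v
    rcases wf (x, y) ⟨s, u, v⟩ with ⟨-, c⟩ | ⟨c, -⟩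
    exacts [c hy, hx c]
  · intro u
    by_contra v
    rcases wf (y, x) ⟨s.symm, u, v⟩ with ⟨c, -⟩ | ⟨-, c⟩
    exacts [c hy, hx c]

theorem Surg1_db_zpow (e : z • A = sg b A) (s : FreeGroup X) (n : ℤ) {x : FreeGroup X}
    (hx : x ∈ db A s) : z ^ n * x ∈ db A s := by
  have key : z • db A s = db A s := by
    rw [← db_smul, e]
    cases b
    · exact db_compl A s
    · rfl
  have : z ^ n • db A s = db A s :=
    (stabilizer (FreeGroup X) (db A s)).zpow_mem (mem_stabilizer_iff.2 key) n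
  rw [← this]
  exact mul_mem_smul.2 hx

theorem surg_cut (h : AxL z a m)
    (wf : ∀ t ∈ lv W P, (t.1 ∉ hl a i ∧ t.2 ∉ hl a i) ∨ (t.1 ∈ hl a (i + m) ∧ t.2 ∈ hl a (i + m)))
    (mono : ∀ U, HT U → U ⊆ hl a i \ hl a (i + m) → Mono U P)
    (agr : Agr W (hl a (i + m)) P (z • sg b P)) :
    ∃ A, Cut (cl W) (cen z) A ∧ z • A = sg b A ∧ ∀ x ∈ hl a i \ hl a (i + m), (x ∈ A ↔ x ∈ P) := by
  classical
  have L := h.1
  have hm := h.2.1
  choose N N1 N2 using fun x => Surg1_slab hm i (pr a x)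
  have Nu : ∀ x n, i < pr a x - n * m → pr a x - n * m ≤ i + m → N x = n := fun x n u v =>
    le_antisymm (Surg1_slab_le hm (N1 x) v le_rfl) (Surg1_slab_le hm u (N2 x) le_rfl)
  have prz : ∀ (n : ℤ) x, pr a (z ^ (-n) * x) = pr a x - n * m := fun n x => by
    rw [h.pr_zpow]; ring
  let A : Set (FreeGroup X) := {x | z ^ (-N x) * x ∈ sg (Surg1bb b (N x)) P}
  have hA : ∀ x, x ∈ A ↔ z ^ (-N x) * x ∈ sg (Surg1bb b (N x)) P := fun _ => Iff.rfl
  have f : ∀ x ∈ hl a i \ hl a (i + m), (x ∈ A ↔ x ∈ P) := by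
    rintro x ⟨u, v⟩
    rw [L.mem_hl] at u v
    have : N x = 0 := Nu x 0 (by simpa using u) (by simpa using v)
    rw [hA, this]
    simp [Surg1bb]
  have e : z • A = sg b A := by
    ext x
    have p1 : pr a (z⁻¹ * x) = pr a x - m := by simpa using prz 1 x
    have : N (z⁻¹ * x) = N x - 1 := by
      refine Nu _ _ ?_ ?_ <;> rw [p1]
      · have := N1 x; linarith
      · have := N2 x; linarith
    rw [mem_smul', hA, this, Surg1bb_succ' b (N x - 1), sub_add_cancel, ← sg_sg, ← mul_assoc,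
      show z ^ (-(N x - 1)) * z⁻¹ = z ^ (-N x) by group]
    exact Surg1_sg_iff b (hA x).symm
  have sat : ∀ x y, Sg W x y → N x ≤ N y → (x ∈ A ↔ y ∈ A) := by
    intro x y s le
    have lo : ∀ r, N x ≤ r → z ^ (-r) * x ∉ hl a (i + m) := fun r u => by
      rw [L.mem_hl, prz]
      have := N2 x
      nlinarith
    have hi : ∀ r, r ≤ N y → ∀ c, i + c * m < pr a (z ^ (-(r - c)) * y) := fun r u c => by
      rw [prz]
      have := N1 y
      nlinarith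
    have step : ∀ r, N x ≤ r → r ≤ N y →
        (x ∈ A ↔ z ^ (-r) * x ∈ sg (Surg1bb b r) P) := by
      intro r u
      induction r, u using Int.leInduction with
      | base => exact fun _ => hA x
      | succ r u ih =>
        intro v
        rw [ih (by omega), Surg1bb_succ, ← sg_sg]
        refine Surg1_sg_iff _ ?_
        have w : z ^ (-r) * y ∈ hl a (i + m) := by
          rw [L.mem_hl]
          simpa using hi (r + 1) v 1
        rw [(agr (z ^ (-r) * y, z ^ (-r) * x) ⟨s.symm.mul _, w, lo r u⟩).2, mem_smul', ← mul_assoc,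
          show z⁻¹ * z ^ (-r) = z ^ (-(r + 1)) by group]
    rw [step _ le le_rfl, hA]
    refine Surg1_sg_iff _ (Surg1_stay wf (s.mul _) (lo _ le) ?_)
    rw [L.mem_hl]
    simpa using hi _ le_rfl 0
  refine ⟨A, ⟨sat_iff.2 fun x y s => ?_, fun s => ?_⟩, e, f⟩
  · rcases le_total (N x) (N y) with c | c
    exacts [sat x y s c, (sat y x s.symm c).symm]
  · refine ⟨(ball_fin (a i) (m + s.norm)).toFinset, fun x hx => ⟨z ^ N x, ?_, z ^ (-N x) * x, ?_, ?_⟩⟩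
    · exact (cen z).zpow_mem (self_mem_cen z) _
    · have d := Surg1_db_zpow e s (-N x) hx
      have u : i < pr a (z ^ (-N x) * x) := by rw [prz]; exact N1 x
      have v : pr a (z ^ (-N x) * x) ≤ i + m := by rw [prz]; exact N2 x
      generalize z ^ (-N x) * x = y at d u v
      rw [Set.Finite.mem_toFinset, Set.mem_ofPred_eq, cd_comm, L.cd_pr]
      by_contra c
      have c1 : (s.norm : ℤ) < cd y (a (pr a y)) := by
        have : |i - pr a y| ≤ m := abs_le.2 ⟨by linarith, by linarith⟩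
        linarith
      obtain ⟨t, t1, t2, t3⟩ := L.ex_hang (y := y) fun j r => by
        rw [r, L.pr_self, cd_self] at c1
        omega
      have t4 : y * s ∈ hs (a (pr a y)) t := hs_deep t1 t2 (by rwa [cd_mul])
      have hU : HT (hs (a (pr a y)) t) := ⟨_, _, t1, rfl⟩
      obtain ⟨r, hr⟩ := L.hang hU t3
      have sub : hs (a (pr a y)) t ⊆ hl a i \ hl a (i + m) := fun w hw => by
        rw [Set.mem_sdiff, L.mem_hl, L.mem_hl, hr w hw, ← hr y t2]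
        exact ⟨u, not_lt.2 v⟩
      exact d (by rw [f _ (sub t2), f _ (sub t4)]; exact (mono _ hU sub).iff t2 t4)
    · group

theorem Win.sub (h : Win W Γ P a p q) (e : p ≤ i) (f : j ≤ q) (hij : i ≤ j) : Win W Γ P a i j := by
  have s1 : hl a i ⊆ hl a p := h.line.hl_anti.2 e
  have s2 : hl a q ⊆ hl a j := h.line.hl_anti.2 f
  refine ⟨h.line, fun r u v => h.spl r (e.trans u) (v.trans f), fun t ht => ?_,
    fun r u v => h.tr r (e.trans u) (v.trans f),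
    fun U hU s => h.mono U hU (s.trans (Set.sdiff_subset_sdiff s1 s2)), h.nest, h.free⟩
  rcases h.wf t ht with ⟨u, v⟩ | ⟨u, v⟩
  · exact .inl ⟨fun c => u (s1 c), fun c => v (s1 c)⟩
  · exact .inr ⟨s2 u, s2 v⟩

theorem Win.congr {a' : ℤ → FreeGroup X} (h : Win W Γ P a p q) (l : Line a') (hpq : p ≤ q)
    (e : ∀ r, p ≤ r → r ≤ q + 1 → a' r = a r) : Win W Γ P a' p q := by
  have k : ∀ r, p ≤ r → r ≤ q → hl a' r = hl a r := fun r u v => by
    unfold hl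
    rw [e r u (by omega), e (r + 1) (by omega) (by omega)]
  refine ⟨l, fun r u v => ?_, ?_, fun r u v => ?_, ?_, h.nest, h.free⟩
  · rw [k r u v]; exact h.spl r u v
  · rw [k p le_rfl hpq, k q hpq le_rfl]; exact h.wf
  · rw [k r u v]; exact h.tr r u v
  · rw [k p le_rfl hpq, k q hpq le_rfl]; exact h.mono

theorem Surg1_spl_compl {U : Set (FreeGroup X)} (h : Spl Γ P U) : Spl Γ Pᶜ U := by
  obtain ⟨g, hg, g', hg', n, n', u, v⟩ := h
  exact ⟨g', hg', g, hg, n', n, v, by rwa [compl_compl]⟩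

theorem Win.compl (h : Win W Γ P a p q) : Win W Γ Pᶜ a p q := by
  refine ⟨h.line, fun r u v => ⟨Surg1_spl_compl (h.spl r u v).1, Surg1_spl_compl (h.spl r u v).2⟩,
    fun t ht => ?_, fun r u v => ?_, fun U hU s => (h.mono U hU s).compl, fun k hk => ?_,
    fun k hk n => ?_⟩
  · exact (h.wf (t.2, t.1) ⟨ht.1.symm, not_not.1 ht.2.2, ht.2.1⟩).imp And.symm And.symm
  · obtain ⟨c, t, d, e⟩ := (h.tr r u v).symm
    exact ⟨c, t, d, not_not.2 e⟩
  · rw [smul_compl']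
    exact (h.nest k hk).compl_left.compl_right
  · rw [smul_compl']
    exact ⟨fun c => (h.free k hk n).1 (compl_injective c),
      fun c => (h.free k hk n).2 (compl_injective c)⟩

theorem Surg1_spl_smul {U : Set (FreeGroup X)} (h : Spl Γ P U) {k : FreeGroup X} (e : k ∈ Γ) :
    Spl Γ (k • P) (k • U) := by
  obtain ⟨g, hg, g', hg', n, n', u, v⟩ := h
  refine ⟨k * g * k⁻¹, Γ.mul_mem (Γ.mul_mem e hg) (Γ.inv_mem e), k * g' * k⁻¹,
    Γ.mul_mem (Γ.mul_mem e hg') (Γ.inv_mem e), by simpa using n, by simpa using n', ?_, ?_⟩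
  · rw [← Set.smul_set_inter]; exact u.smul' k
  · rw [← smul_compl', ← Set.smul_set_inter]; exact v.smul' k

theorem Win.smul (h : Win W Γ P a p q) {k : FreeGroup X} (e : k ∈ Γ) :
    Win W Γ (k • P) (fun i => k * a i) p q := by
  have cj : ∀ k' ∈ Γ, k⁻¹ * k' * k ∈ Γ := fun k' u => Γ.mul_mem (Γ.mul_mem (Γ.inv_mem e) u) e
  have sm : ∀ k' : FreeGroup X, k' • k • P = k • (k⁻¹ * k' * k) • P := fun k' => by
    rw [← mul_smul, ← mul_smul]; congr 1; group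
  refine ⟨h.line.smul k, fun r u v => ?_, fun t ht => ?_, fun r u v => ?_, fun U hU s => ?_,
    fun k' hk => ?_, fun k' hk n => ?_⟩
  · rw [← hl_smul, ← smul_compl']
    exact ⟨Surg1_spl_smul (h.spl r u v).1 e, Surg1_spl_smul (h.spl r u v).2 e⟩
  · rw [← hl_smul, ← hl_smul]
    simp only [mem_smul']
    exact h.wf (k⁻¹ * t.1, k⁻¹ * t.2) ⟨ht.1.mul _, mem_smul'.1 ht.2.1, fun c => ht.2.2 (mem_smul'.2 c)⟩
  · rw [← hl_smul]
    obtain ⟨⟨t, c, d⟩, t', c', d'⟩ := h.tr r u v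
    exact ⟨⟨_, (lv_smul W k).2 c, mul_mem_smul.2 d⟩, _, (lv_smul W k).2 c',
      fun o => d' (mul_mem_smul.1 o)⟩
  · rw [← hl_smul, ← hl_smul] at s
    have := (h.mono (k⁻¹ • U) (hU.smul _) fun x hx => by
      have := s (mem_smul'.1 hx)
      simpa only [Set.mem_sdiff, inv_inv, mul_mem_smul] using this).smul' k
    rwa [smul_inv_smul] at this
  · rw [sm]; exact (h.nest _ (cj k' hk)).smul' k
  · have := h.free _ (cj k' hk) (fun c => n (by
      rw [show k' = k * (k⁻¹ * k' * k) * k⁻¹ by group, c]; group))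
    rw [sm, ← smul_compl']
    exact ⟨fun c => this.1 (smul_left_cancel k c), fun c => this.2 (smul_left_cancel k c)⟩

/-- segments of both colours cross every edge of a window -/
theorem Win.seg (h : Win W Γ P a p q) (e : p ≤ i) (f : i ≤ q) (c : Bool) :
    ∃ t ∈ lv W (hl a i), t.1 ∈ sg c P ∧ t.2 ∈ sg c P := by
  have : ∃ t ∈ lv W (hl a i), t.1 ∈ sg c P := by
    cases c
    exacts [(h.tr i e f).2, (h.tr i e f).1]
  obtain ⟨t, u, v⟩ := this
  refine ⟨t, u, v, (Surg1_sg_iff c (Surg1_stay h.wf u.1.symm ?_ ?_)).2 v⟩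
  · exact fun o => u.2.2 (h.line.hl_anti.2 f o)
  · exact h.line.hl_anti.2 e u.2.1

/-- a translate agreeing on the segments through an edge of the window is comparable -/
theorem Win.cmp (h : Win W Γ P a p q) (e : p ≤ i) (f : i ≤ q) {k : FreeGroup X} (hk : k ∈ Γ)
    (agr : Agr W (hl a i) P (k • sg b P)) : P ⊆ k • sg b P ∨ k • sg b P ⊆ P := by
  have n : Nest P (k • sg b P) := by
    cases b
    · rw [sg_false, smul_compl']; exact (h.nest k hk).compl_right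
    · exact h.nest k hk
  obtain ⟨t, u, v, -⟩ := h.seg e f true
  obtain ⟨t', u', v', -⟩ := h.seg e f false
  exact n.sub ⟨t.1, v, (agr t u).1.1 v⟩ ⟨t'.1, v', fun o => v' ((agr t' u').1.2 o)⟩

theorem Surg1_ends (h : AxL z a m) (w : Win W Γ P a i (i + m)) (e : z • A = A)
    (f : ∀ x ∈ hl a i \ hl a (i + m), (x ∈ A ↔ x ∈ P)) (s : z • P ⊆ P) :
    (∃ g ∈ Γ, ¬ Commute g z ∧ Ev A g) ∧ ∃ g ∈ Γ, ¬ Commute g z ∧ Ev Aᶜ g := by
  have L := h.1
  have hm := h.2.1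
  have him : i ≤ i + m := by omega
  have inv : ∀ (n : ℤ) x, z ^ n * x ∈ A ↔ x ∈ A := fun n x => by
    have : z ^ n • A = A := (stabilizer (FreeGroup X) A).zpow_mem (mem_stabilizer_iff.2 e) n
    conv_lhs => rw [← this]
    exact mul_mem_smul
  have up : ∀ n : ℤ, 0 ≤ n → ∀ x ∈ P, z ^ n * x ∈ P := fun n hn x hx => by
    lift n to ℕ using hn
    rw [zpow_natCast]
    exact pow_mem_of_sub s hx n
  have fd : ∀ (n : ℤ) x, i < pr a x - n * m → pr a x - n * m ≤ i + m →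
      (x ∈ A ↔ z ^ (-n) * x ∈ P) := fun n x u v => by
    have : pr a (z ^ (-n) * x) = pr a x - n * m := by rw [h.pr_zpow]; ring
    rw [← inv (-n), f _ ⟨by rwa [L.mem_hl, this], by rw [L.mem_hl, this]; exact not_lt.2 v⟩]
  have ends : ∀ g, g ≠ 1 → Commute g z → (∀ B, Ev B g → Ev B z) ∨ ∀ B, Ev B g → Ev B z⁻¹ :=
    fun g n c => ((ax_cen h.ne).ends (mem_cen.2 c) (self_mem_cen z) n h.ne).imp
      (fun o B => (o.1 B).1) fun o B => (o.1 B).1
  obtain ⟨g, hg, g₀, -, n, -, u, u₀⟩ := (w.spl i le_rfl him).2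
  obtain ⟨g₁, -, g', hg', -, n', v₁, v⟩ := (w.spl (i + m) him le_rfl).1
  constructor
  · have c : ¬ Commute g z := fun c => by
      rcases ends g n c with o | o
      · exact (h.ev i).not_compl ((o _ u).mono Set.inter_subset_left)
      · have : Pᶜ = ∅ := Ev.empty_of_sub (g := z⁻¹)
          (by rw [compl_compl]; exact (o _ u).mono Set.inter_subset_right) fun x hx t => by
            rw [mem_smul', inv_inv] at hx
            exact hx (s (mul_mem_smul.2 t))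
        obtain ⟨x, -, t⟩ := u₀.nonempty
        rw [this] at t
        exact t
    obtain ⟨r, hr⟩ := h.pos fun t => c t.symm
    have r1 : r ≤ i := (hr.ev L i).2.1 (u.mono Set.inter_subset_left)
    obtain ⟨n, n1, n2⟩ := Surg1_slab hm i r
    have n3 : n ≤ 0 := by nlinarith
    refine ⟨g, hg, c, fun y => ?_⟩
    filter_upwards [hr y, u y] with k k1 k2
    rw [fd n _ (by rwa [k1]) (by rwa [k1])]
    exact up _ (by omega) _ k2.2
  · have c : ¬ Commute g' z := fun c => by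
      rcases ends g' n' c with o | o
      · have : P = ∅ := Ev.empty_of_sub ((o _ v).mono Set.inter_subset_right) s
        obtain ⟨x, -, t⟩ := v₁.nonempty
        rw [this] at t
        exact t
      · exact ((o _ v).mono Set.inter_subset_left).not_compl (h.ev_inv (i + m))
    obtain ⟨r, hr⟩ := h.pos fun t => c t.symm
    have r1 : i + m < r := (hr.ev L (i + m)).1.1 (v.mono Set.inter_subset_left)
    obtain ⟨n, n1, n2⟩ := Surg1_slab hm i r
    have n3 : 0 ≤ n := by nlinarith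
    refine ⟨g', hg', c, fun y => ?_⟩
    filter_upwards [hr y, v y] with k k1 k2
    rw [Set.mem_compl_iff, fd n _ (by rwa [k1]) (by rwa [k1])]
    intro t
    have := up n n3 _ t
    rw [← mul_assoc, ← zpow_add, add_neg_cancel, zpow_zero, one_mul] at this
    exact k2.2 this

/-- the final contradiction from a periodic cut not crossing its translates -/
theorem surg_end (hm : MaxS (cl W) Γ) (h : AxL z a m) (hz : z ∈ Γ) (w : Win W Γ P a i (i + m))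
    (agr : Agr W (hl a (i + m)) P (z • sg b P)) (hA : Cut (cl W) (cen z) A) (e : z • A = sg b A)
    (f : ∀ x ∈ hl a i \ hl a (i + m), (x ∈ A ↔ x ∈ P))
    (nc : ∀ k ∈ Γ, ¬ Commute k z → ∀ c, (c = k * z * k⁻¹ ∨ c = k * z⁻¹ * k⁻¹) →
      ¬ (Ev A c ∧ Ev Aᶜ c⁻¹)) : False := by
  have hm0 := h.2.1
  cases b with
  | false =>
    have key : ∀ x, z * x ∉ A ↔ x ∈ A := fun x => by
      rw [← mul_mem_smul (k := z) (A := A) (x := x), e]
      rfl
    have n : A.Nonempty ∧ Aᶜ.Nonempty := by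
      by_cases o : (1 : FreeGroup X) ∈ A
      · exact ⟨⟨1, o⟩, _, (key 1).2 o⟩
      · exact ⟨⟨_, not_not.1 fun t => o ((key 1).1 t)⟩, 1, o⟩
    obtain ⟨C, ⟨x, hx⟩, c1, c2, -⟩ := hm z hz h.ne A hA n.1 n.2 nc
    have := c1.iff hx (show z * x ∈ C by rw [← c2]; exact mul_mem_smul.2 hx)
    have := key x
    tauto
  | true =>
    have key : (∃ g ∈ Γ, ¬ Commute g z ∧ Ev A g) ∧ ∃ g ∈ Γ, ¬ Commute g z ∧ Ev Aᶜ g := by
      rcases w.cmp (by omega) le_rfl hz agr with s | s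
      · have := Surg1_ends (A := Aᶜ) h w.compl (by rw [smul_compl', e]; rfl)
          (fun x hx => not_congr (f x hx))
          (by rw [smul_compl']; exact Set.compl_subset_compl.2 s)
        rw [compl_compl] at this
        exact this.symm
      · exact Surg1_ends h w e f s
    obtain ⟨⟨g, hg, c, u⟩, g', hg', c', v⟩ := key
    obtain ⟨C, -, c1, -, c3⟩ := hm z hz h.ne A hA u.nonempty v.nonempty nc
    rcases c1 with s | s
    · exact ((c3 g' hg' c').mono s).not_compl v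
    · exact u.not_compl ((c3 g hg c).mono s)

end Pool.Agent.Work.MP_3bdf32_al
end

-- merged part: Pool.Agent.Work.MP_3bdf32_al.Surg2
section
/-! Surgery along an edge: the periodic cut of a clean pair does not cross its translates. -/

namespace Pool.Agent.Work.MP_3bdf32_al

set_option linter.unusedSectionVars false
set_option linter.unusedVariables false

open Subgroup MulAction Filter
open scoped Pointwise

variable {X : Type} [Fintype X] [DecidableEq X] {W : List (FreeGroup X)}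
  {Γ : Subgroup (FreeGroup X)} {P A : Set (FreeGroup X)} {a : ℤ → FreeGroup X} {z : FreeGroup X}
  {i j m p q : ℤ} {b : Bool}

theorem surg2_step₀ {B₀ B₁ S : Set (FreeGroup X)} (cmp : B₁ ⊆ B₀)
    (ag : ∃ x ∈ S, (x ∈ B₀ ↔ x ∈ B₁)) (ne : Nest B₁ S) (cl : ¬ (B₁ ⊆ S ∧ S ⊆ B₀))
    (n : B₀ᶜ.Nonempty) (u : Bool) (d : Disjoint (sg u B₀) S) : Disjoint (sg u B₁) S := by
  cases u
  · rw [sg_false] at d ⊢
    have s : S ⊆ B₀ := fun x hx => by_contra fun e => Set.disjoint_left.1 d e hx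
    rcases ne with (e | e) | e | e
    · exact (cl ⟨e, s⟩).elim
    · obtain ⟨x, a, b⟩ := ag
      exact (e (b.1 (s a)) a).elim
    · obtain ⟨x, hx⟩ := n
      exact (hx (s (e fun a => hx (cmp a)))).elim
    · exact Set.disjoint_left.2 fun x a b => e a b
  · exact d.mono_left cmp

theorem surg2_step {B₀ B₁ S : Set (FreeGroup X)} (cmp : B₀ ⊆ B₁ ∨ B₁ ⊆ B₀)
    (ag : ∃ x ∈ S, (x ∈ B₀ ↔ x ∈ B₁)) (ne : Nest B₁ S) (cl : ¬ (B₁ ⊆ S ∧ S ⊆ B₀))
    (cl' : ¬ (B₀ ⊆ Sᶜ ∧ Sᶜ ⊆ B₁)) (n : B₀.Nonempty) (n' : B₀ᶜ.Nonempty) (u : Bool)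
    (d : Disjoint (sg u B₀) S) : Disjoint (sg u B₁) S := by
  rcases cmp with cmp | cmp
  · have := surg2_step₀ (B₀ := B₀ᶜ) (B₁ := B₁ᶜ) (S := S) (Set.compl_subset_compl.2 cmp)
      (ag.imp fun x a => ⟨a.1, not_congr a.2⟩) ne.compl_left
      (fun a => cl' ⟨Set.subset_compl_comm.1 a.2, Set.compl_subset_comm.1 a.1⟩)
      (by simpa using n) (!u) (by cases u <;> simpa using d)
    cases u <;> simpa using this
  · exact surg2_step₀ cmp ag ne cl n' u d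

theorem surg2_nest_sg {A B : Set (FreeGroup X)} (h : Nest A B) (u v : Bool) :
    Nest (sg u A) (sg v B) := by
  cases u <;> cases v
  exacts [h.compl_left.compl_right, h.compl_left, h.compl_right, h]

theorem surg2_nest (w : Win W Γ P a p q) {g g' : FreeGroup X} (hg : g ∈ Γ) (hg' : g' ∈ Γ)
    (u v : Bool) : Nest (g • sg u P) (g' • sg v P) := by
  have := (surg2_nest_sg (w.nest _ (Γ.mul_mem (Γ.inv_mem hg) hg')) u v).smul' g
  rwa [← sg_smul v, smul_smul, mul_inv_cancel_left] at this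

theorem surg2_jump₀ (hm : 0 < m) (hz : z ∈ Γ) (w : Win W Γ P a i (i + m))
    (agr : Agr W (hl a (i + m)) P (z • sg b P)) {k : FreeGroup X} (hk : k ∈ Γ) {r : ℤ}
    (h₁ : i < r) (h₂ : r < i + m) {c : Bool} (e : k • hl a r = sg c (hl a (i + m)))
    (cl : ∀ c', ¬ (P ⊆ k • sg c' P ∧ k • sg c' P ⊆ z • sg b P) ∧
      ¬ (z • sg b P ⊆ k • sg c' P ∧ k • sg c' P ⊆ P)) (u v : Bool) :
    Disjoint (sg u P) (k • sg v P) ↔ Disjoint (sg u (z • sg b P)) (k • sg v P) := by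
  have cmp := w.cmp (by omega) le_rfl hz agr
  have ag : ∃ x ∈ k • sg v P, (x ∈ P ↔ x ∈ z • sg b P) := by
    obtain ⟨t, ht, a₁, a₂⟩ := w.seg h₁.le h₂.le v
    have h' := (lv_smul W k).2 ht
    rw [e] at h'
    cases c
    · refine ⟨_, mul_mem_smul.2 a₁, (agr (k * t.2, k * t.1) ⟨h'.1.symm, ?_, h'.2.1⟩).2⟩
      simpa using h'.2.2
    · exact ⟨_, mul_mem_smul.2 a₁, (agr _ h').1⟩
  have ne : ∀ c, (sg c P).Nonempty := fun c =>
    let ⟨t, _, a₁, _⟩ := w.seg le_rfl (by omega) c; ⟨_, a₁⟩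
  have cc : (k • sg v P)ᶜ = k • sg (!v) P := by rw [← smul_compl', sg_compl]
  constructor
  · refine surg2_step cmp ag (surg2_nest w hz hk b v) (cl v).2 (by rw [cc]; exact (cl _).1)
      (ne true) (ne false) u
  · refine surg2_step cmp.symm (ag.imp fun x a => ⟨a.1, a.2.symm⟩)
      (by simpa using surg2_nest w Γ.one_mem hk true v) (cl v).1 (by rw [cc]; exact (cl _).2)
      (ne b).smul_set ?_ u
    rw [← smul_compl', sg_compl]
    exact (ne _).smul_set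

theorem surg2_jump (hm : 0 < m) (hz : z ∈ Γ) (w : Win W Γ P a i (i + m))
    (agr : Agr W (hl a (i + m)) P (z • sg b P))
    (cl : ∀ r, i < r → r < i + m → ∀ k ∈ Γ, ∀ c c', k • hl a r = sg c (hl a (i + m)) →
      ¬ (P ⊆ k • sg c' P ∧ k • sg c' P ⊆ z • sg b P) ∧
        ¬ (z • sg b P ⊆ k • sg c' P ∧ k • sg c' P ⊆ P))
    {g g' : FreeGroup X} (hg : g ∈ Γ) (hg' : g' ∈ Γ) {r : ℤ} (h₁ : i < r) (h₂ : r < i + m)
    {c : Bool} (e : g' • hl a r = sg c (g • hl a (i + m))) (β β' u v : Bool) :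
    Disjoint (sg u (g • sg β P)) (sg v (g' • sg β' P)) ↔
      Disjoint (sg u (g • sg β (z • sg b P))) (sg v (g' • sg β' P)) := by
  have hk := Γ.mul_mem (Γ.inv_mem hg) hg'
  have e' : (g⁻¹ * g') • hl a r = sg c (hl a (i + m)) := by
    rw [mul_smul, e, ← sg_smul, inv_smul_smul]
  have := surg2_jump₀ hm hz w agr hk h₁ h₂ e' (fun c' => cl r h₁ h₂ _ hk c c' e') (u == β) (v == β')
  rw [← Set.disjoint_smul_set (a := g), ← Set.disjoint_smul_set (a := g) (s := sg _ (z • _)),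
    smul_smul, mul_inv_cancel_left] at this
  rw [← sg_smul u, ← sg_smul u, ← sg_smul v, sg_sg, sg_sg, sg_sg]
  exact this

/-- the parity sign -/
def surg2_bb (b : Bool) (n : ℤ) : Bool := if Even n then true else b

theorem surg2_bb_succ (b : Bool) (n : ℤ) : surg2_bb b (n + 1) = (surg2_bb b n == b) := by
  unfold surg2_bb
  simp only [Int.even_add_one]
  by_cases e : Even n <;> simp only [e] <;> simp

theorem surg2_zpow (e : z • A = sg b A) (n : ℤ) : z ^ n • A = sg (surg2_bb b n) A := by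
  induction n using Int.induction_on with
  | zero => simp [surg2_bb]
  | succ n ih => rw [zpow_add_one, mul_smul, e, sg_smul, ih, sg_sg, surg2_bb_succ, BEq.comm]
  | pred n ih =>
    have e' : z⁻¹ • A = sg b A := by
      rw [inv_smul_eq_iff, sg_smul, e, sg_sg]
      simp
    have := surg2_bb_succ b (-(n : ℤ) - 1)
    rw [sub_add_cancel] at this
    rw [zpow_sub_one, mul_smul, e', sg_smul, ih, sg_sg, this]
    cases b <;> cases surg2_bb _ (-(n : ℤ) - 1) <;> rfl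

theorem surg2_uniq (hm : 0 < m) {n n' x : ℤ} (a₁ : n * m ≤ x) (a₂ : x < n * m + m)
    (b₁ : n' * m ≤ x) (b₂ : x < n' * m + m) : n = n' := by
  rcases lt_trichotomy n n' with h | h | h
  · nlinarith [mul_le_mul_of_nonneg_right (show n + 1 ≤ n' from h) hm.le]
  · exact h
  · nlinarith [mul_le_mul_of_nonneg_right (show n' + 1 ≤ n from h) hm.le]

/-- the colouring of the vertices of the axis by translates of `P` -/
theorem surg2_col (h : AxL z a m) (hz : z ∈ Γ) (w : Win W Γ P a i (i + m)) (e : z • A = sg b A)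
    (f : ∀ x ∈ hl a i \ hl a (i + m), (x ∈ A ↔ x ∈ P)) : ∃ C : ℤ → Set (FreeGroup X),
    (∀ t, ∃ g ∈ Γ, ∃ β, C t = g • sg β P) ∧
    (∀ t, (C (t + 1) = C t ∧ ∃ (n r : ℤ) (β : Bool), i < r ∧ r < i + m ∧
        hl a t = z ^ n • hl a r ∧ C t = z ^ n • sg β P) ∨
      ∃ (n : ℤ) (β : Bool), hl a t = z ^ n • hl a (i + m) ∧ C t = z ^ n • sg β P ∧
        C (t + 1) = z ^ n • sg β (z • sg b P)) ∧
    (∀ t c, (∃ x ∈ sg c (C t), x ∈ hl a t) ∧ ∃ x ∈ sg c (C t), x ∉ hl a (t - 1)) ∧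
    ∀ t U, HT U → (∀ y ∈ U, pr a y = t) → Mono U (C t) ∧ ∀ y ∈ U, (y ∈ A ↔ y ∈ C t) := by
  have hm := h.2.1
  have d : ∀ t, (t - i - 1) / m * m ≤ t - i - 1 ∧ t - i - 1 < (t - i - 1) / m * m + m := fun t =>
    ⟨Int.ediv_mul_le _ hm.ne', by
      have := Int.lt_ediv_add_one_mul_self (t - i - 1) hm
      rwa [add_mul, one_mul] at this⟩
  generalize hn : (fun t => (t - i - 1) / m) = nn
  replace d : ∀ t, nn t * m ≤ t - i - 1 ∧ t - i - 1 < nn t * m + m := hn ▸ d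
  refine ⟨fun t => z ^ nn t • sg (surg2_bb b (nn t)) P, fun t => ⟨_, Γ.zpow_mem hz _, _, rfl⟩,
    fun t => ?_, fun t c => ?_, fun t U hU p => ?_⟩
  · obtain ⟨d₁, d₂⟩ := d t
    obtain ⟨d₃, d₄⟩ := d (t + 1)
    by_cases j : t = i + m + nn t * m
    · have : nn (t + 1) = nn t + 1 :=
        surg2_uniq hm d₃ d₄ (by rw [add_mul]; omega) (by rw [add_mul]; omega)
      refine .inr ⟨nn t, _, by rw [h.hl_zpow, ← j], rfl, ?_⟩
      simp only [this]
      rw [zpow_add_one, mul_smul, surg2_bb_succ, ← sg_sg, sg_smul]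
    · have : nn (t + 1) = nn t := surg2_uniq hm d₃ d₄ (by omega) (by omega)
      refine .inl ⟨by simp only [this], nn t, t - nn t * m, _, by omega, by omega, ?_, rfl⟩
      rw [h.hl_zpow, sub_add_cancel]
  · obtain ⟨d₁, d₂⟩ := d t
    obtain ⟨s, hs, a₁, -⟩ := w.seg (i := t - nn t * m) (by omega) (by omega) (c == surg2_bb b (nn t))
    obtain ⟨s', hs', -, a₂⟩ :=
      w.seg (i := t - 1 - nn t * m) (by omega) (by omega) (c == surg2_bb b (nn t))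
    simp only [← sg_smul, sg_sg]
    refine ⟨⟨_, mul_mem_smul.2 a₁, ?_⟩, _, mul_mem_smul.2 a₂, ?_⟩
    · have := (mul_mem_smul (k := z ^ nn t)).2 hs.2.1
      rwa [h.hl_zpow, sub_add_cancel] at this
    · have := (mul_mem_smul (k := z ^ nn t)).not.2 hs'.2.2
      rwa [h.hl_zpow, sub_add_cancel] at this
  · obtain ⟨d₁, d₂⟩ := d t
    have s : ∀ y ∈ U, (z ^ nn t)⁻¹ * y ∈ hl a i \ hl a (i + m) := fun y hy => by
      rw [Set.mem_sdiff, h.1.mem_hl, h.1.mem_hl, ← zpow_neg, h.pr_zpow, p y hy, neg_mul]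
      omega
    constructor
    · have := (w.mono _ (hU.smul (z ^ nn t)⁻¹) (by rintro _ ⟨y, hy, rfl⟩; exact s y hy)).smul'
        (z ^ nn t)
      rw [smul_inv_smul] at this
      simp only [sg_smul]
      cases surg2_bb b (nn t)
      exacts [this.compl, this]
    · intro y hy
      have a₁ : A = z ^ nn t • sg (surg2_bb b (nn t)) A := by
        rw [sg_smul, surg2_zpow e, sg_sg]
        simp
      have a₂ := f _ (s y hy)
      rw [a₁]
      simp only [mem_smul']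
      cases surg2_bb b (nn t)
      exacts [not_congr a₂, a₂]

theorem surg2_hang (h : Line a) {t : ℤ} {y : FreeGroup X} (e : cd (a t) y = 1) (n : ∀ j, y ≠ a j) :
    ∀ x ∈ hs (a t) y, pr a x = t := by
  have hU : HT (hs (a t) y) := ⟨_, _, e, rfl⟩
  have c : ∀ r, cd (a r) (a (r + 1)) = 1 := fun r => by rw [h]; simp
  rcases h.cases hU with ⟨r, s⟩ | ⟨r, s⟩ | s | s
  · exact (n _ (hs_inj e (c r) s).2).elim
  · rw [hl, hs_compl (c r)] at s
    exact (n _ (hs_inj e (by rw [cd_comm, c]) s).2).elim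
  · obtain ⟨r, hr⟩ := h.hang hU s
    have a₁ := h.cd_pr y t
    rw [hr y (right_mem_hs e), cd_comm, e] at a₁
    have a₂ := cd_nonneg y (a r)
    have a₃ : cd y (a r) ≠ 0 := fun x => n r (cd_eq_zero.1 x)
    have a₄ := abs_nonneg (t - r)
    have : t = r := by
      have : |t - r| = 0 := by omega
      exact sub_eq_zero.1 (abs_eq_zero.1 this)
    rwa [this] at hr ⊢
  · exact (left_notMem_hs _ _ (s t)).elim

theorem surg_nc (h : AxL z a m) (hz : z ∈ Γ) (w : Win W Γ P a i (i + m))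
    (agr : Agr W (hl a (i + m)) P (z • sg b P)) (e : z • A = sg b A)
    (f : ∀ x ∈ hl a i \ hl a (i + m), (x ∈ A ↔ x ∈ P))
    (cl : ∀ r, i < r → r < i + m → ∀ k ∈ Γ, ∀ c c', k • hl a r = sg c (hl a (i + m)) →
      ¬ (P ⊆ k • sg c' P ∧ k • sg c' P ⊆ z • sg b P) ∧
        ¬ (z • sg b P ⊆ k • sg c' P ∧ k • sg c' P ⊆ P)) :
    ∀ k ∈ Γ, ¬ Commute k z → ∀ c, (c = k * z * k⁻¹ ∨ c = k * z⁻¹ * k⁻¹) →
      ¬ (Ev A c ∧ Ev Aᶜ c⁻¹) := by
  intro k hk nc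
  have hm := h.2.1
  obtain ⟨C, C₁, C₂, C₃, C₄⟩ := surg2_col h hz w e f
  have h' := h.conj k
  suffices ∃ u, Ev (sg u A) (k * z * k⁻¹) ∧ Ev (sg u A) (k * z * k⁻¹)⁻¹ by
    obtain ⟨u, a₁, a₂⟩ := this
    rintro c (rfl | rfl) ⟨b₁, b₂⟩
    · cases u
      exacts [b₁.not_compl a₁, a₂.not_compl b₂]
    · rw [show k * z⁻¹ * k⁻¹ = (k * z * k⁻¹)⁻¹ by group] at b₁ b₂
      rw [inv_inv] at b₂
      cases u
      exacts [b₁.not_compl a₂, a₁.not_compl b₂]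
  have one : ∀ r, cd (a r) (a (r + 1)) = 1 := fun r => by rw [h.1]; simp
  have one' : ∀ r, cd (k * a r) (k * a (r + 1)) = 1 := fun r => by rw [cd_smul, one]
  by_cases J : ∃ s t, k * a s = a t
  swap
  · push Not at J
    obtain ⟨v, v₁, v₂, v₃⟩ := h.1.ex_hang (J 0)
    have hU : HT (hs (a (pr a (k * a 0))) v) := ⟨_, _, v₁, rfl⟩
    obtain ⟨t, ht⟩ := h.1.hang hU v₃
    obtain ⟨m₁, m₂⟩ := C₄ t _ hU ht
    have all : ∀ j, k * a j ∈ hs (a (pr a (k * a 0))) v := by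
      rcases h'.1.cases hU with ⟨r, s⟩ | ⟨r, s⟩ | s | s
      · exact (J _ _ (hs_inj v₁ (one' r) s).1.symm).elim
      · rw [hl, hs_compl (one' r)] at s
        exact (J _ _ (hs_inj v₁ (by rw [cd_comm, one']) s).1.symm).elim
      · exact (s 0 v₂).elim
      · exact s
    obtain ⟨e₁, e₂⟩ := h'.ev_of_hang hU.compl fun j a => a (all j)
    rw [compl_compl] at e₁ e₂
    rcases m₁ with s | s
    · have : _ ⊆ A := fun y hy => (m₂ y hy).2 (s hy)
      exact ⟨true, e₁.mono this, e₂.mono this⟩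
    · have : _ ⊆ Aᶜ := fun y hy a => s hy ((m₂ y hy).1 a)
      exact ⟨false, e₁.mono this, e₂.mono this⟩
  have bd : ∀ s s', (∃ t, k * a s = a t) → (∃ t, k * a s' = a t) → s' ≤ s + m + m := by
    rintro s s' ⟨t, a₁⟩ ⟨t', a₂⟩
    by_contra l
    obtain ⟨ε, -, -, sh⟩ := h'.1.share h.1 a₁ a₂ (by omega)
    have c := h'.overlap h s fun r b₁ b₂ => ⟨_, by
      have := sh (r - s) (by omega) (by omega)
      rwa [add_sub_cancel] at this⟩
    have c' := (ax_cen h.ne).eq_cen (mem_cen.2 c) h'.ne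
    rw [← tl_cen (H := Γ)] at c'
    exact nc (mem_cen.1 ((ax_cen h.ne).norm.1 c'))
  obtain ⟨s₀, hs₀⟩ := J
  obtain ⟨s₁, ⟨t₁, a₁⟩, mn⟩ := Int.exists_least_of_bdd (P := fun s => ∃ t, k * a s = a t)
    ⟨s₀ - m - m, fun s hs => by have := bd s s₀ hs hs₀; omega⟩ ⟨s₀, hs₀⟩
  obtain ⟨s₂, ⟨t₂, a₂⟩, mx⟩ := Int.exists_greatest_of_bdd (P := fun s => ∃ t, k * a s = a t)
    ⟨s₀ + m + m, fun s hs => bd s₀ s hs₀ hs⟩ ⟨s₀, hs₀⟩
  have le := mn s₂ ⟨t₂, a₂⟩
  obtain ⟨ε, hε, et, sh⟩ := h'.1.share h.1 a₁ a₂ le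
  have edge : ∀ s t c, k • hl a s = sg c (hl a t) → ∀ u v,
      (Disjoint (sg u (C t)) (sg v (k • C s)) ↔
        Disjoint (sg u (C (t + 1))) (sg v (k • C (s + 1)))) ∧
      (Disjoint (sg u (C (t + 1))) (sg v (k • C s)) ↔
        Disjoint (sg u (C t)) (sg v (k • C (s + 1)))) := by
    intro s t c j u v
    rcases C₂ t with ⟨b₁, n, r, β, b₂, b₃, b₄, b₅⟩ | ⟨n, β, b₁, b₂, b₃⟩ <;>
      rcases C₂ s with ⟨c₁, n', r', β', c₂, c₃, c₄, c₅⟩ | ⟨n', β', c₁, c₂, c₃⟩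
    · rw [b₁, c₁]
      exact ⟨Iff.rfl, Iff.rfl⟩
    · have := surg2_jump hm hz w agr cl (Γ.mul_mem hk (Γ.zpow_mem hz n')) (Γ.zpow_mem hz n) b₂ b₃
        (c := c) (by rw [mul_smul, ← c₁, j, ← b₄, sg_sg]; simp) β' β v u
      rw [b₁, b₅, c₂, c₃, smul_smul, smul_smul, disjoint_comm, this, disjoint_comm]
      exact ⟨Iff.rfl, Iff.rfl⟩
    · have := surg2_jump hm hz w agr cl (Γ.zpow_mem hz n) (Γ.mul_mem hk (Γ.zpow_mem hz n')) c₂ c₃
        (c := c) (by rw [mul_smul, ← c₄, j, ← b₁]) β β' u v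
      rw [c₁, c₅, b₂, b₃, smul_smul]
      exact ⟨this, this.symm⟩
    · exfalso
      rw [b₁, c₁, smul_smul, ← sg_smul, ← inv_smul_eq_iff, smul_smul] at j
      have : (z ^ n)⁻¹ * (k * z ^ n') = 1 := by_contra fun x => by
        have := (h.1.ht (i + m)).free x
        cases c
        exacts [this.2 j, this.1 j]
      have : k = z ^ (n - n') := by
        rw [zpow_sub, eq_mul_inv_iff_mul_eq, ← inv_mul_eq_one.1 this]
      exact nc (this ▸ (Commute.refl z).zpow_left _)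
  obtain ⟨u, v, d₀⟩ : ∃ u v, Disjoint (sg u (C t₁)) (sg v (k • C s₁)) := by
    obtain ⟨g, hg, β, b₁⟩ := C₁ t₁
    obtain ⟨g', hg', β', b₂⟩ := C₁ s₁
    have := surg2_nest w hg (Γ.mul_mem hk hg') β β'
    rw [mul_smul, ← b₁, ← b₂, nest_iff] at this
    obtain ⟨u, v, s⟩ := this
    exact ⟨u, !v, by rw [← sg_compl]; exact Set.subset_compl_iff_disjoint_right.1 (by simpa using s)⟩
  have d : ∀ τ : ℕ, (τ : ℤ) ≤ s₂ - s₁ →
      Disjoint (sg u (C (t₁ + ε * τ))) (sg v (k • C (s₁ + τ))) := by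
    intro τ
    induction τ with
    | zero => intro _; simpa using d₀
    | succ τ ih =>
      intro l
      push_cast at l ⊢
      have b₁ := sh τ (by omega) (by omega)
      have b₂ := sh (τ + 1) (by omega) l
      have := ih (by omega)
      rw [← add_assoc] at b₂ ⊢
      rcases hε with rfl | rfl
      · rw [one_mul] at b₁ b₂ this ⊢
        rw [← add_assoc] at b₂ ⊢
        refine (edge _ _ true ?_ u v).1.1 this
        rw [hl_smul, sg_true, hl, hl, b₁, b₂]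
      · rw [show t₁ + -1 * (τ : ℤ) = t₁ + -1 * (τ + 1) + 1 by ring] at b₁ this
        refine (edge _ _ false ?_ u v).2.1 this
        rw [hl_smul, sg_false, hl, hl, b₁, b₂, hs_compl (one _)]
  have d₁ := d (s₂ - s₁).toNat (by omega)
  rw [Int.toNat_of_nonneg (by omega), ← et, add_sub_cancel] at d₁
  have fin : ∀ s t U, HT U → (∀ y ∈ U, pr a y = t) → Disjoint (sg u (C t)) (sg v (k • C s)) →
      (∃ x ∈ sg v (C s), k * x ∈ U) → U ⊆ sg (!u) A := by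
    rintro s t U hU b₁ b₂ ⟨x, b₃, b₄⟩ y hy
    obtain ⟨m₁, m₂⟩ := C₄ t U hU b₁
    have b₅ : k * x ∉ sg u (C t) := fun c =>
      Set.disjoint_left.1 b₂ c (by rw [← sg_smul]; exact mul_mem_smul.2 b₃)
    have b₆ := m₁.iff b₄ hy
    have b₇ := m₂ y hy
    cases u <;> simp at b₅ ⊢ <;> (clear * - b₅ b₆ b₇ hs₀ hε; tauto)
  refine ⟨!u, (h'.ev s₂).mono (fin s₂ t₂ _ (h'.1.ht _) ?_ d₁ ?_),
    (h'.ev_inv (s₁ - 1)).mono (fin s₁ t₁ _ (h'.1.ht _).compl ?_ d₀ ?_)⟩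
  · have := surg2_hang h.1 (a₂ ▸ one' s₂) fun j c => by have := mx _ ⟨j, c⟩; omega
    rwa [← a₂] at this
  · obtain ⟨x, b₁, b₂⟩ := (C₃ s₂ v).1
    exact ⟨x, b₁, by rw [← hl_smul]; exact mul_mem_smul.2 b₂⟩
  · have o := one' (s₁ - 1)
    rw [hl, hs_compl o]
    rw [sub_add_cancel] at o ⊢
    have := surg2_hang h.1 (a₁ ▸ (cd_comm _ _).trans o) fun j c => by have := mn _ ⟨j, c⟩; omega
    rwa [← a₁] at this
  · obtain ⟨x, b₁, b₂⟩ := (C₃ s₁ v).2
    exact ⟨x, b₁, by rw [← hl_smul]; exact mul_mem_smul.not.2 b₂⟩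

end Pool.Agent.Work.MP_3bdf32_al
end

-- merged part: Pool.Agent.Work.MP_3bdf32_al.Snake
section
/-! Windows have bounded length. -/

namespace Pool.Agent.Work.MP_3bdf32_al

set_option linter.unusedSectionVars false
set_option linter.unusedVariables false

open Subgroup MulAction Filter
open scoped Pointwise

variable {X : Type} [Fintype X] [DecidableEq X] {W : List (FreeGroup X)}
  {Γ : Subgroup (FreeGroup X)} {P A : Set (FreeGroup X)} {a : ℤ → FreeGroup X} {z : FreeGroup X}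
  {i j m p q : ℤ} {b : Bool}

theorem Snake_refl (U P : Set (FreeGroup X)) : Agr W U P P := fun _ _ => ⟨Iff.rfl, Iff.rfl⟩

theorem Snake_symm {U Q : Set (FreeGroup X)} (h : Agr W U P Q) : Agr W U Q P :=
  fun t ht => ⟨(h t ht).1.symm, (h t ht).2.symm⟩

theorem Snake_trans {U Q R : Set (FreeGroup X)} (h : Agr W U P Q) (h' : Agr W U Q R) :
    Agr W U P R := fun t ht => ⟨(h t ht).1.trans (h' t ht).1, (h t ht).2.trans (h' t ht).2⟩

theorem Snake_smul {U Q : Set (FreeGroup X)} (h : Agr W U P Q) (k : FreeGroup X) :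
    Agr W (k • U) (k • P) (k • Q) := fun t ht => by
  have := h (k⁻¹ * t.1, k⁻¹ * t.2) ((lv_smul W k).1 (by simpa using ht))
  simpa only [mem_smul'] using this

theorem Snake_sg {U Q : Set (FreeGroup X)} (h : Agr W U P Q) (c : Bool) : Agr W (sg c U) P Q := by
  cases c
  · exact fun t ht => (h (t.2, t.1) ⟨ht.1.symm, not_not.1 ht.2.2, ht.2.1⟩).symm
  · exact h

theorem Snake_sg' {U Q : Set (FreeGroup X)} {c : Bool} (h : Agr W (sg c U) P Q) : Agr W U P Q := by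
  have := Snake_sg h c
  rw [sg_sg] at this
  simpa using this

theorem Snake_btw {U Q R : Set (FreeGroup X)} (h : Agr W U P R)
    (e : P ⊆ Q ∧ Q ⊆ R ∨ R ⊆ Q ∧ Q ⊆ P) : Agr W U P Q := fun t ht => by
  obtain ⟨h1, h2⟩ := h t ht
  rcases e with ⟨a, b⟩ | ⟨a, b⟩
  · exact ⟨⟨fun x => a x, fun x => h1.2 (b x)⟩, fun x => a x, fun x => h2.2 (b x)⟩
  · exact ⟨⟨fun x => a (h1.1 x), fun x => b x⟩, fun x => a (h2.1 x), fun x => b x⟩

theorem Snake_mem_sg {U Q : Set (FreeGroup X)} (h : Agr W U P Q) {t : FreeGroup X × FreeGroup X}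
    (ht : t ∈ lv W U) (d : Bool) : (t.1 ∈ sg d P → t.1 ∈ sg d Q) ∧ (t.2 ∈ sg d P → t.2 ∈ sg d Q) := by
  cases d
  · exact ⟨fun a b => a ((h t ht).1.2 b), fun a b => a ((h t ht).2.2 b)⟩
  · exact ⟨(h t ht).1.1, (h t ht).2.1⟩

theorem Snake_win (h : Win W Γ P a p q) (b : Bool) {k : FreeGroup X} (e : k ∈ Γ) :
    Win W Γ (k • sg b P) (fun i => k * a i) p q := by
  cases b
  exacts [h.compl.smul e, h.smul e]

/-- there is no clean pair of passes in the same direction -/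
theorem no_clean (hm : MaxS (cl W) Γ) (w : Win W Γ P a i j) (hij : i < j) (hz : z ∈ Γ)
    (e : z • hl a i = hl a j) (agr : Agr W (hl a j) P (z • sg b P))
    (cl : ∀ r, i < r → r < j → ∀ k ∈ Γ, ∀ c c', k • hl a r = sg c (hl a j) →
      ¬ (P ⊆ k • sg c' P ∧ k • sg c' P ⊆ z • sg b P) ∧
        ¬ (z • sg b P ⊆ k • sg c' P ∧ k • sg c' P ⊆ P)) : False := by
  obtain ⟨a', h, ha⟩ := win_axis w.line hij e
  have w' := w.congr h.1 hij.le ha
  have hh : ∀ r, i ≤ r → r ≤ j → hl a' r = hl a r := fun r h1 h2 => by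
    rw [hl, hl, ha r h1 (by omega), ha (r + 1) (by omega) (by omega)]
  obtain ⟨m, rfl⟩ : ∃ m, j = i + m := ⟨j - i, by ring⟩
  rw [add_sub_cancel_left] at h
  rw [← hh _ hij.le le_rfl] at agr cl
  obtain ⟨A, hA, e1, f⟩ := surg_cut h w'.wf w'.mono agr
  refine surg_end hm h hz w' agr hA e1 f (surg_nc h hz w' agr e1 f fun r h1 h2 => ?_)
  rw [hh r h1.le h2.le]
  exact cl r h1 h2

theorem Snake_alt {U : Set (FreeGroup X)} {g : FreeGroup X} (hU : HT U) (e : g • Uᶜ ⊆ U)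
    (f : (g * g) • Uᶜ ⊆ Uᶜ) : False := by
  obtain ⟨x, hx⟩ := hU.compl.nonempty
  have hg : g ≠ 1 := by
    rintro rfl
    exact hx (e (by rwa [one_smul]))
  rw [← sq] at f
  rcases hU.ev hg with h | h
  · have := Ev.empty_of_sub (A := Uᶜ) (by rw [compl_compl]; exact h.pow two_pos) f
    rw [this] at hx
    exact hx
  · have := Ev.empty_of_sub (A := g • Uᶜ) ((h.pow two_pos).mono (Set.compl_subset_compl.2 e)) (by
      rw [smul_smul, ← pow_succ, pow_succ', ← smul_smul]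
      exact Set.smul_set_mono f)
    exact Set.notMem_empty _ (this ▸ (mul_mem_smul (k := g)).2 hx)

/-- two turns through the same element are impossible in a monotone sequence of passes -/
theorem no_turn {U P₁ P₂ P₃ P₄ : Set (FreeGroup X)} {c : FreeGroup X} {b' : Bool} (hU : HT U)
    (e : c • Uᶜ ⊆ U) (s₁ : P₁ ⊂ P₂) (s₂ : P₂ ⊆ P₃) (s₃ : P₃ ⊆ P₄) (f : c • P₂ = sg b P₁)
    (f' : c • P₄ = sg b' P₃)
    (t : ∀ d, ∃ t ∈ lv W U, t.1 ∈ sg d P₁ ∧ t.2 ∈ sg d P₁ ∧ t.1 ∈ sg d P₂ ∧ t.2 ∈ sg d P₂ ∧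
      t.1 ∈ sg d P₄ ∧ t.2 ∈ sg d P₄)
    (mono : ∀ U', HT U' → U' ⊆ U ∩ c • U → Mono U' P₁) : False := by
  obtain ⟨x, hx, -, -, x1, x2, x3, -⟩ := t true
  obtain ⟨y, hy, -, -, y1, -, y3, y4⟩ := t false
  have m1 : ∀ v, c * v ∈ sg b P₁ ↔ v ∈ P₂ := fun v => by rw [← f, mul_mem_smul]
  have m2 : ∀ v, c * v ∈ sg b' P₃ ↔ v ∈ P₄ := fun v => by rw [← f', mul_mem_smul]
  have s13 := s₁.1.trans s₂
  cases b <;> cases b' <;> simp only [sg_true, sg_false, Set.mem_compl_iff] at *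
  · refine s₁.2 fun v hv => not_not.1 fun hn => ?_
    have := (m2 (c⁻¹ * v)).2 (s₃ (s₂ ((m1 _).1 (by rwa [mul_inv_cancel_left]))))
    rw [mul_inv_cancel_left] at this
    exact this (s₂ hv)
  · exact y3 ((m2 _).1 (s13 (not_not.1 (mt (m1 _).1 y1))))
  · exact (m2 _).2 x3 (s13 ((m1 _).2 x1))
  · have e' : Uᶜ ⊆ c • U := by
      rw [← Set.compl_subset_compl, compl_compl, ← smul_compl']
      exact e
    have h1 : (c * c) • Uᶜ ⊆ U := fun v hv => not_not.1 fun hn => by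
      obtain ⟨u, hu⟩ := hU.compl.nonempty
      rcases ((hU.compl.smul (c * c)).nest hU.compl).sub ⟨v, hv, hn⟩ ⟨c * u, by
        rw [smul_compl', compl_compl, ← smul_smul]
        exact mul_mem_smul.2 (e' hu), not_not.2 (e (mul_mem_smul.2 hu))⟩ with h | h
      · exact Snake_alt hU e h
      · refine Snake_alt (g := c⁻¹) hU (Set.smul_set_subset_iff_subset_inv_smul_set.2 ?_)
          (Set.smul_set_subset_iff_subset_inv_smul_set.2 ?_)
        · rwa [inv_inv]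
        · rwa [← mul_inv_rev, inv_inv]
    have h2 := mono _ (hU.compl.smul (c * c)) (Set.subset_inter h1 (by
      rw [← smul_smul]
      exact Set.smul_set_mono e))
    have h3 := h2.iff (mul_mem_smul.2 hx.2.2) (mul_mem_smul.2 hy.2.2)
    rw [mul_assoc, mul_assoc, m1, m1] at h3
    exact y4 ((m2 _).1 (s₂ (h3.1 (s₁.1 ((m1 _).2 x2)))))

theorem Snake_ext {J K : Finset ℤ} {f : ℤ → ℕ} {ε : ℤ → Bool} (inj : Set.InjOn f J)
    (hcl : ∀ u ∈ J, ∀ v ∈ J, u < v → (∀ w ∈ J, u < w → w < v →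
      ¬ (f u ≤ f w ∧ f w ≤ f v ∨ f v ≤ f w ∧ f w ≤ f u)) → ε u ≠ ε v) {u : ℤ} (hu : u ∈ J)
    (hK : K ⊆ J) (hK' : ∀ w ∈ J, ∀ x ∈ K, (u < w ∧ w < x ∨ x < w ∧ w < u) → w ∈ K)
    (hK'' : (∀ x ∈ K, u < x) ∨ ∀ x ∈ K, x < u) {x y : ℤ} (hx : x ∈ K) (hy : y ∈ K)
    (h1 : f x < f u) (h2 : f u < f y) : False := by
  have key : ∀ s ∈ J, ∀ t ∈ J, f s < f t → (∀ w ∈ J, (s < w ∧ w < t ∨ t < w ∧ w < s) →
      ¬ (f s < f w ∧ f w < f t)) → ε s ≠ ε t := fun s hs t ht hst h => by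
    have h' : ∀ w ∈ J, (s < w ∧ w < t ∨ t < w ∧ w < s) → ¬ (f s ≤ f w ∧ f w ≤ f t) :=
      fun w hw hb hc => by
        have a := h w hw hb
        have b : f w ≠ f s := fun e => by have := inj hw hs e; omega
        have c : f w ≠ f t := fun e => by have := inj hw ht e; omega
        omega
    rcases lt_trichotomy s t with l | rfl | l
    · exact hcl s hs t ht l fun w hw a b c => h' w hw (.inl ⟨a, b⟩) (by omega)
    · omega
    · exact (hcl t ht s hs l fun w hw a b c => h' w hw (.inr ⟨a, b⟩) (by omega)).symm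
  obtain ⟨x', hx', mx⟩ := (K.filter fun w => f w < f u).exists_max_image f
    ⟨x, Finset.mem_filter.2 ⟨hx, h1⟩⟩
  obtain ⟨y', hy', my⟩ := (K.filter fun w => f u < f w).exists_min_image f
    ⟨y, Finset.mem_filter.2 ⟨hy, h2⟩⟩
  simp only [Finset.mem_filter, and_imp] at hx' hy' mx my
  have a1 := key x' (hK hx'.1) u hu hx'.2 fun w hw hb hc => by
    have := mx w (hK' w hw x' hx'.1 hb.symm) hc.2
    omega
  have a2 := key u hu y' (hK hy'.1) hy'.2 fun w hw hb hc => by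
    have := my w (hK' w hw y' hy'.1 hb) hc.1
    omega
  have a3 := key x' (hK hx'.1) y' (hK hy'.1) (by omega) fun w hw hb hc => by
    have hxy : (u < x' ∧ u < y') ∨ x' < u ∧ y' < u :=
      hK''.imp (fun h => ⟨h _ hx'.1, h _ hy'.1⟩) fun h => ⟨h _ hx'.1, h _ hy'.1⟩
    have hw' : w ∈ K := by
      by_cases c : u < w ∧ w < x' ∨ x' < w ∧ w < u
      · exact hK' w hw x' hx'.1 c
      · exact hK' w hw y' hy'.1 (by omega)
    have b : f w ≠ f u := fun e => by have := inj hw hu e; omega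
    have c1 := mx w hw'
    have c2 := my w hw'
    omega
  revert a1 a2 a3
  cases ε u <;> cases ε x' <;> cases ε y' <;> simp

theorem Snake_mono {J : Finset ℤ} {f : ℤ → ℕ} {ε : ℤ → Bool} (inj : Set.InjOn f J)
    (hcl : ∀ u ∈ J, ∀ v ∈ J, u < v → (∀ w ∈ J, u < w → w < v →
      ¬ (f u ≤ f w ∧ f w ≤ f v ∨ f v ≤ f w ∧ f w ≤ f u)) → ε u ≠ ε v) :
    (∀ u ∈ J, ∀ v ∈ J, u < v → f u < f v) ∨ ∀ u ∈ J, ∀ v ∈ J, u < v → f v < f u := by
  have ne : ∀ u ∈ J, ∀ v ∈ J, u < v → f u ≠ f v := fun u hu v hv l e => l.ne (inj hu hv e)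
  have tri : ∀ u ∈ J, ∀ w ∈ J, ∀ v ∈ J, u < w → w < v →
      f u < f w ∧ f w < f v ∨ f v < f w ∧ f w < f u := fun u hu w hw v hv l l' => by
    have e1 := @Snake_ext J (J.filter fun x => u < x ∧ x ≤ v) f ε inj hcl u hu
      (Finset.filter_subset _ _) (fun w hw x hx h => Finset.mem_filter.2 ⟨hw, by
        have := (Finset.mem_filter.1 hx).2
        omega⟩) (.inl fun x hx => (Finset.mem_filter.1 hx).2.1)
    have e2 := @Snake_ext J (J.filter fun x => u ≤ x ∧ x < v) f ε inj hcl v hv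
      (Finset.filter_subset _ _) (fun w hw x hx h => Finset.mem_filter.2 ⟨hw, by
        have := (Finset.mem_filter.1 hx).2
        omega⟩) (.inr fun x hx => (Finset.mem_filter.1 hx).2.2)
    have w1 : w ∈ J.filter fun x => u < x ∧ x ≤ v := Finset.mem_filter.2 ⟨hw, l, l'.le⟩
    have v1 : v ∈ J.filter fun x => u < x ∧ x ≤ v := Finset.mem_filter.2 ⟨hv, l.trans l', le_rfl⟩
    have w2 : w ∈ J.filter fun x => u ≤ x ∧ x < v := Finset.mem_filter.2 ⟨hw, l.le, l'⟩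
    have u2 : u ∈ J.filter fun x => u ≤ x ∧ x < v := Finset.mem_filter.2 ⟨hu, le_rfl, l.trans l'⟩
    have a1 := e1 w1 v1
    have a2 := e1 v1 w1
    have a3 := e2 w2 u2
    have a4 := e2 u2 w2
    have b1 := ne u hu w hw l
    have b2 := ne w hw v hv l'
    have b3 := ne u hu v hv (l.trans l')
    simp only [imp_false] at a1 a2 a3 a4
    omega
  by_contra h
  push Not at h
  obtain ⟨⟨u, hu, v, hv, l, e⟩, u', hu', v', hv', l', e'⟩ := h
  have t1 := tri u hu v hv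
  have t2 := fun x hx => tri x hx u hu v hv
  have t3 := fun x hx => tri u hu x hx v hv
  have a1 := t1 u' hu'
  have a2 := t1 v' hv'
  have a3 := t2 u' hu'
  have a4 := t2 v' hv'
  have a5 := t3 u' hu'
  have a6 := t3 v' hv'
  have b1 := tri u' hu' v' hv' u hu
  have b2 := tri u' hu' v' hv' v hv
  have b3 := tri u hu u' hu' v' hv'
  have b4 := tri u' hu' u hu v' hv'
  have c1 := ne u hu v hv l
  have c2 := ne u' hu' v' hv' l'
  rcases lt_trichotomy u u' with d | rfl | d <;> rcases lt_trichotomy v v' with d' | rfl | d' <;>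
    omega

/-- the edges and traces equivalent to a given one -/
def Snake_cls (W : List (FreeGroup X)) (Γ : Subgroup (FreeGroup X)) (U P : Set (FreeGroup X)) :
    Set (Set (FreeGroup X) × Set (FreeGroup X)) :=
  {x | ∃ k ∈ Γ, ∃ c b, k • x.1 = sg c U ∧ Agr W U P (k • sg b x.2)}

theorem Snake_cls_sub {U Q : Set (FreeGroup X)} {k : FreeGroup X} (hk : k ∈ Γ)
    (h : Agr W (k • U) Q (k • P)) : Snake_cls W Γ U P ⊆ Snake_cls W Γ (k • U) Q := by
  rintro x ⟨k', hk', c, b, e, f⟩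
  refine ⟨k * k', Γ.mul_mem hk hk', c, b, by rw [mul_smul, e, sg_smul], ?_⟩
  rw [mul_smul]
  exact Snake_trans h (Snake_smul f k)

theorem Snake_fin (hΓ : Γ.FG) : ∃ D : Finset (Set (Set (FreeGroup X) × Set (FreeGroup X))),
    ∀ P a p q, Win W Γ P a p q → ∀ r, p ≤ r → r ≤ q → Snake_cls W Γ (hl a r) P ∈ D := by
  obtain ⟨S, hS, h⟩ := hull_fin hΓ
  have fin : (⋃ U ∈ S, Snake_cls W Γ U ''
      {Q | Q ⊆ Prod.fst '' lv W U ∪ Prod.snd '' lv W U}).Finite :=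
    S.finite_toSet.biUnion fun U hU => (((lv_fin W (hS U hU).clo).image _).union
      ((lv_fin W (hS U hU).clo).image _)).finite_subsets.image _
  refine ⟨fin.toFinset, fun P a p q w r h1 h2 => ?_⟩
  obtain ⟨⟨g, hg, -, -, -, -, e, -⟩, g', hg', -, -, -, -, e', -⟩ := w.spl r h1 h2
  obtain ⟨n, hn⟩ := e.ex 1
  obtain ⟨n', hn'⟩ := e'.ex 1
  rw [mul_one] at hn hn'
  obtain ⟨k, hk, hU⟩ := h _ (w.line.ht r) ⟨_, Γ.pow_mem hg n, hn.1⟩ ⟨_, Γ.pow_mem hg' n', hn'.1⟩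
  have ag : Agr W (k • hl a r) (k • P ∩ (Prod.fst '' lv W (k • hl a r) ∪
      Prod.snd '' lv W (k • hl a r))) (k • P) := fun t ht =>
    ⟨⟨And.left, fun x => ⟨x, .inl ⟨t, ht, rfl⟩⟩⟩, And.left, fun x => ⟨x, .inr ⟨t, ht, rfl⟩⟩⟩
  rw [Set.Finite.mem_toFinset]
  refine Set.mem_biUnion hU ⟨_, Set.inter_subset_right,
    (Set.Subset.antisymm (Snake_cls_sub hk ag) ?_).symm⟩
  have := Snake_smul (Snake_symm ag) k⁻¹
  rw [inv_smul_smul k P] at this
  have := Snake_cls_sub (Γ.inv_mem hk) this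
  rwa [inv_smul_smul] at this

theorem Snake_uniq {U V : Set (FreeGroup X)} (hV : HT V) {k k' : FreeGroup X} {c c' : Bool}
    (e : k • V = sg c U) (e' : k' • V = sg c' U) : k = k' := by
  by_contra h
  have := hV.free (k := k'⁻¹ * k) fun e => h (inv_mul_eq_one.1 e).symm
  rw [mul_smul, e, Ne, Ne, inv_smul_eq_iff, inv_smul_eq_iff, smul_compl', e'] at this
  cases c <;> cases c' <;> simp at this

theorem Snake_step (hm : MaxS (cl W) Γ) {L : ℤ} (hL : 0 < L) (w : Win W Γ P a p q)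
    (dens : ∀ r, p ≤ r → r + L ≤ q →
      ∃ s, r < s ∧ s ≤ r + L ∧ (hl a s, P) ∈ Snake_cls W Γ (hl a p) P) :
    q - p < ({y : FreeGroup X | cd 1 y ≤ L + 1}.ncard + 1) * (3 * L) := by
  classical
  by_contra hq
  rw [not_lt] at hq
  have hpq : p ≤ q := by
    have : 0 < (({y : FreeGroup X | cd 1 y ≤ L + 1}.ncard : ℤ) + 1) * (3 * L) := by positivity
    omega
  obtain ⟨J, hJ⟩ : ∃ J : Finset ℤ, ∀ r, r ∈ J ↔
      p ≤ r ∧ r ≤ q ∧ (hl a r, P) ∈ Snake_cls W Γ (hl a p) P :=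
    ⟨(Finset.Icc p q).filter fun r => (hl a r, P) ∈ Snake_cls W Γ (hl a p) P, fun r => by
      rw [Finset.mem_filter, Finset.mem_Icc, and_assoc]⟩
  have ex : ∀ r, ∃ (k : FreeGroup X) (c b : Bool), r ∈ J →
      k ∈ Γ ∧ k • hl a r = sg c (hl a p) ∧ Agr W (hl a p) P (k • sg b P) := fun r => by
    by_cases h : r ∈ J
    · obtain ⟨k, hk, c, b, e⟩ := ((hJ r).1 h).2.2
      exact ⟨k, c, b, fun _ => ⟨hk, e⟩⟩
    · exact ⟨1, true, true, fun h' => (h h').elim⟩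
  choose k ε b hk using ex
  obtain ⟨Q, hQ⟩ : ∃ Q : ℤ → Set (FreeGroup X), ∀ r, Q r = k r • sg (b r) P := ⟨_, fun _ => rfl⟩
  have hU := w.line.ht p
  have ag : ∀ r ∈ J, Agr W (hl a p) P (Q r) := fun r h => hQ r ▸ (hk r h).2.2
  have wn : ∀ r ∈ J, Win W Γ (Q r) (fun i => k r * a i) p q := fun r h =>
    hQ r ▸ Snake_win w _ (hk r h).1
  have rel : ∀ u v, ∃ β, (k u * (k v)⁻¹) • sg β (Q v) = Q u := fun u v =>
    ⟨b u == b v, by
      rw [hQ, hQ, ← sg_smul, smul_smul, inv_mul_cancel_right, sg_sg]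
      cases b u <;> cases b v <;> rfl⟩
  have mem : ∀ u ∈ J, ∀ v ∈ J, k u * (k v)⁻¹ ∈ Γ := fun u hu v hv =>
    Γ.mul_mem (hk u hu).1 (Γ.inv_mem (hk v hv).1)
  have ag' : ∀ u ∈ J, ∀ v ∈ J, Agr W (hl (fun i => k v * a i) v) (Q v) (Q u) := fun u hu v hv => by
    rw [← hl_smul, (hk v hv).2.1]
    exact Snake_sg (Snake_trans (Snake_symm (ag v hv)) (ag u hu)) _
  have cmp : ∀ u ∈ J, ∀ v ∈ J, Q v ⊆ Q u ∨ Q u ⊆ Q v := fun u hu v hv => by
    obtain ⟨β, e⟩ := rel u v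
    have := (wn v hv).cmp ((hJ v).1 hv).1 ((hJ v).1 hv).2.1 (mem u hu v hv) (e ▸ ag' u hu v hv)
    rwa [e] at this
  have dis : ∀ u ∈ J, ∀ v ∈ J, Q u = Q v → u = v := fun u hu v hv h => by
    obtain ⟨β, e⟩ := rel u v
    have h1 : k u = k v := by
      by_contra hn
      have := (wn v hv).free _ (mem u hu v hv) fun e => hn (mul_inv_eq_one.1 e)
      rw [h, sg_smul] at e
      cases β
      · exact this.2 (compl_eq_comm.1 e).symm
      · exact this.1 e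
    have h2 : a (max u v + 1) ∈ hl a u ∧ a (max u v + 1) ∈ hl a v := by
      rw [w.line.mem_hl, w.line.mem_hl, w.line.pr_self]
      omega
    have h3 := (mul_mem_smul (k := k u)).2 h2.1
    have h4 := (mul_mem_smul (k := k u)).2 h2.2
    have h5 := (hk v hv).2.1
    have h6 := (hk u hu).2.1
    rw [← h1] at h5
    have h7 : ε u = ε v := by
      rw [h5] at h4
      rw [h6] at h3
      revert h3 h4
      cases ε u <;> cases ε v <;> simp
    have h8 : hl a u = hl a v := MulAction.injective (k u) (by beta_reduce; rw [h5, h6, h7])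
    exact le_antisymm (w.line.hl_anti.1 h8.ge) (w.line.hl_anti.1 h8.le)
  obtain ⟨f, hf⟩ : ∃ f : ℤ → ℕ, ∀ u ∈ J, ∀ v ∈ J, (f u ≤ f v ↔ Q u ⊆ Q v) := by
    refine ⟨fun r => (J.filter fun s => Q s ⊆ Q r).card, fun u hu v hv => ⟨fun h => ?_, fun h =>
      Finset.card_le_card (Finset.monotone_filter_right _ fun s _ e => e.trans h)⟩⟩
    by_contra hn
    refine absurd h (not_le.2 (Finset.card_lt_card ⟨Finset.monotone_filter_right _ fun s _ e =>
      e.trans ((cmp u hu v hv).resolve_right hn), fun e => hn ?_⟩))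
    exact (Finset.mem_filter.1 (e (Finset.mem_filter.2 ⟨hu, le_rfl⟩))).2
  have inj : Set.InjOn f J := fun u hu v hv h => dis u hu v hv
    (Set.Subset.antisymm ((hf u hu v hv).1 h.le) ((hf v hv u hu).1 h.ge))
  have hcl : ∀ u ∈ J, ∀ v ∈ J, u < v → (∀ r ∈ J, u < r → r < v →
      ¬ (f u ≤ f r ∧ f r ≤ f v ∨ f v ≤ f r ∧ f r ≤ f u)) → ε u ≠ ε v := fun u hu v hv l h he => by
    obtain ⟨β, e⟩ := rel u v
    have hu' := (hJ u).1 hu
    have hv' := (hJ v).1 hv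
    refine no_clean (b := β) hm ((wn v hv).sub hu'.1 hv'.2.1 l.le) l (mem u hu v hv) ?_
      (e ▸ ag' u hu v hv) fun r h1 h2 g hg c c' e1 => ?_
    · rw [← hl_smul, ← hl_smul, smul_smul, inv_mul_cancel_right, (hk u hu).2.1, (hk v hv).2.1, he]
    rw [e, ← not_or]
    intro hb
    rw [← hl_smul, ← hl_smul, smul_smul, (hk v hv).2.1, sg_sg] at e1
    have a1 := Snake_trans (ag v hv) (Snake_btw (Snake_trans (Snake_symm (ag v hv)) (ag u hu)) hb)
    have e2 : g • sg c' (Q v) = (g * k v) • sg (c' == b v) P := by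
      rw [hQ, ← sg_smul, smul_smul, sg_sg]
    have hr : r ∈ J := (hJ r).2 ⟨by omega, by omega, g * k v, Γ.mul_mem hg (hk v hv).1, _, _, e1,
      e2 ▸ a1⟩
    have e3 : g • sg c' (Q v) = Q r := by
      have a2 := ag r hr
      rw [e2, Snake_uniq (w.line.ht r) e1 (hk r hr).2.1] at a1 ⊢
      rw [hQ] at a2 ⊢
      obtain ⟨t, ht, -⟩ := w.seg le_rfl hpq true
      have a3 := (a1 t ht).1.symm.trans (a2 t ht).1
      rw [sg_smul, sg_smul] at a3 ⊢
      revert a3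
      cases (c' == b v) <;> cases b r <;> simp
    rw [e3, ← hf v hv r hr, ← hf r hr u hu, ← hf u hu r hr, ← hf r hr v hv] at hb
    exact h r hr h1 h2 hb.symm
  obtain ⟨d, hd⟩ : ∃ d, ∀ u ∈ J, ∀ v ∈ J, u < v → sg d (Q u) ⊂ sg d (Q v) := by
    have ss : ∀ u ∈ J, ∀ v ∈ J, f u < f v → Q u ⊂ Q v := fun u hu v hv h =>
      ⟨(hf u hu v hv).1 h.le, fun e => absurd ((hf v hv u hu).2 e) (not_le.2 h)⟩
    rcases Snake_mono inj hcl with h | h
    · exact ⟨true, fun u hu v hv l => ss u hu v hv (h u hu v hv l)⟩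
    · exact ⟨false, fun u hu v hv l => compl_lt_compl_iff_lt.2 (ss v hv u hu (h u hu v hv l))⟩
  have nx : ∀ s ∈ J, s + L ≤ q → ∃ s' ∈ J, s < s' ∧ s' ≤ s + L ∧ ε s ≠ ε s' := fun s hs h => by
    obtain ⟨t, t1, t2, t3⟩ := dens s ((hJ s).1 hs).1 h
    have ht : t ∈ J := (hJ t).2 ⟨by have := ((hJ s).1 hs).1; omega, by omega, t3⟩
    obtain ⟨s', h1, h2⟩ := (J.filter fun r => s < r).exists_min_image id
      ⟨t, Finset.mem_filter.2 ⟨ht, t1⟩⟩
    simp only [Finset.mem_filter, and_imp, id] at h1 h2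
    exact ⟨s', h1.1, h1.2, (h2 t ht t1).trans t2, hcl s hs s' h1.1 h1.2 fun r hr a b =>
      absurd (h2 r hr a) (not_le.2 b)⟩
  have blk : ∀ r, p ≤ r → r + 3 * L ≤ q → ∃ u ∈ J, ∃ v ∈ J, r < u ∧ u < v ∧ v ≤ u + L ∧
      v ≤ r + 3 * L ∧ ε u = true ∧ ε v = false := fun r h1 h2 => by
    obtain ⟨t, t1, t2, t3⟩ := dens r h1 (by omega)
    have ht : t ∈ J := (hJ t).2 ⟨by omega, by omega, t3⟩
    obtain ⟨u, hu, u1, u2, u3⟩ := nx t ht (by omega)
    obtain ⟨v, hv, v1, v2, v3⟩ := nx u hu (by omega)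
    cases e : ε u
    · exact ⟨t, ht, u, hu, t1, u1, u2, by omega, by simpa [e] using u3, e⟩
    · exact ⟨u, hu, v, hv, by omega, v1, v2, by omega, e, by simpa [e] using v3⟩
  have bfin := ball_fin (1 : FreeGroup X) (L + 1)
  have blk' : ∀ i : Fin ({y : FreeGroup X | cd 1 y ≤ L + 1}.ncard + 1), _ := fun i =>
    blk (p + (i : ℕ) * (3 * L)) (by have : 0 ≤ ((i : ℕ) : ℤ) * (3 * L) := by positivity
                                    omega) (by
      have : ((i : ℕ) : ℤ) + 1 ≤ {y : FreeGroup X | cd 1 y ≤ L + 1}.ncard + 1 := by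
        exact_mod_cast i.2
      nlinarith)
  choose u hu v hv h1 h2 h3 h4 h5 h6 using blk'
  have e1 : ∀ i, k (u i) • hl a (u i) = hl a p := fun i => by rw [(hk _ (hu i)).2.1, h5]; rfl
  have e2 : ∀ i, k (v i) • hl a (v i) = (hl a p)ᶜ := fun i => by rw [(hk _ (hv i)).2.1, h6]; rfl
  have c1 : ∀ r, cd (a r) (a (r + 1)) = 1 := fun r => by rw [w.line]; simp
  have hb : ∀ i, cd 1 ((a p)⁻¹ * (k (u i) * (k (v i))⁻¹) * a p) ≤ L + 1 := fun i => by
    have a1 := e1 i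
    have a2 := e2 i
    rw [hl, hs_smul, hl] at a1
    rw [hl, hs_smul, hl, hs_compl (c1 p)] at a2
    have a3 := (hs_inj (by rw [cd_smul, c1]) (c1 p) a1).1
    have a4 := (hs_inj (by rw [cd_smul, c1]) (by rw [cd_comm, c1]) a2).2
    rw [← cd_smul (a p), mul_one, mul_assoc, mul_inv_cancel_left, mul_assoc,
      inv_mul_eq_iff_eq_mul.2 a4.symm, ← a3, cd_smul, w.line]
    have := h2 i
    have := h3 i
    exact abs_le.2 ⟨by omega, by omega⟩
  have key : ∀ i j, i < j → k (u i) * (k (v i))⁻¹ ≠ k (u j) * (k (v j))⁻¹ := fun i j l e => by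
    have l1 : v i < u j := by
      have a1 := h4 i
      have a2 := h1 j
      have : ((i : ℕ) : ℤ) + 1 ≤ (j : ℕ) := by exact_mod_cast l
      nlinarith
    have rel' : ∀ s t, ∃ β, (k s * (k t)⁻¹) • sg d (Q t) = sg β (sg d (Q s)) := fun s t => by
      obtain ⟨β, e⟩ := rel s t
      refine ⟨β, ?_⟩
      rw [← e, sg_smul, sg_smul]
      cases β <;> cases d <;> simp
    obtain ⟨β, f1⟩ := rel' (u i) (v i)
    obtain ⟨β', f2⟩ := rel' (u j) (v j)
    rw [← e] at f2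
    have e3 : (k (u i) * (k (v i))⁻¹) • (hl a p)ᶜ = k (u i) • hl a (v i) := by
      rw [← e2 i, smul_smul, inv_mul_cancel_right]
    refine no_turn (W := W) hU ?_ (hd _ (hu i) _ (hv i) (h2 i)) (hd _ (hv i) _ (hu j) l1).1
      (hd _ (hu j) _ (hv j) (h2 j)).1 f1 f2 (fun d' => ?_) fun V hV hs => ?_
    · rw [e3, ← e1 i]
      exact Set.smul_set_mono (w.line.hl_anti.2 (h2 i).le)
    · obtain ⟨t, ht, t1, t2⟩ := w.seg le_rfl hpq (d' == d)
      simp only [sg_sg]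
      have a1 := Snake_mem_sg (ag _ (hu i)) ht (d' == d)
      have a2 := Snake_mem_sg (ag _ (hv i)) ht (d' == d)
      have a3 := Snake_mem_sg (ag _ (hv j)) ht (d' == d)
      exact ⟨t, ht, a1.1 t1, a1.2 t2, a2.1 t1, a2.2 t2, a3.1 t1, a3.2 t2⟩
    · have := ((wn _ (hu i)).sub ((hJ _).1 (hu i)).1 ((hJ _).1 (hv i)).2.1 (h2 i).le).mono V hV
        (by rw [← hl_smul, ← hl_smul, e1, ← e3, smul_compl', Set.sdiff_compl]; exact hs)
      cases d
      exacts [this.compl, this]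
  have := Set.ncard_le_ncard_of_injOn (s := Set.univ) (t := {y : FreeGroup X | cd 1 y ≤ L + 1})
    (fun i => (a p)⁻¹ * (k (u i) * (k (v i))⁻¹) * a p) (fun i _ => hb i) (fun i _ j _ e => by
      have e' := mul_left_cancel (mul_right_cancel e)
      rcases lt_trichotomy i j with l | l | l
      exacts [(key i j l e').elim, l, (key j i l e'.symm).elim]) bfin
  rw [Set.ncard_univ, Nat.card_eq_fintype_card, Fintype.card_fin] at this
  omega

theorem snake (hΓ : Γ.FG) (hm : MaxS (cl W) Γ) :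
    ∃ R : ℤ, ∀ P a p q, Win W Γ P a p q → q - p ≤ R := by
  classical
  have key : ∀ n : ℕ, ∃ R : ℤ, 0 ≤ R ∧ ∀ D : Finset (Set (Set (FreeGroup X) × Set (FreeGroup X))),
      D.card ≤ n → ∀ P a p q, Win W Γ P a p q →
        (∀ r, p ≤ r → r ≤ q → Snake_cls W Γ (hl a r) P ∈ D) → q - p ≤ R := fun n => by
    induction n with
    | zero =>
      refine ⟨0, le_rfl, fun D hD P a p q w h => ?_⟩
      by_contra hn
      have := Finset.card_pos.2 ⟨_, h p le_rfl (by omega)⟩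
      omega
    | succ n ih =>
      obtain ⟨R, h0, hR⟩ := ih
      refine ⟨({y : FreeGroup X | cd 1 y ≤ R + 2 + 1}.ncard + 1) * (3 * (R + 2)), by positivity,
        fun D hD P a p q w h => (Snake_step hm (by omega) w fun r h1 h2 => ?_).le⟩
      by_contra hn
      push Not at hn
      have := hR (D.erase (Snake_cls W Γ (hl a p) P)) (by
        rw [Finset.card_erase_of_mem (h p le_rfl (by omega))]
        omega) P a (r + 1) (r + (R + 2)) (w.sub (by omega) h2 (by omega)) fun s s1 s2 =>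
          Finset.mem_erase.2 ⟨fun e => hn s (by omega) s2 (e ▸ ⟨1, Γ.one_mem, true, true,
            one_smul _ _, by rw [one_smul]; exact Snake_refl _ _⟩), h s (by omega) (by omega)⟩
      omega
  obtain ⟨D, hD⟩ := Snake_fin (W := W) hΓ
  obtain ⟨R, -, hR⟩ := key D.card
  exact ⟨R, fun P a p q w => hR D le_rfl P a p q w (hD P a p q w)⟩

end Pool.Agent.Work.MP_3bdf32_al
end

-- merged part: Pool.Agent.Work.MP_3bdf32_al.One4
section
/-! There are finitely many one sided curves in rigid vertices. -/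

namespace Pool.Agent.Work.MP_3bdf32_al

set_option linter.unusedSectionVars false
set_option linter.unusedVariables false

open Subgroup MulAction Filter
open scoped Pointwise

variable {X : Type} [Fintype X] [DecidableEq X] {W : List (FreeGroup X)}
  {Z Z' Y : Subgroup (FreeGroup X)} {A A' B C C' U : Set (FreeGroup X)} {g x y : FreeGroup X}
  {N N' : Set (Subgroup (FreeGroup X))} {V V' : Ori (FreeGroup X)}
  {Q d : Subgroup (FreeGroup X)} {D D' : Set (FreeGroup X)}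

theorem One4_lv (hD : Sat (cl W) D) (t : FreeGroup X × FreeGroup X) : t ∉ lv W D :=
  fun h => h.2.2 ((sat_iff.1 hD _ _ h.1).1 h.2.1)

theorem One4_mono (hb : Bx W) (hd : Ax d) (hD : Cut (cl W) d D) {v : FreeGroup X}
    {a : ℤ → FreeGroup X} {l p q : ℤ} (hv : v ∈ d) (ha : AxL v a l) (hU : HT U)
    (e : U ⊆ hl a p \ hl a q) : Mono U D :=
  cut_mono hb hd hD hU hv ha.ne ((ha.ev q).mono fun _ h h' => (e h').2 h)
    ((ha.ev_inv p).mono fun _ h h' => h (e h').1)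

theorem One4_pos_ne {a : ℤ → FreeGroup X} (ha : Line a) {p : ℤ} (h : Pos a y p) : y ≠ 1 := by
  rintro rfl
  obtain ⟨n, hn⟩ := (h (a (p + 1))).exists
  rw [one_pow, one_mul, ha.pr_self] at hn
  omega

theorem One4_pos_uniq {a : ℤ → FreeGroup X} {p q : ℤ} (h : Pos a y p) (h' : Pos a y q) :
    p = q := by
  obtain ⟨n, h1, h2⟩ := ((h 1).and (h' 1)).exists
  exact h1.symm.trans h2

theorem One4_pos_ends (hY : Ax Y) (e : x ∈ Y) (f : y ∈ Y) (hx : x ≠ 1) (hy : y ≠ 1)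
    {a : ℤ → FreeGroup X} {p q : ℤ} (h : Pos a x⁻¹ p) (h' : Pos a x q) :
    (Pos a y⁻¹ p ∧ Pos a y q) ∨ (Pos a y p ∧ Pos a y⁻¹ q) := by
  rcases hY.ends e f hx hy with ⟨h1, h2⟩ | ⟨h1, h2⟩
  · exact .inl ⟨(h2 {w | pr a w = p}).1 h, (h1 {w | pr a w = q}).1 h'⟩
  · exact .inr ⟨(h2 {w | pr a w = p}).1 h, (h1 {w | pr a w = q}).1 h'⟩

theorem One4_pos_conj {v : FreeGroup X} {a : ℤ → FreeGroup X} {l p : ℤ} (ha : AxL v a l)
    (h : Pos a y p) (e : ℤ) : Pos a (v ^ e * y * (v ^ e)⁻¹) (p + e * l) := by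
  have h1 : Ev {w | pr a w = p} y := h
  change Ev {w | pr a w = p + e * l} _
  refine (h1.smul' (v ^ e)).mono ?_
  rintro _ ⟨w, hw, rfl⟩
  change pr a (v ^ e * w) = _
  rw [ha.pr_zpow, show pr a w = p from hw]

theorem One4_chain {α : Type} {L : Set α} (hL : L.Finite) {k : ℕ} (hk : L.ncard ≤ k)
    (T : ℕ → Set α) (s : ∀ j, T j ⊆ L) (m : ∀ j, T j ⊆ T (j + 1)) :
    ∃ j ≤ k, T j = T (j + 1) := by
  by_contra h
  push Not at h
  have key : ∀ j ≤ k + 1, j ≤ (T j).ncard := by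
    intro j
    induction j with
    | zero => intro _; exact Nat.zero_le _
    | succ j ih =>
      intro hj
      have := Set.ncard_lt_ncard (ssubset_of_subset_of_ne (m j) (h j (by omega)))
        (hL.subset (s _))
      have := ih (by omega)
      omega
  have h1 := key (k + 1) le_rfl
  have h2 := Set.ncard_le_ncard (s (k + 1)) hL
  omega

theorem One4_slab {a : ℤ → FreeGroup X} {l : ℤ} (h : AxL y a l) (i : ℤ) (x : FreeGroup X) :
    ∃ n : ℤ, y ^ n * x ∈ hl a i \ hl a (i + l) ∧ (x ∈ hl a i → n ≤ 0) ∧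
      (x ∉ hl a (i + l) → 0 ≤ n) := by
  have hl0 := h.2.1
  have h1 := Int.ediv_mul_le (i + l - pr a x) hl0.ne'
  have h2 := Int.lt_ediv_add_one_mul_self (i + l - pr a x) hl0
  refine ⟨(i + l - pr a x) / l, ⟨?_, ?_⟩, fun hx => ?_, fun hx => ?_⟩
  · rw [h.1.mem_hl, h.pr_zpow]
    linarith
  · rw [h.1.mem_hl, h.pr_zpow]
    linarith
  · rw [h.1.mem_hl] at hx
    exact Int.lt_add_one_iff.1 (Int.ediv_lt_of_lt_mul hl0 (by linarith))
  · rw [h.1.mem_hl] at hx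
    exact Int.ediv_nonneg (by linarith) hl0.le

theorem One4_core (hb : Bx W) {k₀ : ℕ} (hk : ∀ U, HT U → (lv W U).ncard ≤ k₀)
    (o : OneS (cl W) Y) (hy : zpowers y = Y) (hy' : cen y = Y) (hd : Simp (cl W) d)
    (hD : Two (cl W) d D) {v : FreeGroup X} {a a' : ℤ → FreeGroup X} {l l' p q : ℤ} (hv : v ∈ d)
    (ha : AxL v a l) (ha' : AxL y a' l') (e₁ : Ev D y) (e₂ : Ev Dᶜ y⁻¹)
    (hq : p + (k₀ + 1) * l' < q) (e : ∀ i, p ≤ i → i ≤ q → a i = a' i) : False := by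
  have hl0 := ha'.2.1
  have hsub : y • D ⊆ D := by
    have h1 : Ev (y • D) y := e₁.smul_comm (Commute.refl y)
    have h2 : Ev (y • D)ᶜ y⁻¹ := by
      rw [← smul_compl']
      exact e₂.smul_comm (Commute.refl y).inv_right
    rcases (hd.nest hb hD y).sub (e₁.inter h1).nonempty (e₂.inter h2).nonempty with h | h
    · refine absurd (e₂.empty_of_sub ?_) hD.2.1.ne_empty
      rw [Set.smul_set_subset_iff_subset_inv_smul_set, inv_inv]
      exact h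
    · exact h
  obtain ⟨j, hj, hT⟩ := One4_chain (lv_fin W (ha'.1.ht p).clo) (hk _ (ha'.1.ht p))
    (fun j => {t | t ∈ lv W (hl a' p) ∧ y ^ j * t.1 ∈ D}) (fun _ _ h => h.1)
    fun j t h => ⟨h.1, by
      rw [pow_succ', mul_assoc]
      exact hsub (mul_mem_smul.2 h.2)⟩
  have hj' : (j : ℤ) ≤ k₀ := by exact_mod_cast hj
  have hj0 : 0 ≤ (j : ℤ) * l' := mul_nonneg (Int.natCast_nonneg j) hl0.le
  have hj1 : (j : ℤ) * l' ≤ k₀ * l' := mul_le_mul_of_nonneg_right hj' hl0.le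
  have hh : ∀ i, p ≤ i → i < q → hl a' i = hl a i := fun i h1 h2 => by
    rw [hl, hl, e i h1 h2.le, e (i + 1) (by omega) h2]
  have g1 := hh (p + j * l') (by linarith) (by linarith)
  have g2 := hh (p + j * l' + l') (by linarith) (by linarith)
  have agr : Agr W (hl a' (p + j * l' + l')) D (y • sg true D) := by
    intro t ht
    have h1 : (y ^ (j + 1))⁻¹ • hl a' (p + j * l' + l') = hl a' p := by
      rw [← zpow_natCast, ← zpow_neg, ha'.hl_zpow]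
      congr 1
      push_cast
      ring
    have h2 := (lv_smul W (y ^ (j + 1))⁻¹).2 ht
    rw [h1] at h2
    have h3 := Set.ext_iff.1 hT ((y ^ (j + 1))⁻¹ * t.1, (y ^ (j + 1))⁻¹ * t.2)
    simp only [Set.mem_ofPred, h2, true_and, mul_inv_cancel_left] at h3
    have h4 : t.1 ∈ D ↔ t.1 ∈ y • D := by
      rw [mem_smul', ← h3]
      have : y ^ j * ((y ^ (j + 1))⁻¹ * t.1) = y⁻¹ * t.1 := by group
      rw [this]
    exact ⟨h4, (sat_iff.1 hD.1.1 _ _ ht.1).symm.trans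
      (h4.trans (sat_iff.1 (hD.1.1.smul' y) _ _ ht.1))⟩
  obtain ⟨A, hA, hyA, hAD⟩ := surg_cut (i := p + j * l') ha'
    (fun t ht => (One4_lv hD.1.1 t ht).elim)
    (fun U hU h => One4_mono hb hd.1.1 hD.1 hv ha hU (by rwa [g1, g2] at h)) agr
  refine o.not_twoS ⟨A, hy' ▸ hA, ?_, ?_, fun z hz => ?_⟩
  · obtain ⟨x, hx, hx'⟩ := cut_meets hb hd.1.1 hD.1 hD.2.1 (d.inv_mem hv)
      (ha.ev_inv (p + j * l' + l'))
    obtain ⟨n, h1, -, h2⟩ := One4_slab ha' (p + j * l') x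
    lift n to ℕ using h2 (by rwa [g2])
    refine ⟨_, (hAD _ h1).2 ?_⟩
    rw [zpow_natCast]
    exact pow_mem_of_sub hsub hx n
  · obtain ⟨x, hx, hx'⟩ := cut_meets hb hd.1.1 hD.1.compl hD.2.2.1 hv (ha.ev (p + j * l'))
    obtain ⟨n, h1, h2, -⟩ := One4_slab ha' (p + j * l') x
    obtain ⟨m, rfl⟩ : ∃ m : ℕ, n = -m := ⟨(-n).toNat, by have := h2 (by rwa [g1]); omega⟩
    refine ⟨y ^ (-(m : ℤ)) * x, fun h => hx ?_⟩
    have := pow_mem_of_sub hsub ((hAD _ h1).1 h) m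
    rwa [zpow_neg, zpow_natCast, mul_inv_cancel_left] at this
  · rw [← hy] at hz
    exact (zpowers_le (H := stabilizer (FreeGroup X) A)).2 hyA hz

/-- a simple axis crossing a one sided axis has bounded overlap with it -/
theorem one_overlap (hb : Bx W) (hQ : Ax Q) (o : OneS (cl W) Q) : ∃ R : ℤ, ∀ Y ∈ orb (cl W) Q,
    ∀ d D v a l y p q, Simp (cl W) d → Two (cl W) d D → v ∈ d → AxL v a l → Sep D Y → y ∈ Y →
      Pos a y⁻¹ p → Pos a y q → q - p ≤ R := by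
  obtain ⟨k₀, hk⟩ := lv_bound W
  obtain ⟨z, hz, g1, g2⟩ := hQ.gen
  obtain ⟨a₀, l₀, h₀⟩ := ex_axis hz
  refine ⟨(k₀ + 1) * l₀, ?_⟩
  rintro _ ⟨k, rfl⟩ d D v a l y p q hd hD hv ha s hy e f
  by_contra hq
  have hl0 := h₀.2.1
  have hpos : 0 < ((k₀ : ℤ) + 1) * l₀ := by positivity
  have hc : cen (k * z * k⁻¹) = tl (cl W) k • Q := by rw [← tl_cen (H := cl W), g2]
  have hg : zpowers (k * z * k⁻¹) = tl (cl W) k • Q := by
    refine le_antisymm (zpowers_le.2 (hc ▸ self_mem_cen _)) fun w hw => ?_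
    rw [mem_tl_sub, ← g1] at hw
    obtain ⟨n, hn⟩ := mem_zpowers_iff.1 hw
    exact mem_zpowers_iff.2 ⟨n, by rw [conj_zpow, hn]; group⟩
  have hY : Ax (tl (cl W) k • Q) := hQ.smul _
  obtain ⟨w, a', w1, w2, w3, w4, w5⟩ : ∃ w a', zpowers w = tl (cl W) k • Q ∧
      cen w = tl (cl W) k • Q ∧ AxL w a' l₀ ∧ Pos a w⁻¹ p ∧ Pos a w q := by
    rcases One4_pos_ends hY hy (hc ▸ self_mem_cen _) (One4_pos_ne ha.1 f) (h₀.conj k).ne e f with
      h | h
    · exact ⟨_, _, hg, hc, h₀.conj k, h⟩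
    · exact ⟨_, _, by rw [zpowers_inv, hg], by rw [cen_inv, hc], (h₀.conj k).inv,
        by rw [inv_inv]; exact h.1, h.2⟩
  obtain ⟨c, hc'⟩ := Pos.share ha.1 w3 w4 w5 (by linarith)
  rcases s.ev hY (w2 ▸ self_mem_cen w) w3.ne with h | h
  · exact One4_core hb hk (o.smul _) w1 w2 hd hD hv ha (w3.shift c) h.1 h.2 (p := p) (q := q)
      (by linarith) hc'
  · exact One4_core hb hk (o.smul _) w1 w2 hd hD.compl hv ha (w3.shift c) h.1
      (by rw [compl_compl]; exact h.2) (p := p) (q := q) (by linarith) hc'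

/-- a maximal family of one sided curves -/
theorem ex_maxO (hb : Bx W) : ∃ N, UU (cl W) ⊆ N ∧ N ⊆ UU (cl W) ∪ OO (cl W) ∧ Fam (cl W) N ∧
    (∀ Z ∈ OO (cl W), (∀ Z' ∈ N, ¬ Crs (cl W) Z' Z) → Z ∈ N) ∧
    ∀ V, IsV (cl W) N V → ¬ Flex (cl W) (res (UU (cl W)) V) → MaxS (cl W) (GV (cl W) V) := by
  obtain ⟨N, h1, h2, h3, h4⟩ := ex_max hb (M := UU (cl W) ∪ OO (cl W)) (N₀ := UU (cl W))
    (fun Z h => h.elim (·.1) (·.1))
    (fun k Z h => h.imp (fun a => uu_smul a _) fun a => oo_smul a _) Set.subset_union_left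
    (fam_uu hb)
  exact ⟨N, h1, h2, h3, fun Z a => h4 Z (.inr a), fun V hV n => maxS hb h3 hV fun z a b c =>
    h4 _ (nonflex_tri hb (res_isV h1 hV) n (res_GV (fam_uu hb) V a) b c)
      fun Z' i => fix_nc hb h3 hV a b i⟩

theorem atom_win (hb : Bx W) (hN : Fam (cl W) N) (hV : IsV (cl W) N V) (hd : Simp (cl W) d)
    (hD : Two (cl W) d D) (a₁ : Adj V Y) (a₂ : Adj V Z) (s : Sep D Y) (s' : Sep D Z)
    {v : FreeGroup X} {a : ℤ → FreeGroup X} {l p q : ℤ} (hv : v ∈ d) (ha : AxL v a l)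
    (e : ∀ y ∈ Y, y ≠ 1 → Ev (hl a p)ᶜ y) (e' : ∀ y ∈ Z, y ≠ 1 → Ev (hl a q) y) :
    Win W (GV (cl W) V) D a p q := by
  have key : ∀ {Y : Subgroup (FreeGroup X)} {U : Set (FreeGroup X)}, Adj V Y → Sep D Y →
      (∀ y ∈ Y, y ≠ 1 → Ev U y) → Spl (GV (cl W) V) D U := by
    rintro Y U b ⟨y, h1, h2, h3, h4⟩ h
    obtain ⟨m, hm, i⟩ := adj_pow hb hN hV b h1
    have h5 : y ^ m ≠ 1 := fun j => h2 (root_uniq hm (j.trans (one_pow m).symm))
    refine ⟨_, i, _, inv_mem i, h5, inv_ne_one.2 h5, ((h y h1 h2).inter h3).pow hm, ?_⟩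
    rw [← inv_pow]
    exact ((h _ (Y.inv_mem h1) (inv_ne_one.2 h2)).inter h4).pow hm
  refine ⟨ha.1, fun i h1 h2 => ⟨key a₂ s' fun y a b => (e' y a b).mono (ha.1.hl_anti.2 h2),
    key a₁ s fun y a b => (e y a b).mono (Set.compl_subset_compl.2 (ha.1.hl_anti.2 h1))⟩,
    fun t ht => (One4_lv hD.1.1 t ht).elim, fun i _ _ =>
      ⟨cut_lv hb hd.1.1 hD.1 hD.2.1 (ha.1.ht i) hv ha.ne (ha.ev i) (ha.ev_inv i),
       cut_lv hb hd.1.1 hD.1.compl hD.2.2.1 (ha.1.ht i) hv ha.ne (ha.ev i) (ha.ev_inv i)⟩,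
    fun U hU h => One4_mono hb hd.1.1 hD.1 hv ha hU h, fun k _ => hd.nest hb hD k,
    fun k hk n => ?_⟩
  rw [← not_or]
  exact fun h => n (arc_free hb hN hV hd.1.1 hD a₁ s
    (cut_stab hb hd.1.1 hD.1 hD.2.1 hD.2.2.1 h) hk)

theorem One4_bound {ι : Type} (S : Finset ι) (P : ι → ℤ → Prop)
    (m : ∀ i R R', R ≤ R' → P i R → P i R') (h : ∀ i ∈ S, ∃ R, P i R) :
    ∃ R, 0 ≤ R ∧ ∀ i ∈ S, P i R := by
  choose! R hR using h
  exact ⟨∑ i ∈ S, |R i|, Finset.sum_nonneg fun _ _ => abs_nonneg _, fun i hi => m i _ _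
    ((le_abs_self _).trans (Finset.single_le_sum (f := fun i => |R i|)
      (fun _ _ => abs_nonneg _) hi)) (hR i hi)⟩

theorem One4_pig {α β γ : Type} (S : Finset β) (c : α → β → Prop) (hc : ∀ t, ∃ b ∈ S, c t b)
    (U : α → Set γ) (lo : α → ℤ) {B : ℤ} (hB : 0 ≤ B)
    (step : ∀ t, ∃ t', U t' ⊂ U t ∧ lo t' ≤ lo t + B) (t₀ : α) :
    ∃ t t', ∃ b ∈ S, c t b ∧ c t' b ∧ U t' ⊂ U t ∧ lo t' ≤ lo t + S.card * B := by
  choose F hF using step
  choose φ hφ using hc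
  have key : ∀ i m, U (F^[i + m + 1] t₀) ⊂ U (F^[i] t₀) ∧
      lo (F^[i + m + 1] t₀) ≤ lo (F^[i] t₀) + (m + 1 : ℕ) * B := by
    intro i m
    induction m with
    | zero =>
      rw [add_zero, Function.iterate_succ_apply']
      simpa using hF _
    | succ m ih =>
      rw [← add_assoc, Function.iterate_succ_apply']
      refine ⟨(hF _).1.trans ih.1, (hF _).2.trans ?_⟩
      have := ih.2
      push_cast at this ⊢
      linarith
  have fin : ∀ i j, i < j → j ≤ S.card → φ (F^[i] t₀) = φ (F^[j] t₀) →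
      ∃ t t', ∃ b ∈ S, c t b ∧ c t' b ∧ U t' ⊂ U t ∧ lo t' ≤ lo t + S.card * B := by
    intro i j hij hj e
    obtain ⟨m, rfl⟩ := Nat.exists_eq_add_of_lt hij
    refine ⟨_, _, _, (hφ _).1, (hφ _).2, e ▸ (hφ _).2, (key i m).1, (key i m).2.trans ?_⟩
    have : ((m + 1 : ℕ) : ℤ) ≤ S.card := by exact_mod_cast (by omega : m + 1 ≤ S.card)
    have := mul_le_mul_of_nonneg_right this hB
    linarith
  obtain ⟨i, hi, j, hj, n, e⟩ := Finset.exists_ne_map_eq_of_card_lt_of_maps_to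
    (s := Finset.range (S.card + 1)) (t := S) (by simp) (f := fun n => φ (F^[n] t₀))
    fun _ _ => (hφ _).1
  rw [Finset.mem_range] at hi hj
  rcases lt_or_gt_of_ne n with h | h
  · exact fin i j h (by omega) e
  · exact fin j i h (by omega) e.symm

theorem One4_gap (hb : Bx W) (hN : Fam (cl W) N) (hM : ∀ V, IsV (cl W) N V →
      ¬ Flex (cl W) (res (UU (cl W)) V) → MaxS (cl W) (GV (cl W) V)) :
    ∃ R, 0 ≤ R ∧ ∀ V d D Y Z v a l p q, IsV (cl W) N V → ¬ Flex (cl W) (res (UU (cl W)) V) →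
      Simp (cl W) d → Two (cl W) d D → Adj V Y → Adj V Z → Sep D Y → Sep D Z → v ∈ d →
      AxL v a l → (∀ y ∈ Y, y ≠ 1 → Ev (hl a p)ᶜ y) → (∀ y ∈ Z, y ≠ 1 → Ev (hl a q) y) →
      q - p ≤ R := by
  obtain ⟨S, hS, hS'⟩ := vert_fin hb hN
  obtain ⟨R, h0, hR⟩ := One4_bound S (fun V R => ¬ Flex (cl W) (res (UU (cl W)) V) →
    ∀ P a p q, Win W (GV (cl W) V) P a p q → q - p ≤ R)
    (fun _ _ _ h f n P a p q w => (f n P a p q w).trans h) fun V hV => by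
      by_cases n : Flex (cl W) (res (UU (cl W)) V)
      · exact ⟨0, fun n' => (n' n).elim⟩
      · exact (snake (GV_fg hb hN (hS V hV)) (hM V (hS V hV) n)).imp fun _ h _ => h
  refine ⟨R, h0, fun V d D Y Z v a l p q hV n hd hD a₁ a₂ s s' hv ha e e' => ?_⟩
  obtain ⟨k, V₀, h₀, hk⟩ := hS' V hV
  have hk' : tl (cl W) k⁻¹ • V = V₀ := by rw [hk, map_inv, inv_smul_smul]
  have key : ∀ {Y : Subgroup (FreeGroup X)} {U : Set (FreeGroup X)}, (∀ y ∈ Y, y ≠ 1 → Ev U y) →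
      ∀ y ∈ tl (cl W) k⁻¹ • Y, y ≠ 1 → Ev (k⁻¹ • U) y := by
    intro Y U h y hy n
    have := (h _ (mem_tl_sub.1 hy) (by simpa using n)).smul' k⁻¹
    simpa [mul_assoc] using this
  refine hR V₀ h₀ (fun f => n ?_) (k⁻¹ • D) (fun i => k⁻¹ * a i) p q
    (atom_win hb hN (hS V₀ h₀) (hd.smul (tl (cl W) k⁻¹)) (hD.smul' k⁻¹) (hk' ▸ a₁.smul _)
      (hk' ▸ a₂.smul _) (s.smul (tl (cl W) k⁻¹)) (s'.smul (tl (cl W) k⁻¹))
      (mem_tl_sub.2 (by simpa [mul_assoc] using hv)) (ha.conj k⁻¹) ?_ ?_)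
  · rw [hk, ← res_smul (pres_uu _)]
    exact f.smul _
  · rw [← hl_smul, ← smul_compl']
    exact key e
  · rw [← hl_smul]
    exact key e'

/-- the state of the walk along a one sided curve -/
def One4_St (W : List (FreeGroup X)) (N : Set (Subgroup (FreeGroup X)))
    (d : Subgroup (FreeGroup X)) (D : Set (FreeGroup X)) (v : FreeGroup X)
    (a : ℤ → FreeGroup X) (t : Subgroup (FreeGroup X) × Set (FreeGroup X) × ℤ) : Prop :=
  t.1 ∈ N ∧ t.1 ∈ OO (cl W) ∧ Crs (cl W) t.1 d ∧ Sep D t.1 ∧ Two (cl W) t.1 t.2.1 ∧ Ev t.2.1 v ∧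
    Ev t.2.1ᶜ v⁻¹ ∧ ∃ y ∈ t.1, ∃ hi, t.2.2 ≤ hi ∧ Pos a y⁻¹ t.2.2 ∧ Pos a y hi

theorem One4_init (hb : Bx W) (hN : Fam (cl W) N) (h2 : N ⊆ UU (cl W) ∪ OO (cl W))
    (hd : d ∈ OO (cl W)) (hD : Two (cl W) d D) {v : FreeGroup X} {a : ℤ → FreeGroup X} {l : ℤ}
    (hv : v ∈ d) (ha : AxL v a l) (hY : Y ∈ N) (s : Sep D Y) :
    ∃ U lo, One4_St W N d D v a (Y, U, lo) := by
  have hYa := (hN.sp Y hY).1
  have hda := hd.1.1.1
  have c := crs_of_sep hb hda hYa hD.1 s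
  have c' := c.symm hb hda (hN.sp Y hY)
  have hO : Y ∈ OO (cl W) := (h2 hY).resolve_left fun h => (oo_nc hb hd h).1 c'
  obtain ⟨U, hU, u1, u2⟩ : ∃ U, Two (cl W) Y U ∧ Ev U v ∧ Ev Uᶜ v⁻¹ := by
    obtain ⟨A, hA, sA⟩ := crs_two' hb hYa hd.1.1 c'
    rcases sA.ev hda hv ha.ne with h | h
    · exact ⟨A, hA, h⟩
    · exact ⟨Aᶜ, hA.compl, h.1, by rw [compl_compl]; exact h.2⟩
  have nc : ∀ y ∈ Y, y ≠ 1 → ∃ p, Pos a y p := fun y hy n => ha.pos fun h =>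
    c.not_mem hda hYa hy n (hda.eq_cen hv ha.ne ▸ mem_cen.2 h.symm)
  obtain ⟨y, hy, n, -⟩ := id s
  obtain ⟨p, hp⟩ := nc y hy n
  obtain ⟨q, hq⟩ := nc _ (Y.inv_mem hy) (inv_ne_one.2 n)
  rcases le_total q p with h | h
  · exact ⟨U, q, hY, hO, c', s, hU, u1, u2, y, hy, p, h, hq, hp⟩
  · exact ⟨U, p, hY, hO, c', s, hU, u1, u2, _, Y.inv_mem hy, q, h, by rwa [inv_inv], hq⟩

theorem one_fin (hb : Bx W) : ∃ S : Finset (Subgroup (FreeGroup X)),
    ∀ Z ∈ OO (cl W), ∃ Z₀ ∈ S, Ax Z₀ ∧ Z ∈ orb (cl W) Z₀ := by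
  classical
  obtain ⟨N, h1, h2, hN, hmax, hM⟩ := ex_maxO hb
  obtain ⟨n₀, hn⟩ := acc hb
  obtain ⟨S₀, s1, -, s2⟩ := hn N hN
  obtain ⟨R, r0, hR⟩ := One4_gap hb hN hM
  obtain ⟨R₁, r1, hR₁⟩ := One4_bound S₀ (fun Q R => Q ∈ OO (cl W) → ∀ Y ∈ orb (cl W) Q,
    ∀ d D v a l y p q, Simp (cl W) d → Two (cl W) d D → v ∈ d → AxL v a l → Sep D Y → y ∈ Y →
      Pos a y⁻¹ p → Pos a y q → q - p ≤ R)
    (fun _ _ _ h f o Y hY d D v a l y p q b c e g i j k m =>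
      (f o Y hY d D v a l y p q b c e g i j k m).trans h) fun Q hQ => by
      by_cases o : Q ∈ OO (cl W)
      · exact (one_overlap hb o.1.1.1 (oo_oneS hb o)).imp fun _ h _ => h
      · exact ⟨0, fun o' => (o o').elim⟩
  have ob : ∀ {Y Q}, Y ∈ OO (cl W) → Y ∈ orb (cl W) Q → Q ∈ OO (cl W) := by
    rintro _ Q h ⟨k, rfl⟩
    simpa using oo_smul h (tl (cl W) k)⁻¹
  obtain ⟨S₁, hS₁⟩ := conj_fin (X := X) (S₀.card * (R₁ + R + 1))
  refine ⟨S₀ ∪ S₁.image cen, fun d hd => ?_⟩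
  by_cases hdN : d ∈ N
  · obtain ⟨Q, hQ, e⟩ := s2 d hdN
    exact ⟨Q, Finset.mem_union_left _ hQ, (hN.sp Q (s1 hQ)).1, e⟩
  have hda := hd.1.1.1
  obtain ⟨v, hv1, g1, g2⟩ := hda.gen
  have hv : v ∈ d := g2 ▸ self_mem_cen v
  obtain ⟨a, l, ha⟩ := ex_axis hv1
  suffices hl : l ≤ S₀.card * (R₁ + R + 1) by
    obtain ⟨k, s, hs, rfl⟩ := hS₁ v a l ha hl
    exact ⟨cen s, Finset.mem_union_right _ (Finset.mem_image_of_mem _ hs),
      ax_cen (by rintro rfl; simp at hv1), k, by rw [tl_cen, g2]⟩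
  obtain ⟨Y₀, hY₀, c₀⟩ : ∃ Y ∈ N, Crs (cl W) Y d := by
    by_contra h
    exact hdN (hmax d hd fun Y hY c => h ⟨Y, hY, c⟩)
  obtain ⟨D, hD, s₀⟩ := crs_two hb (hN.sp _ hY₀).1 hd.1.1 c₀
  obtain ⟨U₀, lo₀, t₀⟩ := One4_init hb hN h2 hd hD hv ha hY₀ s₀
  have step : ∀ t : {t // One4_St W N d D v a t}, ∃ t' : {t // One4_St W N d D v a t},
      t'.1.2.1 ⊂ t.1.2.1 ∧ t'.1.2.2 ≤ t.1.2.2 + (R₁ + R + 1) := by
    rintro ⟨⟨Y, U, lo⟩, hY, hO, c, s, hU, u1, u2, y, hy, hi, le, p1, p2⟩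
    dsimp only at hY hO c s hU u1 u2 hy le p1 ⊢
    have hC : IsAt (cl W) Y U := hU.isAt.2 (.inl rfl)
    have hV := vz_isV hb hN hY hC
    have a₁ := vz_adj hb hN hY hC
    obtain ⟨Y', a₂, ne, s', -⟩ := arc_two hb hN hV hda hD a₁ s
    have hY' := hV.mem a₂.1
    obtain ⟨U', lo', t'⟩ := One4_init hb hN h2 hd hD hv ha hY' s'
    refine ⟨⟨_, t'⟩, ?_⟩
    obtain ⟨-, -, -, -, hU', u1', u2', y', hy', hi', le', p1', p2'⟩ := t'
    dsimp only at hU' u1' u2' hy' le' p1' ⊢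
    have hYa := (hN.sp _ hY).1
    have hYa' := (hN.sp _ hY').1
    have dj := adj_disj hb hN hV a₁ a₂ ne.symm
    rw [vz_self] at dj
    refine ⟨ssubset_of_subset_of_ne ?_ ?_, ?_⟩
    · rcases hU'.isAt.1 (hV.isAt _ hY') with h | h <;> rw [h] at dj
      · exact ((u2.mono dj).not_compl u2').elim
      · exact Set.compl_subset_compl.1 dj
    · rintro rfl
      rcases cut_two_axes hb hYa hYa' ne.symm hU.1 hU'.1 with h | h
      · exact hU.2.1.ne_empty h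
      · simpa [h] using hU.2.2.1
    · obtain ⟨-, nU, V₁, v1, v2, g, i1, i2, i3⟩ := id hO
      have := fix_uniq hb (fam_uu hb) v1 (res_isV h1 hV) i3
        (adj_le_res hb hN (fam_uu hb) h1 hV a₁ nU i1) i2 (by rwa [hYa.eq_cen i1 i2])
      have e1 := hR _ d D Y Y' v a l hi (lo' - 1) hV (this ▸ v2) hd.1 hD a₁ a₂ s s' hv ha
        (fun w hw n => by
          rcases One4_pos_ends hYa hy hw (One4_pos_ne ha.1 p2) n p1 p2 with h | h
          · exact (h.2.ev ha.1 _).2.2 le_rfl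
          · exact (h.1.ev ha.1 _).2.2 le)
        fun w hw n => by
          rcases One4_pos_ends hYa' hy' hw (One4_pos_ne ha.1 p2') n p1' p2' with h | h
          · exact (h.2.ev ha.1 _).1.2 (by omega)
          · exact (h.1.ev ha.1 _).1.2 (by omega)
      obtain ⟨Q, hQ, e⟩ := s2 Y hY
      have e2 := hR₁ Q hQ (ob hO e) Y e d D v a l y lo hi hd.1 hD hv ha s hy p1 p2
      omega
  obtain ⟨⟨⟨Y, U, lo⟩, hY, hO, c, s, hU, u1, u2, y, hy, hi, le, p1, p2⟩,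
    ⟨⟨Y', U', lo'⟩, hY', hO', c', s', hU', u1', u2', y', hy', hi', le', p1', p2'⟩,
    Q, hQ, o, o', lt, bd⟩ := One4_pig S₀ (fun (t : {t // One4_St W N d D v a t}) Q =>
      t.1.1 ∈ orb (cl W) Q) (fun t => s2 _ t.2.1) (fun t => t.1.2.1) (fun t => t.1.2.2)
      (by omega) step ⟨_, t₀⟩
  dsimp only at hY hO c s hU u1 u2 hy le p1 hY' hO' c' s' hU' u1' u2' hy' le' p1' o o' lt bd
  obtain ⟨w, hw, rfl⟩ := one_cross hb (ob hO o) hd o o' c c'
  rw [← g1] at hw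
  obtain ⟨e, rfl⟩ := mem_zpowers_iff.1 hw
  have hU₁ := hU.smul' (v ^ e)
  have eU : v ^ e • U = U' := (hU'.eq hU₁.1 hU₁.2.1 hU₁.2.2.1).resolve_right fun h =>
    u1'.not_compl (h ▸ u1.smul_comm ((Commute.refl v).zpow_left e))
  have he : 0 < e := by
    by_contra h
    obtain ⟨m, rfl⟩ : ∃ m : ℕ, e = -m := ⟨(-e).toNat, by omega⟩
    rcases m.eq_zero_or_pos with rfl | hm
    · exact lt.ne (by simpa using eU.symm)
    · refine hU.2.1.ne_empty ((u2.pow hm).empty_of_sub ?_)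
      rw [inv_pow, ← zpow_natCast, ← zpow_neg, eU]
      exact lt.subset
  have q2 := One4_pos_conj ha p2 e
  have q1 := One4_pos_conj ha p1 e
  rw [show v ^ e * y⁻¹ * (v ^ e)⁻¹ = (v ^ e * y * (v ^ e)⁻¹)⁻¹ by group] at q1
  have hl0 := ha.2.1
  have : l ≤ e * l := le_mul_of_one_le_left hl0.le he
  rcases One4_pos_ends (hN.sp _ hY').1 (mem_tl_sub.2 (by simpa [mul_assoc] using hy)) hy'
    (One4_pos_ne ha.1 q2) (One4_pos_ne ha.1 p2') q1 q2 with h | h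
  · have := One4_pos_uniq h.1 p1'
    linarith
  · have := One4_pos_uniq h.2 p1'
    linarith

end Pool.Agent.Work.MP_3bdf32_al
end

-- merged part: Pool.Agent.Work.MP_3bdf32_al.Rig1
section
/-! Images of half trees: bounded active part and bounded multiplicity. -/

namespace Pool.Agent.Work.MP_3bdf32_al

set_option linter.unusedSectionVars false
set_option linter.unusedVariables false

open Subgroup MulAction Filter
open scoped Pointwise

variable {X : Type} [Fintype X] [DecidableEq X] {W : List (FreeGroup X)}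
  {Z Z' Y : Subgroup (FreeGroup X)} {A A' B C C' U : Set (FreeGroup X)} {g x y : FreeGroup X}
  {N N' : Set (Subgroup (FreeGroup X))} {V V' : Ori (FreeGroup X)}
  {Γ : Subgroup (FreeGroup X)}

theorem Rig1_tl {H : Subgroup (FreeGroup X)} (γ : Hol H) (k : FreeGroup X)
    (U : Set (FreeGroup X)) : k • γ • U = γ • (lin H γ⁻¹ k • U) := by
  have := smul_tl γ (lin H γ⁻¹ k) U
  rw [lin_lin_inv] at this
  exact this.symm

theorem Rig1_nest {H : Subgroup (FreeGroup X)} (γ : Hol H) (hU : HT U) (k : FreeGroup X) :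
    Nest (γ • U) (k • γ • U) := by
  rw [Rig1_tl]
  exact (hU.nest (hU.smul _)).smul γ

theorem Rig1_free {H : Subgroup (FreeGroup X)} (γ : Hol H) (hU : HT U) {k : FreeGroup X}
    (hk : k ≠ 1) : k • γ • U ≠ γ • U ∧ k • γ • U ≠ (γ • U)ᶜ := by
  rw [Rig1_tl, ← smul_compl]
  have := hU.free (lin_ne (γ := γ⁻¹) hk)
  exact ⟨fun e => this.1 (smul_left_cancel γ e), fun e => this.2 (smul_left_cancel γ e)⟩

theorem Rig1_sg (γ : Hol (cl W)) (h : Sg W x y) : Sg W (γ • x) (γ • y) := by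
  obtain ⟨φ, hW, hφ⟩ := smul_mul_right γ
  obtain ⟨w, hw, rfl | rfl⟩ := h
  · exact ⟨w, hw, .inl (by rw [hφ, hW w (mem_cl hw)])⟩
  · exact ⟨w, hw, .inr (by rw [hφ, hW w (mem_cl hw)])⟩

theorem Rig1_lv (γ : Hol (cl W)) (hU : HT U) : (lv W (γ • U)).ncard ≤ (lv W U).ncard := by
  refine Set.ncard_le_ncard_of_injOn (fun t => (γ⁻¹ • t.1, γ⁻¹ • t.2)) ?_ ?_ (lv_fin W hU.clo)
  · rintro t ⟨a, b, c⟩
    exact ⟨Rig1_sg γ⁻¹ a, Set.mem_smul_set_iff_inv_smul_mem.1 b,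
      fun e => c (Set.mem_smul_set_iff_inv_smul_mem.2 e)⟩
  · intro t _ t' _ e
    simp only [Prod.mk.injEq, smul_left_cancel_iff] at e
    exact Prod.ext e.1 e.2

theorem Rig1_spl {P U' : Set (FreeGroup X)} (h : Spl Γ P U) (e : U ⊆ U') : Spl Γ P U' := by
  obtain ⟨g, a, g', b, c, d, f, i⟩ := h
  exact ⟨g, a, g', b, c, d, f.mono (Set.inter_subset_inter_left _ e),
    i.mono (Set.inter_subset_inter_left _ e)⟩

theorem Rig1_ne {P : Set (FreeGroup X)} (h : Spl Γ P U) :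
    (U ∩ P).Nonempty ∧ (U ∩ Pᶜ).Nonempty := by
  obtain ⟨g, a, g', b, c, d, f, i⟩ := h
  exact ⟨f.nonempty, i.nonempty⟩

/-- a long line along which `B` splits the ends on both sides contains a long window -/
theorem Rig1_win (hb : Bx W) (hB : Clo B) (c : Conn W B) (c' : Conn W Bᶜ)
    (ne : ∀ k ∈ Γ, Nest B (k • B)) (fr : ∀ k ∈ Γ, k ≠ 1 → k • B ≠ B ∧ k • B ≠ Bᶜ)
    {a : ℤ → FreeGroup X} (ha : Line a) {k₀ : ℕ} (hk : (lv W B).ncard ≤ k₀) {r₀ R : ℤ}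
    (h₀ : 0 ≤ r₀) (hR : 0 ≤ R) (hr : ∀ x y, Sg W x y → cd x y ≤ r₀)
    (s : ∀ i, 0 ≤ i → i < (k₀ + 1) * (R + 2 + 2 * r₀) → Spl Γ B (hl a i) ∧ Spl Γ B (hl a i)ᶜ) :
    ∃ p q, Win W Γ B a p q ∧ R < q - p := by
  classical
  set L := R + 2 + 2 * r₀ with hL
  have L0 : 0 < L := by omega
  have fin := lv_fin W hB
  obtain ⟨j, hj, hj'⟩ : ∃ j ∈ Finset.Ico (0 : ℤ) (k₀ + 1),
      j ∉ fin.toFinset.image fun t => pr a t.1 / L := by
    refine Finset.exists_mem_notMem_of_card_lt_card ?_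
    have h1 := Finset.card_image_le (s := fin.toFinset) (f := fun t => pr a t.1 / L)
    rw [← Set.ncard_eq_toFinset_card _ fin] at h1
    have h2 : (Finset.Ico (0 : ℤ) (k₀ + 1)).card = k₀ + 1 := by
      rw [Int.card_Ico]; omega
    omega
  rw [Finset.mem_Ico] at hj
  have j0 : 0 ≤ j * L := mul_nonneg hj.1 L0.le
  have j1 : j * L + L ≤ (k₀ + 1) * L := by nlinarith [hj.2]
  have wf : ∀ t ∈ lv W B, (t.1 ∉ hl a (j * L + r₀) ∧ t.2 ∉ hl a (j * L + r₀)) ∨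
      (t.1 ∈ hl a (j * L + L - 1 - r₀) ∧ t.2 ∈ hl a (j * L + L - 1 - r₀)) := by
    intro t ht
    have e1 : pr a t.1 / L ≠ j := fun e =>
      hj' (Finset.mem_image.2 ⟨t, fin.mem_toFinset.2 ht, e⟩)
    have e2 := (ha.pr_lip t.1 t.2).trans (hr _ _ ht.1)
    rw [abs_le] at e2
    simp only [ha.mem_hl]
    rcases lt_or_gt_of_ne e1 with e | e
    · have := (Int.ediv_lt_iff_lt_mul L0).1 e
      left; omega
    · have := (Int.le_ediv_iff_mul_le L0).1 (show j + 1 ≤ pr a t.1 / L from e)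
      rw [add_mul, one_mul] at this
      right; omega
  refine ⟨j * L + r₀, j * L + L - 1 - r₀, ⟨ha, fun i e f => s i (by omega) (by omega), wf,
    fun i e f => ?_, fun U hU e => ?_, ne, fr⟩, by omega⟩
  · obtain ⟨s₁, s₂⟩ := s i (by omega) (by omega)
    obtain ⟨n₁, n₂⟩ := Rig1_ne s₁
    obtain ⟨n₃, n₄⟩ := Rig1_ne s₂
    constructor
    · obtain ⟨u, hu, v, hv, e⟩ := c _ (ha.ht i).clo (Set.inter_comm _ _ ▸ n₁)
        (Set.inter_comm _ _ ▸ n₃)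
      exact ⟨(u, v), ⟨e, hu.2, hv.2⟩, hu.1⟩
    · obtain ⟨u, hu, v, hv, e⟩ := c' _ (ha.ht i).clo (Set.inter_comm _ _ ▸ n₂)
        (Set.inter_comm _ _ ▸ n₄)
      exact ⟨(u, v), ⟨e, hu.2, hv.2⟩, hu.1⟩
  · by_contra n
    rw [Mono, not_or, Set.not_subset, Set.not_subset] at n
    obtain ⟨⟨u, a₁, a₂⟩, v, b₁, b₂⟩ := n
    obtain ⟨u', hu, v', hv, f⟩ := hb.bond U hU B hB ⟨v, b₁, not_not.1 b₂⟩ ⟨u, a₁, a₂⟩
    rcases wf (u', v') ⟨f, hu.2, hv.2⟩ with h | h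
    · exact h.1 (e hu.1).1
    · exact (e hu.1).2 h.1

theorem Rig1_pr_ge {a : ℤ → FreeGroup X} (ha : Line a) {n : ℤ} {w : FreeGroup X} (hn : 0 < n)
    (e : cd w (a 0) = cd w (a n) + n) : n ≤ pr a w := by
  rw [ha.cd_pr w 0, ha.cd_pr w n] at e
  rcases abs_cases (0 - pr a w) with h | h <;> rcases abs_cases (n - pr a w) with h' | h' <;> omega

theorem Rig1_pr_le {a : ℤ → FreeGroup X} (ha : Line a) {n : ℤ} {w : FreeGroup X} (hn : 0 < n)
    (e : cd w (a n) = cd w (a 0) + n) : pr a w ≤ 0 := by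
  rw [ha.cd_pr w 0, ha.cd_pr w n] at e
  rcases abs_cases (0 - pr a w) with h | h <;> rcases abs_cases (n - pr a w) with h' | h' <;> omega

theorem clo_win (hb : Bx W) (hΓ : Γ.FG) (hm : MaxS (cl W) Γ) : ∃ r : ℤ, ∀ (θ : StabH (cl W)) U,
    HT U → ∃ o, ∀ x y, cd x y = 1 → o ∉ hs x y → r ≤ cd o x →
      ¬ Spl Γ (au (cl W) θ • U) (hs x y) := by
  obtain ⟨R, hR⟩ := snake hΓ hm
  obtain ⟨k₀, hk⟩ := lv_bound W
  obtain ⟨r₀, hr⟩ := sg_bound W
  have pos : 0 < ((k₀ : ℤ) + 1) * (max R 0 + 2 + 2 * max r₀ 0) := by positivity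
  refine ⟨(k₀ + 1) * (max R 0 + 2 + 2 * max r₀ 0), fun θ U hU => ?_⟩
  set γ := au (cl W) θ
  have hB : Clo (γ • U) := hU.clo.smul γ
  by_cases ex : ∃ d : ℤ, ∃ x y, cd x y = 1 ∧ 1 ∉ hs x y ∧ Spl Γ (γ • U) (hs x y) ∧ cd 1 x = d
  swap
  · exact ⟨1, fun x y a b _ s => ex ⟨_, x, y, a, b, s, rfl⟩⟩
  obtain ⟨r₁, hr₁⟩ := hB.far 1
  obtain ⟨d, ⟨x₀, y₀, a₀, b₀, s₀, rfl⟩, mx⟩ := Int.exists_greatest_of_bdd ⟨r₁, by
    rintro d ⟨x, y, a, b, s, rfl⟩
    by_contra n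
    obtain ⟨⟨u, u₁, u₂⟩, v, v₁, v₂⟩ := Rig1_ne s
    exact v₂ (((hr₁ x y a b (not_le.1 n).le).iff u₁ v₁).1 u₂)⟩ ex
  refine ⟨y₀, fun x y a b far s => ?_⟩
  have ht : HT (hs x y) := ⟨x, y, a, rfl⟩
  have ht₀ : HT (hs x₀ y₀) := ⟨x₀, y₀, a₀, rfl⟩
  have a₀' : cd y₀ x₀ = 1 := by rw [cd_comm]; exact a₀
  have nx : x ∉ hs x₀ y₀ := by
    intro e
    have n₀ : x₀ ∉ hs x y := by
      intro f
      have := (hs_inj a a₀' (ht.edge a₀' b f)).1
      rw [this, cd_self] at far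
      omega
    have sub := hs_sub a₀ a e n₀
    have h1 := mx _ ⟨x, y, a, fun f => b₀ (sub f), s, rfl⟩
    have h2 := hs_cross a₀ b₀ e
    have h3 := cd_nonneg y₀ x
    omega
  have ny : y ∉ hs x₀ y₀ := fun e => b (ht₀.edge a nx e ▸ right_mem_hs a₀)
  obtain ⟨t, -⟩ := cd_one_iff.1 a
  have : Nonempty X := ⟨t.1⟩
  obtain ⟨l, hl', l0, ln⟩ := ex_line y₀ y
  have e1 := hs_cross a b (right_mem_hs a)
  have e2 := hs_cross a₀ ny (right_mem_hs a₀)
  rw [cd_self] at e1 e2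
  have n0 : 0 < cd y₀ y := by omega
  obtain ⟨p, q, w, lt⟩ := Rig1_win (Γ := Γ) hb hB ((hb.bond U hU).smul γ)
    (by rw [← smul_compl]; exact (hb.bond _ hU.compl).smul γ) (fun k _ => Rig1_nest γ hU k)
    (fun k _ e => Rig1_free γ hU e) hl' ((Rig1_lv γ hU).trans (hk U hU)) (le_max_right r₀ 0)
    (le_max_right R 0) (fun x y e => (hr x y e).trans (le_max_left _ _)) (fun i i0 i1 => by
      refine ⟨Rig1_spl s fun w hw => ?_, Rig1_spl s₀ fun w hw => ?_⟩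
      · have h1 := hs_cross a b hw
        have h2 := Rig1_pr_ge hl' (w := w) n0 (by
          rw [l0, ln, cd_comm w y₀, cd_comm w y]; omega)
        rw [hl'.mem_hl]; omega
      · have h1 := hs_cross a₀ ny hw
        have h2 := Rig1_pr_le hl' (w := w) n0 (by
          rw [l0, ln, cd_comm w y₀, cd_comm w y, cd_comm y₀ y]; omega)
        rw [Set.mem_compl_iff, hl'.mem_hl]; omega)
  have := hR _ _ _ _ w
  have := le_max_left R 0
  omega

theorem Rig1_inf (h : Ev A g) (f : g ≠ 1) : A.Infinite := by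
  have inj : Function.Injective fun n : ℕ => g ^ n * 1 := by
    intro n m e
    simp only [mul_one] at e
    by_contra ne
    refine f (zpow_eq_one (n := (n : ℤ) - m) (by omega) ?_)
    rw [zpow_sub, zpow_natCast, zpow_natCast, e, mul_inv_cancel]
  have := Set.Infinite.image inj.injOn (Nat.frequently_atTop_iff_infinite.1 (h 1).frequently)
  refine this.mono ?_
  rintro _ ⟨n, a, rfl⟩
  exact a

/-- the far side of an adjacent axis with both ends in `S` lies in `S` -/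
theorem Rig1_far {S : Set (FreeGroup X)} (hb : Bx W) (hN : Fam (cl W) N) (hV : IsV (cl W) N V)
    (a : Adj V Z) (hS : Clo S) (c : Conn W Sᶜ) {z : FreeGroup X} (hz : z ∈ Z) (nz : z ≠ 1)
    (e : Ev S z) (e' : Ev S z⁻¹) (hg : g ∈ GV (cl W) V) (ng : g ≠ 1) (f : Ev Sᶜ g) :
    (V.s Z)ᶜ ⊆ S := by
  have hZ := hV.mem a.1
  have ax := (hN.sp Z hZ).1
  have cut := (hV.cut hb hN hZ).compl
  have gZ : g ∉ Z := by
    intro i
    rcases ax.ends i hz ng nz with h | h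
    · exact Ev.not_compl ((h.1 S).2 e) f
    · exact Ev.not_compl ((h.1 S).2 e') f
  have cP : Clo (Sᶜ ∩ (V.s Z)ᶜ) := fun s => by
    refine ((hS s).union (ev_fin ax cut hz nz e e' s)).subset fun x hx => ?_
    simp only [db, Set.mem_ofPred_eq, Set.mem_inter_iff, Set.mem_union, Set.mem_compl_iff]
      at hx ⊢
    (clear * - hx; tauto)
  intro x hx
  by_contra n
  obtain ⟨y, y₁, y₂⟩ := (f.inter (fix_end hb hN hV hg hZ gZ)).nonempty
  obtain ⟨u, hu, v, hv, i⟩ := c _ cP ⟨x, n, n, hx⟩ ⟨y, y₁, fun j => j.2 y₂⟩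
  exact hv.2 ⟨hv.1, (sat_iff.1 cut.1 u v i).1 hu.2.2⟩

theorem Rig1_shift {H : Subgroup (FreeGroup X)} {h₀ : FreeGroup X} (e : h₀ ∈ H)
    (i : {h | h ∈ H ∧ x * h ∈ B}.Infinite) : {h | h ∈ H ∧ x * h₀ * h ∈ B}.Infinite := by
  refine (i.image (f := fun h => h₀⁻¹ * h) (mul_right_injective _).injOn).mono ?_
  rintro _ ⟨h, ⟨a, b⟩, rfl⟩
  exact ⟨H.mul_mem (H.inv_mem e) a, by simpa [mul_assoc] using b⟩

theorem Rig1_shift' {H : Subgroup (FreeGroup X)} {h₀ : FreeGroup X} (e : h₀ ∈ H) :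
    {h | h ∈ H ∧ x * h ∈ B}.Infinite ↔ {h | h ∈ H ∧ x * h₀ * h ∈ B}.Infinite :=
  ⟨Rig1_shift e, fun i => by simpa using Rig1_shift (H.inv_mem e) i⟩

theorem periph (hb : Bx W) (hN : Fam (cl W) N) (hV : IsV (cl W) N V) (hB : Clo B) (c : Conn W B)
    (c' : Conn W Bᶜ) (s : Spl (GV (cl W) V) B Set.univ) : (∃ Z, Adj V Z ∧ Sep B Z) ∨
      ∃ k, vx (cl W) N k = V ∧ {h | h ∈ cl W ∧ k * h ∈ B}.Infinite ∧
        {h | h ∈ cl W ∧ k * h ∉ B}.Infinite := by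
  classical
  by_contra n
  rw [not_or, not_exists, not_exists] at n
  obtain ⟨n₁, n₂⟩ := n
  obtain ⟨g, hg, g', hg', ng, ng', eg, eg'⟩ := s
  rw [Set.univ_inter] at eg eg'
  have mono : ∀ Z, Adj V Z → Mono (V.s Z)ᶜ B := by
    intro Z a
    obtain ⟨z, nz, e⟩ := (hN.sp Z (hV.mem a.1)).1
    have hz : z ∈ Z := e ▸ self_mem_cen z
    rcases hB.ev nz with h | h <;> rcases hB.ev (inv_ne_one.2 nz) with h' | h'
    · exact .inl (Rig1_far hb hN hV a hB c' hz nz h h' hg' ng' eg')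
    · exact (n₁ Z ⟨a, z, hz, nz, h, h'⟩).elim
    · exact (n₁ Z ⟨a, z⁻¹, Z.inv_mem hz, inv_ne_one.2 nz, h', by simpa using h⟩).elim
    · exact .inr (Rig1_far hb hN hV a hB.compl (by simpa using c) hz nz h h' hg ng
        (by simpa using eg))
  have cen : ∀ t ∈ lv W B, vx (cl W) N t.1 = V := by
    intro t ht
    by_contra e
    obtain ⟨Z, a, f⟩ := far_cover hb hN hV e
    have cut := (hV.cut hb hN (hV.mem a.1)).compl
    exact ht.2.2 (((mono Z a).iff f ((sat_iff.1 cut.1 _ _ ht.1).1 f)).1 ht.2.1)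
  let bad : FreeGroup X → Prop := fun x => ∃ t ∈ lv W B, t.1⁻¹ * x ∈ cl W
  let B' : Set (FreeGroup X) :=
    {x | (bad x ∧ {h | h ∈ cl W ∧ x * h ∈ B}.Infinite) ∨ (¬ bad x ∧ x ∈ B)}
  have bm : ∀ x, ∀ h ∈ cl W, (bad x ↔ bad (x * h)) := fun x h e =>
    exists_congr fun t => and_congr_right fun _ => by
      rw [← mul_assoc]; exact ((cl W).mul_mem_cancel_right e).symm
  have sat : Sat (cl W) B' := by
    have key : ∀ x, ∀ h ∈ W, (x ∈ B' ↔ x * h ∈ B') := by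
      intro x h e
      have e1 := bm x h (mem_cl e)
      have e2 := Rig1_shift' (x := x) (B := B) (mem_cl e)
      have e3 : x ∈ B → x * h ∉ B → bad x := fun a b =>
        ⟨(x, x * h), ⟨⟨h, e, .inl rfl⟩, a, b⟩, by simp⟩
      have e4 : x * h ∈ B → x ∉ B → bad (x * h) := fun a b =>
        ⟨(x * h, x), ⟨⟨h, e, .inr rfl⟩, a, b⟩, by simp⟩
      have e5 : ¬ bad x → (x ∈ B ↔ x * h ∈ B) := fun n =>
        ⟨fun a => by_contra fun b => n (e3 a b), fun a => by_contra fun b => n (e1.2 (e4 a b))⟩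
      exact or_congr (and_congr e1 e2) ⟨fun a => ⟨fun b => a.1 (e1.2 b), (e5 a.1).1 a.2⟩,
        fun a => ⟨fun b => a.1 (e1.1 b), (e5 fun b => a.1 (e1.1 b)).2 a.2⟩⟩
    rw [sat_iff]
    rintro x y ⟨h, e, rfl | rfl⟩
    exacts [key x h e, (key y h e).symm]
  have fin : {x | ¬ (x ∈ B' ↔ x ∈ B)}.Finite := by
    have : ∀ t ∈ lv W B, {h | h ∈ cl W ∧ ¬ (t.1 * h ∈ B' ↔ t.1 * h ∈ B)}.Finite := by
      intro t ht
      have bd : ∀ h ∈ cl W, bad (t.1 * h) := fun h e => ⟨t, ht, by simpa using e⟩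
      by_cases i : {h | h ∈ cl W ∧ t.1 * h ∈ B}.Infinite
      · have j : {h | h ∈ cl W ∧ t.1 * h ∉ B}.Finite :=
          Set.not_infinite.1 fun j => n₂ t.1 ⟨cen t ht, i, j⟩
        refine j.subset fun h e => ⟨e.1, fun f => e.2 (iff_of_true ?_ f)⟩
        exact .inl ⟨bd h e.1, Rig1_shift e.1 i⟩
      · refine (Set.not_infinite.1 i).subset fun h e => ⟨e.1, ?_⟩
        by_contra f
        refine e.2 (iff_of_false ?_ f)
        rintro (j | j)
        exacts [i ((Rig1_shift' e.1).2 j.2), j.1 (bd h e.1)]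
    refine ((lv_fin W hB).biUnion fun t ht => (this t ht).image fun h => t.1 * h).subset ?_
    intro x hx
    by_cases b : bad x
    · obtain ⟨t, ht, e⟩ := b
      refine Set.mem_biUnion ht ⟨t.1⁻¹ * x, ⟨e, ?_⟩, by simp⟩
      rwa [mul_inv_cancel_left]
    · exact (hx ⟨fun j => j.elim (fun j => (b j.1).elim) fun j => j.2, fun j => .inr ⟨b, j⟩⟩).elim
  have clo : Clo B' := by
    have := (hB.inter (clo_of_finite fin).compl).union
      (clo_of_finite (fin.subset (Set.inter_subset_right (s := B'))))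
    convert this using 1
    ext x
    simp only [Set.mem_union, Set.mem_inter_iff, Set.mem_compl_iff, Set.mem_ofPred_eq]
    generalize (x ∈ B') = p
    tauto
  rcases hb.oe B' sat clo with e | e
  · refine Rig1_inf eg ng (fin.subset fun x a b => ?_)
    have := b.2 a
    rw [e] at this
    exact this
  · refine Rig1_inf eg' ng' (fin.subset fun x a b => a (b.1 ?_))
    rw [e]
    trivial

theorem Rig1_pow (hb : Bx W) (hN : Fam (cl W) N) (hV : IsV (cl W) N V) :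
    ∃ J : ℕ, 0 < J ∧ ∀ Z, Adj V Z → ∀ g ∈ Z, g ^ J ∈ GV (cl W) V := by
  classical
  obtain ⟨S, hS, h⟩ := adj_fin hb hN hV
  have : ∀ Z ∈ S, ∃ j : ℕ, 0 < j ∧ ∀ g ∈ Z, g ^ j ∈ GV (cl W) V := by
    intro Z hZ
    obtain ⟨z, -, e, -⟩ := (hN.sp Z (hV.mem (hS Z hZ).1)).1.gen
    obtain ⟨j, j0, hj⟩ := adj_pow hb hN hV (hS Z hZ) (e ▸ mem_zpowers z)
    refine ⟨j, j0, fun g hg => ?_⟩
    rw [← e] at hg
    obtain ⟨n, rfl⟩ := mem_zpowers_iff.1 hg
    rw [← zpow_natCast, ← zpow_mul, mul_comm, zpow_mul, zpow_natCast]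
    exact zpow_mem hj n
  choose! j j0 hj using this
  refine ⟨∏ Z ∈ S, j Z, Finset.prod_pos j0, fun Z a g hg => ?_⟩
  obtain ⟨k, hk, Z₀, hZ₀, rfl⟩ := h Z a
  obtain ⟨c, hc⟩ := Finset.dvd_prod_of_mem j hZ₀
  have h1 := pow_mem (hj Z₀ hZ₀ _ (mem_tl_sub.1 hg)) c
  rw [← pow_mul, ← hc] at h1
  have h2 := mul_mem (mul_mem hk h1) (inv_mem hk)
  rwa [← conj_pow, show k * (k⁻¹ * g * k) * k⁻¹ = g by group] at h2

theorem Rig1_len (S : Finset (Subgroup (FreeGroup X))) {H : Subgroup (FreeGroup X)} :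
    ∃ L : ℕ, ∀ Z₀ ∈ S, Ax Z₀ → ∀ Z ∈ orb H Z₀, ∃ z ∈ Z, ∃ a l, AxL z a l ∧ l ≤ L := by
  have : ∀ Z₀ : Subgroup (FreeGroup X), ∃ L : ℕ, Ax Z₀ → ∃ z ∈ Z₀, ∃ a l, AxL z a l ∧ l ≤ L := by
    intro Z₀
    by_cases h : Ax Z₀
    · obtain ⟨z, nz, e⟩ := h
      obtain ⟨a, l, hl⟩ := ex_axis nz
      exact ⟨l.toNat, fun _ => ⟨z, e ▸ self_mem_cen z, a, l, hl, Int.self_le_toNat l⟩⟩
    · exact ⟨0, fun e => (h e).elim⟩
  choose L hL using this
  refine ⟨S.sup L, fun Z₀ hZ₀ ax => ?_⟩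
  rintro _ ⟨k, rfl⟩
  obtain ⟨z, hz, a, l, hl, le⟩ := hL Z₀ ax
  refine ⟨k * z * k⁻¹, mem_tl_sub.2 (by simpa [mul_assoc] using hz), _, l, hl.conj k,
    le.trans ?_⟩
  exact_mod_cast Finset.le_sup (f := L) hZ₀

theorem mult (hb : Bx W) (hN : Fam (cl W) N) (hH : NA (cl W)) (hV : IsV (cl W) N V)
    (S : Finset (Subgroup (FreeGroup X)))
    (hS : ∀ (θ : StabH (cl W)) Z, Adj V Z → ∃ Z₀ ∈ S, Ax Z₀ ∧ au (cl W) θ • Z ∈ orb (cl W) Z₀) :
    ∃ m : ℕ, ∀ (θ : StabH (cl W)) (𝒰 : Finset (Set (FreeGroup X))),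
      (∀ U ∈ 𝒰, HT U ∧ Spl (GV (cl W) V) (au (cl W) θ • U) Set.univ) →
      (∀ U ∈ 𝒰, ∀ U' ∈ 𝒰, ∀ g ∈ GV (cl W) V, g ≠ 1 →
        (Ev (au (cl W) θ • U) g ↔ Ev (au (cl W) θ • U') g)) → 𝒰.card ≤ m := by
  classical
  obtain ⟨J, J0, hJ⟩ := Rig1_pow hb hN hV
  obtain ⟨L, hL⟩ := Rig1_len S (H := cl W)
  obtain ⟨S₂, -, hS₂⟩ := hull_fin (Γ := cl W)
    ((Subgroup.fg_iff _).2 ⟨_, rfl, List.finite_toSet W⟩)
  refine ⟨J * L + S₂.card, fun θ 𝒰 h₁ h₂ => ?_⟩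
  set γ := au (cl W) θ with hγ
  have one : ∀ U ∈ 𝒰, ∀ U' ∈ 𝒰, ∀ k, lin (cl W) γ k ∈ GV (cl W) V → k • U = U' → U = U' := by
    intro U hU U' hU' k hk e
    have e1 : lin (cl W) γ k • γ • U = γ • U' := by rw [Rig1_tl, lin_inv_lin, e]
    have e2 := trace_free ((h₁ U hU).1.clo.smul γ) (GV_na hb hN hH hV) (h₁ U hU).2 hk
      fun g a b => by rw [e1]; exact h₂ U hU U' hU' g a b
    have e3 : k = 1 := by
      by_contra n
      exact lin_ne n e2
    rw [← e, e3, one_smul]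
  have same : ∀ U ∈ 𝒰, ∀ U' ∈ 𝒰, ∀ g, lin (cl W) γ g ∈ GV (cl W) V → g ≠ 1 →
      (Ev U g → Ev U' g) ∧ (Ev Uᶜ g → Ev U'ᶜ g) := by
    intro U hU U' hU' g a b
    have e := h₂ U hU U' hU' _ a (lin_ne b)
    rw [ev_smul_iff, ev_smul_iff] at e
    exact ⟨e.1, fun f => ((h₁ U' hU').1.ev b).resolve_left fun i => Ev.not_compl (e.2 i) f⟩
  rcases 𝒰.eq_empty_or_nonempty with rfl | ⟨U₀, hU₀⟩
  · simp
  have ht := (h₁ U₀ hU₀).1
  rcases periph hb hN hV (ht.clo.smul γ) ((hb.bond _ ht).smul γ)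
    (by rw [← smul_compl]; exact (hb.bond _ ht.compl).smul γ) (h₁ U₀ hU₀).2 with
    ⟨Z, a, s⟩ | ⟨k, hk, i₁, i₂⟩
  · obtain ⟨Z₀, hZ₀, ax₀, o⟩ := hS θ⁻¹ Z a
    rw [map_inv, ← hγ] at o
    have ax := (hN.sp Z (hV.mem a.1)).1.smul γ⁻¹
    have s' : Sep U₀ (γ⁻¹ • Z) := by simpa using s.smul γ⁻¹
    obtain ⟨z, hz, b, l, hl', le, e, e'⟩ : ∃ z ∈ γ⁻¹ • Z, ∃ b l, AxL z b l ∧ l ≤ L ∧ Ev U₀ z ∧
        Ev U₀ᶜ z⁻¹ := by
      obtain ⟨z, hz, b, l, hl', le⟩ := hL Z₀ hZ₀ ax₀ _ o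
      rcases s'.ev ax hz hl'.ne with h | h
      · exact ⟨z, hz, b, l, hl', le, h⟩
      · exact ⟨z⁻¹, inv_mem hz, _, l, hl'.inv, le, h.2, by simpa using h.1⟩
    have hc := hl'.pow J0
    have gv : lin (cl W) γ (z ^ J) ∈ GV (cl W) V := by
      rw [map_pow]
      exact hJ Z a _ (by simpa using mem_smul_sub.1 hz)
    have ex : ∀ U ∈ 𝒰, ∃ i, U = hl b i := fun U hU =>
      hc.eq_hl (h₁ U hU).1 ((same U₀ hU₀ U hU _ gv hc.ne).1 (e.pow J0))
        ((same U₀ hU₀ U hU _ (by rw [map_inv]; exact inv_mem gv) (inv_ne_one.2 hc.ne)).2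
          (by rw [← inv_pow]; exact e'.pow J0))
    choose! i hi using ex
    have p0 : 0 < (J : ℤ) * l := hc.2.1
    have := Finset.card_le_card_of_injOn (s := 𝒰) (t := Finset.Ico (0 : ℤ) (J * l))
      (fun U => i U % (J * l))
      (fun U _ => by
        simp only [Finset.coe_Ico, Set.mem_Ico]
        exact ⟨Int.emod_nonneg _ p0.ne', Int.emod_lt_of_pos _ p0⟩)
      (fun U hU U' hU' f => by
        obtain ⟨n, hn⟩ := Int.ModEq.dvd (show i U ≡ i U' [ZMOD (J * l)] from f)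
        refine one U hU U' hU' ((z ^ J) ^ n) (by rw [map_zpow]; exact zpow_mem gv n) ?_
        have := hc.hl_zpow n (i U)
        rw [← hi U hU, show i U + n * (J * l) = i U' by linarith, ← hi U' hU'] at this
        exact this)
    rw [Int.card_Ico] at this
    have h3 : (J : ℤ) * l ≤ J * L := mul_le_mul_of_nonneg_left le (by positivity)
    have h4 : ((J * L : ℕ) : ℤ) = J * L := by push_cast; rfl
    omega
  · set k' := γ⁻¹ • k with hk'
    have lk : lin (cl W) γ k' = k := by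
      rw [hγ, lin_au, ← au_smul, ← hγ, hk', smul_inv_smul]
    have gv : ∀ h ∈ cl W, lin (cl W) γ (k' * h * k'⁻¹) ∈ GV (cl W) V := by
      intro h e
      have : lin (cl W) γ h = h := by rw [hγ, lin_au]; exact θ.2 h e
      rw [map_mul, map_mul, map_inv, lk, this, ← hk]
      exact conj_mem_GV hN k e
    have mv : ∀ h ∈ cl W, γ • (k' * h) = k * h := by
      intro h e
      rw [hγ, au_smul, map_mul, ← au_smul, ← hγ, hk', smul_inv_smul, θ.2 h e]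
    have ends : ∀ U', HT U' → {h | h ∈ cl W ∧ k * h ∈ γ • U'}.Infinite →
        ∃ h ∈ cl W, k' * h * k'⁻¹ ≠ 1 ∧ Ev U' (k' * h * k'⁻¹) := by
      intro U' hU' i
      obtain ⟨g, a, b, c⟩ := ev_of_inf hU' (Λ := tl (cl W) k' • cl W) (k := k')
        ((i.image (f := fun h => k' * h * k'⁻¹)
          ((mul_left_injective _).comp (mul_right_injective _)).injOn).mono (by
            rintro _ ⟨h, ⟨a, b⟩, rfl⟩
            rw [← mv h a, Set.smul_mem_smul_set_iff] at b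
            exact ⟨mem_tl_sub.2 (by simpa [mul_assoc] using a), by simpa using b⟩))
      refine ⟨_, mem_tl_sub.1 a, ?_⟩
      rw [show k' * (k'⁻¹ * g * k') * k'⁻¹ = g by group]
      exact ⟨b, c⟩
    obtain ⟨u, hu, nu, eu⟩ := ends U₀ ht i₁
    obtain ⟨v, hv, nv, ev⟩ := ends U₀ᶜ ht.compl (by rw [smul_compl]; exact i₂)
    have pt : ∀ (U' : Set (FreeGroup X)), ∀ h ∈ cl W, Ev U' (k' * h * k'⁻¹) →
        ∃ g ∈ cl W, g ∈ k'⁻¹ • U' := by
      intro U' h e f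
      obtain ⟨n, hn⟩ := f.ex k'
      refine ⟨h ^ n, pow_mem e n, ?_⟩
      rw [mem_smul', inv_inv]
      rwa [conj_pow, inv_mul_cancel_right] at hn
    have ex : ∀ U ∈ 𝒰, ∃ h ∈ cl W, h • k'⁻¹ • U ∈ S₂ := fun U hU =>
      hS₂ _ ((h₁ U hU).1.smul _) (pt U u hu ((same U₀ hU₀ U hU _ (gv u hu) nu).1 eu)) (by
        have := pt Uᶜ v hv ((same U₀ hU₀ U hU _ (gv v hv) nv).2 ev)
        rwa [smul_compl'] at this)
    choose! f hf hf' using ex
    have := Finset.card_le_card_of_injOn (s := 𝒰) (t := S₂) (fun U => f U • k'⁻¹ • U)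
      (fun U hU => hf' U hU)
      (fun U hU U' hU' e => by
        refine one U hU U' hU' (k' * ((f U')⁻¹ * f U) * k'⁻¹)
          (gv _ (mul_mem (inv_mem (hf U' hU')) (hf U hU))) ?_
        have e' : f U • k'⁻¹ • U = f U' • k'⁻¹ • U' := e
        rw [mul_smul, mul_smul, mul_smul, e', inv_smul_smul, smul_inv_smul])
    omega

end Pool.Agent.Work.MP_3bdf32_al
end

-- merged part: Pool.Agent.Work.MP_3bdf32_al.Rig2
section
/-! From bounded traces to finitely many restrictions. -/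

namespace Pool.Agent.Work.MP_3bdf32_al

set_option linter.unusedSectionVars false
set_option linter.unusedVariables false

open Subgroup MulAction Filter
open scoped Pointwise

variable {X : Type} [Fintype X] [DecidableEq X] {H Γ : Subgroup (FreeGroup X)}

/-- `U` contains two of the three ends of `a`, `a⁻¹`, `b` -/
def Rig2_Maj (U : Set (FreeGroup X)) (a b : FreeGroup X) : Prop :=
  (Ev U a ∧ Ev U a⁻¹) ∨ (Ev U a ∧ Ev U b) ∨ (Ev U a⁻¹ ∧ Ev U b)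

theorem Rig2_med {a b : FreeGroup X} (c : ¬ Commute a b) :
    ∃ m, ∀ U, HT U → (m ∈ U ↔ Rig2_Maj U a b) := by
  obtain ⟨L, l, h⟩ := ex_axis (g := a) (by rintro rfl; exact c (Commute.one_left b))
  obtain ⟨p, e⟩ := h.pos c
  exact ⟨L p, fun U hU => Pos.med h e c hU⟩

theorem Rig2_Maj.smul {U : Set (FreeGroup X)} {a b : FreeGroup X} (h : Rig2_Maj U a b)
    (γ : Hol H) : Rig2_Maj (γ • U) (lin H γ a) (lin H γ b) := by
  unfold Rig2_Maj
  rw [← map_inv]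
  rcases h with h | h | h
  exacts [.inl ⟨h.1.smul γ, h.2.smul γ⟩, .inr (.inl ⟨h.1.smul γ, h.2.smul γ⟩),
    .inr (.inr ⟨h.1.smul γ, h.2.smul γ⟩)]

theorem Rig2_Maj.inter {U U' : Set (FreeGroup X)} {a b : FreeGroup X} (h : Rig2_Maj U a b)
    (h' : Rig2_Maj U' a b) (ha : a ∈ Γ) (hb : b ∈ Γ) (c : ¬ Commute a b) :
    ∃ g ∈ Γ, g ≠ 1 ∧ Ev (U ∩ U') g := by
  have a1 : a ≠ 1 := by rintro rfl; exact c (Commute.one_left b)
  have b1 : b ≠ 1 := by rintro rfl; exact c (Commute.one_right a)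
  have p : Ev U a → Ev U' a → ∃ g ∈ Γ, g ≠ 1 ∧ Ev (U ∩ U') g :=
    fun x y => ⟨a, ha, a1, x.inter y⟩
  have q : Ev U a⁻¹ → Ev U' a⁻¹ → ∃ g ∈ Γ, g ≠ 1 ∧ Ev (U ∩ U') g :=
    fun x y => ⟨a⁻¹, Γ.inv_mem ha, inv_ne_one.2 a1, x.inter y⟩
  have s : Ev U b → Ev U' b → ∃ g ∈ Γ, g ≠ 1 ∧ Ev (U ∩ U') g :=
    fun x y => ⟨b, hb, b1, x.inter y⟩
  rcases h with h | h | h <;> rcases h' with h' | h' | h'
  exacts [p h.1 h'.1, p h.1 h'.1, q h.2 h'.1, p h.1 h'.1, p h.1 h'.1, s h.2 h'.2, q h.1 h'.2,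
    s h.2 h'.2, q h.1 h'.1]

theorem Rig2_univ (a b : FreeGroup X) : Rig2_Maj Set.univ a b :=
  .inl ⟨fun _ => Eventually.of_forall fun _ => trivial,
    fun _ => Eventually.of_forall fun _ => trivial⟩

/-- the edge at distance `n` on a geodesic -/
theorem Rig2_geo [Nonempty X] {o w : FreeGroup X} {n : ℤ} (hn : 0 ≤ n) (h : n < cd o w) :
    ∃ x y, cd x y = 1 ∧ o ∉ hs x y ∧ cd o x = n ∧ w ∈ hs x y ∧ cd o x + cd x w = cd o w := by
  obtain ⟨L, hL, e0, e1⟩ := ex_line o w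
  generalize cd o w = d at h e1 ⊢
  subst e0 e1
  refine ⟨L n, L (n + 1), ?_, ?_, ?_, ?_, ?_⟩
  · rw [hL]; simp
  · change ¬ cd _ _ < cd _ _
    rw [hL, hL, abs_of_nonpos (by omega), abs_of_nonpos (by omega)]
    omega
  · rw [hL, abs_of_nonpos (by omega)]
    omega
  · change cd _ _ < cd _ _
    rw [hL, hL, abs_of_nonneg (by omega), abs_of_nonneg (by omega)]
    omega
  · rw [hL, hL, abs_of_nonpos (by omega), abs_of_nonpos (by omega)]
    omega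

/-- every end lies behind an edge at a given distance -/
theorem Rig2_end [Nonempty X] (o : FreeGroup X) {g : FreeGroup X} (hg : g ≠ 1) {n : ℤ}
    (hn : 0 ≤ n) : ∃ x y, cd x y = 1 ∧ o ∉ hs x y ∧ cd o x = n ∧ Ev (hs x y) g := by
  obtain ⟨L, l, h⟩ := ex_axis hg
  have e := h.1.cd_pr o (pr L o + (n + 1))
  rw [add_sub_cancel_left, abs_of_nonneg (by omega)] at e
  have := cd_nonneg o (L (pr L o))
  obtain ⟨x, y, a, b, c, d, f⟩ := Rig2_geo (o := o) (w := L (pr L o + (n + 1))) hn (by omega)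
  refine ⟨x, y, a, b, c, (h.ev (pr L o + (n + 1))).mono ?_⟩
  refine hs_sub a (by rw [h.1]; simp) d ?_
  refine (h.1.ht (pr L o + (n + 1))).compl.conv (x := o) (w := L (pr L o + (n + 1))) ?_ ?_ f
  · rw [Set.mem_compl_iff, h.1.mem_hl]
    omega
  · exact left_notMem_hs _ _

/-- the displacement of the median point is bounded -/
theorem Rig2_bound [Nonempty X] {a b g : FreeGroup X} (ha : a ∈ Γ) (hb : b ∈ Γ) (hg : g ∈ Γ)
    (c : ¬ Commute a b) (r : ℤ) (r0 : 0 ≤ r) (hr : ∀ (θ : StabH H) U, HT U →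
      ∃ o, ∀ x y, cd x y = 1 → o ∉ hs x y → r ≤ cd o x → ¬ Spl Γ (au H θ • U) (hs x y))
    (m : ℕ) (hm : ∀ (θ : StabH H) (𝒰 : Finset (Set (FreeGroup X))),
      (∀ U ∈ 𝒰, HT U ∧ Spl Γ (au H θ • U) Set.univ) →
      (∀ U ∈ 𝒰, ∀ U' ∈ 𝒰, ∀ g ∈ Γ, g ≠ 1 → (Ev (au H θ • U) g ↔ Ev (au H θ • U') g)) →
      𝒰.card ≤ m) :
    ∃ C : ℤ, ∀ (φ : StabH H) y, (∀ U, HT U → (y ∈ U ↔ Rig2_Maj U (φ.1 a) (φ.1 b))) →
      cd y (φ.1 g * y) ≤ C := by
  classical
  have c' : ¬ Commute (g * a * g⁻¹) (g * b * g⁻¹) := fun e => c (by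
    simpa [mul_assoc] using e.map (MulAut.conj g⁻¹))
  have ha' : g * a * g⁻¹ ∈ Γ := Γ.mul_mem (Γ.mul_mem hg ha) (Γ.inv_mem hg)
  have hb' : g * b * g⁻¹ ∈ Γ := Γ.mul_mem (Γ.mul_mem hg hb) (Γ.inv_mem hg)
  obtain ⟨m₀, h₀⟩ := Rig2_med c
  obtain ⟨m₁, h₁⟩ := Rig2_med c'
  have d0 := cd_nonneg m₀ m₁
  obtain ⟨ρ, hρ⟩ : ∃ ρ, ρ = r + cd m₀ m₁ := ⟨_, rfl⟩
  have hF := (ball_fin m₀ (ρ + r)).prod (ball_fin m₀ (ρ + r + 1))
  refine ⟨(m * hF.toFinset.powerset.card : ℕ), fun φ y hy => ?_⟩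
  rw [← sep_card, Set.ncard_eq_toFinset_card _ (sep_fin y (φ.1 g * y)), Nat.cast_le]
  have spl : ∀ U, HT U → y ∉ U → φ.1 g * y ∈ U → ∀ E, Rig2_Maj E a b →
      Rig2_Maj E (g * a * g⁻¹) (g * b * g⁻¹) → Spl Γ (au H φ⁻¹ • U) E := by
    intro U hU p q E e e'
    have p1 := ((hy _ hU.compl).1 p).smul (au H φ⁻¹)
    have q1 := (((hy _ (hU.smul (φ.1 g)⁻¹)).1 (by simpa [mem_smul'] using q)).smul
      (tl H (φ.1 g))).smul (au H φ⁻¹)
    rw [tl_set, smul_inv_smul] at q1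
    rw [smul_compl] at p1
    rw [map_inv (au H)]
    simp only [lin_au, lin_tl, MulAut.conj_apply, map_mul, map_inv,
      MulAut.inv_apply_self] at p1 q1
    obtain ⟨u, u1, u2, u3⟩ := e.inter p1 ha hb c
    obtain ⟨v, v1, v2, v3⟩ := e'.inter q1 ha' hb' c'
    exact ⟨v, v1, u, u1, v2, u2, v3, u3⟩
  have far : ∀ U, HT U → y ∉ U → φ.1 g * y ∈ U → ∀ x x', cd x x' = 1 → m₀ ∉ hs x x' →
      cd m₀ x = ρ + r → ¬ Spl Γ (au H φ⁻¹ • U) (hs x x') := by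
    intro U hU p q x x' e f i
    obtain ⟨o, ho⟩ := hr φ⁻¹ U hU
    have near : cd o m₀ ≤ ρ := by
      by_contra n
      obtain ⟨z, z', e1, e2, e3, e4, e5⟩ := Rig2_geo (o := o) (w := m₀) r0 (by omega)
      have ht : HT (hs z z') := ⟨z, z', e1, rfl⟩
      refine ho z z' e1 e2 e3.ge (spl U hU p q _ ((h₀ _ ht).1 e4) ((h₁ _ ht).1 ?_))
      refine hs_deep e1 e4 ?_
      rw [cd_comm m₀ z]
      omega
    refine ho x x' e (fun j => ?_) ?_
    · have := hs_cross e f j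
      have := cd_nonneg x' o
      have := cd_comm m₀ o
      omega
    · have := cd_tri m₀ o x
      have := cd_comm m₀ o
      omega
  let T : Set (FreeGroup X) → Finset (FreeGroup X × FreeGroup X) := fun U =>
    hF.toFinset.filter fun p => ∃ u ∈ Γ, u ≠ 1 ∧ Ev (hs p.1 p.2 ∩ au H φ⁻¹ • U) u
  have tr : ∀ U U', HT U' → y ∉ U' → φ.1 g * y ∈ U' → T U = T U' → ∀ u ∈ Γ, u ≠ 1 →
      Ev (au H φ⁻¹ • U) u → Ev (au H φ⁻¹ • U') u := by
    intro U U' hU p q e u u1 u2 u3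
    obtain ⟨x, x', e1, e2, e3, e4⟩ := Rig2_end m₀ u2 (n := ρ + r) (by omega)
    have : (x, x') ∈ T U := Finset.mem_filter.2 ⟨hF.mem_toFinset.2 ⟨e3.le, by
      have := cd_tri m₀ x x'
      change cd m₀ x' ≤ _
      omega⟩, u, u1, u2, e4.inter u3⟩
    rw [e] at this
    obtain ⟨v, v1, v2, v3⟩ := (Finset.mem_filter.1 this).2
    refine ((hU.clo.smul (au H φ⁻¹)).ev u2).resolve_right fun n => ?_
    exact far U' hU p q x x' e1 e2 e3 ⟨v, v1, u, u1, v2, u2, v3, e4.inter n⟩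
  refine Finset.card_le_mul_card_image_of_maps_to (f := T)
    (fun U _ => Finset.mem_powerset.2 (Finset.filter_subset _ _)) m fun t _ => hm φ⁻¹ _ ?_ ?_
  · intro U hU
    obtain ⟨p, q, s⟩ := (sep_fin _ _).mem_toFinset.1 (Finset.mem_filter.1 hU).1
    exact ⟨p, spl U p q s _ (Rig2_univ _ _) (Rig2_univ _ _)⟩
  · intro U hU U' hU' u u1 u2
    obtain ⟨p, q, s⟩ := (sep_fin _ _).mem_toFinset.1 (Finset.mem_filter.1 hU).1
    obtain ⟨p', q', s'⟩ := (sep_fin _ _).mem_toFinset.1 (Finset.mem_filter.1 hU').1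
    have e : T U = T U' := (Finset.mem_filter.1 hU).2.trans (Finset.mem_filter.1 hU').2.symm
    exact ⟨tr U U' p' q' s' e u u1 u2, tr U' U p q s e.symm u u1 u2⟩

theorem rigA (hΓ : Γ.FG) (hn : NA Γ) (r : ℤ) (hr : ∀ (θ : StabH H) U, HT U →
      ∃ o, ∀ x y, cd x y = 1 → o ∉ hs x y → r ≤ cd o x → ¬ Spl Γ (au H θ • U) (hs x y))
    (m : ℕ) (hm : ∀ (θ : StabH H) (𝒰 : Finset (Set (FreeGroup X))),
      (∀ U ∈ 𝒰, HT U ∧ Spl Γ (au H θ • U) Set.univ) →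
      (∀ U ∈ 𝒰, ∀ U' ∈ 𝒰, ∀ g ∈ Γ, g ≠ 1 → (Ev (au H θ • U) g ↔ Ev (au H θ • U') g)) →
      𝒰.card ≤ m) :
    ∃ Θ : Finset (StabH H), ∀ φ : StabH H, ∃ θ ∈ Θ, ∃ c, ∀ g ∈ Γ, φ.1 g = c * θ.1 g * c⁻¹ := by
  classical
  obtain ⟨a, ha, b, hb, c⟩ := hn
  obtain ⟨S, hS⟩ := hΓ
  have : Nonempty X := by
    by_contra n
    rw [not_nonempty_iff] at n
    exact c (Subsingleton.elim _ _)
  have hy : ∀ φ : StabH H, ∃ y, ∀ U, HT U → (y ∈ U ↔ Rig2_Maj U (φ.1 a) (φ.1 b)) := fun φ =>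
    Rig2_med fun e => c (by simpa using e.map φ.1⁻¹)
  choose y hy using hy
  have hC : ∀ s : S, ∃ C : ℤ, ∀ φ : StabH H, cd (y φ) (φ.1 s * y φ) ≤ C := fun s => by
    obtain ⟨C, hC⟩ := Rig2_bound ha hb (g := s) (hS ▸ subset_closure s.2) c (max r 0)
      (le_max_right _ _) (fun θ U hU => (hr θ U hU).imp fun o ho x x' e f i =>
        ho x x' e f ((le_max_left _ _).trans i)) m hm
    exact ⟨C, fun φ => hC φ _ (hy φ)⟩
  choose C hC using hC
  let t : StabH H → S → FreeGroup X := fun φ s => (y φ)⁻¹ * (φ.1 s * y φ)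
  have hf : (Set.range t).Finite := by
    refine (Set.Finite.pi' fun s => ball_fin 1 (C s)).subset ?_
    rintro _ ⟨φ, rfl⟩ s
    have := hC s φ
    rwa [← cd_smul (y φ)⁻¹, inv_mul_cancel] at this
  refine ⟨hf.toFinset.image (Function.invFun t), fun φ => ⟨Function.invFun t (t φ),
    Finset.mem_image_of_mem _ (hf.mem_toFinset.2 ⟨φ, rfl⟩), ?_⟩⟩
  have e : t (Function.invFun t (t φ)) = t φ := Function.invFun_eq ⟨φ, rfl⟩
  generalize Function.invFun t (t φ) = θ at e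
  refine ⟨y φ * (y θ)⁻¹, fun g hg => ?_⟩
  rw [← hS] at hg
  induction hg using closure_induction with
  | mem s hs =>
    have : (y θ)⁻¹ * (θ.1 s * y θ) = (y φ)⁻¹ * (φ.1 s * y φ) := congrFun e ⟨s, hs⟩
    calc φ.1 s = y φ * ((y φ)⁻¹ * (φ.1 s * y φ)) * (y φ)⁻¹ := by group
      _ = _ := by rw [← this]; group
  | one => simp
  | mul u v _ _ hu hv => rw [map_mul, map_mul, hu, hv]; group
  | inv u _ hu => rw [map_inv, map_inv, hu]; group

end Pool.Agent.Work.MP_3bdf32_al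
end
end
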