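import Pool.Agent.Work.MP_3bdf32_al.TS1
import Pool.Agent.Work.MP_3bdf32_al.Rig2

-- merged part: Pool.Agent.Work.MP_3bdf32_al.K2
section
-- merged part: Pool.Agent.Work.MP_3bdf32_al.GT1
section
/-! Bounded backtracking and soundness of the fixed subgroup certificate. -/

namespace Pool.Agent.Work.MP_3bdf32_al

set_option linter.unusedSectionVars false
set_option linter.unusedVariables false

open Subgroup MulAction Filter
open scoped Pointwise

variable {X : Type} [Fintype X] [DecidableEq X] {W : List (FreeGroup X)}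
  {Φ : List (MulAut (FreeGroup X))} {φ μ ν : MulAut (FreeGroup X)} {l : ℕ} {p q g : FreeGroup X}

theorem lip_norm (h : Lip l φ) (g : FreeGroup X) : (φ g).norm ≤ l * g.norm := by
  have key : ∀ L : List (X × Bool), (φ (FreeGroup.mk L)).norm ≤ l * L.length := by
    intro L
    induction L with
    | nil => simp [← FreeGroup.one_eq_mk]
    | cons s L ih =>
      have e : (φ (lt s)).norm ≤ l := by
        obtain ⟨x, _ | _⟩ := s
        · have := lt_inv (x, true)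
          rw [lt_true] at this
          simp only [Bool.not_true] at this
          rw [← this, map_inv, FreeGroup.norm_inv_eq]
          exact (h x).1
        · exact (h x).1
      rw [show FreeGroup.mk (s :: L) = lt s * FreeGroup.mk L from rfl, map_mul, List.length_cons,
        mul_add_one]
      exact (FreeGroup.norm_mul_le _ _).trans (by omega)
  have := key g.toWord
  rwa [FreeGroup.mk_toWord] at this

theorem Lip.inv (h : Lip l φ) : Lip l φ⁻¹ := by
  exact fun x => ⟨(h x).2, (h x).1⟩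

theorem Lip.mono (h : Lip l φ) {l' : ℕ} (e : l ≤ l') : Lip l' φ := by
  exact fun x => ⟨(h x).1.trans e, (h x).2.trans e⟩

theorem ex_lip (Φ : List (MulAut (FreeGroup X))) : ∃ l, ∀ φ ∈ Φ, Lip l φ := by
  induction Φ with
  | nil => exact ⟨0, by simp⟩
  | cons φ Φ ih =>
    obtain ⟨l, hl⟩ := ih
    let f : X → ℕ := fun x => max (φ (FreeGroup.of x)).norm (φ⁻¹ (FreeGroup.of x)).norm
    refine ⟨max l (Finset.univ.sup f), List.forall_mem_cons.2 ⟨fun x => ?_,
      fun ψ a => (hl ψ a).mono (le_max_left _ _)⟩⟩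
    exact max_le_iff.1 ((Finset.le_sup (f := f) (Finset.mem_univ x)).trans (le_max_right _ _))

theorem lip_fin (l : ℕ) : {φ : MulAut (FreeGroup X) | Lip l φ}.Finite := by
  refine ((Set.Finite.pi' fun _ : X => ball_fin (1 : FreeGroup X) l).preimage
    (f := fun (φ : MulAut (FreeGroup X)) x => φ (FreeGroup.of x))
    (Function.Injective.injOn fun φ ψ e => ?_)).subset fun φ h x => ?_
  · exact MulEquiv.toMonoidHom_injective (FreeGroup.ext_hom _ _ fun x => congrFun e x)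
  · simpa [cd] using (h x).1

theorem st_iff {s : X × Bool} : St (p⁻¹ * q) s ↔ q ∈ hs p (p * lt s) := by
  rw [St, hs, Set.mem_setOf_eq, cd_comm q, cd_comm q, cd, cd, mul_inv_rev, mul_assoc, Nat.cast_lt]

theorem en_iff {s : X × Bool} : En p s ↔ (1 : FreeGroup X) ∈ hs p (p * (lt s)⁻¹) := by
  simp [En, hs, cd]

theorem GT1_cd (h : Lip l φ) (x y : FreeGroup X) : cd (φ x) (φ y) ≤ l * cd x y := by
  rw [cd, cd, ← map_inv, ← map_mul]
  exact_mod_cast lip_norm h _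

theorem GT1_cross (h : Lip l φ) {q' : FreeGroup X} (e : cd q q' = 1) (n : ℕ) :
    ∀ x y : FreeGroup X, cd x y = n → φ x ∉ hs q q' → φ y ∈ hs q q' →
      ∃ v, cd x v + cd v y = cd x y ∧ cd (φ v) q ≤ l := by
  induction n with
  | zero =>
    intro x y a b c
    rw [cd_eq_zero.1 a] at b
    exact absurd c b
  | succ n ih =>
    intro x y a b c
    obtain ⟨z, k1, k2⟩ := ex_step (x := x) (w := y) fun e => b (e ▸ c)
    have k3 := cd_step k1 y
    have k4 : cd y z < cd y x := k2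
    rw [cd_comm y, cd_comm y] at k3 k4
    by_cases d : φ z ∈ hs q q'
    · have k5 := hs_cross e b d
      have k6 := GT1_cd h x z
      have := cd_nonneg q' (φ z)
      rw [k1, mul_one] at k6
      exact ⟨x, by rw [cd_self, zero_add], by omega⟩
    · obtain ⟨v, k5, k6⟩ := ih z y (by omega) d c
      have := cd_tri x z v
      have := cd_tri x v y
      exact ⟨v, by omega, k6⟩

theorem GT1_med (a b c : FreeGroup X) : ∃ q, cd a q + cd q b = cd a b ∧
    (q = c ∨ ∃ q', cd q q' = 1 ∧ c ∈ hs q q' ∧ a ∉ hs q q' ∧ b ∉ hs q q') := by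
  obtain ⟨q, k1, k2⟩ := (measure fun q => (cd c q).toNat).wf.has_min
    {q | cd a q + cd q b = cd a b} ⟨a, by simp [cd_self]⟩
  refine ⟨q, k1, (eq_or_ne q c).imp_right fun e => ?_⟩
  obtain ⟨q', k3, k4⟩ := ex_step e
  have k5 : ¬ cd a q' + cd q' b = cd a b := fun e => k2 q' e (by
    have : cd c q' < cd c q := k4
    have := cd_nonneg c q'
    change (cd c q').toNat < (cd c q).toNat
    omega)
  have k1 : cd a q + cd q b = cd a b := k1
  have t := cd_tri a q' b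
  refine ⟨q', k3, k4, fun (d : cd a q' < cd a q) => k5 ?_, fun (d : cd b q' < cd b q) => k5 ?_⟩
  · have := cd_tri q' q b
    rw [cd_comm q' q] at this
    omega
  · have := cd_tri a q q'
    rw [cd_comm b, cd_comm b] at d
    omega

/-- bounded backtracking -/
theorem bbt (h : Lip l φ) {x y : FreeGroup X} (e : cd x p + cd p y = cd x y) :
    ∃ q, cd (φ x) q + cd q (φ y) = cd (φ x) (φ y) ∧ cd (φ p) q ≤ 2 * l ^ 3 + l := by
  obtain ⟨q, k1, rfl | ⟨q', k2, k3, k4, k5⟩⟩ := GT1_med (φ x) (φ y) (φ p)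
  · exact ⟨_, k1, by rw [cd_self]; positivity⟩
  refine ⟨q, k1, ?_⟩
  obtain ⟨v, a1, a2⟩ := GT1_cross h k2 _ x p rfl k4 k3
  obtain ⟨w, b1, b2⟩ := GT1_cross h k2 _ y p rfl k5 k3
  have c1 := GT1_cd h.inv (φ v) (φ w)
  rw [MulAut.inv_apply_self, MulAut.inv_apply_self] at c1
  have c2 := cd_tri (φ v) q (φ w)
  have c3 := cd_tri x v y
  have c4 := cd_tri v w y
  have c5 := cd_nonneg w p
  rw [cd_comm q] at c2
  rw [cd_comm y, cd_comm y] at b1
  have l0 : (0 : ℤ) ≤ l := Nat.cast_nonneg l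
  have c6 : cd v p ≤ l * (2 * l) := le_trans (by omega)
    (c1.trans (mul_le_mul_of_nonneg_left (show _ ≤ 2 * (l : ℤ) by omega) l0))
  have c7 := (GT1_cd h v p).trans (mul_le_mul_of_nonneg_left c6 l0)
  have c8 := cd_tri (φ p) (φ v) q
  rw [cd_comm (φ p) (φ v)] at c8
  linarith

theorem alw_of_fix (h : Lip l φ) (e : φ g = g) {s : X × Bool} (a : g ∈ hs p (p * lt s))
    (b : (1 : FreeGroup X) ∉ hs p (p * lt s)) :
    (p⁻¹ * φ p).norm ≤ Kc l ∨ St (p⁻¹ * φ p) s ∨ St (p⁻¹ * φ⁻¹ p) s := by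
  have e1 : cd p (p * lt s) = 1 := cd_one_iff.2 ⟨s, rfl⟩
  have e2 := hs_cross e1 b a
  have e3 := hs_cross e1 (left_notMem_hs _ _) a
  rw [cd_self] at e3
  obtain ⟨q, k1, k2⟩ := bbt h (p := p) (x := 1) (y := g) (by omega)
  obtain ⟨q', k3, k4⟩ := bbt h.inv (p := p) (x := 1) (y := g) (by omega)
  rw [map_one, e] at k1
  rw [map_one, show φ⁻¹ g = g by rw [← e, MulAut.inv_apply_self, e]] at k3
  have l0 : (0 : ℤ) ≤ l := Nat.cast_nonneg l
  set K : ℤ := 2 * l ^ 3 + l with hK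
  have K0 : 0 ≤ K := by positivity
  have lK := mul_nonneg l0 K0
  rw [st_iff, st_iff]
  suffices cd p (φ p) ≤ (2 * l + 3) * K ∨ φ p ∈ hs p (p * lt s) ∨ φ⁻¹ p ∈ hs p (p * lt s) by
    refine this.imp_left fun c => ?_
    have : (2 * l + 3) * K ≤ 10 * ((l : ℤ) + 1) ^ 5 := by
      rw [← sub_nonneg, hK]; ring_nf; positivity
    rw [Kc]
    rw [cd] at c
    exact_mod_cast c.trans this
  have t1 := cd_tri p q (φ p)
  rw [cd_comm (φ p)] at k2
  rw [cd_comm (φ⁻¹ p)] at k4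
  by_cases c : q ∈ hs p (p * lt s)
  · rcases lt_or_ge K (cd q p) with d | d
    · exact .inr (.inl (hs_deep e1 c (k2.trans_lt d)))
    · rw [cd_comm] at d
      exact .inl (by linarith)
  by_cases c' : q' ∈ hs p (p * lt s)
  · rcases lt_or_ge K (cd q' p) with d | d
    · exact .inr (.inr (hs_deep e1 c' (k4.trans_lt d)))
    · have t2 := cd_tri (φ⁻¹ p) q' p
      have t3 := GT1_cd h (φ⁻¹ p) p
      rw [MulAut.apply_inv_self] at t3
      rw [cd_comm _ q'] at t2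
      have := mul_le_mul_of_nonneg_left (show cd (φ⁻¹ p) p ≤ 2 * K by omega) l0
      exact .inl (by linarith)
  have f1 := hs_cross e1 c a
  have f2 := hs_cross e1 c' a
  obtain ⟨r, k5, k6⟩ := bbt h (p := q') (x := 1) (y := p) (by omega)
  have t3 := GT1_cd h q' (φ⁻¹ p)
  rw [MulAut.apply_inv_self] at t3
  rw [map_one] at k5
  have t4 := mul_le_mul_of_nonneg_left k4 l0
  have t5 := cd_tri 1 r p
  have t6 := cd_tri r (φ q') p
  have t7 := cd_tri 1 q (φ p)
  have t8 := cd_nonneg r (φ p)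
  rw [cd_comm r (φ q')] at t6
  rw [cd_comm p q] at t1
  exact .inl (by linarith)

theorem gt_sound (h : GT Φ W) (g : FreeGroup X) : g ∈ cl W ↔ ∀ φ ∈ Φ, φ g = g := by
  obtain ⟨h0, l, R, h1, h2, h3, h4⟩ := h
  have hf : ∀ φ ∈ Φ, ∀ k ∈ cl W, φ k = k := fun φ a => stabH_cl.2 (h0 φ a)
  refine ⟨fun a φ b => hf φ b g a, fun hg => ?_⟩
  have key : ∀ (n : ℕ) (p : FreeGroup X), cd p g = n → cd 1 p + cd p g = cd 1 g → ∀ k ∈ cl W,
      ∀ p' ∈ R, p = k * p' → (p' = 1 ∨ ∃ s, En p s ∧ En p' s) → g ∈ cl W := by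
    intro n
    induction n with
    | zero =>
      intro p a _ k b p' c d _
      rw [cd_eq_zero.1 a] at d
      rw [d]
      refine mul_mem b (h4 p' c fun φ e => mul_left_cancel (a := k) ?_)
      rw [← d, ← hg φ e, d, map_mul, hf φ e k b]
    | succ n ih =>
      intro p a a' k b p' c d e
      obtain ⟨y, k1, k2⟩ := ex_step (x := p) (w := g) fun e => by rw [e, cd_self] at a; omega
      obtain ⟨t, rfl⟩ := cd_one_iff.1 k1
      have k3 := cd_step k1 g
      have k4 : cd g (p * lt t) < cd g p := k2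
      have k5 := cd_tri 1 (p * lt t) g
      have k6 := cd_step k1 1
      rw [cd_comm g, cd_comm g] at k3 k4
      have k7 : (1 : FreeGroup X) ∉ hs p (p * lt t) := fun (c : cd 1 _ < cd 1 _) => by omega
      have k8 : cd p' (p' * lt t) = 1 := cd_one_iff.2 ⟨t, rfl⟩
      refine (h3 p' c t ⟨?_, fun φ f => ?_⟩).elim fun p'' ⟨m1, m2, m3⟩ => ?_
      rotate_right
      · refine ih (p * lt t) (by omega) (by omega) _ (mul_mem b m3) p'' m1 (by rw [d]; group)
          (.inr ⟨t, en_iff.2 ?_, m2⟩)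
        rw [mul_inv_cancel_right]
        change cd 1 _ < cd 1 _
        omega
      · have k9 : (1 : FreeGroup X) ∉ hs p' (p' * lt t) := by
          rcases e with rfl | ⟨s, e1, e2⟩
          · exact left_notMem_hs _ _
          · intro f
            rw [en_iff] at e1 e2
            rw [← mul_left_cancel (step_uniq k8 (cd_one_iff.2 ⟨_, by rw [lt_inv]⟩) f e2)] at e1
            exact k7 e1
        have m1 := cd_step k8 1
        have m2 : ¬ cd 1 (p' * lt t) < cd 1 p' := k9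
        simp only [cd, inv_one, one_mul] at m1 m2
        omega
      · have m1 := hf φ f k b
        have m2 : φ.symm k = k := by rw [← m1, MulEquiv.symm_apply_apply, m1]
        simpa [d, m1, m2, mul_assoc] using alw_of_fix (h1 φ f) (hg φ f) k2 k7
  exact key _ 1 rfl (by rw [cd_self, zero_add]) 1 (one_mem _) 1 h2 (by simp) (.inl rfl)

end Pool.Agent.Work.MP_3bdf32_al
end

-- merged part: Pool.Agent.Work.MP_3bdf32_al.GT2
section
/-! Existence of the fixed subgroup certificate under linear growth. -/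

namespace Pool.Agent.Work.MP_3bdf32_al

set_option linter.unusedSectionVars false
set_option linter.unusedVariables false

open Subgroup MulAction Filter
open scoped Pointwise

variable {X : Type} [Fintype X] [DecidableEq X] {W : List (FreeGroup X)}
  {Φ : List (MulAut (FreeGroup X))} {φ μ ν : MulAut (FreeGroup X)} {l : ℕ} {p q g : FreeGroup X}

/-- deterministic excursions -/
theorem GT2_exc {A : Type} (u : ℕ → A) (N : A → ℕ) (fin : ∀ B, {a | N a ≤ B}.Finite)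
    (P : Bool → ℕ → Prop) (K L : ℕ) (h0 : N (u 0) ≤ K) (hL : ∀ n, N (u (n + 1)) ≤ N (u n) + L)
    (ty : ∀ n, K < N (u n) → ∃ t, P t n)
    (per : ∀ t n, K < N (u n) → K < N (u (n + 1)) → P t n → P t (n + 1))
    (det : ∀ t n m, P t n → P t m → u n = u m → u (n + 1) = u (m + 1)) :
    (∃ B, ∀ n, N (u n) ≤ B) ∨
      ∃ t n₀, (∀ n, n₀ ≤ n → P t n) ∧ ∀ B, ∃ n₁, ∀ n, n₁ ≤ n → B ≤ N (u n) := by
  classical
  have same : ∀ t n m k, P t n → P t m → u n = u m → (∀ j ≤ k, K < N (u (n + j))) →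
      P t (n + k) ∧ P t (m + k) ∧ u (n + k) = u (m + k) := by
    intro t n m k a b c
    induction k with
    | zero => exact fun _ => ⟨a, b, c⟩
    | succ k ih =>
      intro d
      obtain ⟨a', b', c'⟩ := ih fun j hj => d j (by omega)
      have e := det t _ _ a' b' c'
      have d1 := d k (by omega)
      have d2 : K < N (u (n + k + 1)) := d (k + 1) le_rfl
      exact ⟨per t _ d1 d2 a', per t _ (c' ▸ d1) (e ▸ d2) b', e⟩
  by_cases c : ∃ n₀, ∀ n, n₀ ≤ n → K < N (u n)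
  · obtain ⟨n₀, c⟩ := c
    obtain ⟨t, ht⟩ := ty n₀ (c n₀ le_rfl)
    have hP : ∀ n, n₀ ≤ n → P t n := fun n hn => by
      obtain ⟨k, rfl⟩ := Nat.exists_eq_add_of_le hn
      exact (same t n₀ n₀ k ht ht rfl fun j _ => c _ (by omega)).1
    by_cases i : Set.InjOn u {n | n₀ ≤ n}
    · refine Or.inr ⟨t, n₀, hP, fun B => ?_⟩
      have f : ({n | n₀ ≤ n} ∩ u ⁻¹' {a | N a ≤ B}).Finite :=
        Set.Finite.of_finite_image ((fin B).subset (by rintro _ ⟨n, h, rfl⟩; exact h.2))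
          (i.mono Set.inter_subset_left)
      obtain ⟨b, hb⟩ := f.bddAbove
      refine ⟨n₀ + b + 1, fun n hn => ?_⟩
      by_contra h
      have := hb (show n ∈ {n | n₀ ≤ n} ∩ u ⁻¹' {a | N a ≤ B} from
        ⟨show n₀ ≤ n by omega, show N (u n) ≤ B by omega⟩)
      omega
    · left
      obtain ⟨n, m, hn, hnm, e⟩ : ∃ n m, n₀ ≤ n ∧ n < m ∧ u n = u m := by
        by_contra h
        refine i fun a ha b hb e => ?_
        rcases lt_trichotomy a b with d | d | d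
        · exact absurd ⟨a, b, ha, d, e⟩ h
        · exact d
        · exact absurd ⟨b, a, hb, d, e.symm⟩ h
      refine ⟨(Finset.range m).sup fun j => N (u j), fun j => ?_⟩
      induction j using Nat.strong_induction_on with
      | _ j ih =>
        by_cases d : j < m
        · exact Finset.le_sup (f := fun j => N (u j)) (Finset.mem_range.2 d)
        · obtain ⟨k, rfl⟩ := Nat.exists_eq_add_of_le (not_lt.1 d)
          rw [← (same t n m k (hP n hn) (hP m (by omega)) e fun j _ => c _ (by omega)).2.2]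
          exact ih _ (by omega)
  · left
    have ex : ∀ a t, ∃ k, ∀ n, P t n → u n = a → ∃ j ≤ k, N (u (n + j)) ≤ K := by
      intro a t
      by_cases d : ∃ m, P t m ∧ u m = a
      · obtain ⟨m, hm, rfl⟩ := d
        obtain ⟨k, hk⟩ : ∃ k, N (u (m + k)) ≤ K := by
          by_contra h
          refine c ⟨m, fun n hn => ?_⟩
          obtain ⟨k, rfl⟩ := Nat.exists_eq_add_of_le hn
          exact not_le.1 fun h' => h ⟨k, h'⟩
        refine ⟨k, fun n hn e => ?_⟩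
        by_contra h
        have h' : ∀ j ≤ k, K < N (u (n + j)) := fun j hj => not_le.1 fun h' => h ⟨j, hj, h'⟩
        have := h' k le_rfl
        rw [(same t n m k hn hm e h').2.2] at this
        omega
      · exact ⟨0, fun n hn e => absurd ⟨n, hn, e⟩ d⟩
    choose k hk using ex
    obtain ⟨E, hE⟩ := ((fin (K + L)).image fun a => k a true + k a false).bddAbove
    have grow : ∀ n j, N (u (n + j)) ≤ N (u n) + L * j := fun n j => by
      induction j with
      | zero => simp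
      | succ j ih => exact (hL (n + j)).trans (by rw [Nat.mul_succ]; omega)
    refine ⟨K + L + L * E, fun n => ?_⟩
    by_contra h
    have g1 := Nat.findGreatest_spec (P := fun j => N (u j) ≤ K) (Nat.zero_le n) h0
    have g2 := Nat.findGreatest_le (P := fun j => N (u j) ≤ K) n
    have g3 : ∀ j, Nat.findGreatest (fun j => N (u j) ≤ K) n < j → j ≤ n → ¬ N (u j) ≤ K :=
      fun j => Nat.findGreatest_is_greatest
    generalize Nat.findGreatest (fun j => N (u j) ≤ K) n = m at g1 g2 g3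
    have g4 : m < n := lt_of_le_of_ne g2 (by rintro rfl; omega)
    obtain ⟨t, ht⟩ := ty (m + 1) (not_le.1 (g3 _ (by omega) g4))
    obtain ⟨j, hj, hj'⟩ := hk _ t _ ht rfl
    have g5 := hL m
    have g6 := hE ⟨u (m + 1), show N (u (m + 1)) ≤ K + L by omega, rfl⟩
    have g7 : j ≤ E := by cases t <;> simp only at g6 <;> omega
    have g8 : n < m + 1 + j := by
      by_contra h'
      exact g3 _ (by omega) (by omega) hj'
    obtain ⟨i, rfl⟩ := Nat.exists_eq_add_of_le (show m + 1 ≤ n from g4)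
    have g9 := grow (m + 1) i
    have := Nat.mul_le_mul_left L (show i ≤ E by omega)
    omega

theorem GT2_one (g : FreeGroup X) : cd 1 g = g.norm := by rw [cd, inv_one, one_mul]

theorem GT2_cd (p : FreeGroup X) (s : X × Bool) : cd p (p * lt s) = 1 := cd_one_iff.2 ⟨s, rfl⟩

theorem GT2_lip (h : Lip l φ) (x y : FreeGroup X) : cd (φ x) (φ y) ≤ l * cd x y := by
  rw [cd, cd, ← map_inv, ← map_mul]
  exact_mod_cast lip_norm h _

theorem GT2_step {s : X × Bool} (h : p.norm < (p * lt s).norm) :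
    (p * lt s).norm = p.norm + 1 := by
  have := cd_step (GT2_cd p s) 1
  rw [GT2_one, GT2_one] at this
  omega

/-- geodesic rays -/
structure GT2_Ray (r : ℕ → FreeGroup X) : Prop where
  adj : ∀ n, cd (r n) (r (n + 1)) = 1
  norm : ∀ n, cd 1 (r n) = n

/-- `r m` lies between `1` and `y` -/
def GT2_Ext (r : ℕ → FreeGroup X) (m : ℕ) (y : FreeGroup X) : Prop := cd 1 y = m + cd (r m) y

variable {r : ℕ → FreeGroup X} {y : FreeGroup X}

theorem GT2_Ray.le (h : GT2_Ray r) (i k : ℕ) : cd (r i) (r (i + k)) ≤ k := by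
  induction k with
  | zero => simp [cd_self]
  | succ k ih =>
    have a := cd_tri (r i) (r (i + k)) (r (i + k + 1))
    rw [h.adj] at a
    rw [← add_assoc]
    push_cast
    omega

theorem GT2_Ray.mono (h : GT2_Ray r) {i j : ℕ} (e : i ≤ j) (a : GT2_Ext r j y) : GT2_Ext r i y := by
  obtain ⟨k, rfl⟩ := Nat.exists_eq_add_of_le e
  have b := h.le i k
  have c := cd_tri (r i) (r (i + k)) y
  have d := cd_tri 1 (r i) y
  rw [h.norm] at d
  unfold GT2_Ext at a ⊢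
  push_cast at a
  omega

theorem GT2_Ray.self (h : GT2_Ray r) (i : ℕ) : GT2_Ext r i (r i) := by
  rw [GT2_Ext, h.norm, cd_self, add_zero]

theorem GT2_Ray.hs (h : GT2_Ray r) {i : ℕ} : y ∈ hs (r i) (r (i + 1)) ↔ GT2_Ext r (i + 1) y := by
  constructor
  · intro a
    have b := hs_cross (v := 1) (h.adj i) (by
      change ¬ cd 1 (r (i + 1)) < cd 1 (r i)
      rw [h.norm, h.norm]
      omega) a
    rw [GT2_Ext, b, h.norm]
    push_cast
    rfl
  · intro a
    have d := cd_tri 1 (r i) y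
    rw [h.norm] at d
    change cd y (r (i + 1)) < cd y (r i)
    rw [cd_comm y, cd_comm y]
    unfold GT2_Ext at a
    push_cast at a
    omega

theorem GT2_Ray.near (h : GT2_Ray r) {i a : ℕ} {w : FreeGroup X} (e : GT2_Ext r (i + a) w)
    (d : cd w y ≤ a) : GT2_Ext r i y := by
  cases i with
  | zero =>
    have : r 0 = 1 := (cd_eq_zero.1 (by rw [h.norm]; rfl)).symm
    simp [GT2_Ext, this]
  | succ i =>
    refine h.hs.1 (hs_deep (h.adj i) (h.hs.2 (h.mono (by omega) e)) ?_)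
    have b := h.mono (show i ≤ i + 1 + a by omega) e
    have c := cd_nonneg (r (i + 1 + a)) w
    rw [cd_comm w (r i)]
    unfold GT2_Ext at b e
    push_cast at e
    omega

theorem GT2_Ray.far (h : GT2_Ray r) {i : ℕ} (e : GT2_Ext r i q) (d : cd 1 q + cd q y = cd 1 y) :
    GT2_Ext r i y := by
  have a := cd_tri (r i) q y
  have b := cd_tri 1 (r i) y
  rw [h.norm] at b
  unfold GT2_Ext at e ⊢
  omega

theorem GT2_Ray.bbt (h : GT2_Ray r) (hl : Lip l φ) {i : ℕ} (e : GT2_Ext r i y) :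
    ∃ q, cd 1 q + cd q (φ y) = cd 1 (φ y) ∧ cd (φ (r i)) q ≤ 2 * l ^ 3 + l := by
  have := MP_3bdf32_al.bbt hl (x := 1) (p := r i) (y := y) (by rw [h.norm]; exact e.symm)
  rwa [map_one] at this

/-- the type does not change when the displacement is large -/
theorem GT2_Ray.switch (h : GT2_Ray r) (hl : Lip l φ) {n : ℕ} (a : GT2_Ext r (n + 1) (φ (r n)))
    (b : GT2_Ext r (n + 2) (φ⁻¹ (r (n + 1)))) : cd (r n) (φ (r n)) ≤ 2 * l ^ 3 + 2 * l + 1 := by
  obtain ⟨q, c, d⟩ := h.bbt hl (h.mono (Nat.le_succ _) b)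
  rw [MulAut.apply_inv_self, h.norm] at c
  have e := h.mono (Nat.le_succ _) a
  have f := GT2_lip hl (r (n + 1)) (r n)
  rw [cd_comm (r (n + 1)), h.adj, mul_one] at f
  have g1 := cd_tri 1 q (φ (r n))
  have g2 := cd_tri q (φ (r (n + 1))) (φ (r n))
  have g3 := cd_nonneg q (r (n + 1))
  rw [cd_comm q (φ (r (n + 1)))] at g2
  unfold GT2_Ext at e
  push_cast at c
  omega

theorem GT2_Ray.jump (h : GT2_Ray r) (hl : Lip l φ) {m D : ℕ}
    (a : ∀ n, m ≤ n → GT2_Ext r (n + 1) (φ (r n)))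
    (b : 3 * (2 * l ^ 3 + l) + D ≤ ((r m)⁻¹ * φ (r m)).norm) (e : GT2_Ext r m y) :
    GT2_Ext r (m + D) (φ y) := by
  classical
  have b' : 3 * (2 * (l : ℤ) ^ 3 + l) + D ≤ cd (r m) (φ (r m)) := by
    rw [cd]
    exact_mod_cast b
  have c := h.mono (Nat.le_succ _) (a m le_rfl)
  have bd : ∀ j, GT2_Ext r j (φ (r m)) → j ≤ (φ (r m)).norm := fun j hj => by
    have := cd_nonneg (r j) (φ (r m))
    rw [GT2_Ext, GT2_one] at hj
    omega
  have g1 := Nat.findGreatest_spec (P := fun j => GT2_Ext r j (φ (r m))) (bd m c) c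
  have g2 := Nat.le_findGreatest (P := fun j => GT2_Ext r j (φ (r m))) (bd m c) c
  have g3 : ¬ GT2_Ext r (Nat.findGreatest (fun j => GT2_Ext r j (φ (r m))) (φ (r m)).norm + 1)
      (φ (r m)) := fun h' => Nat.findGreatest_is_greatest (Nat.lt_succ_self _) (bd _ h') h'
  generalize Nat.findGreatest (fun j => GT2_Ext r j (φ (r m))) (φ (r m)).norm = j at g1 g2 g3
  have g4 : cd (r j) (φ (r m)) ≤ 2 * l ^ 3 + l := by
    obtain ⟨q, c1, c2⟩ := h.bbt hl (h.mono g2 (h.self j))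
    by_cases d : q ∈ MP_3bdf32_al.hs (r j) (r (j + 1))
    · have d1 := hs_cross (h.adj j) (mt h.hs.1 g3) d
      have d2 := cd_nonneg (r (j + 1)) q
      rw [cd_comm (r j)]
      omega
    · have d1 := hs_cross (h.adj j) d (h.hs.2 (a j g2))
      have d2 := a j g2
      have d3 := cd_nonneg q (r j)
      have d4 := cd_tri 1 q (φ (r m))
      rw [cd_comm q] at d4
      unfold GT2_Ext at d2 g1
      push_cast at d2
      omega
  obtain ⟨q, c1, c2⟩ := h.bbt hl e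
  refine h.far (h.near (a := 2 * (2 * l ^ 3 + l)) (h.mono ?_ (h.self j)) ?_) c1
  · unfold GT2_Ext at c g1
    zify
    omega
  · have := cd_tri (r j) (φ (r m)) q
    push_cast
    omega

theorem GT2_Ray.iter (h : GT2_Ray r) (hl : Lip l φ) {m D : ℕ}
    (a : ∀ n, m ≤ n → GT2_Ext r (n + 1) (φ (r n)))
    (b : ∀ n, m ≤ n → 3 * (2 * l ^ 3 + l) + D ≤ ((r n)⁻¹ * φ (r n)).norm) (e : GT2_Ext r m y)
    (i : ℕ) : GT2_Ext r (m + D * i) ((φ ^ i) y) := by
  induction i with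
  | zero => exact e
  | succ i ih =>
    rw [pow_succ', MulAut.mul_apply, Nat.mul_succ, ← add_assoc]
    exact h.jump hl (fun n hn => a n (by omega)) (b _ (by omega)) ih

theorem GT2_Ray.grow (h : GT2_Ray r) (hl : Lip l φ) {n₀ : ℕ}
    (a : ∀ n, n₀ ≤ n → GT2_Ext r (n + 1) (φ (r n)))
    (b : ∀ B, ∃ n₁, ∀ n, n₁ ≤ n → B ≤ ((r n)⁻¹ * φ (r n)).norm) (E : Finset (FreeGroup X))
    (lg : ∀ n, ∃ e ∈ E, ∃ c : ℕ, ∀ k : ℕ, ((φ ^ k) (r n * e)).norm ≤ c * (k + 1)) : False := by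
  obtain ⟨n₁, b₁⟩ := b (3 * (2 * l ^ 3 + l) + 1)
  obtain ⟨e, he, c, hc⟩ := lg (n₀ + n₁ + E.sup FreeGroup.norm)
  obtain ⟨n₂, b₂⟩ := b (3 * (2 * l ^ 3 + l) + (c + 1))
  have e₀ := h.near (h.self (n₀ + n₁ + E.sup FreeGroup.norm))
    (y := r (n₀ + n₁ + E.sup FreeGroup.norm) * e)
    (by rw [cd_mul]; exact_mod_cast Finset.le_sup he)
  have e₁ := h.iter hl (fun n hn => a n (by omega)) (fun n hn => b₁ n (by omega)) e₀ n₂
  have e₂ := h.iter hl (fun n hn => a n (by omega)) (fun n hn => b₂ n (by omega)) e₁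
    (c * (n₂ + 1) + 1)
  rw [← MulAut.mul_apply, ← pow_add, GT2_Ext, GT2_one] at e₂
  have f := hc (c * (n₂ + 1) + 1 + n₂)
  have f' := cd_nonneg (r (n₀ + n₁ + 1 * n₂ + (c + 1) * (c * (n₂ + 1) + 1)))
    ((φ ^ (c * (n₂ + 1) + 1 + n₂)) (r (n₀ + n₁ + E.sup FreeGroup.norm) * e))
  have f'' : (c + 1) * (c * (n₂ + 1) + 1) ≤ c * (c * (n₂ + 1) + 1 + n₂ + 1) := by omega
  nlinarith

theorem GT2_st {s t : X × Bool} (a : St g s) (b : St g t) : s = t := by
  rw [← one_mul g, ← inv_one, st_iff] at a b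
  exact lt_inj (mul_left_cancel (step_uniq (GT2_cd 1 s) (GT2_cd 1 t) a b))

theorem GT2_en {s t : X × Bool} (a : En g s) (b : En g t) : s = t := by
  have c : ∀ s, cd g (g * (lt s)⁻¹) = 1 := fun s => by rw [lt_inv]; exact GT2_cd _ _
  exact lt_inj (inv_injective (mul_left_cancel (step_uniq (c s) (c t) (en_iff.1 a) (en_iff.1 b))))

theorem GT2_ball (B : ℕ) : {a : FreeGroup X | a.norm ≤ B}.Finite :=
  (ball_fin 1 B).subset fun a ha => by
    change cd 1 a ≤ B
    rw [GT2_one]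
    exact_mod_cast ha

theorem GT2_norm {K : ℕ} {s : ℕ → X × Bool} (r₀ : r 0 = 1) (rs : ∀ n, r (n + 1) = r n * lt (s n))
    (al : ∀ n, Alw K Φ (r n) (s n)) (n : ℕ) : (r n).norm = n := by
  induction n with
  | zero => rw [r₀, FreeGroup.norm_one]
  | succ n ih => rw [rs, GT2_step (al n).1, ih]

/-- along an allowed ray the displacement of an automorphism of linear growth is bounded -/
theorem ray_bdd (h : Lip l φ) (r : ℕ → FreeGroup X) (s : ℕ → X × Bool) (r₀ : r 0 = 1)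
    (rs : ∀ n, r (n + 1) = r n * lt (s n)) (al : ∀ n, Alw (Kc l) [φ] (r n) (s n))
    (E : Finset (FreeGroup X)) (lg : ∀ n, ∃ e ∈ E, ∃ c : ℕ, ∀ k : ℤ,
      ((φ ^ k) (r n * e)).norm ≤ c * (k.natAbs + 1)) :
    ∃ B, ∀ n, ((r n)⁻¹ * φ (r n)).norm ≤ B := by
  have hr : GT2_Ray r := ⟨fun n => by rw [rs]; exact GT2_cd _ _,
    fun n => by rw [GT2_one, GT2_norm r₀ rs al]⟩
  have st : ∀ n y, St ((r n)⁻¹ * y) (s n) ↔ GT2_Ext r (n + 1) y := fun n y => by
    rw [st_iff, ← rs, hr.hs]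
  have nm : ∀ n (ψ : MulAut (FreeGroup X)), Lip l ψ →
      cd (r n) (ψ (r n)) ≤ l * cd (r n) (ψ⁻¹ (r n)) := fun n ψ a => by
    have := GT2_lip a (ψ⁻¹ (r n)) (r n)
    rwa [MulAut.apply_inv_self, cd_comm (ψ⁻¹ _)] at this
  have ty : ∀ n, Kc l < ((r n)⁻¹ * φ (r n)).norm →
      GT2_Ext r (n + 1) (φ (r n)) ∨ GT2_Ext r (n + 1) (φ⁻¹ (r n)) := fun n a => by
    rw [← st, ← st]
    exact ((al n).2 φ List.mem_cons_self).resolve_left (not_le.2 a)
  have hK : (l : ℤ) * (2 * l ^ 3 + 2 * l + 1) + (2 * l ^ 3 + 2 * l + 1) ≤ Kc l := by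
    have : l * (2 * l ^ 3 + 2 * l + 1) + (2 * l ^ 3 + 2 * l + 1) ≤ Kc l := by
      unfold Kc
      ring_nf
      omega
    exact_mod_cast this
  have hl : (0 : ℤ) ≤ l := Int.natCast_nonneg l
  refine (GT2_exc (fun n => (r n)⁻¹ * φ (r n)) FreeGroup.norm GT2_ball
    (fun t n => GT2_Ext r (n + 1) ((if t then φ else φ⁻¹) (r n))) (Kc l) (l + 1)
    (by simp [r₀]) (fun n => ?_)
    (fun n a => (ty n a).elim (fun b => ⟨true, b⟩) fun b => ⟨false, b⟩) (fun t n a b c => ?_)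
    (fun t n m a b c => ?_)).elim id fun ⟨t, n₀, a, b⟩ => ?_
  · have a := cd_tri (r (n + 1)) (r n) (φ (r (n + 1)))
    have b := cd_tri (r n) (φ (r n)) (φ (r (n + 1)))
    have c := GT2_lip h (r n) (r (n + 1))
    rw [cd_comm (r (n + 1)) (r n), hr.adj] at a
    rw [hr.adj, mul_one] at c
    zify
    change cd _ _ ≤ cd _ _ + _
    omega
  · have a' : (Kc l : ℤ) < cd (r n) (φ (r n)) := by rw [cd]; exact_mod_cast a
    have p1 : (0 : ℤ) ≤ 2 * l ^ 3 + 2 * l + 1 := by positivity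
    cases t
    · refine (ty _ b).resolve_left fun d => ?_
      have e := mul_le_mul_of_nonneg_left (hr.switch h.inv c (by rwa [inv_inv])) hl
      have f := nm n φ h
      omega
    · refine (ty _ b).resolve_right fun d => ?_
      have e := hr.switch h c d
      have f := mul_nonneg hl p1
      omega
  · have d : s n = s m := by
      cases t
      · have e : ∀ n, (r n)⁻¹ * φ⁻¹ (r n) = φ⁻¹ ((r n)⁻¹ * φ (r n))⁻¹ := fun n => by simp
        refine GT2_st ((st _ _).2 a) ?_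
        change St ((r n)⁻¹ * φ⁻¹ (r n)) (s m)
        rw [e, c, ← e]
        exact (st _ _).2 b
      · refine GT2_st ((st _ _).2 a) ?_
        change St ((r n)⁻¹ * φ (r n)) (s m)
        rw [c]
        exact (st _ _).2 b
    have e : ∀ n, (r (n + 1))⁻¹ * φ (r (n + 1)) =
        (lt (s n))⁻¹ * ((r n)⁻¹ * φ (r n)) * φ (lt (s n)) := fun n => by
      rw [rs, map_mul]
      group
    rw [e, e, c, d]
  · exfalso
    cases t
    · refine hr.grow h.inv a (fun B => ?_) E fun n => ?_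
      · obtain ⟨n₁, c⟩ := b (l * B + 1)
        refine ⟨n₁, fun n d => ?_⟩
        have e := nm n φ h
        have f := c n d
        rw [cd, cd] at e
        have e' : ((r n)⁻¹ * φ (r n)).norm ≤ l * ((r n)⁻¹ * φ⁻¹ (r n)).norm := by exact_mod_cast e
        exact (Nat.lt_of_mul_lt_mul_left (a := l) (by omega)).le
      · obtain ⟨e, c, k, d⟩ := lg n
        refine ⟨e, c, k, fun j => ?_⟩
        have := d (-j)
        rwa [zpow_neg, zpow_natCast, ← inv_pow, Int.natAbs_neg, Int.natAbs_natCast] at this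
    · refine hr.grow h a b E fun n => ?_
      obtain ⟨e, c, k, d⟩ := lg n
      refine ⟨e, c, k, fun j => ?_⟩
      have := d j
      rwa [zpow_natCast, Int.natAbs_natCast] at this

/-- along an allowed ray only finitely many cosets occur -/
theorem GT2_cos (s : ℕ → X × Bool) (r₀ : r 0 = 1) (rs : ∀ n, r (n + 1) = r n * lt (s n)) :
    ∀ Φ : List (MulAut (FreeGroup X)), LG Φ → (∀ φ ∈ Φ, Lip l φ) →
      (∀ n, Alw (Kc l) Φ (r n) (s n)) →
      ∃ E : Finset (FreeGroup X), ∀ n, ∃ e ∈ E, ∀ φ ∈ Φ, φ (r n * e) = r n * e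
  | [], _, _, _ => ⟨{1}, fun n => ⟨1, Finset.mem_singleton_self _, fun _ h => nomatch h⟩⟩
  | φ :: Φ, h, hl, al => by
    obtain ⟨E, hE⟩ := GT2_cos s r₀ rs Φ h.1 (fun ψ a => hl ψ (List.mem_cons_of_mem _ a))
      fun n => ⟨(al n).1, fun ψ a => (al n).2 ψ (List.mem_cons_of_mem _ a)⟩
    obtain ⟨B, hB⟩ := ray_bdd (hl φ List.mem_cons_self) r s r₀ rs
      (fun n => ⟨(al n).1, fun ψ a => (al n).2 ψ (List.mem_singleton.1 a ▸ List.mem_cons_self)⟩)
      E fun n => let ⟨e, a, b⟩ := hE n; ⟨e, a, h.2 _ b⟩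
    choose e he he' using hE
    let f : ℕ → FreeGroup X × FreeGroup X := fun n => (e n, (r n)⁻¹ * φ (r n))
    have hf : (Set.range f).Finite := (E.finite_toSet.prod (GT2_ball B)).subset (by
      rintro _ ⟨n, rfl⟩
      exact ⟨he n, hB n⟩)
    refine ⟨hf.toFinset.image fun x => (r (Function.invFun f x))⁻¹, fun n =>
      ⟨_, Finset.mem_image_of_mem _ (hf.mem_toFinset.2 ⟨n, rfl⟩), ?_⟩⟩
    obtain ⟨a, b⟩ := Prod.mk.inj (Function.invFun_eq (f := f) ⟨n, rfl⟩)
    generalize Function.invFun f (f n) = m at a b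
    intro ψ c
    rcases List.mem_cons.1 c with rfl | c
    · rw [map_mul, map_inv, ← eq_inv_mul_iff_mul_eq.1 b.symm]
      group
    · rw [show r n * (r m)⁻¹ = r n * e n * (r m * e m)⁻¹ by rw [a]; group, map_mul, map_inv,
        he' n ψ c, he' m ψ c]

/-- equal states -/
def GT2_Eq (Φ : List (MulAut (FreeGroup X))) (p q : FreeGroup X) : Prop :=
  (∀ φ ∈ Φ, φ (p * q⁻¹) = p * q⁻¹) ∧ ∀ s, En p s ↔ En q s

theorem GT2_Eq.symm (h : GT2_Eq Φ p q) : GT2_Eq Φ q p :=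
  ⟨fun φ a => by rw [← inv_inj, ← map_inv, mul_inv_rev, inv_inv, h.1 φ a], fun s => (h.2 s).symm⟩

theorem GT2_Eq.trans (h : GT2_Eq Φ p q) (h' : GT2_Eq Φ q g) : GT2_Eq Φ p g :=
  ⟨fun φ a => by
    rw [show p * g⁻¹ = p * q⁻¹ * (q * g⁻¹) by group, map_mul, h.1 φ a, h'.1 φ a],
    fun s => (h.2 s).trans (h'.2 s)⟩

theorem GT2_en_step {s : X × Bool} (h : p.norm < (p * lt s).norm) : En (p * lt s) s := by
  rwa [En, mul_inv_cancel_right]

theorem GT2_Eq.alw (h : GT2_Eq Φ p q) {K : ℕ} {s : X × Bool} (a : Alw K Φ p s) :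
    Alw K Φ q s ∧ GT2_Eq Φ (p * lt s) (q * lt s) := by
  have b : q.norm < (q * lt s).norm := by
    have c := h.2 (s.1, !s.2)
    have d := cd_step (GT2_cd q s) 1
    have e := a.1
    rw [En, En, ← lt_inv, inv_inv] at c
    rw [GT2_one, GT2_one] at d
    omega
  have c : ∀ ψ : MulAut (FreeGroup X), ψ (p * q⁻¹) = p * q⁻¹ → q⁻¹ * ψ q = p⁻¹ * ψ p :=
    fun ψ e => by
      rw [map_mul, map_inv, mul_inv_eq_iff_eq_mul] at e
      rw [e]
      group
  refine ⟨⟨b, fun φ e => ?_⟩, fun φ e => ?_, fun t => ?_⟩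
  · rw [c φ (h.1 φ e), c φ⁻¹ (by rw [MulAut.inv_def, MulEquiv.symm_apply_eq, h.1 φ e])]
    exact a.2 φ e
  · rw [show p * lt s * (q * lt s)⁻¹ = p * q⁻¹ by group, h.1 φ e]
  · exact ⟨fun e => GT2_en (GT2_en_step a.1) e ▸ GT2_en_step b,
      fun e => GT2_en (GT2_en_step b) e ▸ GT2_en_step a.1⟩

/-- descendants by allowed steps -/
def GT2_D (K : ℕ) (Φ : List (MulAut (FreeGroup X))) : FreeGroup X → FreeGroup X → Prop :=
  Relation.ReflTransGen fun a b => ∃ s, Alw K Φ a s ∧ b = a * lt s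

/-- shortest reachable words in their state -/
def GT2_T (K : ℕ) (Φ : List (MulAut (FreeGroup X))) (p : FreeGroup X) : Prop :=
  GT2_D K Φ 1 p ∧ ∀ q, GT2_D K Φ 1 q → GT2_Eq Φ p q → p.norm ≤ q.norm

theorem GT2_pre {K : ℕ} (a : GT2_D K Φ 1 p) (b : GT2_D K Φ p q) (c : GT2_T K Φ q) :
    GT2_T K Φ p := by
  induction b with
  | refl => exact c
  | @tail x y b d ih =>
    obtain ⟨s, d, rfl⟩ := d
    refine ih ⟨a.trans b, fun z e f => ?_⟩
    have i := c.2 _ (e.tail ⟨s, (f.alw d).1, rfl⟩) (f.alw d).2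
    rw [GT2_step d.1, GT2_step (f.alw d).1.1] at i
    omega

theorem GT2_fin (h : LG Φ) (hl : ∀ φ ∈ Φ, Lip l φ) : {p | GT2_T (Kc l) Φ p}.Finite := by
  by_contra inf
  have step : ∀ p : {p // GT2_D (Kc l) Φ 1 p ∧
      {q | GT2_T (Kc l) Φ q ∧ GT2_D (Kc l) Φ p q}.Infinite},
      ∃ (s : X × Bool) (p' : {p // GT2_D (Kc l) Φ 1 p ∧
        {q | GT2_T (Kc l) Φ q ∧ GT2_D (Kc l) Φ p q}.Infinite}),
        Alw (Kc l) Φ p s ∧ p'.1 = p * lt s := by
    rintro ⟨p, a, b⟩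
    by_contra c
    refine b (((Set.finite_singleton p).union (Set.Finite.biUnion
      (Set.toFinite {s | Alw (Kc l) Φ p s}) (t := fun s =>
        {q | GT2_T (Kc l) Φ q ∧ GT2_D (Kc l) Φ (p * lt s) q}) fun s d => ?_)).subset ?_)
    · by_contra e
      exact c ⟨s, ⟨p * lt s, a.tail ⟨s, d, rfl⟩, e⟩, d, rfl⟩
    · rintro q ⟨d, e⟩
      rcases e.cases_head with rfl | ⟨_, ⟨s, f, rfl⟩, i⟩
      · exact Or.inl rfl
      · exact Or.inr (Set.mem_biUnion f ⟨d, i⟩)
  choose σ F hσ hF using step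
  let o : {p // GT2_D (Kc l) Φ 1 p ∧ {q | GT2_T (Kc l) Φ q ∧ GT2_D (Kc l) Φ p q}.Infinite} :=
    ⟨1, .refl, fun f => inf (f.subset fun q a => ⟨a, a.1⟩)⟩
  have rs : ∀ n, (F^[n + 1] o).1 = (F^[n] o).1 * lt (σ (F^[n] o)) := fun n => by
    rw [Function.iterate_succ_apply', hF]
  have hT : ∀ n, GT2_T (Kc l) Φ (F^[n] o).1 := fun n =>
    let ⟨q, a, b⟩ := (F^[n] o).2.2.nonempty
    GT2_pre (F^[n] o).2.1 b a
  have hn := GT2_norm (r := fun n => (F^[n] o).1) rfl rs fun n => hσ _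
  obtain ⟨E, hE⟩ := GT2_cos (r := fun n => (F^[n] o).1) _ rfl rs Φ h hl fun n => hσ _
  choose e he he' using hE
  obtain ⟨n, m, a, b⟩ := Finite.exists_ne_map_eq_of_infinite
    fun n => ((⟨e n, he n⟩ : E), fun s => En (F^[n] o).1 s)
  obtain ⟨b, c⟩ := Prod.mk.inj b
  have d : GT2_Eq Φ (F^[n] o).1 (F^[m] o).1 := ⟨fun φ i => by
    rw [show (F^[n] o).1 * (F^[m] o).1⁻¹ = (F^[n] o).1 * e n * ((F^[m] o).1 * e m)⁻¹ by
      rw [Subtype.mk.inj b]; group, map_mul, map_inv, he' n φ i, he' m φ i],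
    fun s => iff_of_eq (congrFun c s)⟩
  have i := (hT n).2 _ (hT m).1 d
  have j := (hT m).2 _ (hT n).1 d.symm
  rw [hn, hn] at i j
  omega

theorem gt_fin (h : LG Φ) : ∃ l R, GTc (fun g => ∀ φ ∈ Φ, φ g = g) Φ l R := by
  obtain ⟨l, hl⟩ := ex_lip Φ
  have f := GT2_fin h hl
  have m : ∀ p, p ∈ f.toFinset.toList ↔ GT2_T (Kc l) Φ p := fun p => by
    rw [Finset.mem_toList, f.mem_toFinset]
    rfl
  refine ⟨l, f.toFinset.toList, hl, (m 1).2 ⟨.refl, fun q _ _ => by simp⟩, fun p a s b => ?_,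
    fun p _ a => a⟩
  have c : GT2_D (Kc l) Φ 1 (p * lt s) := ((m p).1 a).1.tail ⟨s, b, rfl⟩
  obtain ⟨q, ⟨d, e⟩, i⟩ := (measure FreeGroup.norm).wf.has_min
    {q | GT2_D (Kc l) Φ 1 q ∧ GT2_Eq Φ (p * lt s) q}
    ⟨p * lt s, c, fun φ _ => by simp, fun _ => Iff.rfl⟩
  exact ⟨q, (m q).2 ⟨d, fun z j k => not_lt.1 (i z ⟨j, e.trans k⟩)⟩,
    (e.2 s).1 (GT2_en_step b.1), e.1⟩

theorem gt_ex (h : LG Φ) (e : ∀ g, g ∈ cl W ↔ ∀ φ ∈ Φ, φ g = g) : GT Φ W := by
  obtain ⟨l, R, a⟩ := gt_fin h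
  refine ⟨fun φ b w c => (e w).1 (mem_cl c) φ b, l, R, ?_⟩
  rwa [funext fun g => propext (e g)]

theorem gt_fg (h : LG Φ) : ∃ J : List (FreeGroup X), ∀ g, g ∈ cl J ↔ ∀ φ ∈ Φ, φ g = g := by
  obtain ⟨l, R, a, b, c, d⟩ := gt_fin h
  have f : {g | (∀ φ ∈ Φ, φ g = g) ∧
      (g ∈ R ∨ ∃ p ∈ R, ∃ s, ∃ p' ∈ R, g = p * lt s * p'⁻¹)}.Finite := by
    refine (R.finite_toSet.union ((R.finite_toSet.prod ((Set.toFinite Set.univ).prod
      R.finite_toSet)).image fun t : FreeGroup X × (X × Bool) × FreeGroup X =>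
        t.1 * lt t.2.1 * t.2.2⁻¹)).subset ?_
    rintro g ⟨-, i | ⟨p, i, s, p', j, rfl⟩⟩
    · exact Or.inl i
    · exact Or.inr ⟨(p, s, p'), ⟨i, trivial, j⟩, rfl⟩
  have m := fun g => (Finset.mem_toList (s := f.toFinset) (a := g)).trans f.mem_toFinset
  refine ⟨f.toFinset.toList, gt_sound ⟨fun φ i w j => ((m w).1 j).1 φ i, l, R, a, b,
    fun p i s j => ?_, fun p i j => mem_cl ((m p).2 ⟨j, Or.inl i⟩)⟩⟩
  obtain ⟨p', k, e, e'⟩ := c p i s j
  exact ⟨p', k, e, mem_cl ((m _).2 ⟨e', Or.inr ⟨p, i, s, p', k, rfl⟩⟩)⟩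

theorem conj_lin (z g : FreeGroup X) :
    ∃ c : ℕ, ∀ k : ℤ, ((MulAut.conj z ^ k) g).norm ≤ c * (k.natAbs + 1) := by
  have a : ∀ n : ℕ, (z ^ n).norm ≤ n * z.norm := fun n => by
    induction n with
    | zero => simp
    | succ n ih =>
      rw [pow_succ, Nat.succ_mul]
      exact (FreeGroup.norm_mul_le _ _).trans (Nat.add_le_add_right ih _)
  have b : ∀ k : ℤ, (z ^ k).norm ≤ k.natAbs * z.norm := fun k => by
    obtain ⟨n, rfl | rfl⟩ := k.eq_nat_or_neg
    · rw [zpow_natCast, Int.natAbs_natCast]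
      exact a n
    · rw [zpow_neg, zpow_natCast, FreeGroup.norm_inv_eq, Int.natAbs_neg, Int.natAbs_natCast]
      exact a n
  refine ⟨2 * z.norm + g.norm, fun k => ?_⟩
  rw [← map_zpow, MulAut.conj_apply]
  have c := FreeGroup.norm_mul_le (z ^ k * g) (z ^ k)⁻¹
  have d := FreeGroup.norm_mul_le (z ^ k) g
  have e := b k
  rw [FreeGroup.norm_inv_eq] at c
  nlinarith [Nat.zero_le (g.norm * k.natAbs), Nat.zero_le z.norm]

theorem gt_conj {z : FreeGroup X} (e : ∀ g, g ∈ cl W ↔ g ∈ cen z) : GT [MulAut.conj z] W := by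
  refine gt_ex ⟨trivial, fun g _ => conj_lin z g⟩ fun g => ?_
  rw [e, mem_cen, List.forall_mem_singleton, MulAut.conj_apply, mul_inv_eq_iff_eq_mul]
  exact eq_comm

theorem gt_conj_iff {z : FreeGroup X} : GT [MulAut.conj z] [z] ↔ zpowers z = cen z := by
  have a : cl [z] = zpowers z := by
    rw [cl, zpowers_eq_closure]
    simp
  refine ⟨fun h => Subgroup.ext fun g => ?_, fun h => gt_conj fun g => by rw [a, h]⟩
  rw [← a, gt_sound h, mem_cen, List.forall_mem_singleton, MulAut.conj_apply,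
    mul_inv_eq_iff_eq_mul]
  exact eq_comm

end Pool.Agent.Work.MP_3bdf32_al
end

-- merged part: Pool.Agent.Work.MP_3bdf32_al.PR1
section
/-! Whitehead moves in terms of half trees. -/

namespace Pool.Agent.Work.MP_3bdf32_al

set_option linter.unusedSectionVars false
set_option linter.unusedVariables false

open Subgroup MulAction Filter
open scoped Pointwise

variable {X : Type} [Fintype X] [DecidableEq X] {W : List (FreeGroup X)}
  {Φ : List (MulAut (FreeGroup X))} {φ μ ν : MulAut (FreeGroup X)} {l : ℕ} {p q g : FreeGroup X}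
  {U P : Set (FreeGroup X)}

theorem PR1_mem_aut {G : Type} [Group G] (μ : MulAut G) {A : Set G} {w : G} :
    w ∈ μ • A ↔ μ⁻¹ w ∈ A := Set.mem_smul_set_iff_inv_smul_mem

theorem PR1_aut_smul {G : Type} [Group G] (μ : MulAut G) (k : G) (A : Set G) :
    μ • k • A = μ k • μ • A := by
  ext w
  rw [PR1_mem_aut, mem_smul', mem_smul', PR1_mem_aut, map_mul, map_inv]
  simp

theorem PR1_aut_sg {G : Type} [Group G] (μ : MulAut G) (b : Bool) (A : Set G) :
    μ • sg b A = sg b (μ • A) := by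
  cases b
  · exact Set.smul_set_compl
  · rfl

theorem PR1_db_aut {G : Type} [Group G] (μ : MulAut G) (A : Set G) (s : G) :
    db (μ • A) s = μ • db A (μ⁻¹ s) := by
  ext w
  rw [PR1_mem_aut]
  change ¬ (w ∈ μ • A ↔ w * s ∈ μ • A) ↔ ¬ (μ⁻¹ w ∈ A ↔ μ⁻¹ w * μ⁻¹ s ∈ A)
  rw [PR1_mem_aut, PR1_mem_aut, map_mul]

theorem PR1_cd_lt (x : FreeGroup X) (s : X × Bool) : cd x (x * lt s) = 1 := cd_one_iff.2 ⟨s, rfl⟩

theorem PR1_cd_one (s : X × Bool) : cd (1 : FreeGroup X) (lt s) = 1 := by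
  simpa using PR1_cd_lt (1 : FreeGroup X) s

theorem PR1_norm_lt (s : X × Bool) : (lt s).norm = 1 := by
  have := PR1_cd_one s
  simpa [cd] using this

theorem PR1_cd_of (x : X) : cd (1 : FreeGroup X) (FreeGroup.of x) = 1 := by
  rw [← lt_true]; exact PR1_cd_one _

theorem PR1_mem_hs {w y : FreeGroup X} : w ∈ hs 1 y ↔ (y⁻¹ * w).norm < w.norm := by
  change cd w y < cd w 1 ↔ _
  rw [cd_comm w y, cd_comm w 1]
  simp [cd]

theorem PR1_ex_dir {w : FreeGroup X} (h : w ≠ 1) : ∃ s, w ∈ hs 1 (lt s) := by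
  obtain ⟨y, a, b⟩ := ex_step h.symm
  obtain ⟨s, rfl⟩ := cd_one_iff.1 a
  exact ⟨s, by simpa using b⟩

theorem PR1_dir_uniq {w : FreeGroup X} {s s' : X × Bool} (a : w ∈ hs 1 (lt s))
    (b : w ∈ hs 1 (lt s')) : s = s' :=
  lt_inj (step_uniq (PR1_cd_one s) (PR1_cd_one s') a b)

theorem PR1_flip (s : X × Bool) (w : FreeGroup X) :
    lt s * w ∈ hs 1 (lt s) ↔ w ∉ hs 1 (lt (s.1, !s.2)) := by
  have h1 : hs 1 (lt s) = lt s • (hs 1 (lt (s.1, !s.2)))ᶜ := by
    rw [hs_compl (PR1_cd_one _), hs_smul, ← lt_inv, mul_inv_cancel, mul_one]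
  rw [h1, mul_mem_smul]
  rfl

theorem PR1_pp (β : MulAut (FreeGroup X)) (S : X × Bool → Set (FreeGroup X))
    (h1 : ∀ s, (1 : FreeGroup X) ∉ S s) (h2 : ∀ s s' w, w ∈ S s → w ∈ S s' → s = s')
    (h3 : ∀ s w, w ∉ S (s.1, !s.2) → β (lt s) * w ∈ S s) (s : X × Bool) :
    β • hs 1 (lt s) = S s := by
  have key : ∀ n : ℕ, ∀ w : FreeGroup X, w.norm < n → ∀ s, w ∈ hs 1 (lt s) → β w ∈ S s := by
    intro n
    induction n with
    | zero => intro w hw; omega
    | succ n ih =>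
      intro w hw s hs'
      have e : w = lt s * ((lt s)⁻¹ * w) := by simp
      have hlt := PR1_mem_hs.1 hs'
      rw [e, map_mul]
      apply h3
      by_cases h0 : (lt s)⁻¹ * w = 1
      · rw [h0, map_one]; exact h1 _
      · obtain ⟨s', hs''⟩ := PR1_ex_dir h0
        intro c
        have := h2 _ _ _ c (ih _ (by omega) s' hs'')
        subst this
        exact (PR1_flip s _).1 (e ▸ hs') hs''
  ext v
  rw [PR1_mem_aut]
  constructor
  · intro a
    simpa using key _ _ (Nat.lt_succ_self _) s a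
  · intro a
    have h0 : β⁻¹ v ≠ 1 := by
      intro c
      have : v = 1 := by simpa using congrArg β c
      exact h1 s (this ▸ a)
    obtain ⟨s', hs'⟩ := PR1_ex_dir h0
    have := key _ _ (Nat.lt_succ_self _) s' hs'
    rw [h2 s s' v a (by simpa using this)]
    exact hs'

theorem wt_smul (k : FreeGroup X) (U : Set (FreeGroup X)) : wt W (k • U) = wt W U := by
  simp only [wt, db_smul, Set.ncard_smul_set]

theorem wt_compl (U : Set (FreeGroup X)) : wt W Uᶜ = wt W U := by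
  simp only [wt, db_compl]

theorem bs_clo (μ : MulAut (FreeGroup X)) (x : X) : Clo (bs μ x) := by
  intro s
  rw [bs, PR1_db_aut]
  exact (HT.clo ⟨_, _, PR1_cd_of x, rfl⟩ _).smul_set

theorem ef_iff : U ∈ Ef μ ↔ ∃ (k : FreeGroup X) (x : X) (b : Bool), U = sg b (k • bs μ x) := by
  change HT (μ • U) ↔ _
  rw [ht_iff]
  constructor
  · rintro ⟨k, x, b, e⟩
    refine ⟨μ⁻¹ k, x, b, ?_⟩
    rw [bs, ← PR1_aut_smul, ← PR1_aut_sg, ← e, inv_smul_smul]
  · rintro ⟨k, x, b, rfl⟩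
    refine ⟨μ k, x, b, ?_⟩
    rw [bs, PR1_aut_sg, PR1_aut_smul, smul_inv_smul]

theorem PR1_sg_inj {k k' : FreeGroup X} {x x' : X} {b b' : Bool}
    (e : sg b (k • hs 1 (FreeGroup.of x)) = sg b' (k' • hs 1 (FreeGroup.of x'))) :
    k = k' ∧ x = x' := by
  have c : ∀ (k : FreeGroup X) (x : X), cd k (k * FreeGroup.of x) = 1 := fun k x => by
    rw [← lt_true]; exact PR1_cd_lt _ _
  have c' : ∀ (k : FreeGroup X) (x : X), cd (k * FreeGroup.of x) k = 1 := fun k x => by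
    rw [cd_comm]; exact c k x
  have d : ∀ {k k' : FreeGroup X} {x x' : X}, k = k' * FreeGroup.of x' →
      k * FreeGroup.of x = k' → False := by
    intro k k' x x' a b
    have : lt (x, true) = lt (x', false) := by
      have h := lt_inv (x', true)
      rw [lt_true] at h ⊢
      rw [a, mul_assoc] at b
      have b' : FreeGroup.of x' * FreeGroup.of x = 1 := by simpa using b
      rw [← eq_inv_of_mul_eq_one_right b'] at h
      exact h
    simpa using lt_inj this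
  rw [hs_smul, hs_smul, mul_one, mul_one] at e
  cases b <;> cases b'
  · obtain ⟨rfl, a⟩ := hs_inj (c _ _) (c _ _) (compl_injective e)
    exact ⟨rfl, FreeGroup.of_injective (mul_left_cancel a)⟩
  · rw [sg_false, sg_true, hs_compl (c _ _)] at e
    obtain ⟨a, b⟩ := hs_inj (c' _ _) (c _ _) e
    exact (d b a).elim
  · rw [sg_false, sg_true, hs_compl (c _ _)] at e
    obtain ⟨a, b⟩ := hs_inj (c _ _) (c' _ _) e
    exact (d a b).elim
  · obtain ⟨rfl, a⟩ := hs_inj (c _ _) (c _ _) e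
    exact ⟨rfl, FreeGroup.of_injective (mul_left_cancel a)⟩

theorem PR1_norm (g : FreeGroup X) :
    g.norm = ∑ x, (db (hs 1 (FreeGroup.of x)) g).ncard := by
  classical
  have hf : ∀ x, (db (hs 1 (FreeGroup.of x)) g).Finite := fun x =>
    HT.clo ⟨_, _, PR1_cd_of x, rfl⟩ _
  let S : Finset (Σ _ : X, FreeGroup X) := Finset.univ.sigma fun x => (hf x).toFinset
  let F : (Σ _ : X, FreeGroup X) → Set (FreeGroup X) := fun p =>
    sg (decide (p.2 ∉ hs 1 (FreeGroup.of p.1))) (p.2⁻¹ • hs 1 (FreeGroup.of p.1))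
  have hS : ∀ p, p ∈ S ↔ p.2 ∈ db (hs 1 (FreeGroup.of p.1)) g := fun p => by
    simp [S]
  have h1 : {U | HT U ∧ (1 : FreeGroup X) ∉ U ∧ g ∈ U} = F '' (S : Set _) := by
    ext U
    constructor
    · rintro ⟨a, b, c⟩
      obtain ⟨k, x, e, rfl⟩ := ht_iff.1 a
      refine ⟨⟨x, k⁻¹⟩, (hS _).2 ?_, ?_⟩
      · change ¬ (k⁻¹ ∈ hs 1 (FreeGroup.of x) ↔ k⁻¹ * g ∈ hs 1 (FreeGroup.of x))
        cases e
        · simp only [sg_false, Set.mem_compl_iff, mem_smul', mul_one] at b c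
          tauto
        · simp only [sg_true, mem_smul', mul_one] at b c
          tauto
      · simp only [F, inv_inv]
        congr 1
        cases e
        · simp only [sg_false, Set.mem_compl_iff, mem_smul', mul_one, not_not] at b
          simp [b]
        · simp only [sg_true, mem_smul', mul_one] at b
          simp [b]
    · rintro ⟨⟨x, k⟩, a, rfl⟩
      have a' : ¬ (k ∈ hs 1 (FreeGroup.of x) ↔ k * g ∈ hs 1 (FreeGroup.of x)) := (hS _).1 a
      refine ⟨ht_iff.2 ⟨_, _, _, rfl⟩, ?_, ?_⟩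
      · by_cases h : k ∈ hs 1 (FreeGroup.of x)
        · simp [F, h, mem_smul']
        · simp [F, h, mem_smul']
      · by_cases h : k ∈ hs 1 (FreeGroup.of x)
        · have : k * g ∉ hs 1 (FreeGroup.of x) := by tauto
          simp [F, h, mem_smul', this]
        · have : k * g ∈ hs 1 (FreeGroup.of x) := by tauto
          simp [F, h, mem_smul', this]
  have h2 : Set.InjOn F (S : Set _) := by
    rintro ⟨x, k⟩ - ⟨x', k'⟩ - e
    obtain ⟨a, b⟩ := PR1_sg_inj e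
    obtain rfl : k = k' := inv_injective a
    obtain rfl : x = x' := b
    rfl
  have h3 := sep_card (1 : FreeGroup X) g
  rw [h1, h2.ncard_image, Set.ncard_coe_finset, Finset.card_sigma] at h3
  have h4 : cd (1 : FreeGroup X) g = g.norm := by simp [cd]
  rw [h4] at h3
  rw [← Int.natCast_inj.1 h3]
  exact Finset.sum_congr rfl fun x _ => (Set.ncard_eq_toFinset_card _ (hf x)).symm

theorem norm_eq (μ : MulAut (FreeGroup X)) (g : FreeGroup X) :
    (μ g).norm = ∑ x, (db (bs μ x) g).ncard := by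
  rw [PR1_norm]
  refine Finset.sum_congr rfl fun x _ => ?_
  rw [bs, PR1_db_aut, Set.ncard_smul_set, inv_inv]

theorem len_eq (μ : MulAut (FreeGroup X)) : len W μ = ∑ x, wt W (bs μ x) := by
  induction W with
  | nil => simp [len, wt]
  | cons h W ih =>
    simp only [len, wt, List.map_cons, List.sum_cons] at ih ⊢
    rw [Finset.sum_add_distrib, ih, norm_eq]

theorem PR1_lt_cases (s : X × Bool) :
    lt s = FreeGroup.of s.1 ∧ s.2 = true ∨ lt s = (FreeGroup.of s.1)⁻¹ ∧ s.2 = false := by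
  obtain ⟨x, b⟩ := s
  cases b
  · right
    refine ⟨?_, rfl⟩
    rw [← lt_true, lt_inv]; rfl
  · exact .inl ⟨lt_true x, rfl⟩

/-- the endomorphism fixing the letter `a` and wrapping the other letters -/
noncomputable def PR1_hom (a : X) (f : X × Bool → FreeGroup X) : FreeGroup X →* FreeGroup X :=
  FreeGroup.lift fun y =>
    if y = a then FreeGroup.of y else f (y, true) * FreeGroup.of y * (f (y, false))⁻¹

theorem PR1_hom_self (a : X) (f : X × Bool → FreeGroup X) (b : Bool) :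
    PR1_hom a f (lt (a, b)) = lt (a, b) := by
  rcases PR1_lt_cases (a, b) with ⟨e, -⟩ | ⟨e, -⟩ <;> rw [e] <;> simp [PR1_hom]

theorem PR1_hom_ne (a : X) (f : X × Bool → FreeGroup X) (s : X × Bool) (h : s.1 ≠ a) :
    PR1_hom a f (lt s) = f s * lt s * (f (s.1, !s.2))⁻¹ := by
  obtain ⟨y, b⟩ := s
  have h' : y ≠ a := h
  rcases PR1_lt_cases (y, b) with ⟨e, e'⟩ | ⟨e, e'⟩
  · obtain rfl : b = true := e'
    rw [e]; simp [PR1_hom, h']
  · obtain rfl : b = false := e'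
    rw [e]; simp [PR1_hom, h', mul_assoc]

theorem PR1_hom_comp (a : X) (f : X × Bool → FreeGroup X)
    (h : ∀ s, PR1_hom a f (f s) = f s) :
    (PR1_hom a f).comp (PR1_hom a fun s => (f s)⁻¹) = MonoidHom.id _ := by
  ext y
  rw [MonoidHom.comp_apply, MonoidHom.id_apply, ← lt_true]
  by_cases e : y = a
  · subst e
    rw [PR1_hom_self, PR1_hom_self]
  · rw [PR1_hom_ne a _ (y, true) e, map_mul, map_mul, map_inv, map_inv, map_inv, h, h,
      PR1_hom_ne a _ (y, true) e]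
    group

theorem PR1_hom_norm (a : X) (f : X × Bool → FreeGroup X) (h : ∀ s, (f s).norm ≤ 1) (y : X) :
    (PR1_hom a f (FreeGroup.of y)).norm ≤ 3 := by
  rw [← lt_true]
  by_cases e : y = a
  · subst e
    rw [PR1_hom_self, PR1_norm_lt]; omega
  · rw [PR1_hom_ne a _ (y, true) e]
    have h1 := FreeGroup.norm_mul_le (f (y, true) * lt (y, true)) (f (y, !true))⁻¹
    have h2 := FreeGroup.norm_mul_le (f (y, true)) (lt (y, true))
    rw [FreeGroup.norm_inv_eq] at h1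
    rw [PR1_norm_lt] at h2
    have h3 := h (y, true)
    have h4 := h (y, !true)
    change (f (y, true) * lt (y, true) * (f (y, !true))⁻¹).norm ≤ 3
    omega

theorem PR1_aut (t : X × Bool) (f : X × Bool → FreeGroup X)
    (hf : ∀ s, f s = 1 ∨ f s = (lt t)⁻¹) :
    ∃ β : MulAut (FreeGroup X), Lip 3 β ∧ (∀ b, β (lt (t.1, b)) = lt (t.1, b)) ∧
      ∀ s : X × Bool, s.1 ≠ t.1 → β (lt s) = f s * lt s * (f (s.1, !s.2))⁻¹ := by
  have h0 : ∀ (f' : X × Bool → FreeGroup X) s, PR1_hom t.1 f' (f s) = f s := by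
    intro f' s
    rcases hf s with e | e
    · rw [e, map_one]
    · rw [e, map_inv, PR1_hom_self t.1 f' t.2]
  have h1 := PR1_hom_comp t.1 f (h0 f)
  have h2 := PR1_hom_comp t.1 (fun s => (f s)⁻¹) (fun s => by rw [map_inv, h0])
  simp only [inv_inv] at h2
  have hn : ∀ s, (f s).norm ≤ 1 := by
    intro s
    rcases hf s with e | e
    · rw [e]; simp
    · rw [e, FreeGroup.norm_inv_eq, PR1_norm_lt]
  refine ⟨MonoidHom.toMulEquiv (PR1_hom t.1 f) (PR1_hom t.1 fun s => (f s)⁻¹) h2 h1,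
    fun x => ⟨PR1_hom_norm _ _ hn x, PR1_hom_norm t.1 (fun s => (f s)⁻¹) (fun s => ?_) x⟩,
    fun b => PR1_hom_self _ _ b, fun s h => PR1_hom_ne _ _ s h⟩
  rw [FreeGroup.norm_inv_eq]; exact hn s

/-- the Whitehead automorphism of a set of directions -/
theorem wh_move (t : X × Bool) (D : Set (X × Bool)) (a : t ∈ D) (b : (t.1, !t.2) ∉ D) :
    ∃ β : MulAut (FreeGroup X), Lip 3 β ∧ β • hs 1 (lt t) = ⋃ s ∈ D, hs 1 (lt s) ∧
      ∀ x, x ≠ t.1 → ∃ k : FreeGroup X, β • hs 1 (FreeGroup.of x) = k • hs 1 (FreeGroup.of x) := by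
  classical
  obtain ⟨f, hfD, hfN⟩ : ∃ f : X × Bool → FreeGroup X,
      (∀ s ∈ D, f s = (lt t)⁻¹) ∧ ∀ s, s ∉ D → f s = 1 :=
    ⟨fun s => if s ∈ D then (lt t)⁻¹ else 1, fun s h => if_pos h, fun s h => if_neg h⟩
  obtain ⟨β, hl, hβt, hβ⟩ := PR1_aut t f fun s => by
    by_cases h : s ∈ D
    exacts [.inr (hfD s h), .inl (hfN s h)]
  obtain ⟨Q, hQ⟩ : ∃ Q : Set (FreeGroup X), Q = ⋃ s ∈ D, hs 1 (lt s) := ⟨_, rfl⟩
  have mQ : ∀ w, w ∈ Q ↔ ∃ s ∈ D, w ∈ hs 1 (lt s) := fun w => by simp [hQ]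
  rw [← hQ]
  obtain ⟨u, hu⟩ : ∃ u : X × Bool, u = (t.1, !t.2) := ⟨_, rfl⟩
  have hut : u ≠ t := by
    rintro e
    rw [← hu, e] at b
    exact b a
  have hub : (u.1, !u.2) = t := by rw [hu]; simp
  rw [← hu] at b
  have tri : ∀ s : X × Bool, s = t ∨ s = u ∨ s.1 ≠ t.1 := by
    rintro ⟨y, c⟩
    obtain ⟨z, d⟩ := t
    by_cases e : y = z
    · subst e
      rw [hu]
      cases c <;> cases d <;> simp
    · exact .inr (.inr e)
  have hu1 : u.1 = t.1 := by rw [hu]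
  obtain ⟨S, St, Su, So⟩ : ∃ S : X × Bool → Set (FreeGroup X), S t = Q ∧
      (∀ w, w ∈ S u ↔ lt t * w ∉ Q) ∧
      ∀ s : X × Bool, s.1 ≠ t.1 → S s = f s • hs 1 (lt s) := by
    refine ⟨fun s => if s = t then Q else if s = u then {w | lt t * w ∉ Q}
      else f s • hs 1 (lt s), if_pos rfl, fun w => ?_, fun s h => ?_⟩
    · simp [hut]
    · have h1 : s ≠ t := fun e => h (by rw [e])
      have h2 : s ≠ u := fun e => h (by rw [e, hu1])
      simp [h1, h2]
  have back : ∀ w, lt t * w ∉ hs 1 (lt t) → w ∈ hs 1 (lt u) := by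
    intro w h
    by_contra c
    exact h ((PR1_flip t w).2 (hu ▸ c))
  have c1 : ∀ w, w ∈ S t → ∃ s ∈ D, w ∈ hs 1 (lt s) := fun w h => (mQ w).1 (St ▸ h)
  have c2 : ∀ w, w ∈ S u → w ∈ hs 1 (lt u) ∧ lt t * w ∉ Q := fun w h =>
    ⟨back w fun c => (Su w).1 h ((mQ _).2 ⟨t, a, c⟩), (Su w).1 h⟩
  have c3 : ∀ s : X × Bool, s.1 ≠ t.1 → ∀ w, w ∈ S s →
      (s ∉ D ∧ w ∈ hs 1 (lt s)) ∨ (s ∈ D ∧ w ∈ hs 1 (lt u) ∧ lt t * w ∈ hs 1 (lt s)) := by
    intro s h w hw
    rw [So s h, mem_smul'] at hw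
    by_cases e : s ∈ D
    · rw [hfD s e, inv_inv] at hw
      refine .inr ⟨e, back w fun c => h ?_, hw⟩
      rw [PR1_dir_uniq hw c]
    · rw [hfN s e, inv_one, one_mul] at hw
      exact .inl ⟨e, hw⟩
  have h1 : ∀ s, (1 : FreeGroup X) ∉ S s := by
    intro s c
    rcases tri s with rfl | rfl | h
    · obtain ⟨s', -, e⟩ := c1 _ c
      exact left_notMem_hs _ _ e
    · exact left_notMem_hs _ _ (c2 _ c).1
    · rcases c3 s h _ c with ⟨-, e⟩ | ⟨-, e, -⟩ <;> exact left_notMem_hs _ _ e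
  have d12 : ∀ w, w ∈ S t → w ∈ S u → False := by
    intro w i j
    obtain ⟨s', e, e'⟩ := c1 _ i
    exact b (PR1_dir_uniq e' (c2 _ j).1 ▸ e)
  have d13 : ∀ s : X × Bool, s.1 ≠ t.1 → ∀ w, w ∈ S t → w ∈ S s → False := by
    intro s h w i j
    obtain ⟨s', e, e'⟩ := c1 _ i
    rcases c3 s h w j with ⟨m, n⟩ | ⟨-, n, -⟩
    · exact m (PR1_dir_uniq e' n ▸ e)
    · exact b (PR1_dir_uniq e' n ▸ e)
  have d23 : ∀ s : X × Bool, s.1 ≠ t.1 → ∀ w, w ∈ S u → w ∈ S s → False := by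
    intro s h w i j
    obtain ⟨e, e'⟩ := c2 _ i
    rcases c3 s h w j with ⟨m, n⟩ | ⟨m, -, n⟩
    · exact h (by rw [PR1_dir_uniq n e, hu1])
    · exact e' ((mQ _).2 ⟨s, m, n⟩)
  have h2 : ∀ s s' w, w ∈ S s → w ∈ S s' → s = s' := by
    intro s s' w i j
    rcases tri s with rfl | rfl | h <;> rcases tri s' with rfl | rfl | h'
    · rfl
    · exact (d12 w i j).elim
    · exact (d13 _ h' w i j).elim
    · exact (d12 w j i).elim
    · rfl
    · exact (d23 _ h' w i j).elim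
    · exact (d13 _ h w j i).elim
    · exact (d23 _ h w j i).elim
    · rcases c3 s h w i with ⟨m, n⟩ | ⟨m, n, o⟩ <;>
        rcases c3 s' h' w j with ⟨m', n'⟩ | ⟨m', n', o'⟩
      · exact PR1_dir_uniq n n'
      · exact (h (by rw [PR1_dir_uniq n n', hu1])).elim
      · exact (h' (by rw [PR1_dir_uniq n' n, hu1])).elim
      · exact PR1_dir_uniq o o'
  have h3 : ∀ s w, w ∉ S (s.1, !s.2) → β (lt s) * w ∈ S s := by
    intro s w i
    rcases tri s with rfl | rfl | h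
    · rw [← hu, Su, not_not] at i
      rw [hβt s.2, St]; exact i
    · rw [hub, St] at i
      have e : β (lt s) = (lt t)⁻¹ := by
        rw [lt_inv, ← hβt (!t.2), ← hu]
      rw [Su, e, mul_inv_cancel_left]; exact i
    · rw [So (s.1, !s.2) h, mem_smul'] at i
      rw [So s h, hβ s h, mul_assoc, mul_assoc, mul_mem_smul]
      exact (PR1_flip s _).2 i
  have key := PR1_pp β S h1 h2 h3
  refine ⟨β, hl, (key t).trans St, fun x hx => ⟨f (x, true), ?_⟩⟩
  rw [← lt_true, key, So (x, true) hx]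

/-- replacing a basic half tree by a union of directions at a vertex -/
theorem exch (μ : MulAut (FreeGroup X)) (v : FreeGroup X) (x : X)
    (m : ∀ s, Mono (hs v (v * lt s)) (μ • P))
    (e : ¬ (v * FreeGroup.of x ∈ μ • P ↔ v * (FreeGroup.of x)⁻¹ ∈ μ • P)) :
    ∃ ω, Lip 3 ω ∧ (∃ (k : FreeGroup X) (b : Bool), bs (ω * μ) x = sg b (k • P)) ∧
      ∀ y, y ≠ x → ∃ k : FreeGroup X, bs (ω * μ) y = k • bs μ y := by
  obtain ⟨c, hc⟩ : ∃ c : Bool, (1 : FreeGroup X) ∉ sg c (v⁻¹ • μ • P) := by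
    by_cases h : (1 : FreeGroup X) ∈ v⁻¹ • μ • P
    · exact ⟨false, fun a => a h⟩
    · exact ⟨true, h⟩
  obtain ⟨Q, hQ⟩ : ∃ Q, Q = sg c (v⁻¹ • μ • P) := ⟨_, rfl⟩
  rw [← hQ] at hc
  have mQ : ∀ s, Mono (hs 1 (lt s)) Q := by
    intro s
    have := (m s).smul' v⁻¹
    rw [hs_smul, inv_mul_cancel, inv_mul_cancel_left] at this
    rw [hQ]
    cases c
    exacts [this.compl, this]
  have hD : ∀ s, hs 1 (lt s) ⊆ Q ↔ lt s ∈ Q := by
    intro s
    refine ⟨fun h => h (right_mem_hs (PR1_cd_one s)), fun h w hw => ?_⟩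
    exact ((mQ s).iff (right_mem_hs (PR1_cd_one s)) hw).1 h
  have hU : (⋃ s ∈ {s : X × Bool | hs 1 (lt s) ⊆ Q}, hs 1 (lt s)) = Q := by
    ext w
    simp only [Set.mem_iUnion, exists_prop]
    constructor
    · rintro ⟨s, i, j⟩
      exact i j
    · intro i
      obtain ⟨s, j⟩ := PR1_ex_dir (w := w) (fun e => hc (e ▸ i))
      exact ⟨s, fun w' k => ((mQ s).iff j k).1 i, j⟩
  have e' : ¬ (lt (x, true) ∈ Q ↔ lt (x, false) ∈ Q) := by
    have h1 : lt (x, false) = (FreeGroup.of x)⁻¹ := by rw [← lt_true, lt_inv]; rfl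
    rw [h1, lt_true, hQ]
    cases c
    · simp only [sg_false, Set.mem_compl_iff, mem_smul', inv_inv]
      tauto
    · simp only [sg_true, mem_smul', inv_inv]
      exact e
  have hμ : μ⁻¹ • Q = sg c ((μ⁻¹ v⁻¹) • P) := by
    rw [hQ, PR1_aut_sg, PR1_aut_smul, inv_smul_smul]
  have hbs : ∀ (β : MulAut (FreeGroup X)) y,
      bs (β⁻¹ * μ) y = μ⁻¹ • β • hs 1 (FreeGroup.of y) := fun β y => by
    rw [bs, mul_inv_rev, inv_inv, mul_smul]
  have fin : ∀ β : MulAut (FreeGroup X), (∀ y, y ≠ x → ∃ k : FreeGroup X,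
      β • hs 1 (FreeGroup.of y) = k • hs 1 (FreeGroup.of y)) →
      ∀ y, y ≠ x → ∃ k : FreeGroup X, bs (β⁻¹ * μ) y = k • bs μ y := by
    intro β h y hy
    obtain ⟨k, hk⟩ := h y hy
    exact ⟨μ⁻¹ k, by rw [hbs, hk, PR1_aut_smul, bs]⟩
  by_cases h : lt (x, true) ∈ Q
  · obtain ⟨β, i, j, o⟩ := wh_move (x, true) {s : X × Bool | hs 1 (lt s) ⊆ Q} ((hD _).2 h)
      (fun a => e' (iff_of_true h ((hD _).1 a)))
    refine ⟨β⁻¹, i.inv, ⟨μ⁻¹ v⁻¹, c, ?_⟩, fin β o⟩
    rw [hbs, ← lt_true, j, hU, hμ]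
  · have h' : lt (x, false) ∈ Q := by tauto
    obtain ⟨β, i, j, o⟩ := wh_move (x, false) {s : X × Bool | hs 1 (lt s) ⊆ Q} ((hD _).2 h')
      (fun a => h ((hD _).1 a))
    refine ⟨β⁻¹, i.inv, ⟨μ⁻¹ (β (FreeGroup.of x)) * μ⁻¹ v⁻¹, !c, ?_⟩, fin β o⟩
    have h1 : hs 1 (FreeGroup.of x) = FreeGroup.of x • sg false (hs 1 (lt (x, false))) := by
      ext w
      rw [mem_smul', ← lt_true]
      have := PR1_flip (x, true) ((lt (x, true))⁻¹ * w)
      rw [mul_inv_cancel_left] at this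
      exact this
    rw [hbs, h1, PR1_aut_smul, PR1_aut_smul, PR1_aut_sg, PR1_aut_sg, j, hU, hμ, sg_false,
      sg_compl, sg_smul, mul_smul]

theorem exch_len {ω : MulAut (FreeGroup X)} {x : X} {k : FreeGroup X} {b : Bool}
    (e : bs (ω * μ) x = sg b (k • P))
    (f : ∀ y, y ≠ x → ∃ k : FreeGroup X, bs (ω * μ) y = k • bs μ y) :
    len W (ω * μ) + wt W (bs μ x) = len W μ + wt W P := by
  have h1 : wt W (bs (ω * μ) x) = wt W P := by
    rw [e]
    cases b
    · rw [sg_false, wt_compl, wt_smul]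
    · rw [sg_true, wt_smul]
  have h2 : ∑ y ∈ Finset.univ.erase x, wt W (bs (ω * μ) y)
      = ∑ y ∈ Finset.univ.erase x, wt W (bs μ y) := by
    refine Finset.sum_congr rfl fun y hy => ?_
    obtain ⟨k', hk⟩ := f y (Finset.ne_of_mem_erase hy)
    rw [hk, wt_smul]
  rw [len_eq, len_eq, ← Finset.add_sum_erase _ _ (Finset.mem_univ x),
    ← Finset.add_sum_erase _ _ (Finset.mem_univ x), h1, h2]
  omega

theorem cx_comm (μ ν : MulAut (FreeGroup X)) : cx μ ν = cx ν μ := by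
  have key : ∀ (A B : Set (FreeGroup X)) (k : FreeGroup X), Nest A (k • B) → Nest B (k⁻¹ • A) := by
    intro A B k h
    have := (h.smul' k⁻¹).symm
    rwa [inv_smul_smul] at this
  rw [cx, cx, Finset.sum_comm]
  refine Finset.sum_congr rfl fun y _ => Finset.sum_congr rfl fun x _ => ?_
  rw [← Set.ncard_inv]
  congr 1
  ext k
  rw [Set.mem_inv]
  refine not_congr ⟨fun h => ?_, fun h => key _ _ _ h⟩
  simpa using key _ _ _ h

theorem PR1_geo (k : FreeGroup X) (n : ℕ) (h : (n : ℤ) ≤ cd 1 k) :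
    ∃ x, cd 1 x = n ∧ cd 1 x + cd x k = cd 1 k := by
  induction n with
  | zero => exact ⟨1, cd_self _, by rw [cd_self, zero_add]⟩
  | succ n ih =>
    push_cast at h ⊢
    obtain ⟨x, a, b⟩ := ih (by omega)
    have hx : x ≠ k := by
      rintro rfl
      omega
    obtain ⟨y, c, d⟩ := ex_step hx
    have d' : cd k y < cd k x := d
    have e1 := cd_step c k
    have e2 := cd_tri 1 x y
    have e3 := cd_tri 1 y k
    rw [cd_comm k y, cd_comm k x] at d' e1
    exact ⟨y, by omega, by omega⟩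

theorem cross_fin (hU : Clo U) (hP : Clo P) : {k : FreeGroup X | ¬ Nest U (k • P)}.Finite := by
  obtain ⟨r, hr⟩ := hU.far 1
  obtain ⟨r', hr'⟩ := hP.far 1
  refine (ball_fin (1 : FreeGroup X) (r.toNat + r'.toNat + 1)).subset fun k hk => ?_
  by_contra c
  have c' : (r.toNat : ℤ) + r'.toNat + 1 < cd 1 k := not_le.1 c
  apply hk
  obtain ⟨x, a, b⟩ := PR1_geo k r.toNat (by omega)
  have hx : x ≠ k := by
    rintro rfl
    omega
  obtain ⟨y, d, e⟩ := ex_step hx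
  have e' : cd k y < cd k x := e
  have e1 := cd_step d k
  have e3 := cd_tri 1 y k
  have e4 := cd_comm k y
  have e5 := cd_comm k x
  have m1 : Mono (hs x y) U := hr x y d (fun i => by
    have i' : cd 1 y < cd 1 x := i
    omega) (by omega)
  have f1 : cd 1 (k⁻¹ * y) = cd k y := by
    rw [← cd_smul k, mul_one, mul_inv_cancel_left]
  have f2 : cd 1 (k⁻¹ * x) = cd k x := by
    rw [← cd_smul k, mul_one, mul_inv_cancel_left]
  have m2 : Mono (hs (k⁻¹ * y) (k⁻¹ * x)) P := hr' _ _ (by rw [cd_smul, cd_comm, d])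
    (fun i => by
      have i' : cd 1 (k⁻¹ * x) < cd 1 (k⁻¹ * y) := i
      omega) (by omega)
  have m3 := m2.smul' k
  rw [hs_smul, mul_inv_cancel_left, mul_inv_cancel_left, ← hs_compl d] at m3
  rcases m1 with m1 | m1
  · exact .inr (m3.sub (Set.compl_subset_compl.2 m1))
  · exact .inl (m3.sub (Set.subset_compl_comm.1 m1))

end Pool.Agent.Work.MP_3bdf32_al
end

-- merged part: Pool.Agent.Work.MP_3bdf32_al.PR3
section
/-! Peak reduction: the compatible phase. -/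

namespace Pool.Agent.Work.MP_3bdf32_al

set_option linter.unusedSectionVars false
set_option linter.unusedVariables false

open Subgroup MulAction Filter
open scoped Pointwise

variable {X : Type} [Fintype X] [DecidableEq X] {W : List (FreeGroup X)}
  {Φ : List (MulAut (FreeGroup X))} {φ μ ν : MulAut (FreeGroup X)} {l : ℕ} {p q g : FreeGroup X}

theorem PR3_mem (μ : MulAut (FreeGroup X)) (S : Set (FreeGroup X)) (w : FreeGroup X) :
    w ∈ μ • S ↔ μ⁻¹ w ∈ S := Set.mem_smul_set_iff_inv_smul_mem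

theorem PR3_db (μ : MulAut (FreeGroup X)) (S : Set (FreeGroup X)) (g : FreeGroup X) :
    db (μ • S) g = μ • db S (μ⁻¹ g) := by
  ext w
  simp only [db, Set.mem_ofPred_eq, PR3_mem, map_mul]

theorem PR3_clo {S : Set (FreeGroup X)} (h : Clo S) (μ : MulAut (FreeGroup X)) : Clo (μ • S) :=
  fun g => by
    rw [PR3_db]
    exact (h _).smul_set

theorem PR3_mono {S A : Set (FreeGroup X)} (h : Mono S A) (μ : MulAut (FreeGroup X)) :
    Mono (μ • S) (μ • A) := by
  rcases h with h | h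
  · exact .inl (Set.smul_set_mono h)
  · refine .inr ?_
    rw [← Set.smul_set_compl]
    exact Set.smul_set_mono h

theorem PR3_nest {S A : Set (FreeGroup X)} (h : Nest S A) (μ : MulAut (FreeGroup X)) :
    Nest (μ • S) (μ • A) := by
  rcases h with h | h
  · exact .inl (PR3_mono h μ)
  · refine .inr ?_
    rw [← Set.smul_set_compl]
    exact PR3_mono h μ

/-- the parity of the coboundary -/
noncomputable def PR3_chi (U : Set (FreeGroup X)) (g : FreeGroup X) : ZMod 2 :=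
  ((db U g).ncard : ZMod 2)

theorem PR3_chi_mul {U : Set (FreeGroup X)} (hU : Clo U) (g h : FreeGroup X) :
    PR3_chi U (g * h) = PR3_chi U g + PR3_chi U h := by
  have hB : ((· * g⁻¹) '' db U h).Finite := (hU h).image _
  have e : db U (g * h) =
      (db U g ∪ (· * g⁻¹) '' db U h) \ (db U g ∩ (· * g⁻¹) '' db U h) := by
    ext w
    have : w ∈ (· * g⁻¹) '' db U h ↔ w * g ∈ db U h := by
      constructor
      · rintro ⟨u, a, rfl⟩
        simpa using a
      · intro a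
        exact ⟨_, a, by simp⟩
    simp only [Set.mem_sdiff, Set.mem_union, Set.mem_inter_iff, this]
    simp only [db, Set.mem_ofPred_eq, mul_assoc]
    tauto
  have e1 := Set.ncard_sdiff_add_ncard_of_subset
    (s := db U g ∩ (· * g⁻¹) '' db U h) (t := db U g ∪ (· * g⁻¹) '' db U h)
    (Set.inter_subset_left.trans Set.subset_union_left) ((hU g).union hB)
  have e2 := Set.ncard_union_add_ncard_inter (db U g) ((· * g⁻¹) '' db U h) (hU g) hB
  have e3 : ((· * g⁻¹) '' db U h).ncard = (db U h).ncard :=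
    Set.ncard_image_of_injective _ (mul_left_injective g⁻¹)
  have e4 : (db U (g * h)).ncard + 2 * (db U g ∩ (· * g⁻¹) '' db U h).ncard =
      (db U g).ncard + (db U h).ncard := by
    rw [e]; omega
  have e5 := congrArg (Nat.cast : ℕ → ZMod 2) e4
  have two : ((2 : ℕ) : ZMod 2) = 0 := by decide
  rw [Nat.cast_add, Nat.cast_add, Nat.cast_mul, two, zero_mul, add_zero] at e5
  exact e5

theorem PR3_chi_sg (b : Bool) (k : FreeGroup X) (U : Set (FreeGroup X)) (g : FreeGroup X) :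
    PR3_chi (sg b (k • U)) g = PR3_chi U g := by
  have : PR3_chi (k • U) g = PR3_chi U g := by
    unfold PR3_chi
    rw [db_smul, Set.ncard_smul_set]
  cases b
  · rw [← this]
    unfold PR3_chi
    rw [sg_false, db_compl]
  · exact this

theorem PR3_chi_aut (μ : MulAut (FreeGroup X)) (U : Set (FreeGroup X)) (g : FreeGroup X) :
    PR3_chi (μ • U) g = PR3_chi U (μ⁻¹ g) := by
  unfold PR3_chi
  rw [PR3_db, Set.ncard_smul_set]

theorem PR3_cd (w : FreeGroup X) (a : X) : cd w (w * FreeGroup.of a) = 1 :=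
  cd_one_iff.2 ⟨(a, true), by rw [lt_true]⟩

theorem PR3_db_hs (x a : X) :
    db (hs 1 (FreeGroup.of x)) (FreeGroup.of a) = if x = a then {1} else ∅ := by
  have c : cd 1 (FreeGroup.of x) = 1 := by simpa using PR3_cd (1 : FreeGroup X) x
  have hT : HT (hs 1 (FreeGroup.of x)) := ⟨_, _, c, rfl⟩
  have key : ∀ w ∈ db (hs 1 (FreeGroup.of x)) (FreeGroup.of a), w = 1 ∧ x = a := by
    intro w hw
    by_cases h1 : w ∈ hs 1 (FreeGroup.of x)
    · have h2 : w * FreeGroup.of a ∉ hs 1 (FreeGroup.of x) := fun h2 => hw (iff_of_true h1 h2)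
      have c' : cd (w * FreeGroup.of a) w = 1 := by rw [cd_comm]; exact PR3_cd w a
      obtain ⟨e1, e2⟩ := hs_inj c c' (hT.edge c' h2 h1)
      subst e2
      have e3 : lt (x, true) = lt (a, false) := by
        have := lt_inv (a, true)
        simp only [Bool.not_true] at this
        rw [← this, lt_true, lt_true]
        exact eq_inv_of_mul_eq_one_left e1.symm
      simpa using lt_inj e3
    · have h2 : w * FreeGroup.of a ∈ hs 1 (FreeGroup.of x) := by
        by_contra h2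
        exact hw (iff_of_false h1 h2)
      obtain ⟨e1, e2⟩ := hs_inj c (PR3_cd w a) (hT.edge (PR3_cd w a) h1 h2)
      subst e1
      rw [one_mul] at e2
      exact ⟨rfl, FreeGroup.of_injective e2⟩
  split_ifs with h
  · subst h
    refine Set.eq_singleton_iff_unique_mem.2 ⟨?_, fun w hw => (key w hw).1⟩
    intro e
    rw [one_mul] at e
    exact left_notMem_hs _ _ (e.2 (right_mem_hs c))
  · exact Set.eq_empty_of_forall_notMem fun w hw => h (key w hw).2

theorem PR3_chi_bs (μ : MulAut (FreeGroup X)) (x a : X) :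
    PR3_chi (bs μ x) (μ⁻¹ (FreeGroup.of a)) = if x = a then 1 else 0 := by
  unfold bs
  rw [PR3_chi_aut, inv_inv]
  have : μ (μ⁻¹ (FreeGroup.of a)) = FreeGroup.of a := by simp
  rw [this]
  unfold PR3_chi
  rw [PR3_db_hs]
  split_ifs <;> simp

theorem PR3_expand {U : Set (FreeGroup X)} (hU : Clo U) (μ : MulAut (FreeGroup X))
    (g : FreeGroup X) :
    PR3_chi U g = ∑ x, PR3_chi U (μ⁻¹ (FreeGroup.of x)) * PR3_chi (bs μ x) g := by
  let f₁ : FreeGroup X →* Multiplicative (ZMod 2) :=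
    MonoidHom.mk' (fun g => Multiplicative.ofAdd (PR3_chi U (μ⁻¹ g))) fun a b => by
      rw [map_mul, PR3_chi_mul hU, ofAdd_add]
  let f₂ : FreeGroup X →* Multiplicative (ZMod 2) :=
    MonoidHom.mk' (fun g => Multiplicative.ofAdd
      (∑ x, PR3_chi U (μ⁻¹ (FreeGroup.of x)) * PR3_chi (bs μ x) (μ⁻¹ g))) fun a b => by
      rw [← ofAdd_add, ← Finset.sum_add_distrib, map_mul]
      refine congrArg _ (Finset.sum_congr rfl fun x _ => ?_)
      rw [PR3_chi_mul (bs_clo μ x), mul_add]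
  have e : f₁ = f₂ := FreeGroup.ext_hom _ _ fun a => by
    change Multiplicative.ofAdd (PR3_chi U (μ⁻¹ (FreeGroup.of a))) = Multiplicative.ofAdd
      (∑ x, PR3_chi U (μ⁻¹ (FreeGroup.of x)) * PR3_chi (bs μ x) (μ⁻¹ (FreeGroup.of a)))
    simp only [PR3_chi_bs, mul_ite, mul_one, mul_zero, Finset.sum_ite_eq', Finset.mem_univ,
      if_true]
  have e' : Multiplicative.ofAdd (PR3_chi U (μ⁻¹ (μ g))) = Multiplicative.ofAdd
      (∑ x, PR3_chi U (μ⁻¹ (FreeGroup.of x)) * PR3_chi (bs μ x) (μ⁻¹ (μ g))) :=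
    DFunLike.congr_fun e (μ g)
  have : μ⁻¹ (μ g) = g := by simp
  rw [this] at e'
  exact Multiplicative.ofAdd.injective e'

/-- a vertex all of whose directions are on one side -/
theorem PR3_vertex {P : Set (FreeGroup X)} (hP : Clo P) (n : ∀ V, HT V → Nest V P) :
    ∃ v : FreeGroup X, ∀ s, Mono (hs v (v * lt s)) P := by
  by_cases h : ∃ a b : FreeGroup X, cd a b = 1 ∧ 1 ∉ hs a b ∧ ¬ Mono (hs a b) P
  · obtain ⟨r, hr⟩ := hP.far 1
    obtain ⟨d, ⟨a, b, c, o, m, rfl⟩, mx⟩ := Int.exists_greatest_of_bdd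
      (P := fun d => ∃ a b : FreeGroup X, cd a b = 1 ∧ 1 ∉ hs a b ∧ ¬ Mono (hs a b) P ∧
        cd 1 a = d)
      ⟨r, by
        rintro d ⟨a, b, c, o, m, rfl⟩
        by_contra e
        exact m (hr a b c o (le_of_lt (not_le.1 e)))⟩
      (let ⟨a, b, c, o, m⟩ := h; ⟨_, a, b, c, o, m, rfl⟩)
    refine ⟨b, fun s => ?_⟩
    have c' : cd b (b * lt s) = 1 := cd_one_iff.2 ⟨s, rfl⟩
    have c'' : cd b a = 1 := by rwa [cd_comm]
    by_cases e : b * lt s = a
    · rw [e, ← hs_compl c]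
      exact (n _ ⟨a, b, c, rfl⟩).resolve_left m
    · by_contra m'
      have na : a ∉ hs b (b * lt s) := fun i => e (step_uniq c' c'' i (right_mem_hs c''))
      have sub := hs_sub c c' (right_mem_hs c) na
      have le := mx _ ⟨b, b * lt s, c', fun i => o (sub i), m', rfl⟩
      have := hs_cross c o (right_mem_hs c)
      rw [cd_self] at this
      omega
  · refine ⟨1, fun s => ?_⟩
    by_contra m
    exact h ⟨1, 1 * lt s, cd_one_iff.2 ⟨s, rfl⟩, left_notMem_hs _ _, m⟩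

theorem PR3_even {P : Set (FreeGroup X)} {v : FreeGroup X} {x : X}
    (m : ∀ s, Mono (hs v (v * lt s)) P)
    (e : v * FreeGroup.of x ∈ P ↔ v * (FreeGroup.of x)⁻¹ ∈ P) :
    PR3_chi P (FreeGroup.of x) = 0 := by
  have key : ∀ w ∈ db P (FreeGroup.of x), w = v ∨ w = v * (FreeGroup.of x)⁻¹ := by
    intro w hw
    by_contra hn
    rw [not_or] at hn
    obtain ⟨y, c, i⟩ := ex_step (Ne.symm hn.1)
    obtain ⟨s, rfl⟩ := cd_one_iff.1 c
    by_cases j : w * FreeGroup.of x ∈ hs v (v * lt s)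
    · exact hw ((m s).iff i j)
    · have c' : cd (w * FreeGroup.of x) w = 1 := by rw [cd_comm]; exact PR3_cd w x
      have hT : HT (hs v (v * lt s)) := ⟨_, _, c, rfl⟩
      obtain ⟨e1, -⟩ := hs_inj c c' (hT.edge c' j i)
      exact hn.2 (by rw [e1, mul_inv_cancel_right])
  have both : v ∈ db P (FreeGroup.of x) ↔ v * (FreeGroup.of x)⁻¹ ∈ db P (FreeGroup.of x) := by
    simp only [db, Set.mem_ofPred_eq, inv_mul_cancel_right]
    tauto
  have ne : v ≠ v * (FreeGroup.of x)⁻¹ := by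
    intro i
    have := PR3_cd (v * (FreeGroup.of x)⁻¹) x
    rw [inv_mul_cancel_right, ← i, cd_self] at this
    exact absurd this (by decide)
  unfold PR3_chi
  by_cases h : v ∈ db P (FreeGroup.of x)
  · have : db P (FreeGroup.of x) = {v, v * (FreeGroup.of x)⁻¹} := by
      ext w
      refine ⟨key w, ?_⟩
      rintro (rfl | rfl)
      exacts [h, both.1 h]
    rw [this, Set.ncard_pair ne]
    decide
  · have : db P (FreeGroup.of x) = ∅ := by
      refine Set.eq_empty_of_forall_notMem fun w hw => ?_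
      rcases key w hw with rfl | rfl
      exacts [h hw, h (both.2 hw)]
    rw [this]
    simp

/-- all half trees of the two bases are nested -/
def PR3_Comp (μ ν : MulAut (FreeGroup X)) : Prop := ∀ U ∈ Ef μ, ∀ U' ∈ Ef ν, Nest U U'

theorem PR3_Comp_symm (h : PR3_Comp μ ν) : PR3_Comp ν μ := fun U a U' b => (h U' b U a).symm

theorem PR3_Comp_self (ν : MulAut (FreeGroup X)) : PR3_Comp ν ν := fun U a U' b => by
  have := PR3_nest (HT.nest a b) ν⁻¹
  rwa [inv_smul_smul, inv_smul_smul] at this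

theorem PR3_nest_sg {A B : Set (FreeGroup X)} (h : Nest A B) (b c : Bool) :
    Nest (sg b A) (sg c B) := by
  cases b <;> cases c
  exacts [h.compl_left.compl_right, h.compl_left, h.compl_right, h]

theorem PR3_comp_of (h : cx μ ν = 0) : PR3_Comp μ ν := by
  intro U a U' b
  obtain ⟨k, x, c, rfl⟩ := ef_iff.1 a
  obtain ⟨k', y, c', rfl⟩ := ef_iff.1 b
  refine PR3_nest_sg ?_ c c'
  have h1 := Finset.sum_eq_zero_iff.1 (Finset.sum_eq_zero_iff.1 h x (Finset.mem_univ x)) y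
    (Finset.mem_univ y)
  have h2 := (Set.ncard_eq_zero (cross_fin (bs_clo μ x) (bs_clo ν y))).1 h1
  have h3 : Nest (bs μ x) ((k⁻¹ * k') • bs ν y) := by
    by_contra h3
    exact Set.notMem_empty (k⁻¹ * k') (h2 ▸ h3)
  have := h3.smul' k
  rwa [smul_smul, mul_inv_cancel_left] at this

theorem PR3_ef_sg {U : Set (FreeGroup X)} (h : U ∈ Ef μ) (b : Bool) (k : FreeGroup X) :
    sg b (k • U) ∈ Ef μ := by
  obtain ⟨k', x, c, rfl⟩ := ef_iff.1 h
  rw [sg_smul, sg_sg, smul_smul]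
  exact ef_iff.2 ⟨_, _, _, rfl⟩

theorem PR3_ef_sg' {U : Set (FreeGroup X)} {b : Bool} {k : FreeGroup X}
    (h : sg b (k • U) ∈ Ef μ) : U ∈ Ef μ := by
  have := PR3_ef_sg h b k⁻¹
  rw [sg_smul, sg_sg, inv_smul_smul] at this
  simpa using this

theorem PR3_bs_mem (μ : MulAut (FreeGroup X)) (x : X) : bs μ x ∈ Ef μ :=
  ef_iff.2 ⟨1, x, true, by simp⟩

/-- the number of basic half trees that are not shared -/
noncomputable def PR3_N (μ ν : MulAut (FreeGroup X)) : ℕ :=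
  {x | bs μ x ∉ Ef ν}.ncard + {y | bs ν y ∉ Ef μ}.ncard

theorem PR3_N_comm (μ ν : MulAut (FreeGroup X)) : PR3_N μ ν = PR3_N ν μ := add_comm _ _

theorem PR3_step (C : PR3_Comp μ ν) {x y : X} (hx : bs μ x ∉ Ef ν)
    (hy : PR3_chi (bs ν y) (μ⁻¹ (FreeGroup.of x)) ≠ 0) (hw : wt W (bs ν y) ≤ wt W (bs μ x)) :
    ∃ μ', Mv W μ μ' ∧ PR3_Comp μ' ν ∧ PR3_N μ' ν < PR3_N μ ν := by
  obtain ⟨v, m⟩ := PR3_vertex (PR3_clo (bs_clo ν y) μ) fun V hV => by
    have := PR3_nest (C (μ⁻¹ • V) (by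
      change HT (μ • μ⁻¹ • V)
      rwa [smul_inv_smul]) _ (PR3_bs_mem ν y)) μ
    rwa [smul_inv_smul] at this
  obtain ⟨ω, hω, ⟨k, b, e⟩, f⟩ := exch μ v x m fun i => hy (by
    rw [← PR3_chi_aut]; exact PR3_even m i)
  have hl := exch_len (W := W) e f
  have hx' : bs (ω * μ) x ∈ Ef ν := e ▸ PR3_ef_sg (PR3_bs_mem ν y) b k
  refine ⟨ω * μ, ⟨ω, hω, rfl, by omega⟩, ?_, ?_⟩
  · intro U a U' a'
    obtain ⟨k', x', c, rfl⟩ := ef_iff.1 a
    by_cases i : x' = x
    · subst i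
      exact PR3_Comp_self ν _ (PR3_ef_sg hx' c k') _ a'
    · obtain ⟨k'', j⟩ := f x' i
      rw [j, smul_smul]
      exact C _ (PR3_ef_sg (PR3_bs_mem μ x') c _) _ a'
  · have s1 : {x' | bs (ω * μ) x' ∉ Ef ν} ⊂ {x' | bs μ x' ∉ Ef ν} := by
      refine ⟨fun x' a a' => a ?_, fun a => a hx hx'⟩
      by_cases i : x' = x
      · subst i
        exact hx'
      · obtain ⟨k'', j⟩ := f x' i
        rw [j]
        exact PR3_ef_sg a' true k''
    have s2 : {y' | bs ν y' ∉ Ef (ω * μ)} ⊆ {y' | bs ν y' ∉ Ef μ} := by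
      intro y' a a'
      obtain ⟨k', x', c, j⟩ := ef_iff.1 a'
      by_cases i : x' = x
      · subst i
        exact hx (PR3_ef_sg' (j ▸ PR3_bs_mem ν y'))
      · obtain ⟨k'', j'⟩ := f x' i
        refine a ?_
        rw [j]
        refine PR3_ef_sg (PR3_ef_sg' (b := true) (k := k'') ?_) c k'
        rw [sg_true, ← j']
        exact PR3_bs_mem _ _
    have t1 := Set.ncard_lt_ncard s1
    have t2 := Set.ncard_le_ncard s2
    unfold PR3_N
    omega

theorem PR3_pair {y : X} (hy : bs ν y ∉ Ef μ) : ∃ x, bs μ x ∉ Ef ν ∧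
    PR3_chi (bs ν y) (μ⁻¹ (FreeGroup.of x)) ≠ 0 ∧ PR3_chi (bs μ x) (ν⁻¹ (FreeGroup.of y)) ≠ 0 := by
  have e := PR3_expand (bs_clo ν y) μ (ν⁻¹ (FreeGroup.of y))
  rw [PR3_chi_bs, if_pos rfl] at e
  obtain ⟨x, -, hx⟩ := Finset.exists_ne_zero_of_sum_ne_zero (e ▸ one_ne_zero)
  refine ⟨x, fun a => ?_, left_ne_zero_of_mul hx, right_ne_zero_of_mul hx⟩
  obtain ⟨k, y', c, j⟩ := ef_iff.1 a
  have h2 := right_ne_zero_of_mul hx
  rw [j, PR3_chi_sg, PR3_chi_bs] at h2
  have : y' = y := by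
    by_contra i
    exact h2 (if_neg i)
  subst this
  exact hy (PR3_ef_sg' (j ▸ PR3_bs_mem μ x))

theorem PR3_norm (μ : MulAut (FreeGroup X)) (g : FreeGroup X) :
    ((μ g).norm : ℤ) = {U | U ∈ Ef μ ∧ 1 ∉ U ∧ g ∈ U}.ncard := by
  have e1 := cd_mul 1 (μ g)
  rw [one_mul, ← sep_card] at e1
  rw [← e1, ← Set.ncard_image_of_injective {U | U ∈ Ef μ ∧ 1 ∉ U ∧ g ∈ U}
    (MulAction.injective (β := Set (FreeGroup X)) μ)]
  congr 2
  ext U
  constructor
  · rintro ⟨a, b, c⟩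
    refine ⟨μ⁻¹ • U, ⟨?_, ?_, ?_⟩, smul_inv_smul μ U⟩
    · change HT (μ • μ⁻¹ • U)
      rwa [smul_inv_smul]
    · rw [PR3_mem]
      simpa using b
    · rw [PR3_mem]
      simpa using c
  · rintro ⟨V, ⟨a, b, c⟩, rfl⟩
    refine ⟨a, ?_, ?_⟩
    · change ¬ 1 ∈ μ • V
      rw [PR3_mem]
      simpa using b
    · change μ g ∈ μ • V
      rw [PR3_mem]
      simpa using c

theorem PR3_base (h : Ef μ = Ef ν) : Mv W μ ν := by
  have e : ∀ g, (μ g).norm = (ν g).norm := fun g => by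
    have := PR3_norm μ g
    rw [h, ← PR3_norm ν g] at this
    exact_mod_cast this
  refine ⟨ν * μ⁻¹, fun x => ⟨?_, ?_⟩, by simp, ?_⟩
  · rw [MulAut.mul_apply, ← e]
    simp
  · rw [mul_inv_rev, inv_inv, MulAut.mul_apply, e]
    simp
  · unfold len
    simp only [e, le_refl]

theorem PR3_join (n : ℕ) : ∀ μ ν : MulAut (FreeGroup X), PR3_Comp μ ν → PR3_N μ ν = n →
    ∃ κ, Relation.ReflTransGen (Mv W) μ κ ∧ Relation.ReflTransGen (Mv W) ν κ := by
  induction n using Nat.strong_induction_on with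
  | _ n ih =>
  have main : ∀ μ ν : MulAut (FreeGroup X), PR3_Comp μ ν → PR3_N μ ν = n →
      (∃ y, bs ν y ∉ Ef μ) →
      ∃ κ, Relation.ReflTransGen (Mv W) μ κ ∧ Relation.ReflTransGen (Mv W) ν κ := by
    rintro μ ν C e ⟨y, hy⟩
    obtain ⟨x, hx, c1, c2⟩ := PR3_pair hy
    rcases le_total (wt W (bs ν y)) (wt W (bs μ x)) with hw | hw
    · obtain ⟨μ', a, b, c⟩ := PR3_step C hx c1 hw
      obtain ⟨κ, i, j⟩ := ih _ (e ▸ c) μ' ν b rfl
      exact ⟨κ, i.head a, j⟩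
    · obtain ⟨ν', a, b, c⟩ := PR3_step (PR3_Comp_symm C) hy c2 hw
      rw [PR3_N_comm ν μ] at c
      obtain ⟨κ, i, j⟩ := ih _ (e ▸ c) ν' μ b rfl
      exact ⟨κ, j, i.head a⟩
  intro μ ν C e
  by_cases h1 : ∃ y, bs ν y ∉ Ef μ
  · exact main μ ν C e h1
  by_cases h2 : ∃ x, bs μ x ∉ Ef ν
  · obtain ⟨κ, i, j⟩ := main ν μ (PR3_Comp_symm C) (PR3_N_comm μ ν ▸ e) h2
    exact ⟨κ, j, i⟩
  push Not at h1 h2
  refine ⟨ν, .single (PR3_base (Set.Subset.antisymm (fun U a => ?_) fun U a => ?_)), .refl⟩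
  · obtain ⟨k, x, b, rfl⟩ := ef_iff.1 a
    exact PR3_ef_sg (h2 x) b k
  · obtain ⟨k, x, b, rfl⟩ := ef_iff.1 a
    exact PR3_ef_sg (h1 x) b k

theorem comp_join (h : cx μ ν = 0) :
    ∃ κ, Relation.ReflTransGen (Mv W) μ κ ∧ Relation.ReflTransGen (Mv W) ν κ :=
  PR3_join _ μ ν (PR3_comp_of h) rfl

end Pool.Agent.Work.MP_3bdf32_al
end

-- merged part: Pool.Agent.Work.MP_3bdf32_al.Red
section
/-! Reduction to a free factor. -/

namespace Pool.Agent.Work.MP_3bdf32_al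

set_option linter.unusedSectionVars false
set_option linter.unusedVariables false

open Subgroup MulAction Filter
open scoped Pointwise

variable {X : Type} [Fintype X] [DecidableEq X] {W : List (FreeGroup X)}

section words

variable {A B : Type}

lemma red_mk_false (a : A) : FreeGroup.mk [(a, false)] = (FreeGroup.of a)⁻¹ := rfl

lemma red_mk_cons (p : A × Bool) (L : List (A × Bool)) :
    FreeGroup.mk (p :: L) = FreeGroup.mk [p] * FreeGroup.mk L := by
  rw [FreeGroup.mul_mk]; rfl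

lemma red_hom_mk (f : FreeGroup A →* FreeGroup B) (t : A × Bool → B × Bool)
    (h : ∀ p, f (FreeGroup.mk [p]) = FreeGroup.mk [t p]) (L : List (A × Bool)) :
    f (FreeGroup.mk L) = FreeGroup.mk (L.map t) := by
  induction L with
  | nil => exact map_one f
  | cons p L ih => rw [red_mk_cons, map_mul, h, ih, List.map_cons, ← red_mk_cons]

lemma red_toWord [DecidableEq A] [DecidableEq B] (f : FreeGroup A →* FreeGroup B)
    (t : A × Bool → B × Bool) (h : ∀ p, f (FreeGroup.mk [p]) = FreeGroup.mk [t p])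
    (ht : ∀ p q, (t p).1 = (t q).1 → p.1 = q.1) (g : FreeGroup A) :
    (f g).toWord = g.toWord.map t := by
  conv_lhs => rw [← FreeGroup.mk_toWord (x := g)]
  rw [red_hom_mk f t h, FreeGroup.toWord_mk]
  apply FreeGroup.IsReduced.reduce_eq
  have h1 : FreeGroup.IsReduced g.toWord := FreeGroup.isReduced_toWord
  unfold FreeGroup.IsReduced at h1 ⊢
  rw [List.isChain_map]
  refine h1.imp (fun a b hab e => ?_)
  have e1 := ht a b e
  rw [Prod.ext e1 (hab e1)]

lemma red_toWord_map [DecidableEq A] [DecidableEq B] {j : A → B} (hj : Function.Injective j)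
    (g : FreeGroup A) :
    (FreeGroup.map j g).toWord = g.toWord.map fun p => (j p.1, p.2) :=
  red_toWord _ _ (fun p => rfl) (fun p q e => hj e) g

lemma red_norm_map [DecidableEq A] [DecidableEq B] {j : A → B} (hj : Function.Injective j)
    (g : FreeGroup A) : (FreeGroup.map j g).norm = g.norm := by
  unfold FreeGroup.norm
  rw [red_toWord_map hj, List.length_map]

lemma red_flip {e : A → A} (he : Function.Injective e) (σ : FreeGroup A →* FreeGroup A)
    (hσ : ∀ a, σ (FreeGroup.of a) = (FreeGroup.of (e a))⁻¹) {k : FreeGroup A} (hk : σ k = k) :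
    k = 1 := by
  classical
  have h := red_toWord σ (fun p => (e p.1, !p.2)) (fun p => by
    obtain ⟨a, b⟩ := p
    cases b
    · rw [red_mk_false, map_inv, hσ, inv_inv]; rfl
    · exact hσ a) (fun p q e' => he e') k
  rw [hk] at h
  rw [← FreeGroup.toWord_eq_nil_iff]
  cases hw : k.toWord with
  | nil => rfl
  | cons p L =>
    rw [hw, List.map_cons] at h
    have := congrArg Prod.snd (List.cons.inj h).1
    simp at this

lemma red_range_of_letters [DecidableEq B] (j : A → B) (g : FreeGroup B)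
    (h : ∀ p ∈ g.toWord, p.1 ∈ Set.range j) : ∃ u, FreeGroup.map j u = g := by
  rw [← FreeGroup.mk_toWord (x := g)]
  generalize g.toWord = L at h
  induction L with
  | nil => exact ⟨1, map_one _⟩
  | cons p L ih =>
    obtain ⟨u, hu⟩ := ih (fun q hq => h q (List.mem_cons_of_mem _ hq))
    obtain ⟨a, ha⟩ := h p List.mem_cons_self
    refine ⟨FreeGroup.mk [(a, p.2)] * u, ?_⟩
    rw [map_mul, hu, red_mk_cons p L]
    congr 1
    rw [FreeGroup.map.mk]
    simp [ha]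

/-- the retraction killing the other letters -/
noncomputable def redRet (j : A → B) : FreeGroup B →* FreeGroup A :=
  FreeGroup.lift fun x => (Function.partialInv j x).elim 1 FreeGroup.of

lemma red_ret_map {j : A → B} (hj : Function.Injective j) (u : FreeGroup A) :
    redRet j (FreeGroup.map j u) = u := by
  have : (redRet j).comp (FreeGroup.map j) = MonoidHom.id _ := by
    ext a
    simp [redRet, Function.partialInv_left hj]
  exact DFunLike.congr_fun this u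

lemma red_map_inj {j : A → B} (hj : Function.Injective j) :
    Function.Injective (FreeGroup.map j) :=
  Function.LeftInverse.injective (red_ret_map hj)

lemma red_pinv_none {j : A → B} {x : B} (h : x ∉ Set.range j) :
    Function.partialInv j x = none := by
  unfold Function.partialInv
  exact dif_neg h

/-- extension of an endomorphism to the other letters -/
noncomputable def redE (j : A → B) (c : Bool) (f : FreeGroup A →* FreeGroup A) :
    FreeGroup B →* FreeGroup B :=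
  FreeGroup.lift fun x => (Function.partialInv j x).elim (FreeGroup.mk [(x, c)])
    fun y => FreeGroup.map j (f (FreeGroup.of y))

lemma redE_map {j : A → B} (hj : Function.Injective j) (c : Bool)
    (f : FreeGroup A →* FreeGroup A) (u : FreeGroup A) :
    redE j c f (FreeGroup.map j u) = FreeGroup.map j (f u) := by
  have : (redE j c f).comp (FreeGroup.map j) = (FreeGroup.map j).comp f := by
    ext a
    simp [redE, Function.partialInv_left hj]
  exact DFunLike.congr_fun this u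

lemma redE_of {j : A → B} (c : Bool) (f : FreeGroup A →* FreeGroup A) {x : B}
    (h : x ∉ Set.range j) : redE j c f (FreeGroup.of x) = FreeGroup.mk [(x, c)] := by
  simp [redE, red_pinv_none h]

lemma redE_comp {j : A → B} (hj : Function.Injective j) (c : Bool)
    (f g : FreeGroup A →* FreeGroup A) (h : ∀ u, f (g u) = u) :
    (redE j c f).comp (redE j c g) = MonoidHom.id _ := by
  ext x
  by_cases hx : x ∈ Set.range j
  · obtain ⟨y, rfl⟩ := hx
    have e : FreeGroup.of (j y) = FreeGroup.map j (FreeGroup.of y) := rfl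
    rw [MonoidHom.comp_apply, MonoidHom.id_apply, e, redE_map hj, redE_map hj, h]
  · rw [MonoidHom.comp_apply, MonoidHom.id_apply, redE_of c g hx]
    cases c
    · rw [red_mk_false, map_inv, redE_of false f hx, red_mk_false, inv_inv]
    · exact redE_of true f hx

/-- extension of an automorphism to the other letters -/
noncomputable def redA {j : A → B} (hj : Function.Injective j) (c : Bool)
    (φ : MulAut (FreeGroup A)) : MulAut (FreeGroup B) :=
  MonoidHom.toMulEquiv (redE j c φ.toMonoidHom) (redE j c φ.symm.toMonoidHom)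
    (redE_comp hj c _ _ fun u => φ.symm_apply_apply u)
    (redE_comp hj c _ _ fun u => φ.apply_symm_apply u)

lemma redA_map {j : A → B} (hj : Function.Injective j) (c : Bool) (φ : MulAut (FreeGroup A))
    (u : FreeGroup A) : redA hj c φ (FreeGroup.map j u) = FreeGroup.map j (φ u) :=
  redE_map hj c _ u

lemma redA_of {j : A → B} (hj : Function.Injective j) (c : Bool) (φ : MulAut (FreeGroup A))
    {x : B} (h : x ∉ Set.range j) : redA hj c φ (FreeGroup.of x) = FreeGroup.mk [(x, c)] :=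
  redE_of c _ h

/-- permutations of the letters as automorphisms -/
def redP (A : Type) : Equiv.Perm A →* MulAut (FreeGroup A) where
  toFun σ := FreeGroup.freeGroupCongr σ
  map_one' := by
    apply MulEquiv.toMonoidHom_injective
    ext x; simp
  map_mul' a b := by
    apply MulEquiv.toMonoidHom_injective
    ext x; simp

lemma redP_of (σ : Equiv.Perm A) (a : A) : redP A σ (FreeGroup.of a) = FreeGroup.of (σ a) := rfl

/-- the action on conjugates of the letters -/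
def redAc (A B : Type) : FreeGroup A →* MulAut (FreeGroup (FreeGroup A × B)) where
  toFun u := redP _ (Equiv.prodCongr (Equiv.mulLeft u) (Equiv.refl B))
  map_one' := by
    apply MulEquiv.toMonoidHom_injective
    ext x; simp [redP_of]
  map_mul' a b := by
    apply MulEquiv.toMonoidHom_injective
    ext x
    obtain ⟨u, y⟩ := x
    simp [redP_of, mul_assoc]

lemma redAc_of (u v : FreeGroup A) (x : B) :
    redAc A B u (FreeGroup.of (v, x)) = FreeGroup.of (u * v, x) := rfl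

/-- an element fixed by the extension that inverts the other letters lies in the factor -/
lemma red_fix_range {j : A → B} (hj : Function.Injective j) (φ : MulAut (FreeGroup A))
    {g : FreeGroup B} (hg : redA hj false φ g = g) : ∃ u, FreeGroup.map j u = g := by
  let Θ : FreeGroup B →* FreeGroup (FreeGroup A × B) ⋊[redAc A B] FreeGroup A :=
    FreeGroup.lift fun x => (Function.partialInv j x).elim
      (SemidirectProduct.inl (FreeGroup.of (1, x))) fun y => SemidirectProduct.inr (FreeGroup.of y)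
  have Θ1 : ∀ u, Θ (FreeGroup.map j u) = SemidirectProduct.inr u := by
    have : Θ.comp (FreeGroup.map j) = SemidirectProduct.inr := by
      apply FreeGroup.ext_hom
      intro a
      simp [Θ, Function.partialInv_left hj]
    exact fun u => DFunLike.congr_fun this u
  have Θ2 : ∀ x, x ∉ Set.range j →
      Θ (FreeGroup.of x) = SemidirectProduct.inl (FreeGroup.of (1, x)) := by
    intro x hx
    simp [Θ, red_pinv_none hx]
  let Λ : FreeGroup (FreeGroup A × B) ⋊[redAc A B] FreeGroup A →* FreeGroup B :=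
    SemidirectProduct.lift
      (FreeGroup.lift fun p => FreeGroup.map j p.1 * FreeGroup.of p.2 * (FreeGroup.map j p.1)⁻¹)
      (FreeGroup.map j) (fun u => by
        apply FreeGroup.ext_hom
        rintro ⟨v, x⟩
        simp [redAc_of, mul_assoc])
  have hΛ : Λ.comp Θ = MonoidHom.id _ := by
    apply FreeGroup.ext_hom
    intro x
    by_cases hx : x ∈ Set.range j
    · obtain ⟨y, rfl⟩ := hx
      have e : FreeGroup.of (j y) = FreeGroup.map j (FreeGroup.of y) := rfl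
      rw [MonoidHom.comp_apply, MonoidHom.id_apply, e, Θ1]
      simp [Λ]
    · rw [MonoidHom.comp_apply, MonoidHom.id_apply, Θ2 x hx]
      simp [Λ]
  let σ : FreeGroup (FreeGroup A × B) →* FreeGroup (FreeGroup A × B) :=
    FreeGroup.lift fun p => (FreeGroup.of (φ p.1, p.2))⁻¹
  let Φ : FreeGroup (FreeGroup A × B) ⋊[redAc A B] FreeGroup A →*
      FreeGroup (FreeGroup A × B) ⋊[redAc A B] FreeGroup A :=
    SemidirectProduct.map σ φ.toMonoidHom (fun u => by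
      apply FreeGroup.ext_hom
      rintro ⟨v, x⟩
      simp [σ, redAc_of])
  have hΦ : Θ.comp (redA hj false φ).toMonoidHom = Φ.comp Θ := by
    apply FreeGroup.ext_hom
    intro x
    by_cases hx : x ∈ Set.range j
    · obtain ⟨y, rfl⟩ := hx
      have e : FreeGroup.of (j y) = FreeGroup.map j (FreeGroup.of y) := rfl
      rw [MonoidHom.comp_apply, MonoidHom.comp_apply, MulEquiv.coe_toMonoidHom, e, redA_map,
        Θ1, Θ1]
      simp [Φ]
    · rw [MonoidHom.comp_apply, MonoidHom.comp_apply, MulEquiv.coe_toMonoidHom, redA_of _ _ _ hx,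
        red_mk_false, map_inv, Θ2 x hx]
      simp [Φ, σ]
  have h1 : Θ g = Φ (Θ g) := by
    have := DFunLike.congr_fun hΦ g
    rwa [MonoidHom.comp_apply, MonoidHom.comp_apply, MulEquiv.coe_toMonoidHom, hg] at this
  have h2 : σ (Θ g).left = (Θ g).left := (congrArg SemidirectProduct.left h1).symm
  have h3 : (Θ g).left = 1 :=
    red_flip (e := fun p : FreeGroup A × B => (φ p.1, p.2))
      (fun p q e => Prod.ext (φ.injective (Prod.mk.inj e).1) (Prod.mk.inj e).2) σ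
      (fun a => by simp [σ]) h2
  refine ⟨(Θ g).right, ?_⟩
  have h4 : Λ (Θ g) = g := DFunLike.congr_fun hΛ g
  rw [← SemidirectProduct.inl_left_mul_inr_right (Θ g), h3, map_one, one_mul] at h4
  simpa [Λ] using h4

end words

lemma red_mem_cl_map {G G' : Type} [Group G] [Group G'] (f : G →* G') (W : List G) (g : G') :
    g ∈ cl (W.map f) ↔ ∃ h ∈ cl W, f h = g := by
  have : cl (W.map f) = (cl W).map f := by
    unfold cl
    rw [MonoidHom.map_closure]
    congr 1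
    ext x; simp
  rw [this, Subgroup.mem_map]

theorem triv_fixed (h : ∀ w ∈ W, w = 1) : Fixed W := by
  have hj : Function.Injective (Empty.elim : Empty → X) := fun a => a.elim
  refine ⟨redA hj false 1, fun g => ?_⟩
  have hb : cl W = ⊥ := by
    unfold cl
    rw [closure_eq_bot_iff]
    exact fun w hw => h w hw
  rw [hb, Subgroup.mem_bot]
  refine ⟨fun e => by rw [e, map_one], fun e => ?_⟩
  refine red_flip (e := id) Function.injective_id (redA hj false 1).toMonoidHom (fun a => ?_) e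
  exact redA_of hj false 1 (fun ⟨y, _⟩ => y.elim)

lemma red_fixed_map_of {G : Type} [Group G] {W : List G} (μ : MulAut G) (h : Fixed W) :
    Fixed (W.map μ) := by
  obtain ⟨φ, hφ⟩ := h
  refine ⟨μ * φ * μ⁻¹, fun g => ?_⟩
  have := red_mem_cl_map μ.toMonoidHom W g
  rw [MulEquiv.coe_toMonoidHom] at this
  rw [this]
  constructor
  · rintro ⟨u, hu, rfl⟩
    simp [(hφ u).1 hu]
  · intro e
    refine ⟨μ⁻¹ g, (hφ _).2 (μ.injective ?_), by simp⟩
    simpa using e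

theorem fixed_map (μ : MulAut (FreeGroup X)) : Fixed (W.map μ) ↔ Fixed W := by
  refine ⟨fun h => ?_, red_fixed_map_of μ⟩
  have := red_fixed_map_of μ⁻¹ h
  rwa [List.map_map, show (⇑μ⁻¹ ∘ ⇑μ) = id from funext fun x => by simp, List.map_id] at this

lemma red_inc_inj {m n : ℕ} (h : m ≤ n) : Function.Injective (inc m n) := by
  intro a b e
  have e1 := congrArg Fin.val e
  simp only [inc] at e1
  rw [Nat.mod_eq_of_lt (by omega), Nat.mod_eq_of_lt (by omega)] at e1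
  exact Fin.ext e1

theorem red_ex {n : ℕ} (W : List (FreeGroup (Fin (n + 1)))) (h : ∃ w ∈ W, w ≠ 1) :
    ∃ (m : ℕ) (μ : MulAut (FreeGroup (Fin (n + 1)))) (W' : List (FreeGroup (Fin (m + 1)))),
      m ≤ n ∧ OEc W' ∧ W = W'.map fun w => μ (FreeGroup.map (inc m n) w) := by
  classical
  obtain ⟨μ₀, hμ₀⟩ : ∃ μ₀ : MulAut (FreeGroup (Fin (n + 1))), ∀ ν, len W μ₀ ≤ len W ν :=
    ⟨Function.argmin (len W), fun ν => Function.argmin_le (len W) ν⟩
  let S : Finset (Fin (n + 1)) :=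
    Finset.univ.filter fun x => ∃ w ∈ W, ∃ b, (x, b) ∈ (μ₀ w).toWord
  have hS : ∀ x, x ∈ S ↔ ∃ w ∈ W, ∃ b, (x, b) ∈ (μ₀ w).toWord := fun x => by simp [S]
  have hne : S.Nonempty := by
    obtain ⟨w, hw, hw1⟩ := h
    have : (μ₀ w).toWord ≠ [] := by
      rw [Ne, FreeGroup.toWord_eq_nil_iff]
      exact fun e => hw1 (μ₀.injective (by rw [e, map_one]))
    obtain ⟨p, hp⟩ := List.exists_mem_of_ne_nil _ this
    exact ⟨p.1, (hS _).2 ⟨w, hw, p.2, hp⟩⟩
  obtain ⟨m, hm⟩ : ∃ m, S.card = m + 1 := Nat.exists_eq_succ_of_ne_zero hne.card_pos.ne'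
  have hmn : m ≤ n := by
    have := S.card_le_univ
    rw [hm, Fintype.card_fin] at this
    omega
  let j : Fin (m + 1) → Fin (n + 1) := S.orderEmbOfFin hm
  have hj : Function.Injective j := (S.orderEmbOfFin hm).injective
  have hr : Set.range j = S := S.range_orderEmbOfFin hm
  obtain ⟨σ, hσ⟩ := Equiv.Perm.exists_extending_pair (inc m n) j (red_inc_inj hmn) hj
  have hret : ∀ w ∈ W, FreeGroup.map j (redRet j (μ₀ w)) = μ₀ w := by
    intro w hw
    obtain ⟨u, hu⟩ := red_range_of_letters j (μ₀ w) (fun p hp => by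
      rw [hr]; exact (hS _).2 ⟨w, hw, p.2, hp⟩)
    rw [← hu, red_ret_map hj]
  have hlen : ∀ ω : MulAut (FreeGroup (Fin (m + 1))),
      len (W.map fun w => redRet j (μ₀ w)) ω = len W (redA hj true ω * μ₀) := by
    intro ω
    unfold len
    rw [List.map_map]
    congr 1
    refine List.map_congr_left (fun w hw => ?_)
    rw [MulAut.mul_apply, ← hret w hw, redA_map, red_norm_map hj]
    rfl
  refine ⟨m, μ₀⁻¹ * redP _ σ, W.map fun w => redRet j (μ₀ w), hmn, ⟨fun ω _ => ?_, fun y => ?_⟩,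
    ?_⟩
  · have e : len (W.map fun w => redRet j (μ₀ w)) 1 = len W μ₀ := by
      unfold len
      rw [List.map_map]
      congr 1
      refine List.map_congr_left (fun w hw => ?_)
      conv_rhs => rw [← hret w hw, red_norm_map hj]
      rfl
    rw [e, hlen]
    exact hμ₀ _
  · have hy : j y ∈ S := by
      rw [← Finset.mem_coe, ← hr]; exact ⟨y, rfl⟩
    obtain ⟨w, hw, b, hb⟩ := (hS _).1 hy
    refine ⟨_, List.mem_map_of_mem hw, b, ?_⟩
    rw [← hret w hw, red_toWord_map hj, List.mem_map] at hb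
    obtain ⟨p, hp, e⟩ := hb
    have e1 : p = (y, b) := Prod.ext (hj (Prod.mk.inj e).1) (Prod.mk.inj e).2
    rwa [e1] at hp
  · rw [List.map_map]
    conv_lhs => rw [← List.map_id W]
    refine List.map_congr_left (fun w hw => ?_)
    have e : ∀ u, redP _ σ (FreeGroup.map (inc m n) u) = FreeGroup.map j u := by
      have : (redP _ σ).toMonoidHom.comp (FreeGroup.map (inc m n)) = FreeGroup.map j := by
        apply FreeGroup.ext_hom
        intro a
        simp [redP_of, hσ]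
      exact fun u => DFunLike.congr_fun this u
    simp only [Function.comp_apply, id, MulAut.mul_apply]
    rw [e, hret w hw]
    simp

lemma red_hs_step {Y : Type} {j : Y → X} {q v : FreeGroup X} {t s : X × Bool}
    (ht : t.1 ∉ Set.range j) (hs' : s.1 ∈ Set.range j) :
    v ∈ hs q (q * lt t) ↔ v * lt s ∈ hs q (q * lt t) := by
  have hq : cd q (q * lt t) = 1 := cd_one_iff.2 ⟨t, rfl⟩
  have key : ∀ (v : FreeGroup X) (s : X × Bool), s.1 ∈ Set.range j →
      v * lt s ∈ hs q (q * lt t) → v ∈ hs q (q * lt t) := by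
    intro v s hs' hv
    by_contra hn
    have hv1 : cd v (v * lt s) = 1 := cd_one_iff.2 ⟨s, rfl⟩
    have e := HT.edge ⟨_, _, hq, rfl⟩ hv1 hn hv
    obtain ⟨e1, e2⟩ := hs_inj hq hv1 e
    rw [e1] at e2
    rw [lt_inj (mul_left_cancel e2)] at ht
    exact ht hs'
  refine ⟨fun h => key _ (s.1, !s.2) hs' ?_, key v s hs'⟩
  rwa [← lt_inv, mul_inv_cancel_right]

lemma red_hs_map {Y : Type} {j : Y → X} {q : FreeGroup X} {t : X × Bool}
    (ht : t.1 ∉ Set.range j) (u : FreeGroup Y) :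
    ∀ v, v ∈ hs q (q * lt t) ↔ v * FreeGroup.map j u ∈ hs q (q * lt t) := by
  induction u using FreeGroup.induction_on with
  | C1 => intro v; simp
  | of y =>
    intro v
    exact red_hs_step (s := (j y, true)) ht ⟨y, rfl⟩
  | inv_of y ih =>
    intro v
    exact red_hs_step (s := (j y, false)) ht ⟨y, rfl⟩
  | mul a b iha ihb =>
    intro v
    rw [map_mul, ← mul_assoc, ← ihb, ← iha]

lemma red_range_of_hs {Y : Type} (j : Y → X) (w : FreeGroup X) :
    ∀ (k : ℕ) (p : FreeGroup X), cd p w ≤ k →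
      (∀ q t, t.1 ∉ Set.range j → (p ∈ hs q (q * lt t) ↔ w ∈ hs q (q * lt t))) →
        ∃ u, FreeGroup.map j u = p⁻¹ * w := by
  intro k
  induction k with
  | zero =>
    intro p hp _
    have : p = w := cd_eq_zero.1 (le_antisymm (by simpa using hp) (cd_nonneg _ _))
    exact ⟨1, by simp [this]⟩
  | succ k ih =>
    intro p hp h
    by_cases e : p = w
    · exact ⟨1, by simp [e]⟩
    obtain ⟨y, hy, hw⟩ := ex_step e
    obtain ⟨s, rfl⟩ := cd_one_iff.1 hy
    by_cases hs' : s.1 ∈ Set.range j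
    · have h1 : cd (p * lt s) w ≤ k := by
        have h2 : cd w (p * lt s) < cd w p := hw
        rw [cd_comm w, cd_comm w] at h2
        push_cast at hp
        omega
      obtain ⟨u, hu⟩ := ih (p * lt s) h1 (fun q t ht => by rw [← red_hs_step ht hs', h q t ht])
      obtain ⟨a, ha⟩ := hs'
      refine ⟨FreeGroup.mk [(a, s.2)] * u, ?_⟩
      have e1 : FreeGroup.map j (FreeGroup.mk [(a, s.2)]) = lt s := by
        rw [FreeGroup.map.mk]; simp [lt, ha]
      rw [map_mul, hu, e1]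
      group
    · exact absurd ((h p s hs').2 hw) (left_notMem_hs _ _)

lemma red_pres {Y : Type} [DecidableEq Y] {j : Y → X} (hj : Function.Injective j)
    {W' : List (FreeGroup Y)} (o : OE (cl W')) (ψ : MulAut (FreeGroup X))
    (hψ : ∀ h ∈ cl W', ψ (FreeGroup.map j h) = FreeGroup.map j h) (g : FreeGroup Y) :
    ∃ u, FreeGroup.map j u = ψ (FreeGroup.map j g) := by
  have h := red_range_of_hs j (ψ (FreeGroup.map j g)) (cd 1 (ψ (FreeGroup.map j g))).toNat 1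
    (Int.self_le_toNat _) (fun q t ht => ?_)
  · simpa using h
  have hU : HT (hs q (q * lt t)) := ⟨_, _, cd_one_iff.2 ⟨t, rfl⟩, rfl⟩
  have hA := o {a | ψ (FreeGroup.map j a) ∈ hs q (q * lt t)} (fun a b hb => by
      change ψ _ ∈ hs q (q * lt t) ↔ ψ _ ∈ hs q (q * lt t)
      rw [map_mul, map_mul, hψ b hb]
      exact red_hs_map ht b _) (fun s => by
      have := (hU.clo (ψ (FreeGroup.map j s))).preimage
        (f := fun a => ψ (FreeGroup.map j a)) (ψ.injective.comp (red_map_inj hj)).injOn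
      refine this.subset (fun a ha => ?_)
      simpa [db] using ha)
  have h1 : (1 : FreeGroup X) = ψ (FreeGroup.map j 1) := by simp
  rw [h1]
  rcases hA with e | e
  · have a1 : (1 : FreeGroup Y) ∉ {a | ψ (FreeGroup.map j a) ∈ hs q (q * lt t)} := by
      rw [e]; exact Set.notMem_empty _
    have a2 : g ∉ {a | ψ (FreeGroup.map j a) ∈ hs q (q * lt t)} := by
      rw [e]; exact Set.notMem_empty _
    exact iff_of_false a1 a2
  · have a1 : (1 : FreeGroup Y) ∈ {a | ψ (FreeGroup.map j a) ∈ hs q (q * lt t)} := by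
      rw [e]; trivial
    have a2 : g ∈ {a | ψ (FreeGroup.map j a) ∈ hs q (q * lt t)} := by
      rw [e]; trivial
    exact iff_of_true a1 a2

lemma red_fixed_inj {Y : Type} [DecidableEq Y] {j : Y → X} (hj : Function.Injective j)
    {W' : List (FreeGroup Y)} (o : OE (cl W')) :
    Fixed (W'.map (FreeGroup.map j)) ↔ Fixed W' := by
  have hm : ∀ g, FreeGroup.map j g ∈ cl (W'.map (FreeGroup.map j)) ↔ g ∈ cl W' := fun g => by
    rw [red_mem_cl_map]
    exact ⟨fun ⟨u, hu, e⟩ => red_map_inj hj e ▸ hu, fun hg => ⟨g, hg, rfl⟩⟩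
  constructor
  · rintro ⟨φ, hφ⟩
    have h1 : ∀ h ∈ cl W', φ (FreeGroup.map j h) = FreeGroup.map j h := fun h hh =>
      (hφ _).1 ((hm h).2 hh)
    have h2 : ∀ h ∈ cl W', φ⁻¹ (FreeGroup.map j h) = FreeGroup.map j h := fun h hh => by
      conv_lhs => rw [← h1 h hh]
      simp
    have key : ∀ ψ : MulAut (FreeGroup X),
        (∀ h ∈ cl W', ψ (FreeGroup.map j h) = FreeGroup.map j h) →
        ∀ g, FreeGroup.map j (redRet j (ψ (FreeGroup.map j g))) = ψ (FreeGroup.map j g) := by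
      intro ψ hψ g
      obtain ⟨u, hu⟩ := red_pres hj o ψ hψ g
      rw [← hu, red_ret_map hj]
    let f : MulAut (FreeGroup X) → FreeGroup Y →* FreeGroup Y := fun ψ =>
      (redRet j).comp (ψ.toMonoidHom.comp (FreeGroup.map j))
    have hf : ∀ ψ g, f ψ g = redRet j (ψ (FreeGroup.map j g)) := fun _ _ => rfl
    refine ⟨MonoidHom.toMulEquiv (f φ) (f φ⁻¹) ?_ ?_, fun g => ?_⟩
    · refine MonoidHom.ext (fun g => ?_)
      rw [MonoidHom.comp_apply, hf, hf, key φ h1]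
      simp [red_ret_map hj]
    · refine MonoidHom.ext (fun g => ?_)
      rw [MonoidHom.comp_apply, hf, hf, key φ⁻¹ h2]
      simp [red_ret_map hj]
    · change g ∈ cl W' ↔ redRet j (φ (FreeGroup.map j g)) = g
      rw [← hm, hφ]
      constructor
      · intro e; rw [e, red_ret_map hj]
      · intro e
        rw [← key φ h1 g, e]
  · rintro ⟨φ, hφ⟩
    refine ⟨redA hj false φ, fun g => ⟨fun hg => ?_, fun hg => ?_⟩⟩
    · obtain ⟨u, hu, rfl⟩ := (red_mem_cl_map _ _ _).1 hg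
      rw [redA_map, (hφ u).1 hu]
    · obtain ⟨u, rfl⟩ := red_fix_range hj φ hg
      rw [redA_map] at hg
      exact (hm u).2 ((hφ u).2 (red_map_inj hj hg))

theorem red_fixed {m n : ℕ} (h : m ≤ n) {W' : List (FreeGroup (Fin (m + 1)))} (o : OE (cl W'))
    (μ : MulAut (FreeGroup (Fin (n + 1)))) :
    Fixed (W'.map fun w => μ (FreeGroup.map (inc m n) w)) ↔ Fixed W' := by
  rw [← red_fixed_inj (red_inc_inj h) o, ← fixed_map (W := W'.map (FreeGroup.map (inc m n))) μ,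
    List.map_map]
  rfl

lemma red_lift_of {B : Type} (σ : X → Equiv.Perm B) (u : FreeGroup X) (b : B) :
    FreeGroup.lift (fun x => redP B (σ x)) u (FreeGroup.of b) =
      FreeGroup.of (FreeGroup.lift σ u b) := by
  have : FreeGroup.lift (fun x => redP B (σ x)) = (redP B).comp (FreeGroup.lift σ) := by
    apply FreeGroup.ext_hom
    intro a; simp
  rw [this]; rfl

/-- the theorem of Marshall Hall -/
theorem hall (W : List (FreeGroup X)) (g : FreeGroup X) : g ∉ cl W ↔ NM W g := by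
  classical
  constructor
  · intro hg
    let pt : FreeGroup X ⧸ cl W := ((1 : FreeGroup X) : FreeGroup X ⧸ cl W)
    have hpt : ∀ u : FreeGroup X, u • pt = pt ↔ u ∈ cl W := fun u => by
      rw [← MulAction.mem_stabilizer_iff, MulAction.stabilizer_quotient]
    let Y : Finset (FreeGroup X ⧸ cl W) :=
      ((g :: W).flatMap fun w => w.toWord.tails.map fun L => FreeGroup.mk L • pt).toFinset
    have hY : ∀ w ∈ g :: W, ∀ L, L <:+ w.toWord → FreeGroup.mk L • pt ∈ Y := by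
      intro w hw L hL
      simp only [Y, List.mem_toFinset, List.mem_flatMap, List.mem_map, List.mem_tails]
      exact ⟨w, hw, L, hL, rfl⟩
    have hp : pt ∈ Y := by
      have := hY g List.mem_cons_self [] List.nil_suffix
      rwa [show FreeGroup.mk ([] : List (X × Bool)) = 1 from rfl, one_smul] at this
    have hex : ∀ x : X, ∃ σ : Equiv.Perm Y, ∀ (q : Y) (h : FreeGroup.of x • q.1 ∈ Y),
        σ q = ⟨_, h⟩ := by
      intro x
      obtain ⟨σ, hσ⟩ := Equiv.Perm.exists_extending_pair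
        (f := fun q : {q : Y // FreeGroup.of x • q.1 ∈ Y} => q.1)
        (g := fun q : {q : Y // FreeGroup.of x • q.1 ∈ Y} => (⟨_, q.2⟩ : Y))
        Subtype.val_injective (fun a b e =>
          Subtype.ext (Subtype.ext (MulAction.injective _ (congrArg Subtype.val e))))
      exact ⟨σ, fun q h => hσ ⟨q, h⟩⟩
    choose σ hσ using hex
    have hrun : ∀ L : List (X × Bool), (∀ L', L' <:+ L → FreeGroup.mk L' • pt ∈ Y) →
        (FreeGroup.lift σ (FreeGroup.mk L) ⟨pt, hp⟩).1 = FreeGroup.mk L • pt := by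
      intro L
      induction L with
      | nil =>
        intro _
        rw [show FreeGroup.mk ([] : List (X × Bool)) = 1 from rfl, map_one, one_smul]; rfl
      | cons p L ih =>
        intro h
        have h1 := ih (fun L' hL' => h L' (hL'.trans (List.suffix_cons p L)))
        have h2 := h _ List.suffix_rfl
        rw [red_mk_cons, mul_smul] at h2
        rw [red_mk_cons, map_mul, Equiv.Perm.mul_apply, mul_smul]
        rw [← h1] at h2 ⊢
        obtain ⟨x, b⟩ := p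
        cases b
        · rw [red_mk_false] at h2 ⊢
          rw [map_inv, FreeGroup.lift_apply_of]
          have h3 := hσ x ⟨_, h2⟩ (by
            rw [smul_inv_smul]; exact (FreeGroup.lift σ (FreeGroup.mk L) ⟨pt, hp⟩).2)
          have h4 : σ x ⟨_, h2⟩ = FreeGroup.lift σ (FreeGroup.mk L) ⟨pt, hp⟩ := by
            rw [h3]; exact Subtype.ext (smul_inv_smul _ _)
          conv_lhs => rw [← h4]
          simp
        · have e : FreeGroup.mk [(x, true)] = FreeGroup.of x := rfl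
          rw [e] at h2 ⊢
          rw [FreeGroup.lift_apply_of, hσ x _ h2]
    have hfix : ∀ w ∈ g :: W, FreeGroup.lift σ w ⟨pt, hp⟩ = ⟨pt, hp⟩ ↔ w ∈ cl W := by
      intro w hw
      have := hrun w.toWord (hY w hw)
      rw [FreeGroup.mk_toWord] at this
      rw [← hpt, ← this, Subtype.ext_iff]
    obtain ⟨n, hn⟩ : ∃ n, Fintype.card Y = n + 1 :=
      Nat.exists_eq_succ_of_ne_zero (Fintype.card_pos_iff.2 ⟨⟨pt, hp⟩⟩).ne'
    let e₀ : Y ≃ Fin (n + 1) := Fintype.equivFinOfCardEq hn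
    let e : Y ≃ Fin (n + 1) := e₀.trans (Equiv.swap (e₀ ⟨pt, hp⟩) 0)
    have he : e ⟨pt, hp⟩ = 0 := by simp [e]
    have hl : ∀ u, FreeGroup.lift (fun x => e.permCongr (σ x)) u 0 =
        e (FreeGroup.lift σ u ⟨pt, hp⟩) := by
      have : FreeGroup.lift (fun x => e.permCongr (σ x)) =
          e.permCongrHom.toMonoidHom.comp (FreeGroup.lift σ) := by
        apply FreeGroup.ext_hom
        intro a; simp
      intro u
      rw [this, ← he]
      simp
    refine ⟨n, fun x => redP _ (e.permCongr (σ x)), fun w hw => ?_, fun h => hg ?_⟩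
    · rw [red_lift_of, hl, (hfix w (List.mem_cons_of_mem _ hw)).2 (subset_closure hw), he]
    · rw [red_lift_of, hl, ← he] at h
      exact (hfix g List.mem_cons_self).1 (e.injective (FreeGroup.of_injective h))
  · rintro ⟨n, π, h1, h2⟩ hg
    apply h2
    have : cl W ≤ (stabilizer (MulAut (FreeGroup (Fin (n + 1))))
        (FreeGroup.of (0 : Fin (n + 1)))).comap (FreeGroup.lift π) := by
      unfold cl
      rw [closure_le]
      exact fun w hw => h1 w hw
    exact this hg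

end Pool.Agent.Work.MP_3bdf32_al
end

-- merged part: Pool.Agent.Work.MP_3bdf32_al.K2
section
/-! Computability in free groups and their automorphism groups. -/

namespace Pool.Agent.Work.MP_3bdf32_al

set_option linter.unusedSectionVars false
set_option linter.unusedVariables false

open Subgroup MulAction Filter
open scoped Pointwise

variable {ι : Type} [Primcodable ι] {Γ S T A B : ι → Type} [Cod Γ] [Cod S] [Cod T] [Cod A] [Cod B]
  [Alph A] [Alph B] [∀ i, DecidableEq (A i)] [∀ i, DecidableEq (B i)]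

section grp

variable [∀ i, Group (T i)] [CGrp T]

theorem CF.one : CF fun i (_ : Γ i) => (1 : T i) := by
  exact CF.const CGrp.one

theorem CF.mul {f g : ∀ i, Γ i → T i} (h : CF f) (h' : CF g) : CF fun i x => f i x * g i x := by
  exact CF.comp CGrp.mul (h.pair h')

theorem CF.inv {f : ∀ i, Γ i → T i} (h : CF f) : CF fun i x => (f i x)⁻¹ := by
  exact CF.comp CGrp.inv h

theorem CF.prod {l : ∀ i, Γ i → List (T i)} (h : CF l) : CF fun i x => (l i x).prod := by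
  refine (CF.foldr (f := fun i _ a b => a * b) h CF.one
    (CF.id.snd.fst.mul CF.id.snd.snd)).of_eq fun i x => ?_
  exact List.prod_eq_foldr.symm

theorem K2_mem_closure {G : Type} [Group G] (s : Set G) (g : G) :
    g ∈ closure s ↔ ∃ m : List G, (∀ y ∈ m, y ∈ s ∨ y⁻¹ ∈ s) ∧ m.prod = g := by
  refine ⟨fun h => ?_, ?_⟩
  · induction h using closure_induction with
    | mem x hx => exact ⟨[x], by simp [hx], by simp⟩
    | one => exact ⟨[], by simp, rfl⟩
    | mul x y _ _ hx hy =>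
      obtain ⟨a, ha, rfl⟩ := hx
      obtain ⟨b, hb, rfl⟩ := hy
      exact ⟨a ++ b, fun y hy => (List.mem_append.1 hy).elim (ha y) (hb y), List.prod_append⟩
    | inv x _ hx =>
      obtain ⟨a, ha, rfl⟩ := hx
      refine ⟨(a.map fun y => y⁻¹).reverse, fun y hy => ?_, (List.prod_inv_reverse a).symm⟩
      obtain ⟨z, hz, rfl⟩ := List.mem_map.1 (List.mem_reverse.1 hy)
      rw [inv_inv]
      exact (ha z hz).symm
  · rintro ⟨m, hm, rfl⟩
    refine list_prod_mem fun y hy => (hm y hy).elim (fun h => subset_closure h) fun h => ?_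
    exact (closure s).inv_mem_iff.1 (subset_closure h)

theorem K2_conj {f g : ∀ i, Γ i → T i} (h : CF f) (h' : CF g) :
    RE fun i x => IsConj (f i x) (g i x) := by
  refine RE.of_iff (RE.ex (p := fun i x (c : T i) => c * f i x * c⁻¹ = g i x) (DC.re
    (DC.eq ((CF.id.snd.mul (h.comp CF.id.fst)).mul CF.id.snd.inv) (h'.comp CF.id.fst))))
    fun i x => isConj_iff.symm

theorem RE.cl {l : ∀ i, Γ i → List (T i)} {f : ∀ i, Γ i → T i} (h : CF f) (hl : CF l) :
    RE fun i x => f i x ∈ cl (l i x) := by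
  refine RE.of_iff (RE.ex (p := fun i x (m : List (T i)) =>
    (∀ y ∈ m, y ∈ l i x ∨ y⁻¹ ∈ l i x) ∧ m.prod = f i x) (DC.re (DC.and
      (DC.ball (p := fun i (x : Γ i × List (T i)) y => y ∈ l i x.1 ∨ y⁻¹ ∈ l i x.1) CF.id.snd
        (DC.or (DC.mem CF.id.snd (hl.comp CF.id.fst.fst))
          (DC.mem CF.id.snd.inv (hl.comp CF.id.fst.fst))))
      (DC.eq CF.id.snd.prod (h.comp CF.id.fst))))) fun i x => ?_
  exact (K2_mem_closure _ _).symm

theorem RE.ncl {f g : ∀ i, Γ i → T i} (h : CF f) (h' : CF g) :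
    RE fun i x => f i x ∈ normalClosure {g i x} := by
  refine RE.of_iff (RE.ex (p := fun i x (m : List (T i)) =>
    (∀ y ∈ m, IsConj (g i x) y ∨ IsConj (g i x) y⁻¹) ∧ m.prod = f i x) (RE.and
      (RE.ball (p := fun i (x : Γ i × List (T i)) y =>
          IsConj (g i x.1) y ∨ IsConj (g i x.1) y⁻¹) CF.id.snd
        (RE.or (K2_conj (h'.comp CF.id.fst.fst) CF.id.snd)
          (K2_conj (h'.comp CF.id.fst.fst) CF.id.snd.inv)))
      (DC.eq CF.id.snd.prod (h.comp CF.id.fst)).re)) fun i x => ?_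
  rw [normalClosure, K2_mem_closure]
  simp only [Group.mem_conjugatesOfSet_iff, Set.mem_singleton_iff, exists_eq_left]

theorem RE.conj {f g : ∀ i, Γ i → T i} (h : CF f) (h' : CF g) : RE fun i x => IsConj (f i x) (g i x) := by
  exact K2_conj h h'

end grp

theorem CF.mk {l : ∀ i, Γ i → List (A i × Bool)} (h : CF l) : CF fun i x => FreeGroup.mk (l i x) := by
  exact CF.comp (g := fun i (w : List (A i × Bool)) => FreeGroup.mk w)
    ⟨fun p => p.2, Computable.snd, fun _ _ => rfl⟩ h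

theorem K2_reduce : CF fun i (w : List (A i × Bool)) => FreeGroup.reduce w := by
  refine (CF.foldr (f := fun i _ (a : A i × Bool) (r : List (A i × Bool)) =>
      (List.casesOn r [a] fun hd tl =>
        if a.1 = hd.1 ∧ a.2 = !hd.2 then tl else a :: hd :: tl : List (A i × Bool)))
    CF.id CF.nil ?_).of_eq fun i w => ?_
  · exact CF.listCases
      (f := fun i (x : List (A i × Bool) × (A i × Bool) × List (A i × Bool)) hd tl =>
        if x.2.1.1 = hd.1 ∧ x.2.1.2 = !hd.2 then tl else x.2.1 :: hd :: tl)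
      CF.id.snd.snd (CF.id.snd.fst.cons CF.nil)
      (CF.ite (DC.and (DC.eq CF.id.fst.snd.fst.fst CF.id.snd.fst.fst)
          (DC.eq CF.id.fst.snd.fst.snd CF.id.snd.fst.snd.not))
        CF.id.snd.snd (CF.id.fst.snd.fst.cons (CF.id.snd.fst.cons CF.id.snd.snd)))
  · induction w with
    | nil => rfl
    | cons a w ih => rw [List.foldr_cons, ih, FreeGroup.reduce.cons]

theorem CF.toWord {f : ∀ i, Γ i → FreeGroup (A i)} (h : CF f) : CF fun i x => (f i x).toWord := by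
  obtain ⟨F, hF, e⟩ := K2_reduce (A := A)
  exact CF.comp (g := fun i (w : FreeGroup (A i)) => w.toWord) ⟨F, hF, fun i c => e i c⟩ h

theorem cgrp_free : CGrp fun i => FreeGroup (A i) := by
  refine { eq := ?_, one := CF.mk CF.nil, mul := ?_, inv := ?_ }
  · exact (DC.eq CF.id.fst.toWord CF.id.snd.toWord).of_iff fun _ _ => FreeGroup.toWord_inj
  · refine (CF.mk (CF.id.fst.toWord.append CF.id.snd.toWord)).of_eq fun i x => ?_
    rw [← FreeGroup.mul_mk, FreeGroup.mk_toWord, FreeGroup.mk_toWord]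
  · refine (CF.mk (CF.map (f := fun i _ (s : A i × Bool) => (s.1, !s.2)) CF.id.toWord
      (CF.id.snd.fst.pair CF.id.snd.snd.not)).reverse).of_eq fun i x => ?_
    conv_rhs => rw [← FreeGroup.mk_toWord (x := x), FreeGroup.inv_mk]
    rfl

attribute [instance] cgrp_free

theorem CF.norm {f : ∀ i, Γ i → FreeGroup (A i)} (h : CF f) : CF fun i x => (f i x).norm := by
  exact h.toWord.length

theorem CF.of {f : ∀ i, Γ i → A i} (h : CF f) : CF fun i x => FreeGroup.of (f i x) := by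
  exact CF.mk ((h.pair (CF.bool true)).cons CF.nil)

theorem CF.lt {f : ∀ i, Γ i → A i × Bool} (h : CF f) : CF fun i x => lt (f i x) := by
  exact CF.mk (h.cons CF.nil)

theorem CF.lift [∀ i, Group (T i)] [CGrp T] {π : ∀ i, Γ i → A i → T i}
    {f : ∀ i, Γ i → FreeGroup (A i)} (h : CF fun i (x : Γ i × A i) => π i x.1 x.2) (h' : CF f) :
    CF fun i x => FreeGroup.lift (π i x) (f i x) := by
  have h1 : CF fun i (x : Γ i × (A i × Bool)) => π i x.1 x.2.1 :=
    h.comp (CF.id.fst.pair CF.id.snd.fst)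
  refine (CF.map (f := fun i x (s : A i × Bool) =>
    if s.2 = true then π i x s.1 else (π i x s.1)⁻¹) h'.toWord
    (CF.ite (DC.bool CF.id.snd.snd) h1 h1.inv)).prod.of_eq fun i x => ?_
  conv_rhs => rw [← FreeGroup.mk_toWord (x := f i x), FreeGroup.lift_mk]
  simp only [Bool.cond_eq_ite]

theorem CF.fmap {π : ∀ i, Γ i → A i → B i} {f : ∀ i, Γ i → FreeGroup (A i)}
    (h : CF fun i (x : Γ i × A i) => π i x.1 x.2) (h' : CF f) :
    CF fun i x => FreeGroup.map (π i x) (f i x) := by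
  refine (CF.lift (π := fun i x a => FreeGroup.of (π i x a)) h.of h').of_eq fun i x => ?_
  rw [FreeGroup.map_eq_lift]
  rfl

theorem K2_mkAut : CF fun i (p : (A i → FreeGroup (A i)) × (A i → FreeGroup (A i))) =>
    mkAut p.1 p.2 :=
  ⟨fun p => p.2, Computable.snd, fun _ _ => rfl⟩

open Classical in
theorem K2_apply {X : Type} (f f' : X → FreeGroup X) (g : FreeGroup X) :
    mkAut f f' g = if (∀ x, FreeGroup.lift f (f' x) = FreeGroup.of x) ∧
      ∀ x, FreeGroup.lift f' (f x) = FreeGroup.of x then FreeGroup.lift f g else g := by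
  unfold mkAut
  split_ifs <;> rfl

theorem K2_swap {X : Type} (f f' : X → FreeGroup X) : mkAut f' f = (mkAut f f')⁻¹ := by
  unfold mkAut
  by_cases h : (∀ x, FreeGroup.lift f (f' x) = FreeGroup.of x) ∧
      ∀ x, FreeGroup.lift f' (f x) = FreeGroup.of x
  · rw [dif_pos h, dif_pos h.symm]
    rfl
  · rw [dif_neg h, dif_neg fun h' => h h'.symm, inv_one]

theorem K2_lift {t : ∀ i, Γ i → A i → FreeGroup (A i)} {f : ∀ i, Γ i → FreeGroup (A i)}
    (h : CF t) (h' : CF f) : CF fun i x => FreeGroup.lift (t i x) (f i x) :=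
  CF.lift (CF.app (f := fun i (x : Γ i × A i) => t i x.1) (h.comp CF.id.fst) CF.id.snd) h'

theorem K2_valid {t u : ∀ i, Γ i → A i → FreeGroup (A i)} (h : CF t) (h' : CF u) :
    DC fun i x => ∀ a, FreeGroup.lift (t i x) (u i x a) = FreeGroup.of a :=
  DC.all (p := fun i x a => FreeGroup.lift (t i x) (u i x a) = FreeGroup.of a)
    (DC.eq (K2_lift (t := fun i (x : Γ i × A i) => t i x.1) (h.comp CF.id.fst)
      (CF.app (f := fun i (x : Γ i × A i) => u i x.1) (h'.comp CF.id.fst) CF.id.snd)) CF.id.snd.of)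

theorem K2_app : CF fun i (x : ((A i → FreeGroup (A i)) × (A i → FreeGroup (A i))) ×
    FreeGroup (A i)) => mkAut x.1.1 x.1.2 x.2 := by
  classical
  exact (CF.ite ((K2_valid CF.id.fst.fst CF.id.fst.snd).and (K2_valid CF.id.fst.snd CF.id.fst.fst))
    (K2_lift CF.id.fst.fst CF.id.snd) CF.id.snd).of_eq fun i x => by
      rw [K2_apply]

theorem K2_inv {φ : ∀ i, Γ i → MulAut (FreeGroup (A i))} (h : CF φ) :
    CF fun i x => (φ i x)⁻¹ := by
  obtain ⟨F, hF, e⟩ := (K2_mkAut (A := A)).comp (CF.pair CF.id.snd CF.id.fst)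
  exact CF.comp (g := fun i (x : MulAut (FreeGroup (A i))) => x⁻¹)
    ⟨F, hF, fun i c => (e i c).trans (K2_swap _ _)⟩ h

theorem CF.aut {φ : ∀ i, Γ i → MulAut (FreeGroup (A i))} {f : ∀ i, Γ i → FreeGroup (A i)}
    (h : CF φ) (h' : CF f) : CF fun i x => φ i x (f i x) := by
  obtain ⟨F, hF, e⟩ := K2_app (A := A)
  exact CF.comp (g := fun i (x : MulAut (FreeGroup (A i)) × FreeGroup (A i)) => x.1 x.2)
    ⟨F, hF, fun i c => e i c⟩ (h.pair h')

theorem CF.mkAut {φ : ∀ i, Γ i → MulAut (FreeGroup (A i))}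
    (h : CF fun i (x : Γ i × A i) => φ i x.1 (FreeGroup.of x.2))
    (h' : CF fun i (x : Γ i × A i) => (φ i x.1)⁻¹ (FreeGroup.of x.2)) : CF φ := by
  exact (K2_mkAut.comp (CF.pair (CF.lam (f := fun i x a => φ i x (FreeGroup.of a)) h)
    (CF.lam (f := fun i x a => (φ i x)⁻¹ (FreeGroup.of a)) h'))).of_eq fun i x => mkAut_self _

theorem cgrp_aut : CGrp fun i => MulAut (FreeGroup (A i)) := by
  refine { eq := ?_, one := CF.mkAut CF.id.snd.of CF.id.snd.of, mul := ?_, inv := K2_inv CF.id }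
  · refine (DC.all (p := fun i (x : MulAut (FreeGroup (A i)) × MulAut (FreeGroup (A i))) a =>
      x.1 (FreeGroup.of a) = x.2 (FreeGroup.of a))
      (DC.eq (CF.id.fst.fst.aut CF.id.snd.of) (CF.id.fst.snd.aut CF.id.snd.of))).of_iff
      fun i x => ⟨fun h => MulEquiv.ext fun g => ?_, fun h a => by rw [h]⟩
    exact DFunLike.congr_fun
      (FreeGroup.ext_hom x.1.toMonoidHom x.2.toMonoidHom fun a => h a) g
  · exact CF.mkAut (CF.id.fst.fst.aut (CF.id.fst.snd.aut CF.id.snd.of))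
      (((K2_inv CF.id.fst.snd).aut ((K2_inv CF.id.fst.fst).aut CF.id.snd.of)).of_eq
        fun i x => by rw [mul_inv_rev, MulAut.mul_apply])

attribute [instance] cgrp_aut

theorem CF.conj {f : ∀ i, Γ i → FreeGroup (A i)} (h : CF f) : CF fun i x => MulAut.conj (f i x) := by
  have h1 : CF fun i (x : Γ i × A i) => f i x.1 := h.comp CF.id.fst
  exact CF.mkAut ((h1.mul CF.id.snd.of).mul h1.inv)
    (((h1.inv.mul CF.id.snd.of).mul h1).of_eq fun i x => (MulAut.conj_inv_apply _ _).symm)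

theorem DC.lip {l : ∀ i, Γ i → ℕ} {φ : ∀ i, Γ i → MulAut (FreeGroup (A i))} (hl : CF l) (h : CF φ) :
    DC fun i x => Lip (l i x) (φ i x) := by
  have h1 : CF fun i (x : Γ i × A i) => φ i x.1 := h.comp CF.id.fst
  have h2 : CF fun i (x : Γ i × A i) => l i x.1 := hl.comp CF.id.fst
  exact DC.all (p := fun i x a => (φ i x (FreeGroup.of a)).norm ≤ l i x ∧
      ((φ i x)⁻¹ (FreeGroup.of a)).norm ≤ l i x)
    ((DC.le (h1.aut CF.id.snd.of).norm h2).and (DC.le (h1.inv.aut CF.id.snd.of).norm h2))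

theorem K2_words [Alph T] (n : ℕ) : ∃ W : ∀ i, List (List (T i)),
    (CF fun i (_ : Unit) => W i) ∧ ∀ i w, w.length ≤ n → w ∈ W i := by
  obtain ⟨l, hl, cl⟩ := Alph.all (A := T)
  induction n with
  | zero =>
    exact ⟨fun _ => [[]], CF.nil.cons CF.nil, fun i w hw => by
      simp [List.length_eq_zero_iff.1 (Nat.le_zero.1 hw)]⟩
  | succ n ih =>
    obtain ⟨W, hW, eW⟩ := ih
    refine ⟨fun i => [] :: (l i).flatMap fun a => (W i).map fun w => a :: w, CF.nil.cons ?_,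
      fun i w hw => ?_⟩
    · exact CF.flatMap (f := fun i _ a => (W i).map fun w => a :: w) cl
        (CF.map (f := fun i (x : Unit × T i) w => x.2 :: w) hW.const
          (CF.id.fst.snd.cons CF.id.snd))
    · cases w with
      | nil => exact List.mem_cons_self
      | cons a w =>
        exact List.mem_cons_of_mem _ (List.mem_flatMap.2 ⟨a, hl i a,
          List.mem_map.2 ⟨w, eW i w (by simpa using hw), rfl⟩⟩)

theorem K2_ball (n : ℕ) : ∃ G : ∀ i, List (FreeGroup (A i)),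
    (CF fun i (_ : Unit) => G i) ∧ ∀ i g, g.norm ≤ n → g ∈ G i := by
  obtain ⟨W, hW, eW⟩ := K2_words (T := fun i => A i × Bool) n
  exact ⟨fun i => (W i).map FreeGroup.mk,
    CF.map (f := fun i _ w => FreeGroup.mk w) hW (CF.mk CF.id.snd),
    fun i g hg => List.mem_map.2 ⟨_, eW i _ hg, FreeGroup.mk_toWord⟩⟩

theorem K2_tab {G : ∀ i, List (FreeGroup (A i))} (hG : CF fun i (_ : Unit) => G i) :
    ∃ U : ∀ i, List (A i → FreeGroup (A i)), (CF fun i (_ : Unit) => U i) ∧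
      ∀ i t, (∀ a, t a ∈ G i) → t ∈ U i := by
  obtain ⟨l, hl, cl⟩ := Alph.all (A := A)
  refine ⟨fun i => (l i).foldr (fun a V => V.flatMap fun t => (G i).map fun g =>
    fun x => if x = a then g else t x) [fun _ => 1], ?_, fun i t ht => ?_⟩
  · refine CF.foldr (f := fun i _ a (V : List (A i → FreeGroup (A i))) => V.flatMap fun t =>
      (G i).map fun g => fun x => if x = a then g else t x) cl
      ((CF.lam (f := fun i _ _ => (1 : FreeGroup (A i))) CF.one).cons CF.nil) ?_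
    refine CF.flatMap (f := fun i (y : Unit × A i × List (A i → FreeGroup (A i))) t =>
      (G i).map fun g => fun x => if x = y.2.1 then g else t x) CF.id.snd.snd ?_
    refine CF.map (f := fun i (y : (Unit × A i × List (A i → FreeGroup (A i))) ×
      (A i → FreeGroup (A i))) g => fun x => if x = y.1.2.1 then g else y.2 x) hG.const ?_
    refine CF.lam (f := fun i (y : ((Unit × A i × List (A i → FreeGroup (A i))) ×
      (A i → FreeGroup (A i))) × FreeGroup (A i)) x =>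
        if x = y.1.1.2.1 then y.2 else y.1.2 x) ?_
    exact CF.ite (DC.eq CF.id.snd CF.id.fst.fst.fst.snd.fst) CF.id.fst.snd
      (CF.app CF.id.fst.fst.snd CF.id.snd)
  · have key : ∀ m : List (A i), ∃ u ∈ m.foldr (fun a V => V.flatMap fun t => (G i).map fun g =>
        fun x => if x = a then g else t x) [fun _ => 1], ∀ x ∈ m, u x = t x := by
      intro m
      induction m with
      | nil => exact ⟨_, List.mem_cons_self, by simp⟩
      | cons a m ih =>
        obtain ⟨u, hu, e⟩ := ih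
        refine ⟨_, List.mem_flatMap.2 ⟨u, hu, List.mem_map.2 ⟨t a, ht a, rfl⟩⟩, fun x hx => ?_⟩
        by_cases h : x = a
        · simp [h]
        · simpa [h] using e x (by simpa [h] using hx)
    obtain ⟨u, hu, e⟩ := key (l i)
    rwa [← funext fun x => e x (hl i x)]

theorem ex_lips : ∃ L : ∀ i, List (MulAut (FreeGroup (A i))),
    (CF fun i (_ : Unit) => L i) ∧ ∀ i ω, Lip 3 ω → ω ∈ L i := by
  obtain ⟨G, hG, eG⟩ := K2_ball (A := A) 3
  obtain ⟨U, hU, eU⟩ := K2_tab (A := A) hG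
  refine ⟨fun i => (U i).flatMap fun t => (U i).map fun u => mkAut t u, ?_, fun i ω hω => ?_⟩
  · exact CF.flatMap (f := fun i _ t => (U i).map fun u => mkAut t u) hU
      (CF.map (f := fun i (x : Unit × (A i → FreeGroup (A i))) u => mkAut x.2 u) hU.const
        (K2_mkAut.comp (CF.pair CF.id.fst.snd CF.id.snd)))
  · exact List.mem_flatMap.2 ⟨_, eU i (fun a => ω (FreeGroup.of a)) fun a => eG i _ (hω a).1,
      List.mem_map.2 ⟨_, eU i (fun a => ω⁻¹ (FreeGroup.of a)) fun a => eG i _ (hω a).2,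
        mkAut_self ω⟩⟩

theorem RE.allLip {p : ∀ i, Γ i → MulAut (FreeGroup (A i)) → Prop}
    (h : RE fun i (x : Γ i × MulAut (FreeGroup (A i))) => p i x.1 x.2) :
    RE fun i x => ∀ ω, Lip 3 ω → p i x ω := by
  obtain ⟨L, hL, eL⟩ := ex_lips (A := A)
  exact (RE.ball (p := fun i x ω => Lip 3 ω → p i x ω) hL.const
    (RE.imp (DC.lip (CF.nat 3) CF.id.snd) h)).of_iff fun i x =>
      ⟨fun a ω b => a ω (eL i ω b) b, fun a ω _ => a ω⟩

theorem CF.len {l : ∀ i, Γ i → List (FreeGroup (A i))} {φ : ∀ i, Γ i → MulAut (FreeGroup (A i))}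
    (hl : CF l) (h : CF φ) : CF fun i x => len (l i x) (φ i x) := by
  exact (CF.map (f := fun i x g => (φ i x g).norm) hl
    (CF.aut (φ := fun i (x : Γ i × FreeGroup (A i)) => φ i x.1) (h.comp CF.id.fst)
      CF.id.snd).norm).sum

end Pool.Agent.Work.MP_3bdf32_al
end
end

-- merged part: Pool.Agent.Work.MP_3bdf32_al.NoEx
section
-- merged part: Pool.Agent.Work.MP_3bdf32_al.Tw3
section
/-! Generation by basic twists, and twists along curves. -/

namespace Pool.Agent.Work.MP_3bdf32_al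

set_option linter.unusedSectionVars false
set_option linter.unusedVariables false

open Subgroup MulAction Filter
open scoped Pointwise

variable {X : Type} [Fintype X] [DecidableEq X] {W : List (FreeGroup X)}
  {Z Z' Y : Subgroup (FreeGroup X)} {A A' B C C' U : Set (FreeGroup X)} {g x y : FreeGroup X}
  {N N' : Set (Subgroup (FreeGroup X))} {V V' : Ori (FreeGroup X)}
  {τ σ : Subgroup (FreeGroup X) → Set (FreeGroup X) → FreeGroup X} {T S : MulAut (FreeGroup X)}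

theorem Tw3_reps {α : Type} (R : α → α → Prop) (hR : Equivalence R) (P : α → Prop) (S : Set α)
    (hS : S.Finite) (hP : ∀ a ∈ S, P a) (h : ∀ a, P a → ∃ b ∈ S, R b a) :
    ∃ (n : ℕ) (f : Fin n → α), (∀ j, P (f j)) ∧ ∀ a, P a → ∃! j, R (f j) a := by
  let s : Setoid α := ⟨R, hR⟩
  haveI : Finite (Quotient.mk s '' S) := (hS.image _).to_subtype
  obtain ⟨n, ⟨e⟩⟩ := Finite.exists_equiv_fin (Quotient.mk s '' S)
  choose f f1 f2 using fun j : Fin n => (e.symm j).2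
  refine ⟨n, f, fun j => hP _ (f1 j), fun a ha => ?_⟩
  obtain ⟨b, hb, r⟩ := h a ha
  refine ⟨e ⟨_, b, hb, rfl⟩, hR.trans (Quotient.exact (s := s) ?_) r, fun j hj => ?_⟩
  · rw [f2, e.symm_apply_apply]
  · rw [← e.symm_apply_eq]
    refine Subtype.ext ?_
    rw [← f2]
    exact Quotient.sound (s := s) (hR.trans hj (hR.symm r))

theorem Tw3_list (hb : Bx W) (hN : Fam (cl W) N) {ι : Type}
    (τ : ι → Subgroup (FreeGroup X) → Set (FreeGroup X) → FreeGroup X)
    (t : ι → MulAut (FreeGroup X)) (p : ∀ j, Par (cl W) (τ j)) (h : ∀ j, Tw (cl W) N (τ j) (t j))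
    (m : ι → ℤ) (l : List ι) : Par (cl W) (fun Z C => (l.map fun j => τ j Z C ^ m j).prod) ∧
      ∃ T ∈ Subgroup.closure (Set.range t),
        Tw (cl W) N (fun Z C => (l.map fun j => τ j Z C ^ m j).prod) T := by
  induction l with
  | nil => exact ⟨par_one, 1, one_mem _, tw_one hb hN⟩
  | cons j l ih =>
    obtain ⟨a, T, b, c⟩ := ih
    exact ⟨((p j).zpow (m j)).mul a, _, mul_mem (Subgroup.zpow_mem _
      (Subgroup.subset_closure (Set.mem_range_self j)) (m j)) b,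
      tw_mul hb hN ((p j).zpow (m j)) a (tw_zpow hb hN (p j) (h j) (m j)) c⟩

theorem tw_gen (hb : Bx W) (hN : Fam (cl W) N) : ∃ (n : ℕ) (Zs : Fin n → Subgroup (FreeGroup X))
    (z : Fin n → FreeGroup X) (Cs : Fin n → Set (FreeGroup X)) (t : Fin n → MulAut (FreeGroup X)),
    (∀ j, Zs j ∈ N ∧ zpowers (z j) = Zs j ∧ IsAt (cl W) (Zs j) (Cs j) ∧
      Tw (cl W) N (bp (cl W) (Zs j) (z j) (Cs j)) (t j)) ∧
    (∀ Z ∈ N, ∀ C, IsAt (cl W) Z C → ∃! j, ∃ k, tl (cl W) k • Zs j = Z ∧ k • Cs j = C) ∧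
    (∀ τ T, Par (cl W) τ → Tw (cl W) N τ T → T ∈ Subgroup.closure (Set.range t)) ∧
    (∀ T ∈ Subgroup.closure (Set.range t), ∃ τ, Par (cl W) τ ∧ Tw (cl W) N τ T) ∧
    ∀ m : Fin n → ℤ, ∃ τ, Par (cl W) τ ∧ ∀ j, τ (Zs j) (Cs j) = z j ^ m j := by
  obtain ⟨n₀, hn⟩ := acc hb
  obtain ⟨S, s1, -, s2⟩ := hn N hN
  obtain ⟨n, f, f1, f2⟩ := Tw3_reps
    (fun p q : Subgroup (FreeGroup X) × Set (FreeGroup X) =>
      ∃ k, tl (cl W) k • p.1 = q.1 ∧ tl (cl W) k • p.2 = q.2)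
    ⟨fun p => ⟨1, by simp, by simp⟩,
      fun ⟨k, a, b⟩ => ⟨k⁻¹, by rw [← a, map_inv, inv_smul_smul],
        by rw [← b, map_inv, inv_smul_smul]⟩,
      fun ⟨k, a, b⟩ ⟨k', a', b'⟩ => ⟨k' * k, by rw [map_mul, mul_smul, a, a'],
        by rw [map_mul, mul_smul, b, b']⟩⟩
    (fun p => p.1 ∈ N ∧ IsAt (cl W) p.1 p.2) {p | p.1 ∈ S ∧ IsAt (cl W) p.1 p.2}
    ((S.finite_toSet.biUnion fun Z hZ =>
      (atoms_fin hb (hN.sp Z (s1 hZ)).1).image (Prod.mk Z)).subset fun p hp =>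
        Set.mem_biUnion hp.1 ⟨p.2, hp.2, rfl⟩)
    (fun p hp => ⟨s1 hp.1, hp.2⟩) (by
      rintro ⟨Z, C⟩ ⟨a, b⟩
      obtain ⟨Z₀, c, k, rfl⟩ := s2 Z a
      refine ⟨(Z₀, (tl (cl W) k)⁻¹ • C), ⟨c, ?_⟩, k, rfl, smul_inv_smul _ _⟩
      simpa using b.smul (tl (cl W) k)⁻¹)
  have ax : ∀ j, Ax (f j).1 := fun j => (hN.sp _ (f1 j).1).1
  choose z z1 z2 z3 using fun j => (ax j).gen
  have zm : ∀ j, z j ∈ (f j).1 := fun j => z2 j ▸ mem_zpowers _
  have pb : ∀ j, Par (cl W) (bp (cl W) (f j).1 (z j) (f j).2) := fun j => par_bp (ax j) (zm j) _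
  choose t ht using fun j => tw_ex hb hN (pb j)
  have key : ∀ (m : Fin n → ℤ) j k, ((List.finRange n).map fun i =>
      bp (cl W) (f i).1 (z i) (f i).2 (tl (cl W) k • (f j).1) (k • (f j).2) ^ m i).prod =
        k * z j ^ m j * k⁻¹ := by
    intro m j k
    rw [List.prod_map_eq_pow_single j, List.count_eq_one_of_mem (List.nodup_finRange n)
      (List.mem_finRange j), pow_one, bp_smul (ax j) (zm j), conj_zpow]
    intro i hi _
    rw [bp_of_not, one_zpow]
    intro k' a b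
    exact hi ((f2 (tl (cl W) k • (f j).1, k • (f j).2)
      ⟨hN.inv k _ (f1 j).1, (f1 j).2.smul (tl (cl W) k)⟩).unique ⟨k', a, b⟩ ⟨k, rfl, rfl⟩)
  refine ⟨n, fun j => (f j).1, z, fun j => (f j).2, t,
    fun j => ⟨(f1 j).1, z2 j, (f1 j).2, ht j⟩, fun Z a C b => f2 (Z, C) ⟨a, b⟩,
    fun τ T p h => ?_, fun T hT => ?_, fun m => ?_⟩
  · have hm : ∀ j, ∃ m : ℤ, z j ^ m = τ (f j).1 (f j).2 := fun j =>
      mem_zpowers_iff.1 ((z2 j).ge (p.mem (f j).1 (f j).2))
    choose m hm using hm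
    obtain ⟨-, T', a, b⟩ := Tw3_list hb hN _ t pb ht m (List.finRange n)
    rw [tw_uniq hb hN h b fun Z c C d => ?_]
    · exact a
    obtain ⟨j, ⟨k, e1, e2⟩, -⟩ := f2 (Z, C) ⟨c, d⟩
    change _ = Z at e1
    change _ = C at e2
    subst e1 e2
    rw [p.equi, ← hm]
    exact (key m j k).symm
  · induction hT using closure_induction with
    | mem x hx =>
      obtain ⟨j, rfl⟩ := hx
      exact ⟨_, pb j, ht j⟩
    | one => exact ⟨_, par_one, tw_one hb hN⟩
    | mul x y _ _ hx hy =>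
      obtain ⟨τ, a, b⟩ := hx
      obtain ⟨σ, c, d⟩ := hy
      exact ⟨_, a.mul c, tw_mul hb hN a c b d⟩
    | inv x _ hx =>
      obtain ⟨τ, a, b⟩ := hx
      exact ⟨_, a.zpow (-1), by simpa only [zpow_neg_one x] using tw_zpow hb hN a b (-1)⟩
  · refine ⟨_, (Tw3_list hb hN _ t pb ht m (List.finRange n)).1, fun j => ?_⟩
    simpa using key m j 1

theorem cv_ex (hb : Bx W) (h : Z ∈ CX (cl W)) (e : zpowers g = Z) : ∃ T, Cv (cl W) g T := by
  have ax : Ax Z := h.1.1.1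
  have m : g ∈ Z := e ▸ mem_zpowers g
  have ne : g ≠ 1 := by
    rintro rfl
    obtain ⟨z, a, b, -⟩ := ax.gen
    have : z ∈ zpowers (1 : FreeGroup X) := by rw [e, ← b]; exact mem_zpowers z
    exact a (by simpa using this)
  obtain rfl := ax.eq_cen m ne
  obtain ⟨A, a, b⟩ := cx_two hb h
  obtain ⟨T, hT⟩ := tw_ex hb h.1.fam (par_bp ax m A)
  exact ⟨T, ne, e, h.1, A, a, b g m, hT⟩

theorem Cv.stab (h : Cv (cl W) g T) : T ∈ StabH (cl W) := by
  obtain ⟨A, -, -, a⟩ := h.tw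
  exact a.stab

theorem xn_eq_zero (hb : Bx W) (hZ : Ax Z) :
    xn (cl W) Z g = 0 ↔ ∀ Z' ∈ orb (cl W) Z, Eqv (cl W) Z' 1 g := by
  rw [xn, Set.ncard_eq_zero (orb_lf hb hZ 1 g), Set.eq_empty_iff_forall_notMem]
  exact forall_congr' fun Z' => by simp

theorem Cv.fix (hb : Bx W) (h : Cv (cl W) g T) : T x = x ↔ xn (cl W) (cen g) x = 0 := by
  obtain ⟨A, a, b, c⟩ := h.tw
  have ax := ax_cen h.ne
  rw [xn_eq_zero hb ax, tw_fix_iff hb h.simp.fam (par_bp ax (self_mem_cen g) A) c]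
  refine forall₂_congr fun Z hZ => ⟨fun e => ?_, fun e => by rw [atom_eq_iff.2 e]⟩
  obtain ⟨k, rfl⟩ := hZ
  have t := a.smul' k
  have e1 : bp (cl W) (cen g) g A (tl (cl W) k • cen g) (k • A) ≠ 1 := by
    rw [bp_smul ax (self_mem_cen g)]
    simpa using h.ne
  have e2 : bp (cl W) (cen g) g A (tl (cl W) k • cen g) (k • A)ᶜ = 1 := by
    refine bp_of_not fun k' i j => ?_
    have m : k⁻¹ * k' ∈ cen g := (ax.norm (H := cl W)).1 (by
      rw [map_mul, mul_smul, i, map_inv, inv_smul_smul])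
    have s : zpowers g ≤ stabilizer (FreeGroup X) A := zpowers_le_of_mem b
    have u : (k⁻¹ * k') • A = A := s (h.gen ▸ m)
    rw [mul_smul, inv_smul_eq_iff] at u
    rw [u] at j
    exact (iff_not_self (Set.ext_iff.1 j 1)).elim
  rw [← atom_eq_iff]
  rcases t.isAt.1 ⟨1, rfl⟩ with u | u <;> rcases t.isAt.1 ⟨x, rfl⟩ with v | v <;>
    rw [u, v] at e ⊢
  · exact (e1 (e.trans e2)).elim
  · exact (e1 (e.symm.trans e2)).elim

theorem Cv.conj (hb : Bx W) (h : Cv (cl W) g T) (e : x ≠ 1) (n : ¬ OCr (cl W) g x) : IsConj x (T x) := by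
  obtain ⟨A, a, b, ψ, c, d⟩ := h.tw
  have hN := h.simp.fam
  have p := par_bp (W := W) (ax_cen h.ne) (self_mem_cen g) A
  rw [isConj_iff]
  by_cases m : cen x ∈ orb (cl W) (cen g)
  · exact ⟨_, (tw_GV hb hN p c d (vz_isV hb hN m ⟨1, rfl⟩)
      (.inr ⟨_, vz_adj hb hN m ⟨1, rfl⟩, self_mem_cen x⟩)).symm⟩
  · obtain ⟨V, i, j⟩ := lies hb hN (ax_cen e) m (by
      rintro _ ⟨k, rfl⟩ r
      refine n ⟨k⁻¹, ?_⟩
      simpa only [inv_smul_smul, map_inv] using r.smul (tl (cl W) k)⁻¹)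
    exact ⟨_, (tw_GV hb hN p c d i (.inl (j (self_mem_cen x)))).symm⟩

theorem Cv.lin (hb : Bx W) (h : Cv (cl W) g T) (x : FreeGroup X) :
    ∃ c : ℕ, ∀ k : ℤ, ((T ^ k) x).norm ≤ c * (k.natAbs + 1) := by
  obtain ⟨A, -, -, c⟩ := h.tw
  exact tw_lin hb h.simp.fam (par_bp (ax_cen h.ne) (self_mem_cen g) A) c x

theorem xn_conj (hT : T ∈ StabH (cl W)) (e : IsConj g (T g)) (x : FreeGroup X) :
    xn (cl W) (cen g) (T x) = xn (cl W) (cen g) x := by
  obtain ⟨c, hc⟩ := isConj_iff.1 e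
  have := xn_au ⟨T, hT⟩ (cen g) x
  rw [cen_smul, lin_au] at this
  rw [← this]
  exact (xn_orb ⟨c, by rw [tl_cen, hc]⟩ _).symm

theorem xn_map (hT : T ∈ StabH (cl W)) (g x : FreeGroup X) :
    xn (cl W) (cen (T g)) (T x) = xn (cl W) (cen g) x := by
  have := xn_au ⟨T, hT⟩ (cen g) x
  rwa [cen_smul, lin_au] at this

theorem sp_map (hT : T ∈ StabH (cl W)) (h : Sp (cl W) (cen g)) : Sp (cl W) (cen (T g)) := by
  have := h.smul (au (cl W) ⟨T, hT⟩)
  rwa [cen_smul, lin_au] at this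

end Pool.Agent.Work.MP_3bdf32_al
end

-- merged part: Pool.Agent.Work.MP_3bdf32_al.Fill
section
/-! Finitely many crossed curves fill the flexible vertices. -/

namespace Pool.Agent.Work.MP_3bdf32_al

set_option linter.unusedSectionVars false
set_option linter.unusedVariables false

open Subgroup MulAction Filter
open scoped Pointwise

variable {X : Type} [Fintype X] [DecidableEq X] {W : List (FreeGroup X)}
  {Z Z' Y : Subgroup (FreeGroup X)} {A A' B C C' U : Set (FreeGroup X)} {g x y : FreeGroup X}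
  {N N' : Set (Subgroup (FreeGroup X))} {V V' : Ori (FreeGroup X)}

theorem fill_not_uu (h : Z ∈ CX (cl W)) : Z ∉ UU (cl W) := fun a => a.2.1 h

theorem fill_lies (hb : Bx W) (h : Z ∈ CX (cl W)) :
    ∃ V, IsV (cl W) (UU (cl W)) V ∧ Flex (cl W) V ∧ Z ≤ GV (cl W) V := by
  obtain ⟨V, a, b⟩ := lies hb (fam_uu hb) h.1.1.1 (fill_not_uu h) fun Y hY => (uu_cx hb hY h).1
  obtain ⟨z, c, d, -⟩ := h.1.1.1.gen
  have e : z ∈ Z := d ▸ mem_zpowers z
  exact ⟨V, a, ⟨Z, h, z, e, c, b e⟩, b⟩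

/-- a vertex of the larger family over `V` such that `x` is in front of the new adjacent axes -/
theorem fill_over (hb : Bx W) (hN : Fam (cl W) N) (hN' : Fam (cl W) N') (s : N' ⊆ N)
    (hV : IsV (cl W) N' V) (x : FreeGroup X) : ∃ V₁, IsV (cl W) N V₁ ∧ res N' V₁ = V ∧
      ∀ Y, Adj V₁ Y → Y ∉ N' → x ∈ V₁.s Y := by
  by_cases e : vx (cl W) N' x = V
  · refine ⟨vx (cl W) N x, vx_isV hb hN x, (res_vx s x).trans e, fun Y _ _ => ?_⟩
    exact (vx_eq_iff (vx_isV hb hN x)).1 rfl Y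
  · obtain ⟨U, a, b⟩ := far_cover hb hN' hV e
    have hU : U ∈ N' := hV.mem a.1
    have hC := hV.isAt U hU
    refine ⟨vz (cl W) N U (V.s U), vz_isV hb hN (s hU) hC,
      (res_vz s hU _).trans (adj_eq hb hN' hV a).symm, fun Y c d => ?_⟩
    refine adj_disj hb hN (vz_isV hb hN (s hU) hC) (vz_adj hb hN (s hU) hC) c
      (fun f => d (f ▸ hU)) ?_
    rw [vz_self]
    exact b

theorem fill (hb : Bx W) : ∃ D : Finset (Subgroup (FreeGroup X)), ↑D ⊆ CX (cl W) ∧
    (∀ Z ∈ CX (cl W), ∃ Z₀ ∈ D, ∃ Z' ∈ orb (cl W) Z₀, Z = Z' ∨ Crs (cl W) Z Z') ∧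
    ∀ V, IsV (cl W) (UU (cl W)) V → Flex (cl W) V → ∀ x y,
      (∀ Z₀ ∈ D, ∀ Z' ∈ orb (cl W) Z₀, Eqv (cl W) Z' x y) → Beh V x y := by
  classical
  obtain ⟨P, -, hP, fP, mP⟩ := ex_max hb (M := CX (cl W)) (N₀ := ∅) (fun Z h => h.1)
    (fun k Z h => cx_smul h _) (Set.empty_subset _)
    ⟨fun _ h => h.elim, fun _ _ h => h.elim, fun _ h => h.elim⟩
  have fU := fam_uu hb
  have fN : Fam (cl W) (UU (cl W) ∪ P) := fU.union hb fP fun Z h Z' h' => (uu_cx hb h (hP h')).1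
  obtain ⟨n₀, hn⟩ := acc hb
  obtain ⟨S, hS, -, rS⟩ := hn P fP
  have key : ∀ Z : Subgroup (FreeGroup X), ∃ Z', Z ∈ CX (cl W) → Z' ∈ CX (cl W) ∧ Crs (cl W) Z Z' :=
    fun Z => by
      by_cases h : Z ∈ CX (cl W)
      · obtain ⟨Z', a, b⟩ := cx_symm hb h
        exact ⟨Z', fun _ => ⟨a, b⟩⟩
      · exact ⟨Z, fun a => (h a).elim⟩
  choose f hf using key
  have crsP : ∀ Z ∈ CX (cl W), Z ∉ P → ∃ Z' ∈ P, Crs (cl W) Z' Z := fun Z h n => by
    by_contra c
    push Not at c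
    exact n (mP Z h c)
  refine ⟨S ∪ S.image f, fun Z h => ?_, fun Z h => ?_, fun V hV fl x y hxy => ?_⟩
  · rcases Finset.mem_union.1 (Finset.mem_coe.1 h) with a | a
    · exact hP (hS a)
    · obtain ⟨Z₀, b, rfl⟩ := Finset.mem_image.1 a
      exact (hf Z₀ (hP (hS b))).1
  · by_cases a : Z ∈ P
    · obtain ⟨Z₀, b, c⟩ := rS Z a
      exact ⟨Z₀, Finset.mem_union_left _ b, Z, c, .inl rfl⟩
    · obtain ⟨Z', b, c⟩ := crsP Z h a
      obtain ⟨Z₀, d, e⟩ := rS Z' b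
      exact ⟨Z₀, Finset.mem_union_left _ d, Z', e, .inr (c.symm hb (hP b).1.1.1 h.1.1)⟩
  obtain ⟨p, hp, u, hu, un, uV⟩ : ∃ p ∈ P, ∃ u ∈ p, u ≠ 1 ∧ u ∈ GV (cl W) V := by
    obtain ⟨Z, h, g, e, n, i⟩ := fl
    by_cases a : Z ∈ P
    · exact ⟨Z, a, g, e, n, i⟩
    · obtain ⟨p, b, c⟩ := crsP Z h a
      obtain ⟨V', d, -, j⟩ := fill_lies hb (hP b)
      obtain ⟨z, z1, z2, -⟩ := (hP b).1.1.1.gen
      have zp : z ∈ p := z2 ▸ mem_zpowers z
      have := crs_same hb fU d hV (hP b).1.1.1 h.1.1 c zp z1 (j zp) e n i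
      exact ⟨p, b, z, zp, z1, this ▸ j zp⟩
  obtain ⟨V₁, h₁, r₁, x₁⟩ := fill_over hb fN fU Set.subset_union_left hV x
  obtain ⟨Y', a, b, c⟩ := over_adj hb fN fU Set.subset_union_left h₁ (.inr hp)
    (fill_not_uu (hP hp)) hu un (r₁ ▸ uV)
  have hY' : Y' ∈ P := a.resolve_left b
  obtain ⟨p₀, hp₀, k, rfl⟩ := rS Y' hY'
  obtain ⟨fc, fx⟩ := hf p₀ (hP (hS hp₀))
  have dc : tl (cl W) k • f p₀ ∈ CX (cl W) := cx_smul fc _
  obtain ⟨A', two, sep⟩ := crs_two hb (hP hY').1.1.1 dc.1.1 (fx.smul (tl (cl W) k))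
  have arc : Arc (cl W) (UU (cl W) ∪ P) V₁ (tl (cl W) k • f p₀) A' :=
    ⟨fN, h₁, dc.1, two, _, c, sep⟩
  have fD : f p₀ ∈ S ∪ S.image f := Finset.mem_union_right _ (Finset.mem_image_of_mem f hp₀)
  obtain ⟨Y, d, e, i⟩ := chn_beh (x := x) (y := y) hb arc (fun z hz n s => by
      rcases simp_tri hb s with j | j | j
      · exact .inl (.inl j)
      · exact .inl (.inr (mP _ j fun Z' l => fix_nc hb fN h₁ hz n (.inr l)))
      · exact .inr j)
    (fun A hA => by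
      obtain ⟨k', -, j⟩ := arc.of_mem hA
      exact hxy _ fD _ (orb_tl (orb_tl (mem_orb _) k) k') A j.two.1)
    (fun A hA Y j l => by
      obtain ⟨k', -, m⟩ := arc.of_mem hA
      have hY : Y ∈ UU (cl W) ∪ P := h₁.mem j.1
      have n : Y ∉ UU (cl W) := fun o =>
        (uu_cx hb o (cx_smul dc (tl (cl W) k'))).2
          (crs_of_sep hb m.simp.1.1 (fN.sp Y hY).1 m.two.1 l)
      obtain ⟨Z₀, q, r⟩ := rS Y (hY.resolve_left n)
      have t := x₁ Y j n
      exact ⟨t, (hxy Z₀ (Finset.mem_union_left _ q) Y r _ (h₁.cut hb fN hY)).1 t⟩)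
  have hY : Y ∈ UU (cl W) := by
    by_contra n
    exact e (x₁ Y d n)
  rw [← r₁]
  exact ⟨Y, res_adj hY d, by rwa [res_of_mem hY], by rwa [res_of_mem hY]⟩

theorem cx_lies (hb : Bx W) (h : Z ∈ CX (cl W)) :
    ∃ V, IsV (cl W) (UU (cl W)) V ∧ Flex (cl W) V ∧ Z ≤ GV (cl W) V :=
  fill_lies hb h

theorem fill_L (hb : Bx W) : ∃ D : Finset (Subgroup (FreeGroup X)), ↑D ⊆ CX (cl W) ∧
    (∀ Z ∈ CX (cl W), ∃ Z₀ ∈ D, ∃ Z' ∈ orb (cl W) Z₀, Z = Z' ∨ Crs (cl W) Z Z') ∧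
    ∀ g, (∀ Z₀ ∈ D, xn (cl W) Z₀ g = 0) → g ∈ LS (cl W) := by
  obtain ⟨D, hD, a, b⟩ := fill hb
  refine ⟨D, hD, a, fun g hg => mem_LS.2 fun Z hZ => ?_⟩
  obtain ⟨V, hV, fl, le⟩ := cx_lies hb hZ
  obtain ⟨U, c, d, e⟩ := b V hV fl 1 g fun Z₀ h₀ =>
    (xn_eq_zero hb (hD (Finset.mem_coe.2 h₀)).1.1.1).1 (hg Z₀ h₀)
  have hU : U ∈ UU (cl W) := hV.mem c.1
  have aU : Ax U := hU.1.1.1
  have aZ : Ax Z := hZ.1.1.1
  have ne : U ≠ Z := fun i => fill_not_uu hZ (i ▸ hU)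
  obtain ⟨n1, n2⟩ := uu_cx hb hU hZ
  obtain ⟨z, z1, z2, -⟩ := aZ.gen
  have zZ : z ∈ Z := z2 ▸ mem_zpowers z
  have i : V.s U = en (cl W) U Z := eq_en hb aU aZ ne n1 (hV.isAt U hU) zZ z1
    (fix_end hb (fam_uu hb) hV (le zZ) hU fun j => ne (aU.inter aZ j zZ z1))
  have j := en_cover hb aU aZ ne n1 n2
  rw [← i] at j
  have l := (en_isAt hb aZ aU ne.symm n2).eq (j d)
  have m := j e
  rw [l] at m
  exact m

theorem nonflex (hb : Bx W) (hV : IsV (cl W) (UU (cl W)) V) (e : g ∈ LS (cl W)) (b : Btw V 1 g) :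
    ¬ Flex (cl W) V := by
  intro fl
  obtain ⟨D, hD, -, c⟩ := fill hb
  refine (btw_iff hb (fam_uu hb) hV).1 b (c V hV fl 1 g ?_)
  rintro Z₀ h₀ _ ⟨k, rfl⟩
  exact mem_LS.1 e _ (cx_smul (hD (Finset.mem_coe.2 h₀)) _)

end Pool.Agent.Work.MP_3bdf32_al
end

-- merged part: Pool.Agent.Work.MP_3bdf32_al.Struct
section
/-! Rigidity, and the structure of the stabiliser on the rigid part. -/

namespace Pool.Agent.Work.MP_3bdf32_al

set_option linter.unusedSectionVars false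
set_option linter.unusedVariables false

open Subgroup MulAction Filter
open scoped Pointwise

variable {X : Type} [Fintype X] [DecidableEq X] {W : List (FreeGroup X)}
  {Z Z' Y : Subgroup (FreeGroup X)} {A A' B C C' U : Set (FreeGroup X)} {g x y : FreeGroup X}
  {N N' : Set (Subgroup (FreeGroup X))} {V V' : Ori (FreeGroup X)}

theorem rig (hb : Bx W) (hH : NA (cl W)) (hV : IsV (cl W) (UU (cl W)) V) (h : ¬ Flex (cl W) V) :
    ∃ Θ : Finset (StabH (cl W)), ∀ φ : StabH (cl W), ∃ θ ∈ Θ, ∃ c,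
      ∀ g ∈ GV (cl W) V, φ.1 g = c * θ.1 g * c⁻¹ := by
  classical
  obtain ⟨N, s, s', hN, -, hmax⟩ := ex_maxO hb
  obtain ⟨V₁, hV₁, rfl⟩ := ex_over hb hN (fam_uu hb) s hV
  obtain ⟨r, hr⟩ := clo_win hb (GV_fg hb hN hV₁) (hmax V₁ hV₁ h)
  obtain ⟨n₀, hacc⟩ := acc hb
  obtain ⟨S₁, a₁, -, b₁⟩ := hacc _ (fam_uu hb)
  obtain ⟨S₂, b₂⟩ := one_fin hb
  obtain ⟨m, hm⟩ := mult hb hN hH hV₁ (S₁ ∪ S₂) fun θ Z a => by
    rcases s' (hV₁.mem a.1) with u | u
    · obtain ⟨Z₀, c, d⟩ := b₁ _ (uu_smul u (au _ θ))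
      exact ⟨Z₀, Finset.mem_union_left _ c, ((fam_uu hb).sp Z₀ (a₁ c)).1, d⟩
    · obtain ⟨Z₀, c, d, e⟩ := b₂ _ (oo_smul u (au _ θ))
      exact ⟨Z₀, Finset.mem_union_right _ c, d, e⟩
  obtain ⟨Θ, hΘ⟩ := rigA (GV_fg hb hN hV₁) (GV_na hb hN hH hV₁) r hr m hm
  refine ⟨Θ, fun φ => ?_⟩
  obtain ⟨θ, a, c, e⟩ := hΘ φ
  refine ⟨θ, a, c, fun g hg => ?_⟩
  have := GV_root hb hN (fam_uu hb) s (fun Z u v => oo_oneS hb ((s' u).resolve_left v)) hV₁ hg
  clear hg
  induction this using closure_induction with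
  | mem x hx =>
    obtain ⟨n, hn, hx⟩ := hx
    refine root_uniq hn ?_
    rw [← map_pow, e _ hx, conj_pow, map_pow]
  | one => simp
  | mul x y _ _ hx hy => rw [map_mul, map_mul, hx, hy]; group
  | inv x _ hx => rw [map_inv, map_inv, hx]; group

/-- an equivariant choice of conjugating elements on the axes -/
theorem struct_r (H : Subgroup (FreeGroup X)) (α : MulAut (FreeGroup X)) :
    ∃ r : Subgroup (FreeGroup X) → FreeGroup X, ∀ Z, Ax Z → (∃ c, ∀ z ∈ Z, α z = c * z * c⁻¹) →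
      (∀ z ∈ Z, α z = r Z * z * (r Z)⁻¹) ∧ ∀ k, r (tl H k • Z) = α k * r Z * k⁻¹ := by
  classical
  have h₁ : ∀ S : Set (Subgroup (FreeGroup X)), ∃ Z₀, S.Nonempty → Z₀ ∈ S := fun S => by
    by_cases a : S.Nonempty
    · exact ⟨a.some, fun _ => a.some_mem⟩
    · exact ⟨⊤, fun b => (a b).elim⟩
  choose pick hpick using h₁
  have h₂ : ∀ Z : Subgroup (FreeGroup X), ∃ k, Z = tl H k • pick (orb H Z) := fun Z => by
    have a := hpick (orb H Z) ⟨Z, mem_orb Z⟩
    have b := mem_orb (H := H) Z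
    rwa [← orb_eq a] at b
  choose kk hkk using h₂
  have h₃ : ∀ Z : Subgroup (FreeGroup X), ∃ c, (∃ c, ∀ z ∈ Z, α z = c * z * c⁻¹) →
      ∀ z ∈ Z, α z = c * z * c⁻¹ := fun Z => by
    by_cases a : ∃ c, ∀ z ∈ Z, α z = c * z * c⁻¹
    · exact ⟨a.choose, fun _ => a.choose_spec⟩
    · exact ⟨1, fun b => (a b).elim⟩
  choose r₀ hr₀ using h₃
  have tr : ∀ (Z : Subgroup (FreeGroup X)) (k c : FreeGroup X), (∀ z ∈ Z, α z = c * z * c⁻¹) →
      ∀ z ∈ tl H k • Z, α z = (α k * c * k⁻¹) * z * (α k * c * k⁻¹)⁻¹ := fun Z k c a z hz => by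
    have := a _ (mem_tl_sub.1 hz)
    rw [map_mul, map_mul, map_inv] at this
    calc α z = α k * ((α k)⁻¹ * α z * α k) * (α k)⁻¹ := by group
      _ = _ := by rw [this]; group
  refine ⟨fun Z => α (kk Z) * r₀ (pick (orb H Z)) * (kk Z)⁻¹, fun Z hZ hc => ?_⟩
  obtain ⟨c, hc⟩ := hc
  have e₀ : pick (orb H Z) = tl H (kk Z)⁻¹ • Z := by
    rw [map_inv, eq_inv_smul_iff]; exact (hkk Z).symm
  have p₀ := hr₀ (pick (orb H Z)) ⟨_, by rw [e₀]; exact tr Z _ c hc⟩
  refine ⟨?_, fun k => ?_⟩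
  · have := tr _ (kk Z) _ p₀
    rwa [← hkk Z] at this
  · have o : orb H (tl H k • Z) = orb H Z := orb_eq ⟨k, rfl⟩
    have e₁ := hkk (tl H k • Z)
    rw [o] at e₁
    have ax : Ax (pick (orb H Z)) := by rw [e₀]; exact hZ.smul _
    have u : (kk (tl H k • Z))⁻¹ * k * kk Z ∈ pick (orb H Z) := by
      rw [← ax.norm (H := H), map_mul, map_mul, mul_smul, mul_smul, ← hkk Z, map_inv,
        inv_smul_eq_iff]
      exact e₁
    have := p₀ _ u
    rw [map_mul, map_mul, map_inv] at this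
    beta_reduce
    rw [o]
    calc α (kk (tl H k • Z)) * r₀ (pick (orb H Z)) * (kk (tl H k • Z))⁻¹
        = α (kk (tl H k • Z)) * (r₀ (pick (orb H Z)) * ((kk (tl H k • Z))⁻¹ * k * kk Z) *
          (r₀ (pick (orb H Z)))⁻¹) * r₀ (pick (orb H Z)) * (kk Z)⁻¹ * k⁻¹ := by group
      _ = _ := by rw [← this]; group

theorem struct0 (hb : Bx W) (hH : NA (cl W)) (α : StabH (cl W))
    (h : ∀ V, IsV (cl W) (UU (cl W)) V → ¬ Flex (cl W) V →
      ∃ c, ∀ g ∈ GV (cl W) V, α.1 g = c * g * c⁻¹) :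
    ∃ τ T, Par (cl W) τ ∧ Tw (cl W) (UU (cl W)) τ T ∧ ∀ g ∈ LS (cl W), α.1 g = T g := by
  classical
  have hN := fam_uu hb
  choose! c hc using h
  obtain ⟨r, hr⟩ := struct_r (cl W) α.1
  have uniq : ∀ V, IsV (cl W) (UU (cl W)) V → ¬ Flex (cl W) V → ∀ d,
      (∀ g ∈ GV (cl W) V, α.1 g = d * g * d⁻¹) → c V = d := fun V a b d e => by
    have : d⁻¹ * c V = 1 := (GV_na hb hN hH a).cen fun x hx => by
      have := (hc V a b x hx).symm.trans (e x hx)
      change d⁻¹ * c V * x = x * (d⁻¹ * c V)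
      calc d⁻¹ * c V * x = d⁻¹ * (c V * x * (c V)⁻¹) * c V := by group
        _ = _ := by rw [this]; group
    exact (inv_mul_eq_one.1 this).symm
  have fl : ∀ (k : FreeGroup X) (V : Ori (FreeGroup X)),
      Flex (cl W) (tl (cl W) k • V) ↔ Flex (cl W) V := fun k V =>
    ⟨fun a => by simpa using a.smul (tl (cl W) k)⁻¹, fun a => a.smul _⟩
  have equi : ∀ V, IsV (cl W) (UU (cl W)) V → ¬ Flex (cl W) V → ∀ k,
      c (tl (cl W) k • V) = α.1 k * c V * k⁻¹ := fun V a b k => by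
    refine uniq _ (a.smul (hN.pres k)) (by rwa [fl]) _ fun g hg => ?_
    have : k⁻¹ * g * k ∈ GV (cl W) V := by
      rw [← lin_mem_GV (tl (cl W) k), lin_tl, MulAut.conj_apply]
      convert hg using 1
      group
    have := hc V a b _ this
    rw [map_mul, map_mul, map_inv] at this
    calc α.1 g = α.1 k * ((α.1 k)⁻¹ * α.1 g * α.1 k) * (α.1 k)⁻¹ := by group
      _ = _ := by rw [this]; group
  have vm : ∀ x Z, x ∈ (vx (cl W) (UU (cl W)) x).s Z := fun x => (vx_eq_iff (vx_isV hb hN x)).1 rfl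
  have nf₁ : ¬ Flex (cl W) (vx (cl W) (UU (cl W)) 1) :=
    nonflex hb (vx_isV hb hN 1) (LS (cl W)).one_mem fun Z => .inl (vm 1 Z)
  have c₁ : c (vx (cl W) (UU (cl W)) 1) = 1 := hH.cen fun x hx => by
    have a := hc _ (vx_isV hb hN 1) nf₁ x (by simpa using conj_mem_GV hN 1 hx)
    rw [α.2 x hx] at a
    change _ * x = x * _
    rw [eq_mul_inv_iff_mul_eq] at a
    exact a.symm
  have ax : ∀ Z ∈ UU (cl W), ∀ C, IsAt (cl W) Z C → ¬ Flex (cl W) (vz (cl W) (UU (cl W)) Z C) →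
      ∀ z ∈ Z, α.1 z = c (vz (cl W) (UU (cl W)) Z C) * z * (c (vz (cl W) (UU (cl W)) Z C))⁻¹ :=
    fun Z a C b d z hz => by
      obtain ⟨m, hm, e⟩ := adj_pow hb hN (vz_isV hb hN a b) (vz_adj hb hN a b) hz
      exact root_conj α.1 hm (hc _ (vz_isV hb hN a b) d _ e)
  let τ : Subgroup (FreeGroup X) → Set (FreeGroup X) → FreeGroup X := fun Z C =>
    if Z ∈ UU (cl W) ∧ IsAt (cl W) Z C ∧ ¬ Flex (cl W) (vz (cl W) (UU (cl W)) Z C) then
      (r Z)⁻¹ * c (vz (cl W) (UU (cl W)) Z C) else 1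
  have par : Par (cl W) τ := by
    refine ⟨fun Z C => ?_, fun k Z C => ?_⟩
    · by_cases a : Z ∈ UU (cl W) ∧ IsAt (cl W) Z C ∧ ¬ Flex (cl W) (vz (cl W) (UU (cl W)) Z C)
      · simp only [τ, if_pos a]
        obtain ⟨a, b, d⟩ := a
        have e := ax Z a C b d
        obtain ⟨f, -⟩ := hr Z (hN.sp Z a).1 ⟨_, e⟩
        obtain ⟨z, -, hz⟩ := (hN.sp Z a).1
        have m : z ∈ Z := hz ▸ self_mem_cen z
        have := (e z m).symm.trans (f z m)
        rw [hz, mem_cen, ← hz]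
        change _ * z = z * _
        calc (r Z)⁻¹ * c (vz (cl W) (UU (cl W)) Z C) * z = (r Z)⁻¹ *
            (c (vz (cl W) (UU (cl W)) Z C) * z * (c (vz (cl W) (UU (cl W)) Z C))⁻¹) *
              c (vz (cl W) (UU (cl W)) Z C) := by group
          _ = _ := by rw [this]; group
      · simp only [τ, if_neg a]
        exact Z.one_mem
    · by_cases a : Z ∈ UU (cl W) ∧ IsAt (cl W) Z C ∧ ¬ Flex (cl W) (vz (cl W) (UU (cl W)) Z C)
      · have a' : tl (cl W) k • Z ∈ UU (cl W) ∧ IsAt (cl W) (tl (cl W) k • Z) (tl (cl W) k • C) ∧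
            ¬ Flex (cl W) (vz (cl W) (UU (cl W)) (tl (cl W) k • Z) (tl (cl W) k • C)) :=
          ⟨uu_smul a.1 _, a.2.1.smul _, by rw [← vz_smul (hN.pres k), fl]; exact a.2.2⟩
        simp only [τ, if_pos a, if_pos a']
        obtain ⟨a, b, d⟩ := a
        rw [← vz_smul (hN.pres k), equi _ (vz_isV hb hN a b) d,
          (hr Z (hN.sp Z a).1 ⟨_, ax Z a C b d⟩).2]
        group
      · have a' : ¬ (tl (cl W) k • Z ∈ UU (cl W) ∧
            IsAt (cl W) (tl (cl W) k • Z) (tl (cl W) k • C) ∧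
            ¬ Flex (cl W) (vz (cl W) (UU (cl W)) (tl (cl W) k • Z) (tl (cl W) k • C))) :=
          fun b => a ⟨(hN.pres k Z).1 b.1, by simpa using b.2.1.smul (tl (cl W) k)⁻¹, by
            have := b.2.2
            rwa [← vz_smul (hN.pres k), fl] at this⟩
        simp only [τ, if_neg a, if_neg a']
        group
  obtain ⟨T, hT⟩ := tw_ex hb hN par
  refine ⟨τ, T, par, hT, fun g hg => ?_⟩
  obtain ⟨ψ, hψ, e⟩ := hT
  have key : ψ (vx (cl W) (UU (cl W)) g) = c (vx (cl W) (UU (cl W)) g) := by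
    refine path_ind hb hN (vx_isV hb hN 1) (vx_isV hb hN g) (fun V => ψ V = c V)
      (hψ.1.trans c₁.symm) fun V Z hV P a _ _ b => ?_
    have hZ := hV.mem a.1
    have hC := (vx_isV hb hN g).isAt Z hZ
    have bt : Btw V 1 g := fun Y => by
      rcases b Y with f | f <;> rw [f]
      exacts [.inl (vm 1 Y), .inr (vm g Y)]
    have n₀ : ¬ Flex (cl W) V := nonflex hb hV hg bt
    have n₁ : ¬ Flex (cl W) (vz (cl W) (UU (cl W)) Z ((vx (cl W) (UU (cl W)) g).s Z)) :=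
      nonflex hb (vz_isV hb hN hZ hC) hg fun Y => by
        by_cases f : Y = Z
        · rw [f, vz_self]; exact .inr (vm g Z)
        · rw [vz_step hb hN hV a _ f]
          exact bt Y
    have v := adj_eq hb hN hV a
    have t₀ : τ Z (V.s Z) = (r Z)⁻¹ * c V := by
      simp only [τ]
      rw [if_pos ⟨hZ, hV.isAt Z hZ, by rwa [← v]⟩, ← v]
    have t₁ : τ Z ((vx (cl W) (UU (cl W)) g).s Z) =
        (r Z)⁻¹ * c (vz (cl W) (UU (cl W)) Z ((vx (cl W) (UU (cl W)) g).s Z)) := by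
      simp only [τ]
      rw [if_pos ⟨hZ, hC, n₁⟩]
    change ψ _ = c _
    change ψ V = c V at P
    rw [hψ.2 V Z _ hV a hC, t₀, t₁, P]
    group
  have := equi _ (vx_isV hb hN 1) nf₁ g
  rw [vx_mul hN, mul_one, c₁] at this
  rw [e, key, this]
  group

/-- finitely many relations with finitely many classes have finitely many common classes -/
theorem struct_fin {ι β : Type} [Nonempty β] (S : Finset ι) (R : ι → β → β → Prop)
    (ht : ∀ i a b c, R i a c → R i b c → R i a b)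
    (hf : ∀ i ∈ S, ∃ Θ : Finset β, ∀ φ, ∃ θ ∈ Θ, R i φ θ) :
    ∃ Θ : Finset β, ∀ φ, ∃ θ ∈ Θ, ∀ i ∈ S, R i φ θ := by
  classical
  choose Θ hΘ using hf
  choose f hf hf' using hΘ
  let F : β → (S → β) := fun φ i => f i.1 i.2 φ
  have fin : (Set.range F).Finite :=
    (Set.Finite.pi' fun i : S => (Θ i.1 i.2).finite_toSet).subset (by
      rintro _ ⟨φ, rfl⟩ i
      exact hf i.1 i.2 φ)
  refine ⟨fin.toFinset.image (Function.invFun F), fun φ => ⟨Function.invFun F (F φ),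
    Finset.mem_image_of_mem _ (fin.mem_toFinset.2 ⟨φ, rfl⟩), fun i hi => ?_⟩⟩
  have e : f i hi (Function.invFun F (F φ)) = f i hi φ :=
    congrFun (Function.invFun_eq (f := F) ⟨φ, rfl⟩) ⟨i, hi⟩
  exact ht i _ _ _ (hf' i hi φ) (e ▸ hf' i hi _)

theorem struct1 (hb : Bx W) (hH : NA (cl W)) : ∃ Θ : Finset (StabH (cl W)), ∀ φ : StabH (cl W),
    ∃ θ ∈ Θ, ∃ τ T, Par (cl W) τ ∧ Tw (cl W) (UU (cl W)) τ T ∧ ∀ g ∈ LS (cl W), φ.1 g = θ.1 (T g) := by
  classical
  have hN := fam_uu hb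
  obtain ⟨S, hS, hS'⟩ := vert_fin hb hN
  obtain ⟨Θ, hΘ⟩ := struct_fin S (fun V (φ θ : StabH (cl W)) => ¬ Flex (cl W) V → ∃ c,
      ∀ g ∈ GV (cl W) V, φ.1 g = c * θ.1 g * c⁻¹) (fun V a b c h h' n => by
    obtain ⟨d, e⟩ := h n
    obtain ⟨d', e'⟩ := h' n
    exact ⟨d * d'⁻¹, fun g hg => by rw [e g hg, e' g hg]; group⟩) fun V hV => by
      by_cases n : Flex (cl W) V
      · exact ⟨{1}, fun φ => ⟨1, Finset.mem_singleton_self _, fun a => (a n).elim⟩⟩
      · obtain ⟨Θ, hΘ⟩ := rig hb hH (hS V hV) n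
        exact ⟨Θ, fun φ => (hΘ φ).imp fun θ a => ⟨a.1, fun _ => a.2⟩⟩
  refine ⟨Θ, fun φ => ?_⟩
  obtain ⟨θ, a, b⟩ := hΘ φ
  obtain ⟨τ, T, p, t, e⟩ := struct0 hb hH (θ⁻¹ * φ) fun V hV n => by
    obtain ⟨k, V₀, m, rfl⟩ := hS' V hV
    obtain ⟨c, hc⟩ := b V₀ m fun f => n (f.smul _)
    refine ⟨θ.1⁻¹ (φ.1 k * c * (θ.1 k)⁻¹), fun g hg => ?_⟩
    have : k⁻¹ * g * k ∈ GV (cl W) V₀ := by
      rw [← lin_mem_GV (tl (cl W) k), lin_tl, MulAut.conj_apply]
      convert hg using 1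
      group
    have := hc _ this
    rw [map_mul, map_mul, map_inv, map_mul, map_mul, map_inv] at this
    have f : φ.1 g = (φ.1 k * c * (θ.1 k)⁻¹) * θ.1 g * (φ.1 k * c * (θ.1 k)⁻¹)⁻¹ :=
      calc φ.1 g = φ.1 k * ((φ.1 k)⁻¹ * φ.1 g * φ.1 k) * (φ.1 k)⁻¹ := by group
        _ = _ := by rw [this]; group
    change θ.1⁻¹ (φ.1 g) = _
    rw [f, map_mul, map_mul, map_inv (θ.1⁻¹), MulAut.inv_apply_self]
  refine ⟨θ, a, τ, T, p, t, fun g hg => ?_⟩
  rw [← e g hg]
  change _ = θ.1 (θ.1⁻¹ (φ.1 g))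
  rw [MulAut.apply_inv_self]

theorem struct_pow (hb : Bx W) (hH : NA (cl W)) (φ : StabH (cl W)) : ∃ M : ℕ, 0 < M ∧
    ∃ τ T, Par (cl W) τ ∧ Tw (cl W) (UU (cl W)) τ T ∧ ∀ g ∈ LS (cl W), (φ.1 ^ M) g = T g := by
  have hN := fam_uu hb
  obtain ⟨Θ, hΘ⟩ := struct1 hb hH
  choose θ hθ τ T p t e using fun n : ℕ => hΘ (φ ^ n)
  obtain ⟨a, b, ab, f⟩ := Set.Finite.exists_lt_map_eq_of_forall_mem (f := θ) (t := Θ)
    (fun n => hθ n) Θ.finite_toSet
  obtain ⟨M, rfl⟩ := Nat.exists_eq_add_of_lt ab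
  refine ⟨M + 1, M.succ_pos, _, _, ((p a).zpow (-1)).mul (p (a + M + 1)),
    tw_mul hb hN ((p a).zpow (-1)) (p _) (tw_zpow hb hN (p a) (t a) (-1)) (t _), fun g hg => ?_⟩
  have m : (φ.1 ^ (M + 1)) g ∈ LS (cl W) := LS_au (φ ^ (M + 1)).2 hg
  have e₁ := e a _ m
  have e₂ := e (a + M + 1) g hg
  rw [← f] at e₂
  have : (φ ^ a).1 ((φ.1 ^ (M + 1)) g) = (φ ^ (a + M + 1)).1 g := by
    rw [add_assoc, pow_add φ a]; rfl
  rw [this, e₂] at e₁
  rw [MulAut.mul_apply, (θ a).1.injective e₁, zpow_neg_one, MulAut.inv_apply_self]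

theorem struct_zpow {G : Type} [Group G] {H : Subgroup G} {a b : MulAut G} (ha : a ∈ StabH H)
    (hb : b ∈ StabH H) (e : ∀ g ∈ LS H, a g = b g) (q : ℤ) : ∀ g ∈ LS H, (a ^ q) g = (b ^ q) g := by
  induction q using Int.induction_on with
  | zero => intro g _; rfl
  | succ n ih =>
    intro g hg
    rw [zpow_add_one, zpow_add_one, MulAut.mul_apply, MulAut.mul_apply, e g hg]
    exact ih _ (LS_au hb hg)
  | pred n ih =>
    intro g hg
    have m := LS_au ((StabH H).inv_mem hb) hg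
    have : a⁻¹ g = b⁻¹ g := by
      apply a.injective
      rw [MulAut.apply_inv_self, e _ m, MulAut.apply_inv_self]
    rw [zpow_sub_one, zpow_sub_one, MulAut.mul_apply, MulAut.mul_apply, this]
    exact ih _ m

theorem struct_lin (hb : Bx W) (hH : NA (cl W)) (φ : StabH (cl W)) (e : g ∈ LS (cl W)) :
    ∃ c : ℕ, ∀ k : ℤ, ((φ.1 ^ k) g).norm ≤ c * (k.natAbs + 1) := by
  obtain ⟨M, hM, τ, T, p, t, f⟩ := struct_pow hb hH φ
  choose c hc using fun r : ℕ => tw_lin hb (fam_uu hb) p t ((φ.1 ^ r) g)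
  refine ⟨∑ r ∈ Finset.range M, c r, fun k => ?_⟩
  have h0 : (0 : ℤ) < M := by exact_mod_cast hM
  obtain ⟨r, hr⟩ := Int.eq_ofNat_of_zero_le (Int.emod_nonneg k h0.ne')
  have rM : r < M := by
    have := Int.emod_lt_of_pos k h0
    omega
  have ek : φ.1 ^ k = (φ.1 ^ M) ^ (k / M) * φ.1 ^ r := by
    rw [← zpow_natCast, ← zpow_natCast, ← zpow_mul, ← zpow_add, ← hr, Int.mul_ediv_add_emod]
  rw [ek, MulAut.mul_apply, struct_zpow (a := φ.1 ^ M) (φ ^ M).2 t.stab f _ ((φ.1 ^ r) g)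
    (LS_au (φ ^ r).2 e)]
  refine (hc r _).trans (Nat.mul_le_mul ?_ ?_)
  · exact Finset.single_le_sum (f := c) (fun _ _ => Nat.zero_le _) (Finset.mem_range.2 rM)
  · exact Nat.succ_le_succ (Int.natAbs_ediv_le_natAbs _ _)

end Pool.Agent.Work.MP_3bdf32_al
end

-- merged part: Pool.Agent.Work.MP_3bdf32_al.Blk2
section
/-! Ping pong with high powers of twists. -/

namespace Pool.Agent.Work.MP_3bdf32_al

set_option linter.unusedSectionVars false
set_option linter.unusedVariables false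

open Subgroup MulAction Filter
open scoped Pointwise

variable {X : Type} [Fintype X] [DecidableEq X] {W : List (FreeGroup X)}
  {Z Z' Y : Subgroup (FreeGroup X)} {A A' B C C' U : Set (FreeGroup X)} {g x y : FreeGroup X}
  {z d d' : FreeGroup X} {T φ : MulAut (FreeGroup X)}

/-- a twist moves a point on the near side of an adjacent axis a bounded amount -/
theorem blk2_near (hb : Bx W) (h : Simp (cl W) (cen z)) {a : ℤ → FreeGroup X} {l : ℤ}
    (ha : AxL z a l) {τ : Subgroup (FreeGroup X) → Set (FreeGroup X) → FreeGroup X}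
    {ψ : Ori (FreeGroup X) → FreeGroup X} (p : Par (cl W) τ)
    (hψ : Pot (cl W) (orb (cl W) (cen z)) τ ψ)
    (e : ∀ g, T g = ψ (vx (cl W) (orb (cl W) (cen z)) g) * g) {V : Ori (FreeGroup X)}
    (hV : IsV (cl W) (orb (cl W) (cen z)) V) (k : FreeGroup X)
    (hA : Adj V (tl (cl W) k • cen z)) (hx : x ∈ V.s (tl (cl W) k • cen z)) :
    |pr a (k⁻¹ * ((ψ V)⁻¹ * T x)) - pr a (k⁻¹ * x)| ≤ 4 * l := by
  have hl : 0 < l := ha.2.1
  by_cases hv : vx (cl W) (orb (cl W) (cen z)) x = V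
  · rw [e x, hv, inv_mul_cancel_left, sub_self, abs_zero]
    positivity
  obtain ⟨Z', a', b'⟩ := far_cover hb h.fam hV hv
  have ne : Z' ≠ tl (cl W) k • cen z := fun f => b' (f ▸ hx)
  have hZ' : Z' ∈ orb (cl W) (cen z) := hV.mem a'.1
  have b'' : (ψ V)⁻¹ * T x ∉ V.s Z' := fun f => b' ((tw_side hb h.fam p hψ e hV a' x).1 f)
  rw [adj_en hb h.fam hV hA hZ' ne] at b' b''
  have key : ∀ w, w ∉ en (cl W) Z' (tl (cl W) k • cen z) →
      k⁻¹ * w ∉ en (cl W) (tl (cl W) k⁻¹ • Z') (cen z) := by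
    intro w hw f
    apply hw
    have e1 : Z' = tl (cl W) k • tl (cl W) k⁻¹ • Z' := by rw [map_inv, smul_inv_smul]
    rw [e1, ← en_smul, mem_tl_set]
    exact f
  have ne' : tl (cl W) k⁻¹ • Z' ≠ cen z := fun f => ne (by rw [← f, map_inv, smul_inv_smul])
  obtain ⟨q, hq, -⟩ := far_proj hb h ha (orb_tl hZ' k⁻¹) ne'
  have h1 := hq _ (key _ b')
  have h2 := hq _ (key _ b'')
  rw [abs_le] at h1 h2 ⊢
  constructor <;> linarith [h1.1, h1.2, h2.1, h2.2]

theorem blk2_zpow_smul (e : z • A = A) (n : ℤ) : z ^ n • A = A := by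
  have : z ∈ stabilizer (FreeGroup X) A := e
  exact (stabilizer (FreeGroup X) A).zpow_mem this n

/-- the value of the basic parameter on the two sides -/
theorem blk2_bp (hz : z ≠ 1) (gen : zpowers z = cen z) (e : z • A = A) (k : FreeGroup X) :
    bp (cl W) (cen z) z A (tl (cl W) k • cen z) (k • A)ᶜ = 1 := by
  refine bp_of_not fun k' f i => ?_
  have h1 : tl (cl W) (k⁻¹ * k') • cen z = cen z := by
    rw [map_mul, mul_smul, f, map_inv, inv_smul_smul]
  have h2 := (Ax.norm (ax_cen hz)).1 h1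
  rw [← gen] at h2
  obtain ⟨n, hn⟩ := mem_zpowers_iff.1 h2
  have h3 : k' • A = k • A := by
    have : k' = k * z ^ n := by rw [hn, mul_inv_cancel_left]
    rw [this, mul_smul, blk2_zpow_smul e]
  rw [h3] at i
  have : (1 : FreeGroup X) ∈ k • A ↔ (1 : FreeGroup X) ∈ (k • A)ᶜ := by rw [← i]
  simp at this

/-- the estimate for one separating axis -/
theorem blk2_one (hb : Bx W) (hz : z ≠ 1) (gen : zpowers z = cen z) (h : Simp (cl W) (cen z))
    (two : Two (cl W) (cen z) A) (eA : z • A = A) {a : ℤ → FreeGroup X} {l : ℤ}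
    (ha : AxL z a l) (n : ℕ) {ψ : Ori (FreeGroup X) → FreeGroup X}
    (hψ : Pot (cl W) (orb (cl W) (cen z)) (fun Z C => bp (cl W) (cen z) z A Z C ^ (n : ℤ)) ψ)
    (e : ∀ g, T g = ψ (vx (cl W) (orb (cl W) (cen z)) g) * g) (hT : T ∈ StabH (cl W))
    (k : FreeGroup X) (s : ¬ Eqv (cl W) (tl (cl W) k • cen z) 1 g) :
    ∃ c, tl (cl W) (c * k) • cen z = au (cl W) ⟨T, hT⟩ • tl (cl W) k • cen z ∧
      (n : ℤ) * l ≤ |pr a ((c * k)⁻¹ * T g) - pr a (c * k)⁻¹| + |pr a (k⁻¹ * g) - pr a k⁻¹| +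
        8 * l := by
  have p : Par (cl W) fun Z C => bp (cl W) (cen z) z A Z C ^ (n : ℤ) :=
    (par_bp (ax_cen hz) (self_mem_cen z) A).zpow n
  have hZ : tl (cl W) k • cen z ∈ orb (cl W) (cen z) := orb_tl (mem_orb _) k
  have a1 : IsAt (cl W) (tl (cl W) k • cen z) (atom (cl W) (tl (cl W) k • cen z) 1) := ⟨1, rfl⟩
  have a2 : IsAt (cl W) (tl (cl W) k • cen z) (atom (cl W) (tl (cl W) k • cen z) g) := ⟨g, rfl⟩
  have v1 := vz_isV hb h.fam hZ a1
  have v2 := vz_isV hb h.fam hZ a2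
  have j1 := vz_adj hb h.fam hZ a1
  have j2 := vz_adj hb h.fam hZ a2
  have n1 := blk2_near (x := 1) hb h ha p hψ e v1 k j1 (by rw [vz_self]; exact mem_atom 1)
  have n2 := blk2_near (x := g) hb h ha p hψ e v2 k j2 (by rw [vz_self]; exact mem_atom g)
  have st := hψ.2 _ _ _ v1 j1 a2
  rw [vz_self] at st
  beta_reduce at st
  have tw := tw_axis hb h.fam p hψ e hT v1 j1
  generalize ψ (vz (cl W) (orb (cl W) (cen z)) (tl (cl W) k • cen z)
    (atom (cl W) (tl (cl W) k • cen z) 1)) = c at n1 st tw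
  refine ⟨c, by rw [tw, map_mul, mul_smul], ?_⟩
  have ne : atom (cl W) (tl (cl W) k • cen z) 1 ≠ atom (cl W) (tl (cl W) k • cen z) g :=
    fun f => s (atom_eq_iff.1 f)
  have t2 := two.smul' k
  have b1 := bp_smul (W := W) (ax_cen hz) (self_mem_cen z) A k
  have b2 := blk2_bp (W := W) hz gen eA k
  have ex : ∃ m : ℤ, |m| = n ∧ ψ (vz (cl W) (orb (cl W) (cen z)) (tl (cl W) k • cen z)
      (atom (cl W) (tl (cl W) k • cen z) g)) = c * k * z ^ m * k⁻¹ := by
    rcases t2.isAt.1 a1 with f1 | f1 <;> rcases t2.isAt.1 a2 with f2 | f2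
    · exact (ne (f1.trans f2.symm)).elim
    · refine ⟨-n, by simp, ?_⟩
      rw [st, f1, f2, b1, b2, conj_zpow, one_zpow, zpow_neg]
      group
    · refine ⟨n, by simp, ?_⟩
      rw [st, f1, f2, b1, b2, conj_zpow, one_zpow]
      group
    · exact (ne (f1.trans f2.symm)).elim
  obtain ⟨m, hm, em⟩ := ex
  rw [em] at n2
  have r2 : k⁻¹ * ((c * k * z ^ m * k⁻¹)⁻¹ * T g) = z ^ (-m) * ((c * k)⁻¹ * T g) := by
    rw [zpow_neg]; group
  rw [r2, ha.pr_zpow] at n2
  have r1 : k⁻¹ * (c⁻¹ * T 1) = (c * k)⁻¹ := by rw [map_one]; group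
  rw [r1, mul_one] at n1
  have hl : 0 < l := ha.2.1
  have hml : |m * l| = n * l := by rw [abs_mul, hm, abs_of_pos hl]
  rw [← hml]
  generalize pr a ((c * k)⁻¹ * T g) = u at *
  generalize pr a (c * k)⁻¹ = u₀ at *
  generalize pr a (k⁻¹ * g) = v at *
  generalize pr a k⁻¹ = v₀ at *
  have q1 := le_abs_self (u - u₀)
  have q2 := neg_abs_le (u - u₀)
  have q3 := le_abs_self (v - v₀)
  have q4 := neg_abs_le (v - v₀)
  rw [abs_le] at n1 n2 ⊢
  constructor <;> linarith [n1.1, n1.2, n2.1, n2.2]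

theorem blk_ineq (hb : Bx W) (h : Cv (cl W) z T) (hd : Sp (cl W) (cen d)) (hd' : Sp (cl W) (cen d'))
    (c : OCr (cl W) z d) (c' : OCr (cl W) z d') : ∃ c₀ : ℕ, ∀ (n : ℕ) (g : FreeGroup X),
      n * xn (cl W) (cen z) g ≤ c₀ * xn (cl W) (cen z) g + xn (cl W) (cen d) ((T ^ n) g) +
        xn (cl W) (cen d') g := by
  classical
  obtain ⟨a, l, ha⟩ := ex_axis h.ne
  obtain ⟨c₁, p₁, h₁⟩ := cnt_cross hb h.simp ha hd c
  obtain ⟨c₂, p₂, h₂⟩ := cnt_cross hb h.simp ha hd' c'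
  obtain ⟨A, two, eA, tw⟩ := h.tw
  refine ⟨(c₁ + c₂ + 8).toNat, fun n g => ?_⟩
  have tn := tw_zpow hb h.simp.fam (par_bp (ax_cen h.ne) (self_mem_cen z) A) tw n
  rw [zpow_natCast] at tn
  have hT := tn.stab
  obtain ⟨ψ, hψ, e⟩ := tn
  have hF := orb_lf hb (ax_cen h.ne) 1 g
  have ex : ∀ Z' : Subgroup (FreeGroup X), ∃ k, Z' ∈ orb (cl W) (cen z) →
      Z' = tl (cl W) k • cen z := by
    intro Z'
    by_cases i : Z' ∈ orb (cl W) (cen z)
    · obtain ⟨k, hk⟩ := i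
      exact ⟨k, fun _ => hk⟩
    · exact ⟨1, fun j => (i j).elim⟩
  choose κ hκ using ex
  have ex2 : ∀ k : FreeGroup X, ∃ c, ¬ Eqv (cl W) (tl (cl W) k • cen z) 1 g →
      tl (cl W) (c * k) • cen z = au (cl W) ⟨T ^ n, hT⟩ • tl (cl W) k • cen z ∧
      (n : ℤ) * l ≤ |pr a ((c * k)⁻¹ * (T ^ n) g) - pr a (c * k)⁻¹| +
        |pr a (k⁻¹ * g) - pr a k⁻¹| + 8 * l := by
    intro k
    by_cases s : Eqv (cl W) (tl (cl W) k • cen z) 1 g
    · exact ⟨1, fun j => (j s).elim⟩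
    · obtain ⟨c, hc⟩ := blk2_one hb h.ne h.gen h.simp two eA ha n hψ e hT k s
      exact ⟨c, fun _ => hc⟩
  choose γ hγ using ex2
  set S : Finset (FreeGroup X) := hF.toFinset.image κ with hS
  have mS : ∀ k ∈ S, ∃ Z', Z' = tl (cl W) k • cen z ∧ κ Z' = k ∧ ¬ Eqv (cl W) Z' 1 g := by
    intro k hk
    obtain ⟨Z', i, rfl⟩ := Finset.mem_image.1 hk
    have i' := hF.mem_toFinset.1 i
    exact ⟨Z', hκ Z' i'.1, rfl, i'.2⟩
  have s1 : ∀ k ∈ S, ¬ Eqv (cl W) (tl (cl W) k • cen z) 1 g := by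
    intro k hk
    obtain ⟨Z', rfl, -, i⟩ := mS k hk
    exact i
  have s2 : ∀ k ∈ S, ∀ k' ∈ S, tl (cl W) k • cen z = tl (cl W) k' • cen z → k = k' := by
    intro k hk k' hk' f
    obtain ⟨Z₁, i₁, j₁, -⟩ := mS k hk
    obtain ⟨Z₂, i₂, j₂, -⟩ := mS k' hk'
    rw [← j₁, ← j₂, i₁, i₂, f]
  have cS : S.card = xn (cl W) (cen z) g := by
    rw [hS, Finset.card_image_of_injOn, xn, Set.ncard_eq_toFinset_card _ hF]
    intro Z₁ i₁ Z₂ i₂ f
    rw [hκ Z₁ (hF.mem_toFinset.1 i₁).1, hκ Z₂ (hF.mem_toFinset.1 i₂).1, f]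
  have s3 : ∀ k ∈ S, ∀ k' ∈ S, tl (cl W) (γ k * k) • cen z = tl (cl W) (γ k' * k') • cen z →
      k = k' := by
    intro k hk k' hk' f
    rw [(hγ k (s1 k hk)).1, (hγ k' (s1 k' hk')).1] at f
    exact s2 k hk k' hk' (smul_left_cancel _ f)
  have inj : Set.InjOn (fun k => γ k * k) S := fun k hk k' hk' f =>
    s3 k hk k' hk' (by simp only at f; rw [f])
  have q₁ := h₁ ((T ^ n) g) (S.image fun k => γ k * k) (by
    intro k hk
    obtain ⟨k, i, rfl⟩ := Finset.mem_image.1 hk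
    rw [(hγ k (s1 k i)).1]
    intro f
    apply s1 k i
    rw [← eqv_smul_iff (au (cl W) ⟨T ^ n, hT⟩)]
    simpa using f) (by
    intro k hk k' hk' f
    obtain ⟨k, i, rfl⟩ := Finset.mem_image.1 hk
    obtain ⟨k', i', rfl⟩ := Finset.mem_image.1 hk'
    rw [s3 k i k' i' f])
  rw [Finset.sum_image inj, Finset.card_image_of_injOn inj] at q₁
  have q₂ := h₂ g S s1 s2
  have q₃ := Finset.sum_le_sum fun k hk => (hγ k (s1 k hk)).2
  rw [Finset.sum_add_distrib, Finset.sum_add_distrib, Finset.sum_const, Finset.sum_const,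
    nsmul_eq_mul, nsmul_eq_mul] at q₃
  rw [cS] at q₁ q₂ q₃
  have hl : 0 < l := ha.2.1
  have fin : l * ((n : ℤ) * xn (cl W) (cen z) g) ≤ l * ((c₁ + c₂ + 8) * xn (cl W) (cen z) g +
      xn (cl W) (cen d) ((T ^ n) g) + xn (cl W) (cen d') g) := by
    nlinarith [q₁, q₂, q₃]
  have fin' := le_of_mul_le_mul_left fin hl
  have e8 : (((c₁ + c₂ + 8).toNat : ℕ) : ℤ) = c₁ + c₂ + 8 := Int.toNat_of_nonneg (by linarith)
  rw [← e8] at fin'
  exact_mod_cast fin'

theorem blk2_unif {β : Type} (c : List β) (P : List β → β → ℕ → Prop)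
    (mono : ∀ l a k k', k ≤ k' → P l a k → P l a k')
    (h : ∀ l₁ a l₂, c = l₁ ++ a :: l₂ → ∃ k, P l₁ a k) :
    ∃ k, ∀ l₁ a l₂, c = l₁ ++ a :: l₂ → P l₁ a k := by
  induction c generalizing P with
  | nil => exact ⟨0, fun l₁ a l₂ e => by simp at e⟩
  | cons b c ih =>
    obtain ⟨k, hk⟩ := ih (fun l a k => P (b :: l) a k) (fun l a k k' i j => mono _ _ _ _ i j)
      fun l₁ a l₂ e => h (b :: l₁) a l₂ (by rw [e]; rfl)
    obtain ⟨k', hk'⟩ := h [] b c rfl
    refine ⟨max k k', fun l₁ a l₂ e => ?_⟩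
    cases l₁ with
    | nil =>
      obtain ⟨rfl, -⟩ := List.cons.inj e
      exact mono _ _ _ _ (le_max_right _ _) hk'
    | cons b' l₁ =>
      obtain ⟨rfl, e'⟩ := List.cons.inj e
      exact mono _ _ _ _ (le_max_left _ _) (hk l₁ a l₂ e')

/-- apply the powers of the twists one after the other -/
def blk2run {β : Type} (Ts : β → MulAut (FreeGroup X)) (n : ℕ) (l : List β) (g : FreeGroup X) :
    FreeGroup X := l.foldl (fun x b => (Ts b ^ n) x) g

theorem blk2run_append {β : Type} (Ts : β → MulAut (FreeGroup X)) (n : ℕ) (l l' : List β)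
    (g : FreeGroup X) : blk2run Ts n (l ++ l') g = blk2run Ts n l' (blk2run Ts n l g) :=
  List.foldl_append

theorem blk2run_cons {β : Type} (Ts : β → MulAut (FreeGroup X)) (n : ℕ) (b : β) (l : List β)
    (g : FreeGroup X) : blk2run Ts n (b :: l) g = blk2run Ts n l ((Ts b ^ n) g) := rfl

theorem blk2_xn_pow (hT : T ∈ StabH (cl W)) (e : IsConj z (T z)) (n : ℕ) (x : FreeGroup X) :
    xn (cl W) (cen z) ((T ^ n) x) = xn (cl W) (cen z) x := by
  induction n with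
  | zero => simp
  | succ n ih => rw [pow_succ', MulAut.mul_apply, xn_conj hT e, ih]

theorem blk2_xn_run {β : Type} (Ts : β → MulAut (FreeGroup X)) (n : ℕ) (l : List β)
    (h : ∀ k ∈ l, Ts k ∈ StabH (cl W)) (e : ∀ k ∈ l, IsConj z (Ts k z)) (x : FreeGroup X) :
    xn (cl W) (cen z) (blk2run Ts n l x) = xn (cl W) (cen z) x := by
  induction l generalizing x with
  | nil => rfl
  | cons b l ih =>
    rw [blk2run_cons, ih (fun k i => h k (.tail _ i)) fun k i => e k (.tail _ i),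
      blk2_xn_pow (h b (.head _)) (e b (.head _))]

theorem blk2_pow_fix (e : T g = g) (n : ℕ) : (T ^ n) g = g := by
  induction n with
  | zero => simp
  | succ n ih => rw [pow_succ', MulAut.mul_apply, ih, e]

theorem blk2run_fix {β : Type} (Ts : β → MulAut (FreeGroup X)) (n : ℕ) (l : List β)
    (e : ∀ b ∈ l, Ts b g = g) : blk2run Ts n l g = g := by
  induction l with
  | nil => rfl
  | cons b l ih =>
    rw [blk2run_cons, blk2_pow_fix (e b (.head _)), ih fun k i => e k (.tail _ i)]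

theorem blk2run_all {β : Type} (Ts : β → MulAut (FreeGroup X)) (n : ℕ) (c : List β)
    (e : ∀ l₁ a l₂, c = l₁ ++ a :: l₂ → Ts a (blk2run Ts n l₁ g) = blk2run Ts n l₁ g) :
    ∀ b ∈ c, Ts b g = g := by
  induction c with
  | nil => simp
  | cons b c ih =>
    have hb : Ts b g = g := e [] b c rfl
    have := ih fun l₁ a l₂ f => by
      have := e (b :: l₁) a l₂ (by rw [f]; rfl)
      rwa [blk2run_cons, blk2_pow_fix hb] at this
    intro k hk
    rcases List.mem_cons.1 hk with rfl | hk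
    exacts [hb, this k hk]

theorem blk2run_aut {β : Type} (Ts : β → MulAut (FreeGroup X)) (n : ℕ) (c : List β)
    (h : ∀ k ∈ c, Ts k ∈ StabH (cl W)) : ∃ S ∈ StabH (cl W), ∀ g, S g = blk2run Ts n c g := by
  induction c with
  | nil => exact ⟨1, one_mem _, fun g => rfl⟩
  | cons b c ih =>
    obtain ⟨S, i, j⟩ := ih fun k i => h k (.tail _ i)
    exact ⟨S * Ts b ^ n, mul_mem i (pow_mem (h b (.head _)) n), fun g => by
      rw [MulAut.mul_apply, j, blk2run_cons]⟩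

theorem blk_fix (hb : Bx W) {β : Type} (zs : β → FreeGroup X) (Ts : β → MulAut (FreeGroup X))
    (c : List β) (h : ∀ b ∈ c, Cv (cl W) (zs b) (Ts b)) (hφ : φ ∈ StabH (cl W))
    (s : Seq (fun b d => OCr (cl W) (zs b) d) zs Ts φ c) :
    ∃ ψ ∈ StabH (cl W), ∀ g, ψ g = g ↔ φ g = g ∧ ∀ b ∈ c, Ts b g = g := by
  have st : ∀ b ∈ c, Ts b ∈ StabH (cl W) := fun b i => (h b i).stab
  have self : ∀ b ∈ c, IsConj (zs b) (Ts b (zs b)) := fun b i =>
    (h b i).conj hb (h b i).ne fun ⟨k, f⟩ => (h b i).simp.2 k f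
  have main : ∀ l₁ a l₂, c = l₁ ++ a :: l₂ → ∃ c₀ : ℕ, ∀ (n : ℕ) (g : FreeGroup X) (m : ℕ),
      φ (blk2run Ts n c g) = g →
      (∀ l₃ b l₄, c = l₃ ++ b :: l₄ → xn (cl W) (cen (zs b)) (blk2run Ts n l₃ g) ≤ m) →
      n * xn (cl W) (cen (zs a)) (blk2run Ts n l₁ g) ≤
        c₀ * xn (cl W) (cen (zs a)) (blk2run Ts n l₁ g) + 2 * m := by
    intro l₁ a l₂ e
    have ha : a ∈ c := by simp [e]
    obtain ⟨p, q⟩ := s l₁ a l₂ e
    have p' : ∃ d, Sp (cl W) (cen d) ∧ OCr (cl W) (zs a) d ∧ ∀ (n : ℕ) (g : FreeGroup X) (m : ℕ),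
        φ (blk2run Ts n c g) = g →
        (∀ l₃ b l₄, c = l₃ ++ b :: l₄ → xn (cl W) (cen (zs b)) (blk2run Ts n l₃ g) ≤ m) →
        xn (cl W) (cen d) ((Ts a ^ n) (blk2run Ts n l₁ g)) ≤ m := by
      rcases p with ⟨l₃, b, l₄, f, i, j⟩ | ⟨l₃, b, l₄, f, i, j, j'⟩
      · have hb' : b ∈ c := by simp [e, f]
        refine ⟨zs b, (h b hb').simp.1, i, fun n g m u v => ?_⟩
        have := v (l₁ ++ a :: l₃) b l₄ (by simp [e, f])
        rwa [blk2run_append, blk2run_cons,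
          blk2_xn_run Ts n l₃ (fun k i => st k (by simp [e, f, i])) j] at this
      · have hb' : b ∈ c := by simp [f]
        refine ⟨φ⁻¹ (zs b), sp_map (inv_mem hφ) (h b hb').simp.1, i, fun n g m u v => ?_⟩
        have := v l₃ b l₄ f
        rw [blk2_xn_run Ts n l₃ (fun k i => st k (by simp [f, i])) j', ← u] at this
        rw [← blk2_xn_run Ts n l₂ (fun k i => st k (by simp [e, i])) j, ← blk2run_cons,
          ← blk2run_append, ← e, ← xn_map hφ]
        simpa using this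
    have q' : ∃ d, Sp (cl W) (cen d) ∧ OCr (cl W) (zs a) d ∧ ∀ (n : ℕ) (g : FreeGroup X) (m : ℕ),
        φ (blk2run Ts n c g) = g →
        (∀ l₃ b l₄, c = l₃ ++ b :: l₄ → xn (cl W) (cen (zs b)) (blk2run Ts n l₃ g) ≤ m) →
        xn (cl W) (cen d) (blk2run Ts n l₁ g) ≤ m := by
      rcases q with ⟨l₃, b, l₄, f, i, j⟩ | ⟨l₃, b, l₄, f, i, j, j'⟩
      · have hb' : b ∈ c := by simp [e, f]
        refine ⟨zs b, (h b hb').simp.1, i, fun n g m u v => ?_⟩
        have := v l₃ b (l₄ ++ a :: l₂) (by simp [e, f])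
        rwa [f, blk2run_append, blk2run_cons,
          blk2_xn_run Ts n l₄ (fun k i => st k (by simp [e, f, i])) j,
          blk2_xn_pow (st b hb') (self b hb')]
      · have hb' : b ∈ c := by simp [f]
        refine ⟨φ (zs b), sp_map hφ (h b hb').simp.1, i, fun n g m u v => ?_⟩
        have := v l₃ b l₄ f
        rw [blk2_xn_run Ts n l₁ (fun k i => st k (by simp [e, i])) j, ← u, xn_map hφ]
        rwa [f, blk2run_append, blk2run_cons,
          blk2_xn_run Ts n l₄ (fun k i => st k (by simp [f, i])) j',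
          blk2_xn_pow (st b hb') (self b hb')]
    obtain ⟨d, d₁, d₂, d₃⟩ := p'
    obtain ⟨d', d₁', d₂', d₃'⟩ := q'
    obtain ⟨c₀, hc⟩ := blk_ineq hb (h a ha) d₁ d₁' d₂ d₂'
    refine ⟨c₀, fun n g m u v => ?_⟩
    have h1 := hc n (blk2run Ts n l₁ g)
    have h2 := d₃ n g m u v
    have h3 := d₃' n g m u v
    omega
  obtain ⟨c₀, hc⟩ := blk2_unif c _ (fun l a k k' i j n g m u v =>
    (j n g m u v).trans (Nat.add_le_add_right (Nat.mul_le_mul_right _ i) _)) main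
  obtain ⟨S, hS, eS⟩ := blk2run_aut Ts (c₀ + 3) c st
  refine ⟨φ * S, mul_mem hφ hS, fun g => ?_⟩
  rw [MulAut.mul_apply, eS]
  refine ⟨fun u => ?_, fun ⟨u, v⟩ => by rw [blk2run_fix Ts _ c v, u]⟩
  have all : ∀ b ∈ c, Ts b g = g := by
    classical
    have ex := blk2_unif c
      (fun l₃ b m => xn (cl W) (cen (zs b)) (blk2run Ts (c₀ + 3) l₃ g) ≤ m)
      (fun l a k k' i j => j.trans i) fun l₁ a l₂ _ => ⟨_, le_rfl⟩
    have hm := Nat.find_spec ex
    have z0 : Nat.find ex = 0 := by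
      by_contra n0
      have lt : Nat.find ex - 1 < Nat.find ex := by omega
      refine Nat.find_min ex lt fun l₁ a l₂ e => ?_
      have h1 := hc l₁ a l₂ e (c₀ + 3) g _ u hm
      have h2 := hm l₁ a l₂ e
      rw [add_mul] at h1
      omega
    refine blk2run_all Ts (c₀ + 3) c fun l₁ a l₂ e => ?_
    have := hm l₁ a l₂ e
    rw [z0, Nat.le_zero] at this
    exact ((h a (by simp [e])).fix hb).2 this
  rw [blk2run_fix Ts _ c all] at u
  exact ⟨u, all⟩

end Pool.Agent.Work.MP_3bdf32_al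
end

-- merged part: Pool.Agent.Work.MP_3bdf32_al.SeqEx
section
/-! A sequence of curves for the ping pong argument. -/

namespace Pool.Agent.Work.MP_3bdf32_al

set_option linter.unusedSectionVars false
set_option linter.unusedVariables false

open Subgroup MulAction Filter
open scoped Pointwise

variable {X : Type} [Fintype X] [DecidableEq X] {W : List (FreeGroup X)}
  {Z Z' Y : Subgroup (FreeGroup X)} {A A' B C C' U : Set (FreeGroup X)} {g x y : FreeGroup X}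
  {φ : MulAut (FreeGroup X)}

section comb

variable {β : Type} {R : β → β → Prop} {a b a' u : β} {w w' l₁ l₂ : List β}

/-- `b :: w` is a walk ending at `a` -/
inductive SeqEx_Wk (R : β → β → Prop) : β → List β → β → Prop
  | nil (b : β) : SeqEx_Wk R b [] b
  | cons {b b' a : β} {w : List β} : R b b' → SeqEx_Wk R b' w a → SeqEx_Wk R b (b' :: w) a

theorem SeqEx_Wk.append (h : SeqEx_Wk R b w a) (h' : SeqEx_Wk R a w' a') :
    SeqEx_Wk R b (w ++ w') a' := by
  induction h with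
  | nil => exact h'
  | cons r _ ih => exact .cons r (ih h')

theorem SeqEx_Wk.next (h : SeqEx_Wk R b w a) (e : b :: w = l₁ ++ u :: l₂) :
    (l₂ = [] ∧ u = a) ∨ ∃ v l₄, l₂ = v :: l₄ ∧ R u v := by
  induction h generalizing l₁ with
  | nil b =>
    rcases l₁ with _ | ⟨c, l₁⟩
    · obtain ⟨rfl, rfl⟩ := List.cons.inj e
      exact .inl ⟨rfl, rfl⟩
    · simp at e
  | cons r _ ih =>
    rcases l₁ with _ | ⟨c, l₁⟩
    · obtain ⟨rfl, rfl⟩ := List.cons.inj e
      exact .inr ⟨_, _, rfl, r⟩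
    · exact ih (List.cons.inj e).2

theorem SeqEx_Wk.prev (h : SeqEx_Wk R b w a) (e : b :: w = l₁ ++ u :: l₂) :
    (l₁ = [] ∧ u = b) ∨ ∃ l₃ v, l₁ = l₃ ++ [v] ∧ R v u := by
  induction h generalizing l₁ with
  | nil b =>
    rcases l₁ with _ | ⟨c, l₁⟩
    · exact .inl ⟨rfl, (List.cons.inj e).1.symm⟩
    · simp at e
  | cons r _ ih =>
    rcases l₁ with _ | ⟨c, l₁⟩
    · exact .inl ⟨rfl, (List.cons.inj e).1.symm⟩
    · obtain ⟨rfl, e'⟩ := List.cons.inj e
      rcases ih e' with ⟨rfl, rfl⟩ | ⟨l₃, v, rfl, r'⟩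
      · exact .inr ⟨[], _, rfl, r⟩
      · exact .inr ⟨_ :: l₃, v, rfl, r'⟩

theorem SeqEx_Wk.last (h : SeqEx_Wk R b w a) : ∃ l, b :: w = l ++ [a] := by
  induction h with
  | nil b => exact ⟨[], rfl⟩
  | cons r _ ih =>
    obtain ⟨l, e⟩ := ih
    exact ⟨_ :: l, by rw [e]; rfl⟩

theorem SeqEx_Wk.mem (h : SeqEx_Wk R b w a) (e : u ∈ b :: w) : Relation.ReflTransGen R b u := by
  induction h with
  | nil b => rw [List.mem_singleton.1 e]
  | cons r _ ih =>
    rcases List.mem_cons.1 e with rfl | e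
    · exact .refl
    · exact .head r (ih e)

theorem SeqEx_flat (f : β → List β) (D : List β) (e : D.flatMap f = l₁ ++ u :: l₂) :
    ∃ D₁ r D₂ m₁ m₂, D = D₁ ++ r :: D₂ ∧ f r = m₁ ++ u :: m₂ ∧ l₁ = D₁.flatMap f ++ m₁ ∧
      l₂ = m₂ ++ D₂.flatMap f := by
  induction D generalizing l₁ with
  | nil => simp at e
  | cons r D ih =>
    rw [List.flatMap_cons, List.append_eq_append_iff] at e
    rcases e with ⟨m, rfl, e⟩ | ⟨m, e, e'⟩
    · obtain ⟨D₁, r', D₂, m₁, m₂, rfl, e1, rfl, rfl⟩ := ih e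
      exact ⟨r :: D₁, r', D₂, m₁, m₂, rfl, e1, by simp, rfl⟩
    · rcases m with _ | ⟨v, m⟩
      · obtain ⟨D₁, r', D₂, m₁, m₂, rfl, e1, e2, rfl⟩ := ih (l₁ := []) e'.symm
        refine ⟨r :: D₁, r', D₂, m₁, m₂, rfl, e1, ?_, rfl⟩
        rw [List.flatMap_cons, List.append_assoc, ← e2, e, List.append_nil, List.append_nil]
      · obtain ⟨rfl, rfl⟩ := List.cons.inj e'
        exact ⟨[], r, D, l₁, m, rfl, e, rfl, rfl⟩

theorem SeqEx_reps (rf : ∀ a, R a a) (sy : ∀ a b, R a b → R b a) (D : List β) :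
    ∃ D' : List β, (∀ r ∈ D', r ∈ D) ∧ D'.Nodup ∧ (∀ r ∈ D', ∀ r' ∈ D', R r r' → r = r') ∧
      ∀ b ∈ D, ∃ r ∈ D', R b r := by
  induction D with
  | nil => exact ⟨[], by simp, by simp, by simp, by simp⟩
  | cons x D ih =>
    obtain ⟨D', h1, h2, h3, h4⟩ := ih
    by_cases h : ∃ r ∈ D', R x r
    · refine ⟨D', fun r hr => List.mem_cons_of_mem _ (h1 r hr), h2, h3, fun b hb => ?_⟩
      rcases List.mem_cons.1 hb with rfl | hb
      exacts [h, h4 b hb]
    · refine ⟨x :: D', fun r hr => ?_, List.nodup_cons.2 ⟨fun e => h ⟨x, e, rf x⟩, h2⟩,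
        fun r hr r' hr' e => ?_, fun b hb => ?_⟩
      · rcases List.mem_cons.1 hr with rfl | hr
        exacts [List.mem_cons_self, List.mem_cons_of_mem _ (h1 r hr)]
      · rcases List.mem_cons.1 hr with a | a <;> rcases List.mem_cons.1 hr' with b | b
        exacts [a.trans b.symm, absurd ⟨_, b, a ▸ e⟩ h, absurd ⟨_, a, b ▸ sy _ _ e⟩ h,
          h3 r a r' b e]
      · rcases List.mem_cons.1 hb with rfl | hb
        · exact ⟨b, List.mem_cons_self, rf b⟩
        · obtain ⟨r, hr, e⟩ := h4 b hb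
          exact ⟨r, List.mem_cons_of_mem _ hr, e⟩

end comb

/-- the abstract setting for the construction of the sequence -/
structure SeqEx_Set {G β : Type} [Group G] (P : G → Prop) (Q : G → G → Prop) (z : β → G)
    (T : β → MulAut G) (φ : MulAut G) (good : β → Prop) : Prop where
  hP : ∀ b, good b → P (z b)
  sy : ∀ d e, P d → P e → Q d e → Q e d
  p1 : ∀ d, P d → P (φ d)
  p2 : ∀ d, P d → P (φ⁻¹ d)
  q1 : ∀ d e, Q d e → Q (φ d) (φ e)
  q2 : ∀ d e, Q d e → Q (φ⁻¹ d) (φ⁻¹ e)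
  rep : ∀ d, P d → ∃ b, good b ∧ ∀ e, Q (z b) e ↔ Q d e
  nb : ∀ d, P d → ∃ e, P e ∧ Q d e
  conj : ∀ k x, good k → P x → ¬ Q (z k) x → IsConj x (T k x)

/-- connected by crossings -/
def SeqEx_E {G : Type} (P : G → Prop) (Q : G → G → Prop) : G → G → Prop :=
  Relation.ReflTransGen fun d e => P d ∧ P e ∧ Q d e

section abs

variable {G β : Type} [Group G] {P : G → Prop} {Q : G → G → Prop} {z : β → G}
  {T : β → MulAut G} {θ : MulAut G} {good : β → Prop}

theorem SeqEx_Set.symm (S : SeqEx_Set P Q z T θ good) {d e : G} (h : SeqEx_E P Q d e) :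
    SeqEx_E P Q e d := by
  induction h with
  | refl => exact .refl
  | tail _ r ih => exact .head ⟨r.2.1, r.1, S.sy _ _ r.1 r.2.1 r.2.2⟩ ih

theorem SeqEx_Set.map1 (S : SeqEx_Set P Q z T θ good) {d e : G} (h : SeqEx_E P Q d e) :
    SeqEx_E P Q (θ d) (θ e) := by
  induction h with
  | refl => exact .refl
  | tail _ r ih => exact .tail ih ⟨S.p1 _ r.1, S.p1 _ r.2.1, S.q1 _ _ r.2.2⟩

theorem SeqEx_Set.map2 (S : SeqEx_Set P Q z T θ good) {d e : G} (h : SeqEx_E P Q d e) :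
    SeqEx_E P Q (θ⁻¹ d) (θ⁻¹ e) := by
  induction h with
  | refl => exact .refl
  | tail _ r ih => exact .tail ih ⟨S.p2 _ r.1, S.p2 _ r.2.1, S.q2 _ _ r.2.2⟩

theorem SeqEx_Set.walk (S : SeqEx_Set P Q z T θ good) {b : β} (hb : good b) {d : G}
    (h : SeqEx_E P Q (z b) d) :
    ∃ w a, SeqEx_Wk (fun a b => good a ∧ good b ∧ Q (z a) (z b)) b w a ∧ good a ∧ Q (z a) d := by
  induction h with
  | refl =>
    obtain ⟨e, he, q⟩ := S.nb _ (S.hP b hb)
    obtain ⟨a, ha, r⟩ := S.rep e he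
    have q' := (r _).2 (S.sy _ _ (S.hP b hb) he q)
    exact ⟨[a], a, .cons ⟨hb, ha, S.sy _ _ (S.hP a ha) (S.hP b hb) q'⟩ (.nil a), ha, q'⟩
  | tail _ r ih =>
    obtain ⟨w, a, hw, ha, q⟩ := ih
    obtain ⟨a', ha', r'⟩ := S.rep _ r.1
    have q' := (r' _).2 (S.sy _ _ (S.hP a ha) r.1 q)
    exact ⟨w ++ [a'], a', hw.append (.cons ⟨ha, ha', S.sy _ _ (S.hP a' ha') (S.hP a ha) q'⟩
      (.nil a')), ha', (r' _).2 r.2.2⟩

theorem SeqEx_Set.tour (S : SeqEx_Set P Q z T θ good) (L : List β) (hL : ∀ x ∈ L, good x) {b : β}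
    (hb : good b) {d : G} (h : SeqEx_E P Q (z b) d) :
    ∃ w a, SeqEx_Wk (fun a b => good a ∧ good b ∧ Q (z a) (z b)) b w a ∧ Q (z a) d ∧
      ∀ x ∈ L, SeqEx_E P Q (z b) (z x) → x ∈ b :: w := by
  induction L generalizing b with
  | nil =>
    obtain ⟨w, a, h1, -, h2⟩ := S.walk hb h
    exact ⟨w, a, h1, h2, by simp⟩
  | cons x L ih =>
    have hx := hL x List.mem_cons_self
    have hL' : ∀ y ∈ L, good y := fun y hy => hL y (List.mem_cons_of_mem _ hy)
    by_cases e : SeqEx_E P Q (z b) (z x)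
    · obtain ⟨w, a, h1, h2, h3⟩ := S.walk hb e
      obtain ⟨w', a', k1, k2, k3⟩ := ih hL' hx ((S.symm e).trans h)
      refine ⟨w ++ x :: w', a', h1.append (.cons ⟨h2, hx, h3⟩ k1), k2, fun y hy e' => ?_⟩
      refine List.mem_cons_of_mem _ (List.mem_append_right _ ?_)
      rcases List.mem_cons.1 hy with rfl | hy
      · exact List.mem_cons_self
      · exact k3 y hy ((S.symm e).trans e')
    · obtain ⟨w, a, k1, k2, k3⟩ := ih hL' hb h
      refine ⟨w, a, k1, k2, fun y hy e' => ?_⟩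
      rcases List.mem_cons.1 hy with rfl | hy
      · exact absurd e' e
      · exact k3 y hy e'

theorem SeqEx_Set.mem (S : SeqEx_Set P Q z T θ good) {b a u : β} {w : List β} (hb : good b)
    (h : SeqEx_Wk (fun a b => good a ∧ good b ∧ Q (z a) (z b)) b w a) (e : u ∈ b :: w) :
    good u ∧ SeqEx_E P Q (z b) (z u) := by
  have := h.mem e
  clear e
  induction this with
  | refl => exact ⟨hb, .refl⟩
  | tail _ r ih => exact ⟨r.2.1, ih.2.tail ⟨S.hP _ r.1, S.hP _ r.2.1, r.2.2⟩⟩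

theorem SeqEx_Set.ex (S : SeqEx_Set P Q z T θ good) (D : List β) (hD : ∀ b ∈ D, good b)
    (cov : ∀ d, P d → ∃ b ∈ D, SeqEx_E P Q d (z b)) :
    ∃ c : List β, (∀ b ∈ c, good b) ∧ (∀ b ∈ D, b ∈ c) ∧ Seq (fun b d => Q (z b) d) z T θ c := by
  obtain ⟨D', h1, h2, h3, h4⟩ := SeqEx_reps (R := fun a b => SeqEx_E P Q (z a) (z b))
    (fun _ => .refl) (fun _ _ => S.symm) D
  have g' : ∀ r ∈ D', good r := fun r hr => hD r (h1 r hr)
  have cov' : ∀ d, P d → ∃ r ∈ D', SeqEx_E P Q d (z r) := fun d hd => by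
    obtain ⟨b, hb, e⟩ := cov d hd
    obtain ⟨r, hr, e'⟩ := h4 b hb
    exact ⟨r, hr, e.trans e'⟩
  have ex : ∀ r, ∃ (n : β) (w : List β) (a : β), r ∈ D' → n ∈ D' ∧
      SeqEx_E P Q (z r) (θ⁻¹ (z n)) ∧
      SeqEx_Wk (fun a b => good a ∧ good b ∧ Q (z a) (z b)) r w a ∧ Q (z a) (θ⁻¹ (z n)) ∧
      ∀ x ∈ D, SeqEx_E P Q (z r) (z x) → x ∈ r :: w := fun r => by
    by_cases hr : r ∈ D'
    · obtain ⟨n, hn, e⟩ := cov' _ (S.p1 _ (S.hP r (g' r hr)))
      have e' : SeqEx_E P Q (z r) (θ⁻¹ (z n)) := by simpa using S.map2 e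
      obtain ⟨w, a, k⟩ := S.tour D hD (g' r hr) e'
      exact ⟨n, w, a, fun _ => ⟨hn, e', k⟩⟩
    · exact ⟨r, [], r, fun h => absurd h hr⟩
  choose n w a hw using ex
  have mem : ∀ r ∈ D', ∀ u ∈ r :: w r, good u ∧ SeqEx_E P Q (z r) (z u) := fun r hr u hu =>
    S.mem (g' r hr) (hw r hr).2.2.1 hu
  have sur : ∀ r' ∈ D', ∃ r ∈ D', n r = r' := fun r' hr' => by
    obtain ⟨r, hr, e⟩ := cov' _ (S.p2 _ (S.hP r' (g' r' hr')))
    refine ⟨r, hr, (h3 _ hr' _ (hw r hr).1 ?_).symm⟩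
    simpa using S.map1 (e.trans (hw r hr).2.1)
  have key : ∀ D₁ r D₂, D' = D₁ ++ r :: D₂ → ∀ x, P x → SeqEx_E P Q (z r) x →
      ∀ k, (k ∈ D₁.flatMap fun r => r :: w r) ∨ (k ∈ D₂.flatMap fun r => r :: w r) →
        IsConj x (T k x) := by
    intro D₁ r D₂ e x hx ex k hk
    have : ∃ r₁ ∈ D', r₁ ≠ r ∧ k ∈ r₁ :: w r₁ := by
      rw [e, List.nodup_append, List.nodup_cons] at h2
      rcases hk with hk | hk <;> obtain ⟨r₁, a1, a2⟩ := List.mem_flatMap.1 hk
      · exact ⟨r₁, by simp [e, a1], h2.2.2 r₁ a1 r List.mem_cons_self, a2⟩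
      · exact ⟨r₁, by simp [e, a1], fun e' => h2.2.1.1 (e' ▸ a1), a2⟩
    obtain ⟨r₁, a1, a2, a3⟩ := this
    obtain ⟨b1, b2⟩ := mem r₁ a1 k a3
    refine S.conj k x b1 hx fun q => a2 (h3 _ a1 r (by simp [e]) ?_)
    exact (b2.tail ⟨S.hP k b1, hx, q⟩).trans (S.symm ex)
  refine ⟨D'.flatMap fun r => r :: w r, fun b hb => ?_, fun b hb => ?_, fun l₁ u l₂ e => ?_⟩
  · obtain ⟨r, hr, e⟩ := List.mem_flatMap.1 hb
    exact (mem r hr b e).1
  · obtain ⟨r, hr, e⟩ := h4 b hb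
    exact List.mem_flatMap.2 ⟨r, hr, (hw r hr).2.2.2.2 b hb (S.symm e)⟩
  obtain ⟨D₁, r, D₂, m₁, m₂, e1, e2, rfl, rfl⟩ := SeqEx_flat _ _ e
  have hr : r ∈ D' := by simp [e1]
  obtain ⟨k1, k2, k3, k4, -⟩ := hw r hr
  constructor
  · rcases k3.next e2 with ⟨rfl, rfl⟩ | ⟨v, l₄, rfl, q⟩
    · obtain ⟨E₁, E₂, e3⟩ := List.append_of_mem k1
      refine .inr ⟨E₁.flatMap fun r => r :: w r, n r,
        w (n r) ++ E₂.flatMap fun r => r :: w r, ?_, k4, fun k hk => ?_, fun k hk => ?_⟩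
      · conv_lhs => rw [e3]
        simp
      · exact key _ _ _ e1 _ (S.p2 _ (S.hP _ (g' _ k1))) k2 k (.inr hk)
      · exact key _ _ _ e3 _ (S.hP _ (g' _ k1)) .refl k (.inl hk)
    · exact .inl ⟨[], v, _, rfl, q.2.2, by simp⟩
  · rcases k3.prev e2 with ⟨rfl, rfl⟩ | ⟨l₃, v, rfl, q⟩
    · obtain ⟨r₀, hr₀, e0⟩ := sur u hr
      obtain ⟨-, -, j3, j4, -⟩ := hw r₀ hr₀
      obtain ⟨E₁, E₂, e3⟩ := List.append_of_mem hr₀
      obtain ⟨l, e4⟩ := j3.last
      obtain ⟨b1, b2⟩ := mem r₀ hr₀ (a r₀) (by simp [e4])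
      have hu := S.hP _ (g' _ hr)
      have ha := S.p1 _ (S.hP _ b1)
      have q : Q (z u) (θ (z (a r₀))) := by
        refine S.sy _ _ ha hu ?_
        simpa [e0] using S.q1 _ _ j4
      refine .inr ⟨(E₁.flatMap fun r => r :: w r) ++ l, a r₀, E₂.flatMap fun r => r :: w r, ?_, q,
        fun k hk => ?_, fun k hk => ?_⟩
      · conv_lhs => rw [e3, List.flatMap_append, List.flatMap_cons, e4]
        simp
      · exact key _ _ _ e1 _ ha (.single ⟨hu, ha, q⟩) k (.inl (by simpa using hk))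
      · exact key _ _ _ e3 _ (S.hP _ b1) b2 k (.inr hk)
    · exact .inl ⟨_ ++ l₃, v, [], (List.append_assoc _ _ _).symm,
        S.sy _ _ (S.hP _ q.1) (S.hP _ q.2.1) q.2.2, by simp⟩

theorem SeqEx_orb {H : Subgroup G} {d d' e : G} (h : cen d' ∈ orb H (cen d)) (c : OCr H d e) :
    OCr H d' e := by
  obtain ⟨j, hj⟩ := h
  obtain ⟨k, c⟩ := c
  exact ⟨j * k, by rw [hj, map_mul, mul_smul]; exact c.smul _⟩

theorem SeqEx_orb_symm {H Z Z' : Subgroup G} (h : Z' ∈ orb H Z) : Z ∈ orb H Z' := by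
  rw [orb_eq h]
  exact mem_orb Z

theorem SeqEx_cen {H : Subgroup G} (h : θ ∈ StabH H) (d : G) :
    cen (θ d) = au H ⟨θ, h⟩ • cen d := by
  rw [cen_smul, lin_au]

theorem SeqEx_map {H : Subgroup G} (h : θ ∈ StabH H) {d e : G} (c : OCr H d e) :
    OCr H (θ d) (θ e) := by
  obtain ⟨k, c⟩ := c
  refine ⟨lin H (au H ⟨θ, h⟩) k, ?_⟩
  rw [SeqEx_cen h, SeqEx_cen h, ← smul_tl]
  exact c.smul _

theorem SeqEx_mapP {H : Subgroup G} (h : θ ∈ StabH H) {d : G} (c : d ≠ 1 ∧ cen d ∈ CX H) :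
    θ d ≠ 1 ∧ cen (θ d) ∈ CX H :=
  ⟨by simpa using c.1, by rw [SeqEx_cen h]; exact cx_smul c.2 _⟩

end abs

theorem seq_ex (hb : Bx W) (hφ : φ ∈ StabH (cl W)) {β : Type} (zs : β → FreeGroup X)
    (Ts : β → MulAut (FreeGroup X)) (good : β → Prop)
    (hc : ∀ b, good b → Cv (cl W) (zs b) (Ts b) ∧ cen (zs b) ∈ CX (cl W))
    (hs : ∀ Z ∈ CX (cl W), ∃ b, good b ∧ cen (zs b) ∈ orb (cl W) Z) :
    ∃ c : List β, (∀ b ∈ c, good b) ∧ Seq (fun b d => OCr (cl W) (zs b) d) zs Ts φ c ∧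
      ∀ g, (∀ b ∈ c, Ts b g = g) ↔ g ∈ LS (cl W) := by
  have nb : ∀ d : FreeGroup X, d ≠ 1 ∧ cen d ∈ CX (cl W) →
      ∃ e, (e ≠ 1 ∧ cen e ∈ CX (cl W)) ∧ OCr (cl W) d e := fun d hd => by
    obtain ⟨Z', h1, h2⟩ := cx_symm hb hd.2
    obtain ⟨e, he, rfl⟩ := h1.1.1.1
    exact ⟨e, ⟨he, h1⟩, 1, by rwa [map_one, one_smul]⟩
  have S : SeqEx_Set (fun d => d ≠ 1 ∧ cen d ∈ CX (cl W)) (OCr (cl W)) zs Ts φ good :=
    { hP := fun b h => ⟨(hc b h).1.ne, (hc b h).2⟩
      sy := by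
        rintro d e hd he ⟨k, c⟩
        refine ⟨k⁻¹, ?_⟩
        have := (Crs.symm hb hd.2.1.1.1 (he.2.1.1.smul _) c).smul (tl (cl W) k)⁻¹
        rwa [inv_smul_smul, ← map_inv] at this
      p1 := fun d => SeqEx_mapP hφ
      p2 := fun d => SeqEx_mapP (inv_mem hφ)
      q1 := fun d e => SeqEx_map hφ
      q2 := fun d e => SeqEx_map (inv_mem hφ)
      rep := fun d hd => by
        obtain ⟨b, h1, h2⟩ := hs _ hd.2
        exact ⟨b, h1, fun e => ⟨SeqEx_orb (SeqEx_orb_symm h2), SeqEx_orb h2⟩⟩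
      nb := nb
      conj := fun k x hk hx n => (hc k hk).1.conj hb hx.1 n }
  obtain ⟨D, h1, h2, h3⟩ := fill_L hb
  choose ρ hρ using fun Z : D => hs Z (h1 Z.2)
  obtain ⟨c, k1, k2, k3⟩ := S.ex (D.attach.toList.map ρ) (fun b hb => by
    obtain ⟨Z, -, rfl⟩ := List.mem_map.1 hb
    exact (hρ Z).1) fun d hd => by
    obtain ⟨Z₀, a1, Z', a2, a3⟩ := h2 _ hd.2
    refine ⟨ρ ⟨Z₀, a1⟩, List.mem_map_of_mem (by simp), ?_⟩
    have a4 := S.hP _ (hρ ⟨Z₀, a1⟩).1
    have a5 : Z' ∈ orb (cl W) (cen (zs (ρ ⟨Z₀, a1⟩))) := by rwa [orb_eq (hρ ⟨Z₀, a1⟩).2]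
    rcases a3 with rfl | a3
    · obtain ⟨e, b1, b2⟩ := nb d hd
      exact .tail (.single ⟨hd, b1, b2⟩)
        ⟨b1, a4, S.sy _ _ a4 b1 (SeqEx_orb (SeqEx_orb_symm a5) b2)⟩
    · obtain ⟨k, rfl⟩ := a5
      exact .single ⟨hd, a4, k, a3⟩
  refine ⟨c, k1, k3, fun g => ⟨fun h => h3 g fun Z₀ a1 => ?_, fun h b hb' => ?_⟩⟩
  · rw [← xn_orb (hρ ⟨Z₀, a1⟩).2, ← (hc _ (hρ ⟨Z₀, a1⟩).1).1.fix hb]
    exact h _ (k2 _ (List.mem_map_of_mem (by simp)))
  · obtain ⟨a1, a2⟩ := hc b (k1 b hb')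
    rw [a1.fix hb, xn_eq_zero hb a2.1.1.1]
    rintro _ ⟨k, rfl⟩
    exact mem_LS.1 h _ (cx_smul a2 _)

theorem SeqEx_ex (hb : Bx W) (hφ : φ ∈ StabH (cl W)) :
    ∃ c : List (FreeGroup X × MulAut (FreeGroup X)), (∀ b ∈ c, Cv (cl W) b.1 b.2) ∧
      Seq (fun b d => OCr (cl W) b.1 d) Prod.fst Prod.snd φ c ∧
      ∀ g, (∀ b ∈ c, b.2 g = g) ↔ g ∈ LS (cl W) := by
  obtain ⟨c, h1, h2, h3⟩ := seq_ex hb hφ (β := FreeGroup X × MulAut (FreeGroup X)) Prod.fst
    Prod.snd (fun b => Cv (cl W) b.1 b.2 ∧ cen b.1 ∈ CX (cl W)) (fun b h => h) fun Z hZ => by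
      obtain ⟨z, -, a2, a3⟩ := Ax.gen hZ.1.1.1
      obtain ⟨T, hT⟩ := cv_ex hb hZ a2
      exact ⟨(z, T), ⟨hT, a3 ▸ hZ⟩, a3 ▸ mem_orb _⟩
  exact ⟨c, fun b hb => (h1 b hb).1, h2, h3⟩

theorem fix_L (hb : Bx W) (hφ : φ ∈ StabH (cl W)) :
    ∃ ψ ∈ StabH (cl W), ∀ g, ψ g = g ↔ φ g = g ∧ g ∈ LS (cl W) := by
  obtain ⟨c, h1, h2, h3⟩ := SeqEx_ex hb hφ
  obtain ⟨ψ, a1, a2⟩ := blk_fix hb Prod.fst Prod.snd c h1 hφ h2
  exact ⟨ψ, a1, fun g => by rw [a2, h3]⟩

theorem lg_of_lin {Φ : List (MulAut (FreeGroup X))}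
    (h : ∀ T ∈ Φ, ∀ g, ∃ c : ℕ, ∀ k : ℤ, ((T ^ k) g).norm ≤ c * (k.natAbs + 1)) : LG Φ := by
  induction Φ with
  | nil => trivial
  | cons T Φ ih =>
    exact ⟨ih fun T' h' => h T' (List.mem_cons_of_mem _ h'), fun g _ => h T List.mem_cons_self g⟩

theorem L_fg (hb : Bx W) : ∃ J : List (FreeGroup X), cl J = LS (cl W) := by
  obtain ⟨c, h1, -, h3⟩ := SeqEx_ex hb (one_mem _)
  obtain ⟨J, hJ⟩ := gt_fg (lg_of_lin (Φ := c.map Prod.snd) fun T hT g => by
    obtain ⟨b, a1, rfl⟩ := List.mem_map.1 hT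
    exact (h1 b a1).lin hb g)
  refine ⟨J, Subgroup.ext fun g => ?_⟩
  rw [hJ, ← h3, List.forall_mem_map]

end Pool.Agent.Work.MP_3bdf32_al
end

-- merged part: Pool.Agent.Work.MP_3bdf32_al.PR2
section
/-! Peak reduction: the crossing phase. -/

namespace Pool.Agent.Work.MP_3bdf32_al

set_option linter.unusedSectionVars false
set_option linter.unusedVariables false

open Subgroup MulAction Filter
open scoped Pointwise

section general

variable {G : Type} [Group G] {A B U P : Set G}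

theorem PR2_mono {Γ : Type} [Group Γ] [MulAction Γ G] (γ : Γ) :
    Mono (γ • A) (γ • B) ↔ Mono A B := by
  unfold Mono
  rw [← Set.smul_set_compl, Set.smul_set_subset_smul_set_iff, Set.smul_set_subset_smul_set_iff]

theorem PR2_nest {Γ : Type} [Group Γ] [MulAction Γ G] (γ : Γ) :
    Nest (γ • A) (γ • B) ↔ Nest A B := by
  unfold Nest
  rw [← Set.smul_set_compl, PR2_mono, PR2_mono]

theorem PR2_nest_sg (b : Bool) : Nest (sg b A) B ↔ Nest A B := by
  cases b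
  · exact ⟨fun h => by simpa using h.compl_left, Nest.compl_left⟩
  · rfl

theorem PR2_nest_sg' (b : Bool) : Nest A (sg b B) ↔ Nest A B :=
  ⟨fun h => ((PR2_nest_sg b).1 h.symm).symm, fun h => ((PR2_nest_sg b).2 h.symm).symm⟩

theorem PR2_sg_smul {Γ : Type} [Group Γ] [MulAction Γ G] (γ : Γ) (b : Bool) :
    γ • sg b A = sg b (γ • A) := by
  cases b
  · exact Set.smul_set_compl
  · rfl

theorem PR2_mono_sg (b : Bool) (h : Mono A B) : Mono A (sg b B) := by
  cases b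
  · exact h.compl
  · exact h

theorem PR2_db_sg (b : Bool) (s : G) : db (sg b A) s = db A s := by
  cases b
  · exact db_compl A s
  · rfl

theorem PR2_clo_sg (b : Bool) (h : Clo A) : Clo (sg b A) := by
  cases b
  · exact h.compl
  · exact h

theorem PR2_aut (μ : MulAut G) (k : G) (A : Set G) : μ • k • A = μ k • μ • A := by
  ext x
  simp only [Set.mem_smul_set_iff_inv_smul_mem, MulAut.smul_def, smul_eq_mul, map_mul, map_inv,
    MulAut.inv_apply, MulEquiv.symm_apply_apply]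

/-- a set nested with two crossing sets is nested with their corners -/
theorem PR2_corner (h : ¬ Nest U P) (a : Nest U B) (b : Nest P B) : Nest (U ∩ P) B := by
  have key : ∀ B : Set G, Mono B U → Nest B P → Mono B (U ∩ P) := by
    intro B a b
    rcases b with b | b
    · rcases a with a | a
      · rcases b with b | b
        · exact .inl fun x hx => ⟨a hx, b hx⟩
        · exact .inr fun x hx c => b hx c.2
      · exact .inr fun x hx c => a hx c.1
    · rcases a with a | a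
      · exact (h (.inr (b.sub (Set.compl_subset_compl.2 a)))).elim
      · exact .inr fun x hx c => a hx c.1
  rcases a.symm with a | a
  · exact Nest.symm (.inl (key B a b.symm))
  · exact Nest.symm (.inr (key Bᶜ a b.symm.compl_left))

/-- the number of translates of `B` crossing `A` -/
noncomputable def PR2_N (A B : Set G) : ℕ := {k : G | ¬ Nest A (k • B)}.ncard

theorem PR2_N_smul (k : G) : PR2_N (k • A) B = PR2_N A B := by
  unfold PR2_N
  have : {j : G | ¬ Nest (k • A) (j • B)} = (k * ·) '' {j : G | ¬ Nest A (j • B)} := by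
    ext j
    constructor
    · intro h
      refine ⟨k⁻¹ * j, fun e => h ?_, by simp⟩
      have := (PR2_nest k).2 e
      rwa [smul_smul, mul_inv_cancel_left] at this
    · rintro ⟨i, h, rfl⟩ e
      rw [mul_smul, PR2_nest] at e
      exact h e
  rw [this, Set.ncard_image_of_injective _ (mul_right_injective k)]

theorem PR2_N_sg (b : Bool) : PR2_N (sg b A) B = PR2_N A B := by
  unfold PR2_N
  simp only [PR2_nest_sg]

/-- the number of segments inside `U` crossing the boundary of `P` -/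
noncomputable def PR2_hw (W : List G) (U P : Set G) : ℕ :=
  (W.map fun h => {g | g ∈ U ∧ g * h ∈ U ∧ g ∈ db P h}.ncard).sum

theorem PR2_hw_mono (W : List G) (e : A ⊆ U) (hP : Clo P) : PR2_hw W A P ≤ PR2_hw W U P := by
  refine List.sum_le_sum fun h _ => Set.ncard_le_ncard (fun g a => ⟨e a.1, e a.2.1, a.2.2⟩) ?_
  exact (hP h).subset fun g a => a.2.2

theorem PR2_hw_sg (W : List G) (b : Bool) : PR2_hw W U (sg b P) = PR2_hw W U P := by
  unfold PR2_hw
  simp only [PR2_db_sg]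

theorem PR2_count (hU : Clo U) (hP : Clo P) (h : G) :
    (db (U ∩ P) h).ncard + {g | g ∈ Pᶜ ∧ g * h ∈ Pᶜ ∧ g ∈ db U h}.ncard ≤
      {g | g ∈ U ∧ g * h ∈ U ∧ g ∈ db P h}.ncard + (db U h).ncard := by
  rw [← Set.ncard_union_eq _ (hU.inter hP h) ((hU h).subset fun g a => a.2.2)]
  · refine le_trans (Set.ncard_le_ncard ?_
      (((hP h).subset fun g a => a.2.2).union (hU h))) (Set.ncard_union_le _ _)
    intro g hg
    simp only [db, Set.mem_union, Set.mem_ofPred_eq, Set.mem_inter_iff, Set.mem_compl_iff] at hg ⊢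
    tauto
  · rw [Set.disjoint_left]
    intro g a b
    simp only [db, Set.mem_ofPred_eq, Set.mem_inter_iff, Set.mem_compl_iff] at a b
    tauto

theorem PR2_wt (W : List G) (hU : Clo U) (hP : Clo P) :
    wt W (U ∩ P) + PR2_hw W Pᶜ U ≤ PR2_hw W U P + wt W U := by
  unfold wt PR2_hw
  induction W with
  | nil => simp
  | cons h W ih =>
    simp only [List.map_cons, List.sum_cons]
    have := PR2_count hU hP h
    omega

end general

variable {X : Type} [Fintype X] [DecidableEq X] {W : List (FreeGroup X)}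
  {Φ : List (MulAut (FreeGroup X))} {φ μ ν : MulAut (FreeGroup X)} {l : ℕ} {p q g : FreeGroup X}

theorem PR2_wt_sg (b : Bool) (U : Set (FreeGroup X)) : wt W (sg b U) = wt W U := by
  cases b
  · exact wt_compl U
  · rfl

theorem PR2_ef_clo {U : Set (FreeGroup X)} (h : U ∈ Ef μ) : Clo U := by
  obtain ⟨k, x, b, rfl⟩ := ef_iff.1 h
  exact PR2_clo_sg b ((bs_clo μ x).smul' k)

theorem PR2_ef_sg {U : Set (FreeGroup X)} (h : U ∈ Ef μ) (b : Bool) : sg b U ∈ Ef μ := by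
  obtain ⟨k, x, c, rfl⟩ := ef_iff.1 h
  exact ef_iff.2 ⟨k, x, _, sg_sg _ _ _⟩

theorem PR2_ef_nest {U U' : Set (FreeGroup X)} (h : U ∈ Ef μ) (h' : U' ∈ Ef μ) : Nest U U' :=
  (PR2_nest μ).1 (HT.nest h h')

theorem PR2_fin {U' : Set (FreeGroup X)} (h : Clo U') (μ : MulAut (FreeGroup X)) :
    {U | U ∈ Ef μ ∧ ¬ Nest U U'}.Finite := by
  refine (Set.finite_iUnion fun x : X => Set.finite_iUnion fun b : Bool =>
    (cross_fin h (bs_clo μ x)).image fun k => sg b (k • bs μ x)).subset ?_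
  rintro U ⟨a, c⟩
  obtain ⟨k, x, b, rfl⟩ := ef_iff.1 a
  exact Set.mem_iUnion.2 ⟨x, Set.mem_iUnion.2 ⟨b, k,
    fun e => c ((PR2_nest_sg b).2 (Nest.symm e)), rfl⟩⟩

theorem PR2_bs {U : Set (FreeGroup X)} {u : FreeGroup X} {s : X × Bool}
    (h : μ • U = hs u (u * lt s)) : ∃ (k : FreeGroup X) (b : Bool), U = sg b (k • bs μ s.1) := by
  have e : U = μ⁻¹ • hs u (u * lt s) := by rw [← h, inv_smul_smul]
  obtain ⟨x, b⟩ := s
  cases b
  · refine ⟨μ⁻¹ (u * lt (x, false)), false, ?_⟩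
    have e1 : cd (u * lt (x, false)) u = 1 := by
      rw [cd_comm]; exact cd_one_iff.2 ⟨_, rfl⟩
    have e2 : u = u * lt (x, false) * FreeGroup.of x := by
      have := lt_inv (x, false)
      rw [← lt_true, show ((x, true) : X × Bool) = (x, !false) from rfl, ← this,
        mul_inv_cancel_right]
    rw [e, ← hs_compl e1, bs, ← PR2_aut, hs_smul, mul_one, ← e2, Set.smul_set_compl]
    rfl
  · refine ⟨μ⁻¹ u, true, ?_⟩
    rw [e, bs, ← PR2_aut, hs_smul, mul_one, lt_true]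
    rfl

theorem PR2_dir {u v : FreeGroup X} (h : cd u v = 1) {s : X × Bool} (e : v * lt s ≠ u) :
    hs v (v * lt s) ⊂ hs u v := by
  have h1 : cd v (v * lt s) = 1 := cd_one_iff.2 ⟨s, rfl⟩
  have h2 : cd v u = 1 := by rwa [cd_comm]
  refine ⟨hs_sub h h1 (right_mem_hs h) fun a => e (step_uniq h1 h2 a (right_mem_hs h2)), fun a => ?_⟩
  exact left_notMem_hs _ _ (a (right_mem_hs h))

theorem PR2_main {U U' : Set (FreeGroup X)} (hU : U ∈ Ef μ) (hU' : U' ∈ Ef ν) (hn : ¬ Nest U U')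
    (hmin : ∀ D ∈ Ef μ, D ⊂ U → Nest D U')
    (hw : ∀ b, PR2_hw W U U' ≤ PR2_hw W (sg b U') U) : ∃ μ', Mv W μ μ' ∧ cx μ' ν < cx μ ν := by
  obtain ⟨u, v, huv, hV⟩ := id hU
  obtain ⟨s₀, hv⟩ := cd_one_iff.1 huv
  have hdir : ∀ s, v * lt s ≠ u → hs v (v * lt s) ⊆ μ • U ∧ Mono (hs v (v * lt s)) (μ • U') := by
    intro s e
    have h1 := PR2_dir huv e
    rw [← hV] at h1
    refine ⟨h1.1, ?_⟩
    have h2 : μ⁻¹ • hs v (v * lt s) ⊂ U := by
      rw [← inv_smul_smul μ U]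
      exact ⟨Set.smul_set_subset_smul_set_iff.2 h1.1,
        fun a => h1.2 (Set.smul_set_subset_smul_set_iff.1 a)⟩
    have h3 : μ⁻¹ • hs v (v * lt s) ∈ Ef μ := by
      change HT (μ • μ⁻¹ • hs v (v * lt s))
      rw [smul_inv_smul]
      exact ⟨_, _, cd_one_iff.2 ⟨s, rfl⟩, rfl⟩
    rcases hmin _ h3 h2 with a | a
    · have := (PR2_mono μ).2 a
      rwa [smul_inv_smul] at this
    · exact (hn (.inr (a.sub (Set.compl_subset_compl.2 h2.1)))).elim
  have hu : v * (lt s₀)⁻¹ = u := by rw [hv, mul_inv_cancel_right]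
  have hs₀ : v * lt s₀ ≠ u := by
    rw [← hu, lt_inv]
    intro a
    have := congrArg Prod.snd (lt_inj (mul_left_cancel a))
    simp at this
  obtain ⟨c, hc⟩ : ∃ c, hs v (v * lt s₀) ⊆ sg c (μ • U') := by
    rcases (hdir s₀ hs₀).2 with a | a
    exacts [⟨true, a⟩, ⟨false, a⟩]
  have hP : μ • (U ∩ sg c U') = μ • U ∩ sg c (μ • U') := by
    rw [Set.smul_set_inter, PR2_sg_smul]
  have hin : v * lt s₀ ∈ μ • (U ∩ sg c U') := by
    have := right_mem_hs (cd_one_iff.2 ⟨s₀, rfl⟩ : cd v (v * lt s₀) = 1)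
    rw [hP]
    exact ⟨(hdir s₀ hs₀).1 this, hc this⟩
  have hout : v * (lt s₀)⁻¹ ∉ μ • (U ∩ sg c U') := by
    rw [hP, hu, hV]
    exact fun a => left_notMem_hs _ _ a.1
  obtain ⟨ω, hω, ⟨k, b, e⟩, f⟩ := exch (P := U ∩ sg c U') μ v s₀.1 (by
    intro s
    rw [hP]
    by_cases a : v * lt s = u
    · rw [a, ← hs_compl huv, ← hV]
      exact .inr fun x hx d => hx d.1
    · obtain ⟨h1, h2⟩ := hdir s a
      rcases PR2_mono_sg c h2 with d | d
      · exact .inl fun x hx => ⟨h1 hx, d hx⟩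
      · exact .inr fun x hx i => d hx i.2) (by
    obtain ⟨x, b⟩ := s₀
    cases b
    · have e1 : (lt (x, false))⁻¹ = FreeGroup.of x := (lt_inv _).trans (lt_true x)
      have e2 : lt (x, false) = (FreeGroup.of x)⁻¹ := by rw [← e1, inv_inv]
      rw [e1] at hout
      rw [e2] at hin
      exact fun a => hout (a.2 hin)
    · rw [lt_true] at hin hout
      exact fun a => hout (a.1 hin))
  obtain ⟨k', b', hb⟩ := PR2_bs (hv ▸ hV : μ • U = hs u (u * lt s₀))
  have cU := PR2_ef_clo hU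
  have cU' := PR2_ef_clo hU'
  refine ⟨ω * μ, ⟨ω, hω, rfl, ?_⟩, ?_⟩
  · have h1 := exch_len (W := W) e f
    have h2 := PR2_wt W cU (PR2_clo_sg c cU')
    rw [sg_compl, PR2_hw_sg] at h2
    have h3 := hw (!c)
    have h4 : wt W U = wt W (bs μ s₀.1) := by rw [hb, PR2_wt_sg, wt_smul]
    omega
  · obtain ⟨k₀, z₀, b₀, hz⟩ := ef_iff.1 hU'
    have hn' : ¬ Nest U (sg c U') := fun a => hn ((PR2_nest_sg' c).1 a)
    have hsub : ∀ z, {j : FreeGroup X | ¬ Nest (U ∩ sg c U') (j • bs ν z)} ⊆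
        {j : FreeGroup X | ¬ Nest U (j • bs ν z)} := fun z j a d =>
      a (PR2_corner hn' d (PR2_ef_nest (PR2_ef_sg hU' c) (ef_iff.2 ⟨j, z, true, rfl⟩)))
    have h1 : ∀ z, PR2_N (bs (ω * μ) s₀.1) (bs ν z) = PR2_N (U ∩ sg c U') (bs ν z) := fun z => by
      rw [e, PR2_N_sg, PR2_N_smul]
    have h2 : ∀ z, PR2_N (bs μ s₀.1) (bs ν z) = PR2_N U (bs ν z) := fun z => by
      rw [hb, PR2_N_sg, PR2_N_smul]
    have h3 : ∑ z, PR2_N (bs (ω * μ) s₀.1) (bs ν z) < ∑ z, PR2_N (bs μ s₀.1) (bs ν z) := by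
      simp only [h1, h2]
      refine Finset.sum_lt_sum (fun z _ => Set.ncard_le_ncard (hsub z)
        (cross_fin cU (bs_clo ν z))) ⟨z₀, Finset.mem_univ _, Set.ncard_lt_ncard ⟨hsub z₀,
          fun a => ?_⟩ (cross_fin cU (bs_clo ν z₀))⟩
      have h4 : ¬ Nest U (k₀ • bs ν z₀) := fun d => hn (hz ▸ (PR2_nest_sg' b₀).2 d)
      refine a h4 ((PR2_nest_sg' b₀).1 ?_)
      rw [← hz]
      exact (PR2_nest_sg' c).1 (.inl (.inl Set.inter_subset_right))
    change ∑ y, ∑ z, PR2_N (bs (ω * μ) y) (bs ν z) < ∑ y, ∑ z, PR2_N (bs μ y) (bs ν z)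
    refine Finset.sum_lt_sum (fun y _ => ?_) ⟨s₀.1, Finset.mem_univ _, h3⟩
    by_cases a : y = s₀.1
    · rw [a]; exact h3.le
    · obtain ⟨j, d⟩ := f y a
      simp only [d, PR2_N_smul, le_refl]

theorem PR2_half {U U' : Set (FreeGroup X)} (hU : U ∈ Ef μ) (hU' : U' ∈ Ef ν) (hn : ¬ Nest U U')
    (hw : ∀ A ∈ Ef ν, ∀ B ∈ Ef μ, ¬ Nest A B → PR2_hw W U U' ≤ PR2_hw W A B) :
    ∃ μ', Mv W μ μ' ∧ cx μ' ν < cx μ ν := by
  have cU' := PR2_ef_clo hU'
  obtain ⟨U₂, h1, h2⟩ := (PR2_fin cU' μ).exists_le_minimal (a := U) ⟨hU, hn⟩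
  refine PR2_main h2.1.1 hU' h2.1.2 (fun D a b => ?_) fun b => ?_
  · by_contra c
    exact b.2 (h2.2 ⟨a, c⟩ b.1)
  · exact (PR2_hw_mono W h1 cU').trans (hw _ (PR2_ef_sg hU' b) _ h2.1.1
      fun c => h2.1.2 ((PR2_nest_sg b).1 c).symm)

theorem cross_step (h : 0 < cx μ ν) :
    (∃ μ', Mv W μ μ' ∧ cx μ' ν < cx μ ν) ∨ ∃ ν', Mv W ν ν' ∧ cx μ ν' < cx μ ν := by
  classical
  have hex : ∃ n, ∃ U U', (U ∈ Ef μ ∧ U' ∈ Ef ν ∨ U ∈ Ef ν ∧ U' ∈ Ef μ) ∧ ¬ Nest U U' ∧
      PR2_hw W U U' = n := by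
    obtain ⟨x, -, a⟩ := Finset.exists_ne_zero_of_sum_ne_zero h.ne'
    obtain ⟨y, -, b⟩ := Finset.exists_ne_zero_of_sum_ne_zero a
    obtain ⟨k, c⟩ := Set.nonempty_of_ncard_ne_zero b
    exact ⟨_, bs μ x, k • bs ν y, .inl ⟨ef_iff.2 ⟨1, x, true, (one_smul _ _).symm⟩,
      ef_iff.2 ⟨k, y, true, rfl⟩⟩, c, rfl⟩
  obtain ⟨U, U', a, b, c⟩ := Nat.find_spec hex
  rcases a with a | a
  · exact .inl (PR2_half a.1 a.2 b fun A d B e f =>
      c ▸ Nat.find_min' hex ⟨A, B, .inr ⟨d, e⟩, f, rfl⟩)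
  · obtain ⟨ν', d, e⟩ := PR2_half (W := W) a.1 a.2 b fun A d B e f =>
      c ▸ Nat.find_min' hex ⟨A, B, .inl ⟨d, e⟩, f, rfl⟩
    exact .inr ⟨ν', d, by rwa [cx_comm μ ν', cx_comm μ ν]⟩

end Pool.Agent.Work.MP_3bdf32_al
end

-- merged part: Pool.Agent.Work.MP_3bdf32_al.McC
section
/-! Generators of the stabiliser, and the reduction to the one ended case. -/

namespace Pool.Agent.Work.MP_3bdf32_al

set_option linter.unusedSectionVars false
set_option linter.unusedVariables false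

open Subgroup MulAction Filter
open scoped Pointwise

variable {X : Type} [Fintype X] [DecidableEq X] {W : List (FreeGroup X)}
  {Φ : List (MulAut (FreeGroup X))} {φ μ ν : MulAut (FreeGroup X)} {l : ℕ} {p q g : FreeGroup X}

theorem peak_join (μ ν : MulAut (FreeGroup X)) :
    ∃ κ, Relation.ReflTransGen (Mv W) μ κ ∧ Relation.ReflTransGen (Mv W) ν κ := by
  induction h : cx μ ν using Nat.strong_induction_on generalizing μ ν with
  | _ n ih =>
    subst h
    rcases Nat.eq_zero_or_pos (cx μ ν) with h0 | h0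
    · exact comp_join h0
    · rcases cross_step (W := W) h0 with ⟨μ', a, b⟩ | ⟨ν', a, b⟩
      · obtain ⟨κ, c, d⟩ := ih _ b μ' ν rfl
        exact ⟨κ, .head a c, d⟩
      · obtain ⟨κ, c, d⟩ := ih _ b μ ν' rfl
        exact ⟨κ, c, .head a d⟩

theorem McC_len_congr (e : ∀ h ∈ W, μ h = ν h) : len W μ = len W ν := by
  unfold len
  rw [List.map_congr_left fun h hh => congrArg FreeGroup.norm (e h hh)]

theorem McC_len_mul (μ : MulAut (FreeGroup X)) (e : φ ∈ StabH (cl W)) :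
    len W (μ * φ) = len W μ :=
  McC_len_congr fun h hh => by rw [MulAut.mul_apply, stabH_cl.1 e h hh]

theorem mcc_sound {Y : List (MulAut (FreeGroup X))} (h : McC Y W) : φ ∈ StabH (cl W) ↔ φ ∈ cl Y := by
  obtain ⟨hY, l, V, hV, h⟩ := h
  have le : cl Y ≤ StabH (cl W) := (closure_le _).2 fun y hy => stabH_cl.2 (hY y hy)
  refine ⟨fun hφ => ?_, fun a => le a⟩
  obtain ⟨μ₀, h₀⟩ := List.exists_mem_of_ne_nil V hV
  have key : ∀ ψ ∈ StabH (cl W), ∀ κ, Relation.ReflTransGen (Mv W) (μ₀ * ψ) κ →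
      ∃ μ' ∈ V, ∃ y ∈ cl Y, κ = μ' * (y * ψ) := by
    intro ψ hψ κ r
    induction r with
    | refl => exact ⟨μ₀, h₀, 1, one_mem _, by rw [one_mul]⟩
    | tail _ m ih =>
      obtain ⟨μ', a, y, b, rfl⟩ := ih
      obtain ⟨ω, c, rfl, d⟩ := m
      have s := mul_mem (le b) hψ
      rw [← mul_assoc ω, McC_len_mul _ s, McC_len_mul _ s, (h μ' a).1] at d
      obtain ⟨μ'', e, f⟩ := (h μ' a).2.2 ω c d
      exact ⟨μ'', e, μ''⁻¹ * (ω * μ') * y, mul_mem (mem_cl f) b, by group⟩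
  obtain ⟨κ, a, b⟩ := peak_join (W := W) (μ₀ * 1) (μ₀ * φ)
  obtain ⟨μ₁, c, y₁, d, e⟩ := key 1 (one_mem _) κ a
  obtain ⟨μ₂, c', y₂, d', e'⟩ := key φ hφ κ b
  have f : μ₂⁻¹ * μ₁ ∈ Y := (h μ₁ c).2.1 μ₂ c' fun w hw => by
    have i := congrArg (fun σ : MulAut (FreeGroup X) => σ w) (e.symm.trans e')
    simpa only [MulAut.mul_apply, MulAut.one_apply, stabH_cl.1 hφ w hw, stabH_cl.1 (le d) w hw,
      stabH_cl.1 (le d') w hw] using i
  have i : φ = y₂⁻¹ * (μ₂⁻¹ * μ₁ * y₁) := by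
    have := e.symm.trans e'
    rw [mul_one] at this
    rw [mul_assoc, this]; group
  rw [i]
  exact mul_mem (inv_mem d') (mul_mem (mem_cl f) d)

theorem McC_norm_le {h : FreeGroup X} (hh : h ∈ W) (μ : MulAut (FreeGroup X)) :
    (μ h).norm ≤ len W μ :=
  List.single_le_sum (fun _ _ => Nat.zero_le _) _ (List.mem_map.2 ⟨h, hh, rfl⟩)

theorem McC_lip_one : Lip 3 (1 : MulAut (FreeGroup X)) := fun x => by simp

theorem mcc_ex (W : List (FreeGroup X)) : ∃ Y, McC Y W := by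
  classical
  have ex : ∃ n, ∃ μ, len W μ = n := ⟨_, 1, rfl⟩
  obtain ⟨μ₀, h₀⟩ := Nat.find_spec ex
  have mn : ∀ μ, Nat.find ex ≤ len W μ := fun μ => Nat.find_min' ex ⟨μ, rfl⟩
  set l := Nat.find ex
  let r : MulAut (FreeGroup X) → {h // h ∈ W} → FreeGroup X := fun μ h => μ h
  have fin : (r '' {μ | len W μ = l}).Finite := by
    refine (Set.Finite.pi' fun _ => ball_fin (1 : FreeGroup X) l).subset ?_
    rintro _ ⟨μ, a, rfl⟩ h
    have := McC_norm_le h.2 μ
    rw [a] at this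
    simpa [cd, r] using this
  obtain ⟨T, a, b, c⟩ := fin.exists_subset_finite_image_eq subset_rfl
  have fy : ((fun t : (MulAut (FreeGroup X) × MulAut (FreeGroup X)) × MulAut (FreeGroup X) =>
      t.1.1⁻¹ * (t.1.2 * t.2)) '' ((T ×ˢ {ω | Lip 3 ω}) ×ˢ T) ∩ {y | ∀ h ∈ W, y h = h}).Finite :=
    (((b.prod (lip_fin 3)).prod b).image _).inter_of_left _
  have my : ∀ μ ∈ T, ∀ μ' ∈ T, ∀ ω, Lip 3 ω → (∀ h ∈ W, (ω * μ) h = μ' h) →
      μ'⁻¹ * (ω * μ) ∈ fy.toFinset.toList := fun μ d μ' e ω f i => by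
    rw [Finset.mem_toList, Set.Finite.mem_toFinset]
    refine ⟨⟨((μ', ω), μ), ⟨⟨e, f⟩, d⟩, rfl⟩, fun h hh => ?_⟩
    rw [MulAut.mul_apply, i h hh, MulAut.inv_apply_self]
  have mt : ∀ μ, len W μ = l → ∃ μ' ∈ T, ∀ h ∈ W, μ h = μ' h := fun μ d => by
    obtain ⟨μ', e, f⟩ := c.symm.subset ⟨μ, d, rfl⟩
    exact ⟨μ', e, fun h hh => (congrFun f ⟨h, hh⟩).symm⟩
  have mv : ∀ {μ}, μ ∈ b.toFinset.toList ↔ μ ∈ T := by simp
  refine ⟨fy.toFinset.toList, fun y hy => ?_, l, b.toFinset.toList, ?_, fun μ d => ⟨a (mv.1 d),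
    fun μ' e f => ?_, fun ω e f => ?_⟩⟩
  · rw [Finset.mem_toList, Set.Finite.mem_toFinset] at hy
    exact hy.2
  · obtain ⟨μ', e, -⟩ := mt μ₀ h₀
    exact List.ne_nil_of_mem (mv.2 e)
  · simpa using my μ (mv.1 d) μ' (mv.1 e) 1 McC_lip_one (by simpa using f)
  · obtain ⟨μ', i, j⟩ := mt _ (f.antisymm (mn _))
    exact ⟨μ', mv.2 i, my μ (mv.1 d) μ' i ω e j⟩

theorem McC_cd (v : FreeGroup X) (s : X × Bool) : cd v (v * lt s) = 1 := cd_one_iff.2 ⟨s, rfl⟩

/-- the edges of the geodesic of a reduced word -/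
theorem McC_walk {h : FreeGroup X} {L₁ L₂ : List (X × Bool)} {s : X × Bool}
    (e : h.toWord = L₁ ++ s :: L₂) :
    (FreeGroup.mk L₁)⁻¹ ∉ hs 1 (lt s) ∧ (FreeGroup.mk L₁)⁻¹ * h ∈ hs 1 (lt s) := by
  have e₁ : h = FreeGroup.mk L₁ * lt s * FreeGroup.mk L₂ := by
    rw [lt, FreeGroup.mul_mk, FreeGroup.mul_mk, ← FreeGroup.mk_toWord (x := h), e]
    simp
  have n : h.norm = L₁.length + 1 + L₂.length := by
    rw [FreeGroup.norm, e]; simp; omega
  have n₁ := FreeGroup.norm_mk_le (L₁ := L₁)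
  have n₂ := FreeGroup.norm_mk_le (L₁ := L₂)
  have t₁ := FreeGroup.norm_mul_le (FreeGroup.mk L₁ * lt s) (FreeGroup.mk L₂)
  have t₂ := FreeGroup.norm_mul_le (FreeGroup.mk L₁) (lt s * FreeGroup.mk L₂)
  rw [← e₁] at t₁
  rw [← mul_assoc, ← e₁] at t₂
  have e₂ : (FreeGroup.mk L₁)⁻¹ * h = lt s * FreeGroup.mk L₂ := by rw [e₁]; group
  constructor
  · simp only [hs, cd, Set.mem_ofPred_eq, inv_inv, mul_one]
    omega
  · rw [e₂]
    simp only [hs, cd, Set.mem_ofPred_eq, mul_inv_rev, mul_one, inv_mul_cancel_right,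
      FreeGroup.norm_inv_eq]
    omega

theorem McC_lt_false (a : X) : lt (a, false) = (FreeGroup.of a)⁻¹ := by
  rw [← lt_true, lt_inv]; rfl

theorem McC_wt_lt (t : X × Bool) : wt W (hs 1 (lt t)) = wt W (hs 1 (FreeGroup.of t.1)) := by
  obtain ⟨a, b⟩ := t
  cases b
  · have c := McC_cd 1 (a, true)
    rw [one_mul, lt_true] at c
    rw [McC_lt_false, ← wt_smul (FreeGroup.of a), hs_smul, mul_one, mul_inv_cancel, ← hs_compl c,
      wt_compl]
  · rw [lt_true]

theorem McC_wt_hs (v : FreeGroup X) (t : X × Bool) :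
    wt W (hs v (v * lt t)) = wt W (hs 1 (FreeGroup.of t.1)) := by
  rw [← McC_wt_lt, ← wt_smul v (hs 1 (lt t)), hs_smul, mul_one]

/-- exchange and minimality -/
theorem McC_exch (h : OEc W) {P : Set (FreeGroup X)} (v : FreeGroup X) (t : X × Bool)
    (m : ∀ s, Mono (hs v (v * lt s)) P) (e : ¬ (v * lt t ∈ P ↔ v * (lt t)⁻¹ ∈ P)) :
    wt W (hs 1 (FreeGroup.of t.1)) ≤ wt W P := by
  obtain ⟨ω, a, ⟨k, b, c⟩, d⟩ := exch (P := P) 1 v t.1 (by simpa using m) (by
    obtain ⟨a, b⟩ := t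
    cases b
    · rw [McC_lt_false, inv_inv] at e
      simpa [iff_comm] using e
    · rw [lt_true] at e
      simpa using e)
  have i := exch_len (W := W) c d
  have j := h.1 ω a
  simp only [bs, inv_one, one_smul, mul_one] at i
  omega

theorem McC_wt_le {P : Set (FreeGroup X)} {h : FreeGroup X} (hh : h ∈ W) :
    (db P h).ncard ≤ wt W P :=
  List.single_le_sum (fun _ _ => Nat.zero_le _) _ (List.mem_map.2 ⟨h, hh, rfl⟩)

theorem McC_wt_pos (h : OEc W) (a : X) : 0 < wt W (hs 1 (FreeGroup.of a)) := by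
  obtain ⟨w, hw, b, c⟩ := h.2 a
  obtain ⟨L₁, L₂, e⟩ := List.append_of_mem c
  obtain ⟨i, j⟩ := McC_walk e
  rw [← McC_wt_lt (a, b)]
  refine lt_of_lt_of_le ?_ (McC_wt_le hw)
  have c := McC_cd 1 (a, b)
  rw [one_mul] at c
  exact (Set.ncard_pos (HT.clo ⟨_, _, c, rfl⟩ w)).2 ⟨_, fun k => i (k.2 j)⟩

theorem McC_wt_sat {O : Set (FreeGroup X)} (hO : Sat (cl W) O) : wt W O = 0 := by
  refine List.sum_eq_zero fun n hn => ?_
  obtain ⟨w, hw, rfl⟩ := List.mem_map.1 hn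
  have : db O w = ∅ := Set.eq_empty_of_forall_notMem fun x hx => hx (hO x w (mem_cl hw))
  rw [this, Set.ncard_empty]

theorem McC_sat_wt {O : Set (FreeGroup X)} (c : Clo O) (e : wt W O = 0) : Sat (cl W) O := by
  have k : ∀ x, ∀ w ∈ W, (x ∈ O ↔ x * w ∈ O) := fun x w hw => by
    have := McC_wt_le (P := O) hw
    rw [e, Nat.le_zero, Set.ncard_eq_zero (c w)] at this
    by_contra a
    exact this.subset (show x ∈ db O w from a)
  refine sat_iff.2 ?_
  rintro x y ⟨w, hw, rfl | rfl⟩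
  exacts [k x w hw, (k y w hw).symm]

theorem McC_A₁ (h : OEc W) {O : Set (FreeGroup X)} (hO : Sat (cl W) O) (a : O.Nonempty)
    (b : (1 : FreeGroup X) ∉ O) (m : ∀ s, Mono (hs 1 (lt s)) O) : False := by
  have c : ∀ s : X × Bool, cd 1 (lt s) = 1 := fun s => by simpa using McC_cd 1 s
  have sy : ∀ s, lt s ∈ O ↔ (lt s)⁻¹ ∈ O := fun s => by
    by_contra e
    have := McC_exch h 1 s (by simpa using m) (by simpa using e)
    rw [McC_wt_sat hO] at this
    exact (McC_wt_pos h s.1).not_ge this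
  have k : ∀ w ∈ W, ∀ L₁ s L₂, w.toWord = L₁ ++ s :: L₂ → (FreeGroup.mk L₁)⁻¹ ∉ O → lt s ∉ O :=
    fun w hw L₁ s L₂ e i j => i ((hO _ w (mem_cl hw)).2
      (((m s).iff (right_mem_hs (c s)) (McC_walk e).2).1 j))
  have k' : ∀ w ∈ W, ∀ L₁ L₂, w.toWord = L₁ ++ L₂ → (FreeGroup.mk L₁)⁻¹ ∉ O := by
    intro w hw L₁
    induction L₁ using List.reverseRecOn with
    | nil => intro _ _; rwa [← FreeGroup.one_eq_mk, inv_one]
    | append_singleton L t ih =>
      intro L₂ e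
      rw [List.append_assoc] at e
      have i := k w hw L t L₂ e (ih _ e)
      rw [sy, lt_inv] at i
      have j := (McC_walk e).1
      rw [← Set.mem_compl_iff, hs_compl (c t), ← mul_mem_smul (k := (lt t)⁻¹), hs_smul,
        inv_mul_cancel, mul_one, ← mul_inv_rev, lt_inv] at j
      rw [← FreeGroup.mul_mk]
      exact fun f => i (((m _).iff (right_mem_hs (c _)) j).2 f)
  obtain ⟨x, hx⟩ := a
  obtain ⟨y, d, e⟩ := ex_step (x := 1) (w := x) (fun e => b (e ▸ hx))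
  obtain ⟨⟨s, β⟩, rfl⟩ := cd_one_iff.1 d
  rw [one_mul] at e
  have f := ((m _).iff (right_mem_hs (c _)) e).2 hx
  obtain ⟨w, hw, γ, i⟩ := h.2 s
  obtain ⟨L₁, L₂, j⟩ := List.append_of_mem i
  have n := k w hw L₁ _ L₂ j (k' w hw L₁ _ j)
  by_cases r : β = γ
  · exact n (r ▸ f)
  · rw [sy, lt_inv] at f
    have : (!β) = γ := by revert r; cases β <;> cases γ <;> simp
    exact n (this ▸ f)

/-- no saturated set is a nontrivial union of directions at a vertex -/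
theorem McC_A (h : OEc W) {O : Set (FreeGroup X)} (hO : Sat (cl W) O) (a : O.Nonempty)
    (b : Oᶜ.Nonempty) (v : FreeGroup X) (m : ∀ s, Mono (hs v (v * lt s)) O) : False := by
  have k : ∀ O : Set (FreeGroup X), Sat (cl W) O → O.Nonempty → v ∉ O →
      (∀ s, Mono (hs v (v * lt s)) O) → False := fun O hO a b m =>
    McC_A₁ h (hO.smul' v⁻¹) a.smul_set (by simpa [mem_smul'] using b) fun s => by
      simpa [hs_smul] using (m s).smul' v⁻¹
  by_cases c : v ∈ O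
  · exact k Oᶜ hO.compl b (fun d => d c) fun s => (m s).compl
  · exact k O hO a c m

theorem McC_wt_add {U P : Set (FreeGroup X)} (hU : Clo U)
    (n : ¬ ∃ x ∈ U ∩ P, ∃ y ∈ U ∩ Pᶜ, Sg W x y) : wt W (U ∩ P) + wt W (U ∩ Pᶜ) ≤ wt W U := by
  unfold wt
  rw [← List.sum_map_add]
  refine List.sum_le_sum fun w hw => ?_
  have k : ∀ x, x ∈ U → x * w ∈ U → (x ∈ P ↔ x * w ∈ P) := fun x a b => by
    by_contra c
    by_cases d : x ∈ P
    · exact n ⟨x, ⟨a, d⟩, x * w, ⟨b, fun e => c (iff_of_true d e)⟩, w, hw, .inl rfl⟩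
    · exact n ⟨x * w, ⟨b, by tauto⟩, x, ⟨a, d⟩, w, hw, .inr rfl⟩
  have s : db (U ∩ P) w ∪ db (U ∩ Pᶜ) w ⊆ db U w := fun x hx => by
    have := k x
    simp only [db, Set.mem_ofPred_eq, Set.mem_inter_iff, Set.mem_union, Set.mem_compl_iff] at hx ⊢
    tauto
  have f := (hU w).subset s
  rw [← Set.ncard_union_eq _ (f.subset Set.subset_union_left) (f.subset Set.subset_union_right)]
  · exact Set.ncard_le_ncard s (hU w)
  · refine Set.disjoint_left.2 fun x a b => ?_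
    have := k x
    simp only [db, Set.mem_ofPred_eq, Set.mem_inter_iff, Set.mem_compl_iff] at a b
    tauto

/-- the root step -/
theorem McC_root (h : OEc W) {P : Set (FreeGroup X)} (hP : Clo P) (x : FreeGroup X) (t : X × Bool)
    (m : ∀ s, x * lt t * lt s ≠ x → Mono (hs (x * lt t) (x * lt t * lt s)) P)
    (a : x * lt t * lt t ∈ P) (b : (hs x (x * lt t) ∩ Pᶜ).Nonempty) :
    ∃ y ∈ hs x (x * lt t) ∩ P, ∃ z ∈ hs x (x * lt t) ∩ Pᶜ, Sg W y z := by
  by_contra n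
  have c := McC_cd x t
  have hU : HT (hs x (x * lt t)) := ⟨_, _, c, rfl⟩
  have sub : ∀ s, x * lt t * lt s ≠ x → hs (x * lt t) (x * lt t * lt s) ⊆ hs x (x * lt t) :=
    fun s e => hs_sub c (McC_cd _ s) (right_mem_hs c) fun f =>
      e (step_uniq (McC_cd _ s) ((cd_comm _ _).trans c) f (right_mem_hs ((cd_comm _ _).trans c)))
  have mo : ∀ Q, (∀ s, x * lt t * lt s ≠ x → Mono (hs (x * lt t) (x * lt t * lt s)) Q) →
      ∀ s, Mono (hs (x * lt t) (x * lt t * lt s)) (hs x (x * lt t) ∩ Q) := fun Q k s => by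
    by_cases e : x * lt t * lt s = x
    · rw [e, ← hs_compl c]
      exact .inr fun w i j => i j.1
    · rcases k s e with i | i
      · exact .inl (Set.subset_inter (sub s e) i)
      · exact .inr fun w j k => i j k.2
  have ne : x * lt t * lt t ≠ x := fun e => by
    have : (lt t)⁻¹ = lt t := by
      rw [mul_assoc, mul_eq_left] at e
      exact inv_eq_of_mul_eq_one_left e
    rw [lt_inv] at this
    simpa using congrArg Prod.snd (lt_inj this)
  have i := McC_exch h (x * lt t) t (mo P m) fun e => left_notMem_hs x (x * lt t) (by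
    simpa using (e.1 ⟨sub t ne (right_mem_hs (McC_cd _ t)), a⟩).1)
  have j := McC_wt_add hU.clo n
  rw [McC_wt_hs] at j
  exact McC_A h (McC_sat_wt (hU.clo.inter hP.compl) (by omega)) b
    ⟨x, fun e => left_notMem_hs _ _ e.1⟩ (x * lt t) (mo Pᶜ fun s e => (m s e).compl)

theorem McC_bond (h : OEc W) {U : Set (FreeGroup X)} (hU : HT U) : Conn W U := by
  obtain ⟨o, y, c, rfl⟩ := hU
  intro P hP
  obtain ⟨r, far⟩ := hP.far o
  have key : ∀ n : ℕ, ∀ x t, o ∉ hs x (x * lt t) → r - n ≤ cd o x →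
      (hs x (x * lt t) ∩ P).Nonempty → (hs x (x * lt t) ∩ Pᶜ).Nonempty →
      ∃ y ∈ hs x (x * lt t) ∩ P, ∃ z ∈ hs x (x * lt t) ∩ Pᶜ, Sg W y z := by
    intro n
    induction n with
    | zero =>
      rintro x t a b ⟨u, d, e⟩ ⟨w, f, i⟩
      exact (i (((far x _ (McC_cd x t) a (by simpa using b)).iff d f).1 e)).elim
    | succ n ih =>
      intro x t a b d e
      have c := McC_cd x t
      by_cases m : ∀ s, x * lt t * lt s ≠ x → Mono (hs (x * lt t) (x * lt t * lt s)) P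
      · by_cases f : x * lt t * lt t ∈ P
        · exact McC_root h hP x t m f e
        · obtain ⟨u, i, w, j, k⟩ := McC_root h hP.compl x t (fun s e => (m s e).compl) f
            (by rwa [compl_compl])
          exact ⟨w, by rwa [compl_compl] at j, u, i, k.symm⟩
      · obtain ⟨s, m⟩ := not_forall.1 m
        obtain ⟨f, m⟩ := Classical.not_imp.1 m
        have c' := (cd_comm _ _).trans c
        have sub : hs (x * lt t) (x * lt t * lt s) ⊆ hs x (x * lt t) :=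
          hs_sub c (McC_cd _ s) (right_mem_hs c) fun i =>
            f (step_uniq (McC_cd _ s) c' i (right_mem_hs c'))
        have i := hs_cross c a (right_mem_hs c)
        rw [cd_self] at i
        obtain ⟨m₁, m₂⟩ := not_or.1 m
        obtain ⟨u, j, k⟩ := Set.not_subset.1 m₁
        obtain ⟨w, j', k'⟩ := Set.not_subset.1 m₂
        obtain ⟨u', a₁, w', a₂, a₃⟩ := ih (x * lt t) s (fun i => a (sub i))
          (by push_cast at b; omega) ⟨w, j', not_not.1 k'⟩ ⟨u, j, k⟩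
        exact ⟨u', ⟨sub a₁.1, a₁.2⟩, w', ⟨sub a₂.1, a₂.2⟩, a₃⟩
  obtain ⟨t, rfl⟩ := cd_one_iff.1 c
  exact key r.toNat o t (left_notMem_hs _ _) (by rw [cd_self]; omega)

theorem oec_bx (h : OEc W) : Bx W := by
  refine ⟨fun U => McC_bond h, fun A a b => ?_⟩
  by_contra n
  obtain ⟨n₁, n₂⟩ := not_or.1 n
  refine McC_A h a (Set.nonempty_iff_ne_empty.2 n₁) (Set.nonempty_compl.2 n₂) 1 fun s => ?_
  by_contra m
  obtain ⟨m₁, m₂⟩ := not_or.1 m
  obtain ⟨u, j, k⟩ := Set.not_subset.1 m₁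
  obtain ⟨w, j', k'⟩ := Set.not_subset.1 m₂
  obtain ⟨x, c, y, d, e⟩ := McC_bond h ⟨_, _, McC_cd 1 s, rfl⟩ A b ⟨w, j', not_not.1 k'⟩ ⟨u, j, k⟩
  exact d.2 ((sat_iff.1 a x y e).1 c.2)

end Pool.Agent.Work.MP_3bdf32_al
end

-- merged part: Pool.Agent.Work.MP_3bdf32_al.NoEx
section
/-! Existence of the certificate for subgroups that are not fixed. -/

namespace Pool.Agent.Work.MP_3bdf32_al

set_option linter.unusedSectionVars false
set_option linter.unusedVariables false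

open Subgroup MulAction Filter
open scoped Pointwise

variable {X : Type} [Fintype X] [DecidableEq X] {W : List (FreeGroup X)}
  {Z Z' Y : Subgroup (FreeGroup X)} {A A' B C C' U : Set (FreeGroup X)} {g x y : FreeGroup X}
  {τ σ : Subgroup (FreeGroup X) → Set (FreeGroup X) → FreeGroup X} {T : MulAut (FreeGroup X)}

theorem NoEx_au_set {G : Type} [Group G] {H : Subgroup G} (φ : StabH H) (C : Set G) :
    au H φ • C = φ.1 • C := by
  ext x
  simp only [Set.mem_smul_set, au_smul, MulAut.smul_def]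

theorem NoEx_mem_au {G : Type} [Group G] {H Z : Subgroup G} (φ : StabH H) {x : G} :
    φ.1 x ∈ au H φ • Z ↔ x ∈ Z := by
  rw [← lin_au]
  exact lin_mem

theorem NoEx_au_sub {G : Type} [Group G] {H Z : Subgroup G} (φ : StabH H)
    (h : ∀ z ∈ Z, φ.1 z = z) : au H φ • Z = Z := by
  ext x
  obtain ⟨y, rfl⟩ := φ.1.surjective x
  rw [NoEx_mem_au]
  refine ⟨fun a => by rwa [h y a], fun a => ?_⟩
  rwa [φ.1.injective (h _ a)] at a

theorem NoEx_pull_pull {G : Type} [Group G] {H : Subgroup G} (a b : StabH H)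
    (τ : Subgroup G → Set G → G) : pull a (pull b τ) = pull (a * b) τ := by
  funext Z C
  simp only [pull, map_mul, mul_inv_rev, mul_smul, Subgroup.coe_mul, MulAut.mul_apply]

theorem NoEx_pull_fix {G : Type} [Group G] {H Z : Subgroup G} (φ : StabH H) {C : Set G}
    (τ : Subgroup G → Set G → G) (hZ : au H φ • Z = Z) (hC : au H φ • C = C) :
    pull φ τ Z C = φ.1 (τ Z C) := by
  rw [pull, inv_smul_eq_iff.2 hZ.symm, inv_smul_eq_iff.2 hC.symm]

theorem pow_tw (hb : Bx W) (θ : StabH (cl W)) (p : Par (cl W) σ) (h : Tw (cl W) (UU (cl W)) σ T)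
    (M : ℕ) : ∃ σ' T', Par (cl W) σ' ∧ Tw (cl W) (UU (cl W)) σ' T' ∧ (θ.1 * T) ^ M = θ.1 ^ M * T' ∧
      ∀ Z ∈ UU (cl W), ∀ C, IsAt (cl W) Z C → (∀ z ∈ Z, θ.1 (T z) = z) →
        (θ.1 * T) • C = C → σ' Z C = σ Z C ^ M := by
  have hN := fam_uu hb
  induction M with
  | zero => exact ⟨_, 1, par_one, tw_one hb hN, by simp, fun Z _ C _ _ _ => by simp⟩
  | succ M ih =>
    obtain ⟨σ', T', p', h', e, k⟩ := ih
    refine ⟨_, _, (p'.pull θ⁻¹).mul p, tw_mul hb hN (p'.pull θ⁻¹) p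
      (tw_conj hb hN h' θ⁻¹ (pres_uu _)) h, ?_, fun Z hZ C hC a b => ?_⟩
    · rw [pow_succ, e, pow_succ, Subgroup.coe_inv]
      group
    · have e1 : θ⁻¹ = ⟨T, h.stab⟩ * (θ * ⟨T, h.stab⟩)⁻¹ := by group
      have hZ' : au (cl W) (θ * ⟨T, h.stab⟩) • Z = Z := NoEx_au_sub _ a
      have hC' : au (cl W) (θ * ⟨T, h.stab⟩) • C = C := by
        rw [NoEx_au_set]
        exact b
      have e2 : pull θ⁻¹ σ' Z C = σ' Z C := by
        rw [e1, ← NoEx_pull_pull, tw_pull hb hN p h (p'.pull _) hZ hC, NoEx_pull_fix _ _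
          (by rw [map_inv, inv_smul_eq_iff, hZ']) (by rw [map_inv, inv_smul_eq_iff, hC'])]
        have := a _ (p'.mem Z C)
        rw [Subgroup.coe_inv, MulAut.inv_apply, MulEquiv.symm_apply_eq]
        exact this.symm
      beta_reduce
      rw [e2, k Z hZ C hC a b, pow_succ]

theorem NoEx_int {a b B M : ℤ} {i j : ℕ} (hM : 0 < M) (ha : |a| < B) (hb : |b| < B) :
    a + (i + 1) * B * 2 * M ≠ -(b + (j + 1) * B * 2 * M) ∧
      (a + (i + 1) * B * 2 * M = b + (j + 1) * B * 2 * M → i = j) := by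
  have a1 := abs_lt.1 ha
  have b1 := abs_lt.1 hb
  have hB : 0 < B := by omega
  have hBM : B ≤ B * M := by nlinarith
  have hi : (0 : ℤ) ≤ i * (B * M) := by positivity
  have hj : (0 : ℤ) ≤ j * (B * M) := by positivity
  refine ⟨fun e => by nlinarith, fun e => ?_⟩
  rcases lt_trichotomy i j with c | c | c
  · have : (i : ℤ) + 1 ≤ j := by exact_mod_cast c
    nlinarith
  · exact c
  · have : (j : ℤ) + 1 ≤ i := by exact_mod_cast c
    nlinarith

theorem NoEx_gen {H : Subgroup (FreeGroup X)} {z : FreeGroup X} (e : zpowers z = Z)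
    (k : FreeGroup X) : zpowers (k * z * k⁻¹) = tl H k • Z := by
  ext x
  rw [mem_tl_sub, ← e, mem_zpowers_iff, mem_zpowers_iff]
  refine exists_congr fun n => ?_
  rw [conj_zpow]
  constructor
  · rintro rfl
    group
  · intro a
    rw [a]
    group

theorem NoEx_zpow_inj {y : FreeGroup X} (h : y ≠ 1) {a b : ℤ} (e : y ^ a = y ^ b) : a = b := by
  by_contra c
  refine h (zpow_eq_one (sub_ne_zero.2 c) ?_)
  rw [zpow_sub, e, mul_inv_cancel]

/-- an automorphism preserving an axis fixes or inverts it -/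
theorem NoEx_pm (hZ : Ax Z) (φ : StabH (cl W)) (e : au (cl W) φ • Z = Z) :
    (∀ y ∈ Z, φ.1 y = y) ∨ ∀ y ∈ Z, φ.1 y = y⁻¹ := by
  obtain ⟨z, h1, h2, -⟩ := hZ.gen
  have h3 : zpowers z = zpowers (φ.1 z) := by
    rw [h2, ← e]
    ext x
    obtain ⟨y, rfl⟩ := φ.1.surjective x
    rw [NoEx_mem_au, ← h2, mem_zpowers_iff, mem_zpowers_iff]
    refine exists_congr fun n => ?_
    rw [← map_zpow, φ.1.injective.eq_iff]
  rw [← h2]
  refine (gen_eq h1 h3).imp (fun a => ?_) fun a => ?_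
  · rintro _ ⟨n, rfl⟩
    simp only [map_zpow, a]
  · rintro _ ⟨n, rfl⟩
    simp only [map_zpow, a, inv_zpow]

/-- an automorphism inverting one labelled axis inverts the basic twist -/
theorem NoEx_inv (hb : Bx W) (φ : StabH (cl W)) (hZ : Z ∈ UU (cl W)) (e : g ∈ Z)
    (h : Tw (cl W) (UU (cl W)) (bp (cl W) Z g C) T) (k : FreeGroup X)
    (h1 : au (cl W) φ • tl (cl W) k • Z = tl (cl W) k • Z)
    (h2 : au (cl W) φ • tl (cl W) k • C = tl (cl W) k • C)
    (h3 : ∀ y ∈ tl (cl W) k • Z, φ.1 y = y⁻¹) : φ.1 * T = T⁻¹ * φ.1 := by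
  have hN := fam_uu hb
  have p := par_bp (W := W) (hN.sp Z hZ).1 e C
  have := tw_uniq hb hN (tw_conj hb hN h φ (pres_uu _)) (tw_zpow hb hN p h (-1)) ?_
  · rw [zpow_neg_one] at this
    rw [← this]
    group
  intro Z' _ C' _
  beta_reduce
  by_cases c : ∃ k', tl (cl W) k' • tl (cl W) k • Z = Z' ∧ tl (cl W) k' • tl (cl W) k • C = C'
  · obtain ⟨k', rfl, rfl⟩ := c
    rw [(p.pull φ).equi, p.equi k', NoEx_pull_fix φ _ h1 h2, h3 _ (p.mem _ _)]
    group
  · have n1 : bp (cl W) Z g C Z' C' = 1 := bp_of_not fun k' a b => c ⟨k' * k⁻¹, by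
      rw [← mul_smul, ← map_mul, inv_mul_cancel_right, a], by
      rw [← mul_smul, ← map_mul, inv_mul_cancel_right, tl_set, b]⟩
    have n2 : bp (cl W) Z g C ((au (cl W) φ)⁻¹ • Z') ((au (cl W) φ)⁻¹ • C') = 1 :=
      bp_of_not fun k' a b => c ⟨lin (cl W) (au (cl W) φ) (k' * k⁻¹), by
        rw [← h1, ← smul_tl, ← mul_smul (tl (cl W) _), ← map_mul, inv_mul_cancel_right, a,
          smul_inv_smul], by
        rw [← h2, ← smul_tl, ← mul_smul (tl (cl W) _), ← map_mul, inv_mul_cancel_right, tl_set, b,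
          smul_inv_smul]⟩
    rw [pull, n1, n2, map_one, one_zpow]

/-- after a generic twist, every basic twist fixes a new fixed point or is inverted -/
theorem generic (hb : Bx W) (hH : NA (cl W)) (θ : StabH (cl W)) : ∃ τ T, Par (cl W) τ ∧
    Tw (cl W) (UU (cl W)) τ T ∧ ∀ g ∈ LS (cl W), θ.1 (T (T g)) = g →
      ∀ Z ∈ UU (cl W), ∀ z ∈ Z, ∀ C, IsAt (cl W) Z C → ∀ t,
        Tw (cl W) (UU (cl W)) (bp (cl W) Z z C) t → t g = g ∨ θ.1 * T * T * t = t⁻¹ * (θ.1 * T * T) := by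
  have hN := fam_uu hb
  obtain ⟨M, hM, τ₀, T₀, p₀, h₀, e₀⟩ := struct_pow hb hH θ
  obtain ⟨n, Zs, zs, Cs, ts, a1, a2, -, -, a5⟩ := tw_gen hb hN
  have ex : ∀ ρ, Par (cl W) ρ → ∀ j, ∃ m : ℤ, ρ (Zs j) (Cs j) = zs j ^ m := fun ρ pρ j => by
    have := pρ.mem (Zs j) (Cs j)
    rw [← (a1 j).2.1] at this
    obtain ⟨m, hm⟩ := mem_zpowers_iff.1 this
    refine ⟨m, ?_⟩
    rw [hm, (a1 j).2.1]
  choose m₀ hm₀ using ex τ₀ p₀
  obtain ⟨B, hB⟩ : ∃ B : ℤ, ∀ j, |m₀ j| < B := ⟨∑ j, |m₀ j| + 1, fun j =>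
    Int.lt_add_one_iff.2 (Finset.single_le_sum (f := fun j => |m₀ j|) (fun _ _ => abs_nonneg _)
      (Finset.mem_univ j))⟩
  obtain ⟨τ, p, hτ⟩ := a5 fun j => ((j : ℕ) + 1) * B
  obtain ⟨T, h⟩ := tw_ex hb hN p
  refine ⟨τ, T, p, h, fun g hg e Z hZ z hz C hC t ht => ?_⟩
  have h2 := tw_mul hb hN p p h h
  obtain ⟨σ', T', p', h', e', k'⟩ := pow_tw hb θ (p.mul p) h2 M
  set φ : StabH (cl W) := θ * ⟨T * T, h2.stab⟩ with hφ
  have eφ : φ.1 g = g := e
  have fx : (T₀ * T') g = g := by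
    rw [MulAut.mul_apply, ← e₀ _ (LS_au h'.stab hg), ← MulAut.mul_apply, ← e']
    clear e' k' e₀ hM
    induction M with
    | zero => rfl
    | succ M ih =>
      rw [pow_succ, MulAut.mul_apply]
      exact (congrArg _ e).trans ih
  have fx' := (tw_fix_iff hb hN (p₀.mul p') (tw_mul hb hN p₀ p' h₀ h')).1 fx
  have at1 : ∀ Y, au (cl W) φ • Y = Y → au (cl W) φ • atom (cl W) Y 1 = atom (cl W) Y 1 :=
    fun Y a => by rw [atom_smul, a, au_smul, map_one]
  have at2 : ∀ Y, au (cl W) φ • Y = Y → au (cl W) φ • atom (cl W) Y g = atom (cl W) Y g :=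
    fun Y a => by rw [atom_smul, a, au_smul, eφ]
  have claim : ∀ Y ∈ UU (cl W), (∀ y ∈ Y, φ.1 y = y) → ∀ ρ, Par (cl W) ρ →
      ρ Y (atom (cl W) Y 1) = ρ Y (atom (cl W) Y g) := by
    intro Y hY f ρ pρ
    have hφY := NoEx_au_sub φ f
    have val : ∀ x, au (cl W) φ • atom (cl W) Y x = atom (cl W) Y x → ∃ (j : Fin n) (y : FreeGroup X),
        zpowers y = Y ∧ (∀ ρ' (m : ℤ), Par (cl W) ρ' → ρ' (Zs j) (Cs j) = zs j ^ m →
          ρ' Y (atom (cl W) Y x) = y ^ m) ∧ τ₀ Y (atom (cl W) Y x) * σ' Y (atom (cl W) Y x) =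
            y ^ (m₀ j + ((j : ℕ) + 1) * B * 2 * M) := by
      intro x hx
      obtain ⟨j, ⟨k, b1, b2⟩, -⟩ := a2 Y hY _ ⟨x, rfl⟩
      have v : ∀ ρ' (m : ℤ), Par (cl W) ρ' → ρ' (Zs j) (Cs j) = zs j ^ m →
          ρ' Y (atom (cl W) Y x) = (k * zs j * k⁻¹) ^ m := fun ρ' m q r => by
        rw [conj_zpow, ← r, ← q.equi, b1, tl_set, b2]
      refine ⟨j, k * zs j * k⁻¹, by rw [NoEx_gen (H := cl W) (a1 j).2.1, b1], v, ?_⟩
      rw [k' Y hY _ ⟨x, rfl⟩ f ((NoEx_au_set φ _).symm.trans hx), v τ₀ _ p₀ (hm₀ j),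
        v τ _ p (hτ j)]
      rw [← zpow_add, ← zpow_natCast, ← zpow_mul, ← zpow_add]
      congr 1
      ring
    obtain ⟨j₁, y₁, g₁, v₁, w₁⟩ := val 1 (at1 Y hφY)
    obtain ⟨j₂, y₂, g₂, v₂, w₂⟩ := val g (at2 Y hφY)
    have ne : y₁ ≠ 1 := by
      obtain ⟨u, u1, u2, -⟩ := (hN.sp Y hY).1.gen
      rintro rfl
      have : u ∈ zpowers (1 : FreeGroup X) := by
        rw [g₁, ← u2]
        exact mem_zpowers u
      simp [u1] at this
    have w := (w₁.symm.trans (fx' Y hY)).trans w₂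
    have int := NoEx_int (i := j₁) (j := j₂) (Int.natCast_pos.2 hM) (hB j₁) (hB j₂)
    rcases gen_eq ne (g₁.trans g₂.symm) with rfl | rfl
    · obtain rfl : j₁ = j₂ := Fin.ext (int.2 (NoEx_zpow_inj ne w))
      obtain ⟨m, hm⟩ := ex ρ pρ j₁
      rw [v₁ ρ m pρ hm, v₂ ρ m pρ hm]
    · rw [inv_zpow'] at w
      exact (int.1 (NoEx_zpow_inj ne w)).elim
  have pb := par_bp (W := W) (hN.sp Z hZ).1 hz C
  by_cases c : ∃ k, au (cl W) φ • tl (cl W) k • Z = tl (cl W) k • Z ∧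
      au (cl W) φ • tl (cl W) k • C = tl (cl W) k • C ∧ ∀ y ∈ tl (cl W) k • Z, φ.1 y = y⁻¹
  · obtain ⟨k, c1, c2, c3⟩ := c
    right
    rw [mul_assoc θ.1 T T]
    exact NoEx_inv hb φ hZ hz ht k c1 c2 c3
  · refine Or.inl ((tw_fix_iff hb hN pb ht).2 fun Y hY => ?_)
    by_cases s : Eqv (cl W) Y 1 g
    · rw [atom_eq_iff.2 s]
    have hφY := fix_path hb hN φ (pres_uu _) eφ hY s
    rcases NoEx_pm (hN.sp Y hY).1 φ hφY with f | f
    · exact claim Y hY f _ pb
    · have v : ∀ D, au (cl W) φ • D = D → bp (cl W) Z z C Y D = 1 := fun D hD =>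
        bp_of_not fun k b1 b2 => c ⟨k, by rw [b1, hφY], by rw [tl_set, b2, hD], by rwa [b1]⟩
      rw [v _ (at1 Y hφY), v _ (at2 Y hφY)]

theorem NoEx_sq {Γ : Type} [Group Γ] (A : Subgroup Γ) (hA : A.FG)
    (hc : ∀ a ∈ A, ∀ b ∈ A, a * b = b * a) :
    ∃ S : List A, ∀ a ∈ A, ∃ s ∈ S, ∃ u ∈ A, a = s * u * u := by
  letI : CommGroup A :=
    { (inferInstance : Group A) with mul_comm := fun a b => Subtype.ext (hc _ a.2 _ b.2) }
  haveI := (Group.fg_iff_subgroup_fg A).2 hA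
  haveI := Subgroup.finiteIndex_range_powMonoidHom_of_fg A (n := 2) two_ne_zero
  haveI := Fintype.ofFinite (A ⧸ (powMonoidHom (α := A) 2).range)
  refine ⟨(Finset.univ : Finset (A ⧸ (powMonoidHom (α := A) 2).range)).toList.map Quotient.out,
    fun a ha => ?_⟩
  obtain ⟨⟨_, u, rfl⟩, e⟩ := QuotientGroup.mk_out_eq_mul (powMonoidHom (α := A) 2).range ⟨a, ha⟩
  refine ⟨_, List.mem_map.2 ⟨QuotientGroup.mk ⟨a, ha⟩, by simp, rfl⟩, u⁻¹, A.inv_mem u.2, ?_⟩
  rw [e]
  simp only [powMonoidHom_apply, Subgroup.coe_mul, Subgroup.coe_pow]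
  group

theorem no_ex_na (hb : Bx W) (hH : NA (cl W)) (h : ¬ Fixed W) : NoC W := by
  have hN := fam_uu hb
  obtain ⟨Y, hY⟩ := mcc_ex W
  obtain ⟨J, hJ⟩ := L_fg hb
  obtain ⟨Θ₀, hΘ⟩ := struct1 hb hH
  obtain ⟨n, Zs, zs, Cs, t, a1, -, a3, a4, -⟩ := tw_gen hb hN
  have eA : cl (List.ofFn t) = Subgroup.closure (Set.range t) := by
    unfold cl
    congr 1
    ext x
    simp [List.mem_ofFn]
  rw [← eA] at a3 a4
  have hAs : cl (List.ofFn t) ≤ StabH (cl W) := fun a ha =>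
    let ⟨_, _, k⟩ := a4 a ha; k.stab
  have hc : ∀ a ∈ cl (List.ofFn t), ∀ b ∈ cl (List.ofFn t), a * b = b * a := fun a ha b hb' =>
    let ⟨_, p, k⟩ := a4 a ha; let ⟨_, p', k'⟩ := a4 b hb'; tw_comm hb hN p p' k k'
  obtain ⟨S, hS⟩ := NoEx_sq (cl (List.ofFn t)) (by
    rw [eA]
    exact (Subgroup.fg_iff _).2 ⟨_, rfl, Set.finite_range t⟩) hc
  have key : ∀ α : StabH (cl W), ∃ p : MulAut (FreeGroup X) × FreeGroup X,
      (∃ T ∈ cl (List.ofFn t), p.1 = α.1 * T * T) ∧ p.1 ∈ StabH (cl W) ∧ p.2 ∈ cl J ∧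
      p.2 ∉ cl W ∧ p.1 p.2 = p.2 ∧ ∀ j, t j p.2 = p.2 ∨ p.1 * t j = (t j)⁻¹ * p.1 := by
    intro α
    obtain ⟨τ, T, p, k, f⟩ := generic hb hH α
    have st : α.1 * T * T ∈ StabH (cl W) := mul_mem (mul_mem α.2 k.stab) k.stab
    obtain ⟨ψ, s1, s2⟩ := fix_L hb st
    obtain ⟨g, hg⟩ : ∃ g, ¬ (g ∈ cl W ↔ ψ g = g) := not_forall.1 fun e => h ⟨ψ, e⟩
    have g1 : g ∉ cl W := fun m => hg (iff_of_true m (s1 g m))
    have g2 : ψ g = g := by
      by_contra m
      exact hg (iff_of_false g1 m)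
    obtain ⟨g3, g4⟩ := (s2 g).1 g2
    exact ⟨(α.1 * T * T, g), ⟨T, a3 τ T p k, rfl⟩, st, hJ ▸ g4, g1, g3, fun j =>
      f g g4 g3 (Zs j) (a1 j).1 (zs j) ((a1 j).2.1 ▸ mem_zpowers _) (Cs j) (a1 j).2.2.1 (t j)
        (a1 j).2.2.2⟩
  choose P hP using key
  have cover : ∀ α ∈ StabH (cl W), ∃ p ∈ (Θ₀.toList ×ˢ S).map fun q =>
      P (q.1 * ⟨q.2.1, hAs q.2.2⟩), ∃ σ ∈ cl (List.ofFn t), EqL J α (p.1 * σ * σ) := by
    intro α hα
    obtain ⟨θ, h1, τ, T₁, p, k, f⟩ := hΘ ⟨α, hα⟩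
    obtain ⟨s, h2, u, h3, rfl⟩ := hS T₁ (a3 τ T₁ p k)
    obtain ⟨⟨T, h4, e⟩, -⟩ := hP (θ * ⟨s.1, hAs s.2⟩)
    refine ⟨_, List.mem_map.2 ⟨(θ, s), List.pair_mem_product.2 ⟨Finset.mem_toList.2 h1, h2⟩, rfl⟩,
      T⁻¹ * u, mul_mem (inv_mem h4) h3, fun x hx => ?_⟩
    have e2 : θ.1 * s.1 * T * T * (T⁻¹ * u) * (T⁻¹ * u) = θ.1 * (s.1 * u * u) := by
      have := hc T h4 u h3
      calc _ = θ.1 * s.1 * (T * u) * (T⁻¹ * u) := by group
        _ = _ := by
          rw [this]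
          group
    rw [e, Subgroup.coe_mul, e2]
    exact f x (hJ ▸ mem_cl hx)
  have hYs : ∀ y ∈ Y, y ∈ StabH (cl W) := fun y hy => stabH_cl.2 (hY.1 y hy)
  refine ⟨Y, J, List.ofFn t, (Θ₀.toList ×ˢ S).map fun q => P (q.1 * ⟨q.2.1, hAs q.2.2⟩), hY,
    fun y hy x hx => ?_, fun a ha => ⟨stabH_cl.1 (hAs (mem_cl ha)), fun b hb' x _ => ?_⟩, ?_, ?_⟩
  · have m : x ∈ LS (cl W) := hJ ▸ mem_cl hx
    rw [hJ]
    exact ⟨LS_au (hYs y hy) m, LS_au (inv_mem (hYs y hy)) m⟩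
  · rw [hc a (mem_cl ha) b (mem_cl hb')]
  · obtain ⟨p, h1, σ, h2, e⟩ := cover 1 (one_mem _)
    exact ⟨p, h1, σ, h2, fun x hx => (e x hx).symm⟩
  · intro p hp
    obtain ⟨q, -, rfl⟩ := List.mem_map.1 hp
    obtain ⟨-, b1, b2, b3, b4, b5⟩ := hP (q.1 * ⟨q.2.1, hAs q.2.2⟩)
    refine ⟨stabH_cl.1 b1, b2, b3, b4, fun a ha => ?_, fun y hy =>
      ⟨cover _ (mul_mem (hYs y hy) b1), cover _ (mul_mem (inv_mem (hYs y hy)) b1)⟩⟩
    obtain ⟨j, rfl⟩ := List.mem_ofFn.1 ha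
    exact (b5 j).imp id fun e x _ => by rw [e]

end Pool.Agent.Work.MP_3bdf32_al
end
end

-- merged part: Pool.Agent.Work.MP_3bdf32_al.Main
section
-- merged part: Pool.Agent.Work.MP_3bdf32_al.TS2
section
/-! The certificate for splittings: the twist, and existence. -/

namespace Pool.Agent.Work.MP_3bdf32_al

set_option linter.unusedSectionVars false
set_option linter.unusedVariables false

open Subgroup MulAction Filter
open scoped Pointwise

variable {X : Type} [Fintype X] [DecidableEq X] {W : List (FreeGroup X)}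
  {z d g : FreeGroup X} {ρ : X → List (FreeGroup X × Bool)} {T : MulAut (FreeGroup X)}

open Classical in
/-- the label of a side: the coset of `k` on the side `k • A` of the axis `k • cen z` -/
noncomputable def TS2_lab (W : List (FreeGroup X)) (z : FreeGroup X) (A : Set (FreeGroup X))
    (Y : Subgroup (FreeGroup X)) (C : Set (FreeGroup X)) : Kz z :=
  if h : ∃ k, tl (cl W) k • cen z = Y ∧ tl (cl W) k • A = C then
    FreeGroup.of ((h.choose : FreeGroup X) : _ ⧸ zpowers z) else 1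

/-- the word in the free group on the cosets -/
def TS2_wd (z : FreeGroup X) (l : List (FreeGroup X × Bool)) : Kz z :=
  (l.map fun p => if p.2 then FreeGroup.of (p.1 : _ ⧸ zpowers z)
      else (FreeGroup.of (p.1 : _ ⧸ zpowers z))⁻¹).prod

theorem TS2_wd_true (l : List (FreeGroup X × Bool)) (k : FreeGroup X) :
    TS2_wd z (l ++ [(k, true)]) = TS2_wd z l * FreeGroup.of (k : _ ⧸ zpowers z) := by
  simp [TS2_wd]

theorem TS2_wd_false (l : List (FreeGroup X × Bool)) (k : FreeGroup X) :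
    TS2_wd z (l ++ [(k, false)]) = TS2_wd z l * (FreeGroup.of (k : _ ⧸ zpowers z))⁻¹ := by
  simp [TS2_wd]

theorem TS2_sz_lab (A : Set (FreeGroup X)) :
    (fun Y C => sz z (TS2_lab W z A Y C)) = bp (cl W) (cen z) z A := by
  funext Y C
  unfold TS2_lab bp
  split_ifs with h
  · exact sz_of _ _
  · exact map_one _

theorem TS2_tl_eq (n : z ≠ 1) {j k : FreeGroup X} :
    tl (cl W) j • cen z = tl (cl W) k • cen z ↔ j⁻¹ * k ∈ cen z := by
  rw [← (ax_cen n).norm (H := cl W), map_mul, map_inv, mul_smul, inv_smul_eq_iff, eq_comm]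

theorem TS2_quot (n : z ≠ 1) (hz : zpowers z = cen z) {j k : FreeGroup X} :
    tl (cl W) j • cen z = tl (cl W) k • cen z ↔ (j : _ ⧸ zpowers z) = k := by
  rw [TS2_tl_eq n, QuotientGroup.eq, hz]

variable {A : Set (FreeGroup X)}

theorem TS2_fix (hz : zpowers z = cen z) (i : z • A = A) {c : FreeGroup X} (hc : c ∈ cen z) :
    c • A = A := by
  rw [← hz] at hc
  have : zpowers z ≤ stabilizer (FreeGroup X) A := zpowers_le_of_mem i
  exact this hc

theorem TS2_side_eq (n : z ≠ 1) (hz : zpowers z = cen z) (i : z • A = A) {j k : FreeGroup X}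
    (e : tl (cl W) j • cen z = tl (cl W) k • cen z) : j • A = k • A := by
  have := TS2_fix hz i ((TS2_tl_eq n).1 e)
  rw [mul_smul, inv_smul_eq_iff] at this
  exact this.symm

theorem TS2_lab_smul (n : z ≠ 1) (hz : zpowers z = cen z) (k : FreeGroup X) :
    TS2_lab W z A (tl (cl W) k • cen z) (k • A) = FreeGroup.of (k : _ ⧸ zpowers z) := by
  have h : ∃ j, tl (cl W) j • cen z = tl (cl W) k • cen z ∧ tl (cl W) j • A = k • A :=
    ⟨k, rfl, rfl⟩
  unfold TS2_lab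
  rw [dif_pos h, (TS2_quot n hz).1 h.choose_spec.1]

theorem TS2_ne (a : A.Nonempty) (k : FreeGroup X) : k • A ≠ k • Aᶜ := by
  intro e
  obtain ⟨x, hx⟩ := a
  have := smul_left_cancel k e
  exact (this ▸ hx : x ∈ Aᶜ) hx

theorem TS2_lab_compl (n : z ≠ 1) (hz : zpowers z = cen z) (i : z • A = A) (a : A.Nonempty)
    (k : FreeGroup X) : TS2_lab W z A (tl (cl W) k • cen z) (k • Aᶜ) = 1 := by
  unfold TS2_lab
  rw [dif_neg]
  rintro ⟨j, e, f⟩
  rw [tl_set, TS2_side_eq n hz i e] at f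
  exact TS2_ne a k f

theorem TS2_ac_of (k j : FreeGroup X) : ac z k (FreeGroup.of (j : _ ⧸ zpowers z)) =
    FreeGroup.of ((k * j : FreeGroup X) : _ ⧸ zpowers z) := by
  simp [ac]

theorem TS2_at (t : Two (cl W) (cen z) A) {k : FreeGroup X} {C : Set (FreeGroup X)} :
    IsAt (cl W) (tl (cl W) k • cen z) C ↔ C = k • A ∨ C = k • Aᶜ := by
  rw [(t.smul' k).isAt, smul_compl']

theorem TS2_equi (n : z ≠ 1) (hz : zpowers z = cen z) (t : Two (cl W) (cen z) A) (i : z • A = A)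
    (k : FreeGroup X) : ∀ Y ∈ orb (cl W) (cen z), ∀ C, IsAt (cl W) Y C →
      TS2_lab W z A (tl (cl W) k • Y) (k • C) = ac z k (TS2_lab W z A Y C) := by
  rintro _ ⟨j, rfl⟩ C hC
  rcases (TS2_at t).1 hC with rfl | rfl
  · rw [← mul_smul, ← map_mul, ← mul_smul, TS2_lab_smul n hz, TS2_lab_smul n hz, TS2_ac_of]
  · rw [← mul_smul, ← map_mul, ← mul_smul, TS2_lab_compl n hz i t.2.1,
      TS2_lab_compl n hz i t.2.1, map_one]

variable {ψ : Ori (FreeGroup X) → Kz z}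

theorem TS2_edge (hb : Bx W) (n : z ≠ 1) (hz : zpowers z = cen z) (s : Simp (cl W) (cen z))
    (t : Two (cl W) (cen z) A) (i : z • A = A)
    (p : Pot (cl W) (orb (cl W) (cen z)) (TS2_lab W z A) ψ) (k : FreeGroup X) :
    ψ (vz (cl W) (orb (cl W) (cen z)) (tl (cl W) k • cen z) (k • A)) =
      ψ (vz (cl W) (orb (cl W) (cen z)) (tl (cl W) k • cen z) (k • Aᶜ)) *
        FreeGroup.of (k : _ ⧸ zpowers z) := by
  have m : tl (cl W) k • cen z ∈ orb (cl W) (cen z) := ⟨k, rfl⟩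
  have a : IsAt (cl W) (tl (cl W) k • cen z) (k • Aᶜ) := (TS2_at t).2 (.inr rfl)
  rw [p.2 _ _ _ (vz_isV hb s.fam m a) (vz_adj hb s.fam m a) ((TS2_at t).2 (.inl rfl)), vz_self,
    TS2_lab_compl n hz i t.2.1, TS2_lab_smul n hz, inv_one, mul_one]

theorem TS2_vx (s : Simp (cl W) (cen z))
    (v : vx (cl W) (orb (cl W) (cen z)) 1 = vz (cl W) (orb (cl W) (cen z)) (cen z) Aᶜ)
    (k : FreeGroup X) : vx (cl W) (orb (cl W) (cen z)) k =
      vz (cl W) (orb (cl W) (cen z)) (tl (cl W) k • cen z) (k • Aᶜ) := by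
  have := vx_mul s.fam k 1
  rw [mul_one] at this
  rw [← this, v, vz_smul (s.fam.pres k), tl_set]

theorem TS2_coc_one (z : FreeGroup X) (ρ : X → List (FreeGroup X × Bool)) : coc z ρ 1 = 1 := by
  simp [coc]

theorem TS2_coc_of (z : FreeGroup X) (ρ : X → List (FreeGroup X × Bool)) (x : X) :
    coc z ρ (FreeGroup.of x) = TS2_wd z (ρ x) := by
  have : rho ρ (FreeGroup.of x) = wd (ρ x) * io (FreeGroup.of x) := FreeGroup.lift_apply_of
  rw [coc, this, map_mul, PiZ_wd, PiZ_io]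
  simp [TS2_wd]

theorem TS2_cg {u : List (FreeGroup X × Bool)} {k : FreeGroup X} :
    Cg z (rho ρ k) (wd u * io k) ↔ coc z ρ k = TS2_wd z u := by
  rw [cg_iff, map_mul, PiZ_wd, PiZ_io, SemidirectProduct.ext_iff, PiZ_rho_right]
  simp [TS2_wd, coc]

theorem TS2_cg_one {k : FreeGroup X} : Cg z (rho ρ k) (io k) ↔ coc z ρ k = 1 := by
  have := TS2_cg (z := z) (ρ := ρ) (u := []) (k := k)
  simpa [wd, TS2_wd] using this

theorem TS2_coc_eq (hb : Bx W) (n : z ≠ 1) (hz : zpowers z = cen z) (s : Simp (cl W) (cen z))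
    (t : Two (cl W) (cen z) A) (i : z • A = A)
    (p : Pot (cl W) (orb (cl W) (cen z)) (TS2_lab W z A) ψ)
    (e : ∀ x, ψ (vx (cl W) (orb (cl W) (cen z)) (FreeGroup.of x)) = TS2_wd z (ρ x))
    (g : FreeGroup X) : ψ (vx (cl W) (orb (cl W) (cen z)) g) = coc z ρ g := by
  have m : ∀ a b, ψ (vx (cl W) (orb (cl W) (cen z)) (a * b)) =
      ψ (vx (cl W) (orb (cl W) (cen z)) a) * ac z a (ψ (vx (cl W) (orb (cl W) (cen z)) b)) := by
    intro a b
    rw [← vx_mul s.fam]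
    exact pot_equi hb s.fam p (ac z) (TS2_equi n hz t i) (vx_isV hb s.fam b) a
  induction g using FreeGroup.induction_on with
  | C1 => rw [p.1, TS2_coc_one]
  | of x => rw [e, TS2_coc_of]
  | inv_of x ih =>
    have a := m (FreeGroup.of x) (FreeGroup.of x)⁻¹
    have b := coc_mul z ρ (FreeGroup.of x) (FreeGroup.of x)⁻¹
    rw [mul_inv_cancel, p.1, ih] at a
    rw [mul_inv_cancel, TS2_coc_one] at b
    exact (ac z (FreeGroup.of x)).injective (mul_left_cancel (a.symm.trans b))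
  | mul a b ha hb => rw [m, coc_mul, ha, hb]

theorem TS2_piz (z : FreeGroup X) (ρ : X → List (FreeGroup X × Bool)) (g : FreeGroup X) :
    piz z (rho ρ g) = sz z (coc z ρ g) * g := by
  rw [piz_eq, PiZ_rho_right, coc]

theorem TS2_coc_cen (hz : zpowers z = cen z) (h : TS W z ρ) {c : FreeGroup X} (hc : c ∈ cen z) :
    coc z ρ c = 1 := by
  rw [← hz, zpowers_eq_closure] at hc
  induction hc using closure_induction with
  | mem x hx => rw [hx]; exact TS2_cg_one.1 h.1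
  | one => exact TS2_coc_one z ρ
  | mul x y _ _ hx hy => rw [coc_mul, hx, hy, map_one, mul_one]
  | inv x _ hx =>
    have b := coc_mul z ρ x x⁻¹
    rw [mul_inv_cancel, TS2_coc_one, hx, one_mul] at b
    exact (ac z x).injective (b.symm.trans (map_one _).symm)

theorem TS2_cd {Y : Type} [DecidableEq Y] (u : FreeGroup Y) (a : Y) :
    cd u (u * FreeGroup.of a) = 1 := cd_one_iff.2 ⟨(a, true), by rw [lt_true]⟩

theorem TS2_label {Y : Type} [DecidableEq Y] (u v : FreeGroup Y) {a b : Y} (e : a ≠ b) :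
    v ∈ hs u (u * FreeGroup.of a) ↔ v * FreeGroup.of b ∈ hs u (u * FreeGroup.of a) := by
  have hU : HT (hs u (u * FreeGroup.of a)) := ⟨_, _, TS2_cd u a, rfl⟩
  constructor
  · intro c
    by_contra f
    have c1 : cd (v * FreeGroup.of b) v = 1 := by rw [cd_comm]; exact TS2_cd v b
    obtain ⟨e1, e2⟩ := hs_inj (TS2_cd u a) c1 (hU.edge c1 f c)
    have : lt (a, true) = lt (b, false) := by
      have := lt_inv (b, true)
      rw [lt_true] at this ⊢
      rw [e1, mul_assoc, mul_eq_left] at e2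
      rw [eq_inv_of_mul_eq_one_right e2]
      exact this
    simpa using lt_inj this
  · intro c
    by_contra f
    obtain ⟨e1, e2⟩ := hs_inj (TS2_cd u a) (TS2_cd v b) (hU.edge (TS2_cd v b) f c)
    rw [e1] at e2
    exact e (FreeGroup.of_injective (mul_left_cancel e2))

open Classical in
/-- the vertex `V` is described by the point `u` of the Cayley tree of the cosets -/
def TS2_R (W : List (FreeGroup X)) (z : FreeGroup X) (ρ : X → List (FreeGroup X × Bool))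
    (u : Kz z) (V : Ori (FreeGroup X)) : Prop :=
  IsV (cl W) (orb (cl W) (cen z)) V ∧ ∀ j : FreeGroup X,
    (V.s (tl (cl W) j • cen z) = j • {g | InA z ρ g} ↔
      u ∈ hs (coc z ρ j) (coc z ρ j * FreeGroup.of (j : _ ⧸ zpowers z)))

theorem TS2_R_uniq (t : Two (cl W) (cen z) {g | InA z ρ g}) {u : Kz z} {V V' : Ori (FreeGroup X)}
    (r : TS2_R W z ρ u V) (r' : TS2_R W z ρ u V') : V = V' := by
  ext Y : 2
  by_cases m : Y ∈ orb (cl W) (cen z)
  · have a := r.1.isAt Y m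
    have b := r'.1.isAt Y m
    obtain ⟨j, rfl⟩ := m
    have c := (r.2 j).trans (r'.2 j).symm
    rcases (TS2_at t).1 a with a | a
    · rw [c.1 a, a]
    · rcases (TS2_at t).1 b with b | b
      · rw [c.2 b, b]
      · rw [a, b]
  · rw [r.1.out Y m, r'.1.out Y m]

theorem TS2_atom (t : Two (cl W) (cen z) A) (j g : FreeGroup X) :
    atom (cl W) (tl (cl W) j • cen z) g = j • A ↔ g ∈ j • A :=
  ⟨fun e => e ▸ mem_atom g, (t.smul' j).atom⟩

theorem TS2_R_vx (hb : Bx W) (hz : zpowers z = cen z) (h : TS W z ρ) (s : Simp (cl W) (cen z))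
    (t : Two (cl W) (cen z) {g | InA z ρ g}) (g : FreeGroup X) :
    TS2_R W z ρ (coc z ρ g) (vx (cl W) (orb (cl W) (cen z)) g) := by
  refine ⟨vx_isV hb s.fam g, fun j => ?_⟩
  rw [vx_of_mem (orb_tl (mem_orb _) j), TS2_atom t, mem_smul']
  exact ts_side hz h j g

theorem TS2_base (hb : Bx W) (n : z ≠ 1) (hz : zpowers z = cen z) (h : TS W z ρ)
    (s : Simp (cl W) (cen z)) (t : Two (cl W) (cen z) {g | InA z ρ g}) :
    vx (cl W) (orb (cl W) (cen z)) 1 =
      vz (cl W) (orb (cl W) (cen z)) (cen z) {g | InA z ρ g}ᶜ := by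
  ext Y : 2
  by_cases e : Y = cen z
  · rw [e, vz_self, vx_of_mem (mem_orb _)]
    refine t.compl.atom fun c => ?_
    have := (inA_iff hz).1 c
    rw [TS2_coc_one] at this
    exact this (map_one _)
  by_cases m : Y ∈ orb (cl W) (cen z)
  · rw [vz_of_mem e m, vx_of_mem m]
    have aY := (s.fam.sp Y m).1
    have hC : IsAt (cl W) Y (atom (cl W) Y 1) := ⟨1, rfl⟩
    refine eq_en hb aY (ax_cen n) e (s.fam.nc _ m _ (mem_orb _)) hC (self_mem_cen z) n ?_
    refine (cut_ev hb aY (hC.cut hb aY)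
      fun c => e (aY.inter (ax_cen n) c (self_mem_cen z) n)).resolve_right fun c => ?_
    obtain ⟨q, hq⟩ := c.ex 1
    obtain ⟨j, rfl⟩ := m
    have w : z ^ q * 1 ∈ j • {g | InA z ρ g} ↔ (1 : FreeGroup X) ∈ j • {g | InA z ρ g} := by
      rw [mem_smul', mem_smul']
      refine (ts_side hz h j _).trans (Iff.trans ?_ (ts_side hz h j _).symm)
      rw [mul_one, TS2_coc_cen hz h (pow_mem (self_mem_cen z) q), TS2_coc_one]
    have o : (1 : FreeGroup X) ∈ atom (cl W) (tl (cl W) j • cen z) 1 := mem_atom 1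
    rcases (TS2_at t).1 hC with f | f
    · rw [f] at o hq
      exact hq (w.2 o)
    · rw [f, smul_compl'] at o hq
      exact hq fun b => o (w.1 b)
  · rw [vz_of_not e m, vx_of_not m]

theorem TS2_R_vz (hb : Bx W) (n : z ≠ 1) (hz : zpowers z = cen z) (h : TS W z ρ)
    (s : Simp (cl W) (cen z)) (t : Two (cl W) (cen z) {g | InA z ρ g}) (k : FreeGroup X) :
    TS2_R W z ρ (coc z ρ k * FreeGroup.of (k : _ ⧸ zpowers z))
      (vz (cl W) (orb (cl W) (cen z)) (tl (cl W) k • cen z) (k • {g | InA z ρ g})) := by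
  refine ⟨vz_isV hb s.fam ⟨k, rfl⟩ ((TS2_at t).2 (.inl rfl)), fun j => ?_⟩
  by_cases e : tl (cl W) j • cen z = tl (cl W) k • cen z
  · have c : coc z ρ k = coc z ρ j := by
      have := coc_mul z ρ j (j⁻¹ * k)
      rwa [mul_inv_cancel_left, TS2_coc_cen hz h ((TS2_tl_eq n).1 e), map_one, mul_one] at this
    rw [e, vz_self, TS2_side_eq n hz (ts_cut hz h).2.1 e, c, (TS2_quot n hz).1 e]
    exact iff_of_true rfl (right_mem_hs (TS2_cd _ _))
  · have r := (TS2_R_vx hb hz h s t k).2 j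
    rw [TS2_vx s (TS2_base hb n hz h s t), vz_of_mem e (orb_tl (mem_orb _) j)] at r
    rw [vz_of_mem e (orb_tl (mem_orb _) j), r]
    exact TS2_label _ _ fun f => e ((TS2_quot n hz).2 f)

theorem TS2_walk (hb : Bx W) (n : z ≠ 1) (hz : zpowers z = cen z) (h : TS W z ρ)
    (s : Simp (cl W) (cen z)) (t : Two (cl W) (cen z) {g | InA z ρ g})
    (p : Pot (cl W) (orb (cl W) (cen z)) (TS2_lab W z {g | InA z ρ g}) ψ)
    (l : List (FreeGroup X × Bool)) (e : ∀ l₁ q l₂, l = l₁ ++ q :: l₂ →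
      coc z ρ q.1 = TS2_wd z (if q.2 then l₁ else l₁ ++ [q])) :
    ∃ V, TS2_R W z ρ (TS2_wd z l) V ∧ ψ V = TS2_wd z l := by
  induction l using List.reverseRecOn with
  | nil =>
    have r := TS2_R_vx hb hz h s t 1
    rw [TS2_coc_one] at r
    exact ⟨_, r, p.1⟩
  | append_singleton l q ih =>
    obtain ⟨V, r, f⟩ := ih fun l₁ q' l₂ c => e l₁ q' (l₂ ++ [q]) (by rw [c]; simp)
    have c := e l q [] rfl
    obtain ⟨k, b⟩ := q
    have ed := TS2_edge hb n hz s t (ts_cut hz h).2.1 p k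
    rw [← TS2_vx s (TS2_base hb n hz h s t)] at ed
    cases b
    · simp only [Bool.false_eq_true, if_false] at c
      refine ⟨_, c ▸ TS2_R_vx hb hz h s t k, ?_⟩
      have c' : TS2_wd z l = coc z ρ k * FreeGroup.of (k : _ ⧸ zpowers z) := by
        rw [c, TS2_wd_false, inv_mul_cancel_right]
      rw [c'] at r
      rw [TS2_R_uniq t r (TS2_R_vz hb n hz h s t k), ed] at f
      rw [TS2_wd_false, ← f, mul_inv_cancel_right]
    · simp only [if_true] at c
      rw [TS2_wd_true, ← c]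
      refine ⟨_, TS2_R_vz hb n hz h s t k, ?_⟩
      rw [← c] at r f
      rw [TS2_R_uniq t r (TS2_R_vx hb hz h s t k)] at f
      rw [ed, f]

theorem ts_cv (hb : Bx W) (n : z ≠ 1) (hz : zpowers z = cen z) (h : TS W z ρ)
    (hT : ∀ x, T (FreeGroup.of x) = piz z (rho ρ (FreeGroup.of x))) (s : Simp (cl W) (cen z))
    (hd : Sp (cl W) (cen d)) (c : OCr (cl W) z d) (a : ∃ g, InA z ρ g) : Cv (cl W) z T := by
  obtain ⟨k, c⟩ := c
  obtain ⟨B, tB, -⟩ := crs_two' hb (ax_cen n) (hd.smul _) c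
  have o : (1 : FreeGroup X) ∈ {g | InA z ρ g}ᶜ := fun c => by
    have := (inA_iff hz).1 c
    rw [TS2_coc_one] at this
    exact this (map_one _)
  have t : Two (cl W) (cen z) {g | InA z ρ g} := by
    rcases tB.eq (ts_cut hz h).1 a ⟨1, o⟩ with e | e <;> rw [e]
    exacts [tB, tB.compl]
  have i := (ts_cut hz h).2.1
  obtain ⟨ψ, p⟩ := ex_pot hb s.fam (TS2_lab W z {g | InA z ρ g})
  have e : ∀ x, ψ (vx (cl W) (orb (cl W) (cen z)) (FreeGroup.of x)) = TS2_wd z (ρ x) := by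
    intro x
    obtain ⟨V, r, f⟩ := TS2_walk hb n hz h s t p (ρ x) fun l₁ q l₂ c =>
      TS2_cg.1 (h.2.2 x l₁ q l₂ c)
    rw [← TS2_coc_of] at r
    rw [← TS2_R_uniq t r (TS2_R_vx hb hz h s t _), f]
  refine ⟨n, hz, s, _, t, i, fun V => sz z (ψ V), TS2_sz_lab (W := W) _ ▸ p.map (sz z), fun g => ?_⟩
  beta_reduce
  rw [TS2_coc_eq hb n hz s t i p e, ← TS2_piz]
  have : (T : FreeGroup X →* FreeGroup X) = (piz z).comp (rho ρ) := FreeGroup.ext_hom _ _ hT
  exact DFunLike.congr_fun this g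

theorem TS2_path (hb : Bx W) (n : z ≠ 1) (hz : zpowers z = cen z) (s : Simp (cl W) (cen z))
    (t : Two (cl W) (cen z) A) (i : z • A = A)
    (v : vx (cl W) (orb (cl W) (cen z)) 1 = vz (cl W) (orb (cl W) (cen z)) (cen z) Aᶜ)
    (p : Pot (cl W) (orb (cl W) (cen z)) (TS2_lab W z A) ψ) (g : FreeGroup X) :
    ∃ l, TS2_wd z l = ψ (vx (cl W) (orb (cl W) (cen z)) g) ∧ ∀ l₁ q l₂, l = l₁ ++ q :: l₂ →
      ψ (vx (cl W) (orb (cl W) (cen z)) q.1) = TS2_wd z (if q.2 then l₁ else l₁ ++ [q]) := by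
  refine path_ind hb s.fam (vx_isV hb s.fam 1) (vx_isV hb s.fam g)
    (fun V => ∃ l, TS2_wd z l = ψ V ∧ ∀ l₁ q l₂, l = l₁ ++ q :: l₂ →
      ψ (vx (cl W) (orb (cl W) (cen z)) q.1) = TS2_wd z (if q.2 then l₁ else l₁ ++ [q]))
    ⟨[], p.1.symm, fun l₁ q l₂ c => by simp at c⟩ ?_
  rintro V Y hV ⟨l, e, f⟩ ad - ne -
  have m := hV.mem ad.1
  have a := hV.isAt Y m
  have b := (vx_isV hb s.fam g).isAt Y m
  have hq := adj_eq hb s.fam hV ad
  obtain ⟨k, rfl⟩ := m
  have ed := TS2_edge hb n hz s t i p k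
  have key : ∀ q : FreeGroup X × Bool, ψ (vx (cl W) (orb (cl W) (cen z)) q.1) =
      TS2_wd z (if q.2 then l else l ++ [q]) → ∀ l₁ q' l₂, l ++ [q] = l₁ ++ q' :: l₂ →
      ψ (vx (cl W) (orb (cl W) (cen z)) q'.1) = TS2_wd z (if q'.2 then l₁ else l₁ ++ [q']) := by
    intro q hq l₁ q' l₂ c
    rcases List.eq_nil_or_concat l₂ with rfl | ⟨l₃, q₃, rfl⟩
    · obtain ⟨rfl, c2⟩ := List.append_inj' c rfl
      obtain rfl : q = q' := by simpa using c2
      exact hq
    · refine f l₁ q' l₃ ?_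
      have : l ++ [q] = (l₁ ++ q' :: l₃) ++ [q₃] := by rw [c]; simp
      exact (List.append_inj' this rfl).1
  rcases (TS2_at t).1 a with a | a
  · have b := ((TS2_at t).1 b).resolve_left fun b => ne (a.trans b.symm)
    rw [a] at hq
    rw [← hq, ← e] at ed
    have w : TS2_wd z (l ++ [(k, false)]) =
        ψ (vz (cl W) (orb (cl W) (cen z)) (tl (cl W) k • cen z) (k • Aᶜ)) := by
      rw [TS2_wd_false, ed, mul_inv_cancel_right]
    refine ⟨l ++ [(k, false)], by rw [b, w], key _ ?_⟩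
    rw [TS2_vx s v, ← w]
    rfl
  · have b := ((TS2_at t).1 b).resolve_right fun b => ne (a.trans b.symm)
    rw [a] at hq
    rw [← hq, ← e] at ed
    refine ⟨l ++ [(k, true)], by rw [b, ed, TS2_wd_true], key _ ?_⟩
    rw [TS2_vx s v, ← hq, ← e]
    rfl

theorem TS2_ez_lab (n : z ≠ 1) (hz : zpowers z = cen z) {Y : Subgroup (FreeGroup X)}
    (e : Y ≠ cen z) (C : Set (FreeGroup X)) : ez z (TS2_lab W z A Y C) = 1 := by
  unfold TS2_lab
  split_ifs with h
  · rw [ez, FreeGroup.lift_apply_of, if_neg]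
    intro f
    apply e
    rw [← h.choose_spec.1, (TS2_quot (W := W) n hz).2 f, map_one, one_smul]
  · exact map_one _

theorem TS2_ez (hb : Bx W) (n : z ≠ 1) (hz : zpowers z = cen z) (s : Simp (cl W) (cen z))
    (t : Two (cl W) (cen z) A) (i : z • A = A) (o : (1 : FreeGroup X) ∉ A)
    (p : Pot (cl W) (orb (cl W) (cen z)) (TS2_lab W z A) ψ) (g : FreeGroup X) :
    ez z (ψ (vx (cl W) (orb (cl W) (cen z)) g)) ≠ 1 ↔ g ∈ A := by
  have c0 : TS2_lab W z A (cen z) Aᶜ = 1 := by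
    simpa using TS2_lab_compl (W := W) n hz i t.2.1 1
  have c1 : TS2_lab W z A (cen z) A = FreeGroup.of ((1 : FreeGroup X) : _ ⧸ zpowers z) := by
    simpa using TS2_lab_smul (W := W) (A := A) n hz 1
  have p' : Pot (cl W) (orb (cl W) (cen z)) (fun Y C => ez z (TS2_lab W z A Y C))
      fun V => ez z (TS2_lab W z A (cen z) (V.s (cen z))) := by
    refine ⟨?_, fun V Y C hV ad hC => ?_⟩
    · beta_reduce
      rw [vx_of_mem (mem_orb _), t.compl.atom o, c0, map_one]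
    · beta_reduce
      by_cases e : Y = cen z
      · rw [e, vz_self, mul_inv_cancel, one_mul]
      · rw [vz_step hb s.fam hV ad C (Ne.symm e), TS2_ez_lab n hz e, TS2_ez_lab n hz e, inv_one,
          mul_one, mul_one]
  have := pot_uniq hb s.fam (p.map (ez z)) p' (fun _ _ _ _ => rfl) (vx_isV hb s.fam g)
  beta_reduce at this
  rw [this, vx_of_mem (mem_orb _)]
  by_cases a : g ∈ A
  · rw [t.atom a, c1, ez, FreeGroup.lift_apply_of, if_pos rfl]
    exact iff_of_true (by decide) a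
  · rw [t.compl.atom a, c0, map_one]
    exact iff_of_false (fun c => c rfl) a

theorem ts_ex (hb : Bx W) {Z : Subgroup (FreeGroup X)} (h : Z ∈ CX (cl W)) :
    ∃ z ρ T, cen z ∈ orb (cl W) Z ∧ TS W z ρ ∧
      (∀ x, T (FreeGroup.of x) = piz z (rho ρ (FreeGroup.of x))) ∧ Cv (cl W) z T ∧
      Two (cl W) (cen z) {g | InA z ρ g} := by
  have hV := vx_isV hb h.1.fam 1
  obtain ⟨Y, ad, -⟩ := adj_above hb h.1.fam hV (mem_orb Z)
  have m := hV.mem ad.1
  have hq := adj_eq hb h.1.fam hV ad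
  rw [vx_of_mem m] at hq
  have hY : Y ∈ CX (cl W) := by
    obtain ⟨k, rfl⟩ := m
    exact cx_smul h _
  obtain ⟨z, n, hz, rfl⟩ := hY.1.1.1.gen
  rw [← orb_eq m] at hq
  have s := hY.1
  obtain ⟨A, t, i, o⟩ : ∃ A, Two (cl W) (cen z) A ∧ z • A = A ∧ (1 : FreeGroup X) ∉ A := by
    obtain ⟨B, tB, iB⟩ := cx_two hb hY
    by_cases o : (1 : FreeGroup X) ∈ B
    · exact ⟨Bᶜ, tB.compl, by rw [smul_compl', iB z (self_mem_cen z)], fun c => c o⟩
    · exact ⟨B, tB, iB z (self_mem_cen z), o⟩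
  rw [t.compl.atom o] at hq
  obtain ⟨ψ, p⟩ := ex_pot hb s.fam (TS2_lab W z A)
  choose l e f using fun x : X => TS2_path hb n hz s t i hq p (FreeGroup.of x)
  have c := TS2_coc_eq hb n hz s t i p fun x => (e x).symm
  obtain ⟨T, hT⟩ := tw_ex hb s.fam (par_bp (W := W) (ax_cen n) (self_mem_cen z) A)
  refine ⟨z, l, T, m, ⟨TS2_cg_one.2 ?_, fun w hw => TS2_cg_one.2 ?_, fun x l₁ q l₂ b => ?_⟩,
    fun x => ?_, ⟨n, hz, s, A, t, i, hT⟩, ?_⟩
  · rw [← c, TS2_vx s hq, (ax_cen n).norm.2 (self_mem_cen z), smul_compl', i, ← hq, p.1]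
  · rw [← c, ← one_mul w, vx_mul_mem 1 (mem_cl hw), p.1]
  · rw [TS2_cg, ← c]
    exact f x l₁ q l₂ b
  · obtain ⟨ψ', p', e'⟩ := hT
    rw [e', TS2_piz, ← c, pot_uniq hb s.fam p' (TS2_sz_lab (W := W) A ▸ p.map (sz z))
      (fun _ _ _ _ => rfl) (vx_isV hb s.fam _)]
  · have : {g | InA z l g} = A := by
      ext g
      rw [Set.mem_ofPred_eq, inA_iff hz, ← c]
      exact TS2_ez hb n hz s t i o p g
    rw [this]
    exact t

end Pool.Agent.Work.MP_3bdf32_al
end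

-- merged part: Pool.Agent.Work.MP_3bdf32_al.YesNo
section
/-! Soundness and completeness of the two certificates. -/

namespace Pool.Agent.Work.MP_3bdf32_al

set_option linter.unusedSectionVars false
set_option linter.unusedVariables false

open Subgroup MulAction Filter
open scoped Pointwise

section aux

variable {G : Type} [Group G]

theorem YesNo_eql {J : List G} {a b : MulAut G} (h : EqL J a b) : ∀ x ∈ cl J, a x = b x := by
  intro x hx
  induction hx using closure_induction with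
  | mem x hx => exact h x hx
  | one => simp
  | mul x y _ _ p q => rw [map_mul, map_mul, p, q]
  | inv x _ p => rw [map_inv, map_inv, p]

theorem YesNo_into {J : List G} {a : MulAut G} (h : ∀ x ∈ J, a x ∈ cl J) :
    ∀ x ∈ cl J, a x ∈ cl J := by
  intro x hx
  induction hx using closure_induction with
  | mem x hx => exact h x hx
  | one => simp
  | mul x y _ _ p q => rw [map_mul]; exact mul_mem p q
  | inv x _ p => rw [map_inv]; exact inv_mem p

theorem YesNo_pres {J : List G} {Y : List (MulAut G)}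
    (h : ∀ y ∈ Y, ∀ x ∈ J, y x ∈ cl J ∧ y⁻¹ x ∈ cl J) {a : MulAut G} (ha : a ∈ cl Y) :
    (∀ x ∈ cl J, a x ∈ cl J) ∧ ∀ x ∈ cl J, a⁻¹ x ∈ cl J := by
  induction ha using closure_induction with
  | mem y hy => exact ⟨YesNo_into fun x hx => (h y hy x hx).1, YesNo_into fun x hx => (h y hy x hx).2⟩
  | one => exact ⟨fun x hx => by simpa using hx, fun x hx => by simpa using hx⟩
  | mul a b _ _ p q =>
    refine ⟨fun x hx => p.1 _ (q.1 x hx), fun x hx => ?_⟩
    rw [mul_inv_rev]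
    exact q.2 _ (p.2 x hx)
  | inv a _ p => exact ⟨p.2, by simpa using p.1⟩

theorem YesNo_comm1 {K : Subgroup G} {τ : List (MulAut G)} (hp : ∀ a ∈ cl τ, ∀ x ∈ K, a x ∈ K)
    {s : MulAut G} (h : ∀ t ∈ τ, ∀ x ∈ K, s (t x) = t (s x)) {a : MulAut G} (ha : a ∈ cl τ) :
    ∀ x ∈ K, s (a x) = a (s x) := by
  induction ha using closure_induction with
  | mem t ht => exact h t ht
  | one => intro x _; rfl
  | mul a b ha hb p q =>
    intro x hx
    rw [MulAut.mul_apply, MulAut.mul_apply, p _ (hp b hb x hx), q x hx]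
  | inv a ha p =>
    intro x hx
    apply a.injective
    have := p _ (hp _ (inv_mem ha) x hx)
    rw [← this]
    simp

theorem YesNo_comm {K : Subgroup G} {τ : List (MulAut G)} (hp : ∀ a ∈ cl τ, ∀ x ∈ K, a x ∈ K)
    (h : ∀ t ∈ τ, ∀ t' ∈ τ, ∀ x ∈ K, t (t' x) = t' (t x)) {a b : MulAut G} (ha : a ∈ cl τ)
    (hb : b ∈ cl τ) : ∀ x ∈ K, a (b x) = b (a x) :=
  YesNo_comm1 hp (fun t ht x hx => (YesNo_comm1 hp (h t ht) ha x hx).symm) hb

theorem YesNo_split {K : Subgroup G} {τ : List (MulAut G)} (hp : ∀ a ∈ cl τ, ∀ x ∈ K, a x ∈ K)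
    (hc : ∀ a ∈ cl τ, ∀ b ∈ cl τ, ∀ x ∈ K, a (b x) = b (a x)) {θ : MulAut G} {u : G} (hu : u ∈ K)
    (hθ : ∀ x ∈ K, θ x ∈ K) (h : ∀ t ∈ τ, t u = u ∨ ∀ x ∈ K, θ (t x) = t⁻¹ (θ x))
    {a : MulAut G} (ha : a ∈ cl τ) :
    ∃ b ∈ cl τ, a u = b u ∧ ∀ x ∈ K, θ (b x) = b⁻¹ (θ x) := by
  induction ha using closure_induction with
  | mem t ht =>
    rcases h t ht with e | e
    · exact ⟨1, one_mem _, e, fun x _ => rfl⟩
    · exact ⟨t, mem_cl ht, rfl, e⟩
  | one => exact ⟨1, one_mem _, rfl, fun x _ => rfl⟩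
  | mul a a' ha ha' p q =>
    obtain ⟨b, hb, e, f⟩ := p
    obtain ⟨b', hb', e', f'⟩ := q
    refine ⟨b' * b, mul_mem hb' hb, ?_, fun x hx => ?_⟩
    · rw [MulAut.mul_apply, MulAut.mul_apply, e', hc a ha b' hb' u hu, e]
    · rw [MulAut.mul_apply, f' _ (hp b hb x hx), f x hx, mul_inv_rev, MulAut.mul_apply,
        hc _ (inv_mem hb') _ (inv_mem hb) _ (hθ x hx)]
  | inv a ha p =>
    obtain ⟨b, hb, e, f⟩ := p
    refine ⟨b⁻¹, inv_mem hb, ?_, fun x hx => ?_⟩
    · apply b.injective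
      rw [hc b hb _ (inv_mem ha) u hu, ← e]
      simp
    · have := f _ (hp _ (inv_mem hb) x hx)
      rw [inv_inv]
      apply b⁻¹.injective
      rw [← this]
      simp

theorem YesNo_fix_conj {W : List G} {u : G} (e : ∀ g, g ∈ cl W ↔ g ∈ cen u) : Fixed W := by
  refine ⟨MulAut.conj u, fun g => ?_⟩
  rw [e, mem_cen, MulAut.conj_apply, mul_inv_eq_iff_eq_mul]
  exact ⟨fun c => c.eq.symm, fun c => c.symm⟩

end aux

variable {X : Type} [Fintype X] [DecidableEq X] {W : List (FreeGroup X)}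

theorem no_sound (h : NoC W) : ¬ Fixed W := by
  obtain ⟨Y, J, τ, Θ, hY, hJ, hτ, ⟨p₀, hp₀, σ₀, hσ₀, e₀⟩, hΘ⟩ := h
  rintro ⟨α, hα⟩
  have hS : ∀ a ∈ StabH (cl W), ∀ x ∈ cl J, a x ∈ cl J := fun a ha =>
    (YesNo_pres hJ ((mcc_sound hY).1 ha)).1
  have hτS : cl τ ≤ StabH (cl W) := (closure_le _).2 fun t ht => stabH_cl.2 (hτ t ht).1
  have hp : ∀ a ∈ cl τ, ∀ x ∈ cl J, a x ∈ cl J := fun a ha => hS a (hτS ha)
  have hc : ∀ a ∈ cl τ, ∀ b ∈ cl τ, ∀ x ∈ cl J, a (b x) = b (a x) := fun a ha b hb =>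
    YesNo_comm hp (fun t ht t' ht' => YesNo_eql ((hτ t ht).2 t' ht')) ha hb
  have step : ∀ y a : MulAut (FreeGroup X),
      (∀ p ∈ Θ, ∃ p' ∈ Θ, ∃ σ ∈ cl τ, EqL J (y * p.1) (p'.1 * σ * σ)) →
      (∃ p ∈ Θ, ∃ σ ∈ cl τ, ∀ x ∈ cl J, a x = p.1 (σ (σ x))) →
      ∃ p ∈ Θ, ∃ σ ∈ cl τ, ∀ x ∈ cl J, (y * a) x = p.1 (σ (σ x)) := by
    rintro y a hy ⟨p, hpΘ, σ, hσ, e⟩
    obtain ⟨p', hp', σ', hσ', e'⟩ := hy p hpΘ
    refine ⟨p', hp', σ' * σ, mul_mem hσ' hσ, fun x hx => ?_⟩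
    have := YesNo_eql e' _ (hp σ hσ _ (hp σ hσ x hx))
    simp only [MulAut.mul_apply] at this ⊢
    rw [e x hx, this, hc σ' hσ' σ hσ _ (hp σ hσ x hx)]
  have key : ∀ a ∈ cl Y, ∃ p ∈ Θ, ∃ σ ∈ cl τ, ∀ x ∈ cl J, a x = p.1 (σ (σ x)) := by
    intro a ha
    induction ha using closure_induction_left with
    | one => exact ⟨p₀, hp₀, σ₀, hσ₀, fun x hx => (YesNo_eql e₀ x hx).symm⟩
    | mul_left y hy a _ ih => exact step y a (fun p hp => ((hΘ p hp).2.2.2.2.2 y hy).1) ih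
    | inv_mul_cancel y hy a _ ih => exact step y⁻¹ a (fun p hp => ((hΘ p hp).2.2.2.2.2 y hy).2) ih
  have hαS : α ∈ StabH (cl W) := fun g hg => (hα g).1 hg
  obtain ⟨p, hpΘ, σ, hσ, e⟩ := key α ((mcc_sound hY).1 hαS)
  obtain ⟨a₁, a₂, a₃, a₄, a₅, -⟩ := hΘ p hpΘ
  obtain ⟨b, hb, f, f'⟩ := YesNo_split hp hc a₂ (hS _ (stabH_cl.2 a₁))
    (fun t ht => (a₅ t ht).imp id fun q => YesNo_eql q) hσ
  have hx : b⁻¹ p.2 ∈ cl W := by
    rw [hα, e _ (hp _ (inv_mem hb) _ a₂), hc σ hσ _ (inv_mem hb) _ a₂, f]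
    simp only [MulAut.inv_apply_self]
    rw [f, f' _ a₂, a₄]
  have := hτS hb _ hx
  simp only [MulAut.apply_inv_self] at this
  exact a₃ (this ▸ hx)

theorem ab_cen [Nonempty X] (hb : Bx W) (hH : ¬ NA (cl W)) :
    ∃ u, u ≠ 1 ∧ zpowers u = cen u ∧ cl W ≤ cen u ∧ ∃ n : ℕ, 0 < n ∧ u ^ n ∈ cl W := by
  have ex : ∃ h ∈ cl W, h ≠ 1 := by
    by_contra hn
    push Not at hn
    obtain ⟨x⟩ := ‹Nonempty X›
    have hU : HT (hs 1 (FreeGroup.of x)) :=
      ⟨1, _, cd_one_iff.2 ⟨(x, true), by rw [lt_true, one_mul]⟩, rfl⟩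
    rcases hb.oe _ (fun y h hh => by rw [hn h hh, mul_one]) hU.clo with e | e
    · exact hU.nonempty.ne_empty e
    · have := hU.compl.nonempty
      rw [e] at this
      simp at this
  obtain ⟨h, hh, n⟩ := ex
  obtain ⟨z, a, b, c⟩ := (ax_cen n).gen
  refine ⟨z, a, b.trans c.symm, fun g hg => ?_, ?_⟩
  · rw [c, mem_cen]
    by_contra q
    exact hH ⟨g, hg, h, hh, q⟩
  · have : h ∈ zpowers z := b ▸ self_mem_cen h
    obtain ⟨k, e⟩ := mem_zpowers_iff.1 this
    have k0 : k ≠ 0 := by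
      rintro rfl
      exact n (by simpa using e.symm)
    refine ⟨k.natAbs, Int.natAbs_pos.2 k0, ?_⟩
    rw [← zpow_natCast]
    rcases Int.natAbs_eq k with f | f
    · rw [← f, e]; exact hh
    · have : (k.natAbs : ℤ) = -k := by omega
      rw [this, zpow_neg, e]
      exact inv_mem hh

theorem YesNo_cen {u : FreeGroup X} (a : zpowers u = cen u) (b : cl W ≤ cen u) (c : u ∈ cl W)
    (g : FreeGroup X) : g ∈ cl W ↔ g ∈ cen u :=
  ⟨fun h => b h, fun h => (zpowers_le.2 c) (a ▸ h)⟩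

theorem no_ex [Nonempty X] (hb : Bx W) (h : ¬ Fixed W) : NoC W := by
  by_cases hH : NA (cl W)
  · exact no_ex_na hb hH h
  obtain ⟨u, u1, a, b, n, hn, c⟩ := ab_cen hb hH
  obtain ⟨Y, hY⟩ := mcc_ex W
  have fx : ∀ y ∈ StabH (cl W), y u = u := fun y hy => fix_root y hn (hy _ c)
  have hS : ∀ y ∈ Y, y ∈ StabH (cl W) := fun y hy => stabH_cl.2 (hY.1 y hy)
  have hu : u ∈ cl [u] := mem_cl (by simp)
  refine ⟨Y, [u], [], [(1, u)], hY, fun y hy x hx => ?_, by simp,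
    ⟨(1, u), by simp, 1, one_mem _, fun x _ => rfl⟩, fun p hp => ?_⟩
  · obtain rfl := List.mem_singleton.1 hx
    rw [fx y (hS y hy), fx _ (inv_mem (hS y hy))]
    exact ⟨hu, hu⟩
  · obtain rfl := List.mem_singleton.1 hp
    refine ⟨fun _ _ => rfl, hu, fun q => h (YesNo_fix_conj (YesNo_cen a b q)), rfl, by simp,
      fun y hy => ⟨⟨(1, u), by simp, 1, one_mem _, fun x hx => ?_⟩,
        ⟨(1, u), by simp, 1, one_mem _, fun x hx => ?_⟩⟩⟩
    · obtain rfl := List.mem_singleton.1 hx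
      exact fx y (hS y hy)
    · obtain rfl := List.mem_singleton.1 hx
      exact fx _ (inv_mem (hS y hy))

theorem yes_sound (hb : Bx W) (h : YesC W) : Fixed W := by
  obtain ⟨φ, c, hG, hc, hs⟩ := h
  have hφ : φ ∈ StabH (cl W) := stabH_cl.2 (hG.1 φ (by simp))
  have hz : ∀ p ∈ c, zpowers p.1 = cen p.1 := fun p hp => gt_conj_iff.1 (hc p hp).2.1
  have snd : ∀ p ∈ c, ∀ d, CrC p.1 p.2.1 d → Simp (cl W) (cen p.1) ∧ OCr (cl W) p.1 d :=
    fun p hp d q => crc_sound hb (hc p hp).1 (hz p hp) (hc p hp).2.2.1 q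
  have ex : ∀ p ∈ c, ∃ b ∈ c, CrC p.1 p.2.1 b.1 ∨ CrC p.1 p.2.1 (φ⁻¹ b.1) := by
    intro p hp
    obtain ⟨l₁, l₂, e⟩ := List.append_of_mem hp
    rcases (hs l₁ p l₂ e).1 with ⟨l₃, b, l₄, f, q, -⟩ | ⟨l₃, b, l₄, f, q, -⟩
    · exact ⟨b, by simp [e, f], Or.inl q⟩
    · exact ⟨b, by simp [f], Or.inr q⟩
  have sm : ∀ p ∈ c, Simp (cl W) (cen p.1) := by
    intro p hp
    obtain ⟨b, -, q | q⟩ := ex p hp <;> exact (snd p hp _ q).1
  have cv : ∀ p ∈ c, Cv (cl W) p.1 p.2.2 := by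
    intro p hp
    obtain ⟨b, hbc, q | q⟩ := ex p hp
    · exact ts_cv hb (hc p hp).1 (hz p hp) (hc p hp).2.2.1 (hc p hp).2.2.2 (sm p hp) (sm b hbc).1
        (snd p hp _ q).2 (let ⟨_, _, _, _, _, _, a, _⟩ := q; ⟨_, a⟩)
    · exact ts_cv hb (hc p hp).1 (hz p hp) (hc p hp).2.2.1 (hc p hp).2.2.2 (sm p hp)
        (sp_map (inv_mem hφ) (sm b hbc).1) (snd p hp _ q).2
        (let ⟨_, _, _, _, _, _, a, _⟩ := q; ⟨_, a⟩)
  obtain ⟨ψ, -, hψ⟩ := blk_fix hb (fun p : CD X => p.1) (fun p => p.2.2) c cv hφ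
    (hs.mono (fun b hb => (hc b hb).1) fun a ha d _ q => (snd a ha d q).2)
  refine ⟨ψ, fun g => ?_⟩
  rw [hψ, gt_sound hG]
  simp only [List.forall_mem_cons, List.forall_mem_map]

theorem yes_ex [Nonempty X] (hb : Bx W) (h : Fixed W) : YesC W := by
  obtain ⟨φ, hφ⟩ := h
  have hS : φ ∈ StabH (cl W) := fun g hg => (hφ g).1 hg
  by_cases hH : NA (cl W)
  · obtain ⟨c, a, b, d⟩ := seq_ex hb hS (fun p : CD X => p.1) (fun p => p.2.2)
      (fun p => CvC W p ∧ Cv (cl W) p.1 p.2.2 ∧ cen p.1 ∈ CX (cl W) ∧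
        Two (cl W) (cen p.1) {g | InA p.1 p.2.1 g}) (fun p q => ⟨q.2.1, q.2.2.1⟩) (by
      intro Z hZ
      obtain ⟨z, ρ, T, o, t, e, v, w⟩ := ts_ex hb hZ
      refine ⟨(z, ρ, T), ⟨⟨v.ne, gt_conj_iff.2 v.gen, t, e⟩, v, ?_, w⟩, o⟩
      obtain ⟨k, f⟩ := o
      change cen z ∈ _
      rw [f]
      exact cx_smul hZ _)
    refine ⟨φ, c, gt_ex ⟨lg_of_lin ?_, fun g hg => ?_⟩ fun g => ?_, fun p hp => (a p hp).1,
      b.mono (fun p hp => (a p hp).1.1) fun p hp x n q => ?_⟩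
    · intro T hT g
      obtain ⟨p, hp, rfl⟩ := List.mem_map.1 hT
      exact (a p hp).2.1.lin hb g
    · exact struct_lin hb hH ⟨φ, hS⟩ ((d g).1 fun p hp => hg _ (List.mem_map.2 ⟨p, hp, rfl⟩))
    · simp only [List.forall_mem_cons, List.forall_mem_map]
      exact ⟨fun q => ⟨(hφ g).1 q, (d g).2 (le_LS q)⟩, fun q => (hφ g).2 q.1⟩
    · exact crc_ex hb (a p hp).1.1 (a p hp).2.1.gen (a p hp).1.2.2.1 (a p hp).2.2.2 n q
  · obtain ⟨u, u1, a, b, n, hn, c⟩ := ab_cen hb hH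
    have hu : u ∈ cl W := (hφ u).2 (fix_root φ hn (hS _ c))
    refine ⟨MulAut.conj u, [], gt_conj (YesNo_cen a b hu), by simp, fun l₁ p l₂ e => ?_⟩
    simp at e

theorem fixed_iff {n : ℕ} (W : List (FreeGroup (Fin (n + 1)))) :
    Fixed W ↔ (∀ w ∈ W, w = 1) ∨ Red (fun _ W' => YesC W') n W := by
  constructor
  · intro h
    by_cases t : ∀ w ∈ W, w = 1
    · exact Or.inl t
    push Not at t
    obtain ⟨m, μ, W', a, o, e⟩ := red_ex W t
    refine Or.inr ⟨m, μ, W', a, o, yes_ex (oec_bx o) ?_, e⟩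
    rw [e] at h
    exact (red_fixed a (oec_bx o).oe μ).1 h
  · rintro (t | ⟨m, μ, W', a, o, y, e⟩)
    · exact triv_fixed t
    · rw [e]
      exact (red_fixed a (oec_bx o).oe μ).2 (yes_sound (oec_bx o) y)

theorem not_fixed_iff {n : ℕ} (W : List (FreeGroup (Fin (n + 1)))) :
    ¬ Fixed W ↔ Red (fun _ W' => NoC W') n W := by
  constructor
  · intro h
    have t : ∃ w ∈ W, w ≠ 1 := by
      by_contra t
      push Not at t
      exact h (triv_fixed t)
    obtain ⟨m, μ, W', a, o, e⟩ := red_ex W t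
    refine ⟨m, μ, W', a, o, no_ex (oec_bx o) fun q => h ?_, e⟩
    rw [e]
    exact (red_fixed a (oec_bx o).oe μ).2 q
  · rintro ⟨m, μ, W', a, o, y, e⟩ h
    rw [e] at h
    exact no_sound y ((red_fixed a (oec_bx o).oe μ).1 h)

end Pool.Agent.Work.MP_3bdf32_al
end

-- merged part: Pool.Agent.Work.MP_3bdf32_al.K3
section
/-! The certificates are semidecidable, first part. -/

namespace Pool.Agent.Work.MP_3bdf32_al

set_option linter.unusedSectionVars false
set_option linter.unusedVariables false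

open Subgroup MulAction Filter
open scoped Pointwise

variable {ι : Type} [Primcodable ι] {Γ A : ι → Type} [Cod Γ] [Cod A] [Alph A]
  [∀ i, DecidableEq (A i)]

theorem RE.nm {W : ∀ i, Γ i → List (FreeGroup (A i))} {g : ∀ i, Γ i → FreeGroup (A i)} (hW : CF W)
    (hg : CF g) : RE fun i x => NM (W i x) (g i x) := by
  unfold NM
  refine RE.exIdx (p := fun i x n => ∃ (π : A i → MulAut (FreeGroup (Fin (n + 1)))),
    (∀ w ∈ W i x, FreeGroup.lift π w (FreeGroup.of 0) = FreeGroup.of 0) ∧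
      FreeGroup.lift π (g i x) (FreeGroup.of 0) ≠ FreeGroup.of 0) ?_
  have hW' : CF (Γ := fun j : ι × ℕ => Γ j.1) fun j x => W j.1 x := hW.re
  have hg' : CF (Γ := fun j : ι × ℕ => Γ j.1) fun j x => g j.1 x := hg.re
  refine RE.ex (T := fun j : ι × ℕ => A j.1 → MulAut (FreeGroup (Fin (j.2 + 1))))
    (DC.re (DC.and (DC.ball (hW'.comp CF.id.fst) (DC.eq ?_ ?_)) (DC.ne ?_ ?_)))
  · exact CF.aut (CF.lift (CF.app CF.id.fst.fst.snd CF.id.snd) CF.id.snd) (CF.of (CF.finZero _))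
  · exact CF.of (CF.finZero _)
  · exact CF.aut (CF.lift (CF.app CF.id.fst.snd CF.id.snd) (hg'.comp CF.id.fst))
      (CF.of (CF.finZero _))
  · exact CF.of (CF.finZero _)

theorem RE.notMem [∀ i, Fintype (A i)] {W : ∀ i, Γ i → List (FreeGroup (A i))}
    {g : ∀ i, Γ i → FreeGroup (A i)} (hg : CF g) (hW : CF W) :
    RE fun i x => g i x ∉ MP_3bdf32_al.cl (W i x) :=
  (RE.nm hW hg).of_iff fun _ _ => (hall _ _).symm

theorem K3_bex {T : ι → Type} [Cod T] [Deq T] {l : ∀ i, Γ i → List (T i)}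
    {p : ∀ i, Γ i → T i → Prop} (hl : CF l) (h : RE fun i (x : Γ i × T i) => p i x.1 x.2) :
    RE fun i x => ∃ t ∈ l i x, p i x t :=
  RE.ex (RE.and (DC.re (DC.mem CF.id.snd (hl.comp CF.id.fst))) h)

theorem K3_st {u : ∀ i, Γ i → FreeGroup (A i)} {s : ∀ i, Γ i → A i × Bool} (hu : CF u)
    (hs : CF s) : DC fun i x => St (u i x) (s i x) :=
  DC.lt (CF.norm (CF.mul (CF.inv (CF.lt hs)) hu)) (CF.norm hu)

theorem K3_en {u : ∀ i, Γ i → FreeGroup (A i)} {s : ∀ i, Γ i → A i × Bool} (hu : CF u)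
    (hs : CF s) : DC fun i x => En (u i x) (s i x) :=
  DC.lt (CF.norm (CF.mul hu (CF.inv (CF.lt hs)))) (CF.norm hu)

theorem K3_alw {K : ∀ i, Γ i → ℕ} {Φ : ∀ i, Γ i → List (MulAut (FreeGroup (A i)))}
    {p : ∀ i, Γ i → FreeGroup (A i)} {s : ∀ i, Γ i → A i × Bool} (hK : CF K) (hΦ : CF Φ)
    (hp : CF p) (hs : CF s) : DC fun i x => Alw (K i x) (Φ i x) (p i x) (s i x) := by
  have hK' : CF fun i (x : Γ i × MulAut (FreeGroup (A i))) => K i x.1 := hK.comp CF.id.fst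
  have hp' : CF fun i (x : Γ i × MulAut (FreeGroup (A i))) => p i x.1 := hp.comp CF.id.fst
  have hs' : CF fun i (x : Γ i × MulAut (FreeGroup (A i))) => s i x.1 := hs.comp CF.id.fst
  exact DC.and (DC.lt (CF.norm hp) (CF.norm (CF.mul hp (CF.lt hs)))) (DC.ball hΦ (DC.or
    (DC.le (CF.norm (CF.mul (CF.inv hp') (CF.aut CF.id.snd hp'))) hK')
    (DC.or (K3_st (CF.mul (CF.inv hp') (CF.aut CF.id.snd hp')) hs')
      (K3_st (CF.mul (CF.inv hp') (CF.aut (CF.inv CF.id.snd) hp')) hs'))))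

theorem K3_kc : Computable Kc := by
  have h1 : Primrec fun l : ℕ => l + 1 := Primrec.succ
  have hm := Primrec.nat_mul
  refine (hm.comp (Primrec.const 10)
    (hm.comp (hm.comp (hm.comp (hm.comp h1 h1) h1) h1) h1)).to_comp.of_eq fun l => ?_
  simp only [Kc]
  ring

theorem K3_fix {Φ : ∀ i, Γ i → List (MulAut (FreeGroup (A i)))}
    {W : ∀ i, Γ i → List (FreeGroup (A i))} (hΦ : CF Φ) (hW : CF W) :
    DC fun i x => ∀ φ ∈ Φ i x, ∀ h ∈ W i x, φ h = h :=
  DC.ball hΦ (DC.ball (hW.comp CF.id.fst) (DC.eq (CF.aut CF.id.fst.snd CF.id.snd) CF.id.snd))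

theorem RE.gt {Φ : ∀ i, Γ i → List (MulAut (FreeGroup (A i)))}
    {W : ∀ i, Γ i → List (FreeGroup (A i))} (hΦ : CF Φ) (hW : CF W) :
    RE fun i x => GT (Φ i x) (W i x) := by
  unfold GT GTc
  refine RE.and (DC.re (K3_fix hΦ hW)) (RE.ex (RE.ex (RE.and (DC.re ?_) (RE.and (DC.re ?_)
    (RE.and (RE.ball CF.id.snd (RE.all (RE.imp ?_ (K3_bex CF.id.fst.fst.snd (RE.and (DC.re ?_) ?_)))))
      (RE.ball CF.id.snd (RE.imp ?_ ?_)))))))
  · exact DC.ball (hΦ.comp CF.id.fst.fst) (DC.lip CF.id.fst.fst.snd CF.id.snd)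
  · exact DC.mem CF.one CF.id.snd
  · exact K3_alw (CF.nat₁ K3_kc CF.id.fst.fst.fst.snd) (hΦ.comp CF.id.fst.fst.fst.fst)
      CF.id.fst.snd CF.id.snd
  · exact K3_en CF.id.snd CF.id.fst.snd
  · exact RE.cl (CF.mul (CF.mul CF.id.fst.fst.snd (CF.lt CF.id.fst.snd)) (CF.inv CF.id.snd))
      (hW.comp CF.id.fst.fst.fst.fst.fst)
  · exact DC.ball (hΦ.comp CF.id.fst.fst.fst)
      (DC.eq (CF.aut CF.id.snd CF.id.fst.snd) CF.id.fst.snd)
  · exact RE.cl CF.id.snd (hW.comp CF.id.fst.fst.fst)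

theorem RE.oec {W : ∀ i, Γ i → List (FreeGroup (A i))} (hW : CF W) : RE fun i x => OEc (W i x) := by
  unfold OEc
  exact RE.and (RE.allLip (DC.re (DC.le (CF.len (hW.comp CF.id.fst) CF.one)
    (CF.len (hW.comp CF.id.fst) CF.id.snd)))) (DC.re (DC.all (DC.bex (hW.comp CF.id.fst)
      (DC.exA (DC.mem (CF.pair CF.id.fst.fst.snd CF.id.snd) (CF.toWord CF.id.fst.snd))))))

theorem RE.mcc {Y : ∀ i, Γ i → List (MulAut (FreeGroup (A i)))}
    {W : ∀ i, Γ i → List (FreeGroup (A i))} (hY : CF Y) (hW : CF W) :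
    RE fun i x => McC (Y i x) (W i x) := by
  unfold McC
  refine RE.and (DC.re (K3_fix hY hW)) (RE.ex (RE.ex (RE.and (DC.re (DC.ne CF.id.snd CF.nil))
    (RE.ball CF.id.snd (RE.and (DC.re ?_) (RE.and (DC.re ?_) (RE.allLip (DC.re ?_))))))))
  · exact DC.eq (CF.len (hW.comp CF.id.fst.fst.fst) CF.id.snd) CF.id.fst.fst.snd
  · exact DC.ball CF.id.fst.snd (DC.imp (DC.ball (hW.comp CF.id.fst.fst.fst.fst)
      (DC.eq (CF.aut CF.id.fst.fst.snd CF.id.snd) (CF.aut CF.id.fst.snd CF.id.snd)))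
      (DC.mem (CF.mul (CF.inv CF.id.snd) CF.id.fst.snd) (hY.comp CF.id.fst.fst.fst.fst)))
  · exact DC.imp (DC.le (CF.len (hW.comp CF.id.fst.fst.fst.fst) (CF.mul CF.id.snd CF.id.fst.snd))
      CF.id.fst.fst.fst.snd) (DC.bex CF.id.fst.fst.snd (DC.mem
        (CF.mul (CF.inv CF.id.snd) (CF.mul CF.id.fst.snd CF.id.fst.fst.snd))
        (hY.comp CF.id.fst.fst.fst.fst.fst)))

theorem K3_eql {J : ∀ i, Γ i → List (FreeGroup (A i))} {a b : ∀ i, Γ i → MulAut (FreeGroup (A i))}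
    (hJ : CF J) (ha : CF a) (hb : CF b) : DC fun i x => EqL (J i x) (a i x) (b i x) :=
  DC.ball hJ (DC.eq (CF.aut (ha.comp CF.id.fst) CF.id.snd) (CF.aut (hb.comp CF.id.fst) CF.id.snd))

theorem K3_sq {J : ∀ i, Γ i → List (FreeGroup (A i))} {a : ∀ i, Γ i → MulAut (FreeGroup (A i))}
    {τ : ∀ i, Γ i → List (MulAut (FreeGroup (A i)))}
    {Θ : ∀ i, Γ i → List (MulAut (FreeGroup (A i)) × FreeGroup (A i))} (hJ : CF J) (ha : CF a)
    (hτ : CF τ) (hΘ : CF Θ) : RE fun i x =>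
      ∃ p' ∈ Θ i x, ∃ σ ∈ MP_3bdf32_al.cl (τ i x), EqL (J i x) (a i x) (p'.1 * σ * σ) :=
  K3_bex hΘ (RE.ex (RE.and (RE.cl CF.id.snd (hτ.comp CF.id.fst.fst)) (DC.re
    (K3_eql (hJ.comp CF.id.fst.fst) (ha.comp CF.id.fst.fst)
      (CF.mul (CF.mul CF.id.fst.snd.fst CF.id.snd) CF.id.snd)))))

theorem RE.noc [∀ i, Fintype (A i)] {W : ∀ i, Γ i → List (FreeGroup (A i))} (hW : CF W) :
    RE fun i x => NoC (W i x) := by
  unfold NoC
  refine RE.ex (RE.ex (RE.ex (RE.ex (RE.and ?_ (RE.and ?_ (RE.and (DC.re ?_) (RE.and ?_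
    (RE.ball CF.id.snd (RE.and (DC.re ?_) (RE.and ?_ (RE.and ?_ (RE.and (DC.re ?_)
      (RE.and (DC.re ?_) ?_)))))))))))))
  · exact RE.mcc CF.id.fst.fst.fst.snd (hW.comp CF.id.fst.fst.fst.fst)
  · exact RE.ball CF.id.fst.fst.fst.snd (RE.ball CF.id.fst.fst.fst.snd (RE.and
      (RE.cl (CF.aut CF.id.fst.snd CF.id.snd) CF.id.fst.fst.fst.fst.snd)
      (RE.cl (CF.aut (CF.inv CF.id.fst.snd) CF.id.snd) CF.id.fst.fst.fst.fst.snd)))
  · exact DC.ball CF.id.fst.snd (DC.and (DC.ball (hW.comp CF.id.fst.fst.fst.fst.fst)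
      (DC.eq (CF.aut CF.id.fst.snd CF.id.snd) CF.id.snd)) (DC.ball CF.id.fst.fst.snd
        (K3_eql CF.id.fst.fst.fst.fst.snd (CF.mul CF.id.fst.snd CF.id.snd)
          (CF.mul CF.id.snd CF.id.fst.snd))))
  · exact K3_bex CF.id.snd (RE.ex (RE.and (RE.cl CF.id.snd CF.id.fst.fst.fst.snd) (DC.re
      (K3_eql CF.id.fst.fst.fst.fst.snd (CF.mul (CF.mul CF.id.fst.snd.fst CF.id.snd) CF.id.snd)
        CF.one))))
  · exact DC.ball (hW.comp CF.id.fst.fst.fst.fst.fst)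
      (DC.eq (CF.aut CF.id.fst.snd.fst CF.id.snd) CF.id.snd)
  · exact RE.cl CF.id.snd.snd CF.id.fst.fst.fst.snd
  · exact RE.notMem CF.id.snd.snd (hW.comp CF.id.fst.fst.fst.fst.fst)
  · exact DC.eq (CF.aut CF.id.snd.fst CF.id.snd.snd) CF.id.snd.snd
  · exact DC.ball CF.id.fst.fst.snd (DC.or
      (DC.eq (CF.aut CF.id.snd CF.id.fst.snd.snd) CF.id.fst.snd.snd)
      (K3_eql CF.id.fst.fst.fst.fst.snd (CF.mul CF.id.fst.snd.fst CF.id.snd)
        (CF.mul (CF.inv CF.id.snd) CF.id.fst.snd.fst)))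
  · exact RE.ball CF.id.fst.fst.fst.fst.snd (RE.and
      (K3_sq CF.id.fst.fst.fst.fst.snd (CF.mul CF.id.snd CF.id.fst.snd.fst)
        CF.id.fst.fst.fst.snd CF.id.fst.fst.snd)
      (K3_sq CF.id.fst.fst.fst.fst.snd (CF.mul (CF.inv CF.id.snd) CF.id.fst.snd.fst)
        CF.id.fst.fst.fst.snd CF.id.fst.fst.snd))

end Pool.Agent.Work.MP_3bdf32_al
end

-- merged part: Pool.Agent.Work.MP_3bdf32_al.K4
section
/-! The certificates are semidecidable, second part. -/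

namespace Pool.Agent.Work.MP_3bdf32_al

set_option linter.unusedSectionVars false
set_option linter.unusedVariables false

open Subgroup MulAction Filter
open scoped Pointwise

variable {ι : Type} [Primcodable ι] {Γ A : ι → Type} [Cod Γ] [Cod A] [Alph A]
  [∀ i, DecidableEq (A i)]

theorem K4_io {f : ∀ i, Γ i → FreeGroup (A i)} (h : CF f) : CF fun i x => io (f i x) :=
  CF.fmap (B := fun i => Option (A i)) (π := fun _ _ => some) (CF.some CF.id.snd) h

theorem K4_zet : CF fun i (_ : Γ i) => (zet : FreeGroup (Option (A i))) :=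
  CF.of (A := fun i => Option (A i)) CF.none

theorem K4_wd {l : ∀ i, Γ i → List (FreeGroup (A i) × Bool)} (h : CF l) :
    CF fun i x => wd (l i x) :=
  CF.prod (T := fun i => FreeGroup (Option (A i))) (CF.map h (CF.mul (CF.mul (K4_io CF.id.snd.fst)
    (CF.ite (DC.bool CF.id.snd.snd) K4_zet (CF.inv K4_zet))) (CF.inv (K4_io CF.id.snd.fst))))

theorem K4_rho {ρ : ∀ i, Γ i → A i → List (FreeGroup (A i) × Bool)}
    {g : ∀ i, Γ i → FreeGroup (A i)} (hρ : CF ρ) (hg : CF g) :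
    CF fun i x => rho (ρ i x) (g i x) :=
  CF.lift (T := fun i => FreeGroup (Option (A i))) (CF.mul
    (K4_wd (CF.app (hρ.comp CF.id.fst) CF.id.snd)) (K4_io (CF.of CF.id.snd))) hg

theorem K4_cg {z : ∀ i, Γ i → FreeGroup (A i)} {u v : ∀ i, Γ i → FreeGroup (Option (A i))}
    (hz : CF z) (hu : CF u) (hv : CF v) : RE fun i x => Cg (z i x) (u i x) (v i x) :=
  RE.ncl (T := fun i => FreeGroup (Option (A i))) (CF.mul (CF.inv hu) hv)
    (CF.mul (CF.mul (CF.mul (K4_io hz) K4_zet) (CF.inv (K4_io hz))) (CF.inv K4_zet))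

theorem K4_piz {z : ∀ i, Γ i → FreeGroup (A i)} {u : ∀ i, Γ i → FreeGroup (Option (A i))}
    (hz : CF z) (hu : CF u) : CF fun i x => piz (z i x) (u i x) :=
  CF.lift (A := fun i => Option (A i)) (T := fun i => FreeGroup (A i))
    (CF.elim (g := fun _ _ => FreeGroup.of) CF.id.snd (hz.comp CF.id.fst) (CF.of CF.id.snd)) hu

theorem K4_cn {z : ∀ i, Γ i → FreeGroup (A i)} {u : ∀ i, Γ i → FreeGroup (Option (A i))}
    (b : Bool) (hz : CF z) (hu : CF u) : CF fun i x => cn (z i x) b (u i x) := by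
  have hw : CF fun i x => (u i x).toWord := CF.toWord (A := fun i => Option (A i)) hu
  have hw' : CF fun i (x : Γ i × ℕ) => (u i x.1).toWord := hw.comp CF.id.fst
  have hz' : CF fun i (x : Γ i × ℕ) => z i x.1 := hz.comp CF.id.fst
  have hp : CF fun i (x : Γ i × ℕ) => piz 1 (FreeGroup.mk ((u i x.1).toWord.take x.2)) :=
    K4_piz CF.one (CF.mk (A := fun i => Option (A i)) (CF.take CF.id.snd hw'))
  exact CF.length (CF.filter (CF.range (CF.length hw)) (CF.decide (DC.and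
    (DC.eq (CF.get hw' CF.id.snd) (CF.some (CF.pair CF.none (CF.bool b))))
    (DC.eq (CF.mul hp hz') (CF.mul hz' hp)))))

theorem RE.ts {W : ∀ i, Γ i → List (FreeGroup (A i))} {z : ∀ i, Γ i → FreeGroup (A i)}
    {ρ : ∀ i, Γ i → A i → List (FreeGroup (A i) × Bool)} (hW : CF W) (hz : CF z) (hρ : CF ρ) :
    RE fun i x => TS (W i x) (z i x) (ρ i x) := by
  unfold TS
  refine RE.and (K4_cg hz (K4_rho hρ hz) (K4_io hz)) (RE.and (RE.ball hW
    (K4_cg (hz.comp CF.id.fst) (K4_rho (hρ.comp CF.id.fst) CF.id.snd) (K4_io CF.id.snd)))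
    (RE.all (RE.split (CF.app (hρ.comp CF.id.fst) CF.id.snd)
      (K4_cg (hz.comp CF.id.fst.fst) (K4_rho (hρ.comp CF.id.fst.fst) CF.id.snd.snd.fst.fst)
        (CF.mul (K4_wd (CF.ite (DC.bool CF.id.snd.snd.fst.snd) CF.id.snd.fst
          (CF.append CF.id.snd.fst (CF.cons CF.id.snd.snd.fst CF.nil))))
          (K4_io CF.id.snd.snd.fst.fst))))))

theorem DC.inA {z g : ∀ i, Γ i → FreeGroup (A i)}
    {ρ : ∀ i, Γ i → A i → List (FreeGroup (A i) × Bool)} (hz : CF z) (hρ : CF ρ) (hg : CF g) :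
    DC fun i x => InA (z i x) (ρ i x) (g i x) :=
  DC.ne (K4_cn true hz (K4_rho hρ hg)) (K4_cn false hz (K4_rho hρ hg))

theorem RE.crc {z d : ∀ i, Γ i → FreeGroup (A i)}
    {ρ : ∀ i, Γ i → A i → List (FreeGroup (A i) × Bool)} (hz : CF z) (hρ : CF ρ) (hd : CF d) :
    RE fun i x => CrC (z i x) (ρ i x) (d i x) := by
  unfold CrC
  refine RE.ex (RE.ex (RE.ex (DC.re ?_)))
  have hz' : CF fun i (x : ((Γ i × FreeGroup (A i)) × FreeGroup (A i)) × FreeGroup (A i)) =>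
    z i x.1.1.1 := hz.comp CF.id.fst.fst.fst
  have hd' : CF fun i (x : ((Γ i × FreeGroup (A i)) × FreeGroup (A i)) × FreeGroup (A i)) =>
    d i x.1.1.1 := hd.comp CF.id.fst.fst.fst
  have hρ' : CF fun i (x : ((Γ i × FreeGroup (A i)) × FreeGroup (A i)) × FreeGroup (A i)) =>
    ρ i x.1.1.1 := hρ.comp CF.id.fst.fst.fst
  exact DC.and (DC.or
    (DC.eq CF.id.snd (CF.mul (CF.mul CF.id.fst.fst.snd hd') (CF.inv CF.id.fst.fst.snd)))
    (DC.eq CF.id.snd (CF.mul (CF.mul CF.id.fst.fst.snd (CF.inv hd')) (CF.inv CF.id.fst.fst.snd))))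
    (DC.and (DC.not (DC.inA hz' hρ' CF.id.fst.snd))
    (DC.and (DC.not (DC.inA hz' hρ' (CF.mul (CF.inv CF.id.snd) CF.id.fst.snd)))
    (DC.and (DC.inA hz' hρ' (CF.mul CF.id.snd CF.id.fst.snd))
      (DC.inA hz' hρ' (CF.mul (CF.mul CF.id.snd CF.id.snd) CF.id.fst.snd)))))

theorem RE.cvc {W : ∀ i, Γ i → List (FreeGroup (A i))} {p : ∀ i, Γ i → CD (A i)} (hW : CF W)
    (hp : CF p) : RE fun i x => CvC (W i x) (p i x) := by
  unfold CvC
  have hp' : CF fun i (x : Γ i × A i) => p i x.1 := hp.comp CF.id.fst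
  exact RE.and (DC.re (DC.ne hp.fst CF.one)) (RE.and
    (RE.gt (CF.cons (CF.conj hp.fst) CF.nil) (CF.cons hp.fst CF.nil))
    (RE.and (RE.ts hW hp.fst hp.snd.fst) (DC.re (DC.all (DC.eq
      (CF.aut hp'.snd.snd (CF.of CF.id.snd))
      (K4_piz hp'.fst (K4_rho hp'.snd.fst (CF.of CF.id.snd))))))))

theorem K4_fix {l : ∀ i, Γ i → List (CD (A i))} {g : ∀ i, Γ i → FreeGroup (A i)} (hl : CF l)
    (hg : CF g) : RE fun i x => ∀ k ∈ l i x, IsConj (g i x) (k.2.2 (g i x)) :=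
  RE.ball hl (RE.conj (hg.comp CF.id.fst) (CF.aut CF.id.snd.snd.snd (hg.comp CF.id.fst)))

theorem K4_ex3 {c : ∀ i, Γ i → List (CD (A i))}
    {p : ∀ i, Γ i → List (CD (A i)) → CD (A i) → List (CD (A i)) → Prop} (hc : CF c)
    (h : RE fun i (x : ((Γ i × List (CD (A i))) × CD (A i)) × List (CD (A i))) =>
      p i x.1.1.1 x.1.1.2 x.1.2 x.2) :
    RE fun i x => ∃ l₃ b l₄, c i x = l₃ ++ b :: l₄ ∧ p i x l₃ b l₄ :=
  RE.ex (RE.ex (RE.ex (RE.and (DC.re (DC.eq (hc.comp CF.id.fst.fst.fst)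
    (CF.append CF.id.fst.fst.snd (CF.cons CF.id.fst.snd CF.id.snd)))) h)))

theorem K4_seq {φ : ∀ i, Γ i → MulAut (FreeGroup (A i))} {c : ∀ i, Γ i → List (CD (A i))}
    (hφ : CF φ) (hc : CF c) : RE fun i x =>
      Seq (fun p d => CrC p.1 p.2.1 d) (fun p => p.1) (fun p => p.2.2) (φ i x) (c i x) := by
  unfold Seq
  refine RE.split hc (RE.and (RE.or (K4_ex3 CF.id.snd.snd.snd ?_) (K4_ex3 (hc.comp CF.id.fst) ?_))
    (RE.or (K4_ex3 CF.id.snd.fst ?_) (K4_ex3 (hc.comp CF.id.fst) ?_)))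
  · exact RE.and (RE.crc CF.id.fst.fst.fst.snd.snd.fst.fst CF.id.fst.fst.fst.snd.snd.fst.snd.fst
      CF.id.fst.snd.fst) (K4_fix CF.id.fst.fst.snd CF.id.fst.snd.fst)
  · exact RE.and (RE.crc CF.id.fst.fst.fst.snd.snd.fst.fst CF.id.fst.fst.fst.snd.snd.fst.snd.fst
      (CF.aut (CF.inv (hφ.comp CF.id.fst.fst.fst.fst)) CF.id.fst.snd.fst))
      (RE.and (K4_fix CF.id.fst.fst.fst.snd.snd.snd
        (CF.aut (CF.inv (hφ.comp CF.id.fst.fst.fst.fst)) CF.id.fst.snd.fst))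
      (K4_fix CF.id.fst.fst.snd CF.id.fst.snd.fst))
  · exact RE.and (RE.crc CF.id.fst.fst.fst.snd.snd.fst.fst CF.id.fst.fst.fst.snd.snd.fst.snd.fst
      CF.id.fst.snd.fst) (K4_fix CF.id.snd CF.id.fst.snd.fst)
  · exact RE.and (RE.crc CF.id.fst.fst.fst.snd.snd.fst.fst CF.id.fst.fst.fst.snd.snd.fst.snd.fst
      (CF.aut (hφ.comp CF.id.fst.fst.fst.fst) CF.id.fst.snd.fst))
      (RE.and (K4_fix CF.id.fst.fst.fst.snd.fst
        (CF.aut (hφ.comp CF.id.fst.fst.fst.fst) CF.id.fst.snd.fst))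
      (K4_fix CF.id.snd CF.id.fst.snd.fst))

theorem RE.yesc {W : ∀ i, Γ i → List (FreeGroup (A i))} (hW : CF W) : RE fun i x => YesC (W i x) := by
  unfold YesC
  exact RE.ex (RE.ex (RE.and (RE.gt (CF.cons CF.id.fst.snd (CF.map CF.id.snd CF.id.snd.snd.snd))
    (hW.comp CF.id.fst.fst)) (RE.and (RE.ball CF.id.snd
      (RE.cvc (hW.comp CF.id.fst.fst.fst) CF.id.snd)) (K4_seq CF.id.fst.snd CF.id.snd))))

theorem RE.red {P : ∀ m : ℕ, List (FreeGroup (Fin (m + 1))) → Prop}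
    (h : RE fun (j : ℕ × ℕ) (W : List (FreeGroup (Fin (j.2 + 1)))) => P j.2 W) :
    RE fun (n : ℕ) (W : List (FreeGroup (Fin (n + 1)))) => Red P n W := by
  unfold Red
  have : CIdx fun j : ℕ × ℕ => j.1 := ⟨Computable.fst⟩
  refine RE.exIdx (p := fun n W m => ∃ (μ : MulAut (FreeGroup (Fin (n + 1))))
    (W' : List (FreeGroup (Fin (m + 1)))), m ≤ n ∧ OEc W' ∧ P m W' ∧
      W = W'.map fun w => μ (FreeGroup.map (inc m n) w)) ?_
  refine RE.ex (T := fun j : ℕ × ℕ => MulAut (FreeGroup (Fin (j.1 + 1))))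
    (RE.ex (T := fun j : ℕ × ℕ => List (FreeGroup (Fin (j.2 + 1)))) (RE.and
      (DC.re (DC.le (CF.idx fun j : ℕ × ℕ => j.2) (CF.idx fun j : ℕ × ℕ => j.1)))
      (RE.and (RE.oec CF.id.snd) (RE.and (h.comp CF.id.snd) (DC.re (DC.eq ?_ ?_))))))
  · exact CF.id.fst.fst
  · exact CF.map CF.id.snd (CF.aut CF.id.fst.fst.snd (CF.fmap
      (CF.inc (fun j : ℕ × ℕ => j.2) (fun j : ℕ × ℕ => j.1) CF.id.snd) CF.id.snd))

theorem sig_of_re {p : ∀ n : ℕ, List (FreeGroup (Fin (n + 1))) → Prop} (h : RE p) :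
    Sig fun x : ℕ × List (List (ℕ × Bool)) => p x.1 (x.2.map (ev x.1)) := by
  have h1 : Primrec fun x : ℕ × Bool => Nat.pair x.1 (cond x.2 1 0) :=
    Primrec₂.natPair.comp Primrec.fst (Primrec.cond Primrec.snd (Primrec.const 1) (Primrec.const 0))
  have h2 : Primrec fun w : List (ℕ × Bool) =>
      Encodable.encode (w.map fun x => Nat.pair x.1 (cond x.2 1 0)) :=
    Primrec.encode.comp (Primrec.list_map Primrec.id (h1.comp Primrec.snd).to₂)
  have h3 : Primrec fun x : ℕ × List (List (ℕ × Bool)) => (x.1, Encodable.encode (x.2.map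
      fun w => Encodable.encode (w.map fun x => Nat.pair x.1 (cond x.2 1 0)))) :=
    Primrec.fst.pair (Primrec.encode.comp
      (Primrec.list_map Primrec.snd (h2.comp Primrec.snd).to₂))
  have h4 := Sig.comp h h3.to_comp
  have e : ∀ (n : ℕ) (l : List (List (ℕ × Bool))),
      Cod.dec (T := fun n : ℕ => List (FreeGroup (Fin (n + 1)))) n (Encodable.encode (l.map
        fun w => Encodable.encode (w.map fun x => Nat.pair x.1 (cond x.2 1 0)))) = l.map (ev n) := by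
    intro n l
    change (Denumerable.ofNat (List ℕ) _).map _ = _
    rw [Denumerable.ofNat_encode, List.map_map]
    refine List.map_congr_left fun w _ => ?_
    change FreeGroup.mk ((Denumerable.ofNat (List ℕ) _).map _) = FreeGroup.mk _
    rw [Denumerable.ofNat_encode, List.map_map]
    refine congrArg FreeGroup.mk (List.map_congr_left fun x _ => ?_)
    change ((⟨(Nat.unpair _).1 % (n + 1), _⟩ : Fin (n + 1)), (Nat.unpair _).2.bodd) = _
    rcases x with ⟨a, b⟩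
    simp only [Nat.unpair_pair]
    cases b <;> rfl
  simpa only [e] using h4

end Pool.Agent.Work.MP_3bdf32_al
end

-- merged part: Pool.Agent.Work.MP_3bdf32_al.Main
section
/-! Being a fixed subgroup is decidable. -/

namespace Pool.Agent.Work.MP_3bdf32_al

theorem re_fixed : RE fun (n : ℕ) (W : List (FreeGroup (Fin (n + 1)))) => Fixed W :=
  (RE.or (DC.re (DC.ball CF.id (DC.eq CF.id.snd CF.one)))
    (RE.red (P := fun _ W' => YesC W') (RE.yesc CF.id))).of_iff fun _ W => (fixed_iff W).symm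

theorem re_not_fixed : RE fun (n : ℕ) (W : List (FreeGroup (Fin (n + 1)))) => ¬ Fixed W :=
  (RE.red (P := fun _ W' => NoC W') (RE.noc CF.id)).of_iff fun _ W => (not_fixed_iff W).symm

theorem computable_fixed :
    ComputablePred fun x : ℕ × List (List (ℕ × Bool)) => Fixed (x.2.map (ev x.1)) := by
  classical
  exact ComputablePred.computable_iff_re_compl_re'.2
    ⟨(sig_of_re re_fixed).re, (sig_of_re re_not_fixed).re⟩

end Pool.Agent.Work.MP_3bdf32_al
end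
end
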