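import Mathlib

-- merged part: Pool.Agent.Work.MP_3bdf32_al.K1
section
-- merged part: Pool.Agent.Work.MP_3bdf32_al.Defs
section
/-! Definitions for the decision procedure for fixed subgroups: cuts, axes, vertices, twists. -/

namespace Pool.Agent.Work.MP_3bdf32_al

open Subgroup MulAction Filter
open scoped Pointwise

section general

variable {G : Type} [Group G]

/-- the subgroup generated by a list -/
def cl (W : List G) : Subgroup G := closure {w | w ∈ W}

/-- the subgroup generated by `W` is the fixed subgroup of an automorphism -/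
def Fixed (W : List G) : Prop := ∃ φ : MulAut G, ∀ g, g ∈ cl W ↔ φ g = g

/-- the centraliser of one element -/
def cen (g : G) : Subgroup G := centralizer {g}

/-- an axis is the centraliser of a nontrivial element -/
def Ax (Z : Subgroup G) : Prop := ∃ g, g ≠ 1 ∧ Z = cen g

/-- the coboundary of `A` in direction `s` -/
def db (A : Set G) (s : G) : Set G := {x | ¬ (x ∈ A ↔ x * s ∈ A)}

/-- finite coboundary -/
def Clo (A : Set G) : Prop := ∀ s, (db A s).Finite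

/-- a union of left cosets of `H` -/
def Sat (H : Subgroup G) (A : Set G) : Prop := ∀ x, ∀ h ∈ H, (x ∈ A ↔ x * h ∈ A)

/-- one endedness relative to `H` -/
def OE (H : Subgroup G) : Prop :=
  ∀ A, Sat H A → Clo A → A = ∅ ∨ A = Set.univ

/-- `H` is not commutative -/
def NA (H : Subgroup G) : Prop := ∃ a ∈ H, ∃ b ∈ H, ¬ Commute a b

/-- a union of cosets of `H` whose coboundary is finite modulo `Z` -/
def Cut (H Z : Subgroup G) (A : Set G) : Prop :=
  Sat H A ∧ ∀ s, ∃ E : Finset G, ∀ x ∈ db A s, ∃ z ∈ Z, ∃ e ∈ E, x = z * e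

/-- not separated by any cut along `Z` -/
def Eqv (H Z : Subgroup G) (x y : G) : Prop := ∀ A, Cut H Z A → (x ∈ A ↔ y ∈ A)

/-- the smallest cut along `Z` containing `x` -/
def atom (H Z : Subgroup G) (x : G) : Set G := {y | Eqv H Z x y}

def IsAt (H Z : Subgroup G) (C : Set G) : Prop := ∃ x, C = atom H Z x

/-- an axis carrying a nontrivial cut -/
def Sp (H Z : Subgroup G) : Prop := Ax Z ∧ ∃ x y, ¬ Eqv H Z x y

/-- the attracting end of `g` lies in `A` -/
def Ev (A : Set G) (g : G) : Prop := ∀ x, ∀ᶠ n : ℕ in atTop, g ^ n * x ∈ A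

/-- the ends of `Z'` are separated by a cut along `Z` -/
def Crs (H Z Z' : Subgroup G) : Prop :=
  Z ≠ Z' ∧ ∃ g ∈ Z', ∃ A, Cut H Z A ∧ Ev A g ∧ Ev Aᶜ g⁻¹

def Mono (S A : Set G) : Prop := S ⊆ A ∨ S ⊆ Aᶜ

def Nest (A B : Set G) : Prop := Mono A B ∨ Mono Aᶜ B

/-- automorphisms fixing `H` pointwise -/
def StabH (H : Subgroup G) : Subgroup (MulAut G) where
  carrier := {φ | ∀ h ∈ H, φ h = h}
  one_mem' := fun _ _ => rfl
  mul_mem' := fun {a b} ha hb h hh => by rw [MulAut.mul_apply, hb h hh, ha h hh]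
  inv_mem' := fun {a} ha h hh => by
    have := congrArg (⇑a⁻¹) (ha h hh)
    simpa using this.symm

/-- maps `x ↦ k * φ x` with `φ` fixing `H` pointwise -/
def Hol (H : Subgroup G) : Type := G ⋊[(StabH H).subtype] StabH H

instance (H : Subgroup G) : Group (Hol H) :=
  inferInstanceAs (Group (G ⋊[(StabH H).subtype] StabH H))

/-- translations -/
def tl (H : Subgroup G) : G →* Hol H := SemidirectProduct.inl

/-- automorphisms -/
def au (H : Subgroup G) : StabH H →* Hol H := SemidirectProduct.inr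

/-- the linear part -/
def lin (H : Subgroup G) : Hol H →* MulAut G :=
  SemidirectProduct.lift MulAut.conj (StabH H).subtype fun φ => by
    ext n x
    simp

instance (H : Subgroup G) : MulAction (Hol H) G where
  smul γ x := SemidirectProduct.left γ * (SemidirectProduct.right γ).1 x
  one_smul x := by
    change (1 : G) * x = x
    exact one_mul x
  mul_smul a b x := by
    change (SemidirectProduct.left a * (SemidirectProduct.right a).1 (SemidirectProduct.left b)) *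
      (SemidirectProduct.right a).1 ((SemidirectProduct.right b).1 x) =
      SemidirectProduct.left a * (SemidirectProduct.right a).1
        (SemidirectProduct.left b * (SemidirectProduct.right b).1 x)
    rw [map_mul, mul_assoc]

instance (H : Subgroup G) : MulAction (Hol H) (Subgroup G) where
  smul γ Z := lin H γ • Z
  one_smul Z := by
    change lin H 1 • Z = Z
    rw [map_one, one_smul]
  mul_smul a b Z := by
    change lin H (a * b) • Z = lin H a • lin H b • Z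
    rw [map_mul, mul_smul]

/-- splitting axes that do not cross their translates -/
def Simp (H Z : Subgroup G) : Prop := Sp H Z ∧ ∀ k, ¬ Crs H Z (tl H k • Z)

/-- there is an invariant nontrivial cut -/
def TwoS (H Z : Subgroup G) : Prop :=
  ∃ A, Cut H Z A ∧ A.Nonempty ∧ Aᶜ.Nonempty ∧ ∀ z ∈ Z, tl H z • A = A

/-- `A` and its complement are the only nontrivial cuts along `Z` -/
def Two (H Z : Subgroup G) (A : Set G) : Prop :=
  Cut H Z A ∧ A.Nonempty ∧ Aᶜ.Nonempty ∧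
    ∀ B, Cut H Z B → B = ∅ ∨ B = Set.univ ∨ B = A ∨ B = Aᶜ

/-- there are two sides, and they are swapped by the axis -/
def OneS (H Z : Subgroup G) : Prop := ∃ A, Two H Z A ∧ ∃ c ∈ Z, tl H c • A = Aᶜ

/-- two sided simple axes crossed by two sided simple axes -/
def CX (H : Subgroup G) : Set (Subgroup G) :=
  {Z | Simp H Z ∧ TwoS H Z ∧ ∃ Z', Simp H Z' ∧ TwoS H Z' ∧ Crs H Z Z'}

/-- the canonical family -/
def UU (H : Subgroup G) : Set (Subgroup G) :=
  {Z | Simp H Z ∧ Z ∉ CX H ∧ (TwoS H Z ∨ ∀ Z', Simp H Z' → ¬ Crs H Z Z')}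

/-- elements not separated from `1` by the crossed axes -/
def LL (H : Subgroup G) : Set G := {g | ∀ Z ∈ CX H, Eqv H Z 1 g}

/-- the translates of an axis -/
def orb (H Z : Subgroup G) : Set (Subgroup G) := {Z' | ∃ k, Z' = tl H k • Z}

/-- invariant families of pairwise non crossing splitting axes -/
structure Fam (H : Subgroup G) (N : Set (Subgroup G)) : Prop where
  sp : ∀ Z ∈ N, Sp H Z
  inv : ∀ k, ∀ Z ∈ N, tl H k • Z ∈ N
  nc : ∀ Z ∈ N, ∀ Z' ∈ N, ¬ Crs H Z Z'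

/-- `γ` preserves the family -/
def Pres {H : Subgroup G} (N : Set (Subgroup G)) (γ : Hol H) : Prop := ∀ Z, γ • Z ∈ N ↔ Z ∈ N

/-- orientations: a side for every axis -/
@[ext] structure Ori (G : Type) [Group G] where
  s : Subgroup G → Set G

instance (H : Subgroup G) : MulAction (Hol H) (Ori G) where
  smul γ V := ⟨fun Z => γ • V.s (γ⁻¹ • Z)⟩
  one_smul V := by
    change (⟨fun Z => (1 : Hol H) • V.s ((1 : Hol H)⁻¹ • Z)⟩ : Ori G) = V
    simp
  mul_smul a b V := by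
    change (⟨fun Z => (a * b) • V.s ((a * b)⁻¹ • Z)⟩ : Ori G) =
      ⟨fun Z => a • b • V.s (b⁻¹ • a⁻¹ • Z)⟩
    simp [mul_smul]

/-- vertices of the tree dual to a family -/
structure IsV (H : Subgroup G) (N : Set (Subgroup G)) (V : Ori G) : Prop where
  isAt : ∀ Z ∈ N, IsAt H Z (V.s Z)
  out : ∀ Z, Z ∉ N → V.s Z = Set.univ
  meet : ∀ Z Z', (V.s Z ∩ V.s Z').Nonempty
  fin : ∀ x, {Z | x ∉ V.s Z}.Finite

open Classical in
/-- the vertex of a point -/
noncomputable def vx (H : Subgroup G) (N : Set (Subgroup G)) (x : G) : Ori G :=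
  ⟨fun Z => if Z ∈ N then atom H Z x else Set.univ⟩

/-- the atom of `Z` containing the ends of `Z'` -/
def en (H Z Z' : Subgroup G) : Set G := {y | ∃ g ∈ Z', g ≠ 1 ∧ Ev (atom H Z y) g}

open Classical in
/-- the vertex next to the axis `Z` on the side `C` -/
noncomputable def vz (H : Subgroup G) (N : Set (Subgroup G)) (Z : Subgroup G) (C : Set G) :
    Ori G :=
  ⟨fun Z' => if Z' = Z then C else if Z' ∈ N then en H Z' Z else Set.univ⟩

/-- the axis `Z` is adjacent to the vertex `V` -/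
def Adj (V : Ori G) (Z : Subgroup G) : Prop :=
  V.s Z ≠ Set.univ ∧ ∀ Z', V.s Z' ⊆ V.s Z → Z' = Z

/-- `x` and `y` are behind the same adjacent axis -/
def Beh (V : Ori G) (x y : G) : Prop := ∃ Z, Adj V Z ∧ x ∉ V.s Z ∧ y ∉ V.s Z

/-- the vertex group -/
def GV (H : Subgroup G) (V : Ori G) : Subgroup G := (stabilizer (Hol H) V).comap (tl H)

/-- a vertex of the canonical family containing a crossed axis -/
def Flex (H : Subgroup G) (V : Ori G) : Prop := ∃ Z ∈ CX H, ∃ g ∈ Z, g ≠ 1 ∧ g ∈ GV H V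

/-- simple axes in vertices of the canonical family that are not flexible -/
def OO (H : Subgroup G) : Set (Subgroup G) :=
  {Z | Simp H Z ∧ Z ∉ UU H ∧
    ∃ V, IsV H (UU H) V ∧ ¬ Flex H V ∧ ∃ g ∈ Z, g ≠ 1 ∧ g ∈ GV H V}

/-- `V` lies between the points `x` and `y` -/
def Btw (V : Ori G) (x y : G) : Prop := ∀ Z, x ∈ V.s Z ∨ y ∈ V.s Z

open Classical in
/-- restriction of an orientation to a smaller family -/
noncomputable def res (N : Set (Subgroup G)) (V : Ori G) : Ori G :=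
  ⟨fun Z => if Z ∈ N then V.s Z else Set.univ⟩

/-- `U` contains ends of `Γ` inside and outside `P` -/
def Spl (Γ : Subgroup G) (P U : Set G) : Prop :=
  ∃ g ∈ Γ, ∃ g' ∈ Γ, g ≠ 1 ∧ g' ≠ 1 ∧ Ev (U ∩ P) g ∧ Ev (U ∩ Pᶜ) g'

/-- `x` and `y` are the endpoints of a segment -/
def Sg (W : List G) (x y : G) : Prop := ∃ h ∈ W, y = x * h ∨ x = y * h

/-- `S` is connected by segments -/
def Conn (W : List G) (S : Set G) : Prop :=
  ∀ P, Clo P → (S ∩ P).Nonempty → (S ∩ Pᶜ).Nonempty → ∃ x ∈ S ∩ P, ∃ y ∈ S ∩ Pᶜ, Sg W x y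

/-- the ordered pairs of endpoints of the segments leaving `U` -/
def lv (W : List G) (U : Set G) : Set (G × G) := {p | Sg W p.1 p.2 ∧ p.1 ∈ U ∧ p.2 ∉ U}

/-- `P` and `P'` agree on the segments crossing the boundary of `U` -/
def Agr (W : List G) (U P P' : Set G) : Prop :=
  ∀ p ∈ lv W U, (p.1 ∈ P ↔ p.1 ∈ P') ∧ (p.2 ∈ P ↔ p.2 ∈ P')

/-- a set or its complement -/
def sg (b : Bool) (P : Set G) : Set G := if b then P else Pᶜ

/-- the sides of the translates of `D` by the vertex group -/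
def arcs (H : Subgroup G) (V : Ori G) (D : Set G) : Set (Set G) :=
  {F | ∃ k ∈ GV H V, F = k • D ∨ F = k • Dᶜ}

/-- `F` separates the ends of `Y` -/
def Sep (F : Set G) (Y : Subgroup G) : Prop := ∃ y ∈ Y, y ≠ 1 ∧ Ev F y ∧ Ev Fᶜ y⁻¹

/-- a consistent choice of far sides -/
structure Orn (A O : Set (Set G)) : Prop where
  sub : O ⊆ A
  compl : ∀ F ∈ A, (F ∈ O ↔ Fᶜ ∉ O)
  down : ∀ F ∈ A, ∀ F' ∈ O, F ⊆ F' → F ∈ O
  acc : ∀ F ∈ O, ∃ F', F ⊆ F' ∧ Maximal (· ∈ O) F'

/-- a chain of maximal far sides `F n`, joined along the adjacent axes `Y n` -/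
structure Chn (V : Ori G) (O : Set (Set G)) (F : ℤ → Set G) (Y : ℤ → Subgroup G) : Prop where
  max : ∀ n, Maximal (· ∈ O) (F n)
  adj : ∀ n, Adj V (Y n)
  ne : ∀ n, Y n ≠ Y (n + 1)
  disj : ∀ n, Disjoint (F n) (F (n + 1))
  ends : ∀ n, ∃ y ∈ Y (n + 1), y ≠ 1 ∧ Ev (F (n + 1)) y ∧ Ev (F n) y⁻¹

/-- the region bounded by a chain -/
def cK (V : Ori G) (F : ℤ → Set G) (Y : ℤ → Subgroup G) : Set G :=
  {x | ∀ n, x ∉ F n ∧ x ∈ V.s (Y n)}

/-- the setting for chains: the two sided cut `D` along `d` crosses an axis adjacent to `V` -/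
structure Arc (H : Subgroup G) (N : Set (Subgroup G)) (V : Ori G) (d : Subgroup G) (D : Set G) :
    Prop where
  fam : Fam H N
  isV : IsV H N V
  simp : Simp H d
  two : Two H d D
  sep : ∃ Y, Adj V Y ∧ Sep D Y

/-- twist parameters -/
structure Par (H : Subgroup G) (τ : Subgroup G → Set G → G) : Prop where
  mem : ∀ Z C, τ Z C ∈ Z
  equi : ∀ k Z C, τ (tl H k • Z) (tl H k • C) = k * τ Z C * k⁻¹

/-- potentials for a labelling of the edges -/
def Pot (H : Subgroup G) (N : Set (Subgroup G)) {Γ : Type} [Group Γ]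
    (l : Subgroup G → Set G → Γ) (ψ : Ori G → Γ) : Prop :=
  ψ (vx H N 1) = 1 ∧ ∀ V Z C, IsV H N V → Adj V Z → IsAt H Z C →
    ψ (vz H N Z C) = ψ V * (l Z (V.s Z))⁻¹ * l Z C

/-- `T` is the twist with parameter `τ` -/
def Tw (H : Subgroup G) (N : Set (Subgroup G)) (τ : Subgroup G → Set G → G) (T : MulAut G) :
    Prop := ∃ ψ, Pot H N τ ψ ∧ ∀ g, T g = ψ (vx H N g) * g

open Classical in
/-- the basic parameter supported on the translates of one side of one axis -/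
noncomputable def bp (H Z₀ : Subgroup G) (z₀ : G) (C₀ : Set G) (Z : Subgroup G) (C : Set G) : G :=
  if h : ∃ k, tl H k • Z₀ = Z ∧ tl H k • C₀ = C then h.choose * z₀ * h.choose⁻¹ else 1

/-- transport of parameters -/
def pull {H : Subgroup G} (θ : StabH H) (τ : Subgroup G → Set G → G) (Z : Subgroup G)
    (C : Set G) : G := θ.1 (τ ((au H θ)⁻¹ • Z) ((au H θ)⁻¹ • C))

/-- the number of translates of `Z` separating `1` from `g` -/
noncomputable def xn (H Z : Subgroup G) (g : G) : ℕ := {Z' ∈ orb H Z | ¬ Eqv H Z' 1 g}.ncard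

/-- a two sided simple curve with exactly two sides, and its twist -/
structure Cv (H : Subgroup G) (z : G) (T : MulAut G) : Prop where
  ne : z ≠ 1
  gen : zpowers z = cen z
  simp : Simp H (cen z)
  tw : ∃ A, Two H (cen z) A ∧ tl H z • A = A ∧ Tw H (orb H (cen z)) (bp H (cen z) z A) T

/-- the conjugacy classes cross -/
def OCr (H : Subgroup G) (z d : G) : Prop := ∃ k, Crs H (cen z) (tl H k • cen d)

/-- the crossing pattern needed for the ping pong argument -/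
def Seq {β : Type} (Cr : β → G → Prop) (z : β → G) (T : β → MulAut G) (φ : MulAut G)
    (c : List β) : Prop :=
  ∀ l₁ a l₂, c = l₁ ++ a :: l₂ →
    ((∃ l₃ b l₄, l₂ = l₃ ++ b :: l₄ ∧ Cr a (z b) ∧ ∀ k ∈ l₃, IsConj (z b) (T k (z b))) ∨
      ∃ l₃ b l₄, c = l₃ ++ b :: l₄ ∧ Cr a (φ⁻¹ (z b)) ∧
        (∀ k ∈ l₂, IsConj (φ⁻¹ (z b)) (T k (φ⁻¹ (z b)))) ∧ ∀ k ∈ l₃, IsConj (z b) (T k (z b))) ∧
    ((∃ l₃ b l₄, l₁ = l₃ ++ b :: l₄ ∧ Cr a (z b) ∧ ∀ k ∈ l₄, IsConj (z b) (T k (z b))) ∨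
      ∃ l₃ b l₄, c = l₃ ++ b :: l₄ ∧ Cr a (φ (z b)) ∧
        (∀ k ∈ l₁, IsConj (φ (z b)) (T k (φ (z b)))) ∧ ∀ k ∈ l₄, IsConj (z b) (T k (z b)))

end general

section free

variable {X : Type} [DecidableEq X]

/-- the metric of the Cayley tree -/
def cd (x y : FreeGroup X) : ℤ := (x⁻¹ * y).norm

/-- a letter -/
def lt (s : X × Bool) : FreeGroup X := FreeGroup.mk [s]

/-- the points closer to `y` than to `x` -/
def hs (x y : FreeGroup X) : Set (FreeGroup X) := {w | cd w y < cd w x}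

/-- half trees -/
def HT (U : Set (FreeGroup X)) : Prop := ∃ x y, cd x y = 1 ∧ U = hs x y

/-- the standing hypothesis: half trees are connected, and one endedness -/
structure Bx (W : List (FreeGroup X)) : Prop where
  bond : ∀ U, HT U → Conn W U
  oe : OE (cl W)

/-- geodesic lines -/
def Line (a : ℤ → FreeGroup X) : Prop := ∀ i j, cd (a i) (a j) = |i - j|

/-- `g` translates along the line `a` by `l` -/
def AxL (g : FreeGroup X) (a : ℤ → FreeGroup X) (l : ℤ) : Prop :=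
  Line a ∧ 0 < l ∧ ∀ i, g * a i = a (i + l)

/-- the half trees along a line -/
def hl (a : ℤ → FreeGroup X) (i : ℤ) : Set (FreeGroup X) := hs (a i) (a (i + 1))

open Classical in
/-- the projection to a line -/
noncomputable def pr (a : ℤ → FreeGroup X) (y : FreeGroup X) : ℤ :=
  if h : ∃ i, ∀ j, cd y (a i) ≤ cd y (a j) then h.choose else 0

/-- the attracting end of `g` projects to the point `p` of the line `a` -/
def Pos (a : ℤ → FreeGroup X) (g : FreeGroup X) (p : ℤ) : Prop :=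
  ∀ y, ∀ᶠ n : ℕ in atTop, pr a (g ^ n * y) = p

/-- a window of a line along which `P` splits the ends of `Γ` on both sides, without
segments leaving `P` -/
structure Win (W : List (FreeGroup X)) (Γ : Subgroup (FreeGroup X)) (P : Set (FreeGroup X))
    (a : ℤ → FreeGroup X) (p q : ℤ) : Prop where
  line : Line a
  spl : ∀ i, p ≤ i → i ≤ q → Spl Γ P (hl a i) ∧ Spl Γ P (hl a i)ᶜ
  wf : ∀ t ∈ lv W P, (t.1 ∉ hl a p ∧ t.2 ∉ hl a p) ∨ (t.1 ∈ hl a q ∧ t.2 ∈ hl a q)
  tr : ∀ i, p ≤ i → i ≤ q → (∃ t ∈ lv W (hl a i), t.1 ∈ P) ∧ ∃ t ∈ lv W (hl a i), t.1 ∉ P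
  mono : ∀ U, HT U → U ⊆ hl a p \ hl a q → Mono U P
  nest : ∀ k ∈ Γ, Nest P (k • P)
  free : ∀ k ∈ Γ, k ≠ 1 → k • P ≠ P ∧ k • P ≠ Pᶜ

/-- every cut along an element of `Γ` that does not cross its translates by `Γ` has an invariant
side containing all other ends of `Γ` -/
def MaxS (H Γ : Subgroup (FreeGroup X)) : Prop :=
  ∀ z ∈ Γ, z ≠ 1 → ∀ A, Cut H (cen z) A → A.Nonempty → Aᶜ.Nonempty →
    (∀ k ∈ Γ, ¬ Commute k z → ∀ e, (e = k * z * k⁻¹ ∨ e = k * z⁻¹ * k⁻¹) →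
      ¬ (Ev A e ∧ Ev Aᶜ e⁻¹)) →
    ∃ C, C.Nonempty ∧ Mono C A ∧ z • C = C ∧ ∀ g ∈ Γ, ¬ Commute g z → Ev C g

end free

end Pool.Agent.Work.MP_3bdf32_al
end

-- merged part: Pool.Agent.Work.MP_3bdf32_al.CDefs
section
/-! Definitions of the certificates. -/

namespace Pool.Agent.Work.MP_3bdf32_al

open Subgroup
open scoped Pointwise

variable {X : Type} [DecidableEq X]

/-- `u` starts with the letter `s` -/
def St (u : FreeGroup X) (s : X × Bool) : Prop := ((lt s)⁻¹ * u).norm < u.norm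

/-- `p` ends with the letter `s` -/
def En (p : FreeGroup X) (s : X × Bool) : Prop := (p * (lt s)⁻¹).norm < p.norm

def Lip (l : ℕ) (φ : MulAut (FreeGroup X)) : Prop :=
  ∀ x, (φ (FreeGroup.of x)).norm ≤ l ∧ (φ⁻¹ (FreeGroup.of x)).norm ≤ l

def Kc (l : ℕ) : ℕ := 10 * (l + 1) ^ 5

/-- the letter `s` may follow `p` in a word fixed by all of `Φ` -/
def Alw (K : ℕ) (Φ : List (MulAut (FreeGroup X))) (p : FreeGroup X) (s : X × Bool) : Prop :=
  p.norm < (p * lt s).norm ∧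
    ∀ φ ∈ Φ, (p⁻¹ * φ p).norm ≤ K ∨ St (p⁻¹ * φ p) s ∨ St (p⁻¹ * φ⁻¹ p) s

/-- a finite closed set of states -/
def GTc (M : FreeGroup X → Prop) (Φ : List (MulAut (FreeGroup X))) (l : ℕ)
    (R : List (FreeGroup X)) : Prop :=
  (∀ φ ∈ Φ, Lip l φ) ∧ 1 ∈ R ∧
    (∀ p ∈ R, ∀ s, Alw (Kc l) Φ p s → ∃ p' ∈ R, En p' s ∧ M (p * lt s * p'⁻¹)) ∧
    ∀ p ∈ R, (∀ φ ∈ Φ, φ p = p) → M p

/-- certificate for: the common fixed subgroup of `Φ` is generated by `W` -/
def GT (Φ : List (MulAut (FreeGroup X))) (W : List (FreeGroup X)) : Prop :=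
  (∀ φ ∈ Φ, ∀ h ∈ W, φ h = h) ∧ ∃ l R, GTc (· ∈ cl W) Φ l R

/-- each automorphism has linear growth on the common fixed subgroup of the later ones -/
def LG : List (MulAut (FreeGroup X)) → Prop
  | [] => True
  | φ :: Φ => LG Φ ∧ ∀ g, (∀ ψ ∈ Φ, ψ g = g) →
      ∃ C : ℕ, ∀ k : ℤ, ((φ ^ k) g).norm ≤ C * (k.natAbs + 1)

/-- total length -/
def len (W : List (FreeGroup X)) (μ : MulAut (FreeGroup X)) : ℕ :=
  (W.map fun h => (μ h).norm).sum

/-- a small move that does not increase the length -/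
def Mv (W : List (FreeGroup X)) (ν ν' : MulAut (FreeGroup X)) : Prop :=
  ∃ ω, Lip 3 ω ∧ ν' = ω * ν ∧ len W ν' ≤ len W ν

/-- the number of segments crossing the boundary of `U`, with multiplicity -/
noncomputable def wt {G : Type} [Group G] (W : List G) (U : Set G) : ℕ :=
  (W.map fun h => (db U h).ncard).sum

/-- the basic half trees of the basis given by `μ` -/
def bs (μ : MulAut (FreeGroup X)) (x : X) : Set (FreeGroup X) := μ⁻¹ • hs 1 (FreeGroup.of x)

/-- all half trees of the basis given by `μ` -/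
def Ef (μ : MulAut (FreeGroup X)) : Set (Set (FreeGroup X)) := {U | HT (μ • U)}

/-- the intersection number of two bases -/
noncomputable def cx [Fintype X] (μ ν : MulAut (FreeGroup X)) : ℕ :=
  ∑ x, ∑ y, {k : FreeGroup X | ¬ Nest (bs μ x) (k • bs ν y)}.ncard

/-- certificate for one endedness -/
def OEc (W : List (FreeGroup X)) : Prop :=
  (∀ ω, Lip 3 ω → len W 1 ≤ len W ω) ∧ ∀ x : X, ∃ h ∈ W, ∃ b, (x, b) ∈ h.toWord

/-- certificate for: `Y` generates the pointwise stabiliser of `W` -/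
def McC (Y : List (MulAut (FreeGroup X))) (W : List (FreeGroup X)) : Prop :=
  (∀ y ∈ Y, ∀ h ∈ W, y h = h) ∧ ∃ (l : ℕ) (V : List (MulAut (FreeGroup X))), V ≠ [] ∧
    ∀ μ ∈ V, len W μ = l ∧ (∀ μ' ∈ V, (∀ h ∈ W, μ h = μ' h) → μ'⁻¹ * μ ∈ Y) ∧
      ∀ ω, Lip 3 ω → len W (ω * μ) ≤ l → ∃ μ' ∈ V, μ'⁻¹ * (ω * μ) ∈ Y

/-- equal on the members of `J` -/
def EqL {G : Type} [Group G] (J : List G) (a b : MulAut G) : Prop := ∀ x ∈ J, a x = b x

/-- certificate for: not a fixed subgroup -/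
def NoC (W : List (FreeGroup X)) : Prop :=
  ∃ (Y : List (MulAut (FreeGroup X))) (J : List (FreeGroup X))
    (τ : List (MulAut (FreeGroup X))) (Θ : List (MulAut (FreeGroup X) × FreeGroup X)),
    McC Y W ∧ (∀ y ∈ Y, ∀ x ∈ J, y x ∈ cl J ∧ y⁻¹ x ∈ cl J) ∧
    (∀ t ∈ τ, (∀ h ∈ W, t h = h) ∧ ∀ t' ∈ τ, EqL J (t * t') (t' * t)) ∧
    (∃ p ∈ Θ, ∃ σ ∈ cl τ, EqL J (p.1 * σ * σ) 1) ∧
    ∀ p ∈ Θ, (∀ h ∈ W, p.1 h = h) ∧ p.2 ∈ cl J ∧ p.2 ∉ cl W ∧ p.1 p.2 = p.2 ∧
      (∀ t ∈ τ, t p.2 = p.2 ∨ EqL J (p.1 * t) (t⁻¹ * p.1)) ∧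
      ∀ y ∈ Y, (∃ p' ∈ Θ, ∃ σ ∈ cl τ, EqL J (y * p.1) (p'.1 * σ * σ)) ∧
        ∃ p' ∈ Θ, ∃ σ ∈ cl τ, EqL J (y⁻¹ * p.1) (p'.1 * σ * σ)

/-- certificate for non membership -/
def NM (W : List (FreeGroup X)) (g : FreeGroup X) : Prop :=
  ∃ (n : ℕ) (π : X → MulAut (FreeGroup (Fin (n + 1)))),
    (∀ w ∈ W, FreeGroup.lift π w (FreeGroup.of 0) = FreeGroup.of 0) ∧
      FreeGroup.lift π g (FreeGroup.of 0) ≠ FreeGroup.of 0

/-- the extra letter -/
def zet : FreeGroup (Option X) := FreeGroup.of none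

/-- the inclusion -/
def io : FreeGroup X →* FreeGroup (Option X) := FreeGroup.map some

/-- a product of conjugates of the extra letter -/
def wd (l : List (FreeGroup X × Bool)) : FreeGroup (Option X) :=
  (l.map fun p => io p.1 * (if p.2 then zet else zet⁻¹) * (io p.1)⁻¹).prod

def rho (ρ : X → List (FreeGroup X × Bool)) : FreeGroup X →* FreeGroup (Option X) :=
  FreeGroup.lift fun x => wd (ρ x) * io (FreeGroup.of x)

/-- congruence modulo the commutator of `z` and the extra letter -/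
def Cg (z : FreeGroup X) (u v : FreeGroup (Option X)) : Prop :=
  u⁻¹ * v ∈ normalClosure {io z * zet * (io z)⁻¹ * zet⁻¹}

/-- substitution of `z` for the extra letter -/
def piz (z : FreeGroup X) : FreeGroup (Option X) →* FreeGroup X :=
  FreeGroup.lift fun o => o.elim z FreeGroup.of

/-- the free group on the cosets of `z` -/
abbrev Kz {G : Type} [Group G] (z : G) := FreeGroup (G ⧸ zpowers z)

/-- the action on the free group on the cosets -/
def ac {G : Type} [Group G] (z : G) : G →* MulAut (Kz z) where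
  toFun k := FreeGroup.freeGroupCongr (MulAction.toPerm k)
  map_one' := by
    apply MulEquiv.toMonoidHom_injective
    ext x; simp
  map_mul' a b := by
    apply MulEquiv.toMonoidHom_injective
    ext x; simp [mul_smul]

/-- the quotient by the commutator of `z` and the extra letter -/
def PiZ (z : FreeGroup X) : FreeGroup (Option X) →* Kz z ⋊[ac z] FreeGroup X :=
  FreeGroup.lift fun o => o.elim (SemidirectProduct.inl (FreeGroup.of ((1 : FreeGroup X) : _ ⧸ _)))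
    fun x => SemidirectProduct.inr (FreeGroup.of x)

/-- certificate for a splitting over `z` -/
def TS (W : List (FreeGroup X)) (z : FreeGroup X) (ρ : X → List (FreeGroup X × Bool)) : Prop :=
  Cg z (rho ρ z) (io z) ∧ (∀ h ∈ W, Cg z (rho ρ h) (io h)) ∧
    ∀ x l₁ p l₂, ρ x = l₁ ++ p :: l₂ →
      Cg z (rho ρ p.1) (wd (if p.2 then l₁ else l₁ ++ [p]) * io p.1)

/-- the number of occurrences of the extra letter with sign `b` on the coset of `1` -/
def cn (z : FreeGroup X) (b : Bool) (u : FreeGroup (Option X)) : ℕ :=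
  ((List.range u.toWord.length).filter fun i => u.toWord[i]? = some (none, b) ∧
    piz 1 (FreeGroup.mk (u.toWord.take i)) * z = z * piz 1 (FreeGroup.mk (u.toWord.take i))).length

/-- the far side of the splitting -/
def InA (z : FreeGroup X) (ρ : X → List (FreeGroup X × Bool)) (g : FreeGroup X) : Prop :=
  cn z true (rho ρ g) ≠ cn z false (rho ρ g)

/-- certificate for crossing -/
def CrC (z : FreeGroup X) (ρ : X → List (FreeGroup X × Bool)) (d : FreeGroup X) : Prop :=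
  ∃ k x e, (e = k * d * k⁻¹ ∨ e = k * d⁻¹ * k⁻¹) ∧ ¬ InA z ρ x ∧ ¬ InA z ρ (e⁻¹ * x) ∧
    InA z ρ (e * x) ∧ InA z ρ (e * e * x)

/-- the data of a curve -/
abbrev CD (X : Type) := FreeGroup X × (X → List (FreeGroup X × Bool)) × MulAut (FreeGroup X)

/-- certificate for a curve and its twist -/
def CvC (W : List (FreeGroup X)) (p : CD X) : Prop :=
  p.1 ≠ 1 ∧ GT [MulAut.conj p.1] [p.1] ∧ TS W p.1 p.2.1 ∧
    ∀ x, p.2.2 (FreeGroup.of x) = piz p.1 (rho p.2.1 (FreeGroup.of x))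

/-- certificate for: a fixed subgroup -/
def YesC (W : List (FreeGroup X)) : Prop :=
  ∃ (φ : MulAut (FreeGroup X)) (c : List (CD X)), GT (φ :: c.map fun p => p.2.2) W ∧
    (∀ p ∈ c, CvC W p) ∧
    Seq (fun p d => CrC p.1 p.2.1 d) (fun p => p.1) (fun p => p.2.2) φ c

/-- the element represented by a word -/
def ev (n : ℕ) (w : List (ℕ × Bool)) : FreeGroup (Fin (n + 1)) :=
  FreeGroup.mk (w.map fun x : ℕ × Bool =>
    ((⟨x.1 % (n + 1), Nat.mod_lt x.1 (Nat.succ_pos n)⟩ : Fin (n + 1)), x.2))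

/-- the inclusion of the first letters -/
def inc (m n : ℕ) (x : Fin (m + 1)) : Fin (n + 1) := ⟨x.1 % (n + 1), Nat.mod_lt _ (Nat.succ_pos n)⟩

/-- `W` comes from a one ended list in a free factor for which `P` holds -/
def Red (P : ∀ m : ℕ, List (FreeGroup (Fin (m + 1))) → Prop) (n : ℕ)
    (W : List (FreeGroup (Fin (n + 1)))) : Prop :=
  ∃ (m : ℕ) (μ : MulAut (FreeGroup (Fin (n + 1)))) (W' : List (FreeGroup (Fin (m + 1)))),
    m ≤ n ∧ OEc W' ∧ P m W' ∧ W = W'.map fun w => μ (FreeGroup.map (inc m n) w)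

end Pool.Agent.Work.MP_3bdf32_al
end

-- merged part: Pool.Agent.Work.MP_3bdf32_al.Hol
section
/-! Invariance of all notions under translations and automorphisms fixing `H`. -/

namespace Pool.Agent.Work.MP_3bdf32_al

set_option linter.unusedSectionVars false
set_option linter.unusedVariables false

open Subgroup MulAction Filter
open scoped Pointwise

variable {G : Type} [Group G] {H : Subgroup G}

theorem mem_cen {g a : G} : a ∈ cen g ↔ Commute a g := by
  rw [cen, mem_centralizer_singleton_iff]; rfl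

theorem mem_stabH {φ : MulAut G} : φ ∈ StabH H ↔ ∀ h ∈ H, φ h = h := Iff.rfl

theorem mem_cl {W : List G} {w : G} (h : w ∈ W) : w ∈ cl W := subset_closure h

theorem stabH_cl {W : List G} {φ : MulAut G} : φ ∈ StabH (cl W) ↔ ∀ h ∈ W, φ h = h := by
  refine ⟨fun a h hh => a h (mem_cl hh), fun a h hh => ?_⟩
  induction hh using closure_induction with
  | mem x hx => exact a x hx
  | one => exact map_one _
  | mul x y _ _ hx hy => rw [map_mul, hx, hy]
  | inv x _ hx => rw [map_inv, hx]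

theorem hol_smul (γ : Hol H) (x : G) :
    γ • x = SemidirectProduct.left γ * (SemidirectProduct.right γ).1 x := rfl

@[simp] theorem tl_smul (k x : G) : tl H k • x = k * x := rfl

@[simp] theorem au_smul (φ : StabH H) (x : G) : au H φ • x = φ.1 x := one_mul _

@[simp] theorem lin_tl (k : G) : lin H (tl H k) = MulAut.conj k :=
  SemidirectProduct.lift_inl _ _ _ _

@[simp] theorem lin_au (φ : StabH H) : lin H (au H φ) = φ.1 :=
  SemidirectProduct.lift_inr _ _ _ _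

theorem tl_set (k : G) (A : Set G) : tl H k • A = k • A := rfl

theorem tl_sub (k : G) (Z : Subgroup G) : tl H k • Z = MulAut.conj k • Z := by
  change lin H (tl H k) • Z = _
  rw [lin_tl]

theorem hol_eq (γ : Hol H) : ∃ k φ, γ = tl H k * au H φ :=
  ⟨_, _, (SemidirectProduct.inl_left_mul_inr_right γ).symm⟩

theorem lin_apply (γ : Hol H) (g : G) : lin H γ g =
    SemidirectProduct.left γ * (SemidirectProduct.right γ).1 g * (SemidirectProduct.left γ)⁻¹ :=
  rfl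

theorem smul_mul_left (γ : Hol H) (g x : G) : γ • (g * x) = lin H γ g * γ • x := by
  rw [hol_smul, hol_smul, lin_apply, map_mul]; group

theorem smul_mul_right (γ : Hol H) :
    ∃ φ ∈ StabH H, ∀ x s : G, γ • (x * s) = γ • x * φ s :=
  ⟨(SemidirectProduct.right γ).1, (SemidirectProduct.right γ).2, fun x s => by
    rw [hol_smul, hol_smul, map_mul, mul_assoc]⟩

theorem tl_conj (γ : Hol H) (k : G) : γ * tl H k * γ⁻¹ = tl H (lin H γ k) := by
  obtain ⟨a, φ, rfl⟩ := hol_eq γ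
  have : au H φ * tl H k * (au H φ)⁻¹ = tl H (φ.1 k) := by
    rw [← map_inv]; exact (SemidirectProduct.inl_aut φ k).symm
  rw [map_mul, lin_tl, lin_au, MulAut.mul_apply, MulAut.conj_apply, map_mul, map_mul, ← this,
    map_inv]
  group

theorem smul_tl {α : Type} [MulAction (Hol H) α] (γ : Hol H) (k : G) (a : α) :
    γ • tl H k • a = tl H (lin H γ k) • γ • a := by
  rw [← tl_conj, mul_smul, mul_smul, inv_smul_smul]

theorem mem_smul_sub {γ : Hol H} {Z : Subgroup G} {g : G} : g ∈ γ • Z ↔ lin H γ⁻¹ g ∈ Z := by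
  change g ∈ lin H γ • Z ↔ _
  rw [mem_pointwise_smul_iff_inv_smul_mem, map_inv]; rfl

theorem lin_inv_lin (γ : Hol H) (g : G) : lin H γ⁻¹ (lin H γ g) = g := by
  rw [← MulAut.mul_apply, ← map_mul, inv_mul_cancel, map_one, MulAut.one_apply]

theorem lin_lin_inv (γ : Hol H) (g : G) : lin H γ (lin H γ⁻¹ g) = g := by
  rw [← MulAut.mul_apply, ← map_mul, mul_inv_cancel, map_one, MulAut.one_apply]

theorem lin_mem {γ : Hol H} {Z : Subgroup G} {g : G} : lin H γ g ∈ γ • Z ↔ g ∈ Z := by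
  rw [mem_smul_sub, lin_inv_lin]

theorem mem_tl_sub {k g : G} {Z : Subgroup G} : g ∈ tl H k • Z ↔ k⁻¹ * g * k ∈ Z := by
  rw [mem_smul_sub, ← map_inv, lin_tl, MulAut.conj_apply, inv_inv]

theorem mem_tl_set {k x : G} {A : Set G} : x ∈ tl H k • A ↔ k⁻¹ * x ∈ A := by
  rw [Set.mem_smul_set_iff_inv_smul_mem, ← map_inv, tl_smul]

theorem cen_smul (γ : Hol H) (g : G) : γ • cen g = cen (lin H γ g) := by
  ext a
  rw [mem_smul_sub, mem_cen, mem_cen]
  constructor
  · intro c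
    have := c.map (lin H γ)
    rwa [lin_lin_inv] at this
  · intro c
    have := c.map (lin H γ⁻¹)
    rwa [lin_inv_lin] at this

theorem lin_ne {γ : Hol H} {g : G} (h : g ≠ 1) : lin H γ g ≠ 1 := by
  simpa using h

theorem Ax.smul {Z : Subgroup G} (h : Ax Z) (γ : Hol H) : Ax (γ • Z) := by
  obtain ⟨g, hg, rfl⟩ := h
  exact ⟨_, lin_ne hg, cen_smul γ g⟩

theorem smul_compl (γ : Hol H) (A : Set G) : γ • Aᶜ = (γ • A)ᶜ := Set.smul_set_compl

theorem Cut.smul {Z : Subgroup G} {A : Set G} (h : Cut H Z A) (γ : Hol H) :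
    Cut H (γ • Z) (γ • A) := by
  classical
  obtain ⟨φ, hφ, e⟩ := smul_mul_right γ⁻¹
  refine ⟨fun x a ha => ?_, fun s => ?_⟩
  · rw [Set.mem_smul_set_iff_inv_smul_mem, Set.mem_smul_set_iff_inv_smul_mem, e, hφ a ha]
    exact h.1 _ a ha
  · obtain ⟨E, hE⟩ := h.2 (φ s)
    refine ⟨E.image fun a => γ • a, fun x hx => ?_⟩
    obtain ⟨z, hz, a, ha, e'⟩ := hE (γ⁻¹ • x) (by
      intro c
      apply hx
      rw [Set.mem_smul_set_iff_inv_smul_mem, Set.mem_smul_set_iff_inv_smul_mem, e]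
      exact c)
    refine ⟨lin H γ z, lin_mem.2 hz, γ • a, Finset.mem_image_of_mem _ ha, ?_⟩
    rw [← smul_mul_left, ← e', smul_inv_smul]

theorem cut_smul_iff {Z : Subgroup G} {A : Set G} (γ : Hol H) :
    Cut H (γ • Z) (γ • A) ↔ Cut H Z A :=
  ⟨fun h => by simpa using h.smul γ⁻¹, fun h => h.smul γ⟩

theorem Eqv.smul {Z : Subgroup G} {x y : G} (h : Eqv H Z x y) (γ : Hol H) :
    Eqv H (γ • Z) (γ • x) (γ • y) := by
  intro A hA
  have := h (γ⁻¹ • A) (by simpa using hA.smul γ⁻¹)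
  rwa [Set.mem_inv_smul_set_iff, Set.mem_inv_smul_set_iff] at this

theorem eqv_smul_iff {Z : Subgroup G} {x y : G} (γ : Hol H) :
    Eqv H (γ • Z) (γ • x) (γ • y) ↔ Eqv H Z x y :=
  ⟨fun h => by simpa using h.smul γ⁻¹, fun h => h.smul γ⟩

theorem atom_smul (γ : Hol H) (Z : Subgroup G) (x : G) :
    γ • atom H Z x = atom H (γ • Z) (γ • x) := by
  ext y
  rw [Set.mem_smul_set_iff_inv_smul_mem]
  change Eqv H Z x (γ⁻¹ • y) ↔ Eqv H (γ • Z) (γ • x) y
  rw [← eqv_smul_iff γ, smul_inv_smul]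

theorem IsAt.smul {Z : Subgroup G} {C : Set G} (h : IsAt H Z C) (γ : Hol H) :
    IsAt H (γ • Z) (γ • C) := by
  obtain ⟨x, rfl⟩ := h
  exact ⟨_, atom_smul γ Z x⟩

theorem Sp.smul {Z : Subgroup G} (h : Sp H Z) (γ : Hol H) : Sp H (γ • Z) := by
  obtain ⟨a, x, y, n⟩ := h
  exact ⟨a.smul γ, γ • x, γ • y, fun e => n ((eqv_smul_iff γ).1 e)⟩

theorem Ev.smul {A : Set G} {g : G} (h : Ev A g) (γ : Hol H) : Ev (γ • A) (lin H γ g) := by
  intro x
  filter_upwards [h (γ⁻¹ • x)] with n hn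
  rw [← smul_inv_smul γ x, ← map_pow, ← smul_mul_left]
  exact Set.smul_mem_smul_set hn

theorem ev_smul_iff {A : Set G} {g : G} (γ : Hol H) : Ev (γ • A) (lin H γ g) ↔ Ev A g :=
  ⟨fun h => by simpa [lin_inv_lin] using h.smul γ⁻¹, fun h => h.smul γ⟩

theorem Crs.smul {Z Z' : Subgroup G} (h : Crs H Z Z') (γ : Hol H) : Crs H (γ • Z) (γ • Z') := by
  obtain ⟨n, g, hg, A, hA, e1, e2⟩ := h
  refine ⟨fun e => n (smul_left_cancel γ e), lin H γ g, lin_mem.2 hg, γ • A, hA.smul γ,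
    e1.smul γ, ?_⟩
  rw [← smul_compl, ← map_inv]
  exact e2.smul γ

theorem crs_smul_iff {Z Z' : Subgroup G} (γ : Hol H) : Crs H (γ • Z) (γ • Z') ↔ Crs H Z Z' :=
  ⟨fun h => by simpa using h.smul γ⁻¹, fun h => h.smul γ⟩

theorem Simp.smul {Z : Subgroup G} (h : Simp H Z) (γ : Hol H) : Simp H (γ • Z) := by
  refine ⟨h.1.smul γ, fun k c => h.2 (lin H γ⁻¹ k) ?_⟩
  rw [← crs_smul_iff γ, smul_tl, lin_lin_inv]
  exact c

theorem TwoS.smul {Z : Subgroup G} (h : TwoS H Z) (γ : Hol H) : TwoS H (γ • Z) := by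
  obtain ⟨A, hA, n1, n2, i⟩ := h
  refine ⟨γ • A, hA.smul γ, n1.smul_set, by rw [← smul_compl]; exact n2.smul_set, fun z hz => ?_⟩
  have := smul_tl γ (lin H γ⁻¹ z) A
  rw [lin_lin_inv, i _ (mem_smul_sub.1 hz)] at this
  exact this.symm

theorem cx_smul {Z : Subgroup G} (h : Z ∈ CX H) (γ : Hol H) : γ • Z ∈ CX H := by
  obtain ⟨a, b, Z', c, d, e⟩ := h
  exact ⟨a.smul γ, b.smul γ, γ • Z', c.smul γ, d.smul γ, e.smul γ⟩

theorem pres_cx (γ : Hol H) : Pres (CX H) γ := fun Z =>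
  ⟨fun h => by simpa using cx_smul h γ⁻¹, fun h => cx_smul h γ⟩

theorem uu_smul {Z : Subgroup G} (h : Z ∈ UU H) (γ : Hol H) : γ • Z ∈ UU H := by
  obtain ⟨a, b, c⟩ := h
  refine ⟨a.smul γ, fun e => b ((pres_cx γ Z).1 e), c.imp (fun t => t.smul γ) fun t Z' s e => ?_⟩
  refine t (γ⁻¹ • Z') (s.smul γ⁻¹) ?_
  rw [← crs_smul_iff γ, smul_inv_smul]
  exact e

theorem pres_uu (γ : Hol H) : Pres (UU H) γ := fun Z =>
  ⟨fun h => by simpa using uu_smul h γ⁻¹, fun h => uu_smul h γ⟩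

theorem Fam.pres {N : Set (Subgroup G)} (h : Fam H N) (k : G) : Pres N (tl H k) := fun Z =>
  ⟨fun a => by
    have := h.inv k⁻¹ _ a
    rwa [map_inv, inv_smul_smul] at this, h.inv k Z⟩

theorem Pres.inv {N : Set (Subgroup G)} {γ : Hol H} (h : Pres N γ) : Pres N γ⁻¹ := fun Z => by
  rw [← h (γ⁻¹ • Z), smul_inv_smul]

theorem Mono.smul {S A : Set G} (h : Mono S A) (γ : Hol H) : Mono (γ • S) (γ • A) := by
  rcases h with h | h
  · exact Or.inl (Set.smul_set_mono h)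
  · exact Or.inr (by rw [← smul_compl]; exact Set.smul_set_mono h)

theorem Nest.smul {A B : Set G} (h : Nest A B) (γ : Hol H) : Nest (γ • A) (γ • B) :=
  h.imp (fun a => a.smul γ) fun a => by rw [← smul_compl]; exact a.smul γ

theorem Nest.symm {A B : Set G} (h : Nest A B) : Nest B A := by
  rcases h with (h | h) | h | h
  · exact Or.inr (Or.inr (Set.compl_subset_compl.2 h))
  · exact Or.inl (Or.inr (Set.subset_compl_comm.1 h))
  · exact Or.inr (Or.inl (Set.compl_subset_comm.1 h))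
  · exact Or.inl (Or.inl (Set.compl_subset_compl.1 h))

theorem en_smul (γ : Hol H) (Z Z' : Subgroup G) : γ • en H Z Z' = en H (γ • Z) (γ • Z') := by
  have key : ∀ (γ : Hol H) (Z Z' : Subgroup G) y, y ∈ en H Z Z' → γ • y ∈ en H (γ • Z) (γ • Z') := by
    rintro γ Z Z' y ⟨g, hg, n, e⟩
    exact ⟨_, lin_mem.2 hg, lin_ne n, by rw [← atom_smul]; exact e.smul γ⟩
  ext y
  rw [Set.mem_smul_set_iff_inv_smul_mem]
  exact ⟨fun h => by simpa using key γ _ _ _ h, fun h => by simpa using key γ⁻¹ _ _ _ h⟩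

theorem mem_orb (Z : Subgroup G) : Z ∈ orb H Z := ⟨1, by rw [map_one, one_smul]⟩

theorem orb_tl {Z Z' : Subgroup G} (h : Z' ∈ orb H Z) (k : G) : tl H k • Z' ∈ orb H Z := by
  obtain ⟨a, rfl⟩ := h
  exact ⟨k * a, by rw [map_mul, mul_smul]⟩

theorem orb_eq {Z Z' : Subgroup G} (h : Z' ∈ orb H Z) : orb H Z' = orb H Z := by
  obtain ⟨a, rfl⟩ := h
  ext U
  exact ⟨fun ⟨k, e⟩ => e ▸ orb_tl (orb_tl (mem_orb Z) a) k, fun ⟨k, e⟩ =>
    ⟨k * a⁻¹, by rw [e, ← mul_smul, ← map_mul, inv_mul_cancel_right]⟩⟩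

theorem orb_smul (γ : Hol H) {Z Z' : Subgroup G} : γ • Z' ∈ orb H (γ • Z) ↔ Z' ∈ orb H Z := by
  have key : ∀ (γ : Hol H) (Z Z' : Subgroup G), Z' ∈ orb H Z → γ • Z' ∈ orb H (γ • Z) := by
    rintro γ Z _ ⟨k, rfl⟩
    exact ⟨_, smul_tl γ k Z⟩
  exact ⟨fun h => by simpa using key γ⁻¹ _ _ h, key γ _ _⟩

theorem ori_smul (γ : Hol H) (V : Ori G) (Z : Subgroup G) : (γ • V).s Z = γ • V.s (γ⁻¹ • Z) := rfl

theorem ori_smul' (γ : Hol H) (V : Ori G) (Z : Subgroup G) : (γ • V).s (γ • Z) = γ • V.s Z := by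
  rw [ori_smul, inv_smul_smul]

variable {N : Set (Subgroup G)}

theorem IsV.smul {V : Ori G} (h : IsV H N V) {γ : Hol H} (p : Pres N γ) : IsV H N (γ • V) := by
  refine ⟨fun Z hZ => ?_, fun Z hZ => ?_, fun Z Z' => ?_, fun x => ?_⟩
  · have := (h.isAt (γ⁻¹ • Z) ((p.inv Z).2 hZ)).smul γ
    rwa [smul_inv_smul] at this
  · rw [ori_smul, h.out _ fun e => hZ ((p.inv Z).1 e), Set.smul_set_univ]
  · rw [ori_smul, ori_smul, ← Set.smul_set_inter]
    exact (h.meet _ _).smul_set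
  · refine ((h.fin (γ⁻¹ • x)).image fun Z => γ • Z).subset fun Z hZ => ⟨γ⁻¹ • Z, ?_, by simp⟩
    exact fun e => hZ (by rw [ori_smul, Set.mem_smul_set_iff_inv_smul_mem]; exact e)

theorem vx_of_mem {Z : Subgroup G} (h : Z ∈ N) (x : G) : (vx H N x).s Z = atom H Z x := if_pos h

theorem vx_of_not {Z : Subgroup G} (h : Z ∉ N) (x : G) : (vx H N x).s Z = Set.univ := if_neg h

theorem vz_self (Z : Subgroup G) (C : Set G) : (vz H N Z C).s Z = C := if_pos rfl

theorem vz_of_mem {Z Z' : Subgroup G} (e : Z' ≠ Z) (h : Z' ∈ N) (C : Set G) :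
    (vz H N Z C).s Z' = en H Z' Z := (if_neg e).trans (if_pos h)

theorem vz_of_not {Z Z' : Subgroup G} (e : Z' ≠ Z) (h : Z' ∉ N) (C : Set G) :
    (vz H N Z C).s Z' = Set.univ := (if_neg e).trans (if_neg h)

theorem res_of_mem {Z : Subgroup G} (h : Z ∈ N) (V : Ori G) : (res N V).s Z = V.s Z := if_pos h

theorem res_of_not {Z : Subgroup G} (h : Z ∉ N) (V : Ori G) : (res N V).s Z = Set.univ := if_neg h

theorem vx_smul {γ : Hol H} (p : Pres N γ) (x : G) : γ • vx H N x = vx H N (γ • x) := by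
  ext Z : 2
  rw [ori_smul]
  by_cases h : Z ∈ N
  · rw [vx_of_mem h, vx_of_mem ((p.inv Z).2 h), atom_smul, smul_inv_smul]
  · rw [vx_of_not h, vx_of_not fun e => h ((p.inv Z).1 e), Set.smul_set_univ]

theorem vz_smul {γ : Hol H} (p : Pres N γ) (Z : Subgroup G) (C : Set G) :
    γ • vz H N Z C = vz H N (γ • Z) (γ • C) := by
  ext Z' : 2
  rw [ori_smul]
  by_cases e : Z' = γ • Z
  · rw [e, inv_smul_smul, vz_self, vz_self]
  have e' : γ⁻¹ • Z' ≠ Z := fun h => e (by rw [← h, smul_inv_smul])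
  by_cases h : Z' ∈ N
  · rw [vz_of_mem e h, vz_of_mem e' ((p.inv Z').2 h), en_smul, smul_inv_smul]
  · rw [vz_of_not e h, vz_of_not e' fun a => h ((p.inv Z').1 a), Set.smul_set_univ]

theorem res_smul {γ : Hol H} (p : Pres N γ) (V : Ori G) : γ • res N V = res N (γ • V) := by
  ext Z : 2
  rw [ori_smul]
  by_cases h : Z ∈ N
  · rw [res_of_mem h, res_of_mem ((p.inv Z).2 h), ori_smul]
  · rw [res_of_not h, res_of_not fun e => h ((p.inv Z).1 e), Set.smul_set_univ]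

theorem Adj.smul {V : Ori G} {Z : Subgroup G} (h : Adj V Z) (γ : Hol H) : Adj (γ • V) (γ • Z) := by
  refine ⟨fun e => h.1 ?_, fun Z' e => ?_⟩
  · rw [ori_smul'] at e
    have := congrArg (fun A => γ⁻¹ • A) e
    simpa using this
  · rw [ori_smul', ori_smul, Set.smul_set_subset_smul_set_iff] at e
    rw [← h.2 _ e, smul_inv_smul]

theorem Beh.smul {V : Ori G} {x y : G} (h : Beh V x y) (γ : Hol H) :
    Beh (γ • V) (γ • x) (γ • y) := by
  obtain ⟨Z, a, b, c⟩ := h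
  refine ⟨γ • Z, a.smul γ, ?_, ?_⟩ <;> rw [ori_smul', Set.smul_mem_smul_set_iff] <;> assumption

theorem mem_GV {V : Ori G} {g : G} : g ∈ GV H V ↔ tl H g • V = V := Iff.rfl

theorem lin_mem_GV {V : Ori G} {g : G} (γ : Hol H) : lin H γ g ∈ GV H (γ • V) ↔ g ∈ GV H V := by
  rw [mem_GV, mem_GV, ← smul_tl, smul_left_cancel_iff]

theorem Flex.smul {V : Ori G} (h : Flex H V) (γ : Hol H) : Flex H (γ • V) := by
  obtain ⟨Z, a, g, b, c, d⟩ := h
  exact ⟨γ • Z, cx_smul a γ, _, lin_mem.2 b, lin_ne c, (lin_mem_GV γ).2 d⟩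

theorem Two.smul {Z : Subgroup G} {A : Set G} (h : Two H Z A) (γ : Hol H) :
    Two H (γ • Z) (γ • A) := by
  obtain ⟨a, b, c, d⟩ := h
  refine ⟨a.smul γ, b.smul_set, by rw [← smul_compl]; exact c.smul_set, fun B hB => ?_⟩
  have hB' : Cut H Z (γ⁻¹ • B) := by simpa using hB.smul γ⁻¹
  rcases d _ hB' with e | e | e | e <;> rw [inv_smul_eq_iff] at e
  · exact .inl (by rw [e, Set.smul_set_empty])
  · exact .inr (.inl (by rw [e, Set.smul_set_univ]))
  · exact .inr (.inr (.inl e))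
  · exact .inr (.inr (.inr (by rw [e, smul_compl])))

theorem OneS.smul {Z : Subgroup G} (h : OneS H Z) (γ : Hol H) : OneS H (γ • Z) := by
  obtain ⟨A, a, c, hc, e⟩ := h
  exact ⟨γ • A, a.smul γ, lin H γ c, lin_mem.2 hc, by rw [← smul_tl, e, smul_compl]⟩

theorem oo_smul {Z : Subgroup G} (h : Z ∈ OO H) (γ : Hol H) : γ • Z ∈ OO H := by
  obtain ⟨a, b, V, c, d, g, e, f, i⟩ := h
  refine ⟨a.smul γ, fun j => b ((pres_uu γ Z).1 j), γ • V, c.smul (pres_uu γ), fun j => d ?_,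
    lin H γ g, lin_mem.2 e, lin_ne f, (lin_mem_GV γ).2 i⟩
  simpa using j.smul γ⁻¹

theorem Btw.smul {V : Ori G} {x y : G} (h : Btw V x y) (γ : Hol H) :
    Btw (γ • V) (γ • x) (γ • y) := fun Z => by
  rw [ori_smul, Set.smul_mem_smul_set_iff, Set.smul_mem_smul_set_iff]
  exact h _

theorem xn_au (θ : StabH H) (Z : Subgroup G) (g : G) :
    xn H (au H θ • Z) (θ.1 g) = xn H Z g := by
  unfold xn
  rw [← Set.ncard_image_of_injective {Z' ∈ orb H Z | ¬ Eqv H Z' 1 g}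
    (MulAction.injective (au H θ))]
  congr 1
  ext U
  constructor
  · rintro ⟨a, b⟩
    refine ⟨(au H θ)⁻¹ • U, ⟨?_, fun e => b ?_⟩, smul_inv_smul _ _⟩
    · rw [← orb_smul (au H θ), smul_inv_smul]; exact a
    · simpa using e.smul (au H θ)
  · rintro ⟨U, ⟨a, b⟩, rfl⟩
    refine ⟨(orb_smul _).2 a, fun e => b ?_⟩
    rw [← eqv_smul_iff (au H θ)]
    simpa using e

theorem xn_orb {Z Z' : Subgroup G} (h : Z' ∈ orb H Z) (g : G) : xn H Z' g = xn H Z g := by
  unfold xn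
  rw [orb_eq h]

theorem Eqv.refl (Z : Subgroup G) (x : G) : Eqv H Z x x := fun _ _ => Iff.rfl

theorem Eqv.symm {Z : Subgroup G} {x y : G} (h : Eqv H Z x y) : Eqv H Z y x :=
  fun A a => (h A a).symm

theorem Eqv.trans {Z : Subgroup G} {x y w : G} (h : Eqv H Z x y) (h' : Eqv H Z y w) :
    Eqv H Z x w := fun A a => (h A a).trans (h' A a)

theorem eqv_of_mem (Z : Subgroup G) (x : G) {a : G} (ha : a ∈ H) : Eqv H Z x (x * a) :=
  fun A h => h.1 x a ha

/-- the subgroup of elements not separated from `1` by crossed axes -/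
def LS (H : Subgroup G) : Subgroup G where
  carrier := LL H
  one_mem' := fun Z _ => Eqv.refl Z 1
  mul_mem' := fun {a b} ha hb Z hZ => by
    have := (hb _ (cx_smul hZ (tl H a)⁻¹)).smul (tl H a)
    rw [smul_inv_smul, tl_smul, tl_smul, mul_one] at this
    exact (ha Z hZ).trans this
  inv_mem' := fun {a} ha Z hZ => by
    have := (ha _ (cx_smul hZ (tl H a))).smul (tl H a⁻¹)
    rw [map_inv, inv_smul_smul, ← map_inv, tl_smul, tl_smul, mul_one, inv_mul_cancel] at this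
    exact this.symm

theorem mem_LS {g : G} : g ∈ LS H ↔ ∀ Z ∈ CX H, Eqv H Z 1 g := Iff.rfl

theorem le_LS : H ≤ LS H := fun a ha Z _ => by simpa using eqv_of_mem Z 1 ha

theorem LS_au {φ : MulAut G} (hφ : φ ∈ StabH H) {g : G} (h : g ∈ LS H) : φ g ∈ LS H := by
  intro Z hZ
  have := (h _ (cx_smul hZ (au H ⟨φ, hφ⟩)⁻¹)).smul (au H ⟨φ, hφ⟩)
  simpa using this

end Pool.Agent.Work.MP_3bdf32_al
end

-- merged part: Pool.Agent.Work.MP_3bdf32_al.Bas
section
/-! Basic facts about `Ev`, `Clo`, `Sat`, `Cut`, valid in every group. -/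

namespace Pool.Agent.Work.MP_3bdf32_al

set_option linter.unusedSectionVars false
set_option linter.unusedVariables false

open Subgroup MulAction Filter
open scoped Pointwise

variable {G : Type} [Group G] {H Z Z' : Subgroup G} {A B : Set G} {g : G}

theorem mem_smul' {k x : G} : x ∈ k • A ↔ k⁻¹ * x ∈ A := Set.mem_smul_set_iff_inv_smul_mem

theorem mul_mem_smul {k x : G} : k * x ∈ k • A ↔ x ∈ A := by simp [mem_smul']

theorem smul_compl' (k : G) (A : Set G) : k • Aᶜ = (k • A)ᶜ := Set.smul_set_compl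

@[simp] theorem sg_true (P : Set G) : sg true P = P := rfl

@[simp] theorem sg_false (P : Set G) : sg false P = Pᶜ := rfl

theorem sg_smul (b : Bool) (k : G) (P : Set G) : k • sg b P = sg b (k • P) := by
  cases b
  · exact smul_compl' k P
  · rfl

theorem sg_sg (b c : Bool) (P : Set G) : sg b (sg c P) = sg (b == c) P := by
  cases b <;> cases c <;> simp

theorem sg_compl (b : Bool) (P : Set G) : (sg b P)ᶜ = sg (!b) P := by cases b <;> simp

theorem nest_iff : Nest A B ↔ ∃ b c, sg b A ⊆ sg c B := by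
  constructor
  · rintro ((h | h) | h | h)
    exacts [⟨true, true, h⟩, ⟨true, false, h⟩, ⟨false, true, h⟩, ⟨false, false, h⟩]
  · rintro ⟨b, c, h⟩
    cases b <;> cases c
    exacts [.inr (.inr h), .inr (.inl h), .inl (.inr h), .inl (.inl h)]

theorem not_nest (h₁ : (A ∩ B).Nonempty) (h₂ : (A ∩ Bᶜ).Nonempty) (h₃ : (Aᶜ ∩ B).Nonempty)
    (h₄ : (Aᶜ ∩ Bᶜ).Nonempty) : ¬ Nest A B := by
  rintro ((h | h) | h | h)
  · obtain ⟨x, a, b⟩ := h₂; exact b (h a)
  · obtain ⟨x, a, b⟩ := h₁; exact h a b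
  · obtain ⟨x, a, b⟩ := h₄; exact b (h a)
  · obtain ⟨x, a, b⟩ := h₃; exact h a b

/-- nested sets with a common point and a common point of the complements are comparable -/
theorem Nest.sub (h : Nest A B) (h₁ : (A ∩ B).Nonempty) (h₄ : (Aᶜ ∩ Bᶜ).Nonempty) :
    A ⊆ B ∨ B ⊆ A := by
  rcases h with ((h | h) | h | h)
  · exact .inl h
  · obtain ⟨x, a, b⟩ := h₁; exact (h a b).elim
  · obtain ⟨x, a, b⟩ := h₄; exact (b (h a)).elim
  · exact .inr (Set.compl_subset_compl.1 h)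

theorem Nest.compl_left (h : Nest A B) : Nest Aᶜ B := by
  rcases h with h | h
  · exact .inr (by rwa [compl_compl])
  · exact .inl h

theorem Nest.compl_right (h : Nest A B) : Nest A Bᶜ := h.symm.compl_left.symm

theorem Mono.compl (h : Mono A B) : Mono A Bᶜ := by
  rcases h with h | h
  · exact .inr (by rwa [compl_compl])
  · exact .inl h

theorem Mono.sub {S : Set G} (h : Mono A B) (e : S ⊆ A) : Mono S B :=
  h.imp (e.trans ·) (e.trans ·)

theorem Mono.iff (h : Mono A B) {x y : G} (hx : x ∈ A) (hy : y ∈ A) : x ∈ B ↔ y ∈ B := by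
  rcases h with h | h
  · exact iff_of_true (h hx) (h hy)
  · exact iff_of_false (h hx) (h hy)

theorem Mono.smul' (h : Mono A B) (k : G) : Mono (k • A) (k • B) := h.smul (tl ⊤ k)

theorem Nest.smul' (h : Nest A B) (k : G) : Nest (k • A) (k • B) := h.smul (tl ⊤ k)

theorem Ev.mono (h : Ev A g) (e : A ⊆ B) : Ev B g := fun x => (h x).mono fun _ a => e a

theorem Ev.inter (h : Ev A g) (h' : Ev B g) : Ev (A ∩ B) g := fun x => (h x).and (h' x)

theorem Ev.ex (h : Ev A g) (x : G) : ∃ n : ℕ, g ^ n * x ∈ A := (h x).exists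

theorem Ev.nonempty (h : Ev A g) : A.Nonempty := let ⟨_, a⟩ := h.ex 1; ⟨_, a⟩

theorem Ev.not_compl (h : Ev A g) (h' : Ev Aᶜ g) : False := by
  obtain ⟨x, a, b⟩ := (h.inter h').nonempty
  exact b a

theorem Ev.pow (h : Ev A g) {m : ℕ} (hm : 0 < m) : Ev A (g ^ m) := fun x => by
  have := (tendsto_id.const_mul_atTop' hm).eventually (h x)
  exact this.mono fun n a => by rwa [← pow_mul]

theorem Ev.of_pow {m : ℕ} (hm : 0 < m) (h : Ev A (g ^ m)) : Ev A g := fun x => by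
  have : ∀ᶠ n : ℕ in atTop, ∀ r ∈ Finset.range m, (g ^ m) ^ n * (g ^ r * x) ∈ A :=
    (Finset.eventually_all _).2 fun r _ => h _
  refine ((Nat.tendsto_div_const_atTop hm.ne').eventually this).mono fun n a => ?_
  have := a (n % m) (Finset.mem_range.2 (Nat.mod_lt _ hm))
  rwa [← mul_assoc, ← pow_mul, ← pow_add, Nat.div_add_mod] at this

theorem Ev.smul' (h : Ev A g) (k : G) : Ev (k • A) (k * g * k⁻¹) := h.smul (tl ⊤ k)

theorem ev_smul_iff' (k : G) : Ev (k • A) (k * g * k⁻¹) ↔ Ev A g := ev_smul_iff (tl ⊤ k)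

/-- translation by an element commuting with `g` -/
theorem Ev.smul_comm (h : Ev A g) {k : G} (c : Commute k g) : Ev (k • A) g := by
  have := h.smul' k
  rwa [c.eq, mul_inv_cancel_right] at this

theorem pow_mem_of_sub (h : g • A ⊆ A) {x : G} (hx : x ∈ A) (n : ℕ) : g ^ n * x ∈ A := by
  induction n with
  | zero => simpa using hx
  | succ n ih => rw [pow_succ', mul_assoc]; exact h (mul_mem_smul.2 ih)

/-- a set mapped into itself by `g` is empty if the end of `g` is outside -/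
theorem Ev.empty_of_sub (h : Ev Aᶜ g) (e : g • A ⊆ A) : A = ∅ := by
  refine Set.eq_empty_of_forall_notMem fun x hx => ?_
  obtain ⟨n, a⟩ := h.ex x
  exact a (pow_mem_of_sub e hx n)

theorem db_compl (A : Set G) (s : G) : db Aᶜ s = db A s := by
  ext x; simp [db, not_iff_not]

theorem db_inter (A B : Set G) (s : G) : db (A ∩ B) s ⊆ db A s ∪ db B s := by
  intro x hx
  simp only [db, Set.mem_setOf_eq, Set.mem_inter_iff, Set.mem_union] at hx ⊢
  tauto

theorem db_mul (A : Set G) (s t : G) : db A (s * t) ⊆ db A s ∪ (· * s⁻¹) '' db A t := by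
  intro x hx
  by_cases h : x ∈ db A s
  · exact .inl h
  · refine .inr ⟨x * s, ?_, by simp⟩
    simp only [db, Set.mem_setOf_eq, mul_assoc] at hx h ⊢
    tauto

theorem db_inv (A : Set G) (s : G) : db A s⁻¹ = (· * s) '' db A s := by
  ext x
  constructor
  · intro h
    refine ⟨x * s⁻¹, ?_, by simp⟩
    simp only [db, Set.mem_setOf_eq, inv_mul_cancel_right] at h ⊢
    tauto
  · rintro ⟨y, h, rfl⟩
    simp only [db, Set.mem_setOf_eq, mul_inv_cancel_right] at h ⊢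
    tauto

theorem db_smul (k : G) (A : Set G) (s : G) : db (k • A) s = k • db A s := by
  ext x; simp [db, mem_smul', mul_assoc]

theorem Clo.compl (h : Clo A) : Clo Aᶜ := fun s => by rw [db_compl]; exact h s

theorem Clo.inter (h : Clo A) (h' : Clo B) : Clo (A ∩ B) := fun s =>
  ((h s).union (h' s)).subset (db_inter A B s)

theorem Clo.union (h : Clo A) (h' : Clo B) : Clo (A ∪ B) := by
  simpa only [Set.compl_inter, compl_compl] using (h.compl.inter h'.compl).compl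

theorem clo_of_finite (h : A.Finite) : Clo A := fun s =>
  (h.union (h.image (· * s⁻¹))).subset fun x hx => by
    by_cases a : x ∈ A
    · exact .inl a
    · exact .inr ⟨x * s, by simpa [db, a] using hx, by simp⟩

theorem Clo.smul (h : Clo A) (γ : Hol H) : Clo (γ • A) := fun s => by
  obtain ⟨φ, -, hφ⟩ := smul_mul_right γ⁻¹
  refine ((h (φ s)).image fun x => γ • x).subset fun x hx => ⟨γ⁻¹ • x, ?_, by simp⟩
  simpa only [db, Set.mem_setOf_eq, Set.mem_smul_set_iff_inv_smul_mem, hφ] using hx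

theorem Clo.smul' (h : Clo A) (k : G) : Clo (k • A) := h.smul (tl ⊤ k)

theorem Sat.compl (h : Sat H A) : Sat H Aᶜ := fun x a b => not_congr (h x a b)

theorem Sat.inter (h : Sat H A) (h' : Sat H B) : Sat H (A ∩ B) := fun x a b =>
  and_congr (h x a b) (h' x a b)

theorem Sat.union (h : Sat H A) (h' : Sat H B) : Sat H (A ∪ B) := fun x a b =>
  or_congr (h x a b) (h' x a b)

theorem Sat.smul' (h : Sat H A) (k : G) : Sat H (k • A) := fun x a b => by
  rw [mem_smul', mem_smul', ← mul_assoc]; exact h _ a b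

theorem Sg.symm {W : List G} {x y : G} (h : Sg W x y) : Sg W y x :=
  let ⟨a, b, c⟩ := h; ⟨a, b, c.symm⟩

theorem Sg.mul {W : List G} {x y : G} (h : Sg W x y) (k : G) : Sg W (k * x) (k * y) := by
  obtain ⟨a, b, c | c⟩ := h
  · exact ⟨a, b, .inl (by rw [c, mul_assoc])⟩
  · exact ⟨a, b, .inr (by rw [c, mul_assoc])⟩

theorem sat_iff {W : List G} : Sat (cl W) A ↔ ∀ x y, Sg W x y → (x ∈ A ↔ y ∈ A) := by
  constructor
  · rintro h x y ⟨a, b, rfl | rfl⟩
    exacts [h x a (mem_cl b), (h y a (mem_cl b)).symm]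
  · intro h x a ha
    induction ha using closure_induction generalizing x with
    | mem w hw => exact h _ _ ⟨w, hw, .inl rfl⟩
    | one => rw [mul_one]
    | mul u v _ _ hu hv => rw [hu x, hv, mul_assoc]
    | inv u _ hu => rw [hu (x * u⁻¹), inv_mul_cancel_right]

theorem Cut.compl (h : Cut H Z A) : Cut H Z Aᶜ :=
  ⟨h.1.compl, fun s => by rw [db_compl]; exact h.2 s⟩

theorem Cut.inter (h : Cut H Z A) (h' : Cut H Z B) : Cut H Z (A ∩ B) := by
  classical
  refine ⟨h.1.inter h'.1, fun s => ?_⟩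
  obtain ⟨E, a⟩ := h.2 s
  obtain ⟨E', b⟩ := h'.2 s
  refine ⟨E ∪ E', fun x hx => ?_⟩
  rcases db_inter A B s hx with c | c
  · obtain ⟨z, d, e, f, i⟩ := a x c
    exact ⟨z, d, e, Finset.mem_union_left _ f, i⟩
  · obtain ⟨z, d, e, f, i⟩ := b x c
    exact ⟨z, d, e, Finset.mem_union_right _ f, i⟩

theorem Cut.union (h : Cut H Z A) (h' : Cut H Z B) : Cut H Z (A ∪ B) := by
  simpa only [Set.compl_inter, compl_compl] using (h.compl.inter h'.compl).compl

theorem Cut.sg (h : Cut H Z A) (b : Bool) : Cut H Z (sg b A) := by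
  cases b
  exacts [h.compl, h]

theorem Cut.le (h : Cut H Z A) (e : Z ≤ Z') : Cut H Z' A :=
  ⟨h.1, fun s => (h.2 s).imp fun _ a x b => let ⟨z, c, d⟩ := a x b; ⟨z, e c, d⟩⟩

theorem cut_of_clo (h : Sat H A) (h' : Clo A) : Cut H Z A :=
  ⟨h, fun s => ⟨(h' s).toFinset, fun x a => ⟨1, Z.one_mem, x, by simpa using a, by simp⟩⟩⟩

theorem cut_bot : Cut H ⊥ A ↔ Sat H A ∧ Clo A := by
  refine ⟨fun h => ⟨h.1, fun s => ?_⟩, fun h => cut_of_clo h.1 h.2⟩
  obtain ⟨E, a⟩ := h.2 s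
  refine E.finite_toSet.subset fun x b => ?_
  obtain ⟨z, c, e, d, rfl⟩ := a x b
  rw [mem_bot.1 c, one_mul]; exact d

theorem cut_univ : Cut H Z Set.univ :=
  ⟨fun _ _ _ => Iff.rfl, fun s => ⟨∅, fun x a => by simp [db] at a⟩⟩

theorem cut_empty : Cut H Z ∅ := by simpa using (cut_univ (H := H) (Z := Z)).compl

theorem Cut.smul' (h : Cut H Z A) (k : G) : Cut H (tl H k • Z) (k • A) := h.smul (tl H k)

theorem mem_atom (x : G) : x ∈ atom H Z x := Eqv.refl Z x

theorem IsAt.nonempty {C : Set G} (h : IsAt H Z C) : C.Nonempty :=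
  let ⟨x, e⟩ := h; ⟨x, e ▸ mem_atom x⟩

theorem IsAt.eq {C : Set G} (h : IsAt H Z C) {x : G} (hx : x ∈ C) : C = atom H Z x := by
  obtain ⟨y, rfl⟩ := h
  ext w
  exact ⟨fun a => (Eqv.symm hx).trans a, fun a => Eqv.trans hx a⟩

theorem IsAt.eq_of_mem {C C' : Set G} (h : IsAt H Z C) (h' : IsAt H Z C') {x : G} (hx : x ∈ C)
    (hx' : x ∈ C') : C = C' := (h.eq hx).trans (h'.eq hx').symm

theorem IsAt.mono {C : Set G} (h : IsAt H Z C) (hA : Cut H Z A) : Mono C A := by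
  obtain ⟨x, rfl⟩ := h
  by_cases a : x ∈ A
  · exact .inl fun y b => (b A hA).1 a
  · exact .inr fun y b c => a ((b A hA).2 c)

theorem atom_eq_iff {x y : G} : atom H Z x = atom H Z y ↔ Eqv H Z x y :=
  ⟨fun h => by have := mem_atom (H := H) (Z := Z) y; rwa [← h] at this,
    fun h => IsAt.eq ⟨x, rfl⟩ h⟩

theorem Sp.atom_ne (h : Sp H Z) {C : Set G} (hC : IsAt H Z C) : C ≠ Set.univ := by
  obtain ⟨-, x, y, a⟩ := h
  rintro rfl
  exact a (atom_eq_iff.1 ((hC.eq trivial).symm.trans (hC.eq trivial)))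

theorem sp_of_cut (h : Ax Z) (hA : Cut H Z A) (a : A.Nonempty) (b : Aᶜ.Nonempty) : Sp H Z :=
  let ⟨x, c⟩ := a; let ⟨y, d⟩ := b; ⟨h, x, y, fun e => d ((e A hA).1 c)⟩

theorem Two.compl (h : Two H Z A) : Two H Z Aᶜ :=
  ⟨h.1.compl, h.2.2.1, by simpa using h.2.1, fun B hB => by
    rw [compl_compl]; have := h.2.2.2 B hB; tauto⟩

theorem Two.smul' (h : Two H Z A) (k : G) : Two H (tl H k • Z) (k • A) := h.smul (tl H k)

theorem Two.eq (h : Two H Z A) (hB : Cut H Z B) (a : B.Nonempty) (b : Bᶜ.Nonempty) :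
    B = A ∨ B = Aᶜ := by
  rcases h.2.2.2 B hB with rfl | rfl | e
  · simp at a
  · simp at b
  · exact e

theorem Two.atom (h : Two H Z A) {x : G} (hx : x ∈ A) : atom H Z x = A := by
  ext y
  refine ⟨fun a => (a A h.1).1 hx, fun a B hB => ?_⟩
  rcases h.2.2.2 B hB with rfl | rfl | rfl | rfl <;> simp [hx, a]

theorem Two.isAt (h : Two H Z A) {C : Set G} : IsAt H Z C ↔ C = A ∨ C = Aᶜ := by
  constructor
  · rintro ⟨x, rfl⟩
    by_cases a : x ∈ A
    exacts [.inl (h.atom a), .inr (h.compl.atom a)]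
  · rintro (rfl | rfl)
    · obtain ⟨x, a⟩ := h.2.1
      exact ⟨x, (h.atom a).symm⟩
    · obtain ⟨x, a⟩ := h.2.2.1
      exact ⟨x, (h.compl.atom a).symm⟩

theorem Conn.smul {W : List G} {S : Set G} (h : Conn W S) (γ : Hol (cl W)) : Conn W (γ • S) := by
  rintro P hP ⟨x, a, b⟩ ⟨y, c, d⟩
  obtain ⟨φ, hW, hφ⟩ := smul_mul_right γ
  obtain ⟨u, ⟨e, f⟩, v, ⟨i, j⟩, w, hw, l⟩ := h (γ⁻¹ • P) (hP.smul γ⁻¹)
    ⟨γ⁻¹ • x, Set.mem_smul_set_iff_inv_smul_mem.1 a, Set.smul_mem_smul_set b⟩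
    ⟨γ⁻¹ • y, Set.mem_smul_set_iff_inv_smul_mem.1 c, fun e => d (Set.smul_mem_smul_set_iff.1 e)⟩
  refine ⟨γ • u, ⟨Set.smul_mem_smul_set e, Set.mem_inv_smul_set_iff.1 f⟩, γ • v,
    ⟨Set.smul_mem_smul_set i, fun m => j (Set.mem_inv_smul_set_iff.2 m)⟩, w, hw, ?_⟩
  rcases l with rfl | rfl
  · exact .inl (by rw [hφ, hW w (mem_cl hw)])
  · exact .inr (by rw [hφ, hW w (mem_cl hw)])

theorem Sep.compl {F : Set G} {Y : Subgroup G} (h : Sep F Y) : Sep Fᶜ Y := by
  obtain ⟨y, a, b, c, d⟩ := h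
  exact ⟨y⁻¹, Y.inv_mem a, inv_ne_one.2 b, d, by simpa using c⟩

theorem Sep.smul {F : Set G} {Y : Subgroup G} (h : Sep F Y) (γ : Hol H) : Sep (γ • F) (γ • Y) := by
  obtain ⟨y, a, b, c, d⟩ := h
  exact ⟨lin H γ y, lin_mem.2 a, lin_ne b, c.smul γ, by
    rw [← smul_compl, ← map_inv]; exact d.smul γ⟩

theorem Seq.mono {β : Type} {Cr Cr' : β → G → Prop} {z : β → G} {T : β → MulAut G} {φ : MulAut G}
    {c : List β} (h : Seq Cr z T φ c) (hz : ∀ b ∈ c, z b ≠ 1)
    (hc : ∀ a ∈ c, ∀ d, d ≠ 1 → Cr a d → Cr' a d) : Seq Cr' z T φ c := by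
  intro l₁ a l₂ e
  have ha : a ∈ c := by simp [e]
  obtain ⟨p, q⟩ := h l₁ a l₂ e
  refine ⟨p.imp ?_ ?_, q.imp ?_ ?_⟩
  · rintro ⟨l₃, b, l₄, f, i, j⟩
    exact ⟨l₃, b, l₄, f, hc a ha _ (hz b (by simp [e, f])) i, j⟩
  · rintro ⟨l₃, b, l₄, f, i, j⟩
    exact ⟨l₃, b, l₄, f, hc a ha _ (by simpa using hz b (by simp [f])) i, j⟩
  · rintro ⟨l₃, b, l₄, f, i, j⟩
    exact ⟨l₃, b, l₄, f, hc a ha _ (hz b (by simp [e, f])) i, j⟩
  · rintro ⟨l₃, b, l₄, f, i, j⟩
    exact ⟨l₃, b, l₄, f, hc a ha _ (by simpa using hz b (by simp [f])) i, j⟩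

end Pool.Agent.Work.MP_3bdf32_al
end

-- merged part: Pool.Agent.Work.MP_3bdf32_al.Cay1
section
/-! The Cayley tree of a free group: metric and half trees. -/

namespace Pool.Agent.Work.MP_3bdf32_al

set_option linter.unusedSectionVars false
set_option linter.unusedVariables false

open Subgroup MulAction Filter
open scoped Pointwise

variable {X : Type} [DecidableEq X] {x y x' y' v w k : FreeGroup X}
  {U U' A : Set (FreeGroup X)}

theorem cd_self (x : FreeGroup X) : cd x x = 0 := by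
  simp [cd]

theorem cd_comm (x y : FreeGroup X) : cd x y = cd y x := by
  rw [cd, cd, ← FreeGroup.norm_inv_eq, mul_inv_rev, inv_inv]

theorem cd_nonneg (x y : FreeGroup X) : 0 ≤ cd x y :=
  Int.natCast_nonneg _

theorem cd_smul (k x y : FreeGroup X) : cd (k * x) (k * y) = cd x y := by
  rw [cd, cd, mul_inv_rev, mul_assoc, inv_mul_cancel_left]

theorem cd_tri (x y w : FreeGroup X) : cd x w ≤ cd x y + cd y w := by
  have := FreeGroup.norm_mul_le (x⁻¹ * y) (y⁻¹ * w)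
  rw [mul_assoc, mul_inv_cancel_left] at this
  unfold cd
  exact_mod_cast this

theorem cd_eq_zero : cd x y = 0 ↔ x = y := by
  rw [cd, Nat.cast_eq_zero, FreeGroup.norm_eq_zero, inv_mul_eq_one]

theorem cd_mul (x g : FreeGroup X) : cd x (x * g) = g.norm := by
  rw [cd, inv_mul_cancel_left]

theorem Cay1_norm_lt (s : X × Bool) : (lt s).norm = 1 := rfl

theorem cd_one_iff : cd x y = 1 ↔ ∃ s, y = x * lt s := by
  constructor
  · intro h
    have e : (x⁻¹ * y).toWord.length = 1 := by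
      unfold cd FreeGroup.norm at h
      exact_mod_cast h
    obtain ⟨s, hs⟩ := List.length_eq_one_iff.1 e
    refine ⟨s, ?_⟩
    rw [lt, ← hs, FreeGroup.mk_toWord, mul_inv_cancel_left]
  · rintro ⟨s, rfl⟩
    rw [cd_mul, Cay1_norm_lt, Nat.cast_one]

theorem lt_inv (s : X × Bool) : (lt s)⁻¹ = lt (s.1, !s.2) := by
  rw [lt, lt, FreeGroup.inv_mk]
  rfl

theorem lt_inj {s t : X × Bool} (h : lt s = lt t) : s = t := by
  have : [s] = [t] := congrArg FreeGroup.toWord h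
  simpa using this

theorem lt_true (s : X) : lt (s, true) = FreeGroup.of s :=
  rfl

theorem Cay1_key (s : X × Bool) (u : FreeGroup X) :
    (u.toWord.head? = some s ∧ (((lt s)⁻¹ * u).norm : ℤ) + 1 = u.norm) ∨
      (u.toWord.head? ≠ some s ∧ (((lt s)⁻¹ * u).norm : ℤ) = u.norm + 1) := by
  have e : ((lt s)⁻¹ * u).toWord = FreeGroup.reduce ((s.1, !s.2) :: u.toWord) := by
    rw [lt_inv, FreeGroup.toWord_mul]
    rfl
  unfold FreeGroup.norm
  rw [e, FreeGroup.reduce.cons, FreeGroup.reduce_toWord]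
  obtain ⟨s, b⟩ := s
  cases u.toWord with
  | nil => simp
  | cons t L =>
    obtain ⟨t, c⟩ := t
    by_cases h : s = t ∧ (!b) = !c
    · left
      obtain ⟨rfl, h⟩ := h
      obtain rfl : b = c := by simpa using h
      simp
    · right
      dsimp only
      rw [if_neg h]
      refine ⟨fun k => h ?_, by simp⟩
      obtain ⟨rfl, rfl⟩ : t = s ∧ c = b := by simpa using k
      exact ⟨rfl, rfl⟩

theorem Cay1_cd (x w : FreeGroup X) (s : X × Bool) :
    ((x⁻¹ * w).toWord.head? = some s ∧ cd w (x * lt s) + 1 = cd w x) ∨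
      ((x⁻¹ * w).toWord.head? ≠ some s ∧ cd w (x * lt s) = cd w x + 1) := by
  rw [cd_comm w, cd_comm w, cd, cd, mul_inv_rev, mul_assoc]
  exact Cay1_key s _

theorem Cay1_mem {s : X × Bool} : w ∈ hs x (x * lt s) ↔ (x⁻¹ * w).toWord.head? = some s := by
  change cd w (x * lt s) < cd w x ↔ _
  rcases Cay1_cd x w s with ⟨a, b⟩ | ⟨a, b⟩
  · exact iff_of_true (by omega) a
  · exact iff_of_false (by omega) a

theorem Cay1_hs : w ∈ hs x y ↔ cd w y < cd w x := Iff.rfl

theorem cd_step (h : cd x y = 1) (w : FreeGroup X) :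
    cd w y = cd w x + 1 ∨ cd w x = cd w y + 1 := by
  obtain ⟨s, rfl⟩ := cd_one_iff.1 h
  rcases Cay1_cd x w s with ⟨-, b⟩ | ⟨-, b⟩
  exacts [.inr b.symm, .inl b]

theorem hs_compl (h : cd x y = 1) : (hs x y)ᶜ = hs y x := by
  ext w
  have := cd_step h w
  rw [Set.mem_compl_iff, Cay1_hs, Cay1_hs]
  omega

theorem hs_smul (k x y : FreeGroup X) : k • hs x y = hs (k * x) (k * y) := by
  ext w
  rw [mem_smul', Cay1_hs, Cay1_hs, ← cd_smul k _ y, ← cd_smul k _ x, mul_inv_cancel_left]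

theorem right_mem_hs (h : cd x y = 1) : y ∈ hs x y := by
  rw [Cay1_hs, cd_self, cd_comm, h]
  exact one_pos

theorem left_notMem_hs (x y : FreeGroup X) : x ∉ hs x y := by
  rw [Cay1_hs, cd_self, not_lt]
  exact cd_nonneg x y

theorem HT.compl (h : HT U) : HT Uᶜ := by
  obtain ⟨x, y, a, rfl⟩ := h
  exact ⟨y, x, (cd_comm y x).trans a, hs_compl a⟩

theorem HT.smul (h : HT U) (k : FreeGroup X) : HT (k • U) := by
  obtain ⟨x, y, a, rfl⟩ := h
  exact ⟨_, _, (cd_smul k x y).trans a, hs_smul k x y⟩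

theorem HT.nonempty (h : HT U) : U.Nonempty := by
  obtain ⟨x, y, a, rfl⟩ := h
  exact ⟨y, right_mem_hs a⟩

theorem ht_iff : HT U ↔ ∃ (k : FreeGroup X) (s : X) (b : Bool),
    U = sg b (k • hs 1 (FreeGroup.of s)) := by
  constructor
  · rintro ⟨x, y, a, rfl⟩
    obtain ⟨⟨s, b⟩, e⟩ := cd_one_iff.1 a
    cases b
    · refine ⟨y, s, false, ?_⟩
      have : y * FreeGroup.of s = x := by
        rw [e, mul_assoc, ← lt_true, show lt (s, false) = (lt (s, true))⁻¹ from (lt_inv (s, true)).symm,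
          inv_mul_cancel, mul_one]
      rw [sg_false, hs_smul, mul_one, this, hs_compl ((cd_comm y x).trans a)]
    · exact ⟨x, s, true, by rw [sg_true, hs_smul, mul_one, e, lt_true]⟩
  · rintro ⟨k, s, b, rfl⟩
    have : HT (k • hs 1 (FreeGroup.of s)) :=
      HT.smul ⟨1, _, cd_one_iff.2 ⟨(s, true), (one_mul _).symm⟩, rfl⟩ k
    cases b
    exacts [this.compl, this]

/-- the first step from `x` towards `w` -/
theorem ex_step (h : x ≠ w) : ∃ y, cd x y = 1 ∧ w ∈ hs x y := by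
  have : (x⁻¹ * w).toWord ≠ [] := by
    rw [Ne, FreeGroup.toWord_eq_nil_iff, inv_mul_eq_one]
    exact h
  obtain ⟨s, L, e⟩ := List.exists_cons_of_ne_nil this
  exact ⟨x * lt s, cd_one_iff.2 ⟨s, rfl⟩, Cay1_mem.2 (by rw [e]; rfl)⟩

theorem step_uniq (h : cd x y = 1) (h' : cd x y' = 1) (a : w ∈ hs x y) (b : w ∈ hs x y') : y = y' := by
  obtain ⟨s, rfl⟩ := cd_one_iff.1 h
  obtain ⟨t, rfl⟩ := cd_one_iff.1 h'
  rw [Cay1_mem] at a b
  rw [Option.some.inj (a.symm.trans b)]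

/-- the first step lowers the distance by one -/
theorem Cay1_step (h : x ≠ w) : ∃ y, cd x y = 1 ∧ cd w x = cd w y + 1 := by
  obtain ⟨y, a, b⟩ := ex_step h
  have := cd_step a w
  rw [Cay1_hs] at b
  exact ⟨y, a, by omega⟩

theorem Cay1_cross (h : cd x y = 1) (a : v ∉ hs x y) (n : ℕ) :
    ∀ w ∈ hs x y, cd y w ≤ n → cd v w = cd v x + 1 + cd y w := by
  have hy : cd v y = cd v x + 1 := by
    have := cd_step h v
    rw [Cay1_hs] at a
    omega
  have down : ∀ w ∈ hs x y, ∀ w', cd w w' = 1 → cd y w = cd y w' + 1 → w' ∈ hs x y := by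
    intro w b w' c d
    have e := cd_step h w
    have f := cd_tri w w' x
    rw [Cay1_hs] at b ⊢
    rw [cd_comm y, cd_comm y] at d
    omega
  induction n with
  | zero =>
    intro w _ c
    obtain rfl : y = w := cd_eq_zero.1 (le_antisymm c (cd_nonneg _ _))
    rw [cd_self, add_zero, hy]
  | succ n ih =>
    intro w b c
    by_cases e : w = y
    · rw [e, cd_self, add_zero, hy]
    obtain ⟨w', c1, c2⟩ := Cay1_step e
    have b' := down w b w' c1 c2
    have i1 := ih w' b' (by push_cast at c; omega)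
    have c3 : cd w' w = 1 := (cd_comm _ _).trans c1
    rcases cd_step c1 v with d | d
    · exfalso
      have m1 : v ∈ hs w' w := by rw [Cay1_hs]; omega
      by_cases e' : w' = y
      · subst e'
        have m2 : v ∈ hs w' x := by rw [Cay1_hs]; omega
        rw [step_uniq c3 ((cd_comm _ _).trans h) m1 m2] at b
        exact left_notMem_hs _ _ b
      · obtain ⟨w'', c4, c5⟩ := Cay1_step e'
        have i2 := ih w'' (down w' b' w'' c4 c5) (by push_cast at c; omega)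
        have m2 : v ∈ hs w' w'' := by rw [Cay1_hs]; omega
        rw [← step_uniq c3 c4 m1 m2] at c5
        omega
    · omega

theorem hs_cross (h : cd x y = 1) (a : v ∉ hs x y) (b : w ∈ hs x y) :
    cd v w = cd v x + 1 + cd y w :=
  Cay1_cross h a (cd y w).toNat w b (Int.self_le_toNat _)

theorem hs_deep (h : cd x y = 1) (a : w ∈ hs x y) (b : cd w v < cd w x) : v ∈ hs x y := by
  by_contra c
  have d := hs_cross h c a
  have e := cd_step h w
  have f := cd_nonneg v x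
  rw [Cay1_hs] at a
  rw [cd_comm v w, cd_comm y w] at d
  omega

theorem hs_sub (h : cd x y = 1) (h' : cd x' y' = 1) (a : x' ∈ hs x y) (b : x ∉ hs x' y') :
    hs x' y' ⊆ hs x y := by
  intro w c
  by_contra d
  have e1 := hs_cross h d a
  have e2 := hs_cross h' b c
  have e3 := cd_step h' w
  have e4 := cd_nonneg x x'
  have e5 := cd_nonneg y x'
  rw [Cay1_hs] at c
  rw [cd_comm x w, cd_comm y' w] at e2
  omega

theorem Cay1_edge (h : cd x y = 1) (h' : cd x' y' = 1) (a : x ∉ hs x' y') (b : y ∈ hs x' y') :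
    x = x' ∧ y = y' := by
  have e1 := hs_cross h' a b
  have e2 := cd_nonneg x x'
  have e3 := cd_nonneg y' y
  exact ⟨cd_eq_zero.1 (by omega), (cd_eq_zero.1 (by omega)).symm⟩

theorem hs_inj (h : cd x y = 1) (h' : cd x' y' = 1) (e : hs x y = hs x' y') : x = x' ∧ y = y' :=
  Cay1_edge h h' (e ▸ left_notMem_hs x y) (e ▸ right_mem_hs h)

theorem HT.free (h : HT U) (hk : k ≠ 1) : k • U ≠ U ∧ k • U ≠ Uᶜ := by
  obtain ⟨x, y, a, rfl⟩ := h
  have a' : cd (k * x) (k * y) = 1 := (cd_smul k x y).trans a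
  rw [hs_smul, hs_compl a]
  refine ⟨fun e => hk ?_, fun e => hk ?_⟩
  · simpa using (hs_inj a' a e).1
  · obtain ⟨p, q⟩ := hs_inj a' ((cd_comm y x).trans a) e
    rw [← p, ← mul_assoc, mul_eq_right, ← pow_two] at q
    exact (pow_eq_one_iff_left two_ne_zero).1 q

theorem HT.nest (h : HT U) (h' : HT U') : Nest U U' := by
  obtain ⟨x, y, a, rfl⟩ := h
  have a' : cd y x = 1 := (cd_comm y x).trans a
  have key : ∀ x' y', cd x' y' = 1 → x ∉ hs x' y' → Nest (hs x y) (hs x' y') := by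
    intro x' y' b c
    by_cases d : y ∈ hs x' y'
    · obtain ⟨rfl, rfl⟩ := Cay1_edge a b c d
      exact .inl (.inl subset_rfl)
    by_cases e : x' ∈ hs x y
    · exact .inr (.inr (Set.compl_subset_compl.2 (hs_sub a b e c)))
    · refine .inl (.inr (Set.subset_compl_comm.1 ?_))
      rw [← Set.mem_compl_iff, hs_compl a] at e
      rw [hs_compl a]
      exact hs_sub a' b e d
  obtain ⟨x', y', b, rfl⟩ := h'
  by_cases c : x ∈ hs x' y'
  · have b' : cd y' x' = 1 := (cd_comm y' x').trans b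
    rw [← hs_compl b']
    exact (key y' x' b' (by rw [← hs_compl b]; exact fun k => k c)).compl_right
  · exact key x' y' b c

theorem HT.conv (h : HT U) (a : x ∈ U) (b : w ∈ U) (c : cd x y + cd y w = cd x w) : y ∈ U := by
  obtain ⟨p, q, d, rfl⟩ := h
  by_contra e
  have e1 := hs_cross d e a
  have e2 := hs_cross d e b
  have e3 := cd_tri x q w
  have e4 := cd_nonneg y p
  rw [cd_comm y x, cd_comm q x] at e1
  omega

/-- an edge with endpoints on both sides of a half tree is its boundary edge -/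
theorem HT.edge (h : HT U) (a : cd x y = 1) (b : x ∉ U) (c : y ∈ U) : U = hs x y := by
  obtain ⟨p, q, d, rfl⟩ := h
  obtain ⟨rfl, rfl⟩ := Cay1_edge a d b c
  rfl

theorem Cay1_ind {P : FreeGroup X → Prop} (y : FreeGroup X) (h0 : P y)
    (h1 : ∀ x x', cd x x' = 1 → cd y x = cd y x' + 1 → P x' → P x) (x : FreeGroup X) : P x := by
  have key : ∀ n : ℕ, ∀ x, cd y x ≤ n → P x := by
    intro n
    induction n with
    | zero =>
      intro x c
      rw [← cd_eq_zero.1 (le_antisymm c (cd_nonneg _ _))]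
      exact h0
    | succ n ih =>
      intro x c
      by_cases e : x = y
      · rw [e]; exact h0
      obtain ⟨x', c1, c2⟩ := Cay1_step e
      exact h1 x x' c1 c2 (ih x' (by push_cast at c; omega))
  exact key _ x (Int.self_le_toNat _)

theorem Cay1_sep (x y : FreeGroup X) : {U | HT U ∧ x ∉ U ∧ y ∈ U}.Finite ∧
    ({U | HT U ∧ x ∉ U ∧ y ∈ U}.ncard : ℤ) = cd x y := by
  induction x using Cay1_ind y with
  | h0 => simp [cd_self]
  | h1 x x' a b ih =>
    have e : {U | HT U ∧ x ∉ U ∧ y ∈ U} = insert (hs x x') {U | HT U ∧ x' ∉ U ∧ y ∈ U} := by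
      ext U
      constructor
      · rintro ⟨c, d, e⟩
        by_cases f : x' ∈ U
        exacts [.inl (c.edge a d f), .inr ⟨c, f, e⟩]
      · rintro (rfl | ⟨c, d, e⟩)
        · exact ⟨⟨_, _, a, rfl⟩, left_notMem_hs _ _, by rw [Cay1_hs]; omega⟩
        · refine ⟨c, fun f => d (c.conv f e ?_), e⟩
          rw [cd_comm x y, cd_comm x' y]
          omega
    rw [e, Set.ncard_insert_of_notMem (fun k => k.2.1 (right_mem_hs a)) ih.1]
    refine ⟨ih.1.insert _, ?_⟩
    rw [Nat.cast_succ, ih.2, cd_comm x y, cd_comm x' y, b]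

theorem sep_fin (x y : FreeGroup X) : {U | HT U ∧ x ∉ U ∧ y ∈ U}.Finite :=
  (Cay1_sep x y).1

theorem sep_card (x y : FreeGroup X) : ({U | HT U ∧ x ∉ U ∧ y ∈ U}.ncard : ℤ) = cd x y :=
  (Cay1_sep x y).2

theorem db_hs (h : cd x y = 1) {s : FreeGroup X} (a : w ∈ db (hs x y) s) : cd w x ≤ s.norm := by
  rw [← cd_mul w s]
  by_cases b : w ∈ hs x y
  · have c : w * s ∉ hs x y := fun c => a (iff_of_true b c)
    have e1 := hs_cross h c b
    have e2 := cd_step h w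
    have e3 := cd_nonneg (w * s) x
    rw [Cay1_hs] at b
    rw [cd_comm (w * s) w, cd_comm y w] at e1
    omega
  · have c : w * s ∈ hs x y := by
      by_contra c
      exact a (iff_of_false b c)
    have e1 := hs_cross h b c
    have e2 := cd_nonneg y (w * s)
    omega

theorem clo_iff : Clo A ↔ ∀ s : X, (db A (FreeGroup.of s)).Finite := by
  refine ⟨fun h s => h _, fun h s => ?_⟩
  induction s with
  | C1 => simp [db]
  | of s => exact h s
  | inv_of s ih => rw [db_inv]; exact ih.image _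
  | mul s t a b => exact (a.union (b.image _)).subset (db_mul A s t)

theorem cut_iff {H Z : Subgroup (FreeGroup X)} : Cut H Z A ↔ Sat H A ∧ ∀ s : X,
    ∃ E : Finset (FreeGroup X), ∀ x ∈ db A (FreeGroup.of s), ∃ z ∈ Z, ∃ e ∈ E, x = z * e := by
  refine ⟨fun h => ⟨h.1, fun s => h.2 _⟩, fun h => ⟨h.1, fun s => ?_⟩⟩
  induction s with
  | C1 => exact ⟨∅, fun x a => by simp [db] at a⟩
  | of s => exact h.2 s
  | inv_of s ih =>
    obtain ⟨E, a⟩ := ih
    refine ⟨E.image (· * FreeGroup.of s), fun x b => ?_⟩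
    rw [db_inv] at b
    obtain ⟨u, b, rfl⟩ := b
    obtain ⟨z, c, e, d, rfl⟩ := a u b
    exact ⟨z, c, _, Finset.mem_image_of_mem _ d, mul_assoc _ _ _⟩
  | mul s t a b =>
    obtain ⟨E, a⟩ := a
    obtain ⟨E', b⟩ := b
    refine ⟨E ∪ E'.image (· * s⁻¹), fun x c => ?_⟩
    rcases db_mul A s t c with p | ⟨u, p, rfl⟩
    · obtain ⟨z, q, e, d, f⟩ := a x p
      exact ⟨z, q, e, Finset.mem_union_left _ d, f⟩
    · obtain ⟨z, q, e, d, rfl⟩ := b u p
      exact ⟨z, q, _, Finset.mem_union_right _ (Finset.mem_image_of_mem _ d), mul_assoc _ _ _⟩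

theorem mono_of_edges (h : HT U) (e : ∀ x ∈ U, ∀ y ∈ U, cd x y = 1 → (x ∈ A ↔ y ∈ A)) : Mono U A := by
  obtain ⟨y, hy⟩ := h.nonempty
  have key : ∀ x, x ∈ U → (x ∈ A ↔ y ∈ A) := by
    intro x
    induction x using Cay1_ind y with
    | h0 => exact fun _ => Iff.rfl
    | h1 x x' a b ih =>
      intro c
      have d : x' ∈ U := h.conv c hy (by rw [cd_comm x y, cd_comm x' y]; omega)
      exact (e x c x' d a).trans (ih d)
  by_cases a : y ∈ A
  · exact .inl fun x b => (key x b).2 a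
  · exact .inr fun x b c => a ((key x b).1 c)

theorem Cay1_line {a : ℤ → FreeGroup X} (h1 : ∀ i, cd (a i) (a (i + 1)) = 1)
    (h2 : ∀ i, a i ≠ a (i + 2)) : Line a := by
  have key : ∀ n : ℕ, ∀ i, cd (a i) (a (i + n)) = n ∧ cd (a i) (a (i + n + 1)) = n + 1 := by
    intro n
    induction n with
    | zero => exact fun i => by simpa [cd_self] using h1 i
    | succ n ih =>
      intro i
      obtain ⟨p, q⟩ := ih i
      rw [Nat.cast_succ, ← add_assoc]
      refine ⟨q, ?_⟩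
      rcases cd_step (h1 (i + n + 1)) (a i) with d | d
      · rw [d, q]
      · refine (h2 (i + n) ?_).elim
        rw [show i + n + 2 = i + n + 1 + 1 by ring]
        exact step_uniq ((cd_comm _ _).trans (h1 _)) (h1 _) (w := a i)
          (by rw [Cay1_hs]; omega) (by rw [Cay1_hs]; omega)
  have k2 : ∀ i j, i ≤ j → cd (a i) (a j) = j - i := by
    intro i j e
    obtain ⟨n, rfl⟩ := Int.le.dest e
    rw [(key n i).1]
    ring
  intro i j
  rcases le_total i j with e | e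
  · rw [k2 i j e, abs_sub_comm, abs_of_nonneg (by omega)]
  · rw [cd_comm, k2 j i e, abs_of_nonneg (by omega)]

theorem Cay1_sq (s : X × Bool) : lt s * lt s ≠ 1 := fun e => by
  have : lt s = 1 := (pow_eq_one_iff_left two_ne_zero).1 ((pow_two _).trans e)
  have := congrArg FreeGroup.norm this
  rw [Cay1_norm_lt] at this
  exact one_ne_zero this

theorem Cay1_pow (x : FreeGroup X) (s : X × Bool) : Line fun i => x * lt s ^ i := by
  refine Cay1_line (fun i => cd_one_iff.2 ⟨s, by rw [zpow_add_one, mul_assoc]⟩) fun i e => ?_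
  rw [mul_right_inj, zpow_add, left_eq_mul, zpow_two] at e
  exact Cay1_sq s e

theorem ex_line [Nonempty X] (x y : FreeGroup X) : ∃ a, Line a ∧ a 0 = x ∧ a (cd x y) = y := by
  induction x using Cay1_ind y with
  | h0 =>
    obtain ⟨s⟩ := ‹Nonempty X›
    exact ⟨_, Cay1_pow y (s, true), by simp, by simp [cd_self]⟩
  | h1 x x' c d ih =>
    by_cases e : x' = y
    · subst e
      obtain ⟨s, rfl⟩ := cd_one_iff.1 c
      exact ⟨_, Cay1_pow x s, by simp, by simp [c]⟩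
    obtain ⟨b, hb, b0, bn⟩ := ih
    obtain ⟨s, hs⟩ := cd_one_iff.1 c
    have hf := Cay1_pow x s
    have n0 := cd_nonneg x' y
    have n1 : cd x' y ≠ 0 := fun k => e (cd_eq_zero.1 k)
    rw [cd_comm y x, cd_comm y x'] at d
    obtain ⟨a, p, q⟩ : ∃ a : ℤ → FreeGroup X, (∀ i, i ≤ 1 → a i = x * lt s ^ i) ∧
        ∀ i, 1 ≤ i → a i = b (i - 1) := by
      refine ⟨fun i => if 1 ≤ i then b (i - 1) else x * lt s ^ i, fun i k => ?_,
        fun i k => if_pos k⟩
      dsimp only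
      split_ifs with l
      · obtain rfl : i = 1 := le_antisymm k l
        rw [sub_self, b0, hs, zpow_one]
      · rfl
    have a0 : a 0 = x := by rw [p 0 zero_le_one, zpow_zero, mul_one]
    refine ⟨a, Cay1_line (fun i => ?_) fun i k => ?_, a0, ?_⟩
    · by_cases l : 1 ≤ i
      · rw [q i l, q _ (by omega), hb, show i - 1 - (i + 1 - 1) = -1 by ring]
        rfl
      · rw [p i (by omega), p _ (by omega), hf, show i - (i + 1) = -1 by ring]
        rfl
    · rcases lt_trichotomy i 0 with l | rfl | l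
      · have := hf i (i + 2)
        dsimp only at this
        rw [← p i (by omega), ← p _ (by omega), k, cd_self, show i - (i + 2) = -2 by ring] at this
        exact absurd this (by decide)
      · have := hb 1 (cd x' y)
        rw [a0, q _ (by omega)] at k
        rw [bn, show (1 : ℤ) = 0 + 2 - 1 by ring, ← k, abs_sub_comm, abs_of_nonneg (by omega)] at this
        omega
      · have := hb (i - 1) (i + 2 - 1)
        rw [← q i (by omega), ← q _ (by omega), k, cd_self,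
          show i - 1 - (i + 2 - 1) = -2 by ring] at this
        exact absurd this (by decide)
    · rw [q _ (by omega), d, add_sub_cancel_right, bn]

variable [Fintype X]

theorem ball_fin (x : FreeGroup X) (r : ℤ) : {y | cd x y ≤ r}.Finite := by
  refine ((List.finite_length_le (X × Bool) r.toNat).image fun l => x * FreeGroup.mk l).subset
    fun y a => ⟨(x⁻¹ * y).toWord, ?_, by simp only [FreeGroup.mk_toWord, mul_inv_cancel_left]⟩
  change ((x⁻¹ * y).toWord.length : ℤ) ≤ r at a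
  change (x⁻¹ * y).toWord.length ≤ r.toNat
  omega

theorem HT.clo (h : HT U) : Clo U := by
  obtain ⟨x, y, a, rfl⟩ := h
  exact fun s => (ball_fin x s.norm).subset fun w b => (cd_comm x w).trans_le (db_hs a b)

theorem Clo.far (h : Clo A) (o : FreeGroup X) :
    ∃ r : ℤ, ∀ x y, cd x y = 1 → o ∉ hs x y → r ≤ cd o x → Mono (hs x y) A := by
  obtain ⟨r, hr⟩ := ((Set.finite_iUnion fun s : X => h (FreeGroup.of s)).image (cd o)).bddAbove
  refine ⟨r, fun x y a b c => mono_of_edges ⟨x, y, a, rfl⟩ ?_⟩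
  have key : ∀ u ∈ hs x y, ∀ s : X, (u ∈ A ↔ u * FreeGroup.of s ∈ A) := by
    intro u d s
    by_contra e
    have e1 : cd o u ≤ r := hr ⟨u, Set.mem_iUnion.2 ⟨s, e⟩, rfl⟩
    have e2 := hs_cross a b d
    have e3 := cd_nonneg y u
    omega
  intro u d v e f
  obtain ⟨⟨s, t⟩, rfl⟩ := cd_one_iff.1 f
  cases t
  · have := key _ e s
    rw [mul_assoc, ← lt_true, show lt (s, false) = (lt (s, true))⁻¹ from (lt_inv (s, true)).symm,
      inv_mul_cancel, mul_one, lt_inv] at this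
    exact this.symm
  · exact key u d s

theorem clo_of_far (o : FreeGroup X) (r : ℤ)
    (h : ∀ x y, cd x y = 1 → o ∉ hs x y → r ≤ cd o x → Mono (hs x y) A) : Clo A := by
  have key : ∀ u v, cd u v = 1 → cd o u ≤ cd o v → max r 0 < cd o u → (u ∈ A ↔ v ∈ A) := by
    intro u v a b c
    have e : u ≠ o := by
      rintro rfl
      rw [cd_self] at c
      omega
    obtain ⟨u', c1, c2⟩ := Cay1_step e
    have c3 : cd u' u = 1 := (cd_comm _ _).trans c1
    refine (h u' u c3 (by rw [Cay1_hs]; omega) (by omega)).iff (right_mem_hs c3) ?_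
    by_contra d
    rw [(Cay1_edge ((cd_comm _ _).trans a) c3 d (right_mem_hs c3)).1] at b
    omega
  refine clo_iff.2 fun s => (ball_fin o (max r 0 + 1)).subset fun w a => ?_
  by_contra b
  have c : cd w (w * FreeGroup.of s) = 1 := cd_one_iff.2 ⟨(s, true), rfl⟩
  have b' : max r 0 + 1 < cd o w := not_le.1 b
  rcases cd_step c o with d | d
  · exact a (key _ _ c (by omega) (by omega))
  · exact a (key _ _ ((cd_comm _ _).trans c) (by omega) (by omega)).symm

theorem hull_fin {Γ : Subgroup (FreeGroup X)} (h : Γ.FG) :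
    ∃ S : Finset (Set (FreeGroup X)), (∀ U ∈ S, HT U) ∧
      ∀ U, HT U → (∃ g ∈ Γ, g ∈ U) → (∃ g ∈ Γ, g ∉ U) → ∃ k ∈ Γ, k • U ∈ S := by
  obtain ⟨T, rfl⟩ := h
  have fin : (⋃ s ∈ T, ({U | HT U ∧ 1 ∉ U ∧ s ∈ U} ∪ {U | HT U ∧ s ∉ U ∧ 1 ∈ U})).Finite :=
    T.finite_toSet.biUnion fun s _ => (sep_fin 1 s).union (sep_fin s 1)
  refine ⟨fin.toFinset, fun U a => ?_, ?_⟩
  · obtain ⟨s, -, b | b⟩ := Set.mem_iUnion₂.1 (fin.mem_toFinset.1 a)
    exacts [b.1, b.1]
  rintro U hU ⟨g, a, b⟩ ⟨g', c, d⟩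
  obtain ⟨γ, e, s, f, ne⟩ : ∃ γ ∈ closure (T : Set (FreeGroup X)), ∃ s ∈ T, ¬ (γ ∈ U ↔ γ * s ∈ U) := by
    by_contra hc
    push Not at hc
    have key : ∀ t ∈ closure (T : Set (FreeGroup X)), ∀ γ ∈ closure (T : Set (FreeGroup X)),
        (γ ∈ U ↔ γ * t ∈ U) := by
      intro t ht
      induction ht using closure_induction with
      | mem t ht => exact fun γ e => hc γ e t ht
      | one => simp
      | mul t u ht _ p q => exact fun γ e => by rw [← mul_assoc, ← q _ (mul_mem e ht), ← p γ e]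
      | inv t ht p => exact fun γ e => by rw [p _ (mul_mem e (inv_mem ht)), inv_mul_cancel_right]
    have := key _ (mul_mem (inv_mem a) c) g a
    rw [mul_inv_cancel_left] at this
    exact d (this.1 b)
  refine ⟨γ⁻¹, inv_mem e, fin.mem_toFinset.2 (Set.mem_iUnion₂.2 ⟨s, f, ?_⟩)⟩
  simp only [Set.mem_union, Set.mem_ofPred_eq, mem_smul', inv_inv, mul_one, hU.smul γ⁻¹, true_and]
  tauto

theorem lv_fin (W : List (FreeGroup X)) (h : Clo A) : (lv W A).Finite := by
  refine (W.finite_toSet.biUnion fun s _ => ((h s).image fun x => (x, x * s)).union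
    ((h s).image fun x => (x * s, x))).subset ?_
  rintro ⟨x, y⟩ ⟨⟨s, a, e | e⟩, b, c⟩ <;> dsimp only at e b c <;> subst e
  · exact Set.mem_biUnion a (.inl ⟨x, fun k => c (k.1 b), rfl⟩)
  · exact Set.mem_biUnion a (.inr ⟨y, fun k => c (k.2 b), rfl⟩)

theorem lv_smul (W : List (FreeGroup X)) (k : FreeGroup X) {p : FreeGroup X × FreeGroup X} :
    (k * p.1, k * p.2) ∈ lv W (k • A) ↔ p ∈ lv W A := by
  refine and_congr ⟨fun a => ?_, fun a => a.mul k⟩ (and_congr mul_mem_smul (not_congr mul_mem_smul))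
  simpa using a.mul k⁻¹

theorem lv_bound (W : List (FreeGroup X)) : ∃ k₀ : ℕ, ∀ U, HT U → (lv W U).ncard ≤ k₀ := by
  refine ⟨Finset.univ.sup fun p : X × Bool => (lv W (sg p.2 (hs 1 (FreeGroup.of p.1)))).ncard,
    fun U a => ?_⟩
  obtain ⟨k, s, b, rfl⟩ := ht_iff.1 a
  refine le_trans (le_of_eq ?_) (Finset.le_sup (Finset.mem_univ (s, b)))
  rw [← sg_smul]
  refine (Set.ncard_congr (fun p _ => (k * p.1, k * p.2)) (fun p c => (lv_smul W k).2 c)
    (fun p q _ _ e => ?_) fun p c => ⟨(k⁻¹ * p.1, k⁻¹ * p.2), (lv_smul W k).1 ?_, by simp⟩).symm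
  · simpa [Prod.ext_iff] using e
  · simpa using c

theorem sg_bound (W : List (FreeGroup X)) : ∃ r : ℤ, ∀ x y, Sg W x y → cd x y ≤ r := by
  obtain ⟨r, hr⟩ := (W.finite_toSet.image fun h => (h.norm : ℤ)).bddAbove
  refine ⟨r, ?_⟩
  rintro x y ⟨s, a, rfl | rfl⟩
  · rw [cd_mul]; exact hr ⟨s, a, rfl⟩
  · rw [cd_comm, cd_mul]; exact hr ⟨s, a, rfl⟩

end Pool.Agent.Work.MP_3bdf32_al
end

-- merged part: Pool.Agent.Work.MP_3bdf32_al.Cay2
section
/-! Lines and axes in the Cayley tree. -/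

namespace Pool.Agent.Work.MP_3bdf32_al

set_option linter.unusedSectionVars false
set_option linter.unusedVariables false

open Subgroup MulAction Filter
open scoped Pointwise

variable {X : Type} [DecidableEq X] {a a' : ℤ → FreeGroup X} {g g' x y : FreeGroup X}
  {l l' : ℤ} {U A : Set (FreeGroup X)}

theorem Cay2_adj (h : Line a) (i : ℤ) : cd (a i) (a (i + 1)) = 1 := by
  rw [h]; simp

theorem Cay2_adj' (h : Line a) (i : ℤ) : cd (a i) (a (i - 1)) = 1 := by
  rw [h]; simp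

theorem Cay2_up (h : Line a) {i j : ℤ} (e : i < j) : a j ∈ hs (a i) (a (i + 1)) := by
  show cd _ _ < cd _ _
  rw [h, h]; simp only [abs_eq_max_neg]; omega

theorem Cay2_down (h : Line a) {i j : ℤ} (e : j < i) : a j ∈ hs (a i) (a (i - 1)) := by
  show cd _ _ < cd _ _
  rw [h, h]; simp only [abs_eq_max_neg]; omega

theorem Cay2_formula (h : Line a) {i : ℤ} (e : ∀ j, cd y (a i) ≤ cd y (a j)) (j : ℤ) :
    cd y (a j) = cd y (a i) + |j - i| := by
  rcases lt_trichotomy i j with c | rfl | c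
  · rw [hs_cross (Cay2_adj h i) (fun f => not_lt.2 (e (i + 1)) f) (Cay2_up h c), h]
    simp only [abs_eq_max_neg]; omega
  · simp
  · rw [hs_cross (Cay2_adj' h i) (fun f => not_lt.2 (e (i - 1)) f) (Cay2_down h c), h]
    simp only [abs_eq_max_neg]; omega

theorem Cay2_exmin {β : Type} [Nonempty β] (f : β → ℤ) (hf : ∀ b, 0 ≤ f b) :
    ∃ i, ∀ j, f i ≤ f j := by
  refine ⟨Function.argmin (fun b => (f b).toNat), fun j => ?_⟩
  have := Function.argmin_le (fun b => (f b).toNat) j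
  have := hf j
  have := hf (Function.argmin fun b => (f b).toNat)
  omega

theorem Cay2_min (a : ℤ → FreeGroup X) (y : FreeGroup X) (j : ℤ) :
    cd y (a (pr a y)) ≤ cd y (a j) := by
  have e : ∃ i, ∀ j, cd y (a i) ≤ cd y (a j) := Cay2_exmin _ fun j => cd_nonneg y (a j)
  unfold pr
  rw [dif_pos e]
  exact e.choose_spec j

theorem Cay2_pr_eq (h : Line a) {p : ℤ} (e : ∀ j, cd y (a p) ≤ cd y (a j)) : pr a y = p := by
  have h1 := Cay2_formula h e (pr a y)
  have h2 := Cay2_min a y p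
  simp only [abs_eq_max_neg] at h1; omega

theorem Line.ht (h : Line a) (i : ℤ) : HT (hl a i) := by
  exact ⟨_, _, Cay2_adj h i, rfl⟩

theorem Line.inj (h : Line a) : Function.Injective a := by
  intro i j e
  have := h i j
  rw [e, cd_self] at this
  simp only [abs_eq_max_neg] at this; omega

theorem Line.cd_pr (h : Line a) (y : FreeGroup X) (j : ℤ) :
    cd y (a j) = cd y (a (pr a y)) + |j - pr a y| := by
  exact Cay2_formula h (Cay2_min a y) j

theorem Line.mem_hl (h : Line a) {i : ℤ} : y ∈ hl a i ↔ i < pr a y := by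
  show cd _ _ < cd _ _ ↔ _
  rw [h.cd_pr y (i + 1), h.cd_pr y i]
  simp only [abs_eq_max_neg]; omega

theorem Line.pr_self (h : Line a) (i : ℤ) : pr a (a i) = i := by
  exact Cay2_pr_eq h fun j => by rw [cd_self]; exact cd_nonneg _ _

theorem Cay2_lt (h : Line a) (e : pr a x < pr a y) :
    cd x y = cd x (a (pr a x)) + |pr a x - pr a y| + cd (a (pr a y)) y := by
  have h1 : x ∉ hl a (pr a x) := fun f => lt_irrefl _ (h.mem_hl.1 f)
  rw [hs_cross (Cay2_adj h _) h1 (h.mem_hl.2 e), cd_comm (a (pr a x + 1)), h.cd_pr y (pr a x + 1),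
    cd_comm (a (pr a y))]
  simp only [abs_eq_max_neg]; omega

theorem Cay2_ne (h : Line a) (e : pr a x ≠ pr a y) :
    cd x y = cd x (a (pr a x)) + |pr a x - pr a y| + cd (a (pr a y)) y := by
  rcases lt_or_gt_of_ne e with c | c
  · exact Cay2_lt h c
  · rw [cd_comm x y, Cay2_lt h c, cd_comm y, cd_comm x, abs_sub_comm]; ring

theorem Line.pr_lip (h : Line a) (x y : FreeGroup X) : |pr a x - pr a y| ≤ cd x y := by
  by_cases e : pr a x = pr a y
  · rw [e]; simpa using cd_nonneg x y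
  · have := Cay2_ne h e
    have := cd_nonneg x (a (pr a x))
    have := cd_nonneg (a (pr a y)) y
    omega

theorem Line.cd_of_ne (h : Line a) (e : pr a x ≠ pr a y) :
    cd x y = cd x (a (pr a x)) + |pr a x - pr a y| + cd (a (pr a y)) y := by
  exact Cay2_ne h e

theorem Line.hl_anti (h : Line a) {i j : ℤ} : hl a j ⊆ hl a i ↔ i ≤ j := by
  refine ⟨fun e => ?_, fun e y f => h.mem_hl.2 (e.trans_lt (h.mem_hl.1 f))⟩
  have := h.mem_hl.1 (e (Cay2_up h (lt_add_one j)))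
  rw [h.pr_self] at this; omega

theorem Line.smul (h : Line a) (k : FreeGroup X) : Line fun i => k * a i := by
  exact fun i j => by rw [cd_smul, h]

theorem Line.pr_smul (h : Line a) (k y : FreeGroup X) : pr (fun i => k * a i) (k * y) = pr a y := by
  exact Cay2_pr_eq (h.smul k) fun j => by rw [cd_smul, cd_smul]; exact Cay2_min a y j

theorem hl_smul (a : ℤ → FreeGroup X) (k : FreeGroup X) (i : ℤ) :
    k • hl a i = hl (fun i => k * a i) i := by
  exact hs_smul _ _ _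

theorem Line.rev (h : Line a) : Line fun i => a (-i) := by
  intro i j
  rw [h]; simp only [abs_eq_max_neg]; omega

theorem Line.pr_rev (h : Line a) (y : FreeGroup X) : pr (fun i => a (-i)) y = -pr a y := by
  exact Cay2_pr_eq h.rev fun j => by rw [neg_neg]; exact Cay2_min a y _

theorem Line.hl_rev (h : Line a) (i : ℤ) : hl (fun i => a (-i)) i = (hl a (-i - 1))ᶜ := by
  ext y
  rw [Set.mem_compl_iff, h.rev.mem_hl, h.mem_hl, h.pr_rev]; omega

theorem Line.shift (h : Line a) (c : ℤ) : Line fun i => a (i + c) := by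
  intro i j
  rw [h]; congr 1; ring

theorem Line.pr_shift (h : Line a) (c : ℤ) (y : FreeGroup X) :
    pr (fun i => a (i + c)) y = pr a y - c := by
  exact Cay2_pr_eq (h.shift c) fun j => by rw [sub_add_cancel]; exact Cay2_min a y _

/-- a half tree missing the line projects to a point -/
theorem Line.hang (h : Line a) (hU : HT U) (e : ∀ j, a j ∉ U) : ∃ i, ∀ y ∈ U, pr a y = i := by
  obtain ⟨u, v, huv, rfl⟩ := hU
  refine ⟨pr a u, fun w hw => Cay2_pr_eq h fun j => ?_⟩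
  rw [cd_comm w, cd_comm w, hs_cross huv (e _) hw, hs_cross huv (e j) hw, cd_comm (a j),
    cd_comm (a _)]
  have := Cay2_min a u j
  omega

/-- a point outside the line lies in a half tree hanging at its projection -/
theorem Line.ex_hang (h : Line a) (e : ∀ j, y ≠ a j) :
    ∃ v, cd (a (pr a y)) v = 1 ∧ y ∈ hs (a (pr a y)) v ∧ ∀ j, a j ∉ hs (a (pr a y)) v := by
  obtain ⟨v, h1, h2⟩ := ex_step (e (pr a y)).symm
  refine ⟨v, h1, h2, fun j f => ?_⟩
  rcases lt_trichotomy (pr a y) j with c | c | c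
  · rw [step_uniq h1 (Cay2_adj h _) f (Cay2_up h c)] at h2
    exact not_lt.2 (Cay2_min a y _) h2
  · rw [← c] at f
    exact left_notMem_hs _ _ f
  · rw [step_uniq h1 (Cay2_adj' h _) f (Cay2_down h c)] at h2
    exact not_lt.2 (Cay2_min a y _) h2

theorem Cay2_const {P : ℤ → Prop} (h : ∀ i, P i ↔ P (i + 1)) (i : ℤ) : P i ↔ P 0 := by
  induction i using Int.induction_on with
  | zero => rfl
  | succ n ih => exact (h n).symm.trans ih
  | pred n ih => exact (h (-n - 1)).trans (by rwa [sub_add_cancel])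

theorem Line.cases (h : Line a) (hU : HT U) :
    (∃ i, U = hl a i) ∨ (∃ i, U = (hl a i)ᶜ) ∨ (∀ j, a j ∉ U) ∨ ∀ j, a j ∈ U := by
  by_cases e : ∀ i, a i ∈ U ↔ a (i + 1) ∈ U
  · by_cases f : a 0 ∈ U
    · exact .inr (.inr (.inr fun j => (Cay2_const (P := fun i => a i ∈ U) e j).2 f))
    · exact .inr (.inr (.inl fun j c => f ((Cay2_const (P := fun i => a i ∈ U) e j).1 c)))
  · obtain ⟨i, hi⟩ := not_forall.1 e
    by_cases f : a i ∈ U
    · refine .inr (.inl ⟨i, ?_⟩)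
      rw [hl, hs_compl (Cay2_adj h i)]
      exact hU.edge (by rw [cd_comm]; exact Cay2_adj h i) (by tauto) f
    · exact .inl ⟨i, hU.edge (Cay2_adj h i) f (by tauto)⟩

theorem Cay2_between (h : Line a) {i j t : ℤ} (e : cd y (a i) = t) (f : cd y (a j) = j - i - t) :
    a (i + t) = y := by
  have h1 := h.cd_pr y i
  have h2 := h.cd_pr y j
  have h3 := cd_nonneg y (a (pr a y))
  simp only [abs_eq_max_neg] at h1 h2
  have h4 : cd y (a (pr a y)) = 0 := by omega
  have h5 : i + t = pr a y := by omega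
  rw [h5]; exact (cd_eq_zero.1 h4).symm

/-- two lines through two common points share the segment between them -/
theorem Line.share (h : Line a) (h' : Line a') {i j i' j' : ℤ} (e : a i = a' i') (f : a j = a' j')
    (hij : i ≤ j) : ∃ ε : ℤ, (ε = 1 ∨ ε = -1) ∧ j' = i' + ε * (j - i) ∧
      ∀ t, 0 ≤ t → t ≤ j - i → a (i + t) = a' (i' + ε * t) := by
  have h1 := h i j
  rw [e, f, h'] at h1
  simp only [abs_eq_max_neg] at h1
  by_cases c : i' ≤ j'
  · refine ⟨1, .inl rfl, by omega, fun t t0 t1 => Cay2_between h (j := j) ?_ ?_⟩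
    · rw [e, h']; simp only [abs_eq_max_neg]; omega
    · rw [f, h']; simp only [abs_eq_max_neg]; omega
  · refine ⟨-1, .inr rfl, by omega, fun t t0 t1 => Cay2_between h (j := j) ?_ ?_⟩
    · rw [e, h']; simp only [abs_eq_max_neg]; omega
    · rw [f, h']; simp only [abs_eq_max_neg]; omega

theorem Cay2_line (h : ∀ i, cd (a i) (a (i + 1)) = 1) (h' : ∀ i, a i ≠ a (i + 2)) : Line a := by
  have key : ∀ n : ℕ, (∀ i, cd (a i) (a (i + n)) = n) ∧ ∀ i, cd (a i) (a (i + n + 1)) = n + 1 := by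
    intro n
    induction n with
    | zero => exact ⟨fun i => by simp [cd_self], fun i => by simpa using h i⟩
    | succ n ih =>
      refine ⟨fun i => by push_cast; rw [← add_assoc]; exact ih.2 i, fun i => ?_⟩
      have e1 := ih.1 (i + 1 + 1)
      have e2 := ih.2 (i + 1)
      have e3 : i + 1 + 1 + (n : ℤ) = i + ((n + 1 : ℕ) : ℤ) + 1 := by push_cast; ring
      have e4 : i + 1 + (n : ℤ) + 1 = i + ((n + 1 : ℕ) : ℤ) + 1 := by push_cast; ring
      rw [e3] at e1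
      rw [e4] at e2
      have m1 : a (i + ((n + 1 : ℕ) : ℤ) + 1) ∈ hs (a (i + 1)) (a (i + 1 + 1)) := by
        show cd _ _ < cd _ _
        rw [cd_comm, e1, cd_comm, e2]; omega
      have c0 : cd (a (i + 1)) (a i) = 1 := by rw [cd_comm]; exact h i
      have m2 : a i ∉ hs (a (i + 1)) (a (i + 1 + 1)) := fun f =>
        h' i ((step_uniq c0 (h (i + 1)) (right_mem_hs c0) f).trans (by congr 1; ring))
      rw [hs_cross (h (i + 1)) m2 m1, h i, e1]; push_cast; ring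
  intro i j
  rcases le_total i j with c | c
  · obtain ⟨n, rfl⟩ := Int.le.dest c
    rw [(key n).1]; simp
  · obtain ⟨n, rfl⟩ := Int.le.dest c
    rw [cd_comm, (key n).1]; simp

theorem ex_axis (h : g ≠ 1) : ∃ a l, AxL g a l := by
  have hX : Nonempty X := by
    by_contra c
    have : IsEmpty X := not_nonempty_iff.1 c
    exact h (Subsingleton.elim _ _)
  obtain ⟨p, hp⟩ := Cay2_exmin (fun p : FreeGroup X => cd p (g * p)) fun p => cd_nonneg _ _
  obtain ⟨b, hb, b0, b1⟩ := ex_line p (g * p)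
  obtain ⟨l, hl⟩ : ∃ l, l = cd p (g * p) := ⟨_, rfl⟩
  rw [← hl] at b1
  have l0 : 0 < l := by
    refine lt_of_le_of_ne (hl ▸ cd_nonneg _ _) fun e => h ?_
    have := cd_eq_zero.1 (hl ▸ e.symm : cd p (g * p) = 0)
    exact mul_right_cancel (this.symm.trans (one_mul p).symm)
  have key : ∀ q r : ℤ, 0 ≤ r → r ≤ l →
      g ^ ((q * l + r) / l) * b ((q * l + r) % l) = g ^ q * b r := by
    intro q r r0 r1
    rcases r1.eq_or_lt with e | e
    · rw [e, show q * l + l = (q + 1) * l by ring, Int.mul_ediv_cancel _ l0.ne',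
        Int.mul_emod_left, b0, b1, zpow_add_one, mul_assoc]
    · rw [add_comm, Int.add_mul_ediv_right _ _ l0.ne', Int.add_mul_emod_self_right,
        Int.ediv_eq_zero_of_lt r0 e, Int.emod_eq_of_lt r0 e, zero_add]
  have dec : ∀ i : ℤ, ∃ q r, 0 ≤ r ∧ r < l ∧ i = q * l + r := fun i =>
    ⟨i / l, i % l, Int.emod_nonneg _ l0.ne', Int.emod_lt_of_pos _ l0,
      (Int.ediv_mul_add_emod i l).symm⟩
  refine ⟨fun i => g ^ (i / l) * b (i % l), l, Cay2_line (fun i => ?_) fun i => ?_, l0, fun i => ?_⟩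
  · obtain ⟨q, r, r0, r1, rfl⟩ := dec i
    rw [add_assoc, key q r r0 r1.le, key q (r + 1) (by omega) (by omega), cd_smul, Cay2_adj hb]
  · obtain ⟨q, r, r0, r1, rfl⟩ := dec i
    intro e
    rcases le_or_gt (r + 2) l with c | c
    · rw [add_assoc, key q r r0 r1.le, key q (r + 2) (by omega) c] at e
      have := hb.inj (mul_left_cancel e)
      omega
    · rw [show q * l + r + 2 = (q + 1) * l + 1 by rw [show l = r + 1 by omega]; ring,
        key q r r0 r1.le, key (q + 1) 1 (by omega) (by omega), zpow_add_one, mul_assoc] at e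
      have e1 := mul_left_cancel e
      have e2 := hp (b 1)
      rw [← e1, hb, ← hl] at e2
      simp only [abs_eq_max_neg] at e2
      have e3 : r = 0 := by omega
      have e4 : l = 1 := by omega
      rw [e3, b0, ← e4, b1, ← mul_assoc] at e1
      have e5 : g ^ 2 = 1 := by
        rw [sq]; exact mul_right_cancel (e1.symm.trans (one_mul p).symm)
      rcases pow_eq_one_iff.1 e5 with f | f
      · exact h f
      · omega
  · obtain ⟨q, r, r0, r1, rfl⟩ := dec i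
    rw [show q * l + r + l = (q + 1) * l + r by ring]
    simp only
    rw [key q r r0 r1.le, key (q + 1) r r0 r1.le, add_comm q, zpow_one_add, mul_assoc]

theorem AxL.ne (h : AxL g a l) : g ≠ 1 := by
  rintro rfl
  have := h.1.inj ((one_mul _).symm.trans (h.2.2 0))
  have := h.2.1
  omega

theorem AxL.zpow (h : AxL g a l) (n i : ℤ) : g ^ n * a i = a (i + n * l) := by
  induction n using Int.induction_on with
  | zero => simp
  | succ n ih => rw [add_comm (n : ℤ), zpow_one_add, mul_assoc, ih, h.2.2]; congr 1; ring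
  | pred n ih =>
    rw [sub_eq_add_neg, add_comm (-(n : ℤ)), zpow_add, mul_assoc, ih, zpow_neg_one, inv_mul_eq_iff_eq_mul,
      h.2.2]
    congr 1; ring

theorem AxL.pow (h : AxL g a l) {n : ℕ} (hn : 0 < n) : AxL (g ^ n) a (n * l) := by
  exact ⟨h.1, mul_pos (by exact_mod_cast hn) h.2.1, fun i => by rw [← h.zpow, zpow_natCast]⟩

theorem AxL.pr_zpow (h : AxL g a l) (n : ℤ) (y : FreeGroup X) : pr a (g ^ n * y) = pr a y + n * l := by
  have e1 := h.1.pr_smul (g ^ n) y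
  rw [funext fun i => h.zpow n i, h.1.pr_shift] at e1
  omega

theorem AxL.hl_zpow (h : AxL g a l) (n i : ℤ) : g ^ n • hl a i = hl a (i + n * l) := by
  ext y
  rw [mem_smul', h.1.mem_hl, h.1.mem_hl, ← zpow_neg, h.pr_zpow, neg_mul]
  omega

theorem AxL.ev (h : AxL g a l) (i : ℤ) : Ev (hl a i) g := by
  intro x
  filter_upwards [eventually_ge_atTop ((i - pr a x).toNat + 1)] with n hn
  rw [h.1.mem_hl, ← zpow_natCast, h.pr_zpow]
  have : (n : ℤ) * 1 ≤ n * l := mul_le_mul_of_nonneg_left h.2.1 (Int.natCast_nonneg n)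
  omega

theorem AxL.ev_inv (h : AxL g a l) (i : ℤ) : Ev (hl a i)ᶜ g⁻¹ := by
  intro x
  filter_upwards [eventually_ge_atTop ((pr a x - i).toNat)] with n hn
  rw [Set.mem_compl_iff, h.1.mem_hl, inv_pow, ← zpow_natCast, ← zpow_neg, h.pr_zpow, neg_mul]
  have : (n : ℤ) * 1 ≤ n * l := mul_le_mul_of_nonneg_left h.2.1 (Int.natCast_nonneg n)
  omega

theorem AxL.inv (h : AxL g a l) : AxL g⁻¹ (fun i => a (-i)) l := by
  refine ⟨h.1.rev, h.2.1, fun i => ?_⟩
  rw [inv_mul_eq_iff_eq_mul, h.2.2, show -(i + l) + l = -i by ring]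

theorem AxL.conj (h : AxL g a l) (k : FreeGroup X) : AxL (k * g * k⁻¹) (fun i => k * a i) l := by
  refine ⟨h.1.smul k, h.2.1, fun i => ?_⟩
  simp only
  rw [← h.2.2]; group

theorem AxL.shift (h : AxL g a l) (c : ℤ) : AxL g (fun i => a (i + c)) l := by
  refine ⟨h.1.shift c, h.2.1, fun i => ?_⟩
  simp only
  rw [h.2.2]; congr 1; ring

theorem AxL.norm (h : AxL g a l) : (((a 0)⁻¹ * g * a 0).norm : ℤ) = l := by
  have e : cd (a 0) (g * a 0) = l := by
    rw [h.2.2, h.1]; simp [abs_of_pos h.2.1]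
  rw [mul_assoc]; exact e

theorem Cay2_disp (h : AxL g a l) (y : FreeGroup X) :
    cd y (g * y) = l + 2 * cd y (a (pr a y)) := by
  have e1 := h.pr_zpow 1 y
  rw [zpow_one, one_mul] at e1
  have l0 := h.2.1
  rw [h.1.cd_of_ne (x := y) (y := g * y) (by omega), e1, ← h.2.2, cd_smul, cd_comm (a _)]
  simp only [abs_eq_max_neg]; omega

theorem Cay2_self (h : AxL g a l) (i : ℤ) : cd (a i) (g * a i) = l := by
  rw [h.2.2, h.1]; simp [abs_of_pos h.2.1]

theorem AxL.le (h : AxL g a l) (y : FreeGroup X) : l ≤ cd y (g * y) := by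
  have := Cay2_disp h y
  have := cd_nonneg y (a (pr a y))
  omega

/-- the axis is unique up to a shift -/
theorem AxL.uniq (h : AxL g a l) (h' : AxL g a' l') : l = l' ∧ ∃ c, ∀ i, a' i = a (i + c) := by
  have e1 := h.le (a' 0)
  have e2 := h'.le (a 0)
  rw [Cay2_self h'] at e1
  rw [Cay2_self h] at e2
  obtain rfl : l = l' := le_antisymm e1 e2
  have e3 : ∀ i, a' i = a (pr a (a' i)) := fun i => by
    have := Cay2_disp h (a' i)
    rw [Cay2_self h'] at this
    exact cd_eq_zero.1 (by omega)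
  have e4 : ∀ i j, |pr a (a' i) - pr a (a' j)| = |i - j| := fun i j => by
    rw [← h.1, ← e3, ← e3, h'.1]
  have e5 : pr a (a' l) = pr a (a' 0) + l := by
    have := h.pr_zpow 1 (a' 0)
    rwa [zpow_one, one_mul, h'.2.2, zero_add] at this
  refine ⟨rfl, pr a (a' 0), fun i => (e3 i).trans ?_⟩
  have e6 := e4 i 0
  have e7 := e4 i l
  have l0 := h.2.1
  simp only [abs_eq_max_neg] at e6 e7
  congr 1; omega

theorem AxL.comm (h : AxL g a l) (c : Commute g g') (e : g' ≠ 1) :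
    ∃ m, m ≠ 0 ∧ ∀ i, g' * a i = a (i + m) := by
  have h1 := h.conj g'
  rw [← c.eq, mul_inv_cancel_right] at h1
  obtain ⟨-, m, hm⟩ := h.uniq h1
  refine ⟨m, ?_, hm⟩
  rintro rfl
  have := hm 0
  simp only [add_zero] at this
  exact e (mul_right_cancel (this.trans (one_mul _).symm))

theorem Cay2_hang (h : AxL g a l) (hU : HT U) (e : ∀ j, a j ∉ U) : Ev Uᶜ g ∧ Ev Uᶜ g⁻¹ := by
  obtain ⟨i, hi⟩ := h.1.hang hU e
  refine ⟨(h.ev i).mono fun y c f => ?_, (h.ev_inv (i - 1)).mono fun y c f => c ?_⟩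
  · have := h.1.mem_hl.1 c
    rw [hi y f] at this; omega
  · rw [h.1.mem_hl, hi y f]; omega

theorem Cay2_all (h : AxL g a l) (hU : HT U) (e : ∀ j, a j ∈ U) : Ev U g ∧ Ev U g⁻¹ := by
  simpa using Cay2_hang h hU.compl fun j c => c (e j)

theorem Cay2_both (h : AxL g a l) (hU : HT U) (e : Ev U g) (f : Ev U g⁻¹) (j : ℤ) : a j ∈ U := by
  rcases h.1.cases hU with ⟨i, rfl⟩ | ⟨i, rfl⟩ | c | c
  · exact (f.not_compl (h.ev_inv i)).elim
  · exact ((h.ev i).not_compl e).elim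
  · exact (e.not_compl (Cay2_hang h hU c).1).elim
  · exact c j

theorem AxL.ev_of_mem (h : AxL g a l) (hU : HT U) {i : ℤ} (e : a i ∈ U) : Ev U g ∨ Ev U g⁻¹ := by
  rcases h.1.cases hU with ⟨j, rfl⟩ | ⟨j, rfl⟩ | c | c
  · exact .inl (h.ev j)
  · exact .inr (h.ev_inv j)
  · exact (c i e).elim
  · exact .inl (Cay2_all h hU c).1

theorem AxL.ev_of_hang (h : AxL g a l) (hU : HT U) (e : ∀ j, a j ∉ U) : Ev Uᶜ g ∧ Ev Uᶜ g⁻¹ := by
  exact Cay2_hang h hU e

theorem AxL.eq_hl (h : AxL g a l) (hU : HT U) (e : Ev U g) (f : Ev Uᶜ g⁻¹) : ∃ i, U = hl a i := by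
  rcases h.1.cases hU with c | ⟨j, rfl⟩ | c | c
  · exact c
  · exact ((h.ev j).not_compl e).elim
  · exact (e.not_compl (Cay2_hang h hU c).1).elim
  · exact ((Cay2_all h hU c).2.not_compl f).elim

theorem Cay2_over (h : AxL g a l) (h' : AxL g' a' l') (p j : ℤ)
    (e : ∀ t, 0 ≤ t → t ≤ l + l' → a (p + t) = a' (j + t)) : Commute g g' := by
  have l0 := h.2.1
  have l1 := h'.2.1
  have e0 := e 0 le_rfl (by omega)
  rw [add_zero, add_zero] at e0
  refine mul_right_cancel (b := a p) ?_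
  rw [mul_assoc, mul_assoc, h.2.2 p, e l l0.le (by omega), h'.2.2, e0, h'.2.2,
    ← e l' l1.le (by omega), h.2.2, add_assoc j, ← e _ (by omega) le_rfl]
  congr 1; ring

theorem AxL.overlap (h : AxL g a l) (h' : AxL g' a' l') (p : ℤ)
    (e : ∀ i, p ≤ i → i ≤ p + l + l' → ∃ j, a i = a' j) : Commute g g' := by
  have l0 := h.2.1
  have l1 := h'.2.1
  obtain ⟨j, hj⟩ := e p le_rfl (by omega)
  obtain ⟨j', hj'⟩ := e (p + l + l') (by omega) le_rfl
  obtain ⟨ε, rfl | rfl, -, f⟩ := h.1.share h'.1 hj hj' (by omega)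
  · exact Cay2_over h h' p j fun t t0 t1 => by rw [f t t0 (by omega), one_mul]
  · exact Commute.inv_right_iff.1 (Cay2_over h h'.inv p (-j) fun t t0 t1 => by
      rw [f t t0 (by omega)]; congr 1; ring)

theorem HT.ev (hU : HT U) (h : g ≠ 1) : Ev U g ∨ Ev Uᶜ g := by
  obtain ⟨a, l, ha⟩ := ex_axis h
  rcases ha.1.cases hU with ⟨j, rfl⟩ | ⟨j, rfl⟩ | c | c
  · exact .inl (ha.ev j)
  · exact .inr (by rw [compl_compl]; exact ha.ev j)
  · exact .inr (Cay2_hang ha hU c).1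
  · exact .inl (Cay2_all ha hU c).1

theorem Cay2_edge (h : Line a) (h' : AxL g' a' l') {i : ℤ} (e : Ev (hl a i) g')
    (f : Ev (hl a i)ᶜ g'⁻¹) : ∃ j, a i = a' j ∧ a (i + 1) = a' (j + 1) := by
  obtain ⟨j, hj⟩ := h'.eq_hl (h.ht i) e f
  exact ⟨j, hs_inj (Cay2_adj h i) (Cay2_adj h'.1 j) hj⟩

theorem Cay2_end (h : AxL g a l) (n : g' ≠ 1) (e : ∀ i, Ev (hl a i) g') : Commute g g' := by
  obtain ⟨a', l', h'⟩ := ex_axis n
  by_cases c : ∃ p, Ev (hl a p)ᶜ g'⁻¹
  · obtain ⟨p, hp⟩ := c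
    refine h.overlap h' p fun i hi _ => ?_
    obtain ⟨j, hj, -⟩ := Cay2_edge h.1 h' (e i)
      (hp.mono (Set.compl_subset_compl.2 (h.1.hl_anti.2 hi)))
    exact ⟨j, hj⟩
  · have f := ((h.1.ht (pr a (a' 0))).ev (inv_ne_one.2 n)).resolve_right fun f => c ⟨_, f⟩
    exact (lt_irrefl _ (h.1.mem_hl.1 (Cay2_both h' (h.1.ht _) (e _) f 0))).elim

theorem AxL.pos (h : AxL g a l) (c : ¬ Commute g g') : ∃ p, Pos a g' p := by
  have n : g' ≠ 1 := by rintro rfl; exact c (Commute.one_right g)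
  by_contra hc
  have step : ∀ i, Ev (hl a i) g' ↔ Ev (hl a (i + 1)) g' := fun i => by
    refine ⟨fun e => ((h.1.ht (i + 1)).ev n).resolve_right fun f => hc ⟨i + 1, fun y => ?_⟩,
      fun e => e.mono (h.1.hl_anti.2 (by omega))⟩
    filter_upwards [e y, f y] with m h1 h2
    rw [Set.mem_compl_iff, h.1.mem_hl] at h2
    rw [h.1.mem_hl] at h1
    omega
  by_cases e : Ev (hl a 0) g'
  · exact c (Cay2_end h n fun i => (Cay2_const (P := fun i => Ev (hl a i) g') step i).2 e)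
  · refine c (Commute.inv_left_iff.1 (Cay2_end h.inv n fun i => ?_))
    rw [h.1.hl_rev]
    exact ((h.1.ht _).ev n).resolve_left fun f =>
      e ((Cay2_const (P := fun i => Ev (hl a i) g') step _).1 f)

theorem Pos.ev (h : Line a) {p : ℤ} (e : Pos a g p) (i : ℤ) :
    (Ev (hl a i) g ↔ i < p) ∧ (Ev (hl a i)ᶜ g ↔ p ≤ i) := by
  refine ⟨⟨fun f => ?_, fun f y => ?_⟩, fun f => ?_, fun f y => ?_⟩
  · obtain ⟨n, h1, h2⟩ := ((f 1).and (e 1)).exists
    rwa [h.mem_hl, h2] at h1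
  · filter_upwards [e y] with n hn
    rwa [h.mem_hl, hn]
  · obtain ⟨n, h1, h2⟩ := ((f 1).and (e 1)).exists
    rwa [Set.mem_compl_iff, h.mem_hl, h2, not_lt] at h1
  · filter_upwards [e y] with n hn
    rwa [Set.mem_compl_iff, h.mem_hl, hn, not_lt]

/-- the ends of a non commuting element are separated from both ends of `g` -/
theorem sep_ends (c : ¬ Commute g g') : ∃ U, HT U ∧ Ev U g' ∧ Ev Uᶜ g ∧ Ev Uᶜ g⁻¹ := by
  have n : g' ≠ 1 := by rintro rfl; exact c (Commute.one_right g)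
  obtain ⟨a, l, h⟩ := ex_axis n
  obtain ⟨p, hp⟩ := h.pos (g' := g) fun e => c e.symm
  obtain ⟨q, hq⟩ := h.pos (g' := g⁻¹) fun e => c (Commute.inv_right_iff.1 e).symm
  exact ⟨_, h.1.ht (max p q), h.ev _, (hp.ev h.1 _).2.2 (le_max_left _ _),
    (hq.ev h.1 _).2.2 (le_max_right _ _)⟩

/-- if the two ends of `g'` have different projections, the segment between them lies on the axis
of `g'` -/
theorem Pos.share (h : Line a) (h' : AxL g' a' l') {p q : ℤ} (e : Pos a g'⁻¹ p) (f : Pos a g' q)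
    (hpq : p < q) : ∃ c, ∀ i, p ≤ i → i ≤ q → a i = a' (i + c) := by
  have key : ∀ i, p ≤ i → i < q → ∃ j, a i = a' j ∧ a (i + 1) = a' (j + 1) := fun i h1 h2 =>
    Cay2_edge h h' ((f.ev h i).1.2 h2) ((e.ev h i).2.2 h1)
  obtain ⟨j, hj, -⟩ := key p le_rfl hpq
  refine ⟨j - p, fun i h1 => ?_⟩
  induction i, h1 using Int.leInduction with
  | base => intro _; rw [hj]; congr 1; ring
  | succ i h1 ih =>
    intro h2
    obtain ⟨m, h3, h4⟩ := key i h1 (by omega)
    have := h'.1.inj (h3.symm.trans (ih (by omega)))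
    rw [h4, this]; congr 1; ring

/-- if both ends of `g'` project to `p`, then so does the axis of `g'` -/
theorem Pos.same (h : Line a) (h' : AxL g' a' l') {p : ℤ} (e : Pos a g'⁻¹ p) (f : Pos a g' p)
    (i : ℤ) : pr a (a' i) = p := by
  have h1 := Cay2_both h' (h.ht (p - 1)) ((f.ev h _).1.2 (by omega)) ((e.ev h _).1.2 (by omega)) i
  have h2 := Cay2_both h' (h.ht p).compl ((f.ev h _).2.2 le_rfl) ((e.ev h _).2.2 le_rfl) i
  rw [Set.mem_compl_iff, h.mem_hl] at h2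
  rw [h.mem_hl] at h1
  omega

/-- an element moving a half tree along a line translates along this part of the line -/
theorem win_axis (h : Line a) {i j : ℤ} (hij : i < j) (e : g • hl a i = hl a j) :
    ∃ a', AxL g a' (j - i) ∧ ∀ r, i ≤ r → r ≤ j + 1 → a' r = a r := by
  have e0 := e
  rw [hl, hs_smul] at e0
  obtain ⟨e1, e2⟩ := hs_inj (by rw [cd_smul]; exact Cay2_adj h i) (Cay2_adj h j) e0
  have n : g ≠ 1 := by
    rintro rfl
    have := h.inj ((one_mul _).symm.trans e1)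
    omega
  obtain ⟨b, l, hb⟩ := ex_axis n
  have sub : g • hl a i ⊆ hl a i := e ▸ h.hl_anti.2 hij.le
  have f1 : Ev (hl a i) g := ((h.ht i).ev n).resolve_right fun f =>
    (h.ht i).nonempty.ne_empty (f.empty_of_sub sub)
  have f2 : Ev (hl a i)ᶜ g⁻¹ := ((h.ht i).compl.ev (inv_ne_one.2 n)).resolve_right fun f =>
    (h.ht i).compl.nonempty.ne_empty (f.empty_of_sub fun y c d => by
      rw [mem_smul', inv_inv] at c
      exact c (sub (mul_mem_smul.2 d)))
  obtain ⟨r, h1, h2⟩ := Cay2_edge h hb f1 f2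
  have l0 := hb.2.1
  have h3 : a j = b (r + l) := by rw [← e1, h1, hb.2.2]
  have h4 : a (j + 1) = b (r + 1 + l) := by rw [← e2, h2, hb.2.2]
  have h5 := h i j
  rw [h1, h3, hb.1] at h5
  simp only [abs_eq_max_neg] at h5
  obtain rfl : l = j - i := by omega
  obtain ⟨ε, rfl | rfl, h6, h7⟩ := h.share hb.1 h1 h4 (by omega)
  · refine ⟨_, hb.shift (r - i), fun t t0 t1 => ?_⟩
    have := h7 (t - i) (by omega) (by omega)
    rw [add_sub_cancel] at this
    rw [this]; congr 1; ring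
  · omega

/-- the median of the two ends of `g` and an end of `g'` -/
theorem Pos.med (h : AxL g a l) {p : ℤ} (e : Pos a g' p) (c : ¬ Commute g g') (hU : HT U) :
    a p ∈ U ↔ (Ev U g ∧ Ev U g⁻¹) ∨ (Ev U g ∧ Ev U g') ∨ (Ev U g⁻¹ ∧ Ev U g') := by
  rcases h.1.cases hU with ⟨i, rfl⟩ | ⟨i, rfl⟩ | f | f
  · have h1 := h.ev i
    have h2 : ¬ Ev (hl a i) g⁻¹ := fun f => f.not_compl (h.ev_inv i)
    rw [h.1.mem_hl, h.1.pr_self, ← (e.ev h.1 i).1]
    exact ⟨fun k => .inr (.inl ⟨h1, k⟩), fun k => k.elim (fun k => (h2 k.2).elim) fun k =>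
      k.elim (·.2) (·.2)⟩
  · have h1 := h.ev_inv i
    have h2 : ¬ Ev (hl a i)ᶜ g := fun f => (h.ev i).not_compl f
    rw [Set.mem_compl_iff, h.1.mem_hl, h.1.pr_self, not_lt, ← (e.ev h.1 i).2]
    exact ⟨fun k => .inr (.inr ⟨h1, k⟩), fun k => k.elim (fun k => (h2 k.1).elim) fun k =>
      k.elim (·.2) (·.2)⟩
  · have h1 : ¬ Ev U g := fun k => k.not_compl (Cay2_hang h hU f).1
    have h2 : ¬ Ev U g⁻¹ := fun k => k.not_compl (Cay2_hang h hU f).2
    exact ⟨fun k => (f p k).elim, fun k => k.elim (fun k => (h1 k.1).elim) fun k =>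
      k.elim (fun k => (h1 k.1).elim) fun k => (h2 k.1).elim⟩
  · exact ⟨fun _ => .inl (Cay2_all h hU f), fun _ => f p⟩

variable [Fintype X]

theorem Cay2_mono (hA : Clo A) (h : Line a) : ∃ i, Mono (hl a i) A := by
  obtain ⟨r, hr⟩ := hA.far (a 0)
  refine ⟨max r 0, hr _ _ (Cay2_adj h _) (fun f => ?_) ?_⟩
  · have := h.mem_hl.1 f
    rw [h.pr_self] at this; omega
  · rw [h]; simp only [abs_eq_max_neg]; omega

theorem Clo.ev (hA : Clo A) (h : g ≠ 1) : Ev A g ∨ Ev Aᶜ g := by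
  obtain ⟨a, l, ha⟩ := ex_axis h
  obtain ⟨i, c | c⟩ := Cay2_mono hA ha.1
  · exact .inl ((ha.ev i).mono c)
  · exact .inr ((ha.ev i).mono c)

theorem Clo.hl_sub (hA : Clo A) (h : AxL g a l) (e : Ev A g) : ∃ i, hl a i ⊆ A := by
  obtain ⟨i, c | c⟩ := Cay2_mono hA h.1
  · exact ⟨i, c⟩
  · exact (e.not_compl ((h.ev i).mono c)).elim

end Pool.Agent.Work.MP_3bdf32_al
end

-- merged part: Pool.Agent.Work.MP_3bdf32_al.KDefs
section
/-! Coded families of types, computable functions and semidecidable predicates on them. -/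

namespace Pool.Agent.Work.MP_3bdf32_al

/-- existential projections of decidable predicates -/
def Sig {α : Type} [Primcodable α] (p : α → Prop) : Prop :=
  ∃ q : α × ℕ → Bool, Computable q ∧ ∀ a, p a ↔ ∃ n, q (a, n) = true

/-- a family of types whose members are coded by natural numbers -/
class Cod {ι : Type} (T : ι → Type) where
  dec : ∀ i, ℕ → T i
  surj : ∀ i, Function.Surjective (dec i)

open Cod

variable {ι : Type} [Primcodable ι]

/-- computable functions between coded families -/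
def CF {Γ T : ι → Type} [Cod Γ] [Cod T] (f : ∀ i, Γ i → T i) : Prop :=
  ∃ F : ι × ℕ → ℕ, Computable F ∧ ∀ i c, dec i (F (i, c)) = f i (dec i c)

/-- semidecidable predicates on a coded family -/
def RE {Γ : ι → Type} [Cod Γ] (p : ∀ i, Γ i → Prop) : Prop :=
  Sig fun x : ι × ℕ => p x.1 (dec x.1 x.2)

/-- decidable predicates on a coded family -/
def DC {Γ : ι → Type} [Cod Γ] (p : ∀ i, Γ i → Prop) : Prop :=
  ∃ q : ι × ℕ → Bool, Computable q ∧ ∀ i c, p i (dec i c) ↔ q (i, c) = true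

instance codNat : Cod fun _ : ι => ℕ := ⟨fun _ n => n, fun _ n => ⟨n, rfl⟩⟩

instance codBool : Cod fun _ : ι => Bool :=
  ⟨fun _ n => n.bodd, fun _ b => ⟨b.toNat, by cases b <;> rfl⟩⟩

instance codUnit : Cod fun _ : ι => Unit := ⟨fun _ _ => (), fun _ _ => ⟨0, rfl⟩⟩

instance codProd (S T : ι → Type) [Cod S] [Cod T] : Cod fun i => S i × T i :=
  ⟨fun i n => (dec i n.unpair.1, dec i n.unpair.2), fun i p => by
    obtain ⟨a, ha⟩ := surj i p.1
    obtain ⟨b, hb⟩ := surj i p.2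
    exact ⟨Nat.pair a b, by simp [ha, hb]⟩⟩

instance codList (T : ι → Type) [Cod T] : Cod fun i => List (T i) :=
  ⟨fun i n => (Denumerable.ofNat (List ℕ) n).map (dec i), fun i l => by
    obtain ⟨m, hm⟩ := (List.map_surjective_iff.2 (surj (T := T) i)) l
    exact ⟨Encodable.encode m, by simp [hm]⟩⟩

instance codOption (T : ι → Type) [Cod T] : Cod fun i => Option (T i) :=
  ⟨fun i n => n.casesOn none fun m => some (dec i m), fun i o => by
    cases o with
    | none => exact ⟨0, rfl⟩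
    | some a =>
      obtain ⟨m, hm⟩ := surj i a
      exact ⟨m + 1, congrArg some hm⟩⟩

/-- computable index functions -/
class CIdx (r : ι → ℕ) : Prop where
  comp : Computable r

instance : CIdx fun n : ℕ => n := ⟨Computable.id⟩

instance : CIdx fun p : ι × ℕ => p.2 := ⟨Computable.snd⟩

instance (r : ι → ℕ) [h : CIdx r] : CIdx fun p : ι × ℕ => r p.1 := ⟨h.comp.comp Computable.fst⟩

instance codFin (r : ι → ℕ) : Cod fun i => Fin (r i + 1) :=
  ⟨fun i n => ⟨n % (r i + 1), Nat.mod_lt _ (Nat.succ_pos _)⟩, fun i a =>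
    ⟨a.1, Fin.ext (Nat.mod_eq_of_lt a.2)⟩⟩

instance codFree (A : ι → Type) [Cod A] : Cod fun i => FreeGroup (A i) :=
  ⟨fun i n => FreeGroup.mk (dec (T := fun i => List (A i × Bool)) i n), fun i g => by
    obtain ⟨l, rfl⟩ := Quot.exists_rep g
    obtain ⟨n, hn⟩ := surj (T := fun i => List (A i × Bool)) i l
    exact ⟨n, congrArg FreeGroup.mk hn⟩⟩

/-- families with computable equality -/
class Deq (T : ι → Type) [Cod T] : Prop where
  eq : DC fun i (x : T i × T i) => x.1 = x.2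

/-- finite alphabets with a computable list of all letters -/
class Alph (A : ι → Type) [Cod A] : Prop extends Deq A where
  all : ∃ l : ∀ i, List (A i), (∀ i x, x ∈ l i) ∧ CF fun i (_ : Unit) => l i

open Classical in
noncomputable instance codFun (A T : ι → Type) [Cod A] [Alph A] [Cod T] :
    Cod fun i => A i → T i :=
  ⟨fun i n x => ((dec (T := fun i => List (A i × T i)) i n).lookup x).getD (dec i 0), fun i f => by
    obtain ⟨l, hl, -⟩ := Alph.all (A := A)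
    obtain ⟨n, hn⟩ := surj (T := fun i => List (A i × T i)) i ((l i).map fun x => (x, f x))
    refine ⟨n, funext fun x => ?_⟩
    have : ∀ m : List (A i), x ∈ m → (m.map fun x => (x, f x)).lookup x = some (f x) := by
      intro m hm
      induction m with
      | nil => simp at hm
      | cons a m ih =>
        by_cases e : x = a
        · simp [e]
        · simpa [List.lookup, beq_false_of_ne e] using ih (by simpa [e] using hm)
    simp only [hn, this _ (hl i x), Option.getD_some]⟩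

open Classical in
/-- the automorphism with given images of the letters and given inverse, if there is one -/
noncomputable def mkAut {X : Type} (f f' : X → FreeGroup X) : MulAut (FreeGroup X) :=
  if h : (∀ x, FreeGroup.lift f (f' x) = FreeGroup.of x) ∧
      ∀ x, FreeGroup.lift f' (f x) = FreeGroup.of x then
    MonoidHom.toMulEquiv (FreeGroup.lift f) (FreeGroup.lift f')
      (FreeGroup.ext_hom _ _ fun x => by simpa using h.2 x)
      (FreeGroup.ext_hom _ _ fun x => by simpa using h.1 x)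
  else 1

theorem mkAut_self {X : Type} (φ : MulAut (FreeGroup X)) :
    mkAut (fun x => φ (FreeGroup.of x)) (fun x => φ⁻¹ (FreeGroup.of x)) = φ := by
  have e : ∀ (ψ : MulAut (FreeGroup X)) g, FreeGroup.lift (fun x => ψ (FreeGroup.of x)) g = ψ g :=
    fun ψ g => DFunLike.congr_fun
      (FreeGroup.ext_hom (FreeGroup.lift fun x => ψ (FreeGroup.of x)) ψ.toMonoidHom
        fun x => by simp) g
  rw [mkAut, dif_pos ⟨fun x => by simp [e], fun x => by simp [e]⟩]
  exact MulEquiv.ext fun g => e φ g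

noncomputable instance codAut (A : ι → Type) [Cod A] [Alph A] :
    Cod fun i => MulAut (FreeGroup (A i)) :=
  ⟨fun i n => mkAut (dec (T := fun i => A i → FreeGroup (A i)) i n.unpair.1)
    (dec (T := fun i => A i → FreeGroup (A i)) i n.unpair.2), fun i φ => by
    obtain ⟨a, ha⟩ := surj (T := fun i => A i → FreeGroup (A i)) i fun x => φ (FreeGroup.of x)
    obtain ⟨b, hb⟩ := surj (T := fun i => A i → FreeGroup (A i)) i fun x => φ⁻¹ (FreeGroup.of x)
    exact ⟨Nat.pair a b, by simp only [Nat.unpair_pair, ha, hb, mkAut_self]⟩⟩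

/-- coded groups with computable operations -/
class CGrp (T : ι → Type) [Cod T] [∀ i, Group (T i)] : Prop extends Deq T where
  one : CF fun i (_ : Unit) => (1 : T i)
  mul : CF fun i (x : T i × T i) => x.1 * x.2
  inv : CF fun i (x : T i) => x⁻¹

end Pool.Agent.Work.MP_3bdf32_al
end

-- merged part: Pool.Agent.Work.MP_3bdf32_al.K1
section
/-! The calculus of computable functions and semidecidable predicates. -/

namespace Pool.Agent.Work.MP_3bdf32_al

set_option linter.unusedSectionVars false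
set_option linter.unusedVariables false

open Subgroup MulAction Filter
open scoped Pointwise

variable {ι : Type} [Primcodable ι] {Γ S T R : ι → Type} [Cod Γ] [Cod S] [Cod T] [Cod R]
  {p q : ∀ i, Γ i → Prop}

theorem K1_iter {σ : Type} (st : σ → σ) (a : σ) (n : ℕ) :
    (Nat.rec a (fun _ s => st s) n : σ) = st^[n] a := by
  induction n with
  | zero => rfl
  | succ n ih => rw [Function.iterate_succ_apply', ← ih]

theorem K1_foldr {α β σ : Type} [Primcodable α] [Primcodable β] [Primcodable σ] {f : α → List β}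
    {g : α → σ} {h : α → β → σ → σ} (hf : Computable f) (hg : Computable g)
    (hh : Computable fun x : α × β × σ => h x.1 x.2.1 x.2.2) :
    Computable fun a => (f a).foldr (h a) (g a) := by
  obtain ⟨st, hst⟩ : ∃ st : α → List β × σ → List β × σ, ∀ a s, st a s =
      Option.casesOn s.1.head? s fun b => (s.1.tail, h a b s.2) := ⟨_, fun _ _ => rfl⟩
  have h1 : Computable₂ fun (a : α) (y : ℕ × List β × σ) => st a y.2 := by
    have e1 : Computable fun x : α × ℕ × List β × σ => x.2.2 := Computable.snd.comp Computable.snd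
    have e2 : Computable fun x : (α × ℕ × List β × σ) × β => x.1.2.2 := e1.comp Computable.fst
    refine (Computable.option_casesOn
      (Primrec.list_head?.to_comp.comp (Computable.fst.comp e1)) e1
      (g := fun x b => (x.2.2.1.tail, h x.1 b x.2.2.2)) (Computable.pair
        (Primrec.list_tail.to_comp.comp (Computable.fst.comp e2))
        (hh.comp ((Computable.fst.comp Computable.fst).pair
          (Computable.snd.pair (Computable.snd.comp e2)))))).of_eq fun x => (hst _ _).symm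
  have h2 : ∀ a (l : List β) s, (st a)^[l.length] (l, s) = ([], l.foldl (fun s b => h a b s) s) := by
    intro a l
    induction l with
    | nil => intro s; rfl
    | cons b l ih =>
      intro s
      rw [List.length_cons, Function.iterate_succ_apply, hst]
      exact ih _
  refine (Computable.snd.comp (Computable.nat_rec (Computable.list_length.comp hf)
    ((Computable.list_reverse.comp hf).pair hg) h1)).of_eq fun a => ?_
  have := h2 a (f a).reverse (g a)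
  rw [List.length_reverse, List.foldl_reverse] at this
  simp only [K1_iter (st a), this]

theorem K1_and {α : Type} [Primcodable α] {f g : α → Bool} (hf : Computable f)
    (hg : Computable g) : Computable fun a => (f a && g a) := Primrec.and.to_comp.comp hf hg

theorem K1_or {α : Type} [Primcodable α] {f g : α → Bool} (hf : Computable f)
    (hg : Computable g) : Computable fun a => (f a || g a) := Primrec.or.to_comp.comp hf hg

theorem K1_all {α β : Type} [Primcodable α] [Primcodable β] {f : α → List β} {h : α → β → Bool}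
    (hf : Computable f) (hh : Computable fun x : α × β => h x.1 x.2) :
    Computable fun a => (f a).all (h a) := by
  refine (K1_foldr (h := fun a b s => h a b && s) hf (Computable.const true) (K1_and
    (hh.comp (Computable.fst.pair (Computable.fst.comp Computable.snd)))
    (Computable.snd.comp Computable.snd))).of_eq fun a => ?_
  induction f a with
  | nil => rfl
  | cons b l ih => rw [List.foldr_cons, ih, List.all_cons]

theorem K1_any {α β : Type} [Primcodable α] [Primcodable β] {f : α → List β} {h : α → β → Bool}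
    (hf : Computable f) (hh : Computable fun x : α × β => h x.1 x.2) :
    Computable fun a => (f a).any (h a) := by
  refine (K1_foldr (h := fun a b s => h a b || s) hf (Computable.const false) (K1_or
    (hh.comp (Computable.fst.pair (Computable.fst.comp Computable.snd)))
    (Computable.snd.comp Computable.snd))).of_eq fun a => ?_
  induction f a with
  | nil => rfl
  | cons b l ih => rw [List.foldr_cons, ih, List.any_cons]

theorem K1_pair {α : Type} [Primcodable α] {f g : α → ℕ} (hf : Computable f)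
    (hg : Computable g) : Computable fun a => Nat.pair (f a) (g a) :=
  Primrec₂.natPair.to_comp.comp hf hg

theorem K1_un1 {α : Type} [Primcodable α] {f : α → ℕ} (hf : Computable f) :
    Computable fun a => (f a).unpair.1 := Computable.fst.comp (Computable.unpair.comp hf)

theorem K1_un2 {α : Type} [Primcodable α] {f : α → ℕ} (hf : Computable f) :
    Computable fun a => (f a).unpair.2 := Computable.snd.comp (Computable.unpair.comp hf)

theorem K1_dec_pair (i : ι) (a b : ℕ) :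
    (Cod.dec (T := fun i => S i × T i) i (Nat.pair a b)) = (Cod.dec i a, Cod.dec i b) := by
  change (Cod.dec i (Nat.pair a b).unpair.1, Cod.dec i (Nat.pair a b).unpair.2) = _
  rw [Nat.unpair_pair]

theorem K1_list {l : ∀ i, Γ i → List (T i)} (h : CF l) : ∃ L : ι × ℕ → List ℕ, Computable L ∧
    ∀ i c, (L (i, c)).map (Cod.dec i) = l i (Cod.dec i c) := by
  obtain ⟨F, hF, e⟩ := h
  exact ⟨fun x => Denumerable.ofNat (List ℕ) (F x), (Computable.ofNat (List ℕ)).comp hF, e⟩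

theorem K1_of_list {l : ∀ i, Γ i → List (T i)} (L : ι × ℕ → List ℕ) (hL : Computable L)
    (e : ∀ i c, (L (i, c)).map (Cod.dec i) = l i (Cod.dec i c)) : CF l := by
  refine ⟨fun x => Encodable.encode (L x), Computable.encode.comp hL, fun i c => ?_⟩
  change (Denumerable.ofNat (List ℕ) (Encodable.encode (L (i, c)))).map (Cod.dec i) = _
  rw [Denumerable.ofNat_encode, e]

theorem K1_dec {f : ∀ i, Γ i → ℕ} (h : CF f) : CF fun i x => (Cod.dec i (f i x) : T i) := by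
  obtain ⟨F, hF, e⟩ := h
  exact ⟨F, hF, fun i c => congrArg (Cod.dec i) (e i c)⟩

theorem K1_nat₂ {u : ℕ → ℕ → ℕ} (hu : Computable₂ u) {f g : ∀ i, Γ i → ℕ} (h : CF f) (h' : CF g) :
    CF fun i x => u (f i x) (g i x) := by
  obtain ⟨F, hF, e⟩ := h
  obtain ⟨G, hG, e'⟩ := h'
  exact ⟨fun x => u (F x) (G x), hu.comp hF hG, fun i c => congrArg₂ u (e i c) (e' i c)⟩

theorem Sig.re {α : Type} [Primcodable α] {p : α → Prop} (h : Sig p) : REPred p := by
  obtain ⟨q, hq, e⟩ := h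
  refine (Partrec.rfind (p := fun a n => (q (a, n) : Part Bool)) hq.partrec).dom_re.of_eq
    fun a => ?_
  rw [e, Nat.rfind_dom]
  simp

theorem Sig.comp {α β : Type} [Primcodable α] [Primcodable β] {p : β → Prop} (h : Sig p)
    {f : α → β} (hf : Computable f) : Sig fun a => p (f a) := by
  obtain ⟨q, hq, e⟩ := h
  exact ⟨fun x => q (f x.1, x.2), hq.comp ((hf.comp Computable.fst).pair Computable.snd),
    fun a => e (f a)⟩

theorem CF.id : CF fun i (x : Γ i) => x := by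
  exact ⟨Prod.snd, Computable.snd, fun _ _ => rfl⟩

theorem CF.comp {g : ∀ i, S i → T i} {f : ∀ i, Γ i → S i} (hg : CF g) (hf : CF f) :
    CF fun i x => g i (f i x) := by
  obtain ⟨F, hF, e⟩ := hf
  obtain ⟨G, hG, e'⟩ := hg
  exact ⟨fun x => G (x.1, F x), hG.comp (Computable.fst.pair hF), fun i c => by rw [e', e]⟩

theorem CF.of_eq {f g : ∀ i, Γ i → T i} (h : CF f) (e : ∀ i x, f i x = g i x) : CF g := by
  obtain ⟨F, hF, e'⟩ := h
  exact ⟨F, hF, fun i c => by rw [e', e]⟩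

theorem CF.fst {f : ∀ i, Γ i → S i × T i} (h : CF f) : CF fun i x => (f i x).1 := by
  obtain ⟨F, hF, e⟩ := h
  exact ⟨fun x => (F x).unpair.1, K1_un1 hF, fun i c => congrArg Prod.fst (e i c)⟩

theorem CF.snd {f : ∀ i, Γ i → S i × T i} (h : CF f) : CF fun i x => (f i x).2 := by
  obtain ⟨F, hF, e⟩ := h
  exact ⟨fun x => (F x).unpair.2, K1_un2 hF, fun i c => congrArg Prod.snd (e i c)⟩

theorem CF.pair {f : ∀ i, Γ i → S i} {g : ∀ i, Γ i → T i} (h : CF f) (h' : CF g) :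
    CF fun i x => (f i x, g i x) := by
  obtain ⟨F, hF, e⟩ := h
  obtain ⟨G, hG, e'⟩ := h'
  exact ⟨fun x => Nat.pair (F x) (G x), K1_pair hF hG, fun i c => by rw [K1_dec_pair, e, e']⟩

theorem CF.unit : CF fun i (_ : Γ i) => () := by
  exact ⟨fun _ => 0, Computable.const 0, fun _ _ => rfl⟩

theorem CF.const {c : ∀ i, T i} (h : CF fun i (_ : Unit) => c i) : CF fun i (_ : Γ i) => c i := by
  exact h.comp CF.unit

theorem CF.nat (n : ℕ) : CF fun i (_ : Γ i) => n := by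
  exact ⟨fun _ => n, Computable.const n, fun _ _ => rfl⟩

theorem CF.idx (r : ι → ℕ) [CIdx r] : CF fun i (_ : Γ i) => r i := by
  exact ⟨fun x => r x.1, CIdx.comp.comp Computable.fst, fun _ _ => rfl⟩

theorem CF.bool (b : Bool) : CF fun i (_ : Γ i) => b := by
  exact ⟨fun _ => b.toNat, Computable.const _, fun _ _ => by
    change Nat.bodd b.toNat = b
    cases b <;> simp⟩

theorem CF.nat₁ {u : ℕ → ℕ} (hu : Computable u) {f : ∀ i, Γ i → ℕ} (h : CF f) :
    CF fun i x => u (f i x) := by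
  obtain ⟨F, hF, e⟩ := h
  exact ⟨fun x => u (F x), hu.comp hF, fun i c => congrArg u (e i c)⟩

theorem CF.add {f g : ∀ i, Γ i → ℕ} (h : CF f) (h' : CF g) : CF fun i x => f i x + g i x := by
  exact K1_nat₂ Primrec.nat_add.to_comp h h'

theorem CF.not {f : ∀ i, Γ i → Bool} (h : CF f) : CF fun i x => !f i x := by
  obtain ⟨F, hF, e⟩ := h
  exact ⟨fun x => (F x).succ, Computable.succ.comp hF, fun i c =>
    (Nat.bodd_succ _).trans (congrArg (!·) (e i c))⟩

theorem CF.ite {f g : ∀ i, Γ i → T i} [∀ i x, Decidable (p i x)] (c : DC p) (h : CF f) (h' : CF g) :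
    CF fun i x => if p i x then f i x else g i x := by
  obtain ⟨F, hF, e⟩ := h
  obtain ⟨G, hG, e'⟩ := h'
  obtain ⟨Q, hQ, e''⟩ := c
  refine ⟨fun x => cond (Q x) (F x) (G x), hQ.cond hF hG, fun i c => ?_⟩
  by_cases hp : p i (Cod.dec i c)
  · simp only [(e'' i c).1 hp, cond_true, if_pos hp, e]
  · have : Q (i, c) = false := by simpa [e''] using hp
    simp only [this, cond_false, if_neg hp, e']

theorem CF.decide [∀ i x, Decidable (p i x)] (c : DC p) : CF fun i x => decide (p i x) := by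
  exact (CF.ite c (CF.bool true) (CF.bool false)).of_eq fun i x => by
    by_cases hp : p i x <;> simp [hp]

theorem CF.none : CF fun i (_ : Γ i) => (none : Option (T i)) := by
  exact ⟨fun _ => 0, Computable.const 0, fun _ _ => rfl⟩

theorem CF.some {f : ∀ i, Γ i → T i} (h : CF f) : CF fun i x => some (f i x) := by
  obtain ⟨F, hF, e⟩ := h
  exact ⟨fun x => (F x).succ, Computable.succ.comp hF, fun i c => congrArg Option.some (e i c)⟩

theorem CF.elim {o : ∀ i, Γ i → Option (S i)} {f : ∀ i, Γ i → T i} {g : ∀ i, Γ i → S i → T i}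
    (ho : CF o) (h : CF f) (h' : CF fun i (x : Γ i × S i) => g i x.1 x.2) :
    CF fun i x => (o i x).elim (f i x) (g i x) := by
  obtain ⟨O, hO, e0⟩ := ho
  obtain ⟨F, hF, e⟩ := h
  obtain ⟨G, hG, e'⟩ := h'
  refine ⟨fun x => Nat.casesOn (motive := fun _ => ℕ) (O x) (F x) fun m => G (x.1, Nat.pair x.2 m),
    Computable.nat_casesOn hO hF (hG.comp ((Computable.fst.comp Computable.fst).pair
      (K1_pair (Computable.snd.comp Computable.fst) Computable.snd))).to₂, fun i c => ?_⟩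
  beta_reduce
  rw [← e0]
  cases O (i, c) with
  | zero => exact e i c
  | succ m => exact (e' i _).trans (by rw [K1_dec_pair]; rfl)

theorem CF.nil : CF fun i (_ : Γ i) => ([] : List (T i)) := by
  exact K1_of_list (fun _ => []) (Computable.const _) fun _ _ => rfl

theorem CF.cons {f : ∀ i, Γ i → T i} {l : ∀ i, Γ i → List (T i)} (h : CF f) (h' : CF l) :
    CF fun i x => f i x :: l i x := by
  obtain ⟨F, hF, e⟩ := h
  obtain ⟨L, hL, e'⟩ := K1_list h'
  exact K1_of_list (fun x => F x :: L x) (Computable.list_cons.comp hF hL) fun i c => by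
    rw [List.map_cons, e, e']

theorem CF.foldr {l : ∀ i, Γ i → List (S i)} {b : ∀ i, Γ i → T i}
    {f : ∀ i, Γ i → S i → T i → T i} (hl : CF l) (hb : CF b)
    (hf : CF fun i (x : Γ i × S i × T i) => f i x.1 x.2.1 x.2.2) :
    CF fun i x => (l i x).foldr (f i x) (b i x) := by
  obtain ⟨L, hL, e0⟩ := K1_list hl
  obtain ⟨B, hB, e⟩ := hb
  obtain ⟨F, hF, e'⟩ := hf
  refine ⟨fun x => (L x).foldr (fun a s => F (x.1, Nat.pair x.2 (Nat.pair a s))) (B x),
    K1_foldr hL hB (hF.comp ((Computable.fst.comp Computable.fst).pair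
      (K1_pair (Computable.snd.comp Computable.fst) (K1_pair (Computable.fst.comp Computable.snd)
        (Computable.snd.comp Computable.snd))))), fun i c => ?_⟩
  beta_reduce
  rw [← e0]
  induction L (i, c) with
  | nil => exact e i c
  | cons a m ih => rw [List.foldr_cons, e', K1_dec_pair, K1_dec_pair, ih]; rfl

theorem CF.listCases {l : ∀ i, Γ i → List (S i)} {b : ∀ i, Γ i → T i}
    {f : ∀ i, Γ i → S i → List (S i) → T i} (hl : CF l) (hb : CF b)
    (hf : CF fun i (x : Γ i × S i × List (S i)) => f i x.1 x.2.1 x.2.2) :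
    CF fun i x => (List.casesOn (l i x) (b i x) (f i x) : T i) := by
  refine (CF.snd (CF.foldr (T := fun i => List (S i) × T i)
    (f := fun i x a s => (a :: s.1, f i x a s.1)) hl (CF.nil.pair hb)
    ((CF.cons CF.id.snd.fst CF.id.snd.snd.fst).pair
      (hf.comp (CF.id.fst.pair (CF.id.snd.fst.pair CF.id.snd.snd.fst)))))).of_eq fun i x => ?_
  have : ∀ m : List (S i), (m.foldr (fun a (s : List (S i) × T i) => (a :: s.1, f i x a s.1))
      ([], b i x)).1 = m := by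
    intro m
    induction m with
    | nil => rfl
    | cons a m ih => rw [List.foldr_cons, ih]
  cases l i x with
  | nil => rfl
  | cons a m => rw [List.foldr_cons, this]

theorem CF.map {l : ∀ i, Γ i → List (S i)} {f : ∀ i, Γ i → S i → T i} (hl : CF l)
    (hf : CF fun i (x : Γ i × S i) => f i x.1 x.2) : CF fun i x => (l i x).map (f i x) := by
  refine (CF.foldr (f := fun i x a s => f i x a :: s) hl CF.nil
    (CF.cons (hf.comp (CF.id.fst.pair CF.id.snd.fst)) CF.id.snd.snd)).of_eq fun i x => ?_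
  induction l i x with
  | nil => rfl
  | cons a m ih => rw [List.foldr_cons, ih, List.map_cons]

theorem CF.append {l m : ∀ i, Γ i → List (T i)} (h : CF l) (h' : CF m) :
    CF fun i x => l i x ++ m i x := by
  obtain ⟨L, hL, e⟩ := K1_list h
  obtain ⟨M, hM, e'⟩ := K1_list h'
  exact K1_of_list (fun x => L x ++ M x) (Computable.list_append.comp hL hM) fun i c => by
    rw [List.map_append, e, e']

theorem CF.flatMap {l : ∀ i, Γ i → List (S i)} {f : ∀ i, Γ i → S i → List (T i)} (hl : CF l)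
    (hf : CF fun i (x : Γ i × S i) => f i x.1 x.2) : CF fun i x => (l i x).flatMap (f i x) := by
  refine (CF.foldr (f := fun i x a s => f i x a ++ s) hl CF.nil
    (CF.append (hf.comp (CF.id.fst.pair CF.id.snd.fst)) CF.id.snd.snd)).of_eq fun i x => ?_
  induction l i x with
  | nil => rfl
  | cons a m ih => rw [List.foldr_cons, ih, List.flatMap_cons]

theorem K1_bool {f : ∀ i, Γ i → Bool} (h : CF f) : DC fun i x => f i x = true := by
  obtain ⟨F, hF, e⟩ := h
  exact ⟨fun x => (F x).bodd, Computable.nat_bodd.comp hF, fun i c => by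
    beta_reduce
    rw [← e]
    rfl⟩

theorem CF.filter {l : ∀ i, Γ i → List (S i)} {f : ∀ i, Γ i → S i → Bool} (hl : CF l)
    (hf : CF fun i (x : Γ i × S i) => f i x.1 x.2) : CF fun i x => (l i x).filter (f i x) := by
  refine (CF.foldr (f := fun i x a s => if f i x a = true then a :: s else s) hl CF.nil
    (CF.ite (K1_bool (hf.comp (CF.id.fst.pair CF.id.snd.fst)))
      (CF.cons CF.id.snd.fst CF.id.snd.snd) CF.id.snd.snd)).of_eq fun i x => ?_
  induction l i x with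
  | nil => rfl
  | cons a m ih => rw [List.foldr_cons, ih, List.filter_cons]

theorem CF.length {l : ∀ i, Γ i → List (T i)} (h : CF l) : CF fun i x => (l i x).length := by
  obtain ⟨L, hL, e⟩ := K1_list h
  exact ⟨fun x => (L x).length, Computable.list_length.comp hL, fun i c => by
    beta_reduce
    rw [← e, List.length_map]
    rfl⟩

theorem CF.reverse {l : ∀ i, Γ i → List (T i)} (h : CF l) : CF fun i x => (l i x).reverse := by
  obtain ⟨L, hL, e⟩ := K1_list h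
  exact K1_of_list (fun x => (L x).reverse) (Computable.list_reverse.comp hL) fun i c => by
    rw [List.map_reverse, e]

theorem CF.sum {l : ∀ i, Γ i → List ℕ} (h : CF l) : CF fun i x => (l i x).sum := by
  exact (CF.foldr (f := fun i x a s => a + s) h (CF.nat 0)
    (CF.add CF.id.snd.fst CF.id.snd.snd)).of_eq fun i x => rfl

theorem CF.range {f : ∀ i, Γ i → ℕ} (h : CF f) : CF fun i x => List.range (f i x) := by
  obtain ⟨F, hF, e⟩ := h
  exact K1_of_list (fun x => List.range (F x)) (Primrec.list_range.to_comp.comp hF) fun i c =>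
    (List.map_id' _).trans (congrArg List.range (e i c))

theorem CF.take {l : ∀ i, Γ i → List (T i)} {f : ∀ i, Γ i → ℕ} (h : CF f) (h' : CF l) :
    CF fun i x => (l i x).take (f i x) := by
  obtain ⟨F, hF, e⟩ := h
  obtain ⟨L, hL, e'⟩ := K1_list h'
  exact K1_of_list (fun x => (L x).take (F x)) (Primrec.list_take.to_comp.comp hF hL) fun i c => by
    rw [List.map_take, e', ← e]
    rfl

theorem CF.drop {l : ∀ i, Γ i → List (T i)} {f : ∀ i, Γ i → ℕ} (h : CF f) (h' : CF l) :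
    CF fun i x => (l i x).drop (f i x) := by
  obtain ⟨F, hF, e⟩ := h
  obtain ⟨L, hL, e'⟩ := K1_list h'
  exact K1_of_list (fun x => (L x).drop (F x)) (Primrec.list_drop.to_comp.comp hF hL) fun i c => by
    rw [List.map_drop, e', ← e]
    rfl

theorem CF.get {l : ∀ i, Γ i → List (T i)} {f : ∀ i, Γ i → ℕ} (h : CF l) (h' : CF f) :
    CF fun i x => (l i x)[f i x]? := by
  obtain ⟨F, hF, e⟩ := h'
  obtain ⟨L, hL, e'⟩ := K1_list h
  refine ⟨fun x => Option.casesOn (motive := fun _ => ℕ) (L x)[F x]? 0 Nat.succ,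
    Computable.option_casesOn (Computable.list_getElem?.comp hL hF) (Computable.const 0)
      (Computable.succ.comp Computable.snd).to₂, fun i c => ?_⟩
  have e2 : F (i, c) = f i (Cod.dec i c) := e i c
  beta_reduce
  rw [← e', List.getElem?_map, ← e2]
  cases (L (i, c))[F (i, c)]? <;> rfl

theorem DC.of_iff (h : DC p) (e : ∀ i x, p i x ↔ q i x) : DC q := by
  obtain ⟨Q, hQ, e'⟩ := h
  exact ⟨Q, hQ, fun i c => (e _ _).symm.trans (e' i c)⟩

theorem DC.comp {p : ∀ i, S i → Prop} {f : ∀ i, Γ i → S i} (h : DC p) (hf : CF f) :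
    DC fun i x => p i (f i x) := by
  obtain ⟨Q, hQ, e'⟩ := h
  obtain ⟨F, hF, e⟩ := hf
  exact ⟨fun x => Q (x.1, F x), hQ.comp (Computable.fst.pair hF), fun i c => by
    beta_reduce
    rw [← e, e']⟩

theorem DC.bool {f : ∀ i, Γ i → Bool} (h : CF f) : DC fun i x => f i x = true := by
  exact K1_bool h

theorem DC.not (h : DC p) : DC fun i x => ¬ p i x := by
  obtain ⟨Q, hQ, e⟩ := h
  exact ⟨fun x => !Q x, Primrec.not.to_comp.comp hQ, fun i c => by simp [e]⟩

theorem DC.and (h : DC p) (h' : DC q) : DC fun i x => p i x ∧ q i x := by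
  obtain ⟨Q, hQ, e⟩ := h
  obtain ⟨Q', hQ', e'⟩ := h'
  exact ⟨fun x => Q x && Q' x, K1_and hQ hQ', fun i c => by simp [e, e']⟩

theorem DC.or (h : DC p) (h' : DC q) : DC fun i x => p i x ∨ q i x := by
  obtain ⟨Q, hQ, e⟩ := h
  obtain ⟨Q', hQ', e'⟩ := h'
  exact ⟨fun x => Q x || Q' x, K1_or hQ hQ', fun i c => by simp [e, e']⟩

theorem DC.imp (h : DC p) (h' : DC q) : DC fun i x => p i x → q i x := by
  exact (h.not.or h').of_iff fun i x => imp_iff_not_or.symm

theorem DC.le {f g : ∀ i, Γ i → ℕ} (h : CF f) (h' : CF g) : DC fun i x => f i x ≤ g i x := by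
  obtain ⟨F, hF, e⟩ := h
  obtain ⟨G, hG, e'⟩ := h'
  refine ⟨fun x => decide (F x ≤ G x), Primrec.nat_le.decide.to_comp.comp hF hG, fun i c => ?_⟩
  beta_reduce
  rw [← e, ← e', decide_eq_true_iff]
  rfl

theorem DC.lt {f g : ∀ i, Γ i → ℕ} (h : CF f) (h' : CF g) : DC fun i x => f i x < g i x := by
  exact (DC.le h' h).not.of_iff fun i x => not_le

theorem DC.eq [Deq T] {f g : ∀ i, Γ i → T i} (h : CF f) (h' : CF g) : DC fun i x => f i x = g i x := by
  exact Deq.eq.comp (h.pair h')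

theorem DC.ne [Deq T] {f g : ∀ i, Γ i → T i} (h : CF f) (h' : CF g) : DC fun i x => f i x ≠ g i x := by
  exact (DC.eq h h').not

theorem DC.ball {l : ∀ i, Γ i → List (T i)} {p : ∀ i, Γ i → T i → Prop} (hl : CF l)
    (h : DC fun i (x : Γ i × T i) => p i x.1 x.2) : DC fun i x => ∀ t ∈ l i x, p i x t := by
  obtain ⟨L, hL, e⟩ := K1_list hl
  obtain ⟨Q, hQ, e'⟩ := h
  refine ⟨fun x => (L x).all fun m => Q (x.1, Nat.pair x.2 m), K1_all hL (hQ.comp
    ((Computable.fst.comp Computable.fst).pair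
      (K1_pair (Computable.snd.comp Computable.fst) Computable.snd))), fun i c => ?_⟩
  beta_reduce
  rw [← e, List.forall_mem_map, List.all_eq_true]
  refine forall₂_congr fun m _ => ?_
  rw [← e', K1_dec_pair]

theorem DC.bex {l : ∀ i, Γ i → List (T i)} {p : ∀ i, Γ i → T i → Prop} (hl : CF l)
    (h : DC fun i (x : Γ i × T i) => p i x.1 x.2) : DC fun i x => ∃ t ∈ l i x, p i x t := by
  exact (DC.ball (p := fun i x t => ¬ p i x t) hl h.not).not.of_iff fun i x => by simp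

theorem DC.mem [Deq T] {f : ∀ i, Γ i → T i} {l : ∀ i, Γ i → List (T i)} (h : CF f) (hl : CF l) :
    DC fun i x => f i x ∈ l i x := by
  exact (DC.bex (p := fun i x t => f i x = t) hl (DC.eq (h.comp CF.id.fst) CF.id.snd)).of_iff
    fun i x => by simp

theorem DC.re (h : DC p) : RE p := by
  obtain ⟨Q, hQ, e⟩ := h
  exact ⟨fun x => Q x.1, hQ.comp Computable.fst, fun a => by simp [e]⟩

theorem RE.of_iff (h : RE p) (e : ∀ i x, p i x ↔ q i x) : RE q := by
  obtain ⟨Q, hQ, e'⟩ := h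
  exact ⟨Q, hQ, fun a => (e _ _).symm.trans (e' a)⟩

theorem RE.comp {p : ∀ i, S i → Prop} {f : ∀ i, Γ i → S i} (h : RE p) (hf : CF f) :
    RE fun i x => p i (f i x) := by
  obtain ⟨F, hF, e⟩ := hf
  obtain ⟨Q, hQ, e'⟩ := Sig.comp h (Computable.fst.pair hF)
  exact ⟨Q, hQ, fun a => by
    rw [← e' a]
    beta_reduce
    rw [← e]⟩

theorem RE.and (h : RE p) (h' : RE q) : RE fun i x => p i x ∧ q i x := by
  obtain ⟨Q, hQ, e⟩ := h
  obtain ⟨Q', hQ', e'⟩ := h'
  refine ⟨fun x => Q (x.1, x.2.unpair.1) && Q' (x.1, x.2.unpair.2),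
    K1_and (hQ.comp (Computable.fst.pair (K1_un1 Computable.snd)))
      (hQ'.comp (Computable.fst.pair (K1_un2 Computable.snd))), fun a => ?_⟩
  refine (and_congr (e a) (e' a)).trans ⟨fun ⟨⟨m, hm⟩, n, hn⟩ => ⟨Nat.pair m n, by simp [hm, hn]⟩,
    fun ⟨n, hn⟩ => ?_⟩
  rw [Bool.and_eq_true] at hn
  exact ⟨⟨_, hn.1⟩, _, hn.2⟩

theorem RE.or (h : RE p) (h' : RE q) : RE fun i x => p i x ∨ q i x := by
  obtain ⟨Q, hQ, e⟩ := h
  obtain ⟨Q', hQ', e'⟩ := h'
  refine ⟨fun x => Q x || Q' x, K1_or hQ hQ', fun a => (or_congr (e a) (e' a)).trans ?_⟩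
  simp [exists_or]

theorem RE.imp (h : DC p) (h' : RE q) : RE fun i x => p i x → q i x := by
  exact (h.not.re.or h').of_iff fun i x => imp_iff_not_or.symm

theorem RE.ex {p : ∀ i, Γ i → T i → Prop} (h : RE fun i (x : Γ i × T i) => p i x.1 x.2) :
    RE fun i x => ∃ t, p i x t := by
  obtain ⟨Q, hQ, e⟩ := h
  refine ⟨fun x => Q ((x.1.1, Nat.pair x.1.2 x.2.unpair.1), x.2.unpair.2), hQ.comp
    (((Computable.fst.comp Computable.fst).pair (K1_pair (Computable.snd.comp Computable.fst)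
      (K1_un1 Computable.snd))).pair (K1_un2 Computable.snd)), fun a => ?_⟩
  have e2 : ∀ m, p a.1 (Cod.dec a.1 a.2) (Cod.dec a.1 m) ↔ ∃ n, Q ((a.1, Nat.pair a.2 m), n) = true :=
    fun m => by
      rw [← e]
      beta_reduce
      rw [K1_dec_pair]
  constructor
  · rintro ⟨t, ht⟩
    obtain ⟨m, rfl⟩ := Cod.surj a.1 t
    obtain ⟨n, hn⟩ := (e2 m).1 ht
    exact ⟨Nat.pair m n, by simpa using hn⟩
  · rintro ⟨n, hn⟩
    exact ⟨_, (e2 _).2 ⟨_, hn⟩⟩

theorem K1_coll (l : List ℕ) (P : ℕ → ℕ → Prop) :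
    (∀ m ∈ l, ∃ n, P m n) ↔ ∃ N, ∀ m ∈ l, ∃ n ∈ List.range N, P m n := by
  refine ⟨fun h => ?_, fun ⟨N, h⟩ m hm => (h m hm).imp fun _ hn => hn.2⟩
  choose! f hf using h
  exact ⟨(l.map f).sum + 1, fun m hm => ⟨f m, List.mem_range.2 (Nat.lt_succ_of_le
    (List.le_sum_of_mem (List.mem_map_of_mem hm))), hf m hm⟩⟩

theorem RE.ball {l : ∀ i, Γ i → List (T i)} {p : ∀ i, Γ i → T i → Prop} (hl : CF l)
    (h : RE fun i (x : Γ i × T i) => p i x.1 x.2) : RE fun i x => ∀ t ∈ l i x, p i x t := by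
  obtain ⟨L, hL, e⟩ := K1_list hl
  obtain ⟨Q, hQ, e'⟩ := h
  have c1 : Computable fun y : (((ι × ℕ) × ℕ) × ℕ) × ℕ => y.1.1.1 :=
    Computable.fst.comp (Computable.fst.comp Computable.fst)
  refine ⟨fun x => (L x.1).all fun m => (List.range x.2).any fun n =>
    Q ((x.1.1, Nat.pair x.1.2 m), n), K1_all (hL.comp Computable.fst)
      (K1_any (Primrec.list_range.to_comp.comp (Computable.snd.comp Computable.fst))
        (hQ.comp (((Computable.fst.comp c1).pair (K1_pair (Computable.snd.comp c1)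
          (Computable.snd.comp Computable.fst))).pair Computable.snd))), fun a => ?_⟩
  simp only [List.all_eq_true, List.any_eq_true]
  rw [← K1_coll, ← e, List.forall_mem_map]
  refine forall₂_congr fun m _ => ?_
  rw [← e']
  beta_reduce
  rw [K1_dec_pair]

theorem RE.split {l : ∀ i, Γ i → List (T i)} {p : ∀ i, Γ i → List (T i) → T i → List (T i) → Prop}
    (hl : CF l) (h : RE fun i (x : Γ i × List (T i) × T i × List (T i)) =>
      p i x.1 x.2.1 x.2.2.1 x.2.2.2) :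
    RE fun i x => ∀ l₁ a l₂, l i x = l₁ ++ a :: l₂ → p i x l₁ a l₂ := by
  have h1 : CF fun i x => (List.range (l i x).length).flatMap fun j =>
      ((l i x)[j]?).elim [] fun a => [((l i x).take j, a, (l i x).drop (j + 1))] := by
    have h2 : CF fun i (y : (Γ i × ℕ) × T i) => l i y.1.1 := hl.comp CF.id.fst.fst
    exact CF.flatMap hl.length.range (CF.elim (CF.get (hl.comp CF.id.fst) CF.id.snd) CF.nil
      (CF.cons ((CF.take CF.id.fst.snd h2).pair (CF.id.snd.pair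
        (CF.drop (CF.add CF.id.fst.snd (CF.nat 1)) h2))) CF.nil))
  refine (RE.ball (p := fun i x (t : List (T i) × T i × List (T i)) => p i x t.1 t.2.1 t.2.2)
    h1 h).of_iff fun i x => ⟨fun H l₁ a l₂ e => H (l₁, a, l₂) ?_, fun H t ht => ?_⟩
  · rw [e]
    exact List.mem_flatMap.2 ⟨l₁.length, by simp, by simp⟩
  · obtain ⟨j, hj, ht⟩ := List.mem_flatMap.1 ht
    have hj' := List.mem_range.1 hj
    rw [List.getElem?_eq_getElem hj'] at ht
    obtain rfl := List.mem_singleton.1 ht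
    exact H _ _ _ (by simp)

/-- reindexing -/
instance codRe (T : ι → Type) [Cod T] : Cod fun j : ι × ℕ => T j.1 :=
  ⟨fun j => Cod.dec j.1, fun j => Cod.surj j.1⟩

theorem RE.exIdx {p : ∀ i, Γ i → ℕ → Prop}
    (h : RE (Γ := fun j : ι × ℕ => Γ j.1) fun j x => p j.1 x j.2) : RE fun i x => ∃ n, p i x n := by
  obtain ⟨Q, hQ, e⟩ := h
  refine ⟨fun x => Q (((x.1.1, x.2.unpair.1), x.1.2), x.2.unpair.2), hQ.comp
    ((((Computable.fst.comp Computable.fst).pair (K1_un1 Computable.snd)).pair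
      (Computable.snd.comp Computable.fst)).pair (K1_un2 Computable.snd)), fun a => ?_⟩
  constructor
  · rintro ⟨m, hm⟩
    obtain ⟨n, hn⟩ := (e ((a.1, m), a.2)).1 hm
    exact ⟨Nat.pair m n, by simpa using hn⟩
  · rintro ⟨n, hn⟩
    exact ⟨n.unpair.1, (e ((a.1, n.unpair.1), a.2)).2 ⟨_, hn⟩⟩

theorem CF.re {f : ∀ i, Γ i → T i} (h : CF f) :
    CF (Γ := fun j : ι × ℕ => Γ j.1) (T := fun j : ι × ℕ => T j.1) fun j x => f j.1 x := by
  obtain ⟨F, hF, e⟩ := h
  exact ⟨fun x => F (x.1.1, x.2), hF.comp ((Computable.fst.comp Computable.fst).pair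
    Computable.snd), fun j c => e j.1 c⟩

theorem deq_nat : Deq fun _ : ι => ℕ := by
  exact ⟨((DC.le CF.id.fst CF.id.snd).and (DC.le CF.id.snd CF.id.fst)).of_iff fun _ _ =>
    le_antisymm_iff.symm⟩

theorem deq_bool : Deq fun _ : ι => Bool := by
  exact ⟨(((DC.bool CF.id.fst).imp (DC.bool CF.id.snd)).and
    ((DC.bool CF.id.snd).imp (DC.bool CF.id.fst))).of_iff fun _ x => by
      rcases x with ⟨_ | _, _ | _⟩ <;> simp⟩

theorem deq_prod [Deq S] [Deq T] : Deq fun i => S i × T i := by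
  exact ⟨((DC.eq CF.id.fst.fst CF.id.snd.fst).and (DC.eq CF.id.fst.snd CF.id.snd.snd)).of_iff
    fun _ _ => Prod.ext_iff.symm⟩

theorem K1_option [Deq T] : Deq fun i => Option (T i) := by
  classical
  refine ⟨(DC.bool (CF.elim (g := fun i x a => x.2.elim false fun b => decide (a = b)) CF.id.fst
    (CF.elim (g := fun _ _ _ => false) CF.id.snd (CF.bool true) (CF.bool false))
    (CF.elim (g := fun i x b => decide (x.2 = b)) CF.id.fst.snd (CF.bool false)
      (CF.decide (DC.eq CF.id.fst.snd CF.id.snd))))).of_iff fun _ x => ?_⟩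
  rcases x with ⟨_ | _, _ | _⟩ <;> simp

theorem deq_list [Deq T] : Deq fun i => List (T i) := by
  have := K1_option (T := T)
  have := deq_nat (ι := ι)
  refine ⟨((DC.eq CF.id.fst.length CF.id.snd.length).and
    (DC.ball (p := fun i x j => x.1[j]? = x.2[j]?) CF.id.fst.length.range
      (DC.eq (CF.get CF.id.fst.fst CF.id.snd) (CF.get CF.id.fst.snd CF.id.snd)))).of_iff
    fun _ x => ⟨fun h => List.ext_getElem?' fun j hj => h.2 j ?_, fun h => by simp [h]⟩⟩
  rw [← h.1, max_self] at hj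
  exact List.mem_range.2 hj

theorem deq_option [Deq T] : Deq fun i => Option (T i) := by
  exact K1_option

attribute [instance] deq_nat deq_bool deq_prod deq_list deq_option

theorem K1_val (r : ι → ℕ) [CIdx r] {f : ∀ i, Γ i → Fin (r i + 1)} (h : CF f) :
    CF fun i x => (f i x).1 := by
  obtain ⟨F, hF, e⟩ := h
  exact ⟨fun x => F x % (r x.1 + 1), Primrec.nat_mod.to_comp.comp hF
    (Computable.succ.comp (CIdx.comp.comp Computable.fst)), fun i c => congrArg Fin.val (e i c)⟩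

theorem alph_fin (r : ι → ℕ) [CIdx r] : Alph fun i => Fin (r i + 1) := by
  exact { eq := (DC.eq (K1_val r CF.id.fst) (K1_val r CF.id.snd)).of_iff fun _ _ => Fin.ext_iff.symm
          all := ⟨fun i => (List.range (r i + 1)).map (Cod.dec (T := fun i => Fin (r i + 1)) i), fun i x => List.mem_map.2
            ⟨x.1, List.mem_range.2 x.2, Fin.ext (Nat.mod_eq_of_lt x.2)⟩,
            CF.map (f := fun i _ n => Cod.dec (T := fun i => Fin (r i + 1)) i n)
              (CF.add (CF.idx r) (CF.nat 1)).range (K1_dec CF.id.snd)⟩ }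

theorem alph_option [Alph T] : Alph fun i => Option (T i) := by
  obtain ⟨l, h1, h2⟩ := Alph.all (A := T)
  exact { eq := Deq.eq
          all := ⟨fun i => none :: (l i).map some, fun i x => by cases x <;> simp [h1],
            CF.cons CF.none (CF.map h2 CF.id.snd.some)⟩ }

theorem alph_bool : Alph fun _ : ι => Bool := by
  exact { eq := Deq.eq
          all := ⟨fun _ => [true, false], fun i x => by cases x <;> simp,
            CF.cons (CF.bool true) (CF.cons (CF.bool false) CF.nil)⟩ }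

theorem alph_prod [Alph S] [Alph T] : Alph fun i => S i × T i := by
  obtain ⟨l, h1, h2⟩ := Alph.all (A := S)
  obtain ⟨m, h3, h4⟩ := Alph.all (A := T)
  exact { eq := Deq.eq
          all := ⟨fun i => (l i).flatMap fun a => (m i).map fun b => (a, b),
            fun i x => List.mem_flatMap.2 ⟨x.1, h1 _ _, List.mem_map.2 ⟨x.2, h3 _ _, rfl⟩⟩,
            CF.flatMap h2 (CF.map h4.const (CF.id.fst.snd.pair CF.id.snd))⟩ }

theorem alph_re [Alph T] : Alph fun j : ι × ℕ => T j.1 := by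
  obtain ⟨l, h1, F, hF, e⟩ := Alph.all (A := T)
  obtain ⟨Q, hQ, e'⟩ := Deq.eq (T := T)
  have c1 : Computable fun x : (ι × ℕ) × ℕ => (x.1.1, x.2) :=
    (Computable.fst.comp Computable.fst).pair Computable.snd
  exact { eq := ⟨fun x => Q (x.1.1, x.2), hQ.comp c1, fun j c => e' j.1 c⟩
          all := ⟨fun j => l j.1, fun j => h1 j.1, fun x => F (x.1.1, x.2), hF.comp c1,
            fun j c => e j.1 c⟩ }

attribute [instance] alph_fin alph_option alph_bool alph_prod alph_re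

theorem CF.finZero (r : ι → ℕ) : CF fun i (_ : Γ i) => (0 : Fin (r i + 1)) := by
  exact ⟨fun _ => 0, Computable.const 0, fun _ _ => Fin.ext (Nat.zero_mod _)⟩

theorem CF.inc (r r' : ι → ℕ) [CIdx r] [CIdx r'] {f : ∀ i, Γ i → Fin (r i + 1)} (h : CF f) :
    CF fun i x => inc (r i) (r' i) (f i x) := by
  exact K1_dec (T := fun i => Fin (r' i + 1)) (K1_val r h)

theorem DC.all [Alph T] {p : ∀ i, Γ i → T i → Prop}
    (h : DC fun i (x : Γ i × T i) => p i x.1 x.2) : DC fun i x => ∀ t, p i x t := by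
  obtain ⟨l, h1, h2⟩ := Alph.all (A := T)
  exact (DC.ball h2.const h).of_iff fun i x => by simp [h1]

theorem DC.exA [Alph T] {p : ∀ i, Γ i → T i → Prop}
    (h : DC fun i (x : Γ i × T i) => p i x.1 x.2) : DC fun i x => ∃ t, p i x t := by
  obtain ⟨l, h1, h2⟩ := Alph.all (A := T)
  exact (DC.bex h2.const h).of_iff fun i x => by simp [h1]

theorem RE.all [Alph T] {p : ∀ i, Γ i → T i → Prop}
    (h : RE fun i (x : Γ i × T i) => p i x.1 x.2) : RE fun i x => ∀ t, p i x t := by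
  obtain ⟨l, h1, h2⟩ := Alph.all (A := T)
  exact (RE.ball h2.const h).of_iff fun i x => by simp [h1]

open Classical in
theorem K1_lookup {α β : Type} (l : List (α × β)) (a : α) (d : β) :
    (l.lookup a).getD d = l.foldr (fun y s => if a = y.1 then y.2 else s) d := by
  induction l with
  | nil => rfl
  | cons y l ih =>
    obtain ⟨b, c⟩ := y
    by_cases e : a = b
    · simp [e]
    · simpa [List.lookup, beq_false_of_ne e, e] using ih

theorem CF.app [Alph S] {f : ∀ i, Γ i → S i → T i} {g : ∀ i, Γ i → S i} (h : CF f) (h' : CF g) :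
    CF fun i x => f i x (g i x) := by
  classical
  obtain ⟨F, hF, e⟩ := h
  have h1 : CF fun i (c : ℕ) => Cod.dec (T := fun i => List (S i × T i)) i (F (i, c)) :=
    ⟨F, hF, fun _ _ => rfl⟩
  have h2 : CF fun i (c : ℕ) => g i (Cod.dec i c) := h'
  obtain ⟨G, hG, e'⟩ := CF.foldr
    (f := fun i c y s => if g i (Cod.dec i c) = y.1 then y.2 else s) h1
    (K1_dec (T := T) (CF.nat 0))
    (CF.ite (DC.eq (h2.comp CF.id.fst) CF.id.snd.fst.fst) CF.id.snd.fst.snd CF.id.snd.snd)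
  refine ⟨G, hG, fun i c => (e' i c).trans ?_⟩
  beta_reduce
  rw [← e]
  exact (K1_lookup _ _ _).symm

theorem CF.lam [Alph S] {f : ∀ i, Γ i → S i → T i}
    (h : CF fun i (x : Γ i × S i) => f i x.1 x.2) : CF f := by
  obtain ⟨l, h1, h2⟩ := Alph.all (A := S)
  obtain ⟨M, hM, e⟩ := CF.map (f := fun i x a => (a, f i x a)) h2.const (CF.id.snd.pair h)
  refine ⟨M, hM, fun i c => funext fun a => ?_⟩
  refine (K1_lookup _ _ _).trans ?_
  rw [e]
  have := h1 i a
  beta_reduce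
  generalize l i = m at this ⊢
  induction m with
  | nil => simp at this
  | cons b m ih =>
    by_cases e : a = b
    · simp [e]
    · simpa [e] using ih (by simpa [e] using this)

theorem deq_fun [Alph S] [Deq T] : Deq fun i => S i → T i := by
  exact ⟨(DC.all (p := fun i (x : (S i → T i) × (S i → T i)) a => x.1 a = x.2 a)
    (DC.eq (CF.app CF.id.fst.fst CF.id.snd) (CF.app CF.id.fst.snd CF.id.snd))).of_iff
      fun _ _ => funext_iff.symm⟩

attribute [instance] deq_fun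

end Pool.Agent.Work.MP_3bdf32_al
end
end

-- merged part: Pool.Agent.Work.MP_3bdf32_al.TS1
section
-- merged part: Pool.Agent.Work.MP_3bdf32_al.Cay3
section
/-! Centralisers and axes in free groups. -/

namespace Pool.Agent.Work.MP_3bdf32_al

set_option linter.unusedSectionVars false
set_option linter.unusedVariables false

open Subgroup MulAction Filter
open scoped Pointwise

variable {X : Type} [DecidableEq X] {H Z Z' : Subgroup (FreeGroup X)} {a b g k : FreeGroup X}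

theorem root_uniq {n : ℕ} (hn : 0 < n) (e : a ^ n = b ^ n) : a = b := by
  exact pow_left_injective hn.ne' e

theorem zpow_eq_one {n : ℤ} (hn : n ≠ 0) (e : a ^ n = 1) : a = 1 := by
  exact zpow_left_injective hn (e.trans (one_zpow n).symm)

theorem comm_trans (h : g ≠ 1) (c : Commute a g) (d : Commute b g) : Commute a b := by
  obtain ⟨x, l, hx⟩ := ex_axis h
  by_cases ha : a = 1
  · rw [ha]; exact Commute.one_left b
  by_cases hb : b = 1
  · rw [hb]; exact Commute.one_right a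
  obtain ⟨m, -, hm⟩ := hx.comm c.symm ha
  obtain ⟨n, -, hn⟩ := hx.comm d.symm hb
  refine mul_right_cancel (b := x 0) ?_
  rw [mul_assoc, mul_assoc, hm, hn, hm, hn, add_right_comm]

theorem comm_of_pow {n : ℕ} (hn : 0 < n) (c : Commute (a ^ n) b) : Commute a b := by
  have : b * a * b⁻¹ = a := root_uniq hn (by rw [conj_pow, ← c.eq, mul_inv_cancel_right])
  exact (mul_inv_eq_iff_eq_mul.1 this).symm

theorem not_conj_inv (h : g ≠ 1) : k * g * k⁻¹ ≠ g⁻¹ := by
  intro e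
  have h1 : Commute (k ^ 2) g := by
    have h2 : k * g⁻¹ * k⁻¹ = g := by rw [← conj_inv, e, inv_inv]
    rw [← e] at h2
    change k ^ 2 * g = g * k ^ 2
    calc k ^ 2 * g = k * (k * g * k⁻¹) * k⁻¹ * k ^ 2 := by rw [pow_two]; group
      _ = _ := by rw [h2]
  rw [(comm_of_pow two_pos h1).eq, mul_inv_cancel_right] at e
  refine h (root_uniq two_pos ?_)
  rw [one_pow, pow_two]
  exact mul_eq_one_iff_eq_inv.2 e

theorem ax_cen (h : g ≠ 1) : Ax (cen g) := by
  exact ⟨g, h, rfl⟩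

theorem self_mem_cen (g : FreeGroup X) : g ∈ cen g := by
  exact mem_cen.2 (Commute.refl g)

theorem cen_inv (g : FreeGroup X) : cen g⁻¹ = cen g := by
  ext x
  rw [mem_cen, mem_cen, Commute.inv_right_iff]

theorem tl_cen (k g : FreeGroup X) : tl H k • cen g = cen (k * g * k⁻¹) := by
  rw [cen_smul, lin_tl, MulAut.conj_apply]

theorem Cay3_cen {z : FreeGroup X} (h : g ≠ 1) (c : Commute z g) (hz : z ≠ 1) :
    cen z = cen g := by
  ext x
  rw [mem_cen, mem_cen]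
  exact ⟨fun d => comm_trans hz d c.symm, fun d => comm_trans h d c⟩

theorem Cay3_gen {z z' : FreeGroup X} (h : z ≠ 1) (e : zpowers z = zpowers z') :
    z' = z ∨ z' = z⁻¹ := by
  obtain ⟨n, hn⟩ : z' ∈ zpowers z := e ▸ mem_zpowers z'
  obtain ⟨m, hm⟩ : z ∈ zpowers z' := e ▸ mem_zpowers z
  have hn' : z ^ n = z' := hn
  have hm' : z' ^ m = z := hm
  have h1 : n * m = 1 := by
    by_contra h0
    refine h (zpow_eq_one (sub_ne_zero.2 h0) ?_)
    rw [zpow_sub_one, zpow_mul, hn', hm', mul_inv_cancel]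
  rcases Int.eq_one_or_neg_one_of_mul_eq_one h1 with rfl | rfl
  · exact .inl (by rw [← hn', zpow_one])
  · exact .inr (by rw [← hn', zpow_neg_one])

theorem Cay3_ends {z : FreeGroup X} (e : a ∈ zpowers z) (ha : a ≠ 1) :
    (∀ A, Ev A a ↔ Ev A z) ∧ (∀ A, Ev A a⁻¹ ↔ Ev A z⁻¹) ∨
      (∀ A, Ev A a ↔ Ev A z⁻¹) ∧ ∀ A, Ev A a⁻¹ ↔ Ev A z := by
  obtain ⟨n, rfl⟩ := e
  have key : ∀ (A : Set (FreeGroup X)) (u : FreeGroup X) (m : ℕ), 0 < m →
      (Ev A (u ^ m) ↔ Ev A u) := fun A u m hm => ⟨Ev.of_pow hm, fun h => h.pow hm⟩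
  obtain ⟨m, rfl | rfl⟩ := Int.eq_nat_or_neg n
  · have hm : 0 < m := Nat.pos_of_ne_zero fun h => ha (by simp [h])
    refine .inl ⟨fun A => ?_, fun A => ?_⟩
    · simpa only [zpow_natCast] using key A z m hm
    · simpa only [zpow_natCast, inv_pow] using key A z⁻¹ m hm
  · have hm : 0 < m := Nat.pos_of_ne_zero fun h => ha (by simp [h])
    refine .inr ⟨fun A => ?_, fun A => ?_⟩
    · simpa only [zpow_neg, zpow_natCast, inv_pow] using key A z⁻¹ m hm
    · simpa only [zpow_neg, zpow_natCast, inv_inv] using key A z m hm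

theorem Cay3_push {x : ℤ → FreeGroup X} {l : ℤ} {d : FreeGroup X} (h : AxL g x l)
    (c : ¬ Commute g d) (i : ℤ) : ∃ n : ℕ, Ev (hl x i) (g ^ n * d * (g ^ n)⁻¹) := by
  obtain ⟨p, hp⟩ := h.pos c
  obtain ⟨n, hn⟩ : ∃ n : ℕ, i - p < n := ⟨(i - p).toNat + 1, by omega⟩
  have h1 : i - n * l < p := by
    have := h.2.1
    nlinarith [Int.natCast_nonneg n]
  have h2 := ((hp.ev h.1 _).1.2 h1).smul' (g ^ (n : ℤ))
  rw [h.hl_zpow, sub_add_cancel, zpow_natCast] at h2
  exact ⟨n, h2⟩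

theorem Ax.gen (h : Ax Z) : ∃ z, z ≠ 1 ∧ zpowers z = Z ∧ cen z = Z := by
  obtain ⟨g, hg, rfl⟩ := h
  obtain ⟨x, l, hx⟩ := ex_axis hg
  obtain ⟨m, ⟨hm, z, hz, e⟩, hmin⟩ := Int.exists_least_of_bdd
    (P := fun m => 0 < m ∧ ∃ z, Commute z g ∧ ∀ i, z * x i = x (i + m))
    ⟨0, fun m h => h.1.le⟩ ⟨l, hx.2.1, g, Commute.refl g, hx.2.2⟩
  have hz' : AxL z x m := ⟨hx.1, hm, e⟩
  refine ⟨z, hz'.ne, le_antisymm (zpowers_le.2 (mem_cen.2 hz)) fun c hc => ?_,
    Cay3_cen hg hz hz'.ne⟩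
  by_cases h1 : c = 1
  · rw [h1]; exact one_mem _
  have hc' := mem_cen.1 hc
  obtain ⟨n, -, hn⟩ := hx.comm hc'.symm h1
  have h2 : ∀ i, z ^ (-(n / m)) * c * x i = x (i + n % m) := fun i => by
    rw [mul_assoc, hn, hz'.zpow, Int.emod_def]
    congr 1
    ring
  have h3 : n % m = 0 := by
    by_contra h0
    have h4 := hmin _ ⟨lt_of_le_of_ne (Int.emod_nonneg n hm.ne') (Ne.symm h0), _,
      (hz.zpow_left _).mul_left hc', h2⟩
    exact h4.not_gt (Int.emod_lt_of_pos n hm)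
  have h4 := h2 0
  rw [h3, add_zero, mul_eq_right, zpow_neg, inv_mul_eq_one] at h4
  exact ⟨_, h4⟩

theorem Ax.eq_cen (h : Ax Z) (e : g ∈ Z) (f : g ≠ 1) : cen g = Z := by
  obtain ⟨z, hz, rfl⟩ := h
  exact Cay3_cen hz (mem_cen.1 e) f

theorem Ax.inter (h : Ax Z) (h' : Ax Z') (e : g ∈ Z) (e' : g ∈ Z') (f : g ≠ 1) : Z = Z' := by
  exact (h.eq_cen e f).symm.trans (h'.eq_cen e' f)

theorem Ax.comm (h : Ax Z) (e : a ∈ Z) (f : b ∈ Z) : Commute a b := by
  obtain ⟨z, hz, rfl⟩ := h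
  exact comm_trans hz (mem_cen.1 e) (mem_cen.1 f)

theorem Ax.root (h : Ax Z) {n : ℕ} (hn : 0 < n) (e : g ^ n ∈ Z) : g ∈ Z := by
  obtain ⟨z, hz, rfl⟩ := h
  exact mem_cen.2 (comm_of_pow hn (mem_cen.1 e))

theorem Ax.norm (h : Ax Z) : tl H k • Z = Z ↔ k ∈ Z := by
  obtain ⟨z, hz, h1, h2⟩ := h.gen
  constructor
  · intro e
    have h3 : zpowers z = zpowers (k * z * k⁻¹) := by
      ext x
      rw [h1, ← e, mem_tl_sub, ← h1]
      constructor
      · rintro ⟨n, hn⟩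
        refine ⟨n, ?_⟩
        have hn' : z ^ n = k⁻¹ * x * k := hn
        change (k * z * k⁻¹) ^ n = x
        rw [conj_zpow, hn']
        group
      · rintro ⟨n, rfl⟩
        refine ⟨n, ?_⟩
        change z ^ n = k⁻¹ * (k * z * k⁻¹) ^ n * k
        rw [conj_zpow]
        group
    rw [← h2, mem_cen]
    exact mul_inv_eq_iff_eq_mul.1 ((Cay3_gen hz h3).resolve_right (not_conj_inv hz))
  · intro e
    rw [← h2] at e ⊢
    rw [tl_cen, (mem_cen.1 e).eq, mul_inv_cancel_right]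

/-- nontrivial elements of an axis have the same ends as a fixed one -/
theorem Ax.ends (h : Ax Z) (e : a ∈ Z) (f : b ∈ Z) (ha : a ≠ 1) (hb : b ≠ 1) :
    (∀ A, Ev A a ↔ Ev A b) ∧ (∀ A, Ev A a⁻¹ ↔ Ev A b⁻¹) ∨
      (∀ A, Ev A a ↔ Ev A b⁻¹) ∧ ∀ A, Ev A a⁻¹ ↔ Ev A b := by
  obtain ⟨z, -, rfl, -⟩ := h.gen
  rcases Cay3_ends e ha with ⟨p, q⟩ | ⟨p, q⟩ <;> rcases Cay3_ends f hb with ⟨r, s⟩ | ⟨r, s⟩
  · exact .inl ⟨fun A => (p A).trans (r A).symm, fun A => (q A).trans (s A).symm⟩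
  · exact .inr ⟨fun A => (p A).trans (s A).symm, fun A => (q A).trans (r A).symm⟩
  · exact .inr ⟨fun A => (p A).trans (s A).symm, fun A => (q A).trans (r A).symm⟩
  · exact .inl ⟨fun A => (p A).trans (r A).symm, fun A => (q A).trans (s A).symm⟩

theorem gen_eq {z z' : FreeGroup X} (h : z ≠ 1) (e : zpowers z = zpowers z') : z' = z ∨ z' = z⁻¹ := by
  exact Cay3_gen h e

theorem NA.cen (h : NA H) (e : ∀ x ∈ H, Commute g x) : g = 1 := by
  obtain ⟨a, ha, b, hb, n⟩ := h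
  by_contra hg
  exact n (comm_trans hg (e a ha).symm (e b hb).symm)

theorem NA.ex (h : NA H) (e : g ≠ 1) : ∃ x ∈ H, ¬ Commute x g := by
  by_contra! c
  exact e (h.cen fun x hx => (c x hx).symm)

/-- two homomorphisms agreeing on a power agree -/
theorem root_conj (φ : MulAut (FreeGroup X)) {n : ℕ} (hn : 0 < n)
    (e : φ (g ^ n) = k * g ^ n * k⁻¹) : φ g = k * g * k⁻¹ := by
  exact root_uniq hn (by rw [← map_pow, e, conj_pow])

theorem fix_root (φ : MulAut (FreeGroup X)) {n : ℕ} (hn : 0 < n) (e : φ (g ^ n) = g ^ n) : φ g = g := by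
  exact root_uniq hn (by rw [← map_pow, e])

theorem conj_fin [Fintype X] (r : ℤ) : ∃ S : Finset (FreeGroup X),
    ∀ g a l, AxL g a l → l ≤ r → ∃ k, ∃ s ∈ S, g = k * s * k⁻¹ := by
  refine ⟨(ball_fin 1 r).toFinset, fun g a l h hl => ⟨a 0, (a 0)⁻¹ * g * a 0, ?_, by group⟩⟩
  rw [Set.Finite.mem_toFinset, Set.mem_ofPred_eq, ← one_mul ((a 0)⁻¹ * g * a 0), cd_mul, h.norm]
  exact hl

/-- a half tree containing infinitely many points of an orbit contains an end -/
theorem ev_of_inf [Fintype X] {U : Set (FreeGroup X)} (hU : HT U) {Λ : Subgroup (FreeGroup X)}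
    (h : {g | g ∈ Λ ∧ g * k ∈ U}.Infinite) : ∃ g ∈ Λ, g ≠ 1 ∧ Ev U g := by
  obtain ⟨c, hc, hc1⟩ := h.exists_notMem_finite (Set.finite_singleton 1)
  have hc1 : c ≠ 1 := hc1
  obtain ⟨a, l, ha⟩ := ex_axis hc1
  obtain ⟨x, y, hxy, e⟩ := id hU
  obtain ⟨g, hg, hf⟩ := h.exists_notMem_finite
    ((ball_fin x (cd k (a 0))).preimage (mul_left_injective k).injOn)
  have h1 : g * a 0 ∈ U := by
    rw [e]
    refine hs_deep hxy (e ▸ hg.2) ?_
    rw [cd_smul, cd_comm _ x]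
    exact not_le.1 hf
  have h2 := mul_mem (mul_mem hg.1 hc.1) (inv_mem hg.1)
  rcases (ha.conj g).ev_of_mem hU (i := 0) h1 with h3 | h3
  · exact ⟨_, h2, (ha.conj g).ne, h3⟩
  · exact ⟨_, inv_mem h2, inv_ne_one.2 (ha.conj g).ne, h3⟩

/-- the ends of a non commutative group are not isolated -/
theorem ev_avoid [Fintype X] {B : Set (FreeGroup X)} (hB : Clo B) {Γ : Subgroup (FreeGroup X)}
    (hΓ : NA Γ) (e : g ∈ Γ) (f : g ≠ 1) (i : Ev B g) (hk : k ≠ 1) :
    ∃ g' ∈ Γ, ¬ Commute g' k ∧ Ev B g' := by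
  by_cases hc : Commute g k
  swap
  · exact ⟨g, e, hc, i⟩
  obtain ⟨c, hcΓ, hcg⟩ := hΓ.ex f
  obtain ⟨a, l, ha⟩ := ex_axis f
  have hd : ¬ Commute g (c * g * c⁻¹) := fun h => by
    refine hcg (mem_cen.1 (((ax_cen f).norm (H := ⊤)).1 ?_))
    rw [tl_cen]
    exact Cay3_cen f h.symm (ha.conj c).ne
  obtain ⟨j, hj⟩ := hB.hl_sub ha i
  obtain ⟨n, hn⟩ := Cay3_push ha hd j
  refine ⟨_, mul_mem (mul_mem (pow_mem e n) (mul_mem (mul_mem hcΓ e) (inv_mem hcΓ)))
    (inv_mem (pow_mem e n)), fun h => hd ?_, hn.mono hj⟩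
  have h1 := comm_trans hk hc h
  have h2 := ((Commute.refl g).pow_right n).inv_right.mul_right
    (h1.mul_right ((Commute.refl g).pow_right n))
  rwa [inv_mul_cancel_right, inv_mul_cancel_left] at h2

/-- a clopen set splitting the ends of `Γ` has a different trace than its translates -/
theorem trace_free [Fintype X] {B : Set (FreeGroup X)} (hB : Clo B) {Γ : Subgroup (FreeGroup X)}
    (hΓ : NA Γ) (s : Spl Γ B Set.univ) (hk : k ∈ Γ)
    (e : ∀ g ∈ Γ, g ≠ 1 → (Ev B g ↔ Ev (k • B) g)) : k = 1 := by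
  by_contra hk1
  obtain ⟨g, hg, g', hg', n, n', p, p'⟩ := s
  rw [Set.univ_inter] at p p'
  obtain ⟨ξ, hξ, cξ, eξ⟩ := ev_avoid hB hΓ hg n p hk1
  obtain ⟨η, hη, cη, eη⟩ := ev_avoid hB.compl hΓ hg' n' p' hk1
  have step : ∀ x ∈ Γ, x ≠ 1 → (Ev B x ↔ Ev B (k⁻¹ * x * k⁻¹⁻¹)) := fun x hx h1 => by
    rw [e x hx h1, ← ev_smul_iff' k⁻¹, inv_smul_smul]
  have iter : ∀ x ∈ Γ, x ≠ 1 → ∀ m : ℕ, (Ev B x ↔ Ev B (k⁻¹ ^ m * x * (k⁻¹ ^ m)⁻¹)) := by
    intro x hx h1 m
    induction m with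
    | zero => simp
    | succ m ih =>
      have hm := pow_mem (inv_mem hk) m
      rw [ih, step _ (mul_mem (mul_mem hm hx) (inv_mem hm)) (by rwa [Ne, conj_eq_one_iff]), pow_succ']
      congr! 1
      group
  have n1 : ξ ≠ 1 := fun h => cξ (h ▸ Commute.one_left k)
  have n2 : η ≠ 1 := fun h => cη (h ▸ Commute.one_left k)
  obtain ⟨a, l, ha⟩ := ex_axis (inv_ne_one.2 hk1)
  rcases hB.ev (inv_ne_one.2 hk1) with h | h
  · obtain ⟨j, hj⟩ := hB.hl_sub ha h
    obtain ⟨m, hm⟩ := Cay3_push ha (fun c => cη (Commute.inv_left_iff.1 c).symm) j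
    exact ((iter η hη n2 m).2 (hm.mono hj)).not_compl eη
  · obtain ⟨j, hj⟩ := hB.compl.hl_sub ha h
    obtain ⟨m, hm⟩ := Cay3_push ha (fun c => cξ (Commute.inv_left_iff.1 c).symm) j
    exact ((iter ξ hξ n1 m).1 eξ).not_compl (hm.mono hj)

end Pool.Agent.Work.MP_3bdf32_al
end

-- merged part: Pool.Agent.Work.MP_3bdf32_al.Cut1
section
/-! Cuts along one axis. -/

namespace Pool.Agent.Work.MP_3bdf32_al

set_option linter.unusedSectionVars false
set_option linter.unusedVariables false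

open Subgroup MulAction Filter
open scoped Pointwise

variable {X : Type} [Fintype X] [DecidableEq X] {W : List (FreeGroup X)}
  {Z Z' Y : Subgroup (FreeGroup X)} {A A' B C C' U : Set (FreeGroup X)} {g x y : FreeGroup X}

theorem cut1_gen {H : Subgroup (FreeGroup X)} {E E' : Set (FreeGroup X)} {z : FreeGroup X}
    (hA : Cut H (zpowers z) A) (a : Ev E z) (b : Ev E' z⁻¹) (s : FreeGroup X) :
    {x | x ∈ db A s ∧ x ∉ E ∧ x ∉ E'}.Finite := by
  obtain ⟨F, hF⟩ := hA.2 s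
  have k : ∀ {E : Set (FreeGroup X)} {z : FreeGroup X}, Ev E z → ∀ e,
      ((fun n : ℕ => z ^ n * e) '' {n | z ^ n * e ∉ E}).Finite := fun {E z} a e => by
    have := a e
    rw [← Nat.cofinite_eq_atTop] at this
    exact Set.Finite.image _ this
  refine (F.finite_toSet.biUnion fun e _ => (k a e).union (k b e)).subset ?_
  rintro x ⟨h1, h2, h3⟩
  obtain ⟨_, ⟨n, rfl⟩, e, he, rfl⟩ := hF x h1
  refine Set.mem_biUnion he ?_
  obtain ⟨m, rfl | rfl⟩ := n.eq_nat_or_neg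
  · exact .inl ⟨m, by simpa using h2, by simp⟩
  · exact .inr ⟨m, by simpa using h3, by simp⟩

theorem cut1_fin {H : Subgroup (FreeGroup X)} {E E' : Set (FreeGroup X)} (hZ : Ax Z)
    (hA : Cut H Z A) (e : g ∈ Z) (f : g ≠ 1) (a : Ev E g) (b : Ev E' g⁻¹) (s : FreeGroup X) :
    {x | x ∈ db A s ∧ ¬ (x ∈ E ∧ x * s ∈ E) ∧ ¬ (x ∈ E' ∧ x * s ∈ E')}.Finite := by
  have k : ∀ {E : Set (FreeGroup X)} {g : FreeGroup X}, Ev E g →
      Ev {x | x ∈ E ∧ x * s ∈ E} g := fun {E g} a x =>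
    ((a x).and (a (x * s))).mono fun n h => ⟨h.1, by rw [mul_assoc]; exact h.2⟩
  obtain ⟨z, z1, z2, -⟩ := hZ.gen
  have hz : z ∈ Z := z2 ▸ mem_zpowers z
  rw [← z2] at hA
  rcases hZ.ends e hz f z1 with ⟨h1, h2⟩ | ⟨h1, h2⟩
  · exact cut1_gen hA ((h1 _).1 (k a)) ((h2 _).1 (k b)) s
  · exact (cut1_gen hA ((h2 _).1 (k b)) ((h1 _).1 (k a)) s).subset fun x h => ⟨h.1, h.2.2, h.2.1⟩

theorem cut1_mono (hb : Bx W) (hA : Sat (cl W) A) (hU : HT U) (h : Clo (A ∩ U)) : Mono U A := by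
  by_contra c
  obtain ⟨c1, c2⟩ := not_or.1 c
  obtain ⟨x, x1, x2⟩ := Set.not_subset.1 c1
  obtain ⟨y, y1, y2⟩ := Set.not_subset.1 c2
  obtain ⟨u, ⟨u1, u2⟩, v, ⟨v1, v2⟩, t⟩ := hb.bond U hU _ h ⟨y, y1, not_not.1 y2, y1⟩
    ⟨x, x1, fun d => x2 d.1⟩
  exact v2 ⟨(sat_iff.1 hA u v t).1 u2.1, v1⟩

theorem cut1_of_sub {H : Subgroup (FreeGroup X)} (hA : Cut H Z A) (hB : Sat H B)
    (h : ∀ s, ∃ F : Set (FreeGroup X), F.Finite ∧ db B s ⊆ db A s ∪ F) : Cut H Z B := by
  refine ⟨hB, fun s => ?_⟩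
  obtain ⟨E, hE⟩ := hA.2 s
  obtain ⟨F, hF, e⟩ := h s
  refine ⟨E ∪ hF.toFinset, fun x hx => ?_⟩
  rcases e hx with c | c
  · obtain ⟨z, z1, u, u1, u2⟩ := hE x c
    exact ⟨z, z1, u, Finset.mem_union_left _ u1, u2⟩
  · exact ⟨1, Z.one_mem, x, Finset.mem_union_right _ (hF.mem_toFinset.2 c), (one_mul x).symm⟩

theorem ev_fin {H : Subgroup (FreeGroup X)} {E E' : Set (FreeGroup X)} (hZ : Ax Z) (hA : Cut H Z A)
    (e : g ∈ Z) (f : g ≠ 1) (a : Ev E g) (b : Ev E' g⁻¹) (s : FreeGroup X) :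
    {x | x ∈ db A s ∧ (x ∉ E ∪ E' ∨ x * s ∉ E ∪ E')}.Finite := by
  refine (cut1_fin hZ hA e f a b s).subset ?_
  rintro x ⟨h1, h2⟩
  simp only [Set.mem_union, not_or] at h2
  exact ⟨h1, by tauto, by tauto⟩

/-- a cut along a finite index subgroup, and conversely -/
theorem cut_zpowers {H : Subgroup (FreeGroup X)} (f : g ≠ 1) :
    Cut H (zpowers g) A ↔ Cut H (cen g) A := by
  refine ⟨fun h => h.le (zpowers_le.2 (self_mem_cen g)), fun h => ⟨h.1, fun s => ?_⟩⟩
  obtain ⟨z, -, z2, -⟩ := (ax_cen f).gen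
  obtain ⟨E, hE⟩ := h.2 s
  have hg := self_mem_cen g
  rw [← z2] at hg hE
  obtain ⟨m, hm⟩ := hg
  simp only at hm
  have m0 : m ≠ 0 := by
    rintro rfl
    exact f (by simpa using hm.symm)
  refine ⟨(Finset.Ico 0 |m| ×ˢ E).image fun p => z ^ p.1 * p.2, fun x hx => ?_⟩
  obtain ⟨_, ⟨n, rfl⟩, e, he, rfl⟩ := hE x hx
  refine ⟨g ^ (n / m), zpow_mem_zpowers g _, z ^ (n % m) * e,
    Finset.mem_image.2 ⟨(n % m, e), Finset.mem_product.2 ⟨Finset.mem_Ico.2
      ⟨Int.emod_nonneg n m0, Int.emod_lt_abs n m0⟩, he⟩, rfl⟩, ?_⟩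
  rw [← hm, ← mul_assoc, ← zpow_mul, ← zpow_add, Int.mul_ediv_add_emod]

theorem cut_mono (hb : Bx W) (hZ : Ax Z) (hA : Cut (cl W) Z A) (hU : HT U) (e : g ∈ Z) (f : g ≠ 1)
    (a : Ev Uᶜ g) (b : Ev Uᶜ g⁻¹) : Mono U A := by
  refine cut1_mono hb hA.1 hU fun s => ((hU.clo s).union (cut1_fin hZ hA e f a b s)).subset ?_
  intro x hx
  simp only [db, Set.mem_ofPred_eq, Set.mem_inter_iff, Set.mem_union, Set.mem_compl_iff] at hx ⊢
  tauto

theorem cut1_sep (hb : Bx W) (hZ : Ax Z) (hA : Cut (cl W) Z A) (e : g ∉ Z) :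
    ∃ U, HT U ∧ Ev U g ∧ Mono U A := by
  obtain ⟨z, z1, -, z3⟩ := hZ.gen
  have c : ¬ Commute z g := fun c => e (z3 ▸ mem_cen.2 c.symm)
  obtain ⟨U, hU, a, b, d⟩ := sep_ends c
  exact ⟨U, hU, a, cut_mono hb hZ hA hU (z3 ▸ self_mem_cen z) z1 b d⟩

theorem cut_ev (hb : Bx W) (hZ : Ax Z) (hA : Cut (cl W) Z A) (e : g ∉ Z) : Ev A g ∨ Ev Aᶜ g := by
  obtain ⟨U, -, a, b⟩ := cut1_sep hb hZ hA e
  exact b.imp a.mono a.mono

theorem cut_hl_sub (hb : Bx W) (hZ : Ax Z) (hA : Cut (cl W) Z A) (e : g ∉ Z)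
    {a : ℤ → FreeGroup X} {l : ℤ} (h : AxL g a l) (f : Ev A g) : ∃ i, hl a i ⊆ A := by
  obtain ⟨U, hU, c, b | b⟩ := cut1_sep hb hZ hA e
  · exact (hU.clo.hl_sub h c).imp fun i d => d.trans b
  · exact (f.not_compl (c.mono b)).elim

theorem one_sided (hb : Bx W) (hZ : Ax Z) (hA : Cut (cl W) Z A) (e : g ∈ Z) (f : g ≠ 1)
    (a : Ev A g) : A = Set.univ := by
  obtain ⟨c, l, h⟩ := ex_axis f
  refine Set.eq_univ_of_forall fun x => ?_
  have hU := h.1.ht (pr c x - 1)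
  have m : Mono (hl c (pr c x - 1)) A := by
    refine cut1_mono hb hA.1 hU fun s =>
      ((hU.clo s).union (cut1_fin hZ hA e f a (h.ev_inv (pr c x - 1)) s)).subset ?_
    intro y hy
    simp only [db, Set.mem_ofPred_eq, Set.mem_inter_iff, Set.mem_union, Set.mem_compl_iff] at hy ⊢
    tauto
  rcases m with m | m
  · exact m (h.1.mem_hl.2 (by omega))
  · exact (a.not_compl ((h.ev _).mono m)).elim

theorem cut_diff {H : Subgroup (FreeGroup X)} (hZ : Ax Z) (hA : Cut H Z A) (hA' : Cut H Z' A')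
    (e : g ∈ Z) (f : g ≠ 1) (a : Ev A' g) (b : Ev A' g⁻¹) : Cut H Z' (A \ A') := by
  refine cut1_of_sub hA' (hA.1.inter hA'.1.compl) fun s => ⟨_, cut1_fin hZ hA e f a b s, ?_⟩
  intro x hx
  simp only [db, Set.mem_ofPred_eq, Set.mem_sdiff, Set.mem_union] at hx ⊢
  tauto

theorem cut_lv (hb : Bx W) (hZ : Ax Z) (hA : Cut (cl W) Z A) (n : A.Nonempty) (hU : HT U)
    (e : g ∈ Z) (f : g ≠ 1) (a : Ev U g) (b : Ev Uᶜ g⁻¹) : ∃ t ∈ lv W U, t.1 ∈ A := by
  by_contra c
  have k : ∀ x y, Sg W x y → x ∈ A ∩ U → y ∈ A ∩ U := fun x y t h =>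
    ⟨(sat_iff.1 hA.1 x y t).1 h.1, by_contra fun d => c ⟨(x, y), ⟨t, h.2, d⟩, h.1⟩⟩
  have hC : Cut (cl W) Z (A ∩ U) :=
    cut1_of_sub hA (sat_iff.2 fun x y t => ⟨k x y t, k y x t.symm⟩) fun s =>
      ⟨_, hU.clo s, db_inter A U s⟩
  have h1 := one_sided hb hZ hC.compl (Z.inv_mem e) (inv_ne_one.2 f)
    (b.mono fun x hx d => hx d.2)
  have h2 := one_sided hb hZ hA.compl e f (a.mono fun x hx d => by
    have : x ∈ (A ∩ U)ᶜ := h1 ▸ Set.mem_univ x
    exact this ⟨d, hx⟩)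
  obtain ⟨x, hx⟩ := n
  have : x ∈ Aᶜ := h2 ▸ Set.mem_univ x
  exact this hx

theorem cut_fin (hb : Bx W) (hZ : Ax Z) : {A | Cut (cl W) Z A}.Finite := by
  obtain ⟨z, z1, -, z3⟩ := hZ.gen
  have hz : z ∈ Z := z3 ▸ self_mem_cen z
  obtain ⟨a, l, h⟩ := ex_axis z1
  have hU := h.1.ht 0
  have k : ∀ A A', Cut (cl W) Z A → Cut (cl W) Z A' →
      {t | t ∈ lv W (hl a 0) ∧ t.1 ∈ A} = {t | t ∈ lv W (hl a 0) ∧ t.1 ∈ A'} → A ⊆ A' := by
    intro A A' hA hA' e x hx
    by_contra c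
    obtain ⟨t, t1, t2, t3⟩ := cut_lv hb hZ (hA.inter hA'.compl) ⟨x, hx, c⟩ hU hz z1 (h.ev 0)
      (h.ev_inv 0)
    exact t3 ((Set.ext_iff.1 e t).1 ⟨t1, t2⟩).2
  refine Set.Finite.of_finite_image (f := fun A => {t | t ∈ lv W (hl a 0) ∧ t.1 ∈ A})
    ((lv_fin W hU.clo).finite_subsets.subset ?_)
    fun A hA A' hA' e => (k A A' hA hA' e).antisymm (k A' A hA' hA e.symm)
  rintro _ ⟨A, -, rfl⟩
  exact fun t ht => ht.1

theorem IsAt.cut (hb : Bx W) (hZ : Ax Z) (h : IsAt (cl W) Z C) : Cut (cl W) Z C := by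
  obtain ⟨x, rfl⟩ := h
  have k : ∀ S : Set (Set (FreeGroup X)), S.Finite → (∀ A ∈ S, Cut (cl W) Z A) →
      Cut (cl W) Z {y | ∀ A ∈ S, (x ∈ A ↔ y ∈ A)} := by
    intro S hS
    induction S, hS using Set.Finite.induction_on with
    | empty => intro _; simpa using cut_univ
    | @insert A S _ _ ih =>
      intro h
      have h1 := h A (Set.mem_insert _ _)
      have h2 := ih fun B hB => h B (Set.mem_insert_of_mem _ hB)
      by_cases c : x ∈ A
      · convert h1.inter h2 using 1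
        ext y
        simp [c]
      · convert h1.compl.inter h2 using 1
        ext y
        simp [c]
  exact k _ (cut_fin hb hZ) fun A hA => hA

theorem atoms_fin (hb : Bx W) (hZ : Ax Z) : {C | IsAt (cl W) Z C}.Finite := by
  exact (cut_fin hb hZ).subset fun C hC => IsAt.cut hb hZ hC

theorem cut_pow (hb : Bx W) (hZ : Ax Z) (e : g ∈ Z) :
    ∃ m : ℕ, 0 < m ∧ ∀ A, Cut (cl W) Z A → g ^ m • A = A := by
  have := (cut_fin hb hZ).to_subtype
  have k : ∀ (n : ℕ) (A : Set (FreeGroup X)), Cut (cl W) Z A → Cut (cl W) Z (g ^ n • A) := by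
    intro n A hA
    have := hA.smul' (g ^ n)
    rwa [hZ.norm.2 (Z.pow_mem e n)] at this
  let F : ℕ → {A | Cut (cl W) Z A} → {A | Cut (cl W) Z A} := fun n A => ⟨_, k n A.1 A.2⟩
  have k2 : ∀ n n', n < n' → F n = F n' →
      ∃ m : ℕ, 0 < m ∧ ∀ A, Cut (cl W) Z A → g ^ m • A = A := by
    intro n n' h d
    obtain ⟨m, rfl⟩ := Nat.exists_eq_add_of_le h.le
    refine ⟨m, by omega, fun A hA => ?_⟩
    have : g ^ n • A = g ^ (n + m) • A := congrArg Subtype.val (congrFun d ⟨A, hA⟩)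
    rw [pow_add, mul_smul] at this
    exact (smul_left_cancel _ this).symm
  obtain ⟨n, n', h, d⟩ := Finite.exists_ne_map_eq_of_infinite F
  rcases lt_or_gt_of_ne h with c | c
  exacts [k2 n n' c d, k2 n' n c d.symm]

theorem cut_two_axes (hb : Bx W) (hZ : Ax Z) (hZ' : Ax Z') (e : Z ≠ Z') (hA : Cut (cl W) Z A)
    (hA' : Cut (cl W) Z' A) : A = ∅ ∨ A = Set.univ := by
  obtain ⟨z, z1, -, z3⟩ := hZ'.gen
  have hz : z ∈ Z' := z3 ▸ self_mem_cen z
  rcases cut_ev hb hZ hA (g := z) fun c => e (hZ.inter hZ' c hz z1) with a | a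
  · exact .inr (one_sided hb hZ' hA' hz z1 a)
  · exact .inl (Set.compl_univ_iff.1 (one_sided hb hZ' hA'.compl hz z1 a))

/-- the stabiliser of a nontrivial cut, up to complement, lies in the axis -/
theorem cut_stab (hb : Bx W) (hZ : Ax Z) (hA : Cut (cl W) Z A) (n : A.Nonempty) (n' : Aᶜ.Nonempty)
    (e : g • A = A ∨ g • A = Aᶜ) : g ∈ Z := by
  have h := hA.smul' g
  have h' : Cut (cl W) (tl (cl W) g • Z) A := by
    rcases e with e | e
    · rwa [e] at h
    · rw [e] at h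
      simpa using h.compl
  refine (hZ.norm (H := cl W)).1 (by_contra fun c => ?_)
  rcases cut_two_axes hb (hZ.smul _) hZ c h' hA with rfl | rfl
  · simp at n
  · simp at n'

/-- every nonempty cut accumulates at both ends of its axis -/
theorem cut_meets (hb : Bx W) (hZ : Ax Z) (hA : Cut (cl W) Z A) (n : A.Nonempty) (e : g ∈ Z)
    (a : Ev B g) : (A ∩ B).Nonempty := by
  obtain ⟨m, m0, h⟩ := cut_pow hb hZ e
  obtain ⟨x, hx⟩ := n
  obtain ⟨k, hk⟩ := (a.pow m0).ex x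
  exact ⟨_, pow_mem_of_sub (h A hA).le hx k, hk⟩

theorem sep_meets (hb : Bx W) (hZ : Ax Z) (h : ¬ Eqv (cl W) Z x y) (e : g ∈ Z)
    {a : ℤ → FreeGroup X} {l : ℤ} (ha : AxL g a l) : ∃ i, cd x (a i) + cd (a i) y = cd x y := by
  by_cases c : ∃ j, x = a j
  · obtain ⟨j, rfl⟩ := c
    exact ⟨j, by rw [cd_self, zero_add]⟩
  obtain ⟨v, v1, v2, v3⟩ := ha.1.ex_hang (y := x) fun j d => c ⟨j, d⟩
  by_cases d : y ∈ hs (a (pr a x)) v
  · have hU : HT (hs (a (pr a x)) v) := ⟨_, _, v1, rfl⟩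
    obtain ⟨e1, e2⟩ := ha.ev_of_hang hU v3
    exact (h fun A hA => (cut_mono hb hZ hA hU e ha.ne e1 e2).iff v2 d).elim
  · have h1 := hs_cross v1 d v2
    have h2 := hs_cross v1 (left_notMem_hs _ _) v2
    rw [cd_self] at h2
    refine ⟨pr a x, ?_⟩
    rw [cd_comm x y, cd_comm x, cd_comm _ y]
    omega

theorem orb_lf (hb : Bx W) (hZ : Ax Z) (x y : FreeGroup X) :
    {Z' | Z' ∈ orb (cl W) Z ∧ ¬ Eqv (cl W) Z' x y}.Finite := by
  obtain ⟨z, z1, -, z3⟩ := hZ.gen
  have hz : z ∈ Z := z3 ▸ self_mem_cen z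
  obtain ⟨a, l, h⟩ := ex_axis z1
  refine (((ball_fin x (cd x y)).prod (Set.finite_Ico 0 l)).image
    fun p => tl (cl W) (p.1 * (a p.2)⁻¹) • Z).subset ?_
  rintro _ ⟨⟨k, rfl⟩, c⟩
  obtain ⟨i, hi⟩ := sep_meets hb (hZ.smul _) c (g := k * z * k⁻¹)
    (mem_tl_sub.2 (by simpa [mul_assoc] using hz)) (h.conj k)
  have l0 := h.2.1
  refine ⟨(k * a i, i % l), ⟨?_, Int.emod_nonneg i l0.ne', Int.emod_lt_of_pos i l0⟩, ?_⟩
  · have := cd_nonneg (k * a i) y
    show cd x (k * a i) ≤ cd x y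
    omega
  · have h1 := h.zpow (i / l) (i % l)
    rw [mul_comm _ l, Int.emod_add_mul_ediv] at h1
    show tl (cl W) (k * a i * (a (i % l))⁻¹) • Z = _
    rw [← h1, mul_assoc, mul_inv_cancel_right, map_mul, mul_smul, hZ.norm.2 (Z.zpow_mem hz _)]

theorem crs_of_sub (hb : Bx W) (hZ : Ax Z) (hA : Cut (cl W) Z A) (n : A.Nonempty)
    (n' : Aᶜ.Nonempty) (e : g ∉ Z) (s : g • A ⊆ A) : Ev A g ∧ Ev Aᶜ g⁻¹ := by
  constructor
  · exact (cut_ev hb hZ hA e).resolve_right fun a => n.ne_empty (a.empty_of_sub s)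
  · refine (cut_ev hb hZ hA fun c => e (by simpa using c)).resolve_left fun a => n'.ne_empty ?_
    refine Ev.empty_of_sub (g := g⁻¹) (by rwa [compl_compl]) fun x hx c => ?_
    rw [mem_smul', inv_inv] at hx
    exact hx (s (mul_mem_smul.2 c))

/-- two cuts separating the ends of `g` in the same way are comparable after translation -/
theorem arch (hb : Bx W) (hZ : Ax Z) (hZ' : Ax Z') (hA : Cut (cl W) Z A) (hA' : Cut (cl W) Z' A')
    (e : g ∉ Z) (e' : g ∉ Z') (a : Ev A g) (b : Ev A'ᶜ g⁻¹) : ∃ n : ℕ, g ^ n • A' ⊆ A := by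
  obtain ⟨c, l, h⟩ := ex_axis (g := g) fun d => e (d ▸ Z.one_mem)
  obtain ⟨i, hi⟩ := cut_hl_sub hb hZ hA e h a
  obtain ⟨j, hj⟩ := cut_hl_sub hb hZ' hA'.compl (fun c => e' (by simpa using c)) h.inv b
  rw [h.1.hl_rev, Set.compl_subset_compl] at hj
  refine ⟨(i + j + 1).toNat, (Set.smul_set_mono hj).trans (Set.Subset.trans ?_ hi)⟩
  rw [← zpow_natCast, h.hl_zpow, h.1.hl_anti]
  have l0 := h.2.1
  have h1 : i + j + 1 ≤ ((i + j + 1).toNat : ℤ) := Int.self_le_toNat _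
  have h2 : ((i + j + 1).toNat : ℤ) ≤ ((i + j + 1).toNat : ℤ) * l :=
    le_mul_of_one_le_right (Int.natCast_nonneg _) l0
  omega

theorem cut1_alt (hb : Bx W) (hZ : Ax Z) (hA : Cut (cl W) Z A) (n : A.Nonempty) (e : g ∉ Z)
    (d : Disjoint A (g • A)) (s : (g * g) • A ⊆ A) : False := by
  rw [← pow_two] at s
  rcases cut_ev hb hZ hA e with a | a
  · obtain ⟨x, hx⟩ := n
    obtain ⟨k, hk⟩ := (a.pow two_pos).ex (g * x)
    have c : (g ^ 2) ^ k * (g * x) = g * ((g ^ 2) ^ k * x) := by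
      rw [← mul_assoc, ← mul_assoc, ← pow_mul, ← pow_succ, pow_succ']
    rw [c] at hk
    exact Set.disjoint_left.1 d hk (mul_mem_smul.2 (pow_mem_of_sub s hx k))
  · exact n.ne_empty ((a.pow two_pos).empty_of_sub s)

theorem not_alt (hb : Bx W) (hZ : Ax Z) (hA : Cut (cl W) Z A) (n : A.Nonempty) (e : g ∉ Z)
    (d : Disjoint A (g • A)) (s : (g * g) • A ⊆ A ∨ A ⊆ (g * g) • A) : False := by
  rcases s with s | s
  · exact cut1_alt hb hZ hA n e d s
  · refine cut1_alt hb hZ hA n (g := g⁻¹) (fun c => e (by simpa using c)) ?_ fun x hx => ?_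
    · refine Set.disjoint_left.2 fun x hx c => ?_
      rw [mem_smul', inv_inv] at c
      exact Set.disjoint_left.1 d c (mul_mem_smul.2 hx)
    · rw [mem_smul', mul_inv_rev, inv_inv] at hx
      exact mul_mem_smul.1 (s hx)

end Pool.Agent.Work.MP_3bdf32_al
end

-- merged part: Pool.Agent.Work.MP_3bdf32_al.Cut2
section
/-! Pairs of axes: crossing and nesting. -/

namespace Pool.Agent.Work.MP_3bdf32_al

set_option linter.unusedSectionVars false
set_option linter.unusedVariables false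

open Subgroup MulAction Filter
open scoped Pointwise

variable {X : Type} [Fintype X] [DecidableEq X] {W : List (FreeGroup X)}
  {Z Z' Y : Subgroup (FreeGroup X)} {A A' B C C' U : Set (FreeGroup X)} {g x y : FreeGroup X}

theorem Cut2_ne (a : Ev A g) (b : Ev Aᶜ g⁻¹) : g ≠ 1 := by
  rintro rfl
  exact a.not_compl (by simpa using b)

theorem Cut2_ex (hZ : Ax Z) : ∃ z ∈ Z, z ≠ 1 := by
  obtain ⟨z, a, rfl⟩ := hZ
  exact ⟨z, self_mem_cen z, a⟩

theorem Cut2_sp (h : Sp (cl W) Z) : ∃ A, Cut (cl W) Z A ∧ A.Nonempty ∧ Aᶜ.Nonempty := by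
  obtain ⟨-, x, y, n⟩ := h
  simp only [Eqv, not_forall] at n
  obtain ⟨A, hA, n⟩ := n
  by_cases a : x ∈ A
  · exact ⟨A, hA, ⟨x, a⟩, ⟨y, fun b => n (iff_of_true a b)⟩⟩
  · exact ⟨A, hA, ⟨y, by_contra fun b => n (iff_of_false a b)⟩, ⟨x, a⟩⟩

theorem Cut2_two (hA : Two (cl W) Z A) (e : g ∈ Z) : g • A = A ∨ g • A = Aᶜ := by
  have i : tl (cl W) g • Z = Z := by
    ext x
    rw [mem_tl_sub, Z.mul_mem_cancel_right e, Z.mul_mem_cancel_left (Z.inv_mem e)]
  have t := hA.smul' g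
  rw [i] at t
  exact hA.eq t.1 t.2.1 t.2.2.1

theorem OneS.Cut2_not (h : OneS (cl W) Z) : ¬ TwoS (cl W) Z := by
  obtain ⟨A, hA, c, hc, e⟩ := h
  rintro ⟨B, hB, n, n', i⟩
  have j := i c hc
  have k : A = Aᶜ := by
    rcases hA.eq hB n n' with rfl | rfl
    · exact j.symm.trans e
    · rw [smul_compl, e, compl_compl] at j
      exact j
  obtain ⟨x, hx⟩ := hA.2.1
  exact (k ▸ hx : x ∈ Aᶜ) hx

/-- a cut along a crossing axis containing both ends is everything -/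
theorem Cut2_univ (hb : Bx W) (hZ : Ax Z) (hZ' : Ax Z') (h : Crs (cl W) Z Z')
    (hB : Cut (cl W) Z' B) (e : g ∈ Z) (f : g ≠ 1) (a : Ev B g) (b : Ev B g⁻¹) :
    B = Set.univ := by
  obtain ⟨-, y, hy, A, hA, c, d⟩ := h
  have n := Cut2_ne c d
  have h1 := one_sided hb hZ' (cut_diff hZ hA hB e f a b).compl (Z'.inv_mem hy) (inv_ne_one.2 n)
    (d.mono fun x i j => i j.1)
  have h2 := one_sided hb hZ' (cut_diff hZ hA.compl hB e f a b).compl hy n
    (c.mono fun x i j => j.1 i)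
  refine Set.eq_univ_of_forall fun x => by_contra fun i => ?_
  by_cases j : x ∈ A
  · exact (h1 ▸ Set.mem_univ x : x ∈ (A \ B)ᶜ) ⟨j, i⟩
  · exact (h2 ▸ Set.mem_univ x : x ∈ (Aᶜ \ B)ᶜ) ⟨j, i⟩

theorem Cut2_en (hb : Bx W) (hZ : Ax Z) (hZ' : Ax Z') (e : Z ≠ Z') (h : ¬ Crs (cl W) Z Z') :
    ∃ C, IsAt (cl W) Z C ∧ en (cl W) Z Z' = C ∧ ∀ g ∈ Z', g ≠ 1 → Ev C g := by
  obtain ⟨z, hz, f⟩ := Cut2_ex hZ'
  have n : z ∉ Z := fun a => e (hZ.inter hZ' a hz f)
  have n' : z⁻¹ ∉ Z := fun a => n (by simpa using Z.inv_mem a)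
  obtain ⟨C, hC, a⟩ : ∃ C, IsAt (cl W) Z C ∧ Ev C z := by
    by_contra i
    have j : ∀ᶠ m : ℕ in atTop, ∀ C ∈ {C | IsAt (cl W) Z C}, z ^ m * 1 ∈ Cᶜ :=
      (eventually_all_finite (atoms_fin hb hZ)).2 fun C hC =>
        (cut_ev hb hZ (IsAt.cut hb hZ hC) n).resolve_left (fun a => i ⟨C, hC, a⟩) 1
    obtain ⟨m, hm⟩ := j.exists
    exact hm _ ⟨_, rfl⟩ (mem_atom _)
  have b : Ev C z⁻¹ := (cut_ev hb hZ (hC.cut hb hZ) n').resolve_right fun b =>
    h ⟨e, z, hz, C, hC.cut hb hZ, a, b⟩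
  have k : ∀ g ∈ Z', g ≠ 1 → Ev C g := fun g hg i => by
    rcases hZ'.ends hg hz i f with ⟨c, -⟩ | ⟨c, -⟩
    exacts [(c _).2 a, (c _).2 b]
  refine ⟨C, hC, Set.Subset.antisymm ?_ fun y hy => ⟨z, hz, f, hC.eq hy ▸ a⟩, k⟩
  rintro y ⟨g, hg, i, c⟩
  obtain ⟨x, p, q⟩ := (c.inter (k g hg i)).nonempty
  rw [hC.eq_of_mem ⟨y, rfl⟩ q p]
  exact mem_atom y

theorem Crs.not_mem (hZ : Ax Z) (hZ' : Ax Z') (h : Crs (cl W) Z Z') (e : g ∈ Z') (f : g ≠ 1) :
    g ∉ Z := by
  exact fun a => h.1 (hZ.inter hZ' a e f)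

theorem Crs.sp (hZ : Ax Z) (h : Crs (cl W) Z Z') : Sp (cl W) Z := by
  obtain ⟨-, g, -, A, hA, a, b⟩ := h
  exact sp_of_cut hZ hA a.nonempty b.nonempty

theorem crs_of_sep (hb : Bx W) (hZ : Ax Z) (hZ' : Ax Z') (hA : Cut (cl W) Z A) (s : Sep A Z') :
    Crs (cl W) Z Z' := by
  obtain ⟨y, hy, n, a, b⟩ := s
  refine ⟨?_, y, hy, A, hA, a, b⟩
  rintro rfl
  have := b.nonempty
  rw [one_sided hb hZ hA hy n a] at this
  simp at this

theorem Sep.ev (hZ : Ax Z) (s : Sep A Z) (e : g ∈ Z) (f : g ≠ 1) :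
    (Ev A g ∧ Ev Aᶜ g⁻¹) ∨ (Ev Aᶜ g ∧ Ev A g⁻¹) := by
  obtain ⟨y, hy, n, a, b⟩ := s
  rcases hZ.ends e hy f n with ⟨c, d⟩ | ⟨c, d⟩
  · exact .inl ⟨(c _).2 a, (d _).2 b⟩
  · exact .inr ⟨(c _).2 b, (d _).2 a⟩

/-- every nontrivial cut along a crossing axis separates the ends -/
theorem crs_sep (hb : Bx W) (hZ : Ax Z) (hZ' : Ax Z') (h : Crs (cl W) Z Z')
    (hA' : Cut (cl W) Z' A') (n : A'.Nonempty) (n' : A'ᶜ.Nonempty) : Sep A' Z := by
  obtain ⟨z, hz, f⟩ := Cut2_ex hZ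
  have e : z ∉ Z' := fun a => h.1 (hZ.inter hZ' hz a f)
  have e' : z⁻¹ ∉ Z' := fun a => e (by simpa using Z'.inv_mem a)
  rcases cut_ev hb hZ' hA' e with a | a <;> rcases cut_ev hb hZ' hA' e' with b | b
  · rw [Cut2_univ hb hZ hZ' h hA' hz f a b] at n'
    simp at n'
  · exact ⟨z, hz, f, a, b⟩
  · exact ⟨z⁻¹, Z.inv_mem hz, inv_ne_one.2 f, b, by simpa using a⟩
  · have := Cut2_univ hb hZ hZ' h hA'.compl hz f a b
    rw [Set.compl_univ_iff] at this
    simp [this] at n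

theorem crs_two (hb : Bx W) (hZ : Ax Z) (hZ' : Sp (cl W) Z') (h : Crs (cl W) Z Z') :
    ∃ A', Two (cl W) Z' A' ∧ Sep A' Z := by
  obtain ⟨A', hA', n, n'⟩ := Cut2_sp hZ'
  have s := crs_sep hb hZ hZ'.1 h hA' n n'
  refine ⟨A', ⟨hA', n, n', fun B hB => ?_⟩, s⟩
  obtain ⟨y, hy, f, a, b⟩ := s
  have key : ∀ A1 A2 : Set (FreeGroup X), Cut (cl W) Z' A1 → Cut (cl W) Z' A2 → Ev A1ᶜ y⁻¹ →
      Ev A2 y → A1 ⊆ A2 := by
    intro A1 A2 h1 h2 c d x hx
    have := Cut2_univ hb hZ hZ'.1 h (h1.compl.union h2) hy f (d.mono Set.subset_union_right)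
      (c.mono Set.subset_union_left)
    rcases (this ▸ Set.mem_univ x : x ∈ A1ᶜ ∪ A2) with i | i
    exacts [(i hx).elim, i]
  rcases B.eq_empty_or_nonempty with i | i
  · exact .inl i
  rcases Bᶜ.eq_empty_or_nonempty with j | j
  · exact .inr (.inl (Set.compl_empty_iff.1 j))
  rcases (crs_sep hb hZ hZ'.1 h hB i j).ev hZ hy f with ⟨c, d⟩ | ⟨c, d⟩
  · exact .inr (.inr (.inl ((key _ _ hB hA' d a).antisymm (key _ _ hA' hB b c))))
  · refine .inr (.inr (.inr (eq_compl_comm.1 ?_)))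
    exact (key _ _ hA' hB.compl b c).antisymm (key _ _ hB.compl hA' (by simpa using d) a)

theorem Crs.symm (hb : Bx W) (hZ : Ax Z) (hZ' : Sp (cl W) Z') (h : Crs (cl W) Z Z') :
    Crs (cl W) Z' Z := by
  obtain ⟨A', a, s⟩ := crs_two hb hZ hZ' h
  exact crs_of_sep hb hZ'.1 hZ a.1 s

theorem crs_two' (hb : Bx W) (hZ : Ax Z) (hZ' : Sp (cl W) Z') (h : Crs (cl W) Z Z') :
    ∃ A, Two (cl W) Z A ∧ Sep A Z' := by
  exact crs_two hb hZ'.1 (h.sp hZ) (h.symm hb hZ hZ')

theorem en_isAt (hb : Bx W) (hZ : Ax Z) (hZ' : Ax Z') (e : Z ≠ Z') (h : ¬ Crs (cl W) Z Z') :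
    IsAt (cl W) Z (en (cl W) Z Z') := by
  obtain ⟨C, a, b, -⟩ := Cut2_en hb hZ hZ' e h
  exact b ▸ a

theorem en_ev (hb : Bx W) (hZ : Ax Z) (hZ' : Ax Z') (e : Z ≠ Z') (h : ¬ Crs (cl W) Z Z')
    (a : g ∈ Z') (b : g ≠ 1) : Ev (en (cl W) Z Z') g := by
  obtain ⟨C, -, c, d⟩ := Cut2_en hb hZ hZ' e h
  exact c ▸ d g a b

theorem eq_en (hb : Bx W) (hZ : Ax Z) (hZ' : Ax Z') (e : Z ≠ Z') (h : ¬ Crs (cl W) Z Z')
    (hC : IsAt (cl W) Z C) (a : g ∈ Z') (b : g ≠ 1) (c : Ev C g) : C = en (cl W) Z Z' := by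
  obtain ⟨x, i, j⟩ := (c.inter (en_ev hb hZ hZ' e h a b)).nonempty
  exact hC.eq_of_mem (en_isAt hb hZ hZ' e h) i j

/-- two cuts containing both ends of the other axis cover everything -/
theorem cut_cover (hb : Bx W) (hZ : Ax Z) (hZ' : Ax Z') (hA : Cut (cl W) Z A)
    (hA' : Cut (cl W) Z' A') {g' : FreeGroup X} (e : g ∈ Z) (f : g ≠ 1) (e' : g' ∈ Z')
    (f' : g' ≠ 1) (a : Ev A' g) (b : Ev A' g⁻¹) (a' : Ev A g') (b' : Ev A g'⁻¹) : Aᶜ ⊆ A' := by
  have hc : Clo (Aᶜ ∩ A'ᶜ) := fun s => by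
    refine ((ev_fin hZ hA e f a b s).union (ev_fin hZ' hA' e' f' a' b' s)).subset fun x hx => ?_
    simp only [db, Set.mem_ofPred_eq, Set.mem_inter_iff, Set.mem_union, Set.mem_compl_iff,
      or_self] at hx ⊢
    tauto
  rcases hb.oe _ (hA.1.compl.inter hA'.1.compl) hc with i | i
  · intro x hx
    by_contra j
    exact (i ▸ (⟨hx, j⟩ : x ∈ Aᶜ ∩ A'ᶜ) : x ∈ (∅ : Set (FreeGroup X)))
  · obtain ⟨x, hx⟩ := a.nonempty
    exact ((i ▸ Set.mem_univ x : x ∈ Aᶜ ∩ A'ᶜ).2 hx).elim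

theorem en_cover (hb : Bx W) (hZ : Ax Z) (hZ' : Ax Z') (e : Z ≠ Z') (h : ¬ Crs (cl W) Z Z')
    (h' : ¬ Crs (cl W) Z' Z) : (en (cl W) Z Z')ᶜ ⊆ en (cl W) Z' Z := by
  obtain ⟨z, hz, f⟩ := Cut2_ex hZ
  obtain ⟨z', hz', f'⟩ := Cut2_ex hZ'
  exact cut_cover hb hZ hZ' ((en_isAt hb hZ hZ' e h).cut hb hZ)
    ((en_isAt hb hZ' hZ e.symm h').cut hb hZ') hz f hz' f' (en_ev hb hZ' hZ e.symm h' hz f)
    (en_ev hb hZ' hZ e.symm h' (Z.inv_mem hz) (inv_ne_one.2 f)) (en_ev hb hZ hZ' e h hz' f')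
    (en_ev hb hZ hZ' e h (Z'.inv_mem hz') (inv_ne_one.2 f'))

theorem nest_of_nc (hb : Bx W) (hZ : Ax Z) (hZ' : Ax Z') (e : Z ≠ Z') (h : ¬ Crs (cl W) Z Z')
    (h' : ¬ Crs (cl W) Z' Z) (hA : Cut (cl W) Z A) (hA' : Cut (cl W) Z' A') : Nest A A' := by
  have c := en_cover hb hZ hZ' e h h'
  have m := (en_isAt hb hZ' hZ e.symm h').mono hA'
  rcases (en_isAt hb hZ hZ' e h).mono hA with i | i
  · exact .inr (m.sub ((Set.compl_subset_compl.2 i).trans c))
  · exact .inl (m.sub ((Set.subset_compl_comm.1 i).trans c))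

theorem Sep.not_nest (hb : Bx W) (hZ' : Ax Z') (s : Sep A Z') (hA' : Cut (cl W) Z' A')
    (n : A'.Nonempty) (n' : A'ᶜ.Nonempty) : ¬ Nest A A' := by
  obtain ⟨y, hy, f, a, b⟩ := s
  refine Pool.Agent.Work.MP_3bdf32_al.not_nest ?_ ?_ ?_ ?_ <;> rw [Set.inter_comm]
  exacts [cut_meets hb hZ' hA' n hy a, cut_meets hb hZ' hA'.compl n' hy a,
    cut_meets hb hZ' hA' n (Z'.inv_mem hy) b, cut_meets hb hZ' hA'.compl n' (Z'.inv_mem hy) b]

theorem nc_of_sep (hb : Bx W) (hY : Sp (cl W) Y) (hZ : Ax Z) (hZ' : Ax Z') (e : Y ≠ Z) (e' : Y ≠ Z')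
    (h : ¬ Crs (cl W) Y Z) (h' : ¬ Crs (cl W) Y Z') (n : en (cl W) Y Z ≠ en (cl W) Y Z') :
    ¬ Crs (cl W) Z Z' := by
  rintro ⟨-, g, hg, A, hA, a, b⟩
  have f := Cut2_ne a b
  have h2 : ¬ Crs (cl W) Z Y := fun c => h (c.symm hb hZ hY)
  have c1 : en (cl W) Y Z' ⊆ en (cl W) Z Y := fun x hx => en_cover hb hY.1 hZ e h h2 fun hx' =>
    n ((en_isAt hb hY.1 hZ e h).eq_of_mem (en_isAt hb hY.1 hZ' e' h') hx' hx)
  rcases (en_isAt hb hZ hY.1 e.symm h2).mono hA with i | i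
  · exact ((en_ev hb hY.1 hZ' e' h' (Z'.inv_mem hg) (inv_ne_one.2 f)).mono
      (c1.trans i)).not_compl b
  · exact a.not_compl ((en_ev hb hY.1 hZ' e' h' hg f).mono (c1.trans i))

theorem simp_of_nest (hb : Bx W) (hZ : Ax Z) (hA : Cut (cl W) Z A) (n : A.Nonempty)
    (n' : Aᶜ.Nonempty) (h : ∀ k : FreeGroup X, Nest A (k • A)) : Simp (cl W) Z := by
  have sp := sp_of_cut hZ hA n n'
  refine ⟨sp, fun k c => ?_⟩
  have hk := hZ.smul (tl (cl W) k)
  have s := crs_sep hb hk hZ (c.symm hb hZ (sp.smul _)) hA n n'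
  exact s.not_nest hb hk (hA.smul' k) n.smul_set (smul_compl' k A ▸ n'.smul_set) (h k)

theorem Simp.nest (hb : Bx W) (h : Simp (cl W) Z) (hA : Two (cl W) Z A) (k : FreeGroup X) :
    Nest A (k • A) := by
  by_cases e : Z = tl (cl W) k • Z
  · have t := hA.smul' k
    rw [← e] at t
    rcases hA.eq t.1 t.2.1 t.2.2.1 with i | i <;> rw [i]
    · exact .inl (.inl subset_rfl)
    · exact .inr (.inl subset_rfl)
  · have hk := h.1.1.smul (tl (cl W) k)
    exact nest_of_nc hb h.1.1 hk e (h.2 k) (fun c => h.2 k (c.symm hb hk h.1)) hA.1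
      (hA.1.smul' k)

theorem Simp.fam (h : Simp (cl W) Z) : Fam (cl W) (orb (cl W) Z) := by
  refine ⟨?_, fun k Z' a => orb_tl a k, ?_⟩
  · rintro _ ⟨k, rfl⟩
    exact h.1.smul _
  · rintro _ ⟨k, rfl⟩ _ ⟨k', rfl⟩ c
    refine h.2 (k⁻¹ * k') ?_
    have := c.smul (tl (cl W) k)⁻¹
    rwa [inv_smul_smul, ← map_inv, ← mul_smul, ← map_mul] at this

theorem Two.smul_mem (hZ : Ax Z) (hA : Two (cl W) Z A) (e : g ∈ Z) : g • A = A ∨ g • A = Aᶜ := by
  exact Cut2_two hA e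

/-- a generator of a one sided axis swaps the sides -/
theorem OneS.gen (h : OneS (cl W) Z) (hA : Two (cl W) Z A) (e : zpowers g = Z) : g • A = Aᶜ := by
  have hg : g ∈ Z := e ▸ mem_zpowers g
  refine (Cut2_two hA hg).resolve_left fun i => h.Cut2_not ⟨A, hA.1, hA.2.1, hA.2.2.1, ?_⟩
  intro z hz
  have : zpowers g ≤ stabilizer (FreeGroup X) A := (zpowers_le).2 i
  exact this (e ▸ hz)

theorem OneS.not_twoS (h : OneS (cl W) Z) : ¬ TwoS (cl W) Z := by
  exact h.Cut2_not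

theorem simp_tri (hb : Bx W) (h : Simp (cl W) Z) :
    Z ∈ UU (cl W) ∨ Z ∈ CX (cl W) ∨ OneS (cl W) Z := by
  by_cases a : Z ∈ CX (cl W)
  · exact .inr (.inl a)
  by_cases b : TwoS (cl W) Z ∨ ∀ Z', Simp (cl W) Z' → ¬ Crs (cl W) Z Z'
  · exact .inl ⟨h, a, b⟩
  rw [not_or] at b
  obtain ⟨b, c⟩ := b
  push Not at c
  obtain ⟨Z', d, c⟩ := c
  obtain ⟨A, hA, -⟩ := crs_two' hb h.1.1 d.1 c
  refine .inr (.inr ⟨A, hA, ?_⟩)
  by_contra i
  exact b ⟨A, hA.1, hA.2.1, hA.2.2.1, fun z hz =>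
    (Cut2_two hA hz).resolve_right fun j => i ⟨z, hz, j⟩⟩

theorem fam_uu (hb : Bx W) : Fam (cl W) (UU (cl W)) := by
  refine ⟨fun Z h => h.1.1, fun k Z h => uu_smul h _, fun Z h Z' h' c => ?_⟩
  have c' := c.symm hb h.1.1.1 h'.1.1
  exact h.2.1 ⟨h.1, h.2.2.resolve_right fun a => a Z' h'.1 c, Z', h'.1,
    h'.2.2.resolve_right fun a => a Z h.1 c', c⟩

theorem uu_cx (hb : Bx W) (h : Y ∈ UU (cl W)) (h' : Z ∈ CX (cl W)) :
    ¬ Crs (cl W) Y Z ∧ ¬ Crs (cl W) Z Y := by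
  have k : ¬ Crs (cl W) Y Z := fun c =>
    h.2.1 ⟨h.1, h.2.2.resolve_right fun a => a Z h'.1 c, Z, h'.1, h'.2.1, c⟩
  exact ⟨k, fun c => k (c.symm hb h'.1.1.1 h.1.1)⟩

theorem cx_two (hb : Bx W) (h : Z ∈ CX (cl W)) : ∃ A, Two (cl W) Z A ∧ ∀ z ∈ Z, z • A = A := by
  obtain ⟨a, ⟨B, hB, n, n', i⟩, Z', d, -, c⟩ := h
  obtain ⟨A, hA, -⟩ := crs_two' hb a.1.1 d.1 c
  rcases hA.eq hB n n' with rfl | rfl
  exacts [⟨_, hA, i⟩, ⟨_, hA.compl, i⟩]

theorem cx_symm (hb : Bx W) (h : Z ∈ CX (cl W)) : ∃ Z' ∈ CX (cl W), Crs (cl W) Z Z' := by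
  obtain ⟨a, b, Z', d, e, c⟩ := h
  exact ⟨Z', ⟨d, e, Z, a, b, c.symm hb a.1.1 d.1⟩, c⟩

theorem Fam.union (hb : Bx W) {N N' : Set (Subgroup (FreeGroup X))} (h : Fam (cl W) N)
    (h' : Fam (cl W) N') (e : ∀ Z ∈ N, ∀ Z' ∈ N', ¬ Crs (cl W) Z Z') : Fam (cl W) (N ∪ N') := by
  refine ⟨fun Z a => a.elim (h.sp Z) (h'.sp Z),
    fun k Z a => a.imp (h.inv k Z) (h'.inv k Z), ?_⟩
  rintro Z (a | a) Z' (b | b)
  exacts [h.nc Z a Z' b, e Z a Z' b,
    fun c => e Z' b Z a (c.symm hb (h'.sp Z a).1 (h.sp Z' b)), h'.nc Z a Z' b]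

end Pool.Agent.Work.MP_3bdf32_al
end

-- merged part: Pool.Agent.Work.MP_3bdf32_al.Acc
section
/-! Accessibility: families of non crossing axes have boundedly many orbits. -/

namespace Pool.Agent.Work.MP_3bdf32_al

set_option linter.unusedSectionVars false
set_option linter.unusedVariables false

open Subgroup MulAction Filter
open scoped Pointwise

variable {X : Type} [Fintype X] [DecidableEq X] {W : List (FreeGroup X)}
  {Z Z' Y : Subgroup (FreeGroup X)} {A A' B C C' U : Set (FreeGroup X)} {g x y : FreeGroup X}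
  {N : Set (Subgroup (FreeGroup X))}

theorem Acc_max {α : Type} (P : α → Prop) (f : α → ℕ) (n : ℕ) (h : ∀ a, P a → f a ≤ n)
    (h0 : ∃ a, P a) : ∃ a, P a ∧ ∀ b, P b → f b ≤ f a := by
  obtain ⟨a, ha, hm⟩ := (measure fun a => n - f a).wf.has_min {a | P a} h0
  refine ⟨a, ha, fun b hb => ?_⟩
  have h1 : ¬ (n - f b < n - f a) := hm b hb
  have h2 := h a ha
  have h3 := h b hb
  omega

theorem Acc_seg (hb : Bx W) {r : ℤ} (hr : ∀ x y, Sg W x y → cd x y ≤ r) (hZ : Ax Z)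
    (hA : Cut (cl W) Z A) (n : A.Nonempty) (e : g ∈ Z) {a : ℤ → FreeGroup X} {l : ℤ}
    (ha : AxL g a l) (i : ℤ) :
    ∃ x ∈ A, x ∈ hl a i ∧ cd (a i) x ≤ r ∧ cd (a (i + 1)) x ≤ r := by
  obtain ⟨t, ⟨s, h1, h2⟩, h3⟩ := cut_lv hb hZ hA n (ha.1.ht i) e ha.ne (ha.ev i) (ha.ev_inv i)
  have h4 : cd (a i) (a (i + 1)) = 1 := by rw [ha.1]; simp
  have h5 := hs_cross h4 h2 h1
  have h6 := hr _ _ s.symm
  have h7 := cd_nonneg t.2 (a i)
  have h8 := cd_tri (a i) (a (i + 1)) t.1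
  exact ⟨t.1, h3, h1, by omega, by omega⟩

/-- a larger atom of another member of the family with the same trace near `v` -/
def Acc_Succ (W : List (FreeGroup X)) (N : Set (Subgroup (FreeGroup X))) (r : ℤ)
    (Z : Subgroup (FreeGroup X)) (A : Set (FreeGroup X)) (v : FreeGroup X)
    (A' : Set (FreeGroup X)) : Prop :=
  ∃ Z' ∈ N, Z' ≠ Z ∧ IsAt (cl W) Z' A' ∧ A ⊆ A' ∧ ∀ y, cd v y ≤ r → y ∈ A' → y ∈ A

theorem Acc_cmp (hb : Bx W) (h : Fam (cl W) N) (hZ : Z ∈ N) (hZ' : Z' ∈ N)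
    (hA : IsAt (cl W) Z A) (hA' : IsAt (cl W) Z' A') (h₁ : (A ∩ A').Nonempty)
    (h₄ : (Aᶜ ∩ A'ᶜ).Nonempty) : A ⊆ A' ∨ A' ⊆ A := by
  by_cases e : Z = Z'
  · subst e
    obtain ⟨x, a, b⟩ := h₁
    exact .inl (hA.eq_of_mem hA' a b).le
  · have a := (h.sp Z hZ).1
    have a' := (h.sp Z' hZ').1
    exact (nest_of_nc hb a a' e (h.nc _ hZ _ hZ') (h.nc _ hZ' _ hZ) (hA.cut hb a)
      (hA'.cut hb a')).sub h₁ h₄

theorem Acc_free (hb : Bx W) {r : ℤ} (hr : ∀ x y, Sg W x y → cd x y ≤ r) (h : Fam (cl W) N)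
    (lf : ∀ x y, {Z | Z ∈ N ∧ ¬ Eqv (cl W) Z x y}.Finite) (hZ : Z ∈ N) (hA : IsAt (cl W) Z A)
    (e : g ∈ Z) {a : ℤ → FreeGroup X} {l : ℤ} (ha : AxL g a l) :
    ∃ i, ∀ A', ¬ Acc_Succ W N r Z A (a i) A' := by
  by_contra hc
  push Not at hc
  have ax := (h.sp Z hZ).1
  have cA := hA.cut hb ax
  have nA := hA.nonempty
  have nA' : Aᶜ.Nonempty := Set.nonempty_compl.2 ((h.sp Z hZ).atom_ne hA)
  have s1 := Acc_seg hb hr ax cA nA e ha
  have s2 := Acc_seg hb hr ax cA.compl nA' e ha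
  have fin : ∀ i, {A' | Acc_Succ W N r Z A (a i) A'}.Finite := by
    intro i
    obtain ⟨x, hx⟩ := nA
    obtain ⟨y, hy, -, hy', -⟩ := s2 i
    refine ((lf x y).image fun Z' => atom (cl W) Z' x).subset ?_
    rintro A' ⟨Z', m, -, b, c, d⟩
    refine ⟨Z', ⟨m, fun q => hy (d y hy' ?_)⟩, (b.eq (c hx)).symm⟩
    exact (q A' (b.cut hb (h.sp Z' m).1)).1 (c hx)
  have mi : ∀ i, ∃ A', Minimal (fun A' => Acc_Succ W N r Z A (a i) A') A' := fun i =>
    (fin i).exists_minimal (hc i)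
  choose B hB using mi
  have st : ∀ i, B (i + 1) = B i := by
    intro i
    obtain ⟨Z₁, m₁, n₁, b₁, c₁, d₁⟩ := (hB i).1
    obtain ⟨Z₂, m₂, n₂, b₂, c₂, d₂⟩ := (hB (i + 1)).1
    obtain ⟨x, hx⟩ := nA
    obtain ⟨y, hy, -, hy₁, hy₂⟩ := s2 i
    rcases Acc_cmp hb h m₁ m₂ b₁ b₂ ⟨x, c₁ hx, c₂ hx⟩
      ⟨y, fun q => hy (d₁ y hy₁ q), fun q => hy (d₂ y hy₂ q)⟩ with s | s
    · exact le_antisymm ((hB (i + 1)).2 ⟨Z₁, m₁, n₁, b₁, c₁, fun w p q => d₂ w p (s q)⟩ s) s
    · exact le_antisymm s ((hB i).2 ⟨Z₂, m₂, n₂, b₂, c₂, fun w p q => d₁ w p (s q)⟩ s)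
  have al : ∀ n : ℕ, B n = B 0 := by
    intro n
    induction n with
    | zero => rfl
    | succ n ih => rw [← ih, ← st n]; rfl
  obtain ⟨Z₀, m₀, n₀, b₀, c₀, -⟩ := (hB 0).1
  have ax₀ := (h.sp Z₀ m₀).1
  obtain ⟨z, hz, -, ez⟩ := ax₀.gen
  have mz : z ∈ Z₀ := ez ▸ self_mem_cen z
  have nc : ¬ Commute g z := fun c =>
    n₀ (ax₀.inter ax mz (ax.eq_cen e ha.ne ▸ mem_cen.2 c.symm) hz)
  obtain ⟨p, hp⟩ := ha.pos nc
  obtain ⟨q, hq⟩ := ha.pos (g' := z⁻¹) fun c => nc (by simpa using c)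
  obtain ⟨n, hn⟩ : ∃ n : ℕ, p ≤ n ∧ q ≤ n := ⟨p.natAbs + q.natAbs, by omega, by omega⟩
  have mo := cut_mono hb ax₀ (b₀.cut hb ax₀) (ha.1.ht n) mz hz
    ((Pos.ev ha.1 hp n).2.2 hn.1) ((Pos.ev ha.1 hq n).2.2 hn.2)
  obtain ⟨x, hx, hx', -⟩ := s1 n
  obtain ⟨y, hy, hy', hy₁, -⟩ := s2 n
  obtain ⟨-, -, -, -, -, d⟩ := (hB n).1
  rw [al n] at d
  exact hy (d y hy₁ ((mo.iff hx' hy').1 (c₀ hx)))

theorem Acc_one (hb : Bx W) {r : ℤ} (hr : ∀ x y, Sg W x y → cd x y ≤ r) (h : Fam (cl W) N)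
    (lf : ∀ x y, {Z | Z ∈ N ∧ ¬ Eqv (cl W) Z x y}.Finite) (hZ : Z ∈ N) :
    ∃ Z' ∈ orb (cl W) Z, ∃ A, IsAt (cl W) Z' A ∧ (∃ x ∈ A, cd 1 x ≤ r) ∧
      (∃ x ∈ Aᶜ, cd 1 x ≤ r) ∧ ∀ A', ¬ Acc_Succ W N r Z' A 1 A' := by
  have ax := (h.sp Z hZ).1
  obtain ⟨z, hz, -, ez⟩ := ax.gen
  have mz : z ∈ Z := ez ▸ self_mem_cen z
  obtain ⟨a, l, ha⟩ := ex_axis hz
  have hA : IsAt (cl W) Z (atom (cl W) Z 1) := ⟨1, rfl⟩
  generalize atom (cl W) Z 1 = A at hA
  obtain ⟨i, hi⟩ := Acc_free hb hr h lf hZ hA mz ha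
  have cA := hA.cut hb ax
  obtain ⟨x, hx, -, hx', -⟩ := Acc_seg hb hr ax cA hA.nonempty mz ha i
  obtain ⟨y, hy, -, hy', -⟩ := Acc_seg hb hr ax cA.compl
    (Set.nonempty_compl.2 ((h.sp Z hZ).atom_ne hA)) mz ha i
  have tr : ∀ w, cd 1 ((a i)⁻¹ * w) = cd (a i) w := fun w => by
    rw [← cd_smul (a i), mul_one, mul_inv_cancel_left]
  refine ⟨tl (cl W) (a i)⁻¹ • Z, ⟨_, rfl⟩, (a i)⁻¹ • A, hA.smul (tl (cl W) (a i)⁻¹),
    ⟨(a i)⁻¹ * x, mul_mem_smul.2 hx, by rwa [tr]⟩,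
    ⟨(a i)⁻¹ * y, fun q => hy (mul_mem_smul.1 q), by rwa [tr]⟩, ?_⟩
  rintro A' ⟨Z', m, n, b, c, d⟩
  refine hi (a i • A') ⟨tl (cl W) (a i) • Z', h.inv _ _ m, fun q => n ?_,
    b.smul (tl (cl W) (a i)), fun w q => mem_smul'.2 (c (mul_mem_smul.2 q)), fun w p q => ?_⟩
  · rw [← q, map_inv, inv_smul_smul]
  · exact mul_mem_smul.1 (d _ (by rwa [tr]) (mem_smul'.1 q))

theorem Acc_card (hb : Bx W) : ∃ n₀ : ℕ, ∀ N, Fam (cl W) N →
    ∀ S : Finset (Subgroup (FreeGroup X)), ↑S ⊆ N →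
      (∀ Z₁ ∈ S, ∀ Z₂ ∈ S, Z₁ ∈ orb (cl W) Z₂ → Z₁ = Z₂) → S.card ≤ n₀ := by
  classical
  obtain ⟨r, hr⟩ := sg_bound W
  refine ⟨((ball_fin (1 : FreeGroup X) r).toFinset.powerset).card, fun N h S hS hp => ?_⟩
  set N' : Set (Subgroup (FreeGroup X)) := {Z | ∃ Z₀ ∈ S, Z ∈ orb (cl W) Z₀} with hN'
  have sub : N' ⊆ N := by
    rintro _ ⟨Z₀, m, k, rfl⟩
    exact h.inv k _ (hS m)
  have h' : Fam (cl W) N' :=
    ⟨fun Z m => h.sp Z (sub m), fun k Z ⟨Z₀, m, o⟩ => ⟨Z₀, m, orb_tl o k⟩,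
      fun Z m Z' m' => h.nc Z (sub m) Z' (sub m')⟩
  have lf : ∀ x y, {Z | Z ∈ N' ∧ ¬ Eqv (cl W) Z x y}.Finite := by
    intro x y
    refine (S.finite_toSet.biUnion fun Z₀ m => orb_lf hb (h.sp Z₀ (hS m)).1 x y).subset ?_
    rintro Z ⟨⟨Z₀, m, o⟩, n⟩
    exact Set.mem_biUnion m ⟨o, n⟩
  have ex : ∀ Z, Z ∈ S → ∃ Z' ∈ orb (cl W) Z, ∃ A, IsAt (cl W) Z' A ∧ (∃ x ∈ A, cd 1 x ≤ r) ∧
      (∃ x ∈ Aᶜ, cd 1 x ≤ r) ∧ ∀ A', ¬ Acc_Succ W N' r Z' A 1 A' := fun Z m =>
    Acc_one hb hr h' lf ⟨Z, m, mem_orb Z⟩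
  choose! T hT A hA hx hy hn using ex
  refine Finset.card_le_card_of_injOn
    (fun Z => (ball_fin (1 : FreeGroup X) r).toFinset.filter (· ∈ A Z)) (fun Z _ => ?_) ?_
  · exact Finset.mem_coe.2 (Finset.mem_powerset.2 (Finset.filter_subset _ _))
  · intro Z₁ m₁ Z₂ m₂ e
    have tr : ∀ w, cd 1 w ≤ r → (w ∈ A Z₁ ↔ w ∈ A Z₂) := fun w p => by
      have := Finset.ext_iff.1 e w
      simpa [p] using this
    by_contra ne
    have ne' : T Z₁ ≠ T Z₂ := fun q => ne (hp _ m₁ _ m₂ (by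
      rw [← orb_eq (hT Z₂ m₂), ← q, orb_eq (hT Z₁ m₁)]; exact mem_orb Z₁))
    have t₁ : T Z₁ ∈ N' := ⟨Z₁, m₁, hT Z₁ m₁⟩
    have t₂ : T Z₂ ∈ N' := ⟨Z₂, m₂, hT Z₂ m₂⟩
    obtain ⟨x, a, b⟩ := hx Z₁ m₁
    obtain ⟨y, c, d⟩ := hy Z₁ m₁
    rcases Acc_cmp hb h' t₁ t₂ (hA Z₁ m₁) (hA Z₂ m₂) ⟨x, a, (tr x b).1 a⟩
      ⟨y, c, fun q => c ((tr y d).2 q)⟩ with s | s
    · exact hn Z₁ m₁ _ ⟨_, t₂, ne'.symm, hA Z₂ m₂, s, fun w p q => (tr w p).2 q⟩
    · exact hn Z₂ m₂ _ ⟨_, t₁, ne', hA Z₁ m₁, s, fun w p q => (tr w p).1 q⟩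

theorem Acc_thr (hZ : Ax Z) (x : FreeGroup X) :
    {Z' | Z' ∈ orb (cl W) Z ∧ ∃ g ∈ Z', ∃ a l, AxL g a l ∧ a 0 = x}.Finite := by
  obtain ⟨z, hz, -, ez⟩ := hZ.gen
  have mz : z ∈ Z := ez ▸ self_mem_cen z
  obtain ⟨b, m, hb⟩ := ex_axis hz
  refine ((Set.finite_Ico 0 m).image fun s => tl (cl W) (x * (b s)⁻¹) • Z).subset ?_
  rintro _ ⟨⟨k, rfl⟩, g, hg, a, l, ha, rfl⟩
  have c : Commute (k * z * k⁻¹) g := by
    rw [← ez, tl_cen, mem_cen] at hg
    exact hg.symm
  have hb' := hb.conj k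
  obtain ⟨n, hn, e⟩ := hb'.comm c ha.ne
  obtain ⟨j, hj⟩ : ∃ j, a 0 = k * b j := by
    rcases lt_or_gt_of_ne hn with p | p
    · have : AxL g (fun i => k * b (-i)) (-n) :=
        ⟨hb'.1.rev, by omega, fun i => by
          beta_reduce
          rw [e (-i)]
          congr 2
          ring⟩
      obtain ⟨-, c, q⟩ := this.uniq ha
      exact ⟨_, q 0⟩
    · have : AxL g (fun i => k * b i) n := ⟨hb'.1, p, e⟩
      obtain ⟨-, c, q⟩ := this.uniq ha
      exact ⟨_, q 0⟩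
  have pm := hb.2.1
  refine ⟨j % m, ⟨Int.emod_nonneg _ pm.ne', Int.emod_lt_of_pos _ pm⟩, ?_⟩
  have e1 : z ^ (j / m) * b (j % m) = b j := by
    rw [hb.zpow]
    congr 1
    exact Int.emod_add_ediv_mul j m
  have e2 : a 0 * (b (j % m))⁻¹ = k * z ^ (j / m) := by
    rw [hj, ← e1]; group
  beta_reduce
  rw [e2, map_mul, mul_smul, hZ.norm.2 (Z.zpow_mem mz _)]

theorem acc (hb : Bx W) : ∃ n₀ : ℕ, ∀ N, Fam (cl W) N → ∃ S : Finset (Subgroup (FreeGroup X)),
    ↑S ⊆ N ∧ S.card ≤ n₀ ∧ ∀ Z ∈ N, ∃ Z₀ ∈ S, Z ∈ orb (cl W) Z₀ := by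
  classical
  obtain ⟨n₀, hn⟩ := Acc_card hb
  refine ⟨n₀, fun N h => ?_⟩
  obtain ⟨S, ⟨a, b⟩, c⟩ := Acc_max (fun S : Finset (Subgroup (FreeGroup X)) => ↑S ⊆ N ∧
    ∀ Z₁ ∈ S, ∀ Z₂ ∈ S, Z₁ ∈ orb (cl W) Z₂ → Z₁ = Z₂) Finset.card n₀
    (fun S p => hn N h S p.1 p.2) ⟨∅, by simp, by simp⟩
  refine ⟨S, a, hn N h S a b, fun Z m => ?_⟩
  by_contra hc
  push Not at hc
  have nm : Z ∉ S := fun q => hc Z q (mem_orb Z)
  have := c (insert Z S) ⟨by rw [Finset.coe_insert]; exact Set.insert_subset m a, ?_⟩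
  · rw [Finset.card_insert_of_notMem nm] at this
    omega
  · intro Z₁ m₁ Z₂ m₂ o
    rcases Finset.mem_insert.1 m₁ with e₁ | m₁ <;> rcases Finset.mem_insert.1 m₂ with e₂ | m₂
    · rw [e₁, e₂]
    · exact (hc Z₂ m₂ (e₁ ▸ o)).elim
    · refine (hc Z₁ m₁ ?_).elim
      rw [orb_eq o, e₂]
      exact mem_orb Z
    · exact b _ m₁ _ m₂ o

theorem Fam.lf (hb : Bx W) (h : Fam (cl W) N) (x y : FreeGroup X) :
    {Z | Z ∈ N ∧ ¬ Eqv (cl W) Z x y}.Finite := by
  obtain ⟨n₀, hn⟩ := acc hb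
  obtain ⟨S, a, -, c⟩ := hn N h
  refine (S.finite_toSet.biUnion fun Z₀ m => orb_lf hb (h.sp Z₀ (a m)).1 x y).subset ?_
  rintro Z ⟨m, n⟩
  obtain ⟨Z₀, m₀, o⟩ := c Z m
  exact Set.mem_biUnion m₀ ⟨o, n⟩

/-- only finitely many members of a family have an axis through a given point -/
theorem Fam.through (hb : Bx W) (h : Fam (cl W) N) (x : FreeGroup X) :
    {Z | Z ∈ N ∧ ∃ g ∈ Z, ∃ a l, AxL g a l ∧ a 0 = x}.Finite := by
  obtain ⟨n₀, hn⟩ := acc hb
  obtain ⟨S, a, -, c⟩ := hn N h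
  refine (S.finite_toSet.biUnion fun Z₀ m => Acc_thr (W := W) (h.sp Z₀ (a m)).1 x).subset ?_
  rintro Z ⟨m, n⟩
  obtain ⟨Z₀, m₀, o⟩ := c Z m
  exact Set.mem_biUnion m₀ ⟨o, n⟩

theorem ex_max (hb : Bx W) {M N₀ : Set (Subgroup (FreeGroup X))} (hM : ∀ Z ∈ M, Simp (cl W) Z)
    (hi : ∀ k, ∀ Z ∈ M, tl (cl W) k • Z ∈ M) (h₀ : N₀ ⊆ M) (hN : Fam (cl W) N₀) :
    ∃ N, N₀ ⊆ N ∧ N ⊆ M ∧ Fam (cl W) N ∧ ∀ Z ∈ M, (∀ Z' ∈ N, ¬ Crs (cl W) Z' Z) → Z ∈ N := by
  obtain ⟨n₀, hn⟩ := acc hb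
  have bd : ∀ N, Fam (cl W) N → (orb (cl W) '' N).Finite ∧ (orb (cl W) '' N).ncard ≤ n₀ := by
    intro N h
    obtain ⟨S, -, b, c⟩ := hn N h
    have s : orb (cl W) '' N ⊆ orb (cl W) '' ↑S := by
      rintro _ ⟨Z, m, rfl⟩
      obtain ⟨Z₀, m₀, o⟩ := c Z m
      exact ⟨Z₀, m₀, (orb_eq o).symm⟩
    have f := S.finite_toSet.image (orb (cl W))
    refine ⟨f.subset s, (Set.ncard_le_ncard s f).trans ?_⟩
    refine (Set.ncard_image_le S.finite_toSet).trans ?_
    rwa [Set.ncard_coe_finset]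
  obtain ⟨N, ⟨a, b, h⟩, c⟩ := Acc_max (fun N => N₀ ⊆ N ∧ N ⊆ M ∧ Fam (cl W) N)
    (fun N => (orb (cl W) '' N).ncard) n₀ (fun N p => (bd N p.2.2).2) ⟨N₀, le_rfl, h₀, hN⟩
  refine ⟨N, a, b, h, fun Z m nc => ?_⟩
  by_contra nm
  have h' : Fam (cl W) (N ∪ orb (cl W) Z) := by
    refine h.union hb (hM Z m).fam ?_
    rintro Z₁ m₁ _ ⟨k, rfl⟩ q
    refine nc _ (h.inv k⁻¹ _ m₁) ?_
    have := q.smul (tl (cl W) k⁻¹)
    rwa [map_inv, inv_smul_smul, ← map_inv] at this
  have le := c (N ∪ orb (cl W) Z) ⟨a.trans Set.subset_union_left, Set.union_subset b (by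
    rintro _ ⟨k, rfl⟩
    exact hi k Z m), h'⟩
  refine absurd le (not_le.2 (Set.ncard_lt_ncard ⟨Set.image_mono Set.subset_union_left, fun s => ?_⟩
    (bd _ h').1))
  obtain ⟨Z₁, m₁, e⟩ := s ⟨Z, .inr (mem_orb Z), rfl⟩
  have o := mem_orb (H := cl W) Z
  rw [← e] at o
  obtain ⟨k, e'⟩ := o
  exact nm (e' ▸ h.inv k _ m₁)

end Pool.Agent.Work.MP_3bdf32_al
end

-- merged part: Pool.Agent.Work.MP_3bdf32_al.Vert1
section
/-! The tree dual to a family: vertices, adjacency, paths. -/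

namespace Pool.Agent.Work.MP_3bdf32_al

set_option linter.unusedSectionVars false
set_option linter.unusedVariables false

open Subgroup MulAction Filter
open scoped Pointwise

variable {X : Type} [Fintype X] [DecidableEq X] {W : List (FreeGroup X)}
  {Z Z' Y : Subgroup (FreeGroup X)} {A A' B C C' U : Set (FreeGroup X)} {g x y : FreeGroup X}
  {N N' : Set (Subgroup (FreeGroup X))} {V V' : Ori (FreeGroup X)}

theorem GV_smul_s (e : g ∈ GV (cl W) V) (Z : Subgroup (FreeGroup X)) :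
    V.s (tl (cl W) g • Z) = g • V.s Z := by
  have := ori_smul' (tl (cl W) g) V Z
  rwa [mem_GV.1 e] at this

theorem Vert1_mem_vx (x : FreeGroup X) (Z : Subgroup (FreeGroup X)) :
    x ∈ (vx (cl W) N x).s Z := by
  by_cases h : Z ∈ N
  · rw [vx_of_mem h]
    exact mem_atom x
  · rw [vx_of_not h]
    trivial

theorem Vert1_ev_univ (g : FreeGroup X) : Ev Set.univ g :=
  fun _ => Eventually.of_forall fun _ => trivial

theorem Vert1_off (h : IsAt (cl W) Z C) (h' : IsAt (cl W) Z C') (e : C ≠ C') : C ⊆ C'ᶜ :=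
  fun _ a b => e (h.eq_of_mem h' a b)

theorem Vert1_eq (hV : IsV (cl W) N V) (hV' : IsV (cl W) N V') (a : x ∈ V.s Z) (b : x ∈ V'.s Z) :
    V.s Z = V'.s Z := by
  by_cases h : Z ∈ N
  · exact (hV.isAt Z h).eq_of_mem (hV'.isAt Z h) a b
  · rw [hV.out Z h, hV'.out Z h]

/-- only finitely many members of the family point away from the ends of an axis at a point -/
theorem Vert1_fin (hb : Bx W) (hN : Fam (cl W) N) (hZ : Ax Z)
    (h : ∀ Y ∈ N, ¬ Crs (cl W) Y Z) (x : FreeGroup X) :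
    {Y | Y ∈ N ∧ Y ≠ Z ∧ x ∉ en (cl W) Y Z}.Finite := by
  obtain ⟨z, hz, rfl⟩ := hZ
  obtain ⟨a, l, ha⟩ := ex_axis hz
  refine ((hN.lf hb x (a 0)).union (hN.through hb (a 0))).subset ?_
  rintro Y ⟨hY, e, hx⟩
  have hYa := (hN.sp Y hY).1
  have hat := en_isAt hb hYa (ax_cen hz) e (h Y hY)
  by_cases hp : a 0 ∈ en (cl W) Y (cen z)
  · refine .inl ⟨hY, fun q => hx ?_⟩
    rw [hat.eq hp]
    exact q.symm
  refine .inr ⟨hY, ?_⟩
  obtain ⟨y, hy, rfl⟩ := id hYa
  obtain ⟨a', l', ha'⟩ := ex_axis hy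
  by_cases hj : ∃ j, a 0 = a' j
  · obtain ⟨j, hj⟩ := hj
    exact ⟨y, self_mem_cen y, _, l', ha'.shift j, by simp [hj]⟩
  exfalso
  push Not at hj
  obtain ⟨v, h1, h2, h3⟩ := ha'.1.ex_hang hj
  have hU : HT (hs (a' (pr a' (a 0))) v) := ⟨_, _, h1, rfl⟩
  obtain ⟨e1, e2⟩ := ha'.ev_of_hang hU h3
  have hsub : hs (a' (pr a' (a 0))) v ⊆ (en (cl W) (cen y) (cen z))ᶜ :=
    (cut_mono hb hYa (hat.cut hb hYa) hU (self_mem_cen y) hy e1 e2).resolve_left
      fun q => hp (q h2)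
  rcases ha.ev_of_mem hU h2 with q | q
  · exact (en_ev hb hYa (ax_cen hz) e (h _ hY) (self_mem_cen z) hz).not_compl (q.mono hsub)
  · exact (en_ev hb hYa (ax_cen hz) e (h _ hY) (inv_mem (self_mem_cen z))
      (inv_ne_one.2 hz)).not_compl (q.mono hsub)

theorem Vert1_ev (hb : Bx W) (hN : Fam (cl W) N) (hZ : Ax Z) (h : ∀ Y ∈ N, ¬ Crs (cl W) Y Z)
    (C : Set (FreeGroup X)) (a : g ∈ Z) (b : g ≠ 1) (e : Y ≠ Z) :
    Ev ((vz (cl W) N Z C).s Y) g := by
  by_cases hY : Y ∈ N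
  · rw [vz_of_mem e hY]
    exact en_ev hb (hN.sp Y hY).1 hZ e (h Y hY) a b
  · rw [vz_of_not e hY]
    exact Vert1_ev_univ g

theorem Vert1_vz_fin (hb : Bx W) (hN : Fam (cl W) N) (hZ : Ax Z) (h : ∀ Y ∈ N, ¬ Crs (cl W) Y Z)
    (C : Set (FreeGroup X)) (x : FreeGroup X) : {Y | x ∉ (vz (cl W) N Z C).s Y}.Finite := by
  refine ((Vert1_fin hb hN hZ h x).insert Z).subset fun Y hY => ?_
  by_cases e : Y = Z
  · exact .inl e
  by_cases hYN : Y ∈ N
  · exact .inr ⟨hYN, e, fun q => hY (by rwa [vz_of_mem e hYN])⟩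
  · exact (hY (by rw [vz_of_not e hYN]; trivial)).elim

theorem vx_isV (hb : Bx W) (hN : Fam (cl W) N) (x : FreeGroup X) : IsV (cl W) N (vx (cl W) N x) := by
  refine ⟨fun Z hZ => ⟨x, vx_of_mem hZ x⟩, fun Z hZ => vx_of_not hZ x,
    fun Z Z' => ⟨x, Vert1_mem_vx x Z, Vert1_mem_vx x Z'⟩, fun y => ?_⟩
  refine (hN.lf hb x y).subset fun Z hZ => ?_
  by_cases h : Z ∈ N
  · exact ⟨h, fun q => hZ (by rw [vx_of_mem h]; exact q)⟩
  · exact (hZ (by rw [vx_of_not h]; trivial)).elim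

theorem vz_isV (hb : Bx W) (hN : Fam (cl W) N) (hZ : Z ∈ N) (hC : IsAt (cl W) Z C) :
    IsV (cl W) N (vz (cl W) N Z C) := by
  have hZa := (hN.sp Z hZ).1
  have hnc : ∀ Y ∈ N, ¬ Crs (cl W) Y Z := fun Y hY => hN.nc Y hY Z hZ
  refine ⟨fun Y hY => ?_, fun Y hY => vz_of_not (fun e : Y = Z => hY (e ▸ hZ)) hY C, fun Y Y' => ?_,
    Vert1_vz_fin hb hN hZa hnc C⟩
  · by_cases e : Y = Z
    · rw [e, vz_self]
      exact hC
    · rw [vz_of_mem e hY]
      exact en_isAt hb (hN.sp Y hY).1 hZa e (hnc Y hY)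
  · obtain ⟨z, hz, hzZ⟩ := id hZa
    have hm : z ∈ Z := hzZ ▸ self_mem_cen z
    by_cases e : Y = Z <;> by_cases e' : Y' = Z
    · rw [e, e', vz_self, Set.inter_self]
      exact hC.nonempty
    · rw [e, vz_self]
      exact cut_meets hb hZa (hC.cut hb hZa) hC.nonempty hm (Vert1_ev hb hN hZa hnc C hm hz e')
    · rw [e', vz_self, Set.inter_comm]
      exact cut_meets hb hZa (hC.cut hb hZa) hC.nonempty hm (Vert1_ev hb hN hZa hnc C hm hz e)
    · exact ((Vert1_ev hb hN hZa hnc C hm hz e).inter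
        (Vert1_ev hb hN hZa hnc C hm hz e')).nonempty

theorem vz_adj (hb : Bx W) (hN : Fam (cl W) N) (hZ : Z ∈ N) (hC : IsAt (cl W) Z C) :
    Adj (vz (cl W) N Z C) Z := by
  have hZa := (hN.sp Z hZ).1
  have hne := (hN.sp Z hZ).atom_ne hC
  refine ⟨by rwa [vz_self], fun Y hY => ?_⟩
  by_contra e
  obtain ⟨z, hz, hzZ⟩ := id hZa
  have hm : z ∈ Z := hzZ ▸ self_mem_cen z
  rw [vz_self] at hY
  exact hne (one_sided hb hZa (hC.cut hb hZa) hm hz
    ((Vert1_ev hb hN hZa (fun Y hY => hN.nc Y hY Z hZ) C hm hz e).mono hY))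

theorem IsV.mem (hV : IsV (cl W) N V) (h : V.s Z ≠ Set.univ) : Z ∈ N := by
  by_contra e
  exact h (hV.out Z e)

theorem IsV.cut (hb : Bx W) (hN : Fam (cl W) N) (hV : IsV (cl W) N V) (hZ : Z ∈ N) :
    Cut (cl W) Z (V.s Z) := by
  exact (hV.isAt Z hZ).cut hb (hN.sp Z hZ).1

theorem Vert1_ne (hN : Fam (cl W) N) (hV : IsV (cl W) N V) (hZ : Z ∈ N) : V.s Z ≠ Set.univ :=
  (hN.sp Z hZ).atom_ne (hV.isAt Z hZ)

theorem Vert1_inj (hb : Bx W) (hN : Fam (cl W) N) (hV : IsV (cl W) N V) (hZ : Z ∈ N)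
    (e : V.s Z' = V.s Z) : Z' = Z := by
  by_contra q
  have hZ' : Z' ∈ N := hV.mem (e ▸ Vert1_ne hN hV hZ)
  rcases cut_two_axes hb (hN.sp Z' hZ').1 (hN.sp Z hZ).1 q (e ▸ hV.cut hb hN hZ')
    (hV.cut hb hN hZ) with r | r
  · exact (hV.isAt Z hZ).nonempty.ne_empty r
  · exact Vert1_ne hN hV hZ r

theorem IsV.toward (hb : Bx W) (hN : Fam (cl W) N) (hV : IsV (cl W) N V) (hZ : Z ∈ N)
    (hZ' : Z' ∈ N) (e : Z ≠ Z') : V.s Z = en (cl W) Z Z' ∨ V.s Z' = en (cl W) Z' Z := by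
  have a := (hN.sp Z hZ).1
  have a' := (hN.sp Z' hZ').1
  by_cases q : V.s Z = en (cl W) Z Z'
  · exact .inl q
  obtain ⟨p, h1, h2⟩ := hV.meet Z Z'
  exact .inr ((hV.isAt Z' hZ').eq_of_mem (en_isAt hb a' a e.symm (hN.nc _ hZ' _ hZ)) h2
    (en_cover hb a a' e (hN.nc _ hZ _ hZ') (hN.nc _ hZ' _ hZ)
      (Vert1_off (hV.isAt Z hZ) (en_isAt hb a a' e (hN.nc _ hZ _ hZ')) q h1)))

theorem adj_en (hb : Bx W) (hN : Fam (cl W) N) (hV : IsV (cl W) N V) (h : Adj V Z) (hZ' : Z' ∈ N)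
    (e : Z' ≠ Z) : V.s Z' = en (cl W) Z' Z := by
  have hZ := hV.mem h.1
  have a := (hN.sp Z hZ).1
  have a' := (hN.sp Z' hZ').1
  by_contra q
  have r := (hV.toward hb hN hZ' hZ e).resolve_left q
  refine e (h.2 Z' ?_)
  rw [r]
  exact (Vert1_off (hV.isAt Z' hZ') (en_isAt hb a' a e (hN.nc _ hZ' _ hZ)) q).trans
    (en_cover hb a' a e (hN.nc _ hZ' _ hZ) (hN.nc _ hZ _ hZ'))

theorem adj_eq (hb : Bx W) (hN : Fam (cl W) N) (hV : IsV (cl W) N V) (h : Adj V Z) :
    V = vz (cl W) N Z (V.s Z) := by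
  ext Y : 2
  by_cases e : Y = Z
  · rw [e, vz_self]
  by_cases hY : Y ∈ N
  · rw [vz_of_mem e hY, adj_en hb hN hV h hY e]
  · rw [vz_of_not e hY, hV.out Y hY]

theorem adj_disj (hb : Bx W) (hN : Fam (cl W) N) (hV : IsV (cl W) N V) (h : Adj V Z)
    (h' : Adj V Z') (e : Z ≠ Z') : (V.s Z)ᶜ ⊆ V.s Z' := by
  have hZ := hV.mem h.1
  have hZ' := hV.mem h'.1
  rw [adj_en hb hN hV h' hZ e, adj_en hb hN hV h hZ' e.symm]
  exact en_cover hb (hN.sp Z hZ).1 (hN.sp Z' hZ').1 e (hN.nc _ hZ _ hZ') (hN.nc _ hZ' _ hZ)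

theorem adj_above (hb : Bx W) (hN : Fam (cl W) N) (hV : IsV (cl W) N V) (hZ : Z ∈ N) :
    ∃ Y, Adj V Y ∧ V.s Y ⊆ V.s Z := by
  obtain ⟨x, hx⟩ := (Set.ne_univ_iff_exists_notMem _).1 (Vert1_ne hN hV hZ)
  have hf : {Y | V.s Y ⊆ V.s Z}.Finite := (hV.fin x).subset fun Y hY q => hx (hY q)
  obtain ⟨Y, h1, h2⟩ := hf.exists_minimalFor V.s _ ⟨Z, Set.Subset.refl _⟩
  have hne : V.s Y ≠ Set.univ := fun q => hx (h1 (q ▸ Set.mem_univ x))
  exact ⟨Y, ⟨hne, fun Y' q =>
    Vert1_inj hb hN hV (hV.mem hne) (q.antisymm (h2 (q.trans h1) q))⟩, h1⟩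

theorem sepV_fin (hb : Bx W) (hN : Fam (cl W) N) (hV : IsV (cl W) N V) (hV' : IsV (cl W) N V') :
    {Z | V.s Z ≠ V'.s Z}.Finite := by
  refine ((hV.fin 1).union (hV'.fin 1)).subset fun Z hZ => ?_
  by_contra q
  simp only [Set.mem_union, Set.mem_ofPred_eq, not_or, not_not] at q
  exact hZ (Vert1_eq hV hV' q.1 q.2)

theorem ex_first (hb : Bx W) (hN : Fam (cl W) N) (hV : IsV (cl W) N V) (hV' : IsV (cl W) N V')
    (e : V ≠ V') : ∃ Z, Adj V Z ∧ V.s Z ≠ V'.s Z := by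
  have hne : {Z | V.s Z ≠ V'.s Z}.Nonempty := by
    by_contra q
    refine e (Ori.ext (funext fun Z => ?_))
    by_contra r
    exact q ⟨Z, r⟩
  obtain ⟨Z, h1, h2⟩ := (sepV_fin hb hN hV hV').exists_minimalFor V.s _ hne
  have hZ : Z ∈ N := by
    by_contra q
    exact h1 (by rw [hV.out Z q, hV'.out Z q])
  refine ⟨Z, ⟨Vert1_ne hN hV hZ, fun Y q => ?_⟩, h1⟩
  by_cases r : V.s Y = V'.s Y
  · obtain ⟨p, a, b⟩ := hV'.meet Y Z
    exact (h1 (Vert1_eq hV hV' (q (r ▸ a)) b)).elim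
  · exact Vert1_inj hb hN hV hZ (q.antisymm (h2 r q))

theorem first_uniq (hb : Bx W) (hN : Fam (cl W) N) (hV : IsV (cl W) N V) (hV' : IsV (cl W) N V')
    (h : Adj V Z) (h' : Adj V Z') (e : V.s Z ≠ V'.s Z) (e' : V.s Z' ≠ V'.s Z') : Z = Z' := by
  by_contra q
  obtain ⟨p, a, b⟩ := hV'.meet Z Z'
  exact e' (Vert1_eq hV hV' (adj_disj hb hN hV h h' q fun r => e (Vert1_eq hV hV' r a)) b)

/-- crossing an adjacent axis changes the orientation only there -/
theorem vz_step (hb : Bx W) (hN : Fam (cl W) N) (hV : IsV (cl W) N V) (h : Adj V Z)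
    (C : Set (FreeGroup X)) (e : Y ≠ Z) : (vz (cl W) N Z C).s Y = V.s Y := by
  by_cases hY : Y ∈ N
  · rw [vz_of_mem e hY, adj_en hb hN hV h hY e]
  · rw [vz_of_not e hY, hV.out Y hY]

/-- induction along the path between two vertices -/
theorem path_ind (hb : Bx W) (hN : Fam (cl W) N) {V₀ V₁ : Ori (FreeGroup X)}
    (h₀ : IsV (cl W) N V₀) (h₁ : IsV (cl W) N V₁) (P : Ori (FreeGroup X) → Prop) (b : P V₀)
    (s : ∀ V Z, IsV (cl W) N V → P V → Adj V Z → V.s Z = V₀.s Z → V.s Z ≠ V₁.s Z →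
      (∀ Y, V.s Y = V₀.s Y ∨ V.s Y = V₁.s Y) → P (vz (cl W) N Z (V₁.s Z))) : P V₁ := by
  have key : ∀ (n : ℕ) (V : Ori (FreeGroup X)), IsV (cl W) N V → P V →
      (∀ Y, V.s Y = V₀.s Y ∨ V.s Y = V₁.s Y) → {Z | V.s Z ≠ V₁.s Z}.ncard < n → P V₁ := by
    intro n
    induction n with
    | zero => intro V _ _ _ h; omega
    | succ n ih =>
      intro V hV hP hI hn
      by_cases e : V = V₁
      · exact e ▸ hP
      obtain ⟨Z, hZ, q⟩ := ex_first hb hN hV h₁ e
      have hZN := hV.mem hZ.1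
      refine ih _ (vz_isV hb hN hZN (h₁.isAt Z hZN))
        (s V Z hV hP hZ ((hI Z).resolve_right q) q hI) (fun Y => ?_) ?_
      · by_cases r : Y = Z
        · rw [r, vz_self]
          exact .inr rfl
        · rw [vz_step hb hN hV hZ _ r]
          exact hI Y
      · refine lt_of_lt_of_le (Set.ncard_lt_ncard ⟨fun Y hY => ?_, fun r => ?_⟩
          (sepV_fin hb hN hV h₁)) (Nat.le_of_lt_succ hn)
        · have r : Y ≠ Z := by
            rintro rfl
            exact hY (vz_self _ _)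
          rw [Set.mem_ofPred_eq, vz_step hb hN hV hZ _ r] at hY
          exact hY
        · exact r q (vz_self _ _)
  exact key _ V₀ h₀ b (fun Y => .inl rfl) (Nat.lt_succ_self _)

theorem vx_eq_iff (hV : IsV (cl W) N V) : vx (cl W) N x = V ↔ ∀ Z, x ∈ V.s Z := by
  refine ⟨fun e Z => e ▸ Vert1_mem_vx x Z, fun h => ?_⟩
  ext Z : 2
  by_cases hZ : Z ∈ N
  · rw [vx_of_mem hZ, ← (hV.isAt Z hZ).eq (h Z)]
  · rw [vx_of_not hZ, hV.out Z hZ]

theorem far_cover (hb : Bx W) (hN : Fam (cl W) N) (hV : IsV (cl W) N V) (e : vx (cl W) N x ≠ V) :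
    ∃ Z, Adj V Z ∧ x ∉ V.s Z := by
  have : ¬ ∀ Z, x ∈ V.s Z := fun q => e ((vx_eq_iff hV).2 q)
  push Not at this
  obtain ⟨Z, hZ⟩ := this
  obtain ⟨Y, h1, h2⟩ := adj_above hb hN hV (hV.mem fun q : V.s Z = Set.univ => hZ (q ▸ trivial))
  exact ⟨Y, h1, fun q => hZ (h2 q)⟩

theorem fix_end (hb : Bx W) (hN : Fam (cl W) N) (hV : IsV (cl W) N V) (e : g ∈ GV (cl W) V)
    (hZ : Z ∈ N) (f : g ∉ Z) : Ev (V.s Z) g := by
  have hZa := (hN.sp Z hZ).1
  refine (cut_ev hb hZa (hV.cut hb hN hZ) f).resolve_right fun q => ?_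
  have hinf : {n : ℕ | g ^ n * 1 ∈ (V.s Z)ᶜ}.Infinite :=
    Nat.frequently_atTop_iff_infinite.1 (q 1).frequently
  have key : ∀ n m : ℕ, n < m → tl (cl W) (g ^ n)⁻¹ • Z ≠ tl (cl W) (g ^ m)⁻¹ • Z := by
    intro n m hnm r
    obtain ⟨d, rfl⟩ := Nat.exists_eq_add_of_lt hnm
    have r' := congrArg (fun Y => tl (cl W) (g ^ (n + d + 1)) • Y) r
    simp only [← mul_smul, ← map_mul, mul_inv_cancel, map_one, one_smul] at r'
    have : g ^ (n + d + 1) * (g ^ n)⁻¹ = g ^ (d + 1) := by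
      rw [add_assoc, add_comm, pow_add, mul_inv_cancel_right]
    rw [this] at r'
    exact f (hZa.root (Nat.succ_pos d) (hZa.norm.1 r'))
  obtain ⟨n, -, m, -, hnm, r⟩ := hinf.exists_ne_map_eq_of_mapsTo
    (f := fun n : ℕ => tl (cl W) (g ^ n)⁻¹ • Z) (t := {Y | (1 : FreeGroup X) ∉ V.s Y})
    (fun n hn c => hn (by
      rw [GV_smul_s (inv_mem (pow_mem e n)), mem_smul', inv_inv] at c
      exact c)) (hV.fin 1)
  rcases hnm.lt_or_gt with c | c
  · exact key n m c r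
  · exact key m n c r.symm

theorem fix_nc (hb : Bx W) (hN : Fam (cl W) N) (hV : IsV (cl W) N V) (e : g ∈ GV (cl W) V)
    (f : g ≠ 1) (hZ : Z ∈ N) : ¬ Crs (cl W) Z (cen g) := by
  intro h
  have hZa := (hN.sp Z hZ).1
  have n := h.not_mem hZa (ax_cen f) (self_mem_cen g) f
  have e1 := fix_end hb hN hV e hZ n
  have e2 := fix_end hb hN hV (inv_mem e) hZ fun q => n (by simpa using inv_mem q)
  obtain ⟨-, c, hc, A, hA, a, b⟩ := h
  have hc1 : c ≠ 1 := by
    rintro rfl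
    exact a.not_compl (by simpa using b)
  have hs : Sep A (cen g) := ⟨c, hc, hc1, a, b⟩
  rcases (hV.isAt Z hZ).mono hA with q | q <;>
    rcases hs.ev (ax_cen f) (self_mem_cen g) f with ⟨r, r'⟩ | ⟨r, r'⟩
  · exact (e2.mono q).not_compl r'
  · exact (e1.mono q).not_compl r
  · exact r.not_compl (e1.mono q)
  · exact r'.not_compl (e2.mono q)

theorem fix_adj (hb : Bx W) (hN : Fam (cl W) N) (hV : IsV (cl W) N V) (e : g ∈ GV (cl W) V)
    (f : g ≠ 1) (hZ : cen g ∈ N) : Adj V (cen g) := by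
  refine ⟨Vert1_ne hN hV hZ, fun Y q => ?_⟩
  by_contra r
  have hY : Y ∈ N := hV.mem fun c => Vert1_ne hN hV hZ (Set.eq_univ_of_univ_subset (c ▸ q))
  have n : g ∉ Y := fun c => r ((hN.sp Y hY).1.eq_cen c f).symm
  exact Vert1_ne hN hV hZ (one_sided hb (ax_cen f) (hV.cut hb hN hZ) (self_mem_cen g) f
    ((fix_end hb hN hV e hY n).mono q))

theorem fix_uniq (hb : Bx W) (hN : Fam (cl W) N) (hV : IsV (cl W) N V) (hV' : IsV (cl W) N V')
    (e : g ∈ GV (cl W) V) (e' : g ∈ GV (cl W) V') (f : g ≠ 1) (hZ : cen g ∉ N) : V = V' := by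
  ext Y : 2
  by_cases hY : Y ∈ N
  · have n : g ∉ Y := fun c => hZ ((hN.sp Y hY).1.eq_cen c f ▸ hY)
    obtain ⟨p, a, b⟩ := ((fix_end hb hN hV e hY n).inter (fix_end hb hN hV' e' hY n)).nonempty
    exact Vert1_eq hV hV' a b
  · rw [hV.out Y hY, hV'.out Y hY]

theorem fix_root_GV (hb : Bx W) (hN : Fam (cl W) N) (hV : IsV (cl W) N V) (e : g ∈ GV (cl W) V)
    (f : g ≠ 1) (hZ : cen g ∉ N) : cen g ≤ GV (cl W) V := by
  intro c hc
  have h1 : g ∈ GV (cl W) (tl (cl W) c • V) := by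
    have := (lin_mem_GV (tl (cl W) c)).2 e
    rwa [lin_tl, MulAut.conj_apply, (mem_cen.1 hc).eq, mul_inv_cancel_right] at this
  exact mem_GV.2 (fix_uniq hb hN (hV.smul (hN.pres c)) hV h1 e f hZ)

theorem lies (hb : Bx W) (hN : Fam (cl W) N) (hZ : Ax Z) (e : Z ∉ N)
    (h : ∀ Y ∈ N, ¬ Crs (cl W) Y Z) : ∃ V, IsV (cl W) N V ∧ Z ≤ GV (cl W) V := by
  refine ⟨vz (cl W) N Z Set.univ, ⟨fun Y hY => ?_, fun Y hY => ?_, fun Y Y' => ?_,
    Vert1_vz_fin hb hN hZ h _⟩, fun c hc => ?_⟩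
  · have r : Y ≠ Z := fun q => e (q ▸ hY)
    rw [vz_of_mem r hY]
    exact en_isAt hb (hN.sp Y hY).1 hZ r (h Y hY)
  · by_cases r : Y = Z
    · rw [r, vz_self]
    · exact vz_of_not r hY _
  · obtain ⟨z, hz, hzZ⟩ := id hZ
    have hm : z ∈ Z := hzZ ▸ self_mem_cen z
    have key : ∀ Y, Ev ((vz (cl W) N Z Set.univ).s Y) z := by
      intro Y
      by_cases r : Y = Z
      · rw [r, vz_self]
        exact Vert1_ev_univ z
      · exact Vert1_ev hb hN hZ h _ hm hz r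
    exact ((key Y).inter (key Y')).nonempty
  · rw [mem_GV, vz_smul (hN.pres c), hZ.norm.2 hc, Set.smul_set_univ]

theorem mem_GV_adj (hb : Bx W) (hN : Fam (cl W) N) (hV : IsV (cl W) N V) (h : Adj V Z) (e : g ∈ Z) :
    g ∈ GV (cl W) V ↔ g • V.s Z = V.s Z := by
  have hn : tl (cl W) g • Z = Z := (hN.sp Z (hV.mem h.1)).1.norm.2 e
  refine ⟨fun q => ?_, fun q => ?_⟩
  · rw [← GV_smul_s q, hn]
  · rw [mem_GV]
    conv_lhs => rw [adj_eq hb hN hV h, vz_smul (hN.pres g), hn, tl_set, q]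
    exact (adj_eq hb hN hV h).symm

theorem adj_pow (hb : Bx W) (hN : Fam (cl W) N) (hV : IsV (cl W) N V) (h : Adj V Z) (e : g ∈ Z) :
    ∃ m : ℕ, 0 < m ∧ g ^ m ∈ GV (cl W) V := by
  have hZ := hV.mem h.1
  obtain ⟨m, hm, q⟩ := cut_pow hb (hN.sp Z hZ).1 e
  exact ⟨m, hm, (mem_GV_adj hb hN hV h (pow_mem e m)).2 (q _ (hV.cut hb hN hZ))⟩

/-- no member of the family lies between two adjacent axes -/
theorem no_between (hb : Bx W) (hN : Fam (cl W) N) (hV : IsV (cl W) N V) (h : Adj V Z)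
    (h' : Adj V Z') (hY : Y ∈ N) (hA : Cut (cl W) Y A) (a : (V.s Z')ᶜ ⊆ A) (b : A ⊆ V.s Z) :
    Y = Z ∨ Y = Z' := by
  rcases (hV.isAt Y hY).mono hA with q | q
  · exact .inl (h.2 Y (q.trans b))
  · exact .inr (h'.2 Y (q.trans (Set.compl_subset_comm.1 a)))

end Pool.Agent.Work.MP_3bdf32_al
end

-- merged part: Pool.Agent.Work.MP_3bdf32_al.Blk1
section
/-! Counting the translates of a crossing axis. -/

namespace Pool.Agent.Work.MP_3bdf32_al

set_option linter.unusedSectionVars false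
set_option linter.unusedVariables false

open Subgroup MulAction Filter
open scoped Pointwise

variable {X : Type} [Fintype X] [DecidableEq X] {W : List (FreeGroup X)}
  {Z Z' Y : Subgroup (FreeGroup X)} {A A' B C C' U : Set (FreeGroup X)} {g x y : FreeGroup X}
  {z d : FreeGroup X} {a : ℤ → FreeGroup X} {l : ℤ}

theorem Blk1_close {z' : FreeGroup X} {a' : ℤ → FreeGroup X} (ha : AxL z a l) (ha' : AxL z' a' l)
    (c : ¬ Commute z z') {p q : ℤ} (e : Pos a z'⁻¹ p) (f : Pos a z' q) : q - p ≤ 2 * l := by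
  by_contra hc
  have := ha.2.1
  obtain ⟨t, ht⟩ := Pos.share ha.1 ha' e f (by omega)
  exact c (ha.overlap ha' p fun i h1 h2 => ⟨_, ht i h1 (by omega)⟩)

/-- the far side of a translate of a simple axis has bounded projection -/
theorem far_proj (hb : Bx W) (h : Simp (cl W) (cen z)) (ha : AxL z a l)
    (hZ : Z ∈ orb (cl W) (cen z)) (e : Z ≠ cen z) : ∃ p : ℤ,
      (∀ x, x ∉ en (cl W) Z (cen z) → |pr a x - p| ≤ 2 * l) ∧
      ∀ g ∈ Z, g ≠ 1 → ∃ q, Pos a g q ∧ |q - p| ≤ 2 * l := by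
  have nc : ¬ Crs (cl W) Z (cen z) := h.fam.nc Z hZ _ (mem_orb _)
  obtain ⟨k, rfl⟩ := hZ
  rw [tl_cen] at e nc ⊢
  have ha' := ha.conj k
  generalize k * z * k⁻¹ = z' at *
  have az : Ax (cen z) := ax_cen ha.ne
  have az' : Ax (cen z') := ax_cen ha'.ne
  have c : ¬ Commute z z' := fun c => e (az.eq_cen (mem_cen.2 c.symm) ha'.ne)
  have c' : ¬ Commute z z'⁻¹ := fun k => c (by simpa using k)
  obtain ⟨p, hp⟩ := ha.pos c'
  obtain ⟨q, hq⟩ := ha.pos c
  have b1 := Blk1_close ha ha' c hp hq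
  have b2 := Blk1_close ha ha'.inv c' (by rwa [inv_inv]) hp
  have hl0 := ha.2.1
  refine ⟨p, fun x hx => ?_, fun g hg g1 => ?_⟩
  · have cut := (en_isAt hb az' az e nc).cut hb az'
    have key : ∀ U, HT U → Ev Uᶜ z' → Ev Uᶜ z'⁻¹ → ∀ w ∈ cen z, w ≠ 1 → Ev U w → x ∉ U := by
      intro U hU e1 e2 w hw w1 e3 hxU
      obtain ⟨y, y1, y2⟩ := (e3.inter (en_ev hb az' az e nc hw w1)).nonempty
      exact hx (((cut_mono hb az' cut hU (self_mem_cen z') ha'.ne e1 e2).iff y1 hxU).1 y2)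
    have k1 := key _ (ha.1.ht (max p q)) ((hq.ev ha.1 _).2.2 (le_max_right _ _))
      ((hp.ev ha.1 _).2.2 (le_max_left _ _)) z (self_mem_cen z) ha.ne (ha.ev _)
    have k2 := key _ (ha.1.ht (min p q - 1)).compl
      (by rw [compl_compl]; exact (hq.ev ha.1 _).1.2 (by omega))
      (by rw [compl_compl]; exact (hp.ev ha.1 _).1.2 (by omega)) z⁻¹
      ((cen z).inv_mem (self_mem_cen z)) (inv_ne_one.2 ha.ne) (ha.ev_inv _)
    rw [Set.mem_compl_iff, not_not, ha.1.mem_hl] at k2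
    rw [ha.1.mem_hl] at k1
    exact abs_le.2 ⟨by omega, by omega⟩
  · rcases az'.ends hg (self_mem_cen z') g1 ha'.ne with k | k
    · exact ⟨q, (k.1 {y | pr a y = q}).2 hq, abs_le.2 ⟨by omega, by omega⟩⟩
    · exact ⟨p, (k.1 {y | pr a y = p}).2 hp, by rw [sub_self, abs_zero]; omega⟩

theorem Blk1_int {l : ℤ} (hl : 0 < l) (A B : ℤ) :
    ∃ J : Finset ℤ, (∀ j ∈ J, A ≤ j * l ∧ j * l < B) ∧ B - A - 2 * l ≤ l * J.card := by
  have a1 := Int.lt_ediv_add_one_mul_self A hl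
  have a2 := Int.ediv_mul_le A hl.ne'
  have b1 := Int.lt_ediv_add_one_mul_self B hl
  have b2 := Int.ediv_mul_le B hl.ne'
  refine ⟨Finset.Ico (A / l + 1) (B / l), fun j hj => ?_, ?_⟩
  · rw [Finset.mem_Ico] at hj
    have h1 := mul_le_mul_of_nonneg_right hj.1 hl.le
    have h2 := mul_lt_mul_of_pos_right hj.2 hl
    exact ⟨by linarith, by linarith⟩
  · rw [Int.card_Ico]
    have := mul_le_mul_of_nonneg_left (Int.self_le_toNat (B / l - (A / l + 1))) hl.le
    linarith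

/-- a cut squeezed far from the two projections does not separate the ends of another translate -/
theorem Blk1_nosep (hb : Bx W) (h : Simp (cl W) (cen z)) (ha : AxL z a l)
    (hZ : Z ∈ orb (cl W) (cen z)) (e : Z ≠ cen z) (n : ¬ Eqv (cl W) Z x y) {α β : ℤ}
    (s1 : hl a α ⊆ A) (s2 : A ⊆ hl a β) (b1 : min (pr a x) (pr a y) + 4 * l ≤ β)
    (b2 : α < max (pr a x) (pr a y) - 4 * l) (hg : g ∈ Z) (g1 : g ≠ 1) (e1 : Ev A g)
    (e2 : Ev Aᶜ g⁻¹) : False := by
  obtain ⟨p, h1, h2⟩ := far_proj hb h ha hZ e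
  have aZ : Ax Z := (h.fam.sp Z hZ).1
  have at1 := en_isAt hb aZ (ax_cen ha.ne) e (h.fam.nc Z hZ _ (mem_orb _))
  have k : |pr a x - p| ≤ 2 * l ∨ |pr a y - p| ≤ 2 * l := by
    by_contra hc
    push Not at hc
    have hx : x ∈ en (cl W) Z (cen z) := by
      by_contra m
      exact absurd (h1 x m) (not_le.2 hc.1)
    have hy : y ∈ en (cl W) Z (cen z) := by
      by_contra m
      exact absurd (h1 y m) (not_le.2 hc.2)
    rw [at1.eq hx] at hy
    exact n hy
  obtain ⟨q, q1, q2⟩ := h2 g hg g1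
  obtain ⟨q', q1', q2'⟩ := h2 g⁻¹ (Z.inv_mem hg) (inv_ne_one.2 g1)
  have c1 : β < q := (q1.ev ha.1 β).1.1 (e1.mono s2)
  have c2 : q' ≤ α := (q1'.ev ha.1 α).2.1 (e2.mono (Set.compl_subset_compl.2 s1))
  rw [abs_le] at q2 q2'
  rw [abs_le, abs_le] at k
  omega

/-- many translates of a crossing axis separate points whose projections are far apart -/
theorem cnt_cross (hb : Bx W) (h : Simp (cl W) (cen z)) (ha : AxL z a l) (hd : Sp (cl W) (cen d))
    (c : OCr (cl W) z d) : ∃ c₀ : ℤ, 0 ≤ c₀ ∧ ∀ (g : FreeGroup X) (S : Finset (FreeGroup X)),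
      (∀ k ∈ S, ¬ Eqv (cl W) (tl (cl W) k • cen z) 1 g) →
      (∀ k ∈ S, ∀ k' ∈ S, tl (cl W) k • cen z = tl (cl W) k' • cen z → k = k') →
      ∑ k ∈ S, |pr a (k⁻¹ * g) - pr a k⁻¹| ≤ l * (xn (cl W) (cen d) g + c₀ * S.card) := by
  classical
  obtain ⟨k₀, c⟩ := c
  have az : Ax (cen z) := ax_cen ha.ne
  have o₀ : tl (cl W) k₀ • cen d ∈ orb (cl W) (cen d) := ⟨k₀, rfl⟩
  have s₀ := hd.smul (tl (cl W) k₀)
  generalize tl (cl W) k₀ • cen d = d₀ at c o₀ s₀
  obtain ⟨D, hD, e1, e2⟩ : ∃ D, Two (cl W) d₀ D ∧ Ev D z ∧ Ev Dᶜ z⁻¹ := by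
    obtain ⟨D, hD, s⟩ := crs_two hb az s₀ c
    rcases s.ev az (self_mem_cen z) ha.ne with k | k
    · exact ⟨D, hD, k⟩
    · exact ⟨Dᶜ, hD.compl, k.1, by rw [compl_compl]; exact k.2⟩
  have zn : z ∉ d₀ := fun m => c.1 (az.inter s₀.1 (self_mem_cen z) m ha.ne)
  obtain ⟨α, hα⟩ := cut_hl_sub hb s₀.1 hD.1 zn ha e1
  obtain ⟨β, hβ⟩ : ∃ β, D ⊆ hl a β := by
    obtain ⟨i, hi⟩ := cut_hl_sub hb s₀.1 hD.1.compl (fun m => zn (by simpa using m)) ha.inv e2
    rw [ha.1.hl_rev] at hi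
    exact ⟨_, Set.compl_subset_compl.1 hi⟩
  have βα : β ≤ α := ha.1.hl_anti.1 (hα.trans hβ)
  have hl0 := ha.2.1
  have sα : ∀ j : ℤ, hl a (α + j * l) ⊆ z ^ j • D := fun j => by
    rw [← ha.hl_zpow]
    exact Set.smul_set_mono hα
  have sβ : ∀ j : ℤ, z ^ j • D ⊆ hl a (β + j * l) := fun j => by
    rw [← ha.hl_zpow]
    exact Set.smul_set_mono hβ
  refine ⟨10 + (α - β), by omega, fun g S h1 h2 => ?_⟩
  choose J hJ cJ using fun k : FreeGroup X => Blk1_int hl0
    (min (pr a k⁻¹) (pr a (k⁻¹ * g)) + 4 * l - β) (max (pr a k⁻¹) (pr a (k⁻¹ * g)) - 4 * l - α)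
  have two : ∀ (k : FreeGroup X) (j : ℤ),
      Two (cl W) (tl (cl W) (k * z ^ j) • d₀) (k • z ^ j • D) := fun k j => by
    rw [← mul_smul]
    exact hD.smul' _
  have inj : (S.sigma J).card ≤ xn (cl W) (cen d) g := by
    rw [xn, ← Set.ncard_coe_finset]
    refine Set.ncard_le_ncard_of_injOn (fun p => tl (cl W) (p.1 * z ^ p.2) • d₀) ?_ ?_
      (orb_lf hb hd.1 1 g)
    · rintro ⟨k, j⟩ hp
      obtain ⟨b1, b2⟩ := hJ k j (Finset.mem_sigma.1 hp).2
      refine ⟨orb_tl o₀ _, fun eq => ?_⟩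
      have := eq _ (two k j).1
      rw [mem_smul', mem_smul' (k := k), mul_one] at this
      have m1 : ∀ w, α + j * l < pr a w → w ∈ z ^ j • D := fun w hw => sα j (ha.1.mem_hl.2 hw)
      have m2 : ∀ w, w ∈ z ^ j • D → β + j * l < pr a w := fun w hw => ha.1.mem_hl.1 (sβ j hw)
      rcases le_total (pr a k⁻¹) (pr a (k⁻¹ * g)) with o | o
      · have := m2 _ (this.2 (m1 _ (by omega)))
        omega
      · have := m2 _ (this.1 (m1 _ (by omega)))
        omega
    · rintro ⟨k, j⟩ hp ⟨k', j'⟩ hp' eq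
      obtain ⟨hk, hj⟩ := Finset.mem_sigma.1 hp
      obtain ⟨hk', -⟩ := Finset.mem_sigma.1 hp'
      dsimp only at eq hk hj hk'
      by_cases ek : k = k'
      · subst ek
        rw [← inv_smul_eq_iff, ← map_inv, ← mul_smul, ← map_mul, s₀.1.norm,
          show (k * z ^ j')⁻¹ * (k * z ^ j) = z ^ (j - j') by group] at eq
        by_cases ej : j - j' = 0
        · rw [sub_eq_zero.1 ej]
        · exact (c.1 (az.inter s₀.1 (zpow_mem (self_mem_cen z) _) eq
            fun m => ha.ne (zpow_eq_one ej m))).elim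
      · exfalso
        obtain ⟨b1, b2⟩ := hJ k j hj
        have ne : tl (cl W) (k⁻¹ * k') • cen z ≠ cen z := fun m => ek (h2 k hk k' hk' (by
          rw [map_mul, mul_smul, map_inv, inv_smul_eq_iff] at m
          exact m.symm))
        have nq : ¬ Eqv (cl W) (tl (cl W) (k⁻¹ * k') • cen z) k⁻¹ (k⁻¹ * g) := fun m =>
          h1 k' hk' (by simpa [← mul_smul, ← map_mul] using m.smul (tl (cl W) k))
        have mw : k⁻¹ * k' * z * (k⁻¹ * k')⁻¹ ∈ tl (cl W) (k⁻¹ * k') • cen z := by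
          rw [tl_cen]
          exact self_mem_cen _
        have w1 : k⁻¹ * k' * z * (k⁻¹ * k')⁻¹ ≠ 1 := (ha.conj _).ne
        have cz : Commute (z ^ j') z := (Commute.refl z).zpow_left j'
        have f1 := (e1.smul_comm cz).smul' (k⁻¹ * k')
        have f2 := (e2.smul_comm cz.inv_right).smul' (k⁻¹ * k')
        have ei : k⁻¹ * k' * z⁻¹ * (k⁻¹ * k')⁻¹ = (k⁻¹ * k' * z * (k⁻¹ * k')⁻¹)⁻¹ := by group
        rw [smul_compl', smul_compl', ei] at f2
        have t' := two k' j'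
        rw [← eq] at t'
        have ns := fun w hw w1 => Blk1_nosep (g := w) hb h ha ⟨_, rfl⟩ ne nq (sα j) (sβ j)
          (by omega) (by omega) hw w1
        rw [mul_smul] at f1 f2
        rcases (two k j).eq t'.1 t'.2.1 t'.2.2.1 with m | m
        · rw [m, inv_smul_smul] at f1 f2
          exact ns _ mw w1 f1 f2
        · rw [m, smul_compl', inv_smul_smul] at f1 f2
          rw [compl_compl] at f2
          exact ns _ (Subgroup.inv_mem _ mw) (inv_ne_one.2 w1) f2 (by rwa [inv_inv])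
  have le : ∀ k ∈ S, |pr a (k⁻¹ * g) - pr a k⁻¹| ≤ l * ((J k).card + (10 + (α - β))) := by
    intro k _
    have := cJ k
    have := le_mul_of_one_le_left (sub_nonneg.2 βα) (show (1 : ℤ) ≤ l from hl0)
    rw [mul_add, mul_add]
    exact abs_le.2 ⟨by omega, by omega⟩
  refine (Finset.sum_le_sum le).trans ?_
  rw [← Finset.mul_sum, Finset.sum_add_distrib, Finset.sum_const, nsmul_eq_mul, mul_comm (S.card : ℤ)]
  refine mul_le_mul_of_nonneg_left (add_le_add_left ?_ _) hl0.le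
  rw [Finset.card_sigma] at inj
  exact_mod_cast inj

end Pool.Agent.Work.MP_3bdf32_al
end

-- merged part: Pool.Agent.Work.MP_3bdf32_al.TS1
section
/-! The certificate for splittings: the cocycle and the cut. -/

namespace Pool.Agent.Work.MP_3bdf32_al

set_option linter.unusedSectionVars false
set_option linter.unusedVariables false

open Subgroup MulAction Filter
open scoped Pointwise

variable {X : Type} [Fintype X] [DecidableEq X] {W : List (FreeGroup X)}
  {z d g : FreeGroup X} {ρ : X → List (FreeGroup X × Bool)} {T : MulAut (FreeGroup X)}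

theorem TS1_io (z g : FreeGroup X) : PiZ z (io g) = SemidirectProduct.inr g := by
  have : (PiZ z).comp io = SemidirectProduct.inr :=
    FreeGroup.ext_hom _ _ fun x => by simp [PiZ, io]
  exact DFunLike.congr_fun this g

theorem TS1_zet (z : FreeGroup X) :
    PiZ z zet = SemidirectProduct.inl (FreeGroup.of ((1 : FreeGroup X) : _ ⧸ zpowers z)) := by
  simp [PiZ, zet]

theorem TS1_ac (z k a : FreeGroup X) : ac z k (FreeGroup.of (a : _ ⧸ zpowers z)) =
    FreeGroup.of ((k * a : FreeGroup X) : _ ⧸ zpowers z) := rfl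

theorem TS1_conj (z k : FreeGroup X) : PiZ z (io k * zet * (io k)⁻¹) =
    SemidirectProduct.inl (FreeGroup.of (k : _ ⧸ zpowers z)) := by
  rw [map_mul, map_mul, map_inv, TS1_io, TS1_zet, ← map_inv, ← SemidirectProduct.inl_aut, TS1_ac,
    mul_one]

theorem TS1_one (z k : FreeGroup X) :
    (k : _ ⧸ zpowers z) = ((1 : FreeGroup X) : _ ⧸ zpowers z) ↔ k ∈ zpowers z := by
  rw [eq_comm, QuotientGroup.eq, inv_one, one_mul]

/-- a homomorphism out of the quotient -/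
theorem TS1_lift {Γ : Type} [Group Γ] (z : FreeGroup X) (f : FreeGroup (Option X) →* Γ)
    (c : Commute (f (io z)) (f zet)) :
    ∃ ψ : Kz z ⋊[ac z] FreeGroup X →* Γ, ∀ u, ψ (PiZ z u) = f u := by
  let f₁ : Kz z →* Γ := FreeGroup.lift fun q => Quotient.liftOn' q
    (fun k => f (io k) * f zet * (f (io k))⁻¹) fun a b h => by
      obtain ⟨n, e⟩ := mem_zpowers_iff.1 (QuotientGroup.leftRel_apply.1 h)
      have : b = a * z ^ n := by rw [e]; group
      rw [this, map_mul, map_mul, map_zpow, map_zpow, mul_assoc (f (io a)) _ (f zet),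
        (c.zpow_left n).eq]
      group
  have e₁ : ∀ k : FreeGroup X, f₁ (FreeGroup.of (k : _ ⧸ zpowers z)) =
      f (io k) * f zet * (f (io k))⁻¹ := fun k => FreeGroup.lift_apply_of
  have h : ∀ g, f₁.comp (ac z g).toMonoidHom =
      (MulAut.conj (f.comp io g)).toMonoidHom.comp f₁ := fun g =>
    FreeGroup.ext_hom _ _ fun q => by
      induction q using QuotientGroup.induction_on with | H k => ?_
      change f₁ (ac z g (FreeGroup.of (k : _ ⧸ zpowers z))) =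
        f (io g) * f₁ (FreeGroup.of (k : _ ⧸ zpowers z)) * (f (io g))⁻¹
      rw [TS1_ac, e₁, e₁, map_mul, map_mul]
      group
  have e : (SemidirectProduct.lift f₁ (f.comp io) h).comp (PiZ z) = f :=
    FreeGroup.ext_hom _ _ fun o => by
      cases o with
      | none =>
        change SemidirectProduct.lift _ _ h (PiZ z zet) = f zet
        rw [TS1_zet, SemidirectProduct.lift_inl, e₁]; simp
      | some x =>
        change SemidirectProduct.lift _ _ h (PiZ z (io (FreeGroup.of x))) =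
          f (io (FreeGroup.of x))
        rw [TS1_io, SemidirectProduct.lift_inr]; rfl
  exact ⟨SemidirectProduct.lift f₁ (f.comp io) h, DFunLike.congr_fun e⟩

theorem cg_iff {u v : FreeGroup (Option X)} : Cg z u v ↔ PiZ z u = PiZ z v := by
  constructor
  · intro h
    have : normalClosure {io z * zet * (io z)⁻¹ * zet⁻¹} ≤ (PiZ z).ker :=
      normalClosure_le_normal (by
        rintro _ rfl
        change PiZ z _ = 1
        rw [map_mul, TS1_conj, map_inv, TS1_zet, (TS1_one z z).2 (mem_zpowers z), mul_inv_cancel])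
    have e := this h
    rwa [MonoidHom.mem_ker, map_mul, map_inv, inv_mul_eq_one] at e
  · intro h
    obtain ⟨ψ, e⟩ := TS1_lift z
      (QuotientGroup.mk' (normalClosure {io z * zet * (io z)⁻¹ * zet⁻¹})) (by
        rw [← commutatorElement_eq_one_iff_commute, ← map_commutatorElement]
        exact (QuotientGroup.eq_one_iff _).2 (subset_normalClosure rfl))
    have := e u
    rw [h, e v] at this
    exact QuotientGroup.eq.1 this.symm

theorem PiZ_io (z g : FreeGroup X) : PiZ z (io g) = SemidirectProduct.inr g := TS1_io z g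

theorem PiZ_wd (z : FreeGroup X) (l : List (FreeGroup X × Bool)) : PiZ z (wd l) =
    SemidirectProduct.inl (l.map fun p => if p.2 then FreeGroup.of (p.1 : _ ⧸ zpowers z)
      else (FreeGroup.of (p.1 : _ ⧸ zpowers z))⁻¹).prod := by
  induction l with
  | nil => simp [wd]
  | cons p l ih =>
    have : wd (p :: l) = io p.1 * (if p.2 then zet else zet⁻¹) * (io p.1)⁻¹ * wd l := by
      simp [wd]
    rw [this, map_mul, ih, List.map_cons, List.prod_cons, map_mul SemidirectProduct.inl]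
    congr 1
    obtain ⟨k, b⟩ := p
    cases b
    · have : io k * zet⁻¹ * (io k)⁻¹ = (io k * zet * (io k)⁻¹)⁻¹ := by group
      simp only [Bool.false_eq_true, if_false]
      rw [this, map_inv, TS1_conj, map_inv]
    · exact TS1_conj z k

/-- the cocycle -/
def coc (z : FreeGroup X) (ρ : X → List (FreeGroup X × Bool)) (g : FreeGroup X) : Kz z :=
  (PiZ z (rho ρ g)).left

theorem PiZ_rho_right (z : FreeGroup X) (ρ : X → List (FreeGroup X × Bool)) (g : FreeGroup X) :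
    (PiZ z (rho ρ g)).right = g := by
  have : SemidirectProduct.rightHom.comp ((PiZ z).comp (rho ρ)) = MonoidHom.id _ :=
    FreeGroup.ext_hom _ _ fun x => by
      simp only [MonoidHom.comp_apply, rho, FreeGroup.lift_apply_of, map_mul, PiZ_wd, PiZ_io,
        SemidirectProduct.rightHom_inl, SemidirectProduct.rightHom_inr, one_mul,
        MonoidHom.id_apply]
  exact DFunLike.congr_fun this g

theorem coc_mul (z : FreeGroup X) (ρ : X → List (FreeGroup X × Bool)) (g g' : FreeGroup X) :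
    coc z ρ (g * g') = coc z ρ g * ac z g (coc z ρ g') := by
  simp only [coc, map_mul, SemidirectProduct.mul_left, PiZ_rho_right]

open Classical in
/-- the exponent sum of the trivial coset -/
noncomputable def ez (z : FreeGroup X) : Kz z →* Multiplicative ℤ :=
  FreeGroup.lift fun q => if q = ((1 : FreeGroup X) : _ ⧸ zpowers z) then
    Multiplicative.ofAdd 1 else 1

theorem TS1_ez_mem {k : FreeGroup X} (h : k ∈ zpowers z) :
    ez z (FreeGroup.of (k : _ ⧸ zpowers z)) = Multiplicative.ofAdd 1 := by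
  rw [ez, FreeGroup.lift_apply_of, if_pos ((TS1_one z k).2 h)]

theorem TS1_ez_not {k : FreeGroup X} (h : k ∉ zpowers z) :
    ez z (FreeGroup.of (k : _ ⧸ zpowers z)) = 1 := by
  rw [ez, FreeGroup.lift_apply_of, if_neg fun e => h ((TS1_one z k).1 e)]

theorem TS1_right (z : FreeGroup X) (u : FreeGroup (Option X)) : (PiZ z u).right = piz 1 u := by
  have : SemidirectProduct.rightHom.comp (PiZ z) = piz 1 :=
    FreeGroup.ext_hom _ _ fun o => by cases o <;> simp [PiZ, piz]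
  exact DFunLike.congr_fun this u

/-- the count on words -/
def TS1_cn (z : FreeGroup X) (b : Bool) (L : List (Option X × Bool)) : ℕ :=
  ((List.range L.length).filter fun i => L[i]? = some (none, b) ∧
    piz 1 (FreeGroup.mk (L.take i)) * z = z * piz 1 (FreeGroup.mk (L.take i))).length

theorem TS1_cn_snoc (z : FreeGroup X) (b : Bool) (L : List (Option X × Bool))
    (a : Option X × Bool) : TS1_cn z b (L ++ [a]) = TS1_cn z b L +
      if a = (none, b) ∧ piz 1 (FreeGroup.mk L) * z = z * piz 1 (FreeGroup.mk L) then 1 else 0 := by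
  rw [TS1_cn, TS1_cn, List.length_append, List.length_singleton, List.range_succ,
    List.filter_append, List.length_append]
  congr 1
  · congr 1
    refine List.filter_congr fun i hi => ?_
    have hi := List.mem_range.1 hi
    rw [List.getElem?_append_left hi, List.take_append_of_le_length hi.le]
  · simp only [List.filter_cons, List.filter_nil, List.getElem?_concat_length, Option.some.injEq,
      List.take_left', decide_eq_true_eq]
    split_ifs <;> rfl

theorem TS1_count (hz : zpowers z = cen z) (L : List (Option X × Bool)) :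
    ez z (PiZ z (FreeGroup.mk L)).left =
      Multiplicative.ofAdd ((TS1_cn z true L : ℤ) - TS1_cn z false L) := by
  induction L using List.reverseRecOn with
  | nil => simp [TS1_cn, ← FreeGroup.one_eq_mk]
  | append_singleton L a ih =>
    rw [← FreeGroup.mul_mk, map_mul, SemidirectProduct.mul_left, map_mul, ih, TS1_cn_snoc,
      TS1_cn_snoc, TS1_right]
    generalize piz 1 (FreeGroup.mk L) = r
    have hr : r * z = z * r ↔ r * 1 ∈ zpowers z := by rw [hz, mul_one, mem_cen]; rfl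
    have e : ∀ o : Option X, FreeGroup.mk [(o, false)] = (FreeGroup.of o)⁻¹ := fun o => rfl
    have e' : ∀ o : Option X, FreeGroup.mk [(o, true)] = FreeGroup.of o := fun o => rfl
    obtain ⟨_ | x, _ | _⟩ := a
    · rw [e, map_inv, ← zet, TS1_zet, ← map_inv, SemidirectProduct.left_inl, map_inv, TS1_ac,
        map_inv]
      by_cases c : r * z = z * r
      · rw [TS1_ez_mem (hr.1 c), ← ofAdd_neg, ← ofAdd_add]; congr 1; simp [c]; ring
      · rw [TS1_ez_not fun h => c (hr.2 h)]; simp [c]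
    · rw [e', ← zet, TS1_zet, SemidirectProduct.left_inl, TS1_ac]
      by_cases c : r * z = z * r
      · rw [TS1_ez_mem (hr.1 c), ← ofAdd_add]; congr 1; simp [c]; ring
      · rw [TS1_ez_not fun h => c (hr.2 h)]; simp [c]
    · have : (FreeGroup.of (some x))⁻¹ = io (FreeGroup.of x)⁻¹ := by simp [io]
      rw [e, this, PiZ_io]; simp
    · have : FreeGroup.of (some x) = io (FreeGroup.of x) := rfl
      rw [e', this, PiZ_io]; simp

theorem inA_iff (hz : zpowers z = cen z) : InA z ρ g ↔ ez z (coc z ρ g) ≠ 1 := by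
  have := TS1_count hz (rho ρ g).toWord
  rw [FreeGroup.mk_toWord] at this
  rw [coc, this, Ne, ofAdd_eq_one, sub_eq_zero, Nat.cast_inj]
  rfl

/-- the substitution of conjugates of `z` for the cosets -/
def sz (z : FreeGroup X) : Kz z →* FreeGroup X :=
  FreeGroup.lift fun q => Quotient.liftOn' q (fun k => k * z * k⁻¹) fun a b h => by
    obtain ⟨n, e⟩ := mem_zpowers_iff.1 (QuotientGroup.leftRel_apply.1 h)
    have : b = a * z ^ n := by rw [e]; group
    rw [this]; group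

theorem sz_of (z k : FreeGroup X) : sz z (FreeGroup.of (k : _ ⧸ zpowers z)) = k * z * k⁻¹ :=
  FreeGroup.lift_apply_of

theorem piz_eq (z : FreeGroup X) (u : FreeGroup (Option X)) :
    piz z u = sz z (PiZ z u).left * (PiZ z u).right := by
  have h : ∀ g, (sz z).comp (ac z g).toMonoidHom =
      (MulAut.conj (MonoidHom.id _ g)).toMonoidHom.comp (sz z) := fun g =>
    FreeGroup.ext_hom _ _ fun q => by
      induction q using QuotientGroup.induction_on with | H k => ?_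
      change sz z (ac z g (FreeGroup.of (k : _ ⧸ zpowers z))) =
        g * sz z (FreeGroup.of (k : _ ⧸ zpowers z)) * g⁻¹
      rw [TS1_ac, sz_of, sz_of]
      group
  have : piz z = (SemidirectProduct.lift (sz z) (MonoidHom.id _) h).comp (PiZ z) :=
    FreeGroup.ext_hom _ _ fun o => by
      cases o with
      | none =>
        change _ = SemidirectProduct.lift _ _ h (PiZ z zet)
        rw [TS1_zet, SemidirectProduct.lift_inl, sz_of]; simp [piz]
      | some x =>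
        change _ = SemidirectProduct.lift _ _ h (PiZ z (io (FreeGroup.of x)))
        rw [PiZ_io, SemidirectProduct.lift_inr]; simp [piz]
  exact DFunLike.congr_fun this u

theorem TS1_coc_one (z : FreeGroup X) (ρ : X → List (FreeGroup X × Bool)) : coc z ρ 1 = 1 := by
  simp [coc]

theorem TS1_coc_io (h : Cg z (rho ρ g) (io g)) : coc z ρ g = 1 := by
  rw [coc, cg_iff.1 h, PiZ_io, SemidirectProduct.left_inr]

theorem TS1_coc_mem (h : TS W z ρ) (e : g ∈ zpowers z) : coc z ρ g = 1 := by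
  obtain ⟨n, rfl⟩ := mem_zpowers_iff.1 e
  rw [coc, map_zpow, map_zpow, cg_iff.1 h.1, PiZ_io, ← map_zpow, SemidirectProduct.left_inr]

/-- a letter moves the cocycle along the edges given by `ρ` -/
theorem TS1_walk (h : TS W z ρ) (P : Kz z → Prop) (g : FreeGroup X) (x : X)
    (e : ∀ p ∈ ρ x, (P (coc z ρ (g * p.1)) ↔
      P (coc z ρ (g * p.1) * FreeGroup.of ((g * p.1 : FreeGroup X) : _ ⧸ zpowers z)))) :
    P (coc z ρ g) ↔ P (coc z ρ (g * FreeGroup.of x)) := by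
  let w : List (FreeGroup X × Bool) → Kz z := fun l =>
    (l.map fun p => if p.2 then FreeGroup.of (p.1 : _ ⧸ zpowers z)
      else (FreeGroup.of (p.1 : _ ⧸ zpowers z))⁻¹).prod
  have hw : ∀ l k, (PiZ z (wd l * io k)).left = w l := fun l k => by
    rw [map_mul, PiZ_wd, PiZ_io]; simp [w]
  have key : ∀ l₁ l₂, ρ x = l₁ ++ l₂ → (P (coc z ρ g) ↔ P (coc z ρ g * ac z g (w l₁))) := by
    intro l₁
    induction l₁ using List.reverseRecOn with
    | nil => intro _ _; simp [w]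
    | append_singleton l p ih =>
      intro l₂ f
      rw [List.append_assoc, List.singleton_append] at f
      have a : coc z ρ p.1 = w (if p.2 then l else l ++ [p]) := by
        rw [coc, cg_iff.1 (h.2.2 x l p l₂ f), hw]
      have b := e p (by simp [f])
      rw [coc_mul, ← TS1_ac, mul_assoc, ← map_mul, a] at b
      rw [ih _ f]
      obtain ⟨k, _ | _⟩ := p
      · have c : w (l ++ [(k, false)]) * FreeGroup.of (k : _ ⧸ zpowers z) = w l := by simp [w]
        simp only [Bool.false_eq_true, if_false, c] at b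
        exact b.symm
      · have c : w l * FreeGroup.of (k : _ ⧸ zpowers z) = w (l ++ [(k, true)]) := by simp [w]
        simp only [if_true, c] at b
        exact b
  have : coc z ρ (FreeGroup.of x) = w (ρ x) := by
    rw [coc, rho, FreeGroup.lift_apply_of, hw]
  rw [coc_mul, this]
  exact key _ [] (List.append_nil _).symm

theorem TS1_ind (P : FreeGroup X → Prop) (h : ∀ g x, P g ↔ P (g * FreeGroup.of x))
    (s g : FreeGroup X) : P g ↔ P (g * s) := by
  induction s using FreeGroup.induction_on generalizing g with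
  | C1 => rw [mul_one]
  | of x => exact h g x
  | inv_of x ih => rw [ih (g * (FreeGroup.of x)⁻¹), inv_mul_cancel_right]
  | mul a b ha hb => rw [ha g, hb, mul_assoc]

section side

variable [DecidableEq (FreeGroup X ⧸ zpowers z)]

theorem TS1_cd (u : Kz z) (q : FreeGroup X ⧸ zpowers z) : cd u (u * FreeGroup.of q) = 1 :=
  cd_one_iff.2 ⟨(q, true), by rw [lt_true]⟩

theorem TS1_norm (k : FreeGroup X) (u : Kz z) : (ac z k u).norm = u.norm := by
  have h : ∀ (k : FreeGroup X) (u : Kz z), (ac z k u).norm ≤ u.norm := fun k u => by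
    have : ac z k u = FreeGroup.mk (u.toWord.map fun x => (k • x.1, x.2)) := by
      conv_lhs => rw [← FreeGroup.mk_toWord (x := u)]
      rfl
    rw [this]
    exact FreeGroup.norm_mk_le.trans (by rw [List.length_map]; rfl)
  refine (h k u).antisymm ?_
  have := h k⁻¹ (ac z k u)
  rwa [← MulAut.mul_apply, ← map_mul, inv_mul_cancel, map_one, MulAut.one_apply] at this

theorem TS1_side_one (h : TS W z ρ) (g : FreeGroup X) :
    ez z (coc z ρ g) ≠ 1 ↔
      coc z ρ g ∈ hs 1 (FreeGroup.of ((1 : FreeGroup X) : _ ⧸ zpowers z)) := by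
  have o : cd 1 (FreeGroup.of ((1 : FreeGroup X) : _ ⧸ zpowers z)) = 1 := by
    simpa using TS1_cd (1 : Kz z) ((1 : FreeGroup X) : _ ⧸ zpowers z)
  have t : HT (hs 1 (FreeGroup.of ((1 : FreeGroup X) : _ ⧸ zpowers z))) := ⟨_, _, o, rfl⟩
  let P : Kz z → Prop := fun u =>
    (ez z u ≠ 1 ↔ u ∈ hs 1 (FreeGroup.of ((1 : FreeGroup X) : _ ⧸ zpowers z)))
  have p1 : P 1 := iff_of_false (by simp) (left_notMem_hs _ _)
  have step : ∀ y : FreeGroup X,
      P (coc z ρ y) ↔ P (coc z ρ y * FreeGroup.of (y : _ ⧸ zpowers z)) := fun y => by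
    by_cases c : y ∈ zpowers z
    · rw [TS1_coc_mem h c, one_mul, (TS1_one z y).2 c]
      refine iff_of_true p1 (iff_of_true ?_ (right_mem_hs o))
      rw [TS1_ez_mem (one_mem _)]
      decide
    · generalize coc z ρ y = u
      refine iff_congr (by rw [map_mul, TS1_ez_not c, mul_one]) ⟨fun a => ?_, fun a => ?_⟩
      · by_contra b
        obtain ⟨e, f⟩ := hs_inj o (by rw [cd_comm]; exact TS1_cd u _)
          (t.edge (by rw [cd_comm]; exact TS1_cd u _) b a)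
        rw [← f, eq_comm, mul_eq_one_iff_inv_eq, ← lt_true, ← lt_true, lt_inv] at e
        simpa using lt_inj e
      · by_contra b
        obtain ⟨e, f⟩ := hs_inj o (TS1_cd u _) (t.edge (TS1_cd u _) b a)
        rw [← e, one_mul] at f
        exact c ((TS1_one z y).1 (FreeGroup.of_injective f).symm)
  have := TS1_ind (fun g => P (coc z ρ g)) (fun g x => TS1_walk h P g x fun p _ => step _) g 1
  rw [TS1_coc_one, one_mul] at this
  exact this.1 p1

theorem TS1_side (hz : zpowers z = cen z) (h : TS W z ρ) (k g : FreeGroup X) :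
    InA z ρ (k⁻¹ * g) ↔
      coc z ρ g ∈ hs (coc z ρ k) (coc z ρ k * FreeGroup.of (k : _ ⧸ zpowers z)) := by
  have a : coc z ρ g = coc z ρ k * ac z k (coc z ρ (k⁻¹ * g)) := by
    rw [← coc_mul, mul_inv_cancel_left]
  have b : FreeGroup.of (k : _ ⧸ zpowers z) =
      ac z k (FreeGroup.of ((1 : FreeGroup X) : _ ⧸ zpowers z)) := by rw [TS1_ac, mul_one]
  have c : ∀ u v : Kz z, cd (coc z ρ k * ac z k u) (coc z ρ k * ac z k v) = cd u v := fun u v => by
    rw [cd_smul, cd, cd, ← map_inv, ← map_mul, TS1_norm]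
  have e := c (coc z ρ (k⁻¹ * g)) 1
  rw [map_one, mul_one] at e
  rw [inA_iff hz, TS1_side_one h, a, b, hs, hs, Set.mem_ofPred_eq, Set.mem_ofPred_eq, c, e]

end side

open Classical in
/-- membership in a translate of the far side is read off from the cocycle -/
theorem ts_side (hz : zpowers z = cen z) (h : TS W z ρ) (k g : FreeGroup X) :
    InA z ρ (k⁻¹ * g) ↔
      coc z ρ g ∈ hs (coc z ρ k) (coc z ρ k * FreeGroup.of (k : _ ⧸ zpowers z)) :=
  TS1_side hz h k g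

theorem ts_cut (hz : zpowers z = cen z) (h : TS W z ρ) :
    Cut (cl W) (cen z) {g | InA z ρ g} ∧ z • {g | InA z ρ g} = {g | InA z ρ g} ∧
      ∀ k : FreeGroup X, Nest {g | InA z ρ g} (k • {g | InA z ρ g}) := by
  classical
  have s : ∀ k : FreeGroup X, k • {g | InA z ρ g} = coc z ρ ⁻¹'
      hs (coc z ρ k) (coc z ρ k * FreeGroup.of (k : _ ⧸ zpowers z)) := fun k =>
    Set.ext fun g => mem_smul'.trans (TS1_side hz h k g)
  have s1 := s 1
  rw [one_smul] at s1
  refine ⟨cut_iff.2 ⟨sat_iff.2 ?_, fun x => ⟨((ρ x).map fun p => p.1⁻¹).toFinset, fun y hy => ?_⟩⟩,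
    ?_, fun k => ?_⟩
  · have e : ∀ y, ∀ w ∈ W, (InA z ρ y ↔ InA z ρ (y * w)) := fun y w hw => by
      rw [inA_iff hz, inA_iff hz, coc_mul, TS1_coc_io (h.2.1 w hw), map_one, mul_one]
    rintro x y ⟨w, hw, rfl | rfl⟩
    exacts [e x w hw, (e y w hw).symm]
  · by_contra c
    refine hy ((inA_iff hz).trans ((TS1_walk h (fun u => ez z u ≠ 1) y x fun p hp => ?_).trans
      (inA_iff hz).symm))
    rw [map_mul, TS1_ez_not fun a => c ⟨y * p.1, hz ▸ a, p.1⁻¹, ?_, by simp⟩, mul_one]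
    exact List.mem_toFinset.2 (List.mem_map.2 ⟨p, hp, rfl⟩)
  · rw [s z, s1, TS1_coc_mem h (mem_zpowers z), TS1_coc_one, (TS1_one z z).2 (mem_zpowers z)]
  · rw [s k]
    conv_lhs => rw [s1]
    obtain ⟨b, c, e⟩ := nest_iff.1 (HT.nest
      ⟨coc z ρ 1, _, TS1_cd _ ((1 : FreeGroup X) : _ ⧸ zpowers z), rfl⟩
      ⟨coc z ρ k, _, TS1_cd _ (k : _ ⧸ zpowers z), rfl⟩)
    refine nest_iff.2 ⟨b, c, ?_⟩
    cases b <;> cases c <;> exact fun y hy => e hy

theorem crc_sound (hb : Bx W) (n : z ≠ 1) (hz : zpowers z = cen z) (h : TS W z ρ)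
    (c : CrC z ρ d) : Simp (cl W) (cen z) ∧ OCr (cl W) z d := by
  obtain ⟨cut, inv, nest⟩ := ts_cut hz h
  obtain ⟨k, x, e, he, a₀, a₁, a₂, a₃⟩ := c
  have n₁ : {g | InA z ρ g}.Nonempty := ⟨_, a₂⟩
  have n₂ : {g | InA z ρ g}ᶜ.Nonempty := ⟨_, a₀⟩
  have m : e * x ∉ e • {g | InA z ρ g} := fun b => a₀ (mul_mem_smul.1 b)
  have sub : e • {g | InA z ρ g} ⊆ {g | InA z ρ g} :=
    ((nest e).sub ⟨e * e * x, a₃, by rw [mul_assoc]; exact mul_mem_smul.2 a₂⟩
      ⟨x, a₀, fun b => a₁ (mem_smul'.1 b)⟩).resolve_left fun b => m (b a₂)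
  have ne : e ∉ cen z := fun b => by
    rw [← hz] at b
    have : e • {g | InA z ρ g} = {g | InA z ρ g} :=
      (zpowers_le (H := stabilizer (FreeGroup X) {g | InA z ρ g})).2 inv b
    exact m (this.symm ▸ a₂)
  have me : e ∈ tl (cl W) k • cen d := by
    rw [tl_cen]
    rcases he with rfl | rfl
    · exact self_mem_cen _
    · have : k * d⁻¹ * k⁻¹ = (k * d * k⁻¹)⁻¹ := by group
      rw [this]; exact inv_mem (self_mem_cen _)
  exact ⟨simp_of_nest hb (ax_cen n) cut n₁ n₂ nest, k, fun b => ne (b ▸ me), e, me, _, cut,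
    crs_of_sub hb (ax_cen n) cut n₁ n₂ ne sub⟩

theorem crc_ex (hb : Bx W) (n : z ≠ 1) (hz : zpowers z = cen z) (h : TS W z ρ)
    (t : Two (cl W) (cen z) {g | InA z ρ g}) (n' : d ≠ 1) (c : OCr (cl W) z d) : CrC z ρ d := by
  obtain ⟨-, -, nest⟩ := ts_cut hz h
  obtain ⟨k, -, y, hy, B, hB, b₁, b₂⟩ := c
  rw [tl_cen] at hy
  have y1 : y ≠ 1 := by
    rintro rfl
    exact b₁.not_compl (by simpa using b₂)
  have sB : Sep B (cen (k * d * k⁻¹)) := ⟨y, hy, y1, b₁, b₂⟩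
  have sA : Sep {g | InA z ρ g} (cen (k * d * k⁻¹)) := by
    rcases t.eq hB b₁.nonempty b₂.nonempty with e | e
    · rwa [e] at sB
    · have := sB.compl
      rwa [e, compl_compl] at this
  have f1 : k * d * k⁻¹ ≠ 1 := by simpa using n'
  obtain ⟨e, he, p, q⟩ : ∃ e, (e = k * d * k⁻¹ ∨ e = k * d⁻¹ * k⁻¹) ∧ Ev {g | InA z ρ g} e ∧
      Ev {g | InA z ρ g}ᶜ e⁻¹ := by
    rcases sA.ev (ax_cen f1) (self_mem_cen _) f1 with a | a
    · exact ⟨_, .inl rfl, a⟩
    · exact ⟨(k * d * k⁻¹)⁻¹, .inr (by group), a.2, by rw [inv_inv]; exact a.1⟩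
  have sub : e • {g | InA z ρ g} ⊆ {g | InA z ρ g} := by
    refine ((nest e).sub (p.inter (p.smul_comm (Commute.refl e))).nonempty ?_).resolve_left
      fun b => ?_
    · rw [← smul_compl']
      exact (q.inter (q.smul_comm (Commute.refl e).inv_right)).nonempty
    · refine t.2.1.ne_empty (q.empty_of_sub fun w hw => ?_)
      have := b (mem_smul'.1 hw)
      rwa [inv_inv, mul_mem_smul] at this
  obtain ⟨x, a, b⟩ : ∃ x, ¬ InA z ρ x ∧ InA z ρ (e * x) := by
    by_contra c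
    refine t.2.2.1.ne_empty (Ev.empty_of_sub (g := e) (by rwa [compl_compl]) fun w hw i => ?_)
    exact c ⟨e⁻¹ * w, mem_smul'.1 hw, by rwa [mul_inv_cancel_left]⟩
  exact ⟨k, x, e, he, a, fun i => a (sub (mem_smul'.2 i)), b, by
    rw [mul_assoc]; exact sub (mul_mem_smul.2 b)⟩

end Pool.Agent.Work.MP_3bdf32_al
end
end
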